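import Pool.Agent.UD0.CodDefs
import Pool.Agent.UDV.Cnt

/-!
# UD0, coding A: algebraic elements, degrees

A product formula field `S : PF d L` of characteristic zero gives a structure `S.toV : UDV.PF 1 L`
(with `p = 1` the two axioms on separability and constants of `UDV.PF` are trivial); so the lemmas on
degrees of `UDV.Deg`, `UDV.DegB`, `UDV.Cnt` which do not need a prime number can be used:
`S.toV.deg`, `S.toV.cnt`, `S.toV.abs_ord_le`, ...  (`S.toV.ord = S.ord` etc. are `rfl`).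

PROOFS.
* `Alg x` is `IsAlgebraic ℤ x`: use `IsAlgebraic.sub`, `IsAlgebraic.inv` etc. (`Alg.iff`).
* `alg_of_torsion`: `X ^ e - 1`.
* `Alg.of_pow`: `IsAlgebraic.of_pow`, or compose the polynomial with `X ^ n`.
* `alg_map`: `aeval (f x) q = f (aeval x q)` (`Polynomial.aeval_def`, `hom_eval₂`), `f` injective.
* `deg_pos`: if `deg x = 0` then `ord P x = 0` for all `P` by `abs_ord_le` (and `x ≠ 0` because `0` is
  algebraic), so `Alg x` by `S.const`.
* `exists_delta`: `S.δ_const`.
-/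

open Polynomial

namespace UD0

universe u

section alg

variable {K : Type u} [Field K]

theorem Alg.iff {x : K} : Alg x ↔ IsAlgebraic ℤ x := Iff.rfl

theorem alg_int [CharZero K] (n : ℤ) : Alg (n : K) := by
  have h := isAlgebraic_algebraMap (R := ℤ) (A := K) n
  rwa [eq_intCast] at h

theorem alg_nat [CharZero K] (n : ℕ) : Alg (n : K) := by
  have h := alg_int (K := K) (n : ℤ)
  rwa [Int.cast_natCast] at h

theorem Alg.sub {x y : K} (hx : Alg x) (hy : Alg y) : Alg (x - y) :=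
  IsAlgebraic.sub (R := ℤ) hx hy

theorem Alg.mul {x y : K} (hx : Alg x) (hy : Alg y) : Alg (x * y) :=
  IsAlgebraic.mul (R := ℤ) hx hy

theorem Alg.inv {x : K} (hx : Alg x) : Alg x⁻¹ :=
  IsAlgebraic.inv (R := ℤ) hx

theorem Alg.of_pow {x : K} {n : ℕ} (hn : 0 < n) (hx : Alg (x ^ n)) : Alg x :=
  IsAlgebraic.of_pow (R := ℤ) hn hx

theorem alg_of_torsion {x : K} {e : ℕ} (he : 0 < e) (hx : x ^ e = 1) : Alg x := by
  refine ⟨X ^ e - 1, ?_, by simp [hx]⟩
  intro h
  have h1 := congrArg natDegree h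
  rw [show (1 : ℤ[X]) = C 1 from C_1.symm, natDegree_X_pow_sub_C, natDegree_zero] at h1
  omega

theorem alg_map {L : Type u} [Field L] (f : K →+* L) {x : K} : Alg (f x) ↔ Alg x := by
  have key : ∀ q : ℤ[X], aeval (f x) q = f (aeval x q) := by
    intro q
    rw [aeval_def, aeval_def, hom_eval₂]
    congr 1
    exact RingHom.ext_int _ _
  constructor
  · rintro ⟨q, hq, h⟩
    refine ⟨q, hq, ?_⟩
    rw [key, map_eq_zero] at h
    exact h
  · rintro ⟨q, hq, h⟩
    exact ⟨q, hq, by rw [key, h, map_zero]⟩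

/-- `x` nonconstant implies `x ≠ 0`, `x ≠ 1`, and `1 - x`, `x⁻¹` nonconstant. -/
theorem ne_zero_of_nc [CharZero K] {x : K} (hx : ¬ Alg x) : x ≠ 0 := by
  rintro rfl
  apply hx
  have h := alg_nat (K := K) 0
  rwa [Nat.cast_zero] at h

theorem ne_one_of_nc [CharZero K] {x : K} (hx : ¬ Alg x) : x ≠ 1 := by
  rintro rfl
  apply hx
  have h := alg_nat (K := K) 1
  rwa [Nat.cast_one] at h

theorem one_sub_nc [CharZero K] {x : K} (hx : ¬ Alg x) : ¬ Alg (1 - x) := by
  intro h
  apply hx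
  have h1 := alg_nat (K := K) 1
  rw [Nat.cast_one] at h1
  have h2 := h1.sub h
  rwa [sub_sub_cancel] at h2

end alg

namespace PF

variable {d : ℕ} {L : Type u} [Field L] (S : PF d L)

/-- the structure of the project UDV, with `p = 1` -/
def toV : UDV.PF 1 L where
  I := S.I
  wt := S.wt
  wt_pos := S.wt_pos
  ord := S.ord
  ord_zero := S.ord_zero
  ord_mul := S.ord_mul
  ord_add := S.ord_add
  fin := S.fin
  prod := S.prod
  d := d
  δ := S.δ
  b := S.b
  b_fin := S.b_fin
  δ_int := S.δ_int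
  δ_ord := S.δ_ord
  δ_sep := fun x _ => ⟨x, pow_one x⟩
  const := fun _ _ => ⟨1, one_pos, by rw [pow_one, pow_one]⟩

theorem exists_ord_ne [CharZero L] {x : L} (hx : ¬ Alg x) : ∃ P, S.ord P x ≠ 0 := by
  by_contra h
  push Not at h
  exact hx (S.const (ne_zero_of_nc hx) h)

theorem deg_pos [CharZero L] {x : L} (hx : ¬ Alg x) : 0 < S.toV.deg x := by
  obtain ⟨P, hP⟩ := S.exists_ord_ne hx
  have h1 : |S.ord P x| ≤ S.toV.deg x := S.toV.abs_ord_le P x
  have h2 : 0 < |S.ord P x| := abs_pos.2 hP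
  omega

/-- a nonconstant element has a zero -/
theorem exists_zero [CharZero L] {x : L} (hx : ¬ Alg x) : ∃ P, 0 < S.ord P x := by
  by_contra h
  push Not at h
  have h1 := S.deg_pos hx
  rw [S.toV.deg_zeros (ne_zero_of_nc hx)] at h1
  have h2 : ∑ᶠ P, (S.toV.wt P : ℤ) * max 0 (S.toV.ord P x) = 0 := by
    refine finsum_eq_zero_of_forall_eq_zero fun P => ?_
    have h3 : S.toV.ord P x ≤ 0 := h P
    rw [max_eq_left h3, mul_zero]
  omega

theorem nc_of_ord {x : L} {P : S.I} (h : S.ord P x ≠ 0) : ¬ Alg x := fun ha =>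
  h (S.const' ha P)

theorem exists_delta {x : L} (hx : ¬ Alg x) : ∃ i, S.δ i x ≠ 0 := by
  by_contra h
  push Not at h
  exact hx (S.δ_const x h)

end PF

end UD0
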