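import Pool.Agent.UD0.Base
import Pool.Agent.UD0.CodA

/-!
# UD0: the algebraic elements form a subfield

`Alg x` is by definition `IsAlgebraic ℤ x`.
-/

set_option autoImplicit false

open Polynomial

namespace UD0

universe u

variable {K : Type u} [Field K]

theorem alg_iff {x : K} : Alg x ↔ IsAlgebraic ℤ x := Iff.rfl

theorem alg_iff_rat [CharZero K] {x : K} : Alg x ↔ IsAlgebraic ℚ x := by
  rw [alg_iff]
  exact IsFractionRing.isAlgebraic_iff ℤ ℚ K

section

variable [CharZero K]

theorem Alg.add {x y : K} (hx : Alg x) (hy : Alg y) : Alg (x + y) := by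
  rw [alg_iff_rat] at *
  exact IsAlgebraic.add hx hy

theorem Alg.neg {x : K} (hx : Alg x) : Alg (-x) := by
  rw [alg_iff_rat] at *
  exact IsAlgebraic.neg hx

theorem Alg.pow {x : K} (hx : Alg x) (n : ℕ) : Alg (x ^ n) := by
  rw [alg_iff_rat] at *
  exact IsAlgebraic.pow hx n

theorem alg_rat (n : ℚ) : Alg (n : K) := by
  rw [alg_iff_rat]
  exact isAlgebraic_algebraMap n

theorem alg_zero : Alg (0 : K) := by exact_mod_cast alg_nat (K := K) 0

theorem alg_one : Alg (1 : K) := by exact_mod_cast alg_nat (K := K) 1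

theorem Alg.div {x y : K} (hx : Alg x) (hy : Alg y) : Alg (x / y) := by
  rw [div_eq_mul_inv]
  exact hx.mul hy.inv

theorem Alg.zpow {x : K} (hx : Alg x) (n : ℤ) : Alg (x ^ n) := by
  cases n with
  | ofNat n => simpa using hx.pow n
  | negSucc n =>
    rw [zpow_negSucc]
    exact (hx.pow _).inv

omit [CharZero K] in
/-- integral elements are algebraic -/
theorem Alg.of_int {x : K} (h : IsIntegral ℤ x) : Alg x := h.isAlgebraic

/-- The field of constants: the elements algebraic over the prime field. -/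
def kk (K : Type u) [Field K] [CharZero K] : Subfield K where
  carrier := {x | Alg x}
  mul_mem' hx hy := Alg.mul hx hy
  one_mem' := alg_one
  add_mem' hx hy := Alg.add hx hy
  zero_mem' := alg_zero
  neg_mem' hx := Alg.neg hx
  inv_mem' _ hx := Alg.inv hx

theorem mem_kk {x : K} : x ∈ kk K ↔ Alg x := Iff.rfl

end

/-- ring homomorphisms preserve algebraic elements -/
theorem Alg.map {L : Type*} [Field L] {x : K} (h : Alg x) (e : K →+* L) : Alg (e x) := by
  obtain ⟨f, hf, hx⟩ := h
  refine ⟨f, hf, ?_⟩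
  have := Polynomial.hom_eval₂ f (algebraMap ℤ K) e x
  rw [aeval_def] at hx ⊢
  rw [hx, map_zero] at this
  rw [this]
  congr 1
  exact RingHom.ext_int _ _

/-- and reflect them -/
theorem Alg.of_map {L : Type*} [Field L] {x : K} (e : K →+* L) (h : Alg (e x)) : Alg x := by
  obtain ⟨f, hf, hx⟩ := h
  refine ⟨f, hf, e.injective ?_⟩
  have := Polynomial.hom_eval₂ f (algebraMap ℤ K) e x
  rw [aeval_def] at hx ⊢
  rw [this, map_zero, ← hx]
  congr 1
  exact RingHom.ext_int _ _

end UD0
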