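import Mathlib

/-!
# UD0: algebraically independent elements of `ℤ_q` with given residues

PROOF of `exists_transcendental_padic` (`s` finite, or countable, subset of `ℚ_[q]`): the set of the
elements algebraic over the field generated by `s` (or over the ring `Algebra.adjoin ℤ s`) is countable
(`Algebraic.countable` for algebras over countable rings, or a cardinality estimate
`Algebraic.cardinalMk_le_max`), but `ℚ_[q]` is uncountable
(`continuum_le_cardinal_of_nontriviallyNormedField`).
PROOF of `exists_alg_indep` (induction on `d`).  Let `x : Fin d → ℤ_[q]` be algebraically independent with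
the right residues; let `y : ℚ_[q]` be transcendental over `Algebra.adjoin ℤ (range x)` (previous lemma).  For
large `N` the element `q ^ N * y` is in `ℤ_[q]` with norm `< 1`; put `x' = c̃ + q ^ N * y` with an integer
`c̃` lifting `c (last)`.  `x'` is transcendental over the adjoin (otherwise `y` would be algebraic), so the
extended family is algebraically independent
(`AlgebraicIndependent.option_iff` / `AlgebraicIndependent.insert` / `algebraicIndependent_of_...`, after
reindexing `Fin (d + 1)`); its residue is `c (last)` (`PadicInt.toZMod`).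
-/

set_option autoImplicit false

namespace UD0

open Cardinal in
theorem exists_transcendental_padic (q : ℕ) [Fact q.Prime] (s : Set ℚ_[q]) (hs : s.Countable) :
    ∃ y : ℚ_[q], Transcendental (Algebra.adjoin ℤ s) y := by
  have hc : Countable (Algebra.adjoin ℤ s) := by
    rw [← Cardinal.mk_le_aleph0_iff]
    refine (Algebra.cardinalMk_adjoin_le ℤ s).trans ?_
    refine max_le (max_le ?_ ?_) le_rfl
    · exact Cardinal.mk_le_aleph0_iff.2 inferInstance
    · exact Cardinal.mk_le_aleph0_iff.2 hs.to_subtype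
  by_contra h
  push Not at h
  have h1 : {y : ℚ_[q] | IsAlgebraic (Algebra.adjoin ℤ s) y}.Countable :=
    Algebraic.countable (Algebra.adjoin ℤ s) ℚ_[q]
  have h2 : {y : ℚ_[q] | IsAlgebraic (Algebra.adjoin ℤ s) y} = Set.univ := by
    ext y
    simp only [Set.mem_univ, iff_true]
    have h3 := h y
    rw [Transcendental, not_not] at h3
    exact h3
  rw [h2, Set.countable_univ_iff] at h1
  have h3 := continuum_le_cardinal_of_nontriviallyNormedField ℚ_[q]
  have h4 : #ℚ_[q] ≤ ℵ₀ := Cardinal.mk_le_aleph0_iff.2 h1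
  exact absurd (h3.trans h4) (not_le.2 Cardinal.aleph0_lt_continuum)

theorem exists_alg_indep (q : ℕ) [Fact q.Prime] (d : ℕ) (c : Fin d → ZMod q) :
    ∃ x : Fin d → ℤ_[q], AlgebraicIndependent ℤ (fun i => ((x i : ℤ_[q]) : ℚ_[q])) ∧
      ∀ i, PadicInt.toZMod (x i) = c i := by
  induction d with
  | zero =>
    refine ⟨fun i => i.elim0, ?_, fun i => i.elim0⟩
    rw [algebraicIndependent_empty_type_iff]
    exact FaithfulSMul.algebraMap_injective ℤ ℚ_[q]
  | succ d ih =>
    obtain ⟨x, hx, hxc⟩ := ih (fun i => c i.castSucc)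
    obtain ⟨f, hf⟩ : ∃ f : Fin d → ℚ_[q], f = fun i => ((x i : ℤ_[q]) : ℚ_[q]) := ⟨_, rfl⟩
    rw [← hf] at hx
    obtain ⟨y, hy⟩ := exists_transcendental_padic q (Set.range f) (Set.countable_range f)
    -- a small multiple
    have hq : ‖(q : ℚ_[q])‖ < 1 := Padic.norm_p_lt_one
    obtain ⟨N, hN⟩ : ∃ N : ℕ, ‖(q : ℚ_[q]) ^ N * y‖ < 1 := by
      have h1 : (0 : ℝ) < 1 / (‖y‖ + 1) := by positivity
      obtain ⟨N, hN⟩ := exists_pow_lt_of_lt_one h1 hq
      refine ⟨N, ?_⟩
      rw [norm_mul, norm_pow]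
      have h2 : 0 ≤ ‖y‖ := norm_nonneg y
      have h3 : ‖(q : ℚ_[q])‖ ^ N * ‖y‖ ≤ 1 / (‖y‖ + 1) * ‖y‖ :=
        mul_le_mul_of_nonneg_right hN.le h2
      have h4 : 1 / (‖y‖ + 1) * ‖y‖ < 1 := by
        rw [one_div_mul_eq_div, div_lt_one (by positivity)]
        linarith
      linarith
    obtain ⟨z, hz⟩ : ∃ z : ℤ_[q], (z : ℚ_[q]) = (q : ℚ_[q]) ^ N * y :=
      ⟨⟨(q : ℚ_[q]) ^ N * y, hN.le⟩, rfl⟩
    have hz1 : PadicInt.toZMod z = 0 := by
      rw [← RingHom.mem_ker, PadicInt.ker_toZMod, IsLocalRing.mem_maximalIdeal,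
        PadicInt.mem_nonunits, PadicInt.norm_def, hz]
      exact hN
    obtain ⟨x', hx'⟩ : ∃ x' : ℤ_[q], x' = (((c (Fin.last d)).val : ℕ) : ℤ_[q]) + z := ⟨_, rfl⟩
    have hres : PadicInt.toZMod x' = c (Fin.last d) := by
      rw [hx', map_add, hz1, add_zero, map_natCast, ZMod.natCast_zmod_val]
    have htr : Transcendental (Algebra.adjoin ℤ (Set.range f)) ((x' : ℤ_[q]) : ℚ_[q]) := by
      intro halg
      apply hy
      have hq0 : (q : ℚ_[q]) ≠ 0 := by
        have := (Fact.out : q.Prime).ne_zero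
        exact_mod_cast this
      have e1 : y = (((x' : ℤ_[q]) : ℚ_[q]) - (((c (Fin.last d)).val : ℕ) : ℚ_[q])) *
          ((q : ℚ_[q]) ^ N)⁻¹ := by
        rw [hx']
        push_cast
        rw [hz, add_sub_cancel_left, mul_comm ((q : ℚ_[q]) ^ N) y, mul_assoc,
          mul_inv_cancel₀ (pow_ne_zero _ hq0), mul_one]
      have a1 : IsAlgebraic (Algebra.adjoin ℤ (Set.range f))
          (((c (Fin.last d)).val : ℕ) : ℚ_[q]) := by
        have := isAlgebraic_algebraMap (R := Algebra.adjoin ℤ (Set.range f)) (A := ℚ_[q])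
          (((c (Fin.last d)).val : ℕ) : Algebra.adjoin ℤ (Set.range f))
        rwa [map_natCast] at this
      have a2 : IsAlgebraic (Algebra.adjoin ℤ (Set.range f)) ((q : ℚ_[q]) ^ N) := by
        have := isAlgebraic_algebraMap (R := Algebra.adjoin ℤ (Set.range f)) (A := ℚ_[q])
          ((q : Algebra.adjoin ℤ (Set.range f)) ^ N)
        rwa [map_pow, map_natCast] at this
      rw [e1]
      exact (halg.sub a1).mul a2.inv
    have hopt := (hx.option_iff_transcendental ((x' : ℤ_[q]) : ℚ_[q])).2 htr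
    refine ⟨Fin.snoc (α := fun _ => ℤ_[q]) x x', ?_, ?_⟩
    · have e : (fun i : Fin (d + 1) => (((Fin.snoc (α := fun _ => ℤ_[q]) x x' : Fin (d + 1) → ℤ_[q])
          i : ℤ_[q]) : ℚ_[q])) =
          (fun o : Option (Fin d) => o.elim ((x' : ℤ_[q]) : ℚ_[q]) f) ∘ finSuccEquivLast := by
        funext i
        refine Fin.lastCases ?_ (fun j => ?_) i
        · rw [Fin.snoc_last, Function.comp_apply, finSuccEquivLast_last]
          rfl
        · rw [Fin.snoc_castSucc, Function.comp_apply, finSuccEquivLast_castSucc, hf]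
          rfl
      rw [e]
      exact (algebraicIndependent_equiv finSuccEquivLast).2 hopt
    · intro i
      refine Fin.lastCases ?_ (fun j => ?_) i
      · rw [Fin.snoc_last]
        exact hres
      · rw [Fin.snoc_castSucc]
        exact hxc j

end UD0
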