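import Mathlib

/-!
# UD0: Gauss's formula `(x ^ l - y ^ l) / (x - y) = A ^ 2 - l* B ^ 2`

`l` an odd prime, `lst l = (-1) ^ ((l - 1) / 2) * l`, `NN ν x`: `x` is of the form `a ^ 2 - ν b ^ 2`.
PROOF of `gauss_cyc`.  `E = CyclotomicField l ℚ`, `ζ` a primitive `l`-th root of unity, `χ` the quadratic character of
`ZMod l`, `g = ∑ j, χ j ζ ^ j` the Gauss sum: `g ^ 2 = χ(-1) l = lst l` (`gaussSum_sq`).  `Φ_l = ∏ (X - ζ ^ j)` over `j ∈ (ZMod l)ˣ`
(`Polynomial.cyclotomic_eq_prod_X_sub_primitiveRoots`).  `U = ∏ (X - ζ ^ j)` over the squares `j`, `U' = ∏ (X - ζ ^ j)` over the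
nonsquares.  `Gal(E/ℚ) = (ZMod l)ˣ`, `σ_a ζ = ζ ^ a` (`galEquiv..`, `IsCyclotomicExtension.autEquivPow`, irreducibility of the
cyclotomic polynomial over `ℚ`): `σ_a g = χ(a) g`; `σ_a` fixes `U` and `U'` if `a` is a square and exchanges them otherwise.
So `U + U'` has coefficients fixed by all `σ_a`, i.e. in `ℚ`, and so has `(U - U') / g` (`g ≠ 0`).  Put
`A = (U + U') / 2`, `B = (U - U') / (2 g)`: `A ^ 2 - g ^ 2 B ^ 2 = U U' = Φ_l`, and `A, B ∈ ℚ[X]` (`ℚ[X] → E[X]` is injective).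
PROOF of `nn_gauss` (`F` a field of characteristic zero).  For `y ≠ 0`:
`(x ^ l - y ^ l) = (x - y) y ^ (l - 1) Φ_l(x / y)` (`Polynomial.cyclotomic_prime`, geometric sum), `l - 1` is even, so
`(x ^ l - y ^ l) (x - y) = ((x - y) y ^ ((l-1)/2) A(x/y)) ^ 2 - lst l ((x - y) y ^ ((l-1)/2) B(x/y)) ^ 2`.  For `y = 0`: `x ^ (l + 1)` is a square.
PROOF of `nn_mul` : `(a ^ 2 - ν b ^ 2) (c ^ 2 - ν d ^ 2) = (a c + ν b d) ^ 2 - ν (a d + b c) ^ 2`.
PROOF of `nn_pow` (induction on `s`; `s = 0`: `(x - y) ^ 2`).  `u = x ^ (l ^ s) - y ^ (l ^ s)`, `v = x ^ (l ^ (s+1)) - y ^ (l ^ (s+1))`: `u (x - y)` and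
`v u` (from `nn_gauss`) are of the form, so is their product `v (x - y) u ^ 2`; if `u ≠ 0` divide by `u ^ 2`; if `u = 0` then `v = 0`.
-/

set_option autoImplicit false

open Polynomial

namespace UD0

/-- the prime `l` with the sign such that it is `1` modulo `4` -/
def lst (l : ℕ) : ℤ := (-1) ^ ((l - 1) / 2) * l

/-- norms from the quadratic extension given by `ν` -/
def NN {F : Type*} [Field F] (ν x : F) : Prop := ∃ a b : F, x = a ^ 2 - ν * b ^ 2

/-- The powers of a primitive `l`-th root of unity are all the primitive roots. -/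
private theorem cyc_prod99 {E : Type*} [Field E] {l : ℕ} [Fact l.Prime] {ζ : E}
    (hζ : IsPrimitiveRoot ζ l) :
    cyclotomic l E = ∏ j ∈ (Finset.univ : Finset (ZMod l)).filter (fun j => j ≠ 0),
      (X - C (ζ ^ j.val)) := by
  classical
  have hl : l.Prime := Fact.out
  rw [cyclotomic_eq_prod_X_sub_primitiveRoots hζ]
  symm
  apply Finset.prod_bij (fun (j : ZMod l) _ => ζ ^ j.val)
  · intro j hj
    rw [Finset.mem_filter] at hj
    rw [mem_primitiveRoots hl.pos]
    apply hζ.pow_of_coprime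
    rw [Nat.coprime_comm, hl.coprime_iff_not_dvd]
    intro h
    have h1 := Nat.eq_zero_of_dvd_of_lt h (ZMod.val_lt j)
    exact hj.2 ((ZMod.val_eq_zero j).1 h1)
  · intro i _ j _ h
    exact ZMod.val_injective l (hζ.pow_inj (ZMod.val_lt i) (ZMod.val_lt j) h)
  · intro μ hμ
    rw [mem_primitiveRoots hl.pos] at hμ
    obtain ⟨k, hk, hkμ⟩ := hζ.eq_pow_of_pow_eq_one hμ.pow_eq_one
    refine ⟨(k : ZMod l), ?_, ?_⟩
    · rw [Finset.mem_filter]
      refine ⟨Finset.mem_univ _, fun h => ?_⟩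
      have h1 : k = 0 := by
        rw [ZMod.natCast_eq_zero_iff] at h
        exact Nat.eq_zero_of_dvd_of_lt h hk
      rw [h1, pow_zero] at hkμ
      rw [← hkμ] at hμ
      have := hμ.eq_orderOf
      rw [orderOf_one] at this
      exact hl.one_lt.ne' this
    · rw [ZMod.val_natCast, Nat.mod_eq_of_lt hk, hkμ]
  · intro j _
    rfl

open Classical in
private theorem gauss_aux99 {E : Type*} [Field E] [CharZero E] [Algebra ℚ E]
    [FiniteDimensional ℚ E] [IsGalois ℚ E] {l : ℕ} [Fact l.Prime] (h2 : l ≠ 2) {ζ : E}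
    (hζ : IsPrimitiveRoot ζ l) :
    ∃ A B : ℚ[X], cyclotomic l ℚ = A ^ 2 - C ((lst l : ℤ) : ℚ) * B ^ 2 := by
  have hl : l.Prime := Fact.out
  have hodd : l % 2 = 1 := hl.eq_two_or_odd.resolve_left h2
  have hchar : ringChar (ZMod l) ≠ 2 := by
    rwa [ZMod.ringChar_zmod_n]
  -- the characters
  let ψ : AddChar (ZMod l) E := AddChar.zmodChar l hζ.pow_eq_one
  have hψ : ∀ j, ψ j = ζ ^ j.val := fun j => AddChar.zmodChar_apply _ _
  have hprim : ψ.IsPrimitive := AddChar.zmodChar_primitive_of_primitive_root l hζ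
  let χ0 : MulChar (ZMod l) ℤ := quadraticChar (ZMod l)
  let χ : MulChar (ZMod l) E := χ0.ringHomComp (Int.castRingHom E)
  have hχ : ∀ j, χ j = ((χ0 j : ℤ) : E) := fun j => rfl
  have hχ1 : χ ≠ 1 := by
    obtain ⟨a, ha⟩ := quadraticChar_exists_neg_one' hchar
    intro h
    have h3 : χ (a : ZMod l) = 1 := by
      rw [h, MulChar.one_apply_coe]
    rw [hχ] at h3
    have h4 : χ0 (a : ZMod l) = -1 := ha
    rw [h4] at h3
    norm_num at h3
  have hχ2 : χ.IsQuadratic := (quadraticChar_isQuadratic (ZMod l)).comp _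
  let g : E := gaussSum χ ψ
  have hg2 : g ^ 2 = ((lst l : ℤ) : E) := by
    have h3 : gaussSum χ ψ ^ 2 = χ (-1) * Fintype.card (ZMod l) := gaussSum_sq hχ1 hχ2 hprim
    have h4 : χ0 (-1) = (-1) ^ (l / 2) := by
      have h5 := quadraticChar_neg_one hchar
      rw [ZMod.card, ZMod.χ₄_eq_neg_one_pow hodd] at h5
      exact h5
    have h6 : (l - 1) / 2 = l / 2 := by omega
    change gaussSum χ ψ ^ 2 = _
    rw [h3, hχ, h4, ZMod.card]
    unfold lst
    rw [h6]
    push_cast
    rfl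
  have hg0 : g ≠ 0 := by
    intro h
    rw [h] at hg2
    have h3 : (lst l : ℤ) = 0 := by
      have : ((lst l : ℤ) : E) = 0 := by
        rw [← hg2]
        ring
      exact_mod_cast this
    unfold lst at h3
    have h4 : (l : ℤ) ≠ 0 := by exact_mod_cast hl.ne_zero
    rcases mul_eq_zero.1 h3 with h5 | h5
    · exact absurd h5 (pow_ne_zero _ (by norm_num))
    · exact h4 h5
  -- the two factors
  let P : ℤ → E[X] := fun s => ∏ j ∈ (Finset.univ : Finset (ZMod l)).filter (fun j => χ0 j = s),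
    (X - C (ψ j))
  have hPP : P 1 * P (-1) = cyclotomic l E := by
    rw [cyc_prod99 hζ]
    change (∏ j ∈ _, (X - C (ψ j))) * (∏ j ∈ _, (X - C (ψ j))) = _
    rw [← Finset.prod_union]
    · apply Finset.prod_congr
      · ext j
        rw [Finset.mem_union, Finset.mem_filter, Finset.mem_filter, Finset.mem_filter]
        constructor
        · rintro (h | h)
          · refine ⟨Finset.mem_univ _, ?_⟩
            rintro rfl
            have h3 : χ0 0 = 0 := MulChar.map_zero _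
            rw [h3] at h
            norm_num at h
          · refine ⟨Finset.mem_univ _, ?_⟩
            rintro rfl
            have h3 : χ0 0 = 0 := MulChar.map_zero _
            rw [h3] at h
            norm_num at h
        · rintro ⟨-, h⟩
          rcases quadraticChar_dichotomy h with h3 | h3
          · exact Or.inl ⟨Finset.mem_univ _, h3⟩
          · exact Or.inr ⟨Finset.mem_univ _, h3⟩
      · intro j _
        rw [hψ]
    · rw [Finset.disjoint_left]
      intro j hj hj'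
      rw [Finset.mem_filter] at hj hj'
      have h3 := hj.2
      rw [hj'.2] at h3
      norm_num at h3
  -- the action of the automorphisms
  have act : ∀ σ : E ≃ₐ[ℚ] E, ∃ a : (ZMod l)ˣ, ∀ j, σ (ψ j) = ψ ((a : ZMod l) * j) := by
    intro σ
    refine ⟨hζ.autToPow ℚ σ, fun j => ?_⟩
    have h3 := hζ.autToPow_spec ℚ σ
    rw [hψ, map_pow, ← h3, ← pow_mul, ← AddChar.zmodChar_apply' hζ.pow_eq_one]
    change ψ _ = ψ _
    congr 1
    push_cast
    rw [ZMod.natCast_zmod_val, ZMod.natCast_zmod_val]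
  have actP : ∀ (σ : E ≃ₐ[ℚ] E) (a : (ZMod l)ˣ), (∀ j, σ (ψ j) = ψ ((a : ZMod l) * j)) →
      ∀ s, (P s).map (σ : E →+* E) = P (χ0 (a : ZMod l) * s) := by
    intro σ a ha s
    have haa : χ0 (a : ZMod l) * χ0 (a : ZMod l) = 1 := by
      have := quadraticChar_sq_one (F := ZMod l) (a := (a : ZMod l)) a.ne_zero
      rw [sq] at this
      exact this
    change Polynomial.map _ (∏ j ∈ _, (X - C (ψ j))) = ∏ j ∈ _, (X - C (ψ j))
    rw [Polynomial.map_prod]
    apply Finset.prod_bij (fun (j : ZMod l) _ => (a : ZMod l) * j)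
    · intro j hj
      rw [Finset.mem_filter] at hj ⊢
      refine ⟨Finset.mem_univ _, ?_⟩
      rw [map_mul, hj.2]
    · intro i _ j _ h
      exact a.isUnit.mul_right_injective h
    · intro j hj
      rw [Finset.mem_filter] at hj
      refine ⟨(a⁻¹ : (ZMod l)ˣ) * j, ?_, ?_⟩
      · rw [Finset.mem_filter]
        refine ⟨Finset.mem_univ _, ?_⟩
        have h3 : χ0 (a : ZMod l) * χ0 ((a⁻¹ : (ZMod l)ˣ) * j) = χ0 (a : ZMod l) * s := by
          rw [← map_mul, Units.mul_inv_cancel_left, hj.2]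
        have h4 := congrArg (fun t => χ0 (a : ZMod l) * t) h3
        simp only [← mul_assoc, haa, one_mul] at h4
        exact h4
      · rw [Units.mul_inv_cancel_left]
    · intro j _
      rw [Polynomial.map_sub, Polynomial.map_X, Polynomial.map_C]
      change X - C (σ (ψ j)) = _
      rw [ha]
  have actg : ∀ (σ : E ≃ₐ[ℚ] E) (a : (ZMod l)ˣ), (∀ j, σ (ψ j) = ψ ((a : ZMod l) * j)) →
      σ g = ((χ0 (a : ZMod l) : ℤ) : E) * g := by
    intro σ a ha
    have haa : χ0 (a : ZMod l) * χ0 (a : ZMod l) = 1 := by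
      have := quadraticChar_sq_one (F := ZMod l) (a := (a : ZMod l)) a.ne_zero
      rw [sq] at this
      exact this
    have h3 := gaussSum_mulShift χ ψ a
    have h4 : σ g = gaussSum χ (AddChar.mulShift ψ a) := by
      change σ (∑ j, χ j * ψ j) = ∑ j, χ j * (AddChar.mulShift ψ a) j
      rw [map_sum]
      apply Finset.sum_congr rfl
      intro j _
      rw [map_mul, AddChar.mulShift_apply, ha, hχ, map_intCast]
    rw [h4]
    change _ = ((χ0 (a : ZMod l) : ℤ) : E) * gaussSum χ ψ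
    rw [← h3, hχ, ← mul_assoc, ← Int.cast_mul, haa, Int.cast_one, one_mul]
  -- descent
  have desc : ∀ Q : E[X], (∀ σ : E ≃ₐ[ℚ] E, Q.map (σ : E →+* E) = Q) →
      ∃ A : ℚ[X], A.map (algebraMap ℚ E) = Q := by
    intro Q hQ
    have h3 : Q ∈ Polynomial.lifts (algebraMap ℚ E) := by
      rw [Polynomial.lifts_iff_coeff_lifts]
      intro n
      rw [Set.mem_range, ← Set.mem_range, IsGalois.mem_range_algebraMap_iff_fixed]
      intro σ
      have h4 := congrArg (fun R => Polynomial.coeff R n) (hQ σ)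
      simp only [Polynomial.coeff_map] at h4
      exact h4
    rw [Polynomial.mem_lifts] at h3
    exact h3
  have dich : ∀ a : (ZMod l)ˣ, χ0 (a : ZMod l) = 1 ∨ χ0 (a : ZMod l) = -1 := fun a =>
    quadraticChar_dichotomy a.ne_zero
  obtain ⟨A, hA⟩ := desc (C (1 / 2) * (P 1 + P (-1))) (by
    intro σ
    obtain ⟨a, ha⟩ := act σ
    rw [Polynomial.map_mul, Polynomial.map_add, actP σ a ha, actP σ a ha, Polynomial.map_C]
    have h3 : (σ : E →+* E) (1 / 2) = 1 / 2 := by
      rw [map_div₀, map_one, map_ofNat]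
    rw [h3]
    rcases dich a with h4 | h4
    · rw [h4, one_mul, one_mul]
    · rw [h4, mul_one, show (-1 : ℤ) * -1 = 1 by norm_num, add_comm])
  obtain ⟨B, hB⟩ := desc (C (1 / (2 * g)) * (P 1 - P (-1))) (by
    intro σ
    obtain ⟨a, ha⟩ := act σ
    rw [Polynomial.map_mul, Polynomial.map_sub, actP σ a ha, actP σ a ha, Polynomial.map_C]
    have h3 : (σ : E →+* E) (1 / (2 * g)) = 1 / (2 * (((χ0 (a : ZMod l) : ℤ) : E) * g)) := by
      rw [map_div₀, map_one, map_mul, map_ofNat]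
      congr 2
      exact actg σ a ha
    rw [h3]
    rcases dich a with h4 | h4
    · rw [h4, one_mul, one_mul, Int.cast_one, one_mul]
    · rw [h4, mul_one, show (-1 : ℤ) * -1 = 1 by norm_num, Int.cast_neg, Int.cast_one]
      rw [show (1 : E) / (2 * (-1 * g)) = -(1 / (2 * g)) by
        rw [neg_one_mul, mul_neg, div_neg]]
      rw [C_neg]
      ring)
  refine ⟨A, B, ?_⟩
  apply Polynomial.map_injective (algebraMap ℚ E) (algebraMap ℚ E).injective
  rw [Polynomial.map_sub, Polynomial.map_mul, Polynomial.map_pow, Polynomial.map_pow, hA, hB,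
    Polynomial.map_C, map_cyclotomic, ← hPP]
  have h5 : (algebraMap ℚ E) ((lst l : ℤ) : ℚ) = g ^ 2 := by
    rw [hg2]
    exact map_intCast _ _
  rw [h5]
  have h6 : C (g ^ 2) * (C (1 / (2 * g)) * (P 1 - P (-1))) ^ 2 =
      C (1 / 4) * (P 1 - P (-1)) ^ 2 := by
    rw [mul_pow, ← mul_assoc, ← C_pow, ← C_mul]
    congr 2
    field_simp
    norm_num
  rw [h6, mul_pow, ← C_pow, show ((1 : E) / 2) ^ 2 = 1 / 4 by norm_num]
  have h7 : (C (1 / 4 : E) : E[X]) * 4 = 1 := by
    rw [show (4 : E[X]) = C (4 : E) from (map_ofNat C 4).symm, ← C_mul]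
    norm_num
  linear_combination (-(P 1 * P (-1))) * h7

theorem gauss_cyc {l : ℕ} (hl : l.Prime) (h2 : l ≠ 2) :
    ∃ A B : ℚ[X], cyclotomic l ℚ = A ^ 2 - C ((lst l : ℤ) : ℚ) * B ^ 2 := by
  have : Fact l.Prime := ⟨hl⟩
  have : NeZero l := ⟨hl.ne_zero⟩
  have h1 := CyclotomicField.isCyclotomicExtension l ℚ
  have h3 := @IsCyclotomicExtension.isGalois {l} ℚ (CyclotomicField l ℚ) _ _
    (CyclotomicField.algebra l ℚ) h1
  have h4 := @IsCyclotomicExtension.finiteDimensional {l} ℚ _ (CyclotomicField l ℚ) _ _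
    (CyclotomicField.algebra l ℚ) _ h1
  have h5 := @IsCyclotomicExtension.zeta_spec l _ ℚ (CyclotomicField l ℚ) _ _
    (CyclotomicField.algebra l ℚ) h1
  exact @gauss_aux99 (CyclotomicField l ℚ) _ _ (CyclotomicField.algebra l ℚ) h4 h3 l _ h2 _ h5

theorem nn_mul {F : Type*} [Field F] {ν x y : F} (hx : NN ν x) (hy : NN ν y) : NN ν (x * y) := by
  obtain ⟨a, b, rfl⟩ := hx
  obtain ⟨c, d, rfl⟩ := hy
  exact ⟨a * c + ν * b * d, a * d + b * c, by ring⟩

theorem nn_gauss {F : Type*} [Field F] [CharZero F] {l : ℕ} (hl : l.Prime) (h2 : l ≠ 2) (x y : F) :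
    NN ((lst l : ℤ) : F) ((x ^ l - y ^ l) * (x - y)) := by
  obtain ⟨A, B, h⟩ := gauss_cyc hl h2
  have hodd : l % 2 = 1 := hl.eq_two_or_odd.resolve_left h2
  obtain ⟨m, hm⟩ : ∃ m, l + 1 = 2 * m := ⟨(l + 1) / 2, by omega⟩
  by_cases hy : y = 0
  · refine ⟨x ^ m, 0, ?_⟩
    rw [hy, zero_pow hl.ne_zero, sub_zero, sub_zero, ← pow_succ, hm, pow_mul]
    ring
  · have : Fact l.Prime := ⟨hl⟩
    have h3 := congrArg (fun P => Polynomial.aeval (x / y) P) h
    have h4 := congrArg (fun P => Polynomial.eval (x / y) P) (cyclotomic_prime_mul_X_sub_one F l)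
    simp only [map_sub, map_mul, map_pow, Polynomial.aeval_C] at h3
    simp only [Polynomial.eval_mul, Polynomial.eval_sub, Polynomial.eval_X, Polynomial.eval_one,
      Polynomial.eval_pow] at h4
    have h5 : Polynomial.aeval (x / y) (cyclotomic l ℚ) = (cyclotomic l F).eval (x / y) := by
      rw [Polynomial.aeval_def, ← Polynomial.eval_map, map_cyclotomic]
    have h6 : (algebraMap ℚ F) ((lst l : ℤ) : ℚ) = ((lst l : ℤ) : F) := map_intCast _ _
    rw [h5, h6] at h3
    refine ⟨y ^ m * (x / y - 1) * Polynomial.aeval (x / y) A,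
      y ^ m * (x / y - 1) * Polynomial.aeval (x / y) B, ?_⟩
    have h7 : (x ^ l - y ^ l) * (x - y) = (y ^ m) ^ 2 * (((x / y) ^ l - 1) * (x / y - 1)) := by
      have e1 : (y ^ m) ^ 2 = y ^ l * y := by
        rw [← pow_mul, mul_comm m 2, ← hm, pow_succ]
      rw [e1, div_pow]
      field_simp
    rw [h7, ← h4, h3]
    ring

theorem nn_pow {F : Type*} [Field F] [CharZero F] {l : ℕ} (hl : l.Prime) (h2 : l ≠ 2) (s : ℕ)
    (x y : F) : NN ((lst l : ℤ) : F) ((x ^ l ^ s - y ^ l ^ s) * (x - y)) := by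
  induction s with
  | zero => exact ⟨x - y, 0, by rw [pow_zero, pow_one, pow_one]; ring⟩
  | succ s ih =>
    have h3 := nn_gauss hl h2 (x ^ l ^ s) (y ^ l ^ s)
    rw [← pow_mul, ← pow_mul, ← pow_succ] at h3
    by_cases hu : x ^ l ^ s - y ^ l ^ s = 0
    · have h4 : x ^ l ^ (s + 1) - y ^ l ^ (s + 1) = 0 := by
        rw [pow_succ, pow_mul, pow_mul, sub_eq_zero.1 hu, sub_self]
      rw [h4, zero_mul]
      exact ⟨0, 0, by ring⟩
    · obtain ⟨a, b, h4⟩ := nn_mul h3 ih
      refine ⟨a / (x ^ l ^ s - y ^ l ^ s), b / (x ^ l ^ s - y ^ l ^ s), ?_⟩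
      rw [div_pow, div_pow, ← mul_div_assoc, ← sub_div, ← h4, eq_div_iff (pow_ne_zero 2 hu)]
      ring

end UD0
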