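import Mathlib
import Pool.Agent.UD0.Gauss

/-!
# UD0: two anisotropic forms over `ℚ_l`

`l` an odd prime, `n` an integer which is not a square modulo `l` (`jacobiSym n l = -1` or
`legendreSym l n = -1`).
PROOF of `ani_two` : `x ^ 2 = lst l * y ^ 2` with `y ≠ 0` is impossible: the valuation of the left side is even, of the right
side odd (`padicNormE`, `‖l‖ = l⁻¹`; use `Padic.valuation_mul`, `Padic.valuation_pow`, `Padic.valuation_p`...).  So `y = 0`, `x = 0`.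
PROOF of `ani_four` : (1) `x ^ 2 - n y ^ 2` is nonzero for `(x, y) ≠ 0` and its valuation is `2 min(v x, v y)` (even): scale so that
`x, y ∈ ℤ_l` are not both divisible by `l`; if `l` divided `x ^ 2 - n y ^ 2` then `n` would be a square modulo `l` (or `l` divides both).
(2) `x ^ 2 - n y ^ 2 = l (z ^ 2 - n w ^ 2)`: if one side is nonzero the valuations are even and odd; so both are zero, and by (1)
`x = y = z = w = 0`.
PROOF of `exists_nonres` : an odd prime has a nonresidue (half of the residues), a positive integer `< l`; it is a sum of four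
squares of integers (`Nat.sum_four_squares`).
-/

set_option autoImplicit false

namespace UD0

private theorem lst_ne (l : ℕ) [Fact l.Prime] : ((lst l : ℤ) : ℚ_[l]) ≠ 0 := by
  rw [Int.cast_ne_zero]
  unfold lst
  have h1 : (l : ℤ) ≠ 0 := by exact_mod_cast (Fact.out : l.Prime).ne_zero
  exact mul_ne_zero (pow_ne_zero _ (by norm_num)) h1

private theorem lst_val (l : ℕ) [Fact l.Prime] : ((lst l : ℤ) : ℚ_[l]).valuation = 1 := by
  have hl0 : (l : ℚ_[l]) ≠ 0 := by exact_mod_cast (Fact.out : l.Prime).ne_zero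
  have h1 : ((lst l : ℤ) : ℚ_[l]) ^ 2 = (l : ℚ_[l]) ^ 2 := by
    unfold lst
    push_cast
    rw [mul_pow, ← pow_mul, mul_comm _ 2, pow_mul]
    norm_num
  have h2 := congrArg Padic.valuation h1
  rw [Padic.valuation_pow, Padic.valuation_pow, Padic.valuation_p] at h2
  push_cast at h2
  omega

theorem ani_two (l : ℕ) [Fact l.Prime] (x y : ℚ_[l])
    (h : x ^ 2 - ((lst l : ℤ) : ℚ_[l]) * y ^ 2 = 0) : x = 0 ∧ y = 0 := by
  have hn := lst_ne l
  have h1 : x ^ 2 = ((lst l : ℤ) : ℚ_[l]) * y ^ 2 := sub_eq_zero.1 h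
  by_cases hy : y = 0
  · rw [hy] at h1
    refine ⟨?_, hy⟩
    have h2 : x ^ 2 = 0 := by rw [h1]; ring
    exact pow_eq_zero_iff (two_ne_zero) |>.1 h2
  · exfalso
    have h2 := congrArg Padic.valuation h1
    rw [Padic.valuation_mul hn (pow_ne_zero 2 hy), Padic.valuation_pow, Padic.valuation_pow,
      lst_val] at h2
    push_cast at h2
    omega

private theorem res_ne (l : ℕ) [Fact l.Prime] {n : ℤ} (hn : ¬ IsSquare ((n : ℤ) : ZMod l))
    (a b : ℤ_[l]) (hab : ¬ (PadicInt.toZMod a = 0 ∧ PadicInt.toZMod b = 0)) :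
    ‖a ^ 2 - (n : ℤ_[l]) * b ^ 2‖ = 1 := by
  rw [← PadicInt.isUnit_iff]
  by_contra hu
  have h1 : a ^ 2 - (n : ℤ_[l]) * b ^ 2 ∈ IsLocalRing.maximalIdeal ℤ_[l] :=
    (IsLocalRing.mem_maximalIdeal _).2 hu
  rw [← PadicInt.ker_toZMod, RingHom.mem_ker] at h1
  rw [map_sub, map_mul, map_pow, map_pow, map_intCast] at h1
  by_cases hb : PadicInt.toZMod b = 0
  · apply hab
    rw [hb] at h1
    refine ⟨?_, hb⟩
    have h2 : PadicInt.toZMod a ^ 2 = 0 := by linear_combination h1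
    exact pow_eq_zero_iff (two_ne_zero) |>.1 h2
  · apply hn
    refine ⟨PadicInt.toZMod a / PadicInt.toZMod b, ?_⟩
    field_simp
    linear_combination -h1

private theorem norm_form (l : ℕ) [Fact l.Prime] {n : ℤ} (hn : ¬ IsSquare ((n : ℤ) : ZMod l))
    (x y : ℚ_[l]) (hxy : ¬ (x = 0 ∧ y = 0)) :
    ∃ u : ℚ_[l], u ≠ 0 ∧ ‖x ^ 2 - (n : ℚ_[l]) * y ^ 2‖ = ‖u‖ ^ 2 := by
  rcases le_total ‖y‖ ‖x‖ with hle | hle
  · have hx : x ≠ 0 := by
      intro hx
      rw [hx, norm_zero] at hle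
      exact hxy ⟨hx, norm_le_zero_iff.1 hle⟩
    have hb : ‖y / x‖ ≤ 1 := by
      rw [norm_div]
      exact div_le_one_of_le₀ hle (norm_nonneg _)
    refine ⟨x, hx, ?_⟩
    have h1 := res_ne l hn 1 ⟨y / x, hb⟩ (fun h => by
      have h2 := h.1
      rw [map_one] at h2
      exact one_ne_zero h2)
    have h2 : ‖((1 : ℚ_[l]) ^ 2 - (n : ℚ_[l]) * (y / x) ^ 2)‖ = 1 := by
      rw [← h1, PadicInt.norm_def]
      push_cast
      rfl
    have h3 : x ^ 2 - (n : ℚ_[l]) * y ^ 2 = x ^ 2 * ((1 : ℚ_[l]) ^ 2 - (n : ℚ_[l]) * (y / x) ^ 2) := by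
      field_simp
    rw [h3, norm_mul, h2, mul_one, norm_pow]
  · have hy : y ≠ 0 := by
      intro hy
      rw [hy, norm_zero] at hle
      exact hxy ⟨norm_le_zero_iff.1 hle, hy⟩
    have hb : ‖x / y‖ ≤ 1 := by
      rw [norm_div]
      exact div_le_one_of_le₀ hle (norm_nonneg _)
    refine ⟨y, hy, ?_⟩
    have h1 := res_ne l hn ⟨x / y, hb⟩ 1 (fun h => by
      have h2 := h.2
      rw [map_one] at h2
      exact one_ne_zero h2)
    have h2 : ‖((x / y) ^ 2 - (n : ℚ_[l]) * (1 : ℚ_[l]) ^ 2)‖ = 1 := by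
      rw [← h1, PadicInt.norm_def]
      push_cast
      rfl
    have h3 : x ^ 2 - (n : ℚ_[l]) * y ^ 2 = y ^ 2 * ((x / y) ^ 2 - (n : ℚ_[l]) * (1 : ℚ_[l]) ^ 2) := by
      field_simp
    rw [h3, norm_mul, h2, mul_one, norm_pow]

theorem ani_four (l : ℕ) [Fact l.Prime] (h2 : l ≠ 2) {n : ℤ} (hn : jacobiSym n l = -1)
    (x y z w : ℚ_[l])
    (h : x ^ 2 - (n : ℚ_[l]) * y ^ 2 - (l : ℚ_[l]) * z ^ 2 + (n : ℚ_[l]) * (l : ℚ_[l]) * w ^ 2 = 0) :
    x = 0 ∧ y = 0 ∧ z = 0 ∧ w = 0 := by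
  have hns : ¬ IsSquare ((n : ℤ) : ZMod l) := by
    rw [← jacobiSym.legendreSym.to_jacobiSym] at hn
    exact (legendreSym.eq_neg_one_iff l).1 hn
  have hl0 : (l : ℚ_[l]) ≠ 0 := by exact_mod_cast (Fact.out : l.Prime).ne_zero
  have h1 : x ^ 2 - (n : ℚ_[l]) * y ^ 2 = (l : ℚ_[l]) * (z ^ 2 - (n : ℚ_[l]) * w ^ 2) := by
    linear_combination h
  have hzw : z = 0 ∧ w = 0 := by
    by_contra hzw
    obtain ⟨v, hv, hvn⟩ := norm_form l hns z w hzw
    have hxy : ¬ (x = 0 ∧ y = 0) := by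
      rintro ⟨rfl, rfl⟩
      have h3 : (l : ℚ_[l]) * (z ^ 2 - (n : ℚ_[l]) * w ^ 2) = 0 := by rw [← h1]; ring
      rcases mul_eq_zero.1 h3 with h4 | h4
      · exact hl0 h4
      · rw [h4, norm_zero] at hvn
        exact (pow_ne_zero 2 (norm_ne_zero_iff.2 hv)) hvn.symm
    obtain ⟨u, hu, hun⟩ := norm_form l hns x y hxy
    have h3 : ‖u ^ 2‖ = ‖(l : ℚ_[l]) * v ^ 2‖ := by
      rw [norm_pow, norm_mul, norm_pow, ← hun, ← hvn, h1, norm_mul]
    rw [Padic.norm_eq_zpow_neg_valuation (pow_ne_zero 2 hu),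
      Padic.norm_eq_zpow_neg_valuation (mul_ne_zero hl0 (pow_ne_zero 2 hv))] at h3
    have hl1 : (1 : ℝ) < l := by exact_mod_cast (Fact.out : l.Prime).one_lt
    have h4 := zpow_right_injective₀ (by linarith) hl1.ne' h3
    rw [Padic.valuation_mul hl0 (pow_ne_zero 2 hv), Padic.valuation_pow, Padic.valuation_pow,
      Padic.valuation_p] at h4
    push_cast at h4
    omega
  obtain ⟨rfl, rfl⟩ := hzw
  have hxy : x = 0 ∧ y = 0 := by
    by_contra hxy
    obtain ⟨u, hu, hun⟩ := norm_form l hns x y hxy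
    have h3 : x ^ 2 - (n : ℚ_[l]) * y ^ 2 = 0 := by rw [h1]; ring
    rw [h3, norm_zero] at hun
    exact (pow_ne_zero 2 (norm_ne_zero_iff.2 hu)) hun.symm
  exact ⟨hxy.1, hxy.2, rfl, rfl⟩

theorem exists_nonres (l : ℕ) [Fact l.Prime] (h2 : l ≠ 2) :
    ∃ (n : ℤ) (c₁ c₂ c₃ c₄ : ℤ), 0 < n ∧ jacobiSym n l = -1 ∧
      n = c₁ ^ 2 + c₂ ^ 2 + c₃ ^ 2 + c₄ ^ 2 := by
  obtain ⟨a, ha⟩ := FiniteField.exists_nonsquare (F := ZMod l) (by rw [ZMod.ringChar_zmod_n]; exact h2)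
  obtain ⟨c₁, c₂, c₃, c₄, hc⟩ := Nat.sum_four_squares a.val
  refine ⟨(a.val : ℤ), c₁, c₂, c₃, c₄, ?_, ?_, ?_⟩
  · have h3 : a.val ≠ 0 := by
      intro h3
      rw [ZMod.val_eq_zero] at h3
      exact ha ⟨0, by rw [h3, mul_zero]⟩
    exact_mod_cast Nat.pos_of_ne_zero h3
  · rw [← jacobiSym.legendreSym.to_jacobiSym, legendreSym.eq_neg_one_iff]
    push_cast
    rw [ZMod.natCast_zmod_val]
    exact ha
  · rw [← hc]
    push_cast
    ring

end UD0
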