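import Mathlib

/-!
# UD0 / Ar: norms modulo an integer, counting residue fields

`O` : a commutative ring, free of finite rank over `ℤ`.

PROOFS.
* `norm_modEq_one` : in a basis the matrix of the multiplication by `1 + M z` is `1 + M * (matrix of z)`;
  its determinant is congruent to `det 1 = 1` modulo `M` (map the matrix to `ZMod M.natAbs`,
  `RingHom.map_det`, or `Matrix.det_one_add_smul`-like expansion).
* `norm_modEq_idem` : modulo `q` the matrix of the multiplication by `e` has columns
  `e * b_j ≡ τ (b_j) e` (hypothesis `he` for `z = b_j` and `m` a lift of `τ b_j`), so it is the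
  product of the column `(e_i)` (coordinates of `e` modulo `q`) and the row `(τ b_j)`; so the
  determinant of `1 + s * (this)` is `1 + s * ∑ τ (b_j) e_j = 1 + s τ (e) = 1 + s`
  (`Matrix.det_one_add_replicateCol_mul_replicateRow` / `det_one_add_mul_comm`), `s = r - 1`.
* `card_quot` : `Submodule.natAbs_det_equiv` or `natAbs_det_basis_change` for the submodule
  `α O = span {α}` and the basis `α b_j` (`norm α ≠ 0` implies that `α` is not a zero divisor: the
  determinant of the multiplication is nonzero).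
* `exists_residue` : let `χ : ℕ → ℤ` be multiplicative on nonzero numbers with `χ 1 = 1` and suppose
  `χ (card (A ⧸ m)) = 1` for every maximal ideal `m` of the finite ring `A`.  Then `χ (card M) = 1` for
  every finite `A`-module `M` (a module with finitely many elements), by strong induction on
  `card M`: if `M` is not zero let `x ≠ 0`, the ideal `ann x` is proper, contained in a maximal ideal
  `m`; `A x ≅ A ⧸ ann x` has the quotient `A ⧸ m`; so `A x` has a submodule `N` with
  `card (A x) = card (A ⧸ m) * card N`, and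
  `card M = card (A ⧸ m) * card N * card (M ⧸ A x)`, where `N` and `M ⧸ A x` are smaller.
  Apply this to `M = A`.  (Or induction over ideals: `card (A ⧸ I)` for ideals `I`, from the top: if
  `I ≠ ⊤` take `I < J` minimal (finite ring), then `J ⧸ I` is a simple module `≅ A ⧸ m`.)
-/

set_option autoImplicit false

namespace UD0

section norm

variable {O : Type*} [CommRing O] [Module.Free ℤ O] [Module.Finite ℤ O]

theorem norm_modEq_one (M : ℤ) (z : O) : Algebra.norm ℤ (1 + (M : O) * z) ≡ 1 [ZMOD M] := by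
  classical
  let b := Module.Free.chooseBasis ℤ O
  have e1 : Algebra.leftMulMatrix b (1 + (M : O) * z) = 1 + M • Algebra.leftMulMatrix b z := by
    rw [map_add, map_one, map_mul, map_intCast, ← zsmul_eq_mul]
  rw [Algebra.norm_eq_matrix_det b, e1, Matrix.det_one_add_smul]
  refine (Int.modEq_iff_dvd.2 ?_).symm
  exact ⟨Matrix.trace (Algebra.leftMulMatrix b z) +
    (Matrix.det (1 + (Polynomial.X : Polynomial ℤ) •
      (Algebra.leftMulMatrix b z).map Polynomial.C)).divX.divX.eval M * M, by ring⟩

theorem norm_modEq_idem {q : ℕ} [Fact q.Prime] (τ : O →+* ZMod q) {e : O} (he1 : τ e = 1)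
    (he : ∀ (z : O) (m : ℤ), τ z = m → ∃ y : O, e * (z - m) = (q : O) * y) (r : ℤ) (z : O) :
    Algebra.norm ℤ (1 + ((r - 1 : ℤ) : O) * e + (q : O) * z) ≡ r [ZMOD q] := by
  classical
  let b := Module.Free.chooseBasis ℤ O
  rw [← ZMod.intCast_eq_intCast_iff, Algebra.norm_eq_matrix_det b]
  let f : ℤ →+* ZMod q := Int.castRingHom (ZMod q)
  have h0 : ((Matrix.det (Algebra.leftMulMatrix b
      (1 + ((r - 1 : ℤ) : O) * e + (q : O) * z)) : ℤ) : ZMod q) =
      Matrix.det (f.mapMatrix (Algebra.leftMulMatrix b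
        (1 + ((r - 1 : ℤ) : O) * e + (q : O) * z))) := by
    rw [← RingHom.map_det]
    rfl
  have hq : ∀ w : O, ∀ i, f (b.repr ((q : O) * w) i) = 0 := by
    intro w i
    rw [← nsmul_eq_mul, map_nsmul, Finsupp.smul_apply, map_nsmul, nsmul_eq_mul, ZMod.natCast_self,
      zero_mul]
  have h1 : f.mapMatrix (Algebra.leftMulMatrix b (1 + ((r - 1 : ℤ) : O) * e + (q : O) * z)) =
      1 + Matrix.replicateCol Unit (fun i => ((r - 1 : ℤ) : ZMod q) * f (b.repr e i)) *
        Matrix.replicateRow Unit (fun j => τ (b j)) := by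
    ext i j
    rw [RingHom.mapMatrix_apply, Matrix.map_apply, Matrix.add_apply, Matrix.mul_apply,
      Algebra.leftMulMatrix_eq_repr_mul]
    simp only [Finset.univ_unique, PUnit.default_eq_unit, Finset.sum_singleton,
      Matrix.replicateCol_apply, Matrix.replicateRow_apply]
    obtain ⟨y, hy⟩ := he (b j) ((τ (b j)).val : ℤ) (by
      rw [Int.cast_natCast, ZMod.natCast_zmod_val])
    have e1 : (1 + ((r - 1 : ℤ) : O) * e + (q : O) * z) * b j =
        b j + (((r - 1) * ((τ (b j)).val : ℤ)) • e + (q : O) * (((r - 1 : ℤ) : O) * y + z * b j)) := by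
      rw [zsmul_eq_mul]
      push_cast at hy ⊢
      linear_combination ((r : O) - 1) * hy
    rw [e1, map_add, map_add, Finsupp.add_apply, Finsupp.add_apply, map_add, map_add, hq, add_zero,
      map_zsmul, Finsupp.smul_apply, smul_eq_mul, map_mul, Module.Basis.repr_self]
    congr 1
    · rw [Finsupp.single_apply, Matrix.one_apply]
      by_cases hij : j = i
      · rw [if_pos hij, if_pos hij.symm, map_one]
      · rw [if_neg hij, if_neg (Ne.symm hij), map_zero]
    · rw [map_mul]
      have e2 : f ((τ (b j)).val : ℤ) = τ (b j) := by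
        change (((τ (b j)).val : ℤ) : ZMod q) = _
        rw [Int.cast_natCast, ZMod.natCast_zmod_val]
      rw [e2]
      change ((r - 1 : ℤ) : ZMod q) * τ (b j) * _ = _
      ring
  rw [h0, h1, Matrix.det_one_add_replicateCol_mul_replicateRow]
  have h2 : (fun j => τ (b j)) ⬝ᵥ (fun i => ((r - 1 : ℤ) : ZMod q) * f (b.repr e i)) =
      ((r - 1 : ℤ) : ZMod q) := by
    have e1 : τ e = ∑ j, τ (b j) * f (b.repr e j) := by
      conv_lhs => rw [← b.sum_repr e]
      rw [map_sum]
      refine Finset.sum_congr rfl fun j _ => ?_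
      rw [zsmul_eq_mul, map_mul, map_intCast, mul_comm]
      rfl
    rw [dotProduct]
    have e2 : ∀ j, τ (b j) * (((r - 1 : ℤ) : ZMod q) * f (b.repr e j)) =
        ((r - 1 : ℤ) : ZMod q) * (τ (b j) * f (b.repr e j)) := fun j => by ring
    simp only [e2]
    rw [← Finset.mul_sum, ← e1, he1, mul_one]
  rw [h2]
  push_cast
  ring

theorem card_quot {α : O} (hα : Algebra.norm ℤ α ≠ 0) :
    Finite (O ⧸ Ideal.span {α}) ∧
      Nat.card (O ⧸ Ideal.span {α}) = (Algebra.norm ℤ α).natAbs := by
  have hdet : LinearMap.det (LinearMap.mulLeft ℤ α) ≠ 0 := by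
    rw [Algebra.norm_apply] at hα
    exact hα
  have hinj : Function.Injective (LinearMap.mulLeft ℤ α) := by
    rw [← LinearMap.ker_eq_bot]
    by_contra h
    exact hdet (LinearMap.det_eq_zero_iff_ker_ne_bot.2 h)
  let N : Submodule ℤ O := LinearMap.range (LinearMap.mulLeft ℤ α)
  have hN : (Ideal.span {α} : Ideal O).restrictScalars ℤ = N := by
    ext x
    rw [Submodule.restrictScalars_mem, Ideal.mem_span_singleton]
    constructor
    · rintro ⟨y, rfl⟩
      exact ⟨y, rfl⟩
    · rintro ⟨y, rfl⟩
      exact ⟨y, rfl⟩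
  let e : O ≃ₗ[ℤ] N := LinearEquiv.ofInjective (LinearMap.mulLeft ℤ α) hinj
  have h1 := Submodule.natAbs_det_equiv N e
  have h2 : N.subtype ∘ₗ AddMonoidHom.toIntLinearMap (e : O →+ N) = LinearMap.mulLeft ℤ α := by
    ext x
    rfl
  rw [h2] at h1
  have h3 : (Algebra.norm ℤ α).natAbs = Nat.card (O ⧸ Ideal.span {α}) := by
    rw [Algebra.norm_apply]
    have h4 : Nat.card (O ⧸ N) = Nat.card (O ⧸ Ideal.span {α}) := by
      rw [← hN]
      exact Nat.card_congr (Submodule.Quotient.restrictScalarsEquiv ℤ (Ideal.span {α})).toEquiv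
    rw [← h4, ← h1]
    rfl
  refine ⟨?_, h3.symm⟩
  refine Nat.finite_of_card_ne_zero ?_
  rw [← h3]
  exact Int.natAbs_ne_zero.2 hα

end norm

private theorem res_aux {A : Type*} [CommRing A] [Finite A] (χ : ℕ → ℤ) (h1 : χ 1 = 1)
    (hmul : ∀ a b : ℕ, a ≠ 0 → b ≠ 0 → χ (a * b) = χ a * χ b)
    (hm : ∀ m : Ideal A, m.IsMaximal → χ (Nat.card (A ⧸ m)) = 1) (n : ℕ) :
    ∀ J : Ideal A, Nat.card J = n → χ n = 1 := by
  induction n using Nat.strong_induction_on with
  | _ n ih =>
    intro J hJ
    by_cases h0 : J = ⊥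
    · subst h0
      rw [← hJ]
      have : Nat.card ((⊥ : Ideal A) : Type _) = 1 := by
        rw [Nat.card_eq_one_iff_unique]
        exact ⟨inferInstance, inferInstance⟩
      rw [this, h1]
    · have hnt : Nontrivial J := Submodule.nontrivial_iff_ne_bot.2 h0
      obtain ⟨N, hN, _⟩ := (eq_top_or_exists_le_coatom (⊥ : Submodule A J)).resolve_left bot_ne_top
      have hs : IsSimpleModule A (J ⧸ N) := isSimpleModule_iff_isCoatom.2 hN
      obtain ⟨m, hmm, ⟨em⟩⟩ := isSimpleModule_iff_quot_maximal.1 hs
      have hc1 : Nat.card (J ⧸ N) = Nat.card (A ⧸ m) := Nat.card_congr em.toEquiv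
      have hc2 : Nat.card J = Nat.card (J ⧸ N) * Nat.card N := by
        have := AddSubgroup.card_eq_card_quotient_mul_card_addSubgroup (N.toAddSubgroup)
        exact this
      let N' : Ideal A := N.map J.subtype
      have hc3 : Nat.card N = Nat.card N' :=
        Nat.card_congr (Submodule.equivMapOfInjective J.subtype J.injective_subtype N).toEquiv
      have hpos : 0 < Nat.card N := Nat.card_pos
      have hpos2 : 0 < Nat.card (J ⧸ N) := by
        have : Finite (J ⧸ N) := Quotient.finite _
        exact Nat.card_pos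
      have hgt : 1 < Nat.card (J ⧸ N) := by
        have : Finite (J ⧸ N) := Quotient.finite _
        have : Nontrivial (J ⧸ N) := hs.nontrivial
        exact Finite.one_lt_card
      have hlt : Nat.card N < n := by
        rw [← hJ, hc2]
        nlinarith
      have h2 := ih _ hlt N' hc3.symm
      rw [← hJ, hc2, hmul _ _ hpos2.ne' hpos.ne', h2, hc1, hm m hmm, one_mul]

theorem exists_residue {A : Type*} [CommRing A] [Finite A] (χ : ℕ → ℤ) (h1 : χ 1 = 1)
    (hmul : ∀ a b : ℕ, a ≠ 0 → b ≠ 0 → χ (a * b) = χ a * χ b) (hA : χ (Nat.card A) ≠ 1) :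
    ∃ m : Ideal A, m.IsMaximal ∧ χ (Nat.card (A ⧸ m)) ≠ 1 := by
  by_contra h
  push Not at h
  apply hA
  refine res_aux χ h1 hmul h (Nat.card A) ⊤ ?_
  exact Nat.card_congr (Submodule.topEquiv (R := A) (M := A)).toEquiv

end UD0
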