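import Mathlib

/-!
# UD0 / Ar: the Jacobi symbol computation

PROOF of `jacobi_neg_one`.  `q` is an odd prime, `D₀ = q D₁`, `D₁ > 0` prime to `q`,
`N ≡ 1` modulo `8 D₁` and `N ≡ r` modulo `q`, `(r / q) = -1`, `n = |N|`.  So `n` is odd and prime to
`D₀`.  Write `D₁ = 2 ^ a D₂`, `D₂` odd.  `J(2 | n) = χ₈ n = 1` as `n ≡ ± 1` modulo `8`.  Put
`m = q D₂`, odd, positive.  `J(D₀ | n) = J(m | n)`.
Case `n = N ≡ 1` modulo `8`: `J(m | n) = J(n | m)` (`jacobiSym.quadratic_reciprocity_one_mod_four'`)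
`= J(n | q) J(n | D₂) = J(r | q) J(1 | D₂) = -1` (`jacobiSym.mod_left'`; `N ≡ 1` modulo `D₂`).
Case `n = - N ≡ -1` modulo `8`: `J(m | n) = (-1) ^ ((n/2) (m/2)) J(n | m)` with `n / 2` odd, and
`J(n | m) = J(-1 | m) J(N | m) = (-1) ^ (m / 2) J(N | m)` (`jacobiSym.at_neg_one`,
`ZMod.χ₄_eq_neg_one_pow`), so the signs cancel and `J(m | n) = J(N | m) = -1` as before.
PROOF of `of_residue` : `card F = p ^ f`, `J(D₀ | p ^ f) = J(D₀ | p) ^ f = -1` (it is not `0`, since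
`p` is prime to `D₀`; hypothesis: the value is `≠ 1`, and it is `± 1`), so `f` is odd and
`J(D₀ | p) = -1`.  `y ^ 2 + y + 1 = 0` in `F`, `p ≠ 3`: `y ≠ 1`, `y ^ 3 = 1`, so `3` divides
`card Fˣ = p ^ f - 1`; if `p ≡ 2` modulo `3` then `p ^ f ≡ 2` (`f` odd), `p ≡ 0` is excluded.
-/

set_option autoImplicit false

namespace UD0

private theorem odd_symm {m : ℕ} (hm : Odd m) {N : ℤ} (h8 : N ≡ 1 [ZMOD 8]) :
    jacobiSym (m : ℤ) N.natAbs = jacobiSym N m := by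
  have h8' : N % 8 = 1 := h8
  rcases Int.natAbs_eq N with h | h
  · have h1 : N.natAbs % 4 = 1 := by omega
    rw [jacobiSym.quadratic_reciprocity_one_mod_four' hm h1, ← h]
  · have h1 : N.natAbs % 4 = 3 := by omega
    have h2 : Odd N.natAbs := by
      rw [Nat.odd_iff]
      omega
    have h3 : jacobiSym N m = ZMod.χ₄ m * jacobiSym (N.natAbs : ℤ) m := by
      conv_lhs => rw [h]
      exact jacobiSym.neg _ hm
    rw [h3]
    rcases Nat.odd_mod_four_iff.mp (Nat.odd_iff.mp hm) with h4 | h4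
    · rw [jacobiSym.quadratic_reciprocity_one_mod_four h4 h2, ZMod.χ₄_nat_one_mod_four h4, one_mul]
    · rw [jacobiSym.quadratic_reciprocity_three_mod_four h4 h1, ZMod.χ₄_nat_three_mod_four h4]
      ring

private theorem at_two_eq_one {N : ℤ} (h8 : N ≡ 1 [ZMOD 8]) : jacobiSym 2 N.natAbs = 1 := by
  have h8' : N % 8 = 1 := h8
  have h2 : Odd N.natAbs := by
    rw [Nat.odd_iff]
    omega
  rw [jacobiSym.at_two h2, ZMod.χ₈_nat_eq_if_mod_eight]
  have h3 : N.natAbs % 8 = 1 ∨ N.natAbs % 8 = 7 := by omega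
  have h4 : N.natAbs % 2 = 1 := Nat.odd_iff.mp h2
  rcases h3 with h3 | h3 <;> simp [h3, h4]

theorem jacobi_neg_one {q : ℕ} (hq : q.Prime) (hq2 : q ≠ 2) {D₀ D₁ : ℤ} (hD : D₀ = q * D₁)
    (hD1 : 0 < D₁) (hqD : ¬ (q : ℤ) ∣ D₁) {r N : ℤ} (hr : jacobiSym r q = -1)
    (hN1 : N ≡ 1 [ZMOD 8 * D₁]) (hNq : N ≡ r [ZMOD q]) : jacobiSym D₀ N.natAbs = -1 := by
  have h8 : N ≡ 1 [ZMOD 8] := hN1.of_mul_right D₁
  obtain ⟨d, hd⟩ := Int.eq_ofNat_of_zero_le hD1.le
  have hd0 : d ≠ 0 := by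
    rintro rfl
    rw [hd] at hD1
    exact lt_irrefl _ hD1
  obtain ⟨a, m, hm, hdm⟩ := Nat.exists_eq_two_pow_mul_odd hd0
  have hqo : Odd q := hq.odd_of_ne_two hq2
  have h1 : D₀ = 2 ^ a * ((q * m : ℕ) : ℤ) := by
    rw [hD, hd, hdm]
    push_cast
    ring
  have h2 : jacobiSym ((2 : ℤ) ^ a) N.natAbs = 1 := by
    rw [jacobiSym.pow_left, at_two_eq_one h8, one_pow]
  have hm0 : m ≠ 0 := by
    rintro rfl
    simp at hm
  have h3 : jacobiSym N q = -1 := by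
    rw [jacobiSym.mod_left' hNq, hr]
  have h4 : jacobiSym N m = 1 := by
    have h5 : N ≡ 1 [ZMOD (m : ℤ)] := by
      refine hN1.of_dvd ?_
      rw [hd, hdm]
      exact ⟨8 * 2 ^ a, by push_cast; ring⟩
    rw [jacobiSym.mod_left' h5, jacobiSym.one_left]
  rw [h1, jacobiSym.mul_left, h2, one_mul, odd_symm (hqo.mul hm) h8,
    jacobiSym.mul_right' N hq.ne_zero hm0, h3, h4, mul_one]

theorem of_residue {F : Type*} [Field F] [Finite F] {D₀ : ℤ} (h3 : (3 : F) ≠ 0)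
    (hD : (D₀ : F) ≠ 0) {y : F} (hy : y ^ 2 + y + 1 = 0) (h : jacobiSym D₀ (Nat.card F) ≠ 1) :
    ∃ p f : ℕ, p.Prime ∧ p % 3 = 1 ∧ Odd f ∧ Nat.card F = p ^ f ∧ CharP F p ∧
      jacobiSym D₀ p = -1 := by
  classical
  haveI : Fintype F := Fintype.ofFinite F
  obtain ⟨p, hp⟩ := CharP.exists F
  obtain ⟨n, hpp, hn⟩ := FiniteField.card F p
  rw [← Nat.card_eq_fintype_card] at hn
  have hgcd : D₀.gcd p = 1 := by
    rw [Int.gcd_comm, Int.gcd_eq_natAbs, Int.natAbs_natCast]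
    refine (Nat.Prime.coprime_iff_not_dvd hpp).mpr fun h1 => hD ?_
    rw [CharP.intCast_eq_zero_iff F p]
    exact Int.natCast_dvd.mpr h1
  have h4 : jacobiSym D₀ p = -1 := by
    rcases jacobiSym.eq_one_or_neg_one hgcd with h5 | h5
    · exfalso
      apply h
      rw [hn, jacobiSym.pow_right, h5, one_pow]
    · exact h5
  have h6 : Odd (n : ℕ) := by
    by_contra h7
    rw [Nat.not_odd_iff_even] at h7
    apply h
    rw [hn, jacobiSym.pow_right, h4, h7.neg_one_pow]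
  refine ⟨p, n, hpp, ?_, h6, hn, hp, h4⟩
  have hy1 : y ≠ 1 := by
    rintro rfl
    apply h3
    rw [← hy]
    norm_num
  have hy3 : y ^ 3 = 1 := by
    linear_combination (y - 1) * hy
  have hy0 : y ≠ 0 := by
    rintro rfl
    simp at hy
  have ho : orderOf (Units.mk0 y hy0) = 3 := by
    haveI : Fact (Nat.Prime 3) := ⟨Nat.prime_three⟩
    refine orderOf_eq_prime ?_ ?_
    · ext
      simpa using hy3
    · intro h7
      apply hy1
      have := congrArg Units.val h7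
      simpa using this
  have hdvd : 3 ∣ p ^ (n : ℕ) - 1 := by
    have h7 : orderOf (Units.mk0 y hy0) ∣ Nat.card Fˣ := orderOf_dvd_natCard _
    rw [ho, Nat.card_units, hn] at h7
    exact h7
  have hmod : p ^ (n : ℕ) % 3 = 1 := by
    have h8 : 0 < p ^ (n : ℕ) := pow_pos hpp.pos _
    omega
  have h9 : p % 3 = 0 ∨ p % 3 = 1 ∨ p % 3 = 2 := by omega
  rcases h9 with h9 | h9 | h9
  · exfalso
    have h10 : 3 ∣ p := Nat.dvd_of_mod_eq_zero h9
    have h11 : 3 = p := (Nat.prime_dvd_prime_iff_eq Nat.prime_three hpp).mp h10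
    apply h3
    have h12 : ((p : ℕ) : F) = 0 := CharP.cast_eq_zero F p
    rw [← h11] at h12
    exact_mod_cast h12
  · exact h9
  · exfalso
    obtain ⟨k, hk⟩ := h6
    have h13 : p ^ (n : ℕ) % 3 = 2 := by
      rw [hk, pow_add, pow_mul, pow_one, Nat.mul_mod, Nat.pow_mod, Nat.pow_mod p 2 3, h9]
      simp
    omega

end UD0
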