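import Mathlib

/-!
# UD0 / Ar: the ring `ℤ[X, Y] / (g, Y ^ 2 + Y + 1)`

PROOF of `exists_ring`.  `O₁ = AdjoinRoot g` is free over `ℤ` with basis `1, X, ...`
(`AdjoinRoot.powerBasis'`), `O = AdjoinRoot (Y ^ 2 + Y + 1 : O₁[Y])` is free of rank two over `O₁`,
so free of finite rank over `ℤ` (`Module.Free.trans`, `Module.Finite.trans`; the `ℤ`-algebra structures
agree).  `ω` = the root.  As `q ≡ 1` modulo `3` there is `w : ZMod q` with `w ^ 2 + w + 1 = 0`
(an element of order three of `(ZMod q)ˣ`, cyclic of order divisible by `3`).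
`τ : O → ZMod q` : the root of `g` goes to `x₀`, `ω` to `w` (`AdjoinRoot.lift` twice).
`e` : let `a, b` be integers with classes `x₀, w`; `g = (X - a) g₂ + g (a)`
(`Polynomial.divByMonic` / `modByMonic_X_sub_C_eq_C_eval`), `q ∣ g (a)`, `g₂ (a) ≡ g' (a) ≠ 0`
modulo `q` (take the derivative at `a`), `u` an integer with
`u g₂ (a) (2 b + 1) ≡ 1` modulo `q` (`(2 b + 1) ^ 2 ≡ -3`, `q ≠ 3`).  Put
`e = u g₂ (X) (Y + b + 1)`.  Then `τ e = u g₂ (a) (w + b + 1) = 1`, and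
`e (X - a) = u (Y + b + 1) (g (X) - g (a)) ∈ q O`, `e (Y - b)
= u g₂ (X) (Y ^ 2 + Y + 1 - (b ^ 2 + b + 1)) ∈ q O`.  Every `z ∈ O` is a polynomial in `X`, `Y` with
integer coefficients, so `z - m` (`m` an integer with `τ z = m`) is in the ideal
`(q, X - a, Y - b)` (induction on `z`: `z - z (a, b)` is in the ideal `(X - a, Y - b)`, and
`z (a, b) ≡ m` modulo `q`).
-/

set_option autoImplicit false

open Polynomial

namespace UD0

private theorem exists_w {q : ℕ} [Fact q.Prime] (hq : q % 3 = 1) :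
    ∃ w : ZMod q, w ^ 2 + w + 1 = 0 := by
  have hp : Fact (Nat.Prime 3) := ⟨Nat.prime_three⟩
  have h1 : 3 ∣ Fintype.card (ZMod q)ˣ := by
    rw [ZMod.card_units]
    omega
  obtain ⟨x, hx⟩ := exists_prime_orderOf_dvd_card 3 h1
  have h3 : (x : ZMod q) ^ 3 = 1 := by
    rw [← Units.val_pow_eq_pow_val, ← hx, pow_orderOf_eq_one, Units.val_one]
  have h4 : (x : ZMod q) ≠ 1 := by
    intro h
    have : x = 1 := Units.ext h
    rw [this, orderOf_one] at hx
    omega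
  refine ⟨x, ?_⟩
  have h5 : ((x : ZMod q) - 1) * ((x : ZMod q) ^ 2 + x + 1) = 0 := by
    linear_combination h3
  rcases mul_eq_zero.1 h5 with h | h
  · exact absurd (sub_eq_zero.1 h) h4
  · exact h

private theorem aeval_int {q : ℕ} (p : ℤ[X]) (a : ℤ) :
    aeval ((a : ℤ) : ZMod q) p = ((p.eval a : ℤ) : ZMod q) := by
  have h := aeval_algebraMap_apply (ZMod q) a p
  rw [eq_intCast, eq_intCast] at h
  exact h

/-- `e` multiplies the kernel of `τ` into `q O` -/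
private theorem mul_ker {O : Type} [CommRing O] {q : ℕ} {e ξ ω : O} {a b : ℤ}
    (h1 : ∃ y : O, e * (ξ - a) = (q : O) * y) (h2 : ∃ y : O, e * (ω - b) = (q : O) * y)
    {Q : O → Prop} (hQ : ∀ z, Q z ↔ ∃ (n : ℤ) (y : O), e * (z - n) = (q : O) * y) :
    Q ξ ∧ Q ω ∧ (∀ n : ℤ, Q n) ∧ (∀ z z', Q z → Q z' → Q (z + z')) ∧
      ∀ z z', Q z → Q z' → Q (z * z') := by
  simp only [hQ]
  refine ⟨⟨a, h1⟩, ⟨b, h2⟩, fun n => ⟨n, 0, by ring⟩, ?_, ?_⟩
  · rintro z z' ⟨n, y, h⟩ ⟨n', y', h'⟩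
    refine ⟨n + n', y + y', ?_⟩
    push_cast
    linear_combination h + h'
  · rintro z z' ⟨n, y, h⟩ ⟨n', y', h'⟩
    refine ⟨n * n', z * y' + n' * y, ?_⟩
    push_cast
    linear_combination z * h' + (n' : O) * h

private theorem core {g : ℤ[X]} {q : ℕ} [Fact q.Prime] (hq : q % 3 = 1)
    {x₀ w : ZMod q} (hw : w ^ 2 + w + 1 = 0) (h0 : aeval x₀ g = 0)
    (h1 : aeval x₀ (derivative g) ≠ 0) {O : Type} [CommRing O] (ρ : ℤ[X] →+* O) (hρg : ρ g = 0)
    (ω : O) (hω : ω ^ 2 + ω + 1 = 0) (τ : O →+* ZMod q) (hτρ : ∀ p, τ (ρ p) = aeval x₀ p)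
    (hτω : τ ω = w)
    (hind : ∀ Q : O → Prop, (∀ p, Q (ρ p)) → Q ω → (∀ z z', Q z → Q z' → Q (z + z')) →
      (∀ z z', Q z → Q z' → Q (z * z')) → ∀ z, Q z) :
    ∃ e : O, τ e = 1 ∧ ∀ (z : O) (m : ℤ), τ z = m → ∃ y : O, e * (z - m) = (q : O) * y := by
  have hρC : ∀ n : ℤ, ρ (C n) = (n : O) := fun n => eq_intCast (ρ.comp C) n
  -- integers
  have hint : ∀ x : ZMod q, ∃ n : ℤ, (n : ZMod q) = x := fun x => ZMod.intCast_surjective x
  obtain ⟨a, ha⟩ := hint x₀
  obtain ⟨b, hb⟩ := hint w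
  have hdiv : g %ₘ (X - C a) + (X - C a) * (g /ₘ (X - C a)) = g := modByMonic_add_div g _
  rw [modByMonic_X_sub_C_eq_C_eval] at hdiv
  generalize hg2 : g /ₘ (X - C a) = g2 at hdiv
  have hder : (derivative g).eval a = g2.eval a := by
    rw [← hdiv]
    simp
  have hqa : ((g.eval a : ℤ) : ZMod q) = 0 := by rw [← aeval_int, ha, h0]
  obtain ⟨c, hc⟩ := (ZMod.intCast_zmod_eq_zero_iff_dvd _ q).1 hqa
  have hqb : ((b ^ 2 + b + 1 : ℤ) : ZMod q) = 0 := by
    push_cast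
    rw [hb, hw]
  obtain ⟨d, hd⟩ := (ZMod.intCast_zmod_eq_zero_iff_dvd _ q).1 hqb
  have hg2a : aeval x₀ g2 ≠ 0 := by
    rw [← ha, aeval_int, ← hder, ← aeval_int, ha]
    exact h1
  have h2w : (2 * w + 1 : ZMod q) ≠ 0 := by
    intro h
    have h3 : (3 : ZMod q) = 0 := by linear_combination 4 * hw - (2 * w + 1) * h
    have h4 : ((3 : ℕ) : ZMod q) = 0 := by exact_mod_cast h3
    have h5 := (ZMod.natCast_eq_zero_iff 3 q).1 h4
    have h6 : q = 3 := (Nat.prime_dvd_prime_iff_eq (Fact.out) Nat.prime_three).1 h5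
    omega
  obtain ⟨u, hu⟩ := hint ((aeval x₀ g2 * (2 * w + 1))⁻¹)
  obtain ⟨e, he⟩ : ∃ e : O, e = (u : O) * ρ g2 * (ω + b + 1) := ⟨_, rfl⟩
  have hτe : τ e = 1 := by
    rw [he, map_mul, map_mul, map_add, map_add, map_one, map_intCast, map_intCast, hτρ, hτω, hb, hu]
    have h3 : w + w + 1 = 2 * w + 1 := by ring
    rw [h3, mul_assoc, inv_mul_cancel₀ (mul_ne_zero hg2a h2w)]
  have hξ : ∃ y : O, e * (ρ X - a) = (q : O) * y := by
    refine ⟨-((u : O) * (ω + b + 1) * c), ?_⟩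
    have h3 : ρ (C (g.eval a)) + (ρ X - ρ (C a)) * ρ g2 = 0 := by
      rw [← map_sub, ← map_mul, ← map_add, hdiv, hρg]
    rw [hρC, hρC, hc] at h3
    push_cast at h3
    rw [he]
    linear_combination ((u : O) * (ω + b + 1)) * h3
  have hω2 : ∃ y : O, e * (ω - b) = (q : O) * y := by
    refine ⟨-((u : O) * ρ g2 * d), ?_⟩
    have h3 : ((b : O)) ^ 2 + b + 1 = q * d := by
      have := congrArg (fun n : ℤ => (n : O)) hd
      push_cast at this
      exact this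
    rw [he]
    linear_combination ((u : O) * ρ g2) * hω - ((u : O) * ρ g2) * h3
  obtain ⟨q1, q2, q3, q4, q5⟩ := mul_ker hξ hω2
    (Q := fun z => ∃ (n : ℤ) (y : O), e * (z - n) = (q : O) * y) (fun z => Iff.rfl)
  have hQρ : ∀ p : ℤ[X], ∃ (n : ℤ) (y : O), e * (ρ p - n) = (q : O) * y := by
    intro p
    induction p using Polynomial.induction_on with
    | C n =>
      rw [hρC]
      exact q3 n
    | add p p' hp hp' =>
      rw [map_add]
      exact q4 _ _ hp hp'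
    | monomial n a hp =>
      rw [pow_succ, ← mul_assoc, map_mul]
      exact q5 _ _ hp q1
  have hQ := hind _ hQρ q2 q4 q5
  refine ⟨e, hτe, fun z m hm => ?_⟩
  obtain ⟨n, y, hy⟩ := hQ z
  have h3 : (τ z : ZMod q) - n = 0 := by
    have h4 := congrArg τ hy
    rw [map_mul, map_mul, map_sub, map_intCast, hτe, one_mul, map_natCast, CharP.cast_eq_zero,
      zero_mul] at h4
    exact h4
  have h5 : ((n - m : ℤ) : ZMod q) = 0 := by
    push_cast
    rw [← hm]
    linear_combination -h3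
  obtain ⟨k, hk⟩ := (ZMod.intCast_zmod_eq_zero_iff_dvd _ q).1 h5
  refine ⟨y + e * k, ?_⟩
  have h6 : (n : O) - m = q * k := by
    have := congrArg (fun n : ℤ => (n : O)) hk
    push_cast at this
    exact this
  linear_combination hy + e * h6

theorem exists_ring {g : ℤ[X]} (hg : g.Monic) {q : ℕ} [Fact q.Prime] (hq : q % 3 = 1)
    {x₀ : ZMod q} (h0 : aeval x₀ g = 0) (h1 : aeval x₀ (derivative g) ≠ 0) :
    ∃ (O : Type) (_ : CommRing O) (_ : Module.Free ℤ O) (_ : Module.Finite ℤ O)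
      (_ : AdjoinRoot g →+* O) (ω : O) (τ : O →+* ZMod q) (e : O),
      ω ^ 2 + ω + 1 = 0 ∧ τ e = 1 ∧
        ∀ (z : O) (m : ℤ), τ z = m → ∃ y : O, e * (z - m) = (q : O) * y := by
  obtain ⟨w, hw⟩ := exists_w hq
  obtain ⟨P, hPd⟩ : ∃ P : (AdjoinRoot g)[X], P = X ^ 2 + X + 1 := ⟨_, rfl⟩
  have hP : P.Monic := by
    rw [hPd]
    monicity!
  have hω : AdjoinRoot.root P ^ 2 + AdjoinRoot.root P + 1 = 0 := by
    have h := AdjoinRoot.eval₂_root P
    rw [hPd] at h ⊢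
    rw [eval₂_add, eval₂_add, eval₂_pow, eval₂_X, eval₂_one] at h
    exact h
  have hρg : ((AdjoinRoot.of P).comp (AdjoinRoot.mk g)) g = 0 := by
    rw [RingHom.comp_apply, AdjoinRoot.mk_self, map_zero]
  have e1 : eval₂ (Int.castRingHom (ZMod q)) x₀ g = 0 := by
    rw [← h0, aeval_def]
    rfl
  have e2 : eval₂ (AdjoinRoot.lift (Int.castRingHom (ZMod q)) x₀ e1) w P = 0 := by
    rw [hPd, eval₂_add, eval₂_add, eval₂_pow, eval₂_X, eval₂_one, hw]
  have hτρ : ∀ p : ℤ[X], AdjoinRoot.lift (AdjoinRoot.lift (Int.castRingHom (ZMod q)) x₀ e1) w e2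
      (((AdjoinRoot.of P).comp (AdjoinRoot.mk g)) p) = aeval x₀ p := by
    intro p
    rw [RingHom.comp_apply, AdjoinRoot.lift_of, AdjoinRoot.lift_mk, aeval_def]
    rfl
  have hτω : AdjoinRoot.lift (AdjoinRoot.lift (Int.castRingHom (ZMod q)) x₀ e1) w e2
      (AdjoinRoot.root P) = w := AdjoinRoot.lift_root e2
  obtain ⟨e, he1, he2⟩ := core hq hw h0 h1 ((AdjoinRoot.of P).comp (AdjoinRoot.mk g)) hρg
    (AdjoinRoot.root P) hω (AdjoinRoot.lift (AdjoinRoot.lift (Int.castRingHom (ZMod q)) x₀ e1) w e2)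
    hτρ hτω (by
      intro Q hQ1 hQ2 hQ3 hQ4 z
      induction z using AdjoinRoot.induction_on with
      | _ p =>
        induction p using Polynomial.induction_on with
        | C c =>
          induction c using AdjoinRoot.induction_on with
          | _ p' => exact hQ1 p'
        | add p p' hp hp' =>
          rw [map_add]
          exact hQ3 _ _ hp hp'
        | monomial n a hp =>
          rw [pow_succ, ← mul_assoc, map_mul]
          exact hQ4 _ _ hp hQ2)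
  have f1 : Module.Free ℤ (AdjoinRoot g) := Module.Free.of_basis (AdjoinRoot.powerBasis' hg).basis
  have f2 : Module.Free (AdjoinRoot g) (AdjoinRoot P) :=
    Module.Free.of_basis (AdjoinRoot.powerBasis' hP).basis
  have f3 : Module.Finite ℤ (AdjoinRoot g) :=
    Module.Finite.of_basis (AdjoinRoot.powerBasis' hg).basis
  have f4 : Module.Finite (AdjoinRoot g) (AdjoinRoot P) :=
    Module.Finite.of_basis (AdjoinRoot.powerBasis' hP).basis
  have f5 : Module.Free ℤ (AdjoinRoot P) :=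
    Module.Free.trans (R := ℤ) (S := AdjoinRoot g) (M := AdjoinRoot P)
  have f6 : Module.Finite ℤ (AdjoinRoot P) := Module.Finite.trans (AdjoinRoot g) (AdjoinRoot P)
  exact ⟨AdjoinRoot P, inferInstance, f5, f6, AdjoinRoot.of P, AdjoinRoot.root P,
    AdjoinRoot.lift (AdjoinRoot.lift (Int.castRingHom (ZMod q)) x₀ e1) w e2, e, hω, he1, he2⟩

end UD0
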