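import Pool.Agent.UD0.ArA
import Pool.Agent.UD0.ArB
import Pool.Agent.UD0.ArC

/-!
# UD0 / Ar: a closed point of odd degree with a given Legendre symbol (abstract form)

PROOF.  `D₀ = q D₁`.  Let `O`, `ι`, `ω`, `τ`, `e` be as in `exists_ring`.  `B = q ^ v B'` with `B'` prime to
`q`, `B' > 0` (replace `B` by `|B|`).  `M = 24 D₁ B'` is prime to `q` (`q ≥ 7`), `s` an integer with
`M s ≡ 1` modulo `q`, `r` a nonresidue modulo `q` (`ZMod.exists_not_isSquare`-like;
`jacobiSym r q = legendreSym q r = -1`).  `α = 1 + M s (r - 1) e`; `N = norm α`.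
`N ≡ 1` modulo `M` (`norm_modEq_one`), `N ≡ r` modulo `q` (`norm_modEq_idem`:
`α = 1 + (r - 1) e + q * (...)`).  `N ≠ 0` (`M > 1`).  `A = O ⧸ (α)` has `n = |N|` elements
(`card_quot`), `J(D₀ | n) = -1` (`jacobi_neg_one`).  `exists_residue` for `χ n = J(D₀ | n)`
(`jacobiSym.mul_right'`) gives a maximal ideal `m` of `A` with `J(D₀ | card (A ⧸ m)) ≠ 1`;
`F = A ⧸ m`, a finite field; `card F` divides `n` (`Ideal`/`AddSubgroup.card_dvd`-like), so
the characteristic `p` of `F` divides `n`; `n` is prime to `M` and to `q`, so `(3 : F) ≠ 0`,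
`(D₀ : F) ≠ 0`, `(B : F) ≠ 0`.  `of_residue` with `y` = the image of `ω`.
`ψ` = the composition `AdjoinRoot g → O → A → F`.
-/

set_option autoImplicit false

open Polynomial

namespace UD0

/-- an integer prime to the order of a quotient field is not zero in it -/
private theorem ard_ne {A : Type} [CommRing A] [Finite A] (F : Type) [Field F] [Finite F]
    (π : A →+* F) (hπ : Function.Surjective π) {N c : ℤ} (hN : Nat.card A = N.natAbs)
    (h : IsCoprime N c) : (c : F) ≠ 0 := by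
  intro hc
  have h1 : Nat.card F ∣ Nat.card A :=
    AddSubgroup.card_dvd_of_surjective π.toAddMonoidHom hπ
  have h2 : ((Nat.card F : ℕ) : F) = 0 := by
    have := Fintype.ofFinite F
    rw [Nat.card_eq_fintype_card]
    exact FiniteField.cast_card_eq_zero F
  have h3 : (N : F) = 0 := by
    rw [hN] at h1
    have h4 : ((Nat.card F : ℕ) : ℤ) ∣ N := Int.natCast_dvd.2 h1
    obtain ⟨t, rfl⟩ := h4
    rw [Int.cast_mul, Int.cast_natCast, h2, zero_mul]
  obtain ⟨u, v, huv⟩ := h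
  have h5 : ((u * N + v * c : ℤ) : F) = 1 := by rw [huv, Int.cast_one]
  rw [Int.cast_add, Int.cast_mul, Int.cast_mul, h3, hc, mul_zero, mul_zero, add_zero] at h5
  exact zero_ne_one h5

theorem closed_abs {g : ℤ[X]} (hg : g.Monic) {q : ℕ} [Fact q.Prime] (hq : q % 3 = 1)
    {x₀ : ZMod q} (h0 : aeval x₀ g = 0) (h1 : aeval x₀ (derivative g) ≠ 0) {D₀ : ℤ}
    (hD0 : 0 < D₀) (hqD : (q : ℤ) ∣ D₀) (hqD2 : ¬ (q : ℤ) ^ 2 ∣ D₀) {B : ℤ} (hB : B ≠ 0) :
    ∃ (F : Type) (_ : Field F) (_ : Finite F) (p f : ℕ) (ψ : AdjoinRoot g →+* F),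
      p.Prime ∧ p % 3 = 1 ∧ Odd f ∧ Nat.card F = p ^ f ∧ CharP F p ∧ jacobiSym D₀ p = -1 ∧
        (B : F) ≠ 0 := by
  have hqp : q.Prime := Fact.out
  have hqZ : Prime (q : ℤ) := Nat.prime_iff_prime_int.1 hqp
  have hq2 : q ≠ 2 := by omega
  have hq3 : q ≠ 3 := by omega
  obtain ⟨D₁, hD⟩ := hqD
  have hq0 : (0 : ℤ) < q := by exact_mod_cast hqp.pos
  have hD1 : 0 < D₁ := by
    rw [hD] at hD0
    exact pos_of_mul_pos_right hD0 hq0.le
  have hqD1 : ¬ (q : ℤ) ∣ D₁ := by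
    rintro ⟨c, hc⟩
    apply hqD2
    exact ⟨c, by rw [hD, hc]; ring⟩
  have hB' : B.natAbs ≠ 0 := Int.natAbs_ne_zero.2 hB
  obtain ⟨v, b, hqb, hb⟩ := Nat.exists_eq_pow_mul_and_not_dvd hB' q hqp.ne_one
  have hb0 : b ≠ 0 := by
    rintro rfl
    exact hqb (dvd_zero q)
  obtain ⟨O, i1, i2, i3, ι, ω, τ, e, hω, hτe, he⟩ := exists_ring hg hq h0 h1
  set M : ℤ := 24 * D₁ * b with hM
  have hqM : ¬ (q : ℤ) ∣ M := by
    intro h
    rcases hqZ.dvd_or_dvd h with h | h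
    · rcases hqZ.dvd_or_dvd h with h | h
      · have h2 : (q : ℤ) ∣ 2 ^ 3 * 3 := by norm_num; exact h
        rcases hqZ.dvd_or_dvd h2 with h | h
        · have h3 : (q : ℤ) ∣ 2 := hqZ.dvd_of_dvd_pow h
          have h4 : q ∣ 2 := by exact_mod_cast h3
          exact hq2 ((Nat.prime_dvd_prime_iff_eq hqp Nat.prime_two).1 h4)
        · have h4 : q ∣ 3 := by exact_mod_cast h
          exact hq3 ((Nat.prime_dvd_prime_iff_eq hqp Nat.prime_three).1 h4)
      · exact hqD1 h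
    · exact hqb (by exact_mod_cast h)
  obtain ⟨t, s, hts⟩ := (hqZ.irreducible.coprime_iff_not_dvd (n := M)).2 hqM
  -- a nonresidue
  obtain ⟨a, ha⟩ := FiniteField.exists_nonsquare (F := ZMod q)
    (by rw [ZMod.ringChar_zmod_n]; exact hq2)
  obtain ⟨r, hr⟩ := ZMod.intCast_surjective a
  have hr1 : jacobiSym r q = -1 := by
    rw [← jacobiSym.legendreSym.to_jacobiSym, legendreSym.eq_neg_one_iff, hr]
    exact ha
  have hqr : ¬ (q : ℤ) ∣ r := by
    intro h
    apply ha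
    rw [← hr, (ZMod.intCast_zmod_eq_zero_iff_dvd r q).2 h]
    exact IsSquare.zero
  set α : O := 1 + (M : O) * ((s : O) * (((r - 1 : ℤ) : O) * e)) with hα
  have hα2 : α = 1 + ((r - 1 : ℤ) : O) * e + (q : O) * (-((t : O) * (((r - 1 : ℤ) : O) * e))) := by
    have h2 : ((t * q + s * M : ℤ) : O) = 1 := by rw [hts, Int.cast_one]
    rw [Int.cast_add, Int.cast_mul, Int.cast_mul, Int.cast_natCast] at h2
    rw [hα]
    linear_combination (((r - 1 : ℤ) : O) * e) * h2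
  set N : ℤ := Algebra.norm ℤ α with hN
  have hN1 : N ≡ 1 [ZMOD M] := norm_modEq_one M _
  have hNq : N ≡ r [ZMOD q] := by
    rw [hN, hα2]
    exact norm_modEq_idem τ hτe he r _
  obtain ⟨u, hu⟩ := hN1.dvd
  have hMpos : 24 ≤ M := by
    have hb1 : (1 : ℤ) ≤ b := by exact_mod_cast Nat.one_le_iff_ne_zero.2 hb0
    have : (1 : ℤ) ≤ D₁ * b := by nlinarith
    rw [hM]
    nlinarith
  have hcM : IsCoprime N M := ⟨1, u, by linear_combination (-1 : ℤ) * hu⟩
  have hcq : IsCoprime N q := by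
    refine ((hqZ.irreducible.coprime_iff_not_dvd (n := N)).2 fun h => hqr ?_).symm
    have h2 := hNq.dvd
    have h3 := dvd_add h2 h
    rwa [sub_add_cancel] at h3
  have hN0 : N ≠ 0 := by
    intro h0
    rw [h0, isCoprime_zero_left] at hcM
    have := Int.isUnit_iff.1 hcM
    omega
  have h8 : N ≡ 1 [ZMOD 8 * D₁] := by
    refine Int.ModEq.of_dvd ?_ hN1
    exact ⟨3 * b, by rw [hM]; ring⟩
  have hJ : jacobiSym D₀ N.natAbs = -1 :=
    jacobi_neg_one hqp hq2 hD hD1 hqD1 hr1 h8 hNq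
  obtain ⟨hfin, hcard⟩ := card_quot (α := α) hN0
  obtain ⟨m, hm, hχ⟩ := exists_residue (A := O ⧸ Ideal.span {α}) (fun n => jacobiSym D₀ n)
    (jacobiSym.one_right D₀) (fun a b ha hb => jacobiSym.mul_right' D₀ ha hb)
    (by
      show jacobiSym D₀ (Nat.card (O ⧸ Ideal.span {α})) ≠ 1
      rw [hcard, hJ]
      norm_num)
  let F : Type := (O ⧸ Ideal.span {α}) ⧸ m
  let iF : Field F := Ideal.Quotient.field m
  have iFin : Finite F := Finite.of_surjective _ (Ideal.Quotient.mk_surjective (I := m))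
  let π : (O ⧸ Ideal.span {α}) →+* F := Ideal.Quotient.mk m
  have hπ : Function.Surjective π := Ideal.Quotient.mk_surjective
  have hne : ∀ c : ℤ, IsCoprime N c → (c : F) ≠ 0 := fun c hc => ard_ne F π hπ hcard hc
  have h3F : (3 : F) ≠ 0 := by
    have := hne 3 (hcM.of_isCoprime_of_dvd_right ⟨8 * D₁ * b, by rw [hM]; ring⟩)
    exact_mod_cast this
  have hcD1 : IsCoprime N D₁ := hcM.of_isCoprime_of_dvd_right ⟨24 * b, by rw [hM]; ring⟩
  have hDF : (D₀ : F) ≠ 0 := hne D₀ (by rw [hD]; exact hcq.mul_right hcD1)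
  have hcb : IsCoprime N (b : ℤ) := hcM.of_isCoprime_of_dvd_right ⟨24 * D₁, by rw [hM]; ring⟩
  have hcB : IsCoprime N B := by
    have h2 : IsCoprime N ((B.natAbs : ℕ) : ℤ) := by
      rw [hb]
      push_cast
      exact (hcq.pow_right).mul_right hcb
    exact h2.of_isCoprime_of_dvd_right (Int.dvd_natAbs.2 dvd_rfl)
  let φ : O →+* F := π.comp (Ideal.Quotient.mk (Ideal.span {α}))
  have hy : (φ ω) ^ 2 + φ ω + 1 = 0 := by
    rw [← map_pow, ← map_add, ← map_one φ, ← map_add, hω, map_zero]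
  obtain ⟨p, f, hp, hp3, hf, hpf, hch, hJp⟩ := of_residue (F := F) h3F hDF hy hχ
  exact ⟨F, iF, iFin, p, f, φ.comp ι, hp, hp3, hf, hpf, hch, hJp, hne B hcB⟩

end UD0
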