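import Pool.Agent.UD0.Base

/-!
# UD0 / Ar: specialization of a presentation

PROOF of `exists_norm_mul` : `R = AdjoinRoot G` is a domain (it embeds in `K`), integral and finite free
over `A = ℤ[t]`; for `h ≠ 0` the constant coefficient `H` of the minimal polynomial (or the norm of
`h` over `A`, `Algebra.norm`, `Algebra.dvd_norm`-like; or: `h` is integral over `A`, take a monic
relation of minimal degree) is a nonzero multiple of `h`: `h y = H`.
PROOF of `exists_point` : a nonzero polynomial `H : ℤ[t]` and a point `c₀ : (ZMod q) ^ d` : there is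
`c : ℤ ^ d` with classes `c₀` and `H (c) ≠ 0`: apply `MvPolynomial.funext` to
`H (ĉ₀ + q s)` (nonzero: substitute back over `ℚ`).
PROOF of `exists_spec` : `τ₀ : R → ZMod q`; `c₀ i = τ₀ (t_i)`, `x₀ = τ₀ (root)`.  `c` from
`exists_point` for `H` of `exists_norm_mul`.  `g = G (c; X)` (`G.map (MvPolynomial.eval c)`), monic.
`σ : R → AdjoinRoot g` (`AdjoinRoot.map`-like or `AdjoinRoot.lift`), `B = H (c)`;
`σ h * σ y = B`.  `aeval x₀ g` is the value of `G` at `(c₀, x₀)`, `= τ₀ (0) = 0`, and
`aeval x₀ g' = τ₀ (disc) ≠ 0`.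
-/

set_option autoImplicit false

open Polynomial

namespace UD0

universe u

variable {K : Type u} [Field K]

theorem isDomain_R (P : Pres K) : IsDomain P.R :=
  P.inj.isDomain

/-- every nonzero element divides a nonzero polynomial -/
theorem exists_norm_mul (P : Pres K) {h : P.R} (hh : h ≠ 0) :
    ∃ (H : MvPolynomial (Fin P.d) ℤ) (y : P.R), H ≠ 0 ∧ h * y = AdjoinRoot.of P.G H := by
  have _dom := isDomain_R P
  have : Module.Finite (MvPolynomial (Fin P.d) ℤ) P.R := P.monic.finite_adjoinRoot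
  have hint : IsIntegral (MvPolynomial (Fin P.d) ℤ) h := Algebra.IsIntegral.isIntegral h
  have h1 := Ideal.comap_ne_bot_of_integral_mem (I := Ideal.span {h}) hh
    (Ideal.mem_span_singleton_self h) hint
  obtain ⟨H, hH, hH0⟩ := Submodule.exists_mem_ne_zero_of_ne_bot h1
  obtain ⟨y, hy⟩ := Ideal.mem_span_singleton.1 (Ideal.mem_comap.1 hH)
  exact ⟨H, y, hH0, hy.symm⟩

theorem exists_point {d : ℕ} {q : ℕ} [Fact q.Prime] (c₀ : Fin d → ZMod q)
    {H : MvPolynomial (Fin d) ℤ} (hH : H ≠ 0) :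
    ∃ c : Fin d → ℤ, (∀ i, (c i : ZMod q) = c₀ i) ∧ MvPolynomial.eval c H ≠ 0 := by
  by_contra hn
  push Not at hn
  have hq : (q : ℤ) ≠ 0 := by
    have := (Fact.out : q.Prime).ne_zero
    exact_mod_cast this
  have hinf : ∀ i, Set.Infinite {z : ℤ | (z : ZMod q) = c₀ i} := by
    intro i
    have hinj : Function.Injective fun n : ℤ => ((c₀ i).val : ℤ) + q * n := by
      intro a b hab
      have h1 : (q : ℤ) * a = q * b := by
        have : ((c₀ i).val : ℤ) + q * a = ((c₀ i).val : ℤ) + q * b := hab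
        linarith
      exact mul_left_cancel₀ hq h1
    refine Set.infinite_of_injective_forall_mem hinj fun n => ?_
    show ((((c₀ i).val : ℤ) + q * n : ℤ) : ZMod q) = c₀ i
    push_cast
    rw [ZMod.natCast_self, zero_mul, add_zero]
    exact ZMod.natCast_zmod_val _
  apply hH
  refine MvPolynomial.funext_set (fun i => {z : ℤ | (z : ZMod q) = c₀ i}) hinf fun x hx => ?_
  rw [map_zero]
  exact hn x fun i => hx i (Set.mem_univ i)

theorem exists_spec (P : Pres K) {q : ℕ} [Fact q.Prime] (τ₀ : P.R →+* ZMod q)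
    (hτ : τ₀ P.disc ≠ 0) {h : P.R} (hh : h ≠ 0) :
    ∃ (g : ℤ[X]) (σ : P.R →+* AdjoinRoot g) (B : ℤ) (y : AdjoinRoot g) (x₀ : ZMod q),
      g.Monic ∧ B ≠ 0 ∧ σ h * y = B ∧ aeval x₀ g = 0 ∧ aeval x₀ (derivative g) ≠ 0 := by
  obtain ⟨H, y, hH, hy⟩ := exists_norm_mul P hh
  obtain ⟨c, hc, hcH⟩ := exists_point (fun i => τ₀ (P.tR i)) hH
  have hcomp : (Int.castRingHom (ZMod q)).comp (MvPolynomial.eval c) =
      τ₀.comp (AdjoinRoot.of P.G) := by
    refine MvPolynomial.ringHom_ext (fun r => ?_) fun i => ?_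
    · rw [RingHom.comp_apply, RingHom.comp_apply, MvPolynomial.eval_C]
      have h1 : (MvPolynomial.C r : MvPolynomial (Fin P.d) ℤ) = (r : MvPolynomial (Fin P.d) ℤ) := by
        simp
      rw [h1, map_intCast, map_intCast]
      rfl
    · rw [RingHom.comp_apply, RingHom.comp_apply, MvPolynomial.eval_X]
      exact hc i
  have heval : ∀ F : (MvPolynomial (Fin P.d) ℤ)[X],
      aeval (τ₀ (AdjoinRoot.root P.G)) (F.map (MvPolynomial.eval c)) =
        τ₀ (AdjoinRoot.mk P.G F) := by
    intro F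
    rw [aeval_def, eval₂_map]
    have h1 : (algebraMap ℤ (ZMod q)).comp (MvPolynomial.eval c) =
        τ₀.comp (AdjoinRoot.of P.G) := hcomp
    rw [h1, ← hom_eval₂]
    congr 1
    exact AdjoinRoot.aeval_eq F
  refine ⟨P.G.map (MvPolynomial.eval c), AdjoinRoot.map (MvPolynomial.eval c) P.G
    (P.G.map (MvPolynomial.eval c)) dvd_rfl, MvPolynomial.eval c H,
    AdjoinRoot.map (MvPolynomial.eval c) P.G (P.G.map (MvPolynomial.eval c)) dvd_rfl y,
    τ₀ (AdjoinRoot.root P.G), P.monic.map _, hcH, ?_, ?_, ?_⟩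
  · rw [← map_mul, hy, AdjoinRoot.map_of]
    simp
  · rw [heval, AdjoinRoot.mk_self, map_zero]
  · rw [derivative_map, heval]
    exact hτ

/-- the different is not zero (characteristic zero) -/
theorem disc_ne_zero [CharZero K] (P : Pres K) : P.disc ≠ 0 := by
  have _ := (inferInstance : CharZero K)
  intro h0
  have hdvd : P.G ∣ derivative P.G := AdjoinRoot.mk_eq_zero.1 h0
  have hdeg : P.G.natDegree ≠ 0 := by
    intro hd
    have h1 := eq_one_of_monic_natDegree_zero P.monic hd
    exact P.irr.not_isUnit (h1 ▸ isUnit_one)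
  have hne : derivative P.G ≠ 0 := by
    intro h1
    rw [derivative_eq_zero] at h1
    exact hdeg h1
  exact P.monic.not_dvd_of_natDegree_lt hne (natDegree_derivative_lt hdeg) hdvd

end UD0
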