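import Pool.Agent.UD0.ArD
import Pool.Agent.UD0.ArE

/-!
# UD0 / Ar: closed points of odd degree
-/

set_option autoImplicit false

open Polynomial

namespace UD0

universe u

variable {K : Type u} [Field K]

/-- CLOSED POINTS OF ODD DEGREE -/
theorem closed_point (P : Pres K) {q : ℕ} (hq : P.Good q) {D₀ : ℤ} (hD0 : 0 < D₀)
    (hqD : (q : ℤ) ∣ D₀) (hqD2 : ¬ (q : ℤ) ^ 2 ∣ D₀) {h : P.R} (hh : h ≠ 0) :
    ∃ (F : Type) (_ : Field F) (_ : Finite F) (p f : ℕ) (τ : P.R →+* F),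
      p.Prime ∧ p % 3 = 1 ∧ Odd f ∧ Nat.card F = p ^ f ∧ CharP F p ∧ jacobiSym D₀ p = -1 ∧
        τ h ≠ 0 := by
  obtain ⟨hqp, hq3, τ₀, hτ⟩ := hq
  have : Fact q.Prime := ⟨hqp⟩
  obtain ⟨g, σ, B, y, x₀, hg, hB, hy, h0, h1⟩ := exists_spec P τ₀ hτ hh
  obtain ⟨F, _, _, p, f, ψ, hp, hp3, hf, hF, hc, hJ, hBF⟩ :=
    closed_abs hg hq3 h0 h1 hD0 hqD hqD2 hB
  refine ⟨F, _, inferInstance, p, f, ψ.comp σ, hp, hp3, hf, hF, hc, hJ, fun h2 => hBF ?_⟩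
  rw [RingHom.comp_apply] at h2
  have h3 : ψ (σ h * y) = (B : F) := by rw [hy, map_intCast]
  rw [← h3, map_mul, h2, zero_mul]

end UD0
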