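import Pool.Agent.UD0.ArE

/-!
# UD0 / Ar: infinitely many good primes

PROOFS.
* `exists_prime_dvd_eval` (Schur): if `F (0) = 0` take any prime not in `T`.  Otherwise let `c = F (0)`,
  `M` the product of the members of `T` that are prime (or of all nonzero members);
  `F (c M x) = c (1 + M H (x))` with a nonconstant polynomial `H : ℤ[X]`; choose an integer `x` with
  `1 + M H (x)` different from `0, 1, -1`; a prime divisor of it is not in `T`.
* `infinite_roots` : let `α` be a root of `g` in `ℂ` (degree `≥ 1`), `w` a primitive cube root of unity.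
  `ℚ(α, w) = ℚ(γ)` with `γ = α + m w`, `m` an integer (`Field.exists_primitive_element`, or its proof;
  any integral primitive element is good), `F` = the minimal polynomial of `γ` over `ℤ`
  (monic, degree `≥ 1`).  There are an integer `b ≠ 0` and `A, W : ℤ[X]` with `b α = A (γ)`,
  `b w = W (γ)`.  Let `q` be a prime not dividing `3 b` and dividing `F (n)`, `n` an integer (infinitely
  many: `exists_prime_dvd_eval`).  In `ZMod q` put `x₀ = A (n) / b`, `y₀ = W (n) / b`.  The polynomial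
  `b ^ N g (A / b)` (`N` = degree of `g`) has integer coefficients and vanishes at `γ`, so it is a
  multiple of `F` in `ℤ[X]` (`minpoly.isIntegrallyClosed_dvd`), so `g (x₀) = 0` in `ZMod q`; in the same
  way `y₀ ^ 2 + y₀ + 1 = 0`, so `q ≡ 1` modulo `3` (`q ≠ 3`, `y₀ ≠ 1`, `y₀ ^ 3 = 1`).
  `AdjoinRoot.lift` gives the homomorphism.
* `infinite_good` : `exists_norm_mul` for `disc` (`disc_ne_zero`), a point `c : ℤ ^ d` with `H (c) ≠ 0`
  (`exists_point` for any prime `q`), `g = G (c; X)` (degree of `G`, `≥ 1` as `G` is irreducible and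
  monic), `σ : R → AdjoinRoot g`, `σ disc * y = B ≠ 0`.  For the infinitely many `q` of `infinite_roots`
  not dividing `B`, `τ = ψ ∘ σ` shows that `q` is good.
-/

set_option autoImplicit false

open Polynomial

namespace UD0

universe u

theorem exists_prime_dvd_eval {F : ℤ[X]} (hF : 0 < F.natDegree) (T : Finset ℕ) :
    ∃ q : ℕ, q.Prime ∧ q ∉ T ∧ ∃ n : ℤ, (q : ℤ) ∣ F.eval n := by
  by_cases h0 : F.eval 0 = 0
  · obtain ⟨q, hq, hqp⟩ := Nat.exists_infinite_primes (T.sup id + 1)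
    refine ⟨q, hqp, fun hT => ?_, 0, by rw [h0]; exact dvd_zero _⟩
    have h1 : q ≤ T.sup id := Finset.le_sup (f := id) hT
    omega
  set c := F.eval 0 with hc
  set M : ℕ := ∏ t ∈ T.erase 0, t with hM
  have hM0 : M ≠ 0 := Finset.prod_ne_zero_iff.2 fun t ht => (Finset.mem_erase.1 ht).1
  have hcM : (c * M : ℤ) ≠ 0 := mul_ne_zero h0 (by exact_mod_cast hM0)
  have hFc : ∀ d : ℤ, F - C d ≠ 0 := by
    intro d h
    rw [sub_eq_zero] at h
    rw [h, natDegree_C] at hF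
    exact lt_irrefl _ hF
  have hF0 : F ≠ 0 := by
    intro h
    rw [h, natDegree_zero] at hF
    exact lt_irrefl _ hF
  have hP : F * ((F - C c) * (F - C (-c))) ≠ 0 := mul_ne_zero hF0 (mul_ne_zero (hFc _) (hFc _))
  obtain ⟨x, hx⟩ : ∃ x : ℤ, (F * ((F - C c) * (F - C (-c)))).eval (c * M * x) ≠ 0 := by
    by_contra hcon
    push Not at hcon
    apply hP
    refine Polynomial.eq_zero_of_infinite_isRoot _ ?_
    refine Set.Infinite.mono (s := Set.range fun x : ℤ => c * M * x) ?_ ?_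
    · rintro _ ⟨x, rfl⟩
      exact hcon x
    · exact Set.infinite_range_of_injective fun x y hxy => mul_left_cancel₀ hcM hxy
  rw [eval_mul, eval_mul, eval_sub, eval_sub, eval_C, eval_C] at hx
  have hx1 := left_ne_zero_of_mul hx
  have hx2 := left_ne_zero_of_mul (right_ne_zero_of_mul hx)
  have hx3 := right_ne_zero_of_mul (right_ne_zero_of_mul hx)
  obtain ⟨k, hk⟩ := Polynomial.sub_dvd_eval_sub (c * M * x) 0 F
  rw [← hc, sub_zero] at hk
  have hev : F.eval (c * M * x) = c * (1 + M * (x * k)) := by linear_combination hk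
  set u : ℤ := 1 + M * (x * k) with hu
  have hu0 : u ≠ 0 := by
    intro h
    rw [h, mul_zero] at hev
    exact hx1 hev
  have hu1 : u ≠ 1 := by
    intro h
    rw [h, mul_one] at hev
    exact hx2 (by rw [hev, sub_self])
  have hu2 : u ≠ -1 := by
    intro h
    rw [h] at hev
    exact hx3 (by rw [hev]; ring)
  have hn1 : u.natAbs ≠ 1 := by omega
  obtain ⟨q, hqp, hqu⟩ := Nat.exists_prime_and_dvd hn1
  have hqu' : (q : ℤ) ∣ u := Int.natCast_dvd.2 hqu
  refine ⟨q, hqp, fun hT => ?_, c * M * x, ?_⟩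
  · have h1 : q ∣ M := Finset.dvd_prod_of_mem _ (Finset.mem_erase.2 ⟨hqp.ne_zero, hT⟩)
    have h2 : (q : ℤ) ∣ M * (x * k) := Dvd.dvd.mul_right (Int.natCast_dvd_natCast.2 h1) _
    have h3 : (q : ℤ) ∣ 1 := by
      have h4 : (1 : ℤ) = u - M * (x * k) := by rw [hu]; ring
      rw [h4]
      exact dvd_sub hqu' h2
    have h5 : q ∣ 1 := by exact_mod_cast h3
    exact hqp.one_lt.ne' (Nat.dvd_one.1 h5)
  · rw [hev]
    exact Dvd.dvd.mul_left hqu' _

open IntermediateField in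
/-- an integral element such that integer multiples of both numbers are integer polynomials in it -/
theorem exists_integral_gen {x y : ℂ} (hx : IsIntegral ℚ x) (hy : IsIntegral ℚ y) :
    ∃ (γ : ℂ) (b : ℤ) (A B : ℤ[X]), IsIntegral ℤ γ ∧ b ≠ 0 ∧ (b : ℂ) * x = aeval γ A ∧
      (b : ℂ) * y = aeval γ B := by
  have := IntermediateField.finiteDimensional_adjoin_pair hx hy
  let pb := Field.powerBasisOfFiniteOfSeparable ℚ ℚ⟮x, y⟯
  set γ0 : ℂ := (pb.gen : ℂ) with hγ0
  have hgen : ∀ z ∈ ℚ⟮x, y⟯, ∃ f : ℚ[X], z = aeval γ0 f := by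
    intro z hz
    obtain ⟨f, hf⟩ := pb.exists_eq_aeval' ⟨z, hz⟩
    refine ⟨f, ?_⟩
    have h1 := congrArg (algebraMap ℚ⟮x, y⟯ ℂ) hf
    rw [← aeval_algebraMap_apply] at h1
    exact h1
  have hint : IsIntegral ℚ γ0 := by
    have h1 : IsIntegral ℚ pb.gen := Algebra.IsIntegral.isIntegral _
    exact h1.map (IsScalarTower.toAlgHom ℚ ℚ⟮x, y⟯ ℂ)
  have halg : IsAlgebraic ℤ γ0 := (IsFractionRing.isAlgebraic_iff ℤ ℚ ℂ).2 hint.isAlgebraic
  obtain ⟨c, hc, hcint⟩ := halg.exists_integral_multiple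
  have hc' : (c : ℂ) ≠ 0 := by exact_mod_cast hc
  have key : ∀ z ∈ ℚ⟮x, y⟯, ∃ (b : ℤ) (A : ℤ[X]), b ≠ 0 ∧ (b : ℂ) * z = aeval (c • γ0) A := by
    intro z hz
    obtain ⟨f, hf⟩ := hgen z hz
    set f' : ℚ[X] := f.comp (C (1 / (c : ℚ)) * X) with hf'
    have h1 : aeval (c • γ0) f' = z := by
      rw [hf', aeval_comp, hf]
      congr 1
      rw [map_mul, aeval_C, aeval_X, zsmul_eq_mul]
      rw [eq_ratCast]
      push_cast
      field_simp
    obtain ⟨b, hb, hb2⟩ := IsLocalization.integerNormalization_spec (nonZeroDivisors ℤ) f'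
    refine ⟨b, IsLocalization.integerNormalization (nonZeroDivisors ℤ) f',
      nonZeroDivisors.ne_zero hb, ?_⟩
    have h2 := congrArg (aeval (c • γ0)) hb2
    rw [aeval_map_algebraMap, ← IsScalarTower.algebraMap_smul ℚ b f'] at h2
    rw [h2, map_smul, h1, algebraMap_smul, zsmul_eq_mul]
  obtain ⟨b1, A1, hb1, h1⟩ := key x (IntermediateField.subset_adjoin ℚ _ (by simp))
  obtain ⟨b2, A2, hb2, h2⟩ := key y (IntermediateField.subset_adjoin ℚ _ (by simp))
  refine ⟨c • γ0, b1 * b2, C b2 * A1, C b1 * A2, hcint, mul_ne_zero hb1 hb2, ?_, ?_⟩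
  · rw [map_mul, aeval_C, ← h1, algebraMap_int_eq, eq_intCast]
    push_cast
    ring
  · rw [map_mul, aeval_C, ← h2, algebraMap_int_eq, eq_intCast]
    push_cast
    ring

/-- reduction of a root modulo a prime -/
theorem root_mod {γ : ℂ} (hγ : IsIntegral ℤ γ) {g : ℤ[X]} {x : ℂ} (hx : aeval x g = 0) {b : ℤ}
    {A : ℤ[X]} (hA : (b : ℂ) * x = aeval γ A) {q : ℕ} [Fact q.Prime] (hb : (b : ZMod q) ≠ 0)
    {n : ℤ} (hn : (q : ℤ) ∣ (minpoly ℤ γ).eval n) : ∃ x₀ : ZMod q, aeval x₀ g = 0 := by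
  have h1 : aeval γ ((scaleRoots g b).comp A) = 0 := by
    rw [aeval_comp, ← hA]
    have h2 := scaleRoots_aeval_eq_zero (A := ℂ) (r := b) hx
    rwa [algebraMap_int_eq, eq_intCast] at h2
  have h3 := minpoly.isIntegrallyClosed_dvd hγ h1
  have h4 : (q : ℤ) ∣ ((scaleRoots g b).comp A).eval n := hn.trans (eval_dvd h3)
  rw [eval_comp] at h4
  have h5 : aeval ((A.eval n : ℤ) : ZMod q) (scaleRoots g b) = 0 := by
    have h6 : ((((scaleRoots g b).eval (A.eval n) : ℤ)) : ZMod q) = 0 :=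
      (ZMod.intCast_zmod_eq_zero_iff_dvd _ _).2 h4
    have h7 := aeval_algebraMap_apply_eq_algebraMap_eval (A := ZMod q) (A.eval n) (scaleRoots g b)
    rw [algebraMap_int_eq, eq_intCast, eq_intCast, h6] at h7
    exact h7
  refine ⟨((A.eval n : ℤ) : ZMod q) / b, ?_⟩
  have h6 := scaleRoots_eval₂_mul (p := g) (algebraMap ℤ (ZMod q)) (((A.eval n : ℤ) : ZMod q) / b) b
  have h7 : algebraMap ℤ (ZMod q) b = (b : ZMod q) := by simp
  rw [h7, mul_div_cancel₀ _ hb, ← aeval_def, h5] at h6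
  rw [aeval_def]
  exact (mul_eq_zero.1 h6.symm).resolve_left (pow_ne_zero _ hb)

theorem mod_three {q : ℕ} [hq : Fact q.Prime] (h3 : q ≠ 3) {y : ZMod q} (hy : y ^ 2 + y + 1 = 0) :
    q % 3 = 1 := by
  have hy3 : y ^ 3 = 1 := by linear_combination (y - 1) * hy
  have hy0 : y ≠ 0 := by
    intro h
    rw [h] at hy3
    simp at hy3
  have hy1 : y ≠ 1 := by
    intro h
    rw [h] at hy
    have h1 : ((3 : ℕ) : ZMod q) = 0 := by
      push_cast
      linear_combination hy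
    have h2 := (ZMod.natCast_eq_zero_iff _ _).1 h1
    exact h3 ((Nat.prime_dvd_prime_iff_eq hq.1 Nat.prime_three).1 h2)
  set u : (ZMod q)ˣ := Units.mk0 y hy0 with hu
  have h1 : orderOf u = 3 := by
    refine orderOf_eq_prime ?_ ?_
    · ext
      simpa [hu] using hy3
    · intro h
      exact hy1 (by simpa [hu] using congrArg Units.val h)
  have h2 : 3 ∣ q - 1 := by
    rw [← h1]
    exact ZMod.orderOf_units_dvd_card_sub_one u
  have h4 := hq.1.two_le
  omega

theorem infinite_roots {g : ℤ[X]} (hg : g.Monic) (hd : 0 < g.natDegree) (T : Finset ℕ) :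
    ∃ q : ℕ, q.Prime ∧ q ∉ T ∧ q % 3 = 1 ∧ Nonempty (AdjoinRoot g →+* ZMod q) := by
  obtain ⟨α, hα⟩ : ∃ α : ℂ, aeval α g = 0 := by
    exact IsAlgClosed.exists_aeval_eq_zero ℂ g (natDegree_pos_iff_degree_pos.1 hd).ne'
  set h3 : ℤ[X] := X ^ 2 + X + 1 with hh3
  have h3d : h3.natDegree = 2 := by
    rw [hh3]
    compute_degree!
  have h3m : h3.Monic := by
    rw [hh3]
    monicity!
  obtain ⟨w, hw⟩ : ∃ w : ℂ, aeval w h3 = 0 := by
    exact IsAlgClosed.exists_aeval_eq_zero ℂ h3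
      (natDegree_pos_iff_degree_pos.1 (by rw [h3d]; norm_num)).ne'
  have hαi : IsIntegral ℤ α := ⟨g, hg, hα⟩
  have hwi : IsIntegral ℤ w := ⟨h3, h3m, hw⟩
  obtain ⟨γ, b, A, B, hγ, hb, hA, hB⟩ := exists_integral_gen (hαi.tower_top (A := ℚ))
    (hwi.tower_top (A := ℚ))
  obtain ⟨q, hq, hqT, n, hn⟩ := exists_prime_dvd_eval (minpoly.natDegree_pos hγ)
    (T ∪ {3} ∪ b.natAbs.divisors)
  rw [Finset.mem_union, Finset.mem_union, Finset.mem_singleton] at hqT
  push Not at hqT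
  have hf : Fact q.Prime := ⟨hq⟩
  have hbq : (b : ZMod q) ≠ 0 := by
    intro h
    apply hqT.2
    rw [Nat.mem_divisors]
    exact ⟨Int.natCast_dvd.1 ((ZMod.intCast_zmod_eq_zero_iff_dvd _ _).1 h), Int.natAbs_ne_zero.2 hb⟩
  obtain ⟨x₀, hx₀⟩ := root_mod hγ hα hA hbq hn
  obtain ⟨y₀, hy₀⟩ := root_mod hγ hw hB hbq hn
  have hy : y₀ ^ 2 + y₀ + 1 = 0 := by
    rw [hh3] at hy₀
    simpa using hy₀
  exact ⟨q, hq, hqT.1.1, mod_three hqT.1.2 hy, ⟨AdjoinRoot.lift (algebraMap ℤ (ZMod q)) x₀ hx₀⟩⟩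

variable {K : Type u} [Field K]

theorem infinite_good [CharZero K] (P : Pres K) (T : Finset ℕ) : ∃ q, P.Good q ∧ q ∉ T := by
  obtain ⟨H, y, hH, hy⟩ := exists_norm_mul P (disc_ne_zero P)
  have : Fact (Nat.Prime 2) := ⟨Nat.prime_two⟩
  obtain ⟨c, _, hc⟩ := exists_point (q := 2) (fun _ => 0) hH
  set g : ℤ[X] := P.G.map (MvPolynomial.eval c) with hg
  have hgm : g.Monic := P.monic.map _
  have hgd : 0 < g.natDegree := by
    rw [hg, P.monic.natDegree_map]
    rcases Nat.eq_zero_or_pos P.G.natDegree with h | h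
    · exact absurd ((Polynomial.Monic.natDegree_eq_zero P.monic).1 h)
        (fun h1 => P.irr.not_isUnit (by rw [h1]; exact isUnit_one))
    · exact h
  set σ : P.R →+* AdjoinRoot g :=
    AdjoinRoot.lift ((AdjoinRoot.of g).comp (MvPolynomial.eval c)) (AdjoinRoot.root g) (by
      rw [← eval₂_map, ← hg]
      exact AdjoinRoot.eval₂_root g) with hσ
  obtain ⟨q, hq, hqT, hq3, ⟨ψ⟩⟩ := infinite_roots hgm hgd (T ∪ (MvPolynomial.eval c H).natAbs.divisors)
  rw [Finset.mem_union] at hqT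
  push Not at hqT
  refine ⟨q, ⟨hq, hq3, ψ.comp σ, fun h => ?_⟩, hqT.1⟩
  have h1 : ψ (σ (P.disc * y)) = ((MvPolynomial.eval c H : ℤ) : ZMod q) := by
    rw [hy, hσ, AdjoinRoot.lift_of, RingHom.comp_apply, ← RingHom.comp_apply ψ]
    exact eq_intCast _ _
  rw [map_mul, map_mul, show ψ (σ P.disc) = 0 from h, zero_mul] at h1
  apply hqT.2
  rw [Nat.mem_divisors]
  exact ⟨Int.natCast_dvd.1 ((ZMod.intCast_zmod_eq_zero_iff_dvd _ _).1 h1.symm), Int.natAbs_ne_zero.2 hc⟩

end UD0
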