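import Pool.Agent.UD0.ArG

/-!
# UD0 / Ar: the candidates `λ_j = a_j ^ 3 + l ^ 6` and their private good primes

PROOF.  Mathlib `exists_seq_of_forall_finset_exists` for pairs `(a, q)` with
`P (a, q)` : `¬ l ∣ a`, `Good q`, `q ≠ l`, `q ∣ λ(a)`, `¬ q ^ 2 ∣ λ(a)` and
`r (a, q) (a', q')` : `¬ q ∣ λ(a')` and `¬ q' ∣ λ(a)`.  Given a finite set `s` of such pairs choose a
good prime `q'` (`infinite_good`) not in the finite set containing `l`, the members of `s` and the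
divisors of the `λ(a) > 0`, `(a, q) ∈ s`.  By the Chinese remainder theorem there is `a'` with
`a' + l ^ 2 ≡ q'` modulo `q' ^ 2`, `a' ≡ 0` modulo `q` for `(a, q) ∈ s`, `a' ≡ 1` modulo `l`
(the moduli are powers of different primes).  `λ(a') = (a' + l ^ 2) (a' ^ 2 - a' l ^ 2 + l ^ 4)`; modulo
`q'` the second factor is `3 l ^ 4`, prime to `q'` (`q' ≡ 1` modulo `3`, `q' ≠ l`), so
`q' ∣ λ(a')` and `q' ^ 2 ∤ λ(a')`.  Modulo `q`: `λ(a') ≡ l ^ 6 ≠ 0`.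
-/

set_option autoImplicit false

open Polynomial

namespace UD0

universe u

variable {K : Type u} [Field K]

/-- the arithmetic of one candidate -/
theorem cand_aux {l q a : ℕ} (hl : l.Prime) (hq : q.Prime) (hq3 : q % 3 = 1) (hql : q ≠ l)
    (ha : (q : ℤ) ^ 2 ∣ (a : ℤ) + l ^ 2 - q) : q ∣ a ^ 3 + l ^ 6 ∧ ¬ q ^ 2 ∣ a ^ 3 + l ^ 6 := by
  obtain ⟨t, ht⟩ := ha
  have hA : (a : ℤ) + l ^ 2 = q * (1 + q * t) := by linear_combination ht
  have hlam : ((a ^ 3 + l ^ 6 : ℕ) : ℤ) = q * ((1 + q * t) *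
      ((q * (1 + q * t)) ^ 2 - 3 * (q * (1 + q * t)) * l ^ 2 + 3 * l ^ 4)) := by
    push_cast
    rw [← hA]
    have e : (q : ℤ) * ((1 + q * t) *
      (((a : ℤ) + l ^ 2) ^ 2 - 3 * ((a : ℤ) + l ^ 2) * l ^ 2 + 3 * l ^ 4)) = ((a : ℤ) + l ^ 2) *
      (((a : ℤ) + l ^ 2) ^ 2 - 3 * ((a : ℤ) + l ^ 2) * l ^ 2 + 3 * l ^ 4) := by
      rw [← mul_assoc, ← hA]
    rw [e]
    ring
  have hqp : Prime (q : ℤ) := Nat.prime_iff_prime_int.1 hq
  constructor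
  · have h1 : (q : ℤ) ∣ ((a ^ 3 + l ^ 6 : ℕ) : ℤ) := by
      rw [hlam]
      exact dvd_mul_right _ _
    exact_mod_cast h1
  · intro h
    have h1 : (q : ℤ) * q ∣ ((a ^ 3 + l ^ 6 : ℕ) : ℤ) := by
      have h2 : ((q ^ 2 : ℕ) : ℤ) ∣ ((a ^ 3 + l ^ 6 : ℕ) : ℤ) := by exact_mod_cast h
      rwa [Nat.cast_pow, sq] at h2
    rw [hlam] at h1
    have h2 := (mul_dvd_mul_iff_left hqp.ne_zero).1 h1
    rcases hqp.dvd_or_dvd h2 with h3 | h3
    · have h4 : (q : ℤ) ∣ 1 := by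
        have h5 : (1 : ℤ) = (1 + q * t) - q * t := by ring
        rw [h5]
        exact dvd_sub h3 (dvd_mul_right _ _)
      exact hqp.not_dvd_one h4
    · have h4 : (q : ℤ) ∣ 3 * l ^ 4 := by
        have h5 : (3 * l ^ 4 : ℤ) = ((q * (1 + q * t)) ^ 2 - 3 * (q * (1 + q * t)) * l ^ 2 + 3 * l ^ 4)
            - q * ((1 + q * t) ^ 2 * q - 3 * (1 + q * t) * l ^ 2) := by ring
        rw [h5]
        exact dvd_sub h3 (dvd_mul_right _ _)
      rcases hqp.dvd_or_dvd h4 with h5 | h5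
      · have h6 : q ∣ 3 := by exact_mod_cast h5
        have h7 := (Nat.prime_dvd_prime_iff_eq hq Nat.prime_three).1 h6
        rw [h7] at hq3
        norm_num at hq3
      · have h6 : q ∣ l := by exact_mod_cast hqp.dvd_of_dvd_pow h5
        exact hql ((Nat.prime_dvd_prime_iff_eq hq hl).1 h6)

theorem candidates [CharZero K] (P : Pres K) {l : ℕ} (hl : l.Prime) :
    ∃ a q : ℕ → ℕ, (∀ j, ¬ l ∣ a j) ∧ (∀ j, P.Good (q j)) ∧ (∀ j, q j ∣ a j ^ 3 + l ^ 6) ∧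
      (∀ j, ¬ q j ^ 2 ∣ a j ^ 3 + l ^ 6) ∧ ∀ i j, i ≠ j → ¬ q j ∣ a i ^ 3 + l ^ 6 := by
  classical
  obtain ⟨f, hf, hr⟩ := exists_seq_of_forall_finset_exists
    (fun x : ℕ × ℕ => ¬ l ∣ x.1 ∧ P.Good x.2 ∧ x.2 ≠ l ∧ x.2 ∣ x.1 ^ 3 + l ^ 6 ∧
      ¬ x.2 ^ 2 ∣ x.1 ^ 3 + l ^ 6)
    (fun x y : ℕ × ℕ => ¬ x.2 ∣ y.1 ^ 3 + l ^ 6 ∧ ¬ y.2 ∣ x.1 ^ 3 + l ^ 6) (by
      intro s hs
      obtain ⟨q', hq', hqT⟩ := infinite_good P
        ({l} ∪ s.image Prod.snd ∪ s.biUnion fun x => (x.1 ^ 3 + l ^ 6).divisors)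
      simp only [Finset.mem_union, Finset.mem_singleton, Finset.mem_image, Finset.mem_biUnion,
        Nat.mem_divisors] at hqT
      push Not at hqT
      obtain ⟨⟨hql, hqs⟩, hqd⟩ := hqT
      have hqp : q'.Prime := hq'.1
      set Q : ℕ := ∏ x ∈ s, x.2 with hQ
      have hcQl : Nat.Coprime Q l := Nat.Coprime.prod_left fun x hx =>
        (Nat.coprime_primes (hs x hx).2.1.1 hl).2 (hs x hx).2.2.1
      have hcQq : Nat.Coprime Q q' := Nat.Coprime.prod_left fun x hx =>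
        (Nat.coprime_primes (hs x hx).2.1.1 hqp).2 (hqs x hx)
      have hclq : Nat.Coprime l q' := (Nat.coprime_primes hl hqp).2 (Ne.symm hql)
      have hcop : Nat.Coprime (Q * l) (q' ^ 2) := Nat.Coprime.pow_right 2 (Nat.Coprime.mul_left hcQq hclq)
      obtain ⟨k1, hk1, hk1'⟩ := Nat.chineseRemainder hcQl 0 1
      obtain ⟨a, ha1, ha2⟩ := Nat.chineseRemainder hcop k1 (q' + (q' ^ 2 - 1) * l ^ 2)
      have haQ : Q ∣ a := by
        have h1 : a ≡ k1 [MOD Q] := ha1.of_mul_right _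
        exact (Nat.modEq_zero_iff_dvd).1 (h1.trans hk1)
      have hal : ¬ l ∣ a := by
        have h1 : a ≡ k1 [MOD l] := ha1.of_mul_left _
        have h2 := h1.trans hk1'
        intro h3
        have h4 := ((Nat.modEq_zero_iff_dvd).2 h3).symm.trans h2
        have h5 := (Nat.modEq_iff_dvd' (Nat.zero_le 1)).1 h4
        exact hl.one_lt.ne' (Nat.dvd_one.1 h5)
      have haq : (q' : ℤ) ^ 2 ∣ (a : ℤ) + l ^ 2 - q' := by
        have h1 := (Nat.modEq_iff_dvd).1 ha2.symm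
        have h0 : 1 ≤ q' ^ 2 := Nat.one_le_pow _ _ hqp.pos
        push_cast [Nat.cast_sub h0] at h1
        have h2 : (a : ℤ) + l ^ 2 - q' = (a : ℤ) - (q' + (q' ^ 2 - 1) * l ^ 2) + q' ^ 2 * l ^ 2 := by
          ring
        rw [h2]
        exact dvd_add h1 (dvd_mul_right _ _)
      obtain ⟨hc1, hc2⟩ := cand_aux hl hqp hq'.2.1 hql haq
      refine ⟨(a, q'), ⟨hal, hq', hql, hc1, hc2⟩, fun x hx => ⟨fun h => ?_, fun h => ?_⟩⟩
      · have h1 : x.2 ∣ a := (Finset.dvd_prod_of_mem _ hx).trans haQ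
        have h2 : x.2 ∣ l ^ 6 := (Nat.dvd_add_right (h1.trans (dvd_pow_self a (by norm_num)))).1 h
        have h3 := (hs x hx).2.1.1.dvd_of_dvd_pow h2
        exact (hs x hx).2.2.1 ((Nat.prime_dvd_prime_iff_eq (hs x hx).2.1.1 hl).1 h3)
      · have h1 : x.1 ^ 3 + l ^ 6 ≠ 0 := by
          have := pow_pos hl.pos 6
          omega
        exact h1 (hqd x hx h))
  refine ⟨fun j => (f j).1, fun j => (f j).2, fun j => (hf j).1, fun j => (hf j).2.1,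
    fun j => (hf j).2.2.2.1, fun j => (hf j).2.2.2.2, fun i j hij => ?_⟩
  rcases lt_or_gt_of_ne hij with h | h
  · exact (hr i j h).2
  · exact (hr j i h).1

end UD0
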