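import Pool.Agent.UDN.Base

/-!
# UD0 / Ar: density of the rational points of `λ y ^ 2 = x ^ 3 + 1` near infinity

Here `w = padicValRat l`, `Ge` as in `UDN/Base.lean` (`Ge w n x` : `x = 0` or `n ≤ w x`).
The curve in the coordinates `t = x / y`, `s = 1 / y` : `λ s = t ^ 3 + s ^ 3` (`Cp`).

PROOFS.
* `isVal_padic` : the axioms of `IsVal` for `padicValRat`.
* `s_bound` : `s (λ - s ^ 2) = t ^ 3` and `λ - s ^ 2` has order `0`.
* `add_point` : put `α = (t₁ ^ 2 + t₁ t₂ + t₂ ^ 2) / (λ - (s₁ ^ 2 + s₁ s₂ + s₂ ^ 2))`,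
  `β = s₁ - α t₁`.  The denominator is a unit (`λ` is, the rest is divisible by `l`).  From the
  equations `α (t₂ - t₁) = s₂ - s₁`, so also `β = s₂ - α t₂`.  `1 + α ^ 3` is a unit.  Put
  `t₃ = t₁ + t₂ + 3 α ^ 2 β / (1 + α ^ 3)`, `s₃ = α t₃ - β`.  Claim `Cp λ t₃ s₃`: the polynomial
  `C (T) = T ^ 3 + (α T + β) ^ 3 - λ (α T + β)` has the roots `t₁`, `t₂` and third root `- t₃`.  If
  `t₁ ≠ t₂` this is clear (Vieta).  In general prove the identity directly: it is a consequence of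
  `Cp λ t₁ s₁`, `Cp λ t₂ s₂`, `s₂ = s₁ + α (t₂ - t₁)` and the definition of `α`
  (`C (T) = (T - t₁) (T - t₂) (...)`: `C (t₁) = 0` and `(C (T) - C (t₁)) / (T - t₁)` at `T = t₂` is
  `(t₁ ^ 2 + t₁ t₂ + t₂ ^ 2) + α (s₁ ^ 2 + s₁ s₂ + s₂ ^ 2) - λ α = 0` by the definition of `α`).
  So `C (T) = (1 + α ^ 3) (T - t₁) (T - t₂) (T + t₃)` by comparing the coefficient of `T ^ 2`.
  Orders: let `n₁ ≤ n₂` (symmetry).  `Ge (2 n₁) α`; `β = s₂ - α t₂` : `Ge (2 n₁ + n₂) β` (`3 n₂ ≥ 2 n₁ +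
  n₂`); so `Ge (6 n₁ + n₂) (α ^ 2 β)`, and `6 n₁ + n₂ ≥ n₁ + n₂ + 1`.  `Ge (3 n₁) s₃`.
* `exists_ord_point` : for every `n ≥ 1` there is a point with `w t = n` exactly, `Ge (3 n) s`: `n = 1` :
  `(a l, l ^ 3)`.  From `n` to `n + 1` : add the point `R` of order `n` to itself `l - 1` times: by
  induction on `m ≤ l` there is a point `R_m` with `Ge (2 n + 1) (t (R_m) - m t (R))`; for `m = l` the
  order is `n + 1` exactly as `2 n + 1 ≥ n + 2`.  (`s_bound` for the `s` coordinate.)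
* `density` : by induction on `N ≥ 1` there is a point `(t, s)` (maybe `(0, 0)`) with
  `Ge 1 t`, `Ge 3 s`, `Ge N (t - z)`.  `N = 1`: `(0, 0)`.  Step: let `R` be a point of order exactly `N`;
  adding `R` `m` times, `0 ≤ m < l`, gives points with `Ge (N + 1) (t' - t - m t (R))`
  (`add_point` with `n₁ = 1` and `n₂ = N`), choose `m` with
  `z - t ≡ m t (R)` modulo `l ^ (N + 1)`.  Finally a point with `t ≠ 0`: if the constructed point for
  `N` has `t = 0` (so `Ge N z`) replace it by a point with `w t = N` (`exists_ord_point`).  `t ≠ 0`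
  implies `s ≠ 0`; `y = 1 / s`, `x = t / s`.
-/

set_option autoImplicit false

namespace UD0

open UDN

/-- the curve near infinity -/
def Cp (lam t s : ℚ) : Prop := lam * s = t ^ 3 + s ^ 3

theorem isVal_padic (l : ℕ) [Fact l.Prime] : IsVal (padicValRat l) where
  zero := padicValRat.zero
  mul x y hx hy := padicValRat.mul hx hy
  add x y _ _ hxy := padicValRat.min_le_padicValRat_add hxy
  unif := ⟨l, padicValRat.self (Fact.out : l.Prime).one_lt⟩

private theorem ge_div {l : ℕ} [Fact l.Prime] {n : ℤ} {x y : ℚ} (hx : Ge (padicValRat l) n x)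
    (hy : y ≠ 0) (hy0 : padicValRat l y = 0) : Ge (padicValRat l) n (x / y) := by
  rcases hx with rfl | hx
  · rw [zero_div]; exact ge_zero n
  · by_cases h : x = 0
    · rw [h, zero_div]; exact ge_zero n
    · refine Or.inr ?_
      rw [(isVal_padic l).div h hy, hy0]
      linarith

private theorem ge_intCast {l : ℕ} [Fact l.Prime] (k : ℤ) : Ge (padicValRat l) 0 (k : ℚ) := by
  obtain ⟨m, rfl | rfl⟩ := k.eq_nat_or_neg
  · rw [Int.cast_natCast]; exact (isVal_padic l).ge_natCast m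
  · rw [Int.cast_neg, Int.cast_natCast]
    exact (isVal_padic l).ge_neg ((isVal_padic l).ge_natCast m)

private theorem w_self (l : ℕ) [Fact l.Prime] : padicValRat l (l : ℚ) = 1 :=
  padicValRat.self (Fact.out : l.Prime).one_lt

private theorem ge_dvd {l : ℕ} [Fact l.Prime] {k : ℤ} (h : (l : ℤ) ∣ k) :
    Ge (padicValRat l) 1 (k : ℚ) := by
  obtain ⟨m, rfl⟩ := h
  have h1 : Ge (padicValRat l) 1 ((l : ℤ) : ℚ) := by
    rw [Int.cast_natCast]
    exact Or.inr (w_self l).ge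
  have h2 := (isVal_padic l).ge_mul h1 (ge_intCast (l := l) m)
  rw [add_zero] at h2
  rw [Int.cast_mul]
  exact h2

theorem s_bound {l : ℕ} [Fact l.Prime] {lam : ℚ} (h0 : lam ≠ 0) (hlam : padicValRat l lam = 0)
    {t s : ℚ} (h : Cp lam t s) (hs : Ge (padicValRat l) 1 s) {n : ℤ}
    (ht : Ge (padicValRat l) n t) : Ge (padicValRat l) (3 * n) s := by
  have hv := isVal_padic l
  by_cases hs0 : s = 0
  · exact Or.inl hs0
  have h1 : Ge (padicValRat l) (padicValRat l lam + 1) (-(s ^ 2)) := by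
    rw [hlam]
    exact (hv.ge_neg (hv.ge_pow hs 2)).mono (by norm_num)
  obtain ⟨h2, h3⟩ := hv.add_eq h0 h1
  have h4 : t ^ 3 = s * (lam + -(s ^ 2)) := by
    unfold Cp at h
    linear_combination -h
  have ht0 : t ≠ 0 := by
    rintro rfl
    have : s * (lam + -(s ^ 2)) = 0 := by rw [← h4]; ring
    rcases mul_eq_zero.1 this with h | h
    · exact hs0 h
    · exact h2 h
  have h5 : (3 : ℤ) * padicValRat l t = padicValRat l s := by
    have h6 := hv.pow t 3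
    rw [h4, hv.mul _ _ hs0 h2, h3, hlam] at h6
    push_cast at h6
    linarith
  refine Or.inr ?_
  have h7 := (ge_iff ht0).1 ht
  linarith

private theorem add_point_aux {l : ℕ} [Fact l.Prime] {lam : ℚ} (h0 : lam ≠ 0)
    (hlam : padicValRat l lam = 0)
    {t₁ s₁ t₂ s₂ : ℚ} (h₁ : Cp lam t₁ s₁) (h₂ : Cp lam t₂ s₂) {n₁ n₂ : ℤ} (hn₁ : 1 ≤ n₁)
    (hn : n₁ ≤ n₂) (ht₁ : Ge (padicValRat l) n₁ t₁) (hs₁ : Ge (padicValRat l) (3 * n₁) s₁)
    (ht₂ : Ge (padicValRat l) n₂ t₂) (hs₂ : Ge (padicValRat l) (3 * n₂) s₂) :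
    ∃ t₃ s₃, Cp lam t₃ s₃ ∧ Ge (padicValRat l) (n₁ + n₂ + 1) (t₃ - (t₁ + t₂)) ∧
      Ge (padicValRat l) (3 * n₁) s₃ := by
  have hv := isVal_padic l
  -- the denominator
  have hD1 : Ge (padicValRat l) (padicValRat l lam + 1) (-(s₁ ^ 2 + s₁ * s₂ + s₂ ^ 2)) := by
    rw [hlam]
    refine hv.ge_neg (hv.ge_add (hv.ge_add ?_ ?_) ?_)
    · exact (hv.ge_pow hs₁ 2).mono (by push_cast; linarith)
    · exact (hv.ge_mul hs₁ hs₂).mono (by linarith)
    · exact (hv.ge_pow hs₂ 2).mono (by push_cast; linarith)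
  obtain ⟨hD0, hDw⟩ := hv.add_eq h0 hD1
  obtain ⟨D, hD⟩ : ∃ D, D = lam + -(s₁ ^ 2 + s₁ * s₂ + s₂ ^ 2) := ⟨_, rfl⟩
  rw [← hD] at hD0 hDw
  rw [hlam] at hDw
  obtain ⟨α, hα⟩ : ∃ α, α = (t₁ ^ 2 + t₁ * t₂ + t₂ ^ 2) / D := ⟨_, rfl⟩
  have hαD : α * D = t₁ ^ 2 + t₁ * t₂ + t₂ ^ 2 := by
    rw [hα]
    field_simp
  have hαw : Ge (padicValRat l) (2 * n₁) α := by
    rw [hα]
    refine ge_div (hv.ge_add (hv.ge_add ?_ ?_) ?_) hD0 hDw
    · exact (hv.ge_pow ht₁ 2).mono (by push_cast; linarith)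
    · exact (hv.ge_mul ht₁ ht₂).mono (by linarith)
    · exact (hv.ge_pow ht₂ 2).mono (by push_cast; linarith)
  have hsl : s₂ - s₁ = α * (t₂ - t₁) := by
    have h3 : (s₂ - s₁) * D = α * (t₂ - t₁) * D := by
      unfold Cp at h₁ h₂
      have : α * (t₂ - t₁) * D = (t₂ - t₁) * (α * D) := by ring
      rw [this, hαD, hD]
      linear_combination h₂ - h₁
    exact mul_right_cancel₀ hD0 h3
  obtain ⟨β, hβ⟩ : ∃ β, β = s₂ - α * t₂ := ⟨_, rfl⟩
  have e2 : s₂ = α * t₂ + β := by rw [hβ]; ring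
  have e1 : s₁ = α * t₁ + β := by linear_combination e2 - hsl
  have hβw : Ge (padicValRat l) (2 * n₁ + n₂) β := by
    rw [hβ]
    exact hv.ge_sub (hs₂.mono (by linarith)) (hv.ge_mul hαw ht₂)
  have h13 : Ge (padicValRat l) (padicValRat l 1 + 1) (α ^ 3) := by
    rw [hv.one]
    exact (hv.ge_pow hαw 3).mono (by push_cast; linarith)
  obtain ⟨hu0, huw⟩ := hv.add_eq one_ne_zero h13
  rw [hv.one] at huw
  obtain ⟨u, hu⟩ : ∃ u : ℚ, u = 1 + α ^ 3 := ⟨_, rfl⟩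
  rw [← hu] at hu0 huw
  obtain ⟨γ, hγ⟩ : ∃ γ, γ = 3 * (α ^ 2 * β) / u := ⟨_, rfl⟩
  have hγu : γ * u = 3 * (α ^ 2 * β) := by
    rw [hγ]
    field_simp
  have hγw : Ge (padicValRat l) (n₁ + n₂ + 1) γ := by
    rw [hγ]
    refine ge_div ?_ hu0 huw
    have h3 : Ge (padicValRat l) 0 (3 : ℚ) := by simpa using hv.ge_natCast 3
    refine (hv.ge_mul h3 (hv.ge_mul (hv.ge_pow hαw 2) hβw)).mono ?_
    push_cast
    linarith
  refine ⟨t₁ + t₂ + γ, α * (t₁ + t₂ + γ) - β, ?_, ?_, ?_⟩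
  · unfold Cp at h₁ ⊢
    have hE : t₁ ^ 2 + t₁ * t₂ + t₂ ^ 2 + α * (s₁ ^ 2 + s₁ * s₂ + s₂ ^ 2) - lam * α = 0 := by
      rw [← hαD, hD]; ring
    rw [e1, e2] at hE
    rw [e1] at h₁
    rw [hu] at hγu
    linear_combination (-1) * h₁ + (-(t₁ + t₂ + γ) - t₁) * hE -
      (t₁ + t₂ + γ + t₁) * (t₁ + t₂ + γ + t₂) * hγu
  · have : t₁ + t₂ + γ - (t₁ + t₂) = γ := by ring
    rw [this]
    exact hγw
  · have h4 : Ge (padicValRat l) n₁ (t₁ + t₂ + γ) :=
      hv.ge_add (hv.ge_add ht₁ (ht₂.mono hn)) (hγw.mono (by linarith))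
    exact hv.ge_sub ((hv.ge_mul hαw h4).mono (by linarith)) (hβw.mono (by linarith))

theorem add_point {l : ℕ} [Fact l.Prime] {lam : ℚ} (h0 : lam ≠ 0) (hlam : padicValRat l lam = 0)
    {t₁ s₁ t₂ s₂ : ℚ} (h₁ : Cp lam t₁ s₁) (h₂ : Cp lam t₂ s₂) {n₁ n₂ : ℤ} (hn₁ : 1 ≤ n₁)
    (hn₂ : 1 ≤ n₂) (ht₁ : Ge (padicValRat l) n₁ t₁) (hs₁ : Ge (padicValRat l) (3 * n₁) s₁)
    (ht₂ : Ge (padicValRat l) n₂ t₂) (hs₂ : Ge (padicValRat l) (3 * n₂) s₂) :
    ∃ t₃ s₃, Cp lam t₃ s₃ ∧ Ge (padicValRat l) (n₁ + n₂ + 1) (t₃ - (t₁ + t₂)) ∧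
      Ge (padicValRat l) (3 * min n₁ n₂) s₃ := by
  rcases le_total n₁ n₂ with h | h
  · rw [min_eq_left h]
    exact add_point_aux h0 hlam h₁ h₂ hn₁ h ht₁ hs₁ ht₂ hs₂
  · rw [min_eq_right h]
    obtain ⟨t₃, s₃, k1, k2, k3⟩ := add_point_aux h0 hlam h₂ h₁ hn₂ h ht₂ hs₂ ht₁ hs₁
    refine ⟨t₃, s₃, k1, ?_, k3⟩
    have e1 : t₃ - (t₁ + t₂) = t₃ - (t₂ + t₁) := by ring
    have e2 : n₁ + n₂ + 1 = n₂ + n₁ + 1 := by ring
    rw [e1, e2]
    exact k2

private theorem lam_unit {l : ℕ} [Fact l.Prime] {a : ℕ} (ha : ¬ l ∣ a) :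
    ((a : ℚ) ^ 3 + l ^ 6) ≠ 0 ∧ padicValRat l ((a : ℚ) ^ 3 + l ^ 6) = 0 := by
  have hv := isVal_padic l
  have ha0 : (a : ℚ) ≠ 0 := by
    have : a ≠ 0 := by rintro rfl; exact ha (dvd_zero l)
    exact_mod_cast this
  have haw : padicValRat l (a : ℚ) = 0 := by
    rw [padicValRat.of_nat, padicValNat.eq_zero_of_not_dvd ha]
    rfl
  have h1 : padicValRat l ((a : ℚ) ^ 3) = 0 := by rw [hv.pow, haw, mul_zero]
  have h2 : Ge (padicValRat l) (padicValRat l ((a : ℚ) ^ 3) + 1) ((l : ℚ) ^ 6) := by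
    rw [h1]
    refine Or.inr ?_
    rw [hv.pow, w_self]
    norm_num
  obtain ⟨h3, h4⟩ := hv.add_eq (pow_ne_zero 3 ha0) h2
  exact ⟨h3, by rw [h4, h1]⟩

/-- Adding the point `(u, v)` `m` times. -/
private theorem add_many {l : ℕ} [Fact l.Prime] {lam : ℚ} (h0 : lam ≠ 0)
    (hlam : padicValRat l lam = 0) {t s u v : ℚ} (h₁ : Cp lam t s) (h₂ : Cp lam u v)
    {n₁ n₂ : ℤ} (hn₁ : 1 ≤ n₁) (hn : n₁ ≤ n₂) (ht : Ge (padicValRat l) n₁ t)
    (hs : Ge (padicValRat l) (3 * n₁) s) (hu : Ge (padicValRat l) n₂ u)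
    (hv' : Ge (padicValRat l) (3 * n₂) v) (m : ℕ) :
    ∃ t' s', Cp lam t' s' ∧ Ge (padicValRat l) (n₁ + n₂ + 1) (t' - (t + m * u)) ∧
      Ge (padicValRat l) (3 * n₁) s' := by
  have hv := isVal_padic l
  induction m with
  | zero =>
    refine ⟨t, s, h₁, ?_, hs⟩
    rw [Nat.cast_zero, zero_mul, add_zero, sub_self]
    exact ge_zero _
  | succ m ih =>
    obtain ⟨t', s', k1, k2, k3⟩ := ih
    have k4 : Ge (padicValRat l) n₁ t' := by
      have h5 : Ge (padicValRat l) n₁ (t + m * u) := by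
        refine hv.ge_add ht ?_
        refine (hv.ge_mul (hv.ge_natCast m) hu).mono ?_
        linarith
      have h6 : Ge (padicValRat l) n₁ (t' - (t + m * u)) := k2.mono (by linarith)
      have h7 := hv.ge_add h6 h5
      rwa [sub_add_cancel] at h7
    obtain ⟨t'', s'', j1, j2, j3⟩ := add_point h0 hlam k1 h₂ hn₁ (hn₁.trans hn) k4 k3 hu hv'
    refine ⟨t'', s'', j1, ?_, ?_⟩
    · have h8 := hv.ge_add j2 k2
      have e : t'' - (t' + u) + (t' - (t + m * u)) = t'' - (t + (m + 1 : ℕ) * u) := by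
        push_cast
        ring
      rwa [e] at h8
    · rwa [min_eq_left hn] at j3

theorem exists_ord_point {l : ℕ} [Fact l.Prime] {a : ℕ} (ha : ¬ l ∣ a) {n : ℕ} (hn : 1 ≤ n) :
    ∃ t s : ℚ, Cp ((a : ℚ) ^ 3 + l ^ 6) t s ∧ t ≠ 0 ∧ padicValRat l t = n ∧
      Ge (padicValRat l) (3 * n) s := by
  have hv := isVal_padic l
  obtain ⟨hl0, hlw⟩ := lam_unit ha
  have ha0 : (a : ℚ) ≠ 0 := by
    have : a ≠ 0 := by rintro rfl; exact ha (dvd_zero l)
    exact_mod_cast this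
  have haw : padicValRat l (a : ℚ) = 0 := by
    rw [padicValRat.of_nat, padicValNat.eq_zero_of_not_dvd ha]
    rfl
  have hll : (l : ℚ) ≠ 0 := by
    have : l ≠ 0 := (Fact.out : l.Prime).ne_zero
    exact_mod_cast this
  induction n, hn using Nat.le_induction with
  | base =>
    refine ⟨a * l, l ^ 3, ?_, mul_ne_zero ha0 hll, ?_, ?_⟩
    · unfold Cp; ring
    · rw [hv.mul _ _ ha0 hll, haw, w_self]; norm_num
    · refine Or.inr ?_
      rw [hv.pow, w_self]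
      norm_num
  | succ n hn ih =>
    obtain ⟨t, s, h1, h2, h3, h4⟩ := ih
    have hn' : (1 : ℤ) ≤ n := by exact_mod_cast hn
    have ht : Ge (padicValRat l) n t := Or.inr h3.ge
    obtain ⟨t', s', k1, k2, k3⟩ := add_many hl0 hlw h1 h1 hn' le_rfl ht h4 ht h4 (l - 1)
    have hl1 : ((l - 1 : ℕ) : ℚ) = (l : ℚ) - 1 := by
      rw [Nat.cast_sub (Fact.out : l.Prime).one_le, Nat.cast_one]
    have e1 : t + ((l - 1 : ℕ) : ℚ) * t = l * t := by rw [hl1]; ring
    rw [e1] at k2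
    have hlt : padicValRat l ((l : ℚ) * t) = n + 1 := by
      rw [hv.mul _ _ hll h2, w_self, h3]
      ring
    have k5 : Ge (padicValRat l) (padicValRat l ((l : ℚ) * t) + 1) (t' - l * t) :=
      k2.mono (by rw [hlt]; linarith)
    obtain ⟨k6, k7⟩ := hv.add_eq (mul_ne_zero hll h2) k5
    have e2 : (l : ℚ) * t + (t' - l * t) = t' := by ring
    rw [e2] at k6 k7
    refine ⟨t', s', k1, k6, ?_, ?_⟩
    · rw [k7, hlt]; push_cast; ring
    · refine s_bound hl0 hlw k1 (k3.mono (by linarith)) (Or.inr ?_)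
      rw [k7, hlt]; push_cast; linarith

/-- A nonnegative order: the residue is a natural number. -/
private theorem exists_res {l : ℕ} [Fact l.Prime] {q : ℚ} (hq : Ge (padicValRat l) 0 q) :
    ∃ m : ℕ, Ge (padicValRat l) 1 (q - m) := by
  have hv := isVal_padic l
  have hden : ¬ l ∣ q.den := by
    intro h
    have hnum : ¬ (l : ℤ) ∣ q.num := by
      intro h'
      have h1 : l ∣ q.num.natAbs := Int.natCast_dvd.1 h'
      have h2 := Nat.dvd_gcd h1 h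
      rw [Nat.Coprime.gcd_eq_one q.reduced] at h2
      exact (Fact.out : l.Prime).one_lt.ne' (Nat.dvd_one.1 h2)
    have hq0 : q ≠ 0 := by
      rintro rfl
      exact hnum (dvd_zero _)
    have h3 := (ge_iff hq0).1 hq
    have h4 : padicValRat l q = padicValInt l q.num - padicValNat l q.den := rfl
    have h5 : padicValInt l q.num = 0 := by
      unfold padicValInt
      exact padicValNat.eq_zero_of_not_dvd fun h' => hnum (Int.natCast_dvd.2 h')
    have h6 := one_le_padicValNat_of_dvd q.den_nz h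
    rw [h4, h5] at h3
    push_cast at h3
    have : (1 : ℤ) ≤ padicValNat l q.den := by exact_mod_cast h6
    linarith
  have hden0 : (q.den : ℚ) ≠ 0 := by exact_mod_cast q.den_nz
  have hdw : padicValRat l (q.den : ℚ) = 0 := by
    rw [padicValRat.of_nat, padicValNat.eq_zero_of_not_dvd hden]
    rfl
  have hdz : (q.den : ZMod l) ≠ 0 := by
    intro h
    exact hden ((ZMod.natCast_eq_zero_iff _ _).1 h)
  obtain ⟨m, hm⟩ : ∃ m : ℕ, (m : ZMod l) = (q.num : ZMod l) * (q.den : ZMod l)⁻¹ :=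
    ⟨((q.num : ZMod l) * (q.den : ZMod l)⁻¹).val, ZMod.natCast_zmod_val _⟩
  have h7 : (l : ℤ) ∣ q.num - m * q.den := by
    rw [← ZMod.intCast_zmod_eq_zero_iff_dvd]
    push_cast
    rw [hm, mul_assoc, inv_mul_cancel₀ hdz, mul_one, sub_self]
  refine ⟨m, ?_⟩
  have h8 := ge_div (ge_dvd h7) hden0 hdw
  have e : ((q.num - m * q.den : ℤ) : ℚ) / q.den = q - m := by
    push_cast
    rw [sub_div, mul_div_assoc, div_self hden0, mul_one, Rat.num_div_den]
  rwa [e] at h8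

private theorem density_aux {l : ℕ} [Fact l.Prime] {a : ℕ} (ha : ¬ l ∣ a) {z : ℤ}
    (hz : (l : ℤ) ∣ z) {N : ℕ} (hN : 1 ≤ N) : ∃ t s : ℚ, Cp ((a : ℚ) ^ 3 + l ^ 6) t s ∧
      Ge (padicValRat l) 1 t ∧ Ge (padicValRat l) 3 s ∧ Ge (padicValRat l) N (t - z) := by
  have hv := isVal_padic l
  obtain ⟨hl0, hlw⟩ := lam_unit ha
  induction N, hN using Nat.le_induction with
  | base =>
    refine ⟨0, 0, by unfold Cp; ring, ge_zero _, ge_zero _, ?_⟩
    rw [zero_sub, Nat.cast_one]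
    exact hv.ge_neg (ge_dvd hz)
  | succ N hN ih =>
    obtain ⟨t, s, h1, h2, h3, h4⟩ := ih
    have hN' : (1 : ℤ) ≤ N := by exact_mod_cast hN
    obtain ⟨u, v, k1, k2, k3, k4⟩ := exists_ord_point ha hN
    have hu : Ge (padicValRat l) N u := Or.inr k3.ge
    have hq : Ge (padicValRat l) 0 (((z : ℚ) - t) / u) := by
      by_cases h5 : (z : ℚ) - t = 0
      · rw [h5, zero_div]; exact ge_zero _
      · refine Or.inr ?_
        rw [hv.div h5 k2, k3]
        have h6 : Ge (padicValRat l) N ((z : ℚ) - t) := by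
          have := hv.ge_neg h4
          rwa [neg_sub] at this
        have := (ge_iff h5).1 h6
        linarith
    obtain ⟨m, hm⟩ := exists_res hq
    obtain ⟨t', s', j1, j2, j3⟩ := add_many hl0 hlw h1 k1 le_rfl hN' h2 (by simpa using h3) hu k4 m
    have h7 : Ge (padicValRat l) (N + 1 : ℕ) (t' - z) := by
      have h8 := hv.ge_mul hm hu
      have e : (((z : ℚ) - t) / u - m) * u = z - t - m * u := by
        field_simp
      rw [e] at h8
      have h9 : Ge (padicValRat l) (N + 1 : ℕ) ((z : ℚ) - t - m * u) :=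
        h8.mono (by push_cast; linarith)
      have h10 : Ge (padicValRat l) (N + 1 : ℕ) (t' - (t + m * u)) :=
        j2.mono (by push_cast; linarith)
      have h11 := hv.ge_sub h10 h9
      have e2 : t' - (t + m * u) - ((z : ℚ) - t - m * u) = t' - z := by ring
      rwa [e2] at h11
    refine ⟨t', s', j1, ?_, by simpa using j3, h7⟩
    have h12 : Ge (padicValRat l) 1 (t' - z) := h7.mono (by push_cast; linarith)
    have h13 := hv.ge_add h12 (ge_dvd hz)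
    rwa [sub_add_cancel] at h13

/-- DENSITY -/
theorem density {l : ℕ} [Fact l.Prime] {a : ℕ} (ha : ¬ l ∣ a) {z : ℤ} (hz : (l : ℤ) ∣ z)
    (N : ℕ) : ∃ x y : ℚ, y ≠ 0 ∧ ((a : ℚ) ^ 3 + l ^ 6) * y ^ 2 = x ^ 3 + 1 ∧
      Ge (padicValRat l) N (x / y - z) := by
  have hv := isVal_padic l
  have hN : 1 ≤ N + 1 := by omega
  have key : ∃ t s : ℚ, Cp ((a : ℚ) ^ 3 + l ^ 6) t s ∧ t ≠ 0 ∧
      Ge (padicValRat l) (N + 1 : ℕ) (t - z) := by
    obtain ⟨t, s, h1, _, _, h4⟩ := density_aux ha hz hN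
    by_cases ht : t = 0
    · obtain ⟨u, v, k1, k2, k3, _⟩ := exists_ord_point ha hN
      refine ⟨u, v, k1, k2, ?_⟩
      rw [ht, zero_sub] at h4
      have hu : Ge (padicValRat l) (N + 1 : ℕ) u := Or.inr k3.ge
      have h5 := hv.ge_add hu h4
      rwa [← sub_eq_add_neg] at h5
    · exact ⟨t, s, h1, ht, h4⟩
  obtain ⟨t, s, h1, ht, h4⟩ := key
  unfold Cp at h1
  have hs : s ≠ 0 := by
    rintro rfl
    have : t ^ 3 = 0 := by linear_combination -h1
    exact ht (pow_eq_zero_iff (by norm_num) |>.1 this)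
  refine ⟨t / s, 1 / s, one_div_ne_zero hs, ?_, ?_⟩
  · field_simp
    linear_combination h1
  · have e : t / s / (1 / s) = t := by field_simp
    rw [e]
    exact h4.mono (by push_cast; linarith)

end UD0
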