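import Mathlib
import Pool.Agent.UDV.Divisorial

/-!
# UD0: base definitions

Project UDV0 (problem MP_0f854b_lc, characteristic zero): uniform definability of divisorial
valuation rings in finitely generated fields of characteristic zero.  Paper proof:
`/team-store/udv0_proof.md`.
-/

open Polynomial

namespace UD0

universe u

/-- `x` is algebraic over the prime field (characteristic zero). -/
def Alg {K : Type u} [Field K] (x : K) : Prop := ∃ f : ℤ[X], f ≠ 0 ∧ aeval x f = 0

/-- A field of characteristic zero with a product formula and `d` derivations. -/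
structure PF (d : ℕ) (L : Type u) [Field L] where
  /-- index type of the places -/
  I : Type u
  /-- the weight (degree) of a place -/
  wt : I → ℕ
  wt_pos : ∀ P, 0 < wt P
  /-- the additive valuation at a place, with the convention `ord P 0 = 0` -/
  ord : I → L → ℤ
  ord_zero : ∀ P, ord P 0 = 0
  ord_mul : ∀ P {x y : L}, x ≠ 0 → y ≠ 0 → ord P (x * y) = ord P x + ord P y
  ord_add : ∀ P {x y : L}, x ≠ 0 → y ≠ 0 → x + y ≠ 0 → min (ord P x) (ord P y) ≤ ord P (x + y)
  fin : ∀ {x : L}, x ≠ 0 → {P | ord P x ≠ 0}.Finite
  prod : ∀ {x : L}, x ≠ 0 → ∑ᶠ P, (wt P : ℤ) * ord P x = 0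
  δ : Fin d → Derivation ℤ L L
  /-- the correction terms, zero for almost all places -/
  b : I → ℕ
  b_fin : {P | b P ≠ 0}.Finite
  δ_int : ∀ P i {x : L}, x ≠ 0 → 0 ≤ ord P x → δ i x ≠ 0 → -(b P : ℤ) ≤ ord P (δ i x)
  δ_ord : ∀ P i {x : L}, x ≠ 0 → δ i x ≠ 0 → ord P x - 1 - b P ≤ ord P (δ i x)
  unif : ∀ P, ∃ x, 0 < ord P x
  /-- elements killed by all derivations are algebraic over the prime field -/
  δ_const : ∀ x : L, (∀ i, δ i x = 0) → Alg x
  /-- elements without zeros and poles are algebraic over the prime field -/
  const : ∀ {x : L}, x ≠ 0 → (∀ P, ord P x = 0) → Alg x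
  /-- algebraic elements have no zeros and no poles -/
  const' : ∀ {x : L}, Alg x → ∀ P, ord P x = 0
  /-- spaces of functions with bounded poles are finite dimensional (over the prime field) -/
  findim : ∀ m : I → ℕ, {P | m P ≠ 0}.Finite → ∃ n : ℕ, ∀ f : Fin n → L,
    (∀ i P, f i ≠ 0 → -(m P : ℤ) ≤ ord P (f i)) → ¬ LinearIndependent ℤ f

/-- A presentation of a finitely generated field of characteristic zero as the field of fractions of
`ℤ[t₁, …, t_d][θ]`, where `θ` is integral with minimal polynomial `G`. -/
structure Pres (K : Type u) [Field K] where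
  d : ℕ
  G : (MvPolynomial (Fin d) ℤ)[X]
  monic : G.Monic
  irr : Irreducible G
  φ : AdjoinRoot G →+* K
  inj : Function.Injective φ
  surj : ∀ x : K, ∃ a b : AdjoinRoot G, b ≠ 0 ∧ φ b * x = φ a

namespace Pres

variable {K : Type u} [Field K] (P : Pres K)

/-- the ring of a presentation -/
abbrev R : Type := AdjoinRoot P.G

/-- the different: the value of the derivative of `G` at the root -/
noncomputable def disc : P.R := AdjoinRoot.mk P.G (derivative P.G)

/-- the coordinates, as elements of the ring -/
noncomputable def tR (i : Fin P.d) : P.R := AdjoinRoot.of P.G (MvPolynomial.X i)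

/-- the coordinates -/
noncomputable def t (i : Fin P.d) : K := P.φ (P.tR i)

/-- `q` is a good prime for the presentation: `q = 1` modulo `3` and there is a point over the field
with `q` elements at which the different does not vanish. -/
def Good (q : ℕ) : Prop :=
  q.Prime ∧ q % 3 = 1 ∧ ∃ τ : P.R →+* ZMod q, τ P.disc ≠ 0

end Pres

/-- A chart of a presented field `K` of characteristic zero: an embedding into a field with a product
formula, with the derivations `∂ / ∂ t_i` of `K` extended to the big field. -/
structure Chart {K : Type u} [Field K] (P : Pres K) where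
  L : Type u
  [fL : Field L]
  emb : K →+* L
  S : PF P.d L
  D : Fin P.d → Derivation ℤ K K
  hD : ∀ i x, emb (D i x) = S.δ i (emb x)
  ht : ∀ i j, D i (P.t j) = if i = j then 1 else 0

attribute [instance] Chart.fL

end UD0
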