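import Pool.Agent.UD0.ParE
import Pool.Agent.UD0.ArI
import Pool.Agent.UDN.Final

/-!
# UD0: the field of constants is definable

PROOF of `tx_rat` (over `ℚ`, from `UD0.density`): for `s ∈ ℚ_[l]` with `‖s‖ < 1` and `ε > 0` there is a rational `t` with
`TX (a ^ 3 + l ^ 6) t` and `‖t - s‖ < ε`: choose an integer `z` divisible by `l` close to `s` (`s ∈ l ℤ_l`; integers are dense in
`ℤ_l`, the approximation can be taken divisible by `l` since `‖z‖ < 1`), and `N` large in `density`; `Ge (padicValRat l) N x` means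
`x = 0 ∨ N ≤ padicValRat l x`, i.e. `‖x‖ ≤ l ^ (-N)` (`padicNormE`/`Padic.norm_rat...`: `‖(x : ℚ_[l])‖ = l ^ (- padicValRat l x)`).
PROOF of `xx_dense` : given `c`, `ε`.  Choose `t₂ ∈ ℚ`, `TX t₂`, `t₂ ≠ 0`, `‖t₂‖` so small that `‖c t₂‖ < 1` (`tx_rat` with `s = l ^ N ≠ 0` and
`ε < ‖s‖`, `N` large), then `t₁` with `TX t₁` and `‖t₁ - c t₂‖ < ε ‖t₂‖`; `r = t₁ / t₂`.  The cast `ℚ → K` preserves `TX` and `XX`
(`push_cast`; `S.lamK` is the cast of `a ^ 3 + l ^ 6`).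
PROOF of `xx_alg` : `S.cst` gives that `x`, `y` are algebraic, so `t = x / y` and the quotients are algebraic.
PROOF of `cc_iff`.
(⇐) `b` algebraic, `c ∈ XX` (algebraic by `xx_alg`), `c ≠ b`: in the number field `k = kk K` (`S.nf`) apply
`UDN.hasse_schilling` with `a = n` (a nonzero sum of four squares), `b = l`, `u = b - c ≠ 0`, and map to `K`.
(⇒) Suppose `b` is not algebraic.  `S.mov₁ b` gives `δ`; by `xx_dense` there is a rational `r ∈ XX` with `‖r - e₀ b‖ < δ`; `r ≠ b` since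
`r` is algebraic.  So `NQ (b - r)`.  Let `e` be the embedding for `c = r`: `e (b - r) = C r + X - C r = X` (`e r = C (e₀ r) = C r` as `r`
is rational), of order `1`, odd: contradiction to `nq_even`.
-/

set_option autoImplicit false

namespace UD0

universe u

private theorem ge_norm {l : ℕ} [Fact l.Prime] {N : ℕ} {q : ℚ} (h : UDN.Ge (padicValRat l) N q) :
    ‖(q : ℚ_[l])‖ ≤ (l : ℝ) ^ (-(N : ℤ)) := by
  have hl1 : (1 : ℝ) < l := by exact_mod_cast (Fact.out : l.Prime).one_lt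
  rcases h with h | h
  · rw [h, Rat.cast_zero, norm_zero]
    positivity
  · by_cases hq : q = 0
    · rw [hq, Rat.cast_zero, norm_zero]
      positivity
    · rw [Padic.eq_padicNorm, padicNorm.eq_zpow_of_nonzero hq]
      push_cast
      exact zpow_le_zpow_right₀ hl1.le (by omega)

theorem tx_rat {l : ℕ} [Fact l.Prime] {a : ℕ} (ha : ¬ l ∣ a) (s : ℚ_[l]) (hs : ‖s‖ < 1) {ε : ℝ}
    (hε : 0 < ε) : ∃ t : ℚ, TX ((a : ℚ) ^ 3 + (l : ℚ) ^ 6) t ∧ ‖(t : ℚ_[l]) - s‖ < ε := by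
  have hl1 : (1 : ℝ) < l := by exact_mod_cast (Fact.out : l.Prime).one_lt
  have hl0 : (0 : ℝ) < l := by linarith
  -- the precision
  obtain ⟨m, hm⟩ := exists_pow_lt_of_lt_one (lt_min hε one_pos) (inv_lt_one_of_one_lt₀ hl1)
  have hm' : (l : ℝ) ^ (-(m : ℤ)) < min ε 1 := by
    rw [zpow_neg, zpow_natCast, ← inv_pow]
    exact hm
  have hmε : (l : ℝ) ^ (-(m : ℤ)) < ε := lt_of_lt_of_le hm' (min_le_left _ _)
  have hm1 : (l : ℝ) ^ (-(m : ℤ)) < 1 := lt_of_lt_of_le hm' (min_le_right _ _)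
  -- the integer
  set s' : ℤ_[l] := ⟨s, hs.le⟩ with hs'
  have h1 := PadicInt.appr_spec m s'
  rw [← PadicInt.norm_le_pow_iff_mem_span_pow] at h1
  have h2 : ‖s - ((s'.appr m : ℤ) : ℚ_[l])‖ ≤ (l : ℝ) ^ (-(m : ℤ)) := by
    have h3 : ((s' - (s'.appr m : ℤ_[l]) : ℤ_[l]) : ℚ_[l]) = s - ((s'.appr m : ℤ) : ℚ_[l]) := by
      push_cast
      rfl
    rw [← h3]
    exact h1
  have hdvd : (l : ℤ) ∣ (s'.appr m : ℤ) := by
    rw [← PadicInt.norm_int_lt_one_iff_dvd]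
    have h3 : (((s'.appr m : ℕ) : ℤ) : ℤ_[l]) = s' + -(s' - (s'.appr m : ℤ_[l])) := by
      push_cast
      ring
    rw [h3]
    refine lt_of_le_of_lt (PadicInt.nonarchimedean _ _) (max_lt hs ?_)
    rw [norm_neg]
    exact lt_of_le_of_lt h1 hm1
  obtain ⟨x, y, hy, hxy, hge⟩ := density ha hdvd m
  refine ⟨x / y, ⟨x, y, hy, hxy, div_mul_cancel₀ x hy⟩, ?_⟩
  have h4 := ge_norm hge
  have h5 : ((x / y : ℚ) : ℚ_[l]) - s = ((x / y - ((s'.appr m : ℕ) : ℤ) : ℚ) : ℚ_[l]) +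
      -(s - ((s'.appr m : ℤ) : ℚ_[l])) := by
    push_cast
    ring
  rw [h5]
  refine lt_of_le_of_lt (Padic.nonarchimedean _ _) (max_lt (lt_of_le_of_lt h4 hmε) ?_)
  rw [norm_neg]
  exact lt_of_le_of_lt h2 hmε

variable {K : Type u} [Field K] [CharZero K] (S : Setup K)

private theorem tx_cast {t : ℚ} (h : TX ((S.a : ℚ) ^ 3 + (S.l : ℚ) ^ 6) t) :
    TX S.lamK (t : K) := by
  obtain ⟨x, y, hy, h1, h2⟩ := h
  refine ⟨x, y, Rat.cast_ne_zero.2 hy, ?_, ?_⟩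
  · have h3 := congrArg (Rat.cast : ℚ → K) h1
    push_cast at h3
    unfold Setup.lamK
    push_cast
    exact h3
  · rw [← h2]
    push_cast
    rfl

theorem xx_dense (c : ℚ_[S.l]) {ε : ℝ} (hε : 0 < ε) :
    ∃ r : ℚ, XX S.lamK (r : K) ∧ ‖(r : ℚ_[S.l]) - c‖ < ε := by
  have hl1 : (1 : ℝ) < S.l := by exact_mod_cast (Fact.out : S.l.Prime).one_lt
  -- the denominator
  obtain ⟨N, hN⟩ := exists_pow_lt_of_lt_one (show (0 : ℝ) < 1 / (‖c‖ + 1) by positivity)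
    (inv_lt_one_of_one_lt₀ hl1)
  have hN0 : N ≠ 0 := by
    intro h0
    rw [h0, pow_zero, lt_div_iff₀ (by positivity)] at hN
    linarith [norm_nonneg c]
  have hs : ‖((S.l : ℚ_[S.l]) ^ N)‖ = ((S.l : ℝ)⁻¹) ^ N := by
    rw [norm_pow, Padic.norm_p]
  have hs0 : 0 < ‖((S.l : ℚ_[S.l]) ^ N)‖ := by
    rw [hs]
    positivity
  have hs1 : ‖((S.l : ℚ_[S.l]) ^ N)‖ < 1 := by
    rw [hs]
    exact pow_lt_one₀ (by positivity) (inv_lt_one_of_one_lt₀ hl1) hN0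
  obtain ⟨t₂, ht₂, hn₂⟩ := tx_rat S.ha ((S.l : ℚ_[S.l]) ^ N) hs1 hs0
  have hne : t₂ ≠ 0 := by
    intro h0
    rw [h0, Rat.cast_zero, zero_sub, norm_neg] at hn₂
    exact lt_irrefl _ hn₂
  have hle : ‖(t₂ : ℚ_[S.l])‖ ≤ ‖((S.l : ℚ_[S.l]) ^ N)‖ := by
    have h1 : (t₂ : ℚ_[S.l]) = ((t₂ : ℚ_[S.l]) - (S.l : ℚ_[S.l]) ^ N) + (S.l : ℚ_[S.l]) ^ N := by ring
    rw [h1]
    exact le_trans (Padic.nonarchimedean _ _) (max_le hn₂.le le_rfl)
  have ht0 : 0 < ‖(t₂ : ℚ_[S.l])‖ := norm_pos_iff.2 (Rat.cast_ne_zero.2 hne)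
  have hct : ‖c * (t₂ : ℚ_[S.l])‖ < 1 := by
    rw [norm_mul]
    have h1 : ‖(t₂ : ℚ_[S.l])‖ < 1 / (‖c‖ + 1) := lt_of_le_of_lt (hle.trans (le_of_eq hs)) hN
    rw [lt_div_iff₀ (by positivity)] at h1
    nlinarith [norm_nonneg c]
  obtain ⟨t₁, ht₁, hn₁⟩ := tx_rat S.ha (c * (t₂ : ℚ_[S.l])) hct (mul_pos hε ht0)
  refine ⟨t₁ / t₂, ⟨t₁, t₂, tx_cast S ht₁, tx_cast S ht₂, Rat.cast_ne_zero.2 hne, ?_⟩, ?_⟩
  · push_cast
    exact div_mul_cancel₀ _ (Rat.cast_ne_zero.2 hne)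
  · have h1 : ((t₁ / t₂ : ℚ) : ℚ_[S.l]) - c = ((t₁ : ℚ_[S.l]) - c * (t₂ : ℚ_[S.l])) / (t₂ : ℚ_[S.l]) := by
      push_cast
      rw [sub_div, mul_div_cancel_right₀ _ (Rat.cast_ne_zero.2 hne)]
    rw [h1, norm_div, div_lt_iff₀ ht0]
    exact hn₁

theorem xx_alg {c : K} (h : XX S.lamK c) : Alg c := by
  obtain ⟨t₁, t₂, ⟨x₁, y₁, hy₁, h₁, e₁⟩, ⟨x₂, y₂, hy₂, h₂, e₂⟩, hne, hc⟩ := h
  obtain ⟨a₁, b₁⟩ := S.cst x₁ y₁ hy₁ h₁
  obtain ⟨a₂, b₂⟩ := S.cst x₂ y₂ hy₂ h₂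
  have k₁ : t₁ = x₁ / y₁ := by rw [← e₁, mul_div_cancel_right₀ _ hy₁]
  have k₂ : t₂ = x₂ / y₂ := by rw [← e₂, mul_div_cancel_right₀ _ hy₂]
  have k : c = t₁ / t₂ := by rw [← hc, mul_div_cancel_right₀ _ hne]
  rw [k, k₁, k₂]
  exact (a₁.div b₁).div (a₂.div b₂)

theorem cc_iff (b : K) : CC S.lamK S.nK S.lK b ↔ Alg b := by
  have hl := (Fact.out : S.l.Prime)
  have hl2 : S.l ≠ 2 := by
    have := S.l3
    omega
  constructor
  · intro h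
    by_contra hb
    obtain ⟨δ, hδ, hmov⟩ := S.mov₁ b hb
    obtain ⟨r, hr, hrδ⟩ := xx_dense S (S.e₀ b) hδ
    have hrb : (r : K) ≠ b := by
      intro h0
      apply hb
      rw [← h0]
      exact alg_rat r
    have h1 := h (r : K) hr hrb
    obtain ⟨e, he1, he2⟩ := hmov (r : ℚ_[S.l]) hrδ
    have h2 : Even (e (b - (r : K))).order := nq_even hl2 S.hn e (sub_ne_zero.2 hrb.symm) h1
    have h3 : e (b - (r : K)) = HahnSeries.single 1 1 := by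
      rw [map_sub, he2, he1 _ (alg_rat r), map_ratCast S.e₀ r, add_sub_cancel_left]
    rw [h3, HahnSeries.order_single one_ne_zero] at h2
    exact Int.not_even_one h2
  · intro hb c hc hcb
    have hcA := xx_alg S hc
    have := S.nf
    obtain ⟨c₁, c₂, c₃, c₄, h4⟩ := S.hn4
    have hn0 : S.n ≠ 0 := by
      intro h0
      have h1 := S.hn
      rw [h0, jacobiSym.zero_left hl.one_lt] at h1
      norm_num at h1
    have hu : (⟨b - c, mem_kk.2 (hb.sub hcA)⟩ : kk K) ≠ 0 := by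
      intro h0
      exact hcb (sub_eq_zero.1 (congrArg Subtype.val h0)).symm
    obtain ⟨x, y, z, t, h⟩ := UDN.hasse_schilling (k := kk K) (a := (S.n : kk K)) (b := (S.l : kk K))
      (c₁ := (c₁ : kk K)) (c₂ := (c₂ : kk K)) (c₃ := (c₃ : kk K)) (c₄ := (c₄ : kk K))
      (by rw [h4]; push_cast; rfl) (Int.cast_ne_zero.2 hn0) (Nat.cast_ne_zero.2 hl.ne_zero) hu
    refine ⟨x, y, z, t, ?_⟩
    have h5 := congrArg (Subtype.val : kk K → K) h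
    unfold Setup.nK Setup.lK
    refine h5.symm.trans ?_
    push_cast
    rfl

end UD0
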