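import Pool.Agent.UD0.C3a

/-!
# UD0: the integral constants are definable

PROOF.  `k = kk K` is a number field (`S.nf`).  By `cc_iff` the predicate `CC` is membership in `k`, so for `x = (x' : k)`:
`ODr (CC ..) x ↔ UDN.OD x'` (the quantifiers of `ODr` over elements of `K` with `CC` are quantifiers over `k`; `a`, `s`, `r` are
automatically in `k`; the coercion `k → K` is an injective ring homomorphism) `↔ IsIntegral ℤ x'` (`UDN.od_iff`)
`↔ IsIntegral ℤ (x' : K)` (`isIntegral_algebraMap_iff`-like, injective map).  If `x` is integral over `ℤ` in `K`, it is algebraic.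
`oi_int`: integers are integral.
-/

set_option autoImplicit false

namespace UD0

universe u

variable {K : Type u} [Field K] [CharZero K] (S : Setup K)

private theorem sqr_iff {C : K → Prop} (hC : ∀ b, C b ↔ Alg b) (a b t : kk K) :
    SQr C (a : K) (b : K) (t : K) ↔ UDN.SQ a b t := by
  constructor
  · rintro ⟨x, y, z, u, hx, hy, hz, hu, h1, h2⟩
    refine ⟨⟨x, mem_kk.2 ((hC x).1 hx)⟩, ⟨y, mem_kk.2 ((hC y).1 hy)⟩,
      ⟨z, mem_kk.2 ((hC z).1 hz)⟩, ⟨u, mem_kk.2 ((hC u).1 hu)⟩, ?_, ?_⟩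
    · apply Subtype.coe_injective
      push_cast
      exact h1
    · apply Subtype.coe_injective
      push_cast
      exact h2
  · rintro ⟨x, y, z, u, h1, h2⟩
    refine ⟨x, y, z, u, (hC _).2 (mem_kk.1 x.2), (hC _).2 (mem_kk.1 y.2),
      (hC _).2 (mem_kk.1 z.2), (hC _).2 (mem_kk.1 u.2), ?_, ?_⟩
    · have := congrArg (fun v : kk K => (v : K)) h1
      push_cast at this
      exact this
    · have := congrArg (fun v : kk K => (v : K)) h2
      push_cast at this
      exact this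

omit [CharZero K] in
private theorem sqr_c {C : K → Prop} (hC : ∀ b, C b ↔ Alg b) (h2 : Alg (2 : K))
    (hm : ∀ x y : K, Alg x → Alg y → Alg (x * y)) {a b t : K} (h : SQr C a b t) : Alg t := by
  obtain ⟨x, _, _, _, hx, _, _, _, h1, _⟩ := h
  rw [h1]
  exact hm _ _ h2 ((hC x).1 hx)

private theorem odr_iff {C : K → Prop} (hC : ∀ b, C b ↔ Alg b) (x : kk K) :
    ODr C (x : K) ↔ UDN.OD x := by
  constructor
  · rintro ⟨_, h⟩ a b c₁ c₂ c₃ c₄ ha ha0 hb0
    obtain ⟨s, r, hs, hr, hx⟩ := h a b c₁ c₂ c₃ c₄ ((hC _).2 (mem_kk.1 b.2))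
      ((hC _).2 (mem_kk.1 c₁.2)) ((hC _).2 (mem_kk.1 c₂.2)) ((hC _).2 (mem_kk.1 c₃.2))
      ((hC _).2 (mem_kk.1 c₄.2))
      (by
        have := congrArg (fun v : kk K => (v : K)) ha
        push_cast at this
        exact this)
      (by
        intro h0
        exact ha0 (Subtype.coe_injective (by push_cast; exact h0)))
      (by
        intro h0
        exact hb0 (Subtype.coe_injective (by push_cast; exact h0)))
    have h2 : Alg (2 : K) := by
      have := alg_one.add (alg_one (K := K))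
      rwa [one_add_one_eq_two] at this
    have hs' : Alg s := sqr_c hC h2 (fun _ _ h h' => Alg.mul h h') hs
    have hr' : Alg r := sqr_c hC h2 (fun _ _ h h' => Alg.mul h h') hr
    refine ⟨⟨s, mem_kk.2 hs'⟩, ⟨r, mem_kk.2 hr'⟩, ?_, ?_, ?_⟩
    · exact (sqr_iff hC a b ⟨s, mem_kk.2 hs'⟩).1 hs
    · exact (sqr_iff hC a b ⟨r, mem_kk.2 hr'⟩).1 hr
    · apply Subtype.coe_injective
      push_cast
      exact hx
  · intro h
    refine ⟨(hC _).2 (mem_kk.1 x.2), ?_⟩
    intro a b c₁ c₂ c₃ c₄ hb h1 h2 h3 h4 ha ha0 hb0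
    have hb' : b ∈ kk K := mem_kk.2 ((hC b).1 hb)
    have h1' : c₁ ∈ kk K := mem_kk.2 ((hC c₁).1 h1)
    have h2' : c₂ ∈ kk K := mem_kk.2 ((hC c₂).1 h2)
    have h3' : c₃ ∈ kk K := mem_kk.2 ((hC c₃).1 h3)
    have h4' : c₄ ∈ kk K := mem_kk.2 ((hC c₄).1 h4)
    have ha' : a ∈ kk K := by
      rw [ha]
      exact add_mem (add_mem (add_mem (pow_mem h1' 2) (pow_mem h2' 2)) (pow_mem h3' 2))
        (pow_mem h4' 2)
    obtain ⟨s, r, hs, hr, hx⟩ := h ⟨a, ha'⟩ ⟨b, hb'⟩ ⟨c₁, h1'⟩ ⟨c₂, h2'⟩ ⟨c₃, h3'⟩ ⟨c₄, h4'⟩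
      (by
        apply Subtype.coe_injective
        push_cast
        exact ha)
      (by
        intro h0
        exact ha0 (congrArg (fun v : kk K => (v : K)) h0))
      (by
        intro h0
        exact hb0 (congrArg (fun v : kk K => (v : K)) h0))
    refine ⟨s, r, (sqr_iff hC ⟨a, ha'⟩ ⟨b, hb'⟩ s).2 hs, (sqr_iff hC ⟨a, ha'⟩ ⟨b, hb'⟩ r).2 hr, ?_⟩
    have := congrArg (fun v : kk K => (v : K)) hx
    push_cast at this
    exact this

theorem oi_iff (x : K) : OI S.lamK S.nK S.lK x ↔ IsIntegral ℤ x := by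
  have := S.nf
  have hC : ∀ b, CC S.lamK S.nK S.lK b ↔ Alg b := cc_iff S
  have key : ∀ x' : kk K, ODr (CC S.lamK S.nK S.lK) (x' : K) ↔ IsIntegral ℤ (x' : K) := by
    intro x'
    rw [odr_iff hC, UDN.od_iff]
    exact (isIntegral_algHom_iff ((kk K).subtype.toIntAlgHom) Subtype.coe_injective).symm
  constructor
  · intro h
    have hx : x ∈ kk K := mem_kk.2 ((hC x).1 h.1)
    exact (key ⟨x, hx⟩).1 h
  · intro h
    have hx : x ∈ kk K := mem_kk.2 (Alg.of_int h)
    exact (key ⟨x, hx⟩).2 h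

end UD0
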