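import Pool.Agent.UDV.Calc

/-!
# UD0: calculus of relations defined by one formula in all fields

`UA R`: the relation `R` (on assignments `ℕ → K` of the variables) is given by one formula of the
language of rings in all fields.  Terms: `UDV.TT`.
-/

open FirstOrder Polynomial UDV

namespace UD0

universe u

/-- Relation defined by one formula in all fields. -/
def UA (R : ∀ (K : Type u) [Field K], (ℕ → K) → Prop) : Prop :=
  ∃ φ : Language.ring.Formula ℕ, ∀ (K : Type u) [Field K], ∀ v : ℕ → K,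
    (Rlz φ v ↔ R K v)

section rel

variable {R R' : ∀ (K : Type u) [Field K], (ℕ → K) → Prop}

theorem UA.congr (h : ∀ (K : Type u) [Field K], ∀ v : ℕ → K, (R K v ↔ R' K v))
    (hR : UA R) : UA R' := by
  obtain ⟨φ, hφ⟩ := hR
  exact ⟨φ, fun K _ v => (hφ K v).trans (h K v)⟩

theorem UA.eq {f g : ∀ (K : Type u) [Field K], (ℕ → K) → K} (hf : TT f) (hg : TT g) :
    UA (fun K _ v => f K v = g K v) := by
  obtain ⟨s, hs⟩ := hf
  obtain ⟨t, ht⟩ := hg
  refine ⟨s.equal t, fun K _ v => ?_⟩
  beta_reduce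
  rw [← hs K v, ← ht K v]
  unfold Rlz
  letI := FirstOrder.Ring.compatibleRingOfRing K
  exact Language.Formula.realize_equal

theorem UA.top : UA.{u} (fun _ _ _ => True) := by
  refine ⟨⊤, fun K _ v => ?_⟩
  unfold Rlz
  letI := FirstOrder.Ring.compatibleRingOfRing K
  exact Language.Formula.realize_top

theorem UA.not (h : UA R) : UA (fun K _ v => ¬ R K v) := by
  obtain ⟨φ, hφ⟩ := h
  refine ⟨φ.not, fun K _ v => ?_⟩
  beta_reduce
  rw [← hφ K v]
  unfold Rlz
  letI := FirstOrder.Ring.compatibleRingOfRing K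
  exact Language.Formula.realize_not

theorem UA.and (h : UA R) (h' : UA R') : UA (fun K _ v => R K v ∧ R' K v) := by
  obtain ⟨φ, hφ⟩ := h
  obtain ⟨ψ, hψ⟩ := h'
  refine ⟨φ ⊓ ψ, fun K _ v => ?_⟩
  beta_reduce
  rw [← hφ K v, ← hψ K v]
  unfold Rlz
  letI := FirstOrder.Ring.compatibleRingOfRing K
  exact Language.Formula.realize_inf

theorem UA.or (h : UA R) (h' : UA R') : UA (fun K _ v => R K v ∨ R' K v) := by
  obtain ⟨φ, hφ⟩ := h
  obtain ⟨ψ, hψ⟩ := h'
  refine ⟨φ ⊔ ψ, fun K _ v => ?_⟩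
  beta_reduce
  rw [← hφ K v, ← hψ K v]
  unfold Rlz
  letI := FirstOrder.Ring.compatibleRingOfRing K
  exact Language.Formula.realize_sup

theorem UA.imp (h : UA R) (h' : UA R') : UA (fun K _ v => R K v → R' K v) := by
  obtain ⟨φ, hφ⟩ := h
  obtain ⟨ψ, hψ⟩ := h'
  refine ⟨φ.imp ψ, fun K _ v => ?_⟩
  beta_reduce
  rw [← hφ K v, ← hψ K v]
  unfold Rlz
  letI := FirstOrder.Ring.compatibleRingOfRing K
  exact Language.Formula.realize_imp

theorem UA.iff (h : UA R) (h' : UA R') : UA (fun K _ v => (R K v ↔ R' K v)) := by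
  obtain ⟨φ, hφ⟩ := h
  obtain ⟨ψ, hψ⟩ := h'
  refine ⟨φ.iff ψ, fun K _ v => ?_⟩
  beta_reduce
  rw [← hφ K v, ← hψ K v]
  unfold Rlz
  letI := FirstOrder.Ring.compatibleRingOfRing K
  exact Language.Formula.realize_iff

theorem UA.ex (i : ℕ) (h : UA R) : UA (fun K _ v => ∃ x : K, R K (Function.update v i x)) := by
  obtain ⟨φ, hφ⟩ := h
  refine ⟨(Language.Formula.relabel
    (fun j : ℕ => if j = i then (Sum.inr () : ℕ ⊕ Unit) else Sum.inl j) φ).iExs Unit,
    fun K _ v => ?_⟩
  have key : ∀ x : K, (Rlz φ (Function.update v i x) ↔ R K (Function.update v i x)) :=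
    fun x => hφ K _
  beta_reduce
  simp_rw [← key]
  unfold Rlz
  letI := FirstOrder.Ring.compatibleRingOfRing K
  rw [Language.Formula.realize_iExs]
  have e : ∀ a : Unit → K, (Sum.elim v a ∘
      (fun j : ℕ => if j = i then (Sum.inr () : ℕ ⊕ Unit) else Sum.inl j)) =
      Function.update v i (a ()) := by
    intro a
    funext j
    by_cases hj : j = i
    · subst hj
      simp
    · simp [hj]
  constructor
  · rintro ⟨a, ha⟩
    refine ⟨a (), ?_⟩
    rw [Language.Formula.realize_relabel, e] at ha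
    exact ha
  · rintro ⟨x, hx⟩
    refine ⟨fun _ => x, ?_⟩
    rw [Language.Formula.realize_relabel, e]
    exact hx

theorem UA.all (i : ℕ) (h : UA R) : UA (fun K _ v => ∀ x : K, R K (Function.update v i x)) := by
  refine UA.congr (fun K _ v => ?_) (h.not.ex i).not
  push Not
  exact Iff.rfl

theorem UA.subst {σ : ℕ → ∀ (K : Type u) [Field K], (ℕ → K) → K} (hσ : ∀ i, TT (σ i))
    (h : UA R) : UA (fun K _ v => R K (fun i => σ i K v)) := by
  obtain ⟨φ, hφ⟩ := h
  choose t ht using hσ
  refine ⟨Language.BoundedFormula.subst φ t, fun K _ v => ?_⟩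
  beta_reduce
  rw [← hφ K]
  unfold Rlz
  letI := FirstOrder.Ring.compatibleRingOfRing K
  have e : (fun i => σ i K v) = fun i => (t i).realize v := by
    funext i
    exact (ht i K v).symm
  rw [e]
  exact Language.BoundedFormula.realize_subst

theorem UA.finAnd {ι : Type*} (s : Finset ι) {Q : ι → ∀ (K : Type u) [Field K], (ℕ → K) → Prop}
    (h : ∀ i ∈ s, UA (Q i)) : UA (fun K _ v => ∀ i ∈ s, Q i K v) := by
  classical
  induction s using Finset.induction_on with
  | empty => exact UA.congr (fun K _ v => by simp) UA.top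
  | insert a s ha ih =>
    refine UA.congr (fun K _ v => ?_) ((h a (Finset.mem_insert_self a s)).and
      (ih (fun i hi => h i (Finset.mem_insert_of_mem hi))))
    simp

theorem UA.finOr {ι : Type*} (s : Finset ι) {Q : ι → ∀ (K : Type u) [Field K], (ℕ → K) → Prop}
    (h : ∀ i ∈ s, UA (Q i)) : UA (fun K _ v => ∃ i ∈ s, Q i K v) := by
  classical
  induction s using Finset.induction_on with
  | empty => exact UA.congr (fun K _ v => by simp) UA.top.not
  | insert a s ha ih =>
    refine UA.congr (fun K _ v => ?_) ((h a (Finset.mem_insert_self a s)).or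
      (ih (fun i hi => h i (Finset.mem_insert_of_mem hi))))
    simp

/-- From variables `0`, `1` to a formula in two variables. -/
theorem UA.fin2 (h : UA R) (hR : ∀ (K : Type u) [Field K] (v w : ℕ → K), v 0 = w 0 → v 1 = w 1 →
      R K v → R K w) :
    ∃ φ : Language.ring.Formula (Fin 2), ∀ (K : Type u) [Field K], ∀ v : ℕ → K,
      (Rlz φ ![v 0, v 1] ↔ R K v) := by
  obtain ⟨φ, hφ⟩ := h
  refine ⟨Language.Formula.relabel (fun j : ℕ => if j = 0 then (0 : Fin 2) else 1) φ,
    fun K _ v => ?_⟩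
  have h1 : R K v ↔ R K (![v 0, v 1] ∘ (fun j : ℕ => if j = 0 then (0 : Fin 2) else 1)) :=
    ⟨hR K _ _ (by simp) (by simp), hR K _ _ (by simp) (by simp)⟩
  rw [h1, ← hφ K]
  unfold Rlz
  letI := FirstOrder.Ring.compatibleRingOfRing K
  exact Language.Formula.realize_relabel

end rel

/-- the substitution given by a list of terms -/
def sg (l : List (∀ (K : Type u) [Field K], (ℕ → K) → K))
    (d : ∀ (K : Type u) [Field K], (ℕ → K) → K) (i : ℕ) :
    ∀ (K : Type u) [Field K], (ℕ → K) → K := l.getD i d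

theorem sg_TT {l : List (∀ (K : Type u) [Field K], (ℕ → K) → K)}
    {d : ∀ (K : Type u) [Field K], (ℕ → K) → K} (hd : TT d) (h : ∀ f ∈ l, TT f) (i : ℕ) :
    TT (sg l d i) := by
  unfold sg
  rcases lt_or_ge i l.length with hi | hi
  · rw [List.getD_eq_getElem l d hi]
    exact h _ (List.getElem_mem hi)
  · rw [List.getD_eq_default l d hi]
    exact hd

end UD0
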