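import Pool.Agent.UD0.CodA
import Pool.Agent.UDV.Abc

/-!
# UD0, coding B: the abc inequality and its consequences

PROOFS.  Adapt `UDV.Abc` and `UDV.DecA` (copy the proofs; the hypotheses `Fact p.Prime`, `CharP` are
not used there except to exclude `w = 0`, `w = 1`).  With `V = S.toV`:
* `deg_one_sub'`: `UDV.PF.deg_one_sub` is stated in `UDV.Abc` without any hypothesis on `p`: import
  `Pool.Agent.UDV.Abc` and use `S.toV.deg_one_sub w`.
* `abc'`: the proof of `UDV.PF.abc` verbatim (it never uses the instances).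
* `dec_bound'`: the proof of `UDV.PF.dec_bound` with `l = 0`, simpler: if `ord P x = 0` then
  `N ∣ ord P w`.  `c1`, `c2` as there.
* `same_div'`: the proof of `UDV.PF.same_div`; at the end `ord P W = 0` for all `P` contradicts
  `exists_ord_ne`.
-/

open Polynomial

namespace UD0

universe u

section aux

variable {p : ℕ} {L : Type u} [Field L] (S : UDV.PF p L)

/-- a pole of `w` is a pole of `1 - w` of the same order -/
private theorem cod_one_sub_neg {w : L} (P : S.I) (h : S.ord P w < 0) :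
    S.ord P (1 - w) = S.ord P w := by
  have hw : -w ≠ 0 := by
    intro h1
    rw [neg_eq_zero] at h1
    rw [h1, S.ord_zero] at h
    exact lt_irrefl _ h
  have h1 := (S.ord_add_eq P (x := -w) (y := 1) hw
    (Or.inr (by rw [S.ord_neg, S.ord_one]; exact h))).2
  rw [S.ord_neg, neg_add_eq_sub] at h1
  exact h1

private theorem cod_one_sub_nonneg {w : L} (P : S.I) (h : 0 ≤ S.ord P w) :
    0 ≤ S.ord P (1 - w) := by
  rcases S.ord_add_ge P (x := 1) (y := -w) (c := 0) (Or.inr (by rw [S.ord_one]))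
    (Or.inr (by rw [S.ord_neg]; exact h)) with h1 | h1
  · rw [← sub_eq_add_neg] at h1
    rw [h1, S.ord_zero]
  · rwa [← sub_eq_add_neg] at h1

private theorem cod_one_sub_pos {w : L} (P : S.I) (h : 0 < S.ord P w) :
    S.ord P (1 - w) = 0 := by
  have h1 := (S.ord_add_eq P (x := 1) (y := -w) one_ne_zero
    (Or.inr (by rw [S.ord_neg, S.ord_one]; exact h))).2
  rw [← sub_eq_add_neg, S.ord_one] at h1
  exact h1

private theorem cod_abc {w : L} {i : Fin S.d} (hδ : S.δ i w ≠ 0) :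
    S.deg w ≤ S.cnt (fun P => S.ord P w ≠ 0) + S.cnt (fun P => 0 < S.ord P (1 - w)) + S.B := by
  classical
  have hw : w ≠ 0 := by
    intro h
    apply hδ
    rw [h, map_zero]
  have hw1 : 1 - w ≠ 0 := by
    intro h
    apply hδ
    rw [← sub_eq_zero.1 h, Derivation.map_one_eq_zero]
  have hδ1 : S.δ i (1 - w) = -S.δ i w := by
    rw [map_sub, Derivation.map_one_eq_zero, zero_sub]
  obtain ⟨T₀, hT₀⟩ := S.exists_finset {w, 1 - w, S.δ i w}
  set T := T₀ ∪ S.b_fin.toFinset with hT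
  have hT1 : ∀ P, P ∉ T → S.ord P w = 0 := fun P hP =>
    hT₀ w (by simp) P fun h => hP (Finset.mem_union_left _ h)
  have hT2 : ∀ P, P ∉ T → S.ord P (1 - w) = 0 := fun P hP =>
    hT₀ (1 - w) (by simp) P fun h => hP (Finset.mem_union_left _ h)
  have hT3 : ∀ P, P ∉ T → S.ord P (S.δ i w) = 0 := fun P hP =>
    hT₀ (S.δ i w) (by simp) P fun h => hP (Finset.mem_union_left _ h)
  have hT4 : ∀ P, P ∉ T → S.b P = 0 := by
    intro P hP
    by_contra h
    exact hP (Finset.mem_union_right _ ((Set.Finite.mem_toFinset _).2 h))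
  have hB : S.B = ∑ P ∈ T, (S.wt P : ℤ) * (S.b P : ℤ) := by
    unfold UDV.PF.B
    refine finsum_eq_sum_of_support_subset _ fun P hP => ?_
    by_contra h
    apply hP
    change (S.wt P : ℤ) * (S.b P : ℤ) = 0
    rw [hT4 P h, Nat.cast_zero, mul_zero]
  have hc1 := S.cnt_finset (fun P => S.ord P w ≠ 0) T (fun P hP => by
    by_contra h
    exact hP (hT1 P h))
  have hc2 := S.cnt_finset (fun P => 0 < S.ord P (1 - w)) T (fun P hP => by
    by_contra h
    rw [hT2 P h] at hP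
    exact lt_irrefl _ hP)
  have hd := S.deg_finset (1 - w) T hT2
  rw [S.deg_one_sub] at hd
  have hp1 := S.prod_finset hw T hT1
  have hp2 := S.prod_finset hw1 T hT2
  have hp3 := S.prod_finset hδ T hT3
  have key : ∀ P ∈ T, (S.wt P : ℤ) * S.ord P w + ((S.wt P : ℤ) * max 0 (-(S.ord P (1 - w))) +
      (S.wt P : ℤ) * S.ord P (1 - w)) - (if S.ord P w ≠ 0 then (S.wt P : ℤ) else 0) -
      (if 0 < S.ord P (1 - w) then (S.wt P : ℤ) else 0) - (S.wt P : ℤ) * (S.b P : ℤ) ≤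
      (S.wt P : ℤ) * S.ord P (S.δ i w) := by
    intro P _
    have hW : (0 : ℤ) ≤ S.wt P := Int.natCast_nonneg _
    have h1 := S.δ_ord P i hw hδ
    have h1' := mul_le_mul_of_nonneg_left h1 hW
    rcases lt_trichotomy (S.ord P w) 0 with h | h | h
    · have h2 := cod_one_sub_neg S P h
      rw [h2, if_pos h.ne, if_neg (not_lt.2 h.le), max_eq_right (by linarith)]
      nlinarith [h1']
    · have h2 := cod_one_sub_nonneg S P h.ge
      rcases h2.eq_or_lt with h3 | h3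
      · have h4 := mul_le_mul_of_nonneg_left (S.δ_int P i hw h.ge hδ) hW
        rw [if_neg (not_not.2 h), if_neg (by rw [← h3]; exact lt_irrefl _), ← h3, h,
          max_eq_left (by simp)]
        nlinarith [h4]
      · have h4 := S.δ_ord P i hw1 (by rw [hδ1]; exact neg_ne_zero.2 hδ)
        rw [hδ1, S.ord_neg] at h4
        have h4' := mul_le_mul_of_nonneg_left h4 hW
        rw [if_neg (not_not.2 h), if_pos h3, h, max_eq_left (by linarith)]
        nlinarith [h4']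
    · have h2 := cod_one_sub_pos S P h
      rw [h2, if_pos h.ne', if_neg (lt_irrefl _), max_eq_left (by simp)]
      nlinarith [h1']
  have hsum := Finset.sum_le_sum key
  rw [Finset.sum_sub_distrib, Finset.sum_sub_distrib, Finset.sum_sub_distrib,
    Finset.sum_add_distrib, Finset.sum_add_distrib, hp1, hp2, hp3, ← hd, ← hB] at hsum
  have e1 : ∑ P ∈ T, (if S.ord P w ≠ 0 then (S.wt P : ℤ) else 0) =
      S.cnt (fun P => S.ord P w ≠ 0) := by
    rw [hc1]
    refine Finset.sum_congr rfl fun P _ => ?_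
    congr
  have e2 : ∑ P ∈ T, (if 0 < S.ord P (1 - w) then (S.wt P : ℤ) else 0) =
      S.cnt (fun P => 0 < S.ord P (1 - w)) := by
    rw [hc2]
    refine Finset.sum_congr rfl fun P _ => ?_
    congr
  rw [e1, e2] at hsum
  linarith

private theorem cod_dec_bound {x w : L} (hx0 : x ≠ 0) (hx1 : 1 - x ≠ 0) (hw0 : w ≠ 0)
    (hw1 : 1 - w ≠ 0) {i : Fin S.d}
    (hδ : S.δ i w ≠ 0) {N N' : ℕ} (hN : 6 ≤ N) (hN' : 6 ≤ N')
    (h : ∀ P, (N : ℤ) ∣ S.ord P w - S.ord P x)
    (h' : ∀ P, (N' : ℤ) ∣ S.ord P (1 - w) - S.ord P (1 - x)) :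
    S.deg w ≤ 8 * S.deg x + 2 * S.B := by
  have hcop : ∀ (M : ℕ), ∀ a b : ℤ, (M : ℤ) ∣ a - b → b = 0 → (M : ℤ) ∣ a := by
    intro M a b hab hb
    rwa [hb, sub_zero] at hab
  -- finiteness
  have fx : {P | S.ord P x ≠ 0}.Finite := S.fin hx0
  have fx1 : {P | S.ord P (1 - x) ≠ 0}.Finite := S.fin hx1
  have fw : {P | S.ord P w ≠ 0}.Finite := S.fin hw0
  have fw1 : {P | S.ord P (1 - w) ≠ 0}.Finite := S.fin hw1
  have f1 : {P | 0 < S.ord P w ∧ (N : ℤ) ∣ S.ord P w}.Finite :=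
    fw.subset fun P hP => (ne_of_gt hP.1)
  have f2 : {P | S.ord P w < 0 ∧ (N : ℤ) ∣ S.ord P w}.Finite :=
    fw.subset fun P hP => (ne_of_lt hP.1)
  have f3 : {P | 0 < S.ord P (1 - w) ∧ (N' : ℤ) ∣ S.ord P (1 - w)}.Finite :=
    fw1.subset fun P hP => (ne_of_gt hP.1)
  have f12 : {P | (0 < S.ord P w ∧ (N : ℤ) ∣ S.ord P w) ∨
      (S.ord P w < 0 ∧ (N : ℤ) ∣ S.ord P w)}.Finite := f1.union f2
  have f012 : {P | S.ord P x ≠ 0 ∨ ((0 < S.ord P w ∧ (N : ℤ) ∣ S.ord P w) ∨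
      (S.ord P w < 0 ∧ (N : ℤ) ∣ S.ord P w))}.Finite := fx.union f12
  have f13 : {P | S.ord P (1 - x) ≠ 0 ∨
      (0 < S.ord P (1 - w) ∧ (N' : ℤ) ∣ S.ord P (1 - w))}.Finite := fx1.union f3
  -- first count
  have c1 : S.cnt (fun P => S.ord P w ≠ 0) ≤ S.cnt (fun P => S.ord P x ≠ 0) +
      (S.cnt (fun P => 0 < S.ord P w ∧ (N : ℤ) ∣ S.ord P w) +
        S.cnt (fun P => S.ord P w < 0 ∧ (N : ℤ) ∣ S.ord P w)) := by
    refine (S.cnt_mono f012 (fun P hP => ?_)).trans ((S.cnt_or_le fx f12).trans ?_)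
    · by_cases h0 : S.ord P x = 0
      · right
        have hd := hcop N _ _ (h P) h0
        rcases lt_or_gt_of_ne hP with h1 | h1
        · exact Or.inr ⟨h1, hd⟩
        · exact Or.inl ⟨h1, hd⟩
      · exact Or.inl h0
    · have := S.cnt_or_le f1 f2
      linarith
  have c2 : S.cnt (fun P => 0 < S.ord P (1 - w)) ≤ S.cnt (fun P => S.ord P (1 - x) ≠ 0) +
      S.cnt (fun P => 0 < S.ord P (1 - w) ∧ (N' : ℤ) ∣ S.ord P (1 - w)) := by
    refine (S.cnt_mono f13 (fun P hP => ?_)).trans (S.cnt_or_le fx1 f3)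
    by_cases h0 : S.ord P (1 - x) = 0
    · right
      exact ⟨hP, hcop N' _ _ (h' P) h0⟩
    · exact Or.inl h0
  have e1 := S.cnt_mult_le hw0 N (by omega)
  have e2 := S.cnt_mult_neg_le w N (by omega)
  have e3 := S.cnt_mult_le hw1 N' (by omega)
  have n1 := S.cnt_nonneg (fun P => 0 < S.ord P w ∧ (N : ℤ) ∣ S.ord P w)
  have n2 := S.cnt_nonneg (fun P => S.ord P w < 0 ∧ (N : ℤ) ∣ S.ord P w)
  have n3 := S.cnt_nonneg (fun P => 0 < S.ord P (1 - w) ∧ (N' : ℤ) ∣ S.ord P (1 - w))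
  have e4 := S.cnt_ne_le x
  have e5 := S.cnt_ne_le (1 - x)
  have e6 := cod_abc S hδ
  have hN6 : (6 : ℤ) ≤ (N : ℤ) := by exact_mod_cast hN
  have hN6' : (6 : ℤ) ≤ (N' : ℤ) := by exact_mod_cast hN'
  have g1 := mul_le_mul_of_nonneg_right hN6 n1
  have g2 := mul_le_mul_of_nonneg_right hN6 n2
  have g3 := mul_le_mul_of_nonneg_right hN6' n3
  rw [S.deg_one_sub] at e3 e5
  linarith

/-- an element without poles and with nonnegative orders has order zero everywhere -/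
private theorem cod_ord_eq_zero {x : L} (h : ∀ P, x = 0 ∨ 0 ≤ S.ord P x) (P : S.I) :
    S.ord P x = 0 := by
  have h0 : ∀ P, 0 ≤ S.ord P x := by
    intro P
    rcases h P with h1 | h1
    · rw [h1, S.ord_zero]
    · exact h1
  have hd : S.deg x = 0 := by
    unfold UDV.PF.deg
    rw [finsum_eq_zero_of_forall_eq_zero]
    intro P
    rw [max_eq_left (neg_nonpos.mpr (h0 P)), mul_zero]
  have h1 := S.abs_ord_le P x
  rw [hd] at h1
  exact abs_eq_zero.mp (le_antisymm h1 (abs_nonneg _))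

private theorem cod_same_div {x W : L} (hW0 : W ≠ 0) (hW1 : 1 - W ≠ 0) (hx0 : x ≠ 0)
    (hx1 : 1 - x ≠ 0) {Q : S.I} (hQ : S.ord Q W ≠ 0)
    (h : ∀ P, S.ord P x = S.ord P W) (h' : ∀ P, S.ord P (1 - x) = S.ord P (1 - W)) : x = W := by
  obtain ⟨c, hc⟩ : ∃ c, c = x / W := ⟨_, rfl⟩
  obtain ⟨c', hc'⟩ : ∃ c', c' = (1 - x) / (1 - W) := ⟨_, rfl⟩
  have hc0 : c ≠ 0 := by rw [hc]; exact div_ne_zero hx0 hW0
  have hc0' : c' ≠ 0 := by rw [hc']; exact div_ne_zero hx1 hW1
  have hcx : c * W = x := by rw [hc, div_mul_cancel₀ x hW0]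
  have hcx' : c' * (1 - W) = 1 - x := by rw [hc', div_mul_cancel₀ (1 - x) hW1]
  have oc : ∀ P, S.ord P c = 0 := by
    intro P
    have e := S.ord_mul P hc0 hW0
    rw [hcx, h P] at e
    linarith
  have oc' : ∀ P, S.ord P c' = 0 := by
    intro P
    have e := S.ord_mul P hc0' hW1
    rw [hcx', h' P] at e
    linarith
  have hrel : (c - c') * W = 1 - c' := by
    linear_combination hcx + hcx'
  have o1 : ∀ P, S.ord P (c - c') = 0 := by
    refine cod_ord_eq_zero S fun P => ?_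
    rw [sub_eq_add_neg]
    refine S.ord_add_ge P (Or.inr (oc P).ge) (Or.inr ?_)
    rw [S.ord_neg, oc' P]
  have o2 : ∀ P, S.ord P (1 - c') = 0 := by
    refine cod_ord_eq_zero S fun P => ?_
    rw [sub_eq_add_neg]
    refine S.ord_add_ge P (Or.inr (S.ord_one P).ge) (Or.inr ?_)
    rw [S.ord_neg, oc' P]
  by_cases hcc : c - c' = 0
  · rw [hcc, zero_mul] at hrel
    have h1 : c' = 1 := (sub_eq_zero.mp hrel.symm).symm
    rw [h1, sub_eq_zero] at hcc
    rw [hcc, one_mul] at hcx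
    exact hcx.symm
  · exfalso
    have oW : ∀ P, S.ord P W = 0 := by
      intro P
      have e := S.ord_mul P hcc hW0
      rw [hrel, o1 P, o2 P, zero_add] at e
      exact e.symm
    exact hQ (oW Q)

end aux

namespace PF

variable {d : ℕ} {L : Type u} [Field L] (S : PF d L)

theorem abc' {w : L} {i : Fin d} (hδ : S.δ i w ≠ 0) :
    S.toV.deg w ≤ S.toV.cnt (fun P => S.ord P w ≠ 0) +
      S.toV.cnt (fun P => 0 < S.ord P (1 - w)) + S.toV.B :=
  cod_abc S.toV (i := i) hδ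

private theorem one_sub_ne' [CharZero L] {x : L} (hx : ¬ Alg x) : 1 - x ≠ 0 := by
  intro h
  exact ne_one_of_nc hx (sub_eq_zero.1 h).symm

theorem dec_bound' [CharZero L] {x w : L} (hx : ¬ Alg x) (hw : ¬ Alg w) {N N' : ℕ} (hN : 6 ≤ N)
    (hN' : 6 ≤ N') (h : ∀ P, (N : ℤ) ∣ S.ord P w - S.ord P x)
    (h' : ∀ P, (N' : ℤ) ∣ S.ord P (1 - w) - S.ord P (1 - x)) :
    S.toV.deg w ≤ 8 * S.toV.deg x + 2 * S.toV.B := by
  obtain ⟨i, hi⟩ := S.exists_delta hw
  exact cod_dec_bound S.toV (ne_zero_of_nc hx) (one_sub_ne' hx) (ne_zero_of_nc hw)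
    (one_sub_ne' hw) (i := i) hi hN hN' h h'

theorem same_div' [CharZero L] {x W : L} (hx : ¬ Alg x) (hW : ¬ Alg W)
    (h : ∀ P, S.ord P x = S.ord P W) (h' : ∀ P, S.ord P (1 - x) = S.ord P (1 - W)) : x = W := by
  obtain ⟨Q, hQ⟩ := S.exists_ord_ne hW
  exact cod_same_div S.toV (ne_zero_of_nc hW) (one_sub_ne' hW) (ne_zero_of_nc hx)
    (one_sub_ne' hx) (Q := Q) hQ h h'

end PF

end UD0
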