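import Pool.Agent.UD0.CodB
import Pool.Agent.UDV.Abc

/-!
# UD0, coding C: decoding

PROOF of `decode`.  `X = emb x`, `A = (8 deg X + 2 B).toNat`, `M = (deg X).toNat`,
`n₀ = A + M + 7`.  Let `x'` be given, `X' = emb x'`.
Case 1: `x'` algebraic.  Then `ord P X' = 0` (`const'`, `alg_map`), so `N ∣ ord P X`,
`|ord P X| ≤ deg X ≤ M < N`, so `ord P X = 0` for all `P`: contradiction to `exists_ord_ne`.
Case 2: `x'` not algebraic: `dec_bound'`: `deg X' ≤ 8 deg X + 2 B ≤ A`.  So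
`|ord P X' - ord P X| ≤ A + M < N` (`abs_ord_le`), hence `ord P X' = ord P X`
(`Int.eq_zero_of_abs_lt_dvd` or `Int.eq_zero_of_dvd_of_natAbs_lt_natAbs`); the same for `1 - X'`,
`1 - X` (`deg_one_sub`).  `same_div'` gives `X' = X`.
-/

open Polynomial

namespace UD0

universe u

variable {K : Type u} [Field K] [CharZero K] {P : Pres K}

theorem decode (C : Chart P) {x : K} (hx : ¬ Alg x) :
    ∃ n₀ : ℕ, ∀ N N' : ℕ, n₀ ≤ N → n₀ ≤ N' → ∀ x' : K,
      (∀ Q, (N : ℤ) ∣ C.S.ord Q (C.emb x') - C.S.ord Q (C.emb x)) →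
      (∀ Q, (N' : ℤ) ∣ C.S.ord Q (C.emb (1 - x')) - C.S.ord Q (C.emb (1 - x))) → x' = x := by
  have : CharZero C.L := charZero_of_injective_ringHom C.emb.injective
  have hX : ¬ Alg (C.emb x) := fun h => hx ((alg_map C.emb).1 h)
  have hd : 0 ≤ C.S.toV.deg (C.emb x) := C.S.toV.deg_nonneg (C.emb x)
  have hBn : 0 ≤ C.S.toV.B := C.S.toV.B_nonneg
  refine ⟨(8 * C.S.toV.deg (C.emb x) + 2 * C.S.toV.B).toNat + (C.S.toV.deg (C.emb x)).toNat + 7, ?_⟩
  intro N N' hN hN' x' h h'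
  have hA : ((8 * C.S.toV.deg (C.emb x) + 2 * C.S.toV.B).toNat : ℤ) =
      8 * C.S.toV.deg (C.emb x) + 2 * C.S.toV.B := Int.toNat_of_nonneg (by omega)
  have hM : ((C.S.toV.deg (C.emb x)).toNat : ℤ) = C.S.toV.deg (C.emb x) := Int.toNat_of_nonneg hd
  have hNz : 9 * C.S.toV.deg (C.emb x) + 2 * C.S.toV.B + 7 ≤ (N : ℤ) := by omega
  have hNz' : 9 * C.S.toV.deg (C.emb x) + 2 * C.S.toV.B + 7 ≤ (N' : ℤ) := by omega
  have hb : ∀ Q, |C.S.ord Q (C.emb x)| ≤ C.S.toV.deg (C.emb x) := fun Q =>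
    C.S.toV.abs_ord_le Q (C.emb x)
  have hx' : ¬ Alg x' := by
    intro hx'
    obtain ⟨Q, hQ⟩ := C.S.exists_ord_ne hX
    apply hQ
    have h1 := h Q
    rw [C.S.const' ((alg_map C.emb).2 hx') Q, zero_sub, dvd_neg] at h1
    have h2 := hb Q
    exact Int.eq_zero_of_abs_lt_dvd h1 (by omega)
  have hX' : ¬ Alg (C.emb x') := fun h => hx' ((alg_map C.emb).1 h)
  rw [map_sub, map_one, map_sub, map_one] at h'
  have hdec := C.S.dec_bound' hX hX' (N := N) (N' := N') (by omega) (by omega) h h'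
  have hb' : ∀ Q, |C.S.ord Q (C.emb x')| ≤ C.S.toV.deg (C.emb x') := fun Q =>
    C.S.toV.abs_ord_le Q (C.emb x')
  have h1 : ∀ Q, C.S.ord Q (C.emb x) = C.S.ord Q (C.emb x') := by
    intro Q
    have h2 : C.S.ord Q (C.emb x') - C.S.ord Q (C.emb x) = 0 := by
      refine Int.eq_zero_of_abs_lt_dvd (h Q) ?_
      have h3 := hb Q
      have h4 := hb' Q
      have h5 := abs_sub (C.S.ord Q (C.emb x')) (C.S.ord Q (C.emb x))
      omega
    omega
  have h1' : ∀ Q, C.S.ord Q (1 - C.emb x) = C.S.ord Q (1 - C.emb x') := by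
    intro Q
    have h2 : C.S.ord Q (1 - C.emb x') - C.S.ord Q (1 - C.emb x) = 0 := by
      refine Int.eq_zero_of_abs_lt_dvd (h' Q) ?_
      have h3 : |C.S.ord Q (1 - C.emb x)| ≤ C.S.toV.deg (C.emb x) := by
        rw [← C.S.toV.deg_one_sub (C.emb x)]
        exact C.S.toV.abs_ord_le Q _
      have h4 : |C.S.ord Q (1 - C.emb x')| ≤ C.S.toV.deg (C.emb x') := by
        rw [← C.S.toV.deg_one_sub (C.emb x')]
        exact C.S.toV.abs_ord_le Q _
      have h5 := abs_sub (C.S.ord Q (1 - C.emb x')) (C.S.ord Q (1 - C.emb x))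
      omega
    omega
  exact (C.emb.injective (C.S.same_div' hX hX' h1 h1')).symm

end UD0
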