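import Pool.Agent.UD0.Base

/-!
# UD0, coding: definitions

`Z` is a unary relation (the integers), `W` a ternary relation (`W u n w`: `w` is the `n`-th power of
`u` up to a root of unity).  All relations below are first order expressions in `Z` and `W`.
Modulo `N`-th powers: `Cg N x y` means `x = u y`, `u` an `N`-th power up to a root of unity.
A code `A, B` has the entry `x` at the moduli `N, N'` if `x = A` modulo `N`-th powers and
`1 - x = B` modulo `N'`-th powers.  Finite sequences: moduli `1 + i D`, `i = 1, 2, ..., n`, and the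
`i`-th member `c` is coded by the nonconstant element `c + σ`.
-/

namespace UD0

universe u

section

variable {K : Type u} [Field K] (Z : K → Prop) (W : K → K → K → Prop)

/-- The input: `Z` are the integers, `W` is the power relation up to roots of unity. -/
structure Inp : Prop where
  z : ∀ x : K, Z x ↔ ∃ n : ℤ, x = n
  pw : ∀ (u : K) (n : ℕ), u ≠ 0 → W u n (u ^ n)
  pw' : ∀ (u w : K) (n : ℕ), u ≠ 0 → W u n w → ∃ e : ℕ, 0 < e ∧ (w / u ^ n) ^ e = 1

/-- natural numbers: sums of four squares of integers -/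
def Nn (x : K) : Prop :=
  ∃ a b c d : K, Z a ∧ Z b ∧ Z c ∧ Z d ∧ x = a * a + b * b + (c * c + d * d)

/-- `x` and `y` are congruent modulo `N`-th powers and roots of unity -/
def Cg (N x y : K) : Prop := ∃ v w : K, v ≠ 0 ∧ W v N w ∧ x = w * y

/-- `x` is an entry of the code `A, B` at the moduli `N, N'` -/
def Ent (A B N N' x : K) : Prop := x ≠ 0 ∧ x ≠ 1 ∧ Cg W N x A ∧ Cg W N' (1 - x) B

/-- `c` is the `i`-th member of the sequence coded by `A, B, D` -/
def Se (σ A B D i c : K) : Prop := Ent W A B (1 + i * D) (1 + i * D) (c + σ)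

/-- `1 ≤ i ≤ n` for natural numbers -/
def Ix (n i : K) : Prop := Nn Z i ∧ Nn Z (i - 1) ∧ Nn Z (n - i)

/-- `g` is a member of the sequence coded by `A, B, D` of length `n` -/
def Gen (σ A B D n g : K) : Prop := ∃ i : K, Ix Z n i ∧ Se W σ A B D i g

/-- the rule for the `i`-th member `c` of a derivation coded by `A', B', D', n'` -/
def Rule (σ A B D n A' B' D' n' i c : K) : Prop :=
  c = 1 ∨ c = -1 ∨ Gen Z W σ A B D n c ∨ ∃ j k c₁ c₂ : K, Ix Z n' j ∧ Ix Z n' k ∧
    Nn Z (i - 1 - j) ∧ Nn Z (i - 1 - k) ∧ Se W σ A' B' D' j c₁ ∧ Se W σ A' B' D' k c₂ ∧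
      (c = c₁ + c₂ ∨ c = c₁ * c₂)

/-- `A', B', D', n'` code a derivation -/
def Drv (σ A B D n A' B' D' n' : K) : Prop :=
  ∀ i : K, Ix Z n' i → ∃ c : K, Se W σ A' B' D' i c ∧ (∀ c' : K, Se W σ A' B' D' i c' → c' = c) ∧
    Rule Z W σ A B D n A' B' D' n' i c

/-- `x` belongs to the ring generated by the set coded by `A, B, D, n` -/
def Mem (σ A B D n x : K) : Prop :=
  ∃ A' B' D' n' : K, Nn Z D' ∧ Nn Z n' ∧ Drv Z W σ A B D n A' B' D' n' ∧
    ∃ i : K, Ix Z n' i ∧ Se W σ A' B' D' i x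

/-- `x` belongs to the localization at the prime generated by `π` -/
def Val (σ π A B D n x : K) : Prop :=
  ∃ c : K, Mem Z W σ A B D n c ∧ Mem Z W σ A B D n (c * x) ∧
    ¬ ∃ y : K, Mem Z W σ A B D n y ∧ y * π = c

/-- `a` is the `q`-th power of `β`, up to a root of unity, and `q` is maximal -/
def Root (a q β : K) : Prop :=
  Nn Z q ∧ β ≠ 0 ∧ W β q a ∧ ∀ q' β' : K, Nn Z q' → β' ≠ 0 → W β' q' a → Nn Z (q - q')

/-- `x` is the `j`-th coordinate (`j = 0, 1, ...`) of the tuple coded by `β, q` -/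
def Cd (β q : K) (j : ℕ) (x : K) : Prop :=
  Ent W β β (1 + ((2 * j + 1 : ℕ) : K) * q) (1 + ((2 * j + 2 : ℕ) : K) * q) x

/-- the final relation with one parameter `a` -/
def Fnl (x a : K) : Prop :=
  ∃ q β σ π' A B D' n' : K, Root Z W a q β ∧ Cd W β q 0 σ ∧ Cd W β q 1 π' ∧ Cd W β q 2 A ∧
    Cd W β q 3 B ∧ Cd W β q 4 D' ∧ Cd W β q 5 n' ∧ Val Z W σ (π' - σ) A B (D' - σ) (n' - σ) x

end

end UD0
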