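import Pool.Agent.UD0.Calc
import Pool.Agent.UD0.CodDefs

/-!
# UD0, coding: definability

If `Z` (unary) and `W` (ternary) are defined by one formula in all fields, then so is `Fnl`.
Technique as in `Pool/Agent/UDV/DefC.lean`.
-/

open Polynomial UDV

namespace UD0

universe u

theorem TT.natCast' (n : ℕ) : TT.{u} (fun K _ _ => ((n : ℕ) : K)) := by
  induction n with
  | zero =>
    obtain ⟨t, ht⟩ := TT.zero.{u}
    exact ⟨t, fun K _ v => (ht K v).trans Nat.cast_zero.symm⟩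
  | succ n ih =>
    obtain ⟨t, ht⟩ := ih.add TT.one
    exact ⟨t, fun K _ v => (ht K v).trans (Nat.cast_succ n).symm⟩

section

variable {f₁ f₂ f₃ f₄ f₅ f₆ f₇ f₈ f₉ f₁₀ f₁₁ : ∀ (K : Type u) [Field K], (ℕ → K) → K}
variable {Z : ∀ (K : Type u) [Field K], K → Prop} {W : ∀ (K : Type u) [Field K], K → K → K → Prop}

theorem ua_Z0 (hZ : UA (fun K _ v => Z K (v 0))) : UA.{u} (fun K _ v => Z K (v 0)) := hZ

theorem ua_Z (hZ : UA (fun K _ v => Z K (v 0))) (h₁ : TT f₁) :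
    UA (fun K _ v => Z K (f₁ K v)) :=
  UA.subst (σ := sg [f₁] f₁) (sg_TT h₁ (by
    simp only [List.mem_cons, List.not_mem_nil, or_false, forall_eq]
    exact h₁)) (ua_Z0 hZ)

theorem ua_W0 (hW : UA (fun K _ v => W K (v 0) (v 1) (v 2))) :
    UA.{u} (fun K _ v => W K (v 0) (v 1) (v 2)) := hW

theorem ua_W (hW : UA (fun K _ v => W K (v 0) (v 1) (v 2))) (h₁ : TT f₁) (h₂ : TT f₂) (h₃ : TT f₃) :
    UA (fun K _ v => W K (f₁ K v) (f₂ K v) (f₃ K v)) :=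
  UA.subst (σ := sg [f₁, f₂, f₃] f₁) (sg_TT h₁ (by
    simp only [List.mem_cons, List.not_mem_nil, or_false, forall_eq_or_imp, forall_eq]
    exact ⟨h₁, h₂, h₃⟩)) (ua_W0 hW)

theorem ua_Nn0 (hZ : UA (fun K _ v => Z K (v 0))) :
    UA.{u} (fun K _ v => Nn (Z K) (v 0)) :=
  UA.congr (fun _ _ _ => Iff.rfl) <| UA.ex 1 <| UA.ex 2 <| UA.ex 3 <| UA.ex 4 <|
    (ua_Z hZ (TT.var 1)).and <| (ua_Z hZ (TT.var 2)).and <| (ua_Z hZ (TT.var 3)).and <|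
    (ua_Z hZ (TT.var 4)).and <| UA.eq (TT.var 0) ((((TT.var 1).mul (TT.var 1)).add
      ((TT.var 2).mul (TT.var 2))).add (((TT.var 3).mul (TT.var 3)).add
        ((TT.var 4).mul (TT.var 4))))

theorem ua_Nn (hZ : UA (fun K _ v => Z K (v 0))) (h₁ : TT f₁) :
    UA (fun K _ v => Nn (Z K) (f₁ K v)) :=
  UA.subst (σ := sg [f₁] f₁) (sg_TT h₁ (by
    simp only [List.mem_cons, List.not_mem_nil, or_false, forall_eq]
    exact h₁)) (ua_Nn0 hZ)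

theorem ua_Cg0 (hW : UA (fun K _ v => W K (v 0) (v 1) (v 2))) :
    UA.{u} (fun K _ v => Cg (W K) (v 0) (v 1) (v 2)) :=
  UA.congr (fun _ _ _ => Iff.rfl) <| UA.ex 3 <| UA.ex 4 <|
    (UA.eq (TT.var 3) TT.zero).not.and <| (ua_W hW (TT.var 3) (TT.var 0) (TT.var 4)).and <|
    UA.eq (TT.var 1) ((TT.var 4).mul (TT.var 2))

theorem ua_Cg (hW : UA (fun K _ v => W K (v 0) (v 1) (v 2))) (h₁ : TT f₁) (h₂ : TT f₂) (h₃ : TT f₃) :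
    UA (fun K _ v => Cg (W K) (f₁ K v) (f₂ K v) (f₃ K v)) :=
  UA.subst (σ := sg [f₁, f₂, f₃] f₁) (sg_TT h₁ (by
    simp only [List.mem_cons, List.not_mem_nil, or_false, forall_eq_or_imp, forall_eq]
    exact ⟨h₁, h₂, h₃⟩)) (ua_Cg0 hW)

theorem ua_Ent0 (hW : UA (fun K _ v => W K (v 0) (v 1) (v 2))) :
    UA.{u} (fun K _ v => Ent (W K) (v 0) (v 1) (v 2) (v 3) (v 4)) :=
  UA.congr (fun _ _ _ => Iff.rfl) <| (UA.eq (TT.var 4) TT.zero).not.and <|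
    (UA.eq (TT.var 4) TT.one).not.and <| (ua_Cg hW (TT.var 2) (TT.var 4) (TT.var 0)).and <|
    ua_Cg hW (TT.var 3) (TT.one.sub (TT.var 4)) (TT.var 1)

theorem ua_Ent (hW : UA (fun K _ v => W K (v 0) (v 1) (v 2))) (h₁ : TT f₁) (h₂ : TT f₂) (h₃ : TT f₃) (h₄ : TT f₄) (h₅ : TT f₅) :
    UA (fun K _ v => Ent (W K) (f₁ K v) (f₂ K v) (f₃ K v) (f₄ K v) (f₅ K v)) :=
  UA.subst (σ := sg [f₁, f₂, f₃, f₄, f₅] f₁) (sg_TT h₁ (by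
    simp only [List.mem_cons, List.not_mem_nil, or_false, forall_eq_or_imp, forall_eq]
    exact ⟨h₁, h₂, h₃, h₄, h₅⟩)) (ua_Ent0 hW)

theorem ua_Se0 (hW : UA (fun K _ v => W K (v 0) (v 1) (v 2))) :
    UA.{u} (fun K _ v => Se (W K) (v 0) (v 1) (v 2) (v 3) (v 4) (v 5)) :=
  UA.congr (fun _ _ _ => Iff.rfl) <| ua_Ent hW (TT.var 1) (TT.var 2)
    (TT.one.add ((TT.var 4).mul (TT.var 3))) (TT.one.add ((TT.var 4).mul (TT.var 3)))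
    ((TT.var 5).add (TT.var 0))

theorem ua_Se (hW : UA (fun K _ v => W K (v 0) (v 1) (v 2))) (h₁ : TT f₁) (h₂ : TT f₂) (h₃ : TT f₃) (h₄ : TT f₄) (h₅ : TT f₅) (h₆ : TT f₆) :
    UA (fun K _ v => Se (W K) (f₁ K v) (f₂ K v) (f₃ K v) (f₄ K v) (f₅ K v) (f₆ K v)) :=
  UA.subst (σ := sg [f₁, f₂, f₃, f₄, f₅, f₆] f₁) (sg_TT h₁ (by
    simp only [List.mem_cons, List.not_mem_nil, or_false, forall_eq_or_imp, forall_eq]
    exact ⟨h₁, h₂, h₃, h₄, h₅, h₆⟩)) (ua_Se0 hW)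

theorem ua_Ix0 (hZ : UA (fun K _ v => Z K (v 0))) :
    UA.{u} (fun K _ v => Ix (Z K) (v 0) (v 1)) :=
  UA.congr (fun _ _ _ => Iff.rfl) <| (ua_Nn hZ (TT.var 1)).and <|
    (ua_Nn hZ ((TT.var 1).sub TT.one)).and <| ua_Nn hZ ((TT.var 0).sub (TT.var 1))

theorem ua_Ix (hZ : UA (fun K _ v => Z K (v 0))) (h₁ : TT f₁) (h₂ : TT f₂) :
    UA (fun K _ v => Ix (Z K) (f₁ K v) (f₂ K v)) :=
  UA.subst (σ := sg [f₁, f₂] f₁) (sg_TT h₁ (by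
    simp only [List.mem_cons, List.not_mem_nil, or_false, forall_eq_or_imp, forall_eq]
    exact ⟨h₁, h₂⟩)) (ua_Ix0 hZ)

theorem ua_Gen0 (hZ : UA (fun K _ v => Z K (v 0))) (hW : UA (fun K _ v => W K (v 0) (v 1) (v 2))) :
    UA.{u} (fun K _ v => Gen (Z K) (W K) (v 0) (v 1) (v 2) (v 3) (v 4) (v 5)) :=
  UA.congr (fun _ _ _ => Iff.rfl) <| UA.ex 6 <|
    (ua_Ix hZ (TT.var 4) (TT.var 6)).and <| ua_Se hW (TT.var 0) (TT.var 1) (TT.var 2) (TT.var 3) (TT.var 6) (TT.var 5)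

theorem ua_Gen (hZ : UA (fun K _ v => Z K (v 0))) (hW : UA (fun K _ v => W K (v 0) (v 1) (v 2))) (h₁ : TT f₁) (h₂ : TT f₂) (h₃ : TT f₃) (h₄ : TT f₄) (h₅ : TT f₅) (h₆ : TT f₆) :
    UA (fun K _ v => Gen (Z K) (W K) (f₁ K v) (f₂ K v) (f₃ K v) (f₄ K v) (f₅ K v) (f₆ K v)) :=
  UA.subst (σ := sg [f₁, f₂, f₃, f₄, f₅, f₆] f₁) (sg_TT h₁ (by
    simp only [List.mem_cons, List.not_mem_nil, or_false, forall_eq_or_imp, forall_eq]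
    exact ⟨h₁, h₂, h₃, h₄, h₅, h₆⟩)) (ua_Gen0 hZ hW)

theorem ua_Rule0 (hZ : UA (fun K _ v => Z K (v 0))) (hW : UA (fun K _ v => W K (v 0) (v 1) (v 2))) :
    UA.{u} (fun K _ v => Rule (Z K) (W K) (v 0) (v 1) (v 2) (v 3) (v 4) (v 5) (v 6) (v 7) (v 8) (v 9) (v 10)) :=
  UA.congr (fun _ _ _ => Iff.rfl) <| (UA.eq (TT.var 10) TT.one).or <|
    (UA.eq (TT.var 10) TT.one.neg).or <| (ua_Gen hZ hW (TT.var 0) (TT.var 1) (TT.var 2) (TT.var 3) (TT.var 4) (TT.var 10)).or <|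
    UA.ex 11 <| UA.ex 12 <| UA.ex 13 <| UA.ex 14 <|
      (ua_Ix hZ (TT.var 8) (TT.var 11)).and <| (ua_Ix hZ (TT.var 8) (TT.var 12)).and <|
      (ua_Nn hZ (((TT.var 9).sub TT.one).sub (TT.var 11))).and <|
      (ua_Nn hZ (((TT.var 9).sub TT.one).sub (TT.var 12))).and <|
      (ua_Se hW (TT.var 0) (TT.var 5) (TT.var 6) (TT.var 7) (TT.var 11) (TT.var 13)).and <|
      (ua_Se hW (TT.var 0) (TT.var 5) (TT.var 6) (TT.var 7) (TT.var 12) (TT.var 14)).and <|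
      (UA.eq (TT.var 10) ((TT.var 13).add (TT.var 14))).or
        (UA.eq (TT.var 10) ((TT.var 13).mul (TT.var 14)))

theorem ua_Drv0 (hZ : UA (fun K _ v => Z K (v 0))) (hW : UA (fun K _ v => W K (v 0) (v 1) (v 2))) :
    UA.{u} (fun K _ v => Drv (Z K) (W K) (v 0) (v 1) (v 2) (v 3) (v 4) (v 5) (v 6) (v 7) (v 8)) :=
  UA.congr (fun _ _ _ => Iff.rfl) <| UA.all 9 <| (ua_Ix hZ (TT.var 8) (TT.var 9)).imp <|
    UA.ex 10 <| (ua_Se hW (TT.var 0) (TT.var 5) (TT.var 6) (TT.var 7) (TT.var 9) (TT.var 10)).and <|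
      (UA.all 11 <| (ua_Se hW (TT.var 0) (TT.var 5) (TT.var 6) (TT.var 7) (TT.var 9) (TT.var 11)).imp <| UA.eq (TT.var 11) (TT.var 10)).and
        (ua_Rule0 hZ hW)

theorem ua_Drv (hZ : UA (fun K _ v => Z K (v 0))) (hW : UA (fun K _ v => W K (v 0) (v 1) (v 2))) (h₁ : TT f₁) (h₂ : TT f₂) (h₃ : TT f₃) (h₄ : TT f₄) (h₅ : TT f₅) (h₆ : TT f₆) (h₇ : TT f₇) (h₈ : TT f₈) (h₉ : TT f₉) :
    UA (fun K _ v => Drv (Z K) (W K) (f₁ K v) (f₂ K v) (f₃ K v) (f₄ K v) (f₅ K v) (f₆ K v) (f₇ K v) (f₈ K v) (f₉ K v)) :=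
  UA.subst (σ := sg [f₁, f₂, f₃, f₄, f₅, f₆, f₇, f₈, f₉] f₁) (sg_TT h₁ (by
    simp only [List.mem_cons, List.not_mem_nil, or_false, forall_eq_or_imp, forall_eq]
    exact ⟨h₁, h₂, h₃, h₄, h₅, h₆, h₇, h₈, h₉⟩)) (ua_Drv0 hZ hW)

theorem ua_Mem0 (hZ : UA (fun K _ v => Z K (v 0))) (hW : UA (fun K _ v => W K (v 0) (v 1) (v 2))) :
    UA.{u} (fun K _ v => Mem (Z K) (W K) (v 0) (v 1) (v 2) (v 3) (v 4) (v 5)) :=
  UA.congr (fun _ _ _ => Iff.rfl) <| UA.ex 6 <| UA.ex 7 <| UA.ex 8 <| UA.ex 9 <|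
    (ua_Nn hZ (TT.var 8)).and <| (ua_Nn hZ (TT.var 9)).and <|
    (ua_Drv hZ hW (TT.var 0) (TT.var 1) (TT.var 2) (TT.var 3) (TT.var 4)
      (TT.var 6) (TT.var 7) (TT.var 8) (TT.var 9)).and <|
    UA.ex 10 <| (ua_Ix hZ (TT.var 9) (TT.var 10)).and <|
      ua_Se hW (TT.var 0) (TT.var 6) (TT.var 7) (TT.var 8) (TT.var 10) (TT.var 5)

theorem ua_Mem (hZ : UA (fun K _ v => Z K (v 0))) (hW : UA (fun K _ v => W K (v 0) (v 1) (v 2))) (h₁ : TT f₁) (h₂ : TT f₂) (h₃ : TT f₃) (h₄ : TT f₄) (h₅ : TT f₅) (h₆ : TT f₆) :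
    UA (fun K _ v => Mem (Z K) (W K) (f₁ K v) (f₂ K v) (f₃ K v) (f₄ K v) (f₅ K v) (f₆ K v)) :=
  UA.subst (σ := sg [f₁, f₂, f₃, f₄, f₅, f₆] f₁) (sg_TT h₁ (by
    simp only [List.mem_cons, List.not_mem_nil, or_false, forall_eq_or_imp, forall_eq]
    exact ⟨h₁, h₂, h₃, h₄, h₅, h₆⟩)) (ua_Mem0 hZ hW)

theorem ua_Val0 (hZ : UA (fun K _ v => Z K (v 0))) (hW : UA (fun K _ v => W K (v 0) (v 1) (v 2))) :
    UA.{u} (fun K _ v => Val (Z K) (W K) (v 0) (v 1) (v 2) (v 3) (v 4) (v 5) (v 6)) :=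
  UA.congr (fun _ _ _ => Iff.rfl) <| UA.ex 7 <|
    (ua_Mem hZ hW (TT.var 0) (TT.var 2) (TT.var 3) (TT.var 4) (TT.var 5) (TT.var 7)).and <|
    (ua_Mem hZ hW (TT.var 0) (TT.var 2) (TT.var 3) (TT.var 4) (TT.var 5)
      ((TT.var 7).mul (TT.var 6))).and <|
    UA.not <| UA.ex 8 <|
      (ua_Mem hZ hW (TT.var 0) (TT.var 2) (TT.var 3) (TT.var 4) (TT.var 5) (TT.var 8)).and <|
      UA.eq ((TT.var 8).mul (TT.var 1)) (TT.var 7)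

theorem ua_Val (hZ : UA (fun K _ v => Z K (v 0))) (hW : UA (fun K _ v => W K (v 0) (v 1) (v 2))) (h₁ : TT f₁) (h₂ : TT f₂) (h₃ : TT f₃) (h₄ : TT f₄) (h₅ : TT f₅) (h₆ : TT f₆) (h₇ : TT f₇) :
    UA (fun K _ v => Val (Z K) (W K) (f₁ K v) (f₂ K v) (f₃ K v) (f₄ K v) (f₅ K v) (f₆ K v) (f₇ K v)) :=
  UA.subst (σ := sg [f₁, f₂, f₃, f₄, f₅, f₆, f₇] f₁) (sg_TT h₁ (by
    simp only [List.mem_cons, List.not_mem_nil, or_false, forall_eq_or_imp, forall_eq]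
    exact ⟨h₁, h₂, h₃, h₄, h₅, h₆, h₇⟩)) (ua_Val0 hZ hW)

theorem ua_Root0 (hZ : UA (fun K _ v => Z K (v 0))) (hW : UA (fun K _ v => W K (v 0) (v 1) (v 2))) :
    UA.{u} (fun K _ v => Root (Z K) (W K) (v 0) (v 1) (v 2)) :=
  UA.congr (fun _ _ _ => Iff.rfl) <| (ua_Nn hZ (TT.var 1)).and <| (UA.eq (TT.var 2) TT.zero).not.and <|
    (ua_W hW (TT.var 2) (TT.var 1) (TT.var 0)).and <| UA.all 3 <| UA.all 4 <| (ua_Nn hZ (TT.var 3)).imp <|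
    (UA.eq (TT.var 4) TT.zero).not.imp <| (ua_W hW (TT.var 4) (TT.var 3) (TT.var 0)).imp <| ua_Nn hZ ((TT.var 1).sub (TT.var 3))

theorem ua_Root (hZ : UA (fun K _ v => Z K (v 0))) (hW : UA (fun K _ v => W K (v 0) (v 1) (v 2))) (h₁ : TT f₁) (h₂ : TT f₂) (h₃ : TT f₃) :
    UA (fun K _ v => Root (Z K) (W K) (f₁ K v) (f₂ K v) (f₃ K v)) :=
  UA.subst (σ := sg [f₁, f₂, f₃] f₁) (sg_TT h₁ (by
    simp only [List.mem_cons, List.not_mem_nil, or_false, forall_eq_or_imp, forall_eq]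
    exact ⟨h₁, h₂, h₃⟩)) (ua_Root0 hZ hW)

theorem ua_Cd0 (hW : UA (fun K _ v => W K (v 0) (v 1) (v 2))) (j : ℕ) :
    UA.{u} (fun K _ v => Cd (W K) (v 0) (v 1) j (v 2)) :=
  UA.congr (fun _ _ _ => Iff.rfl) <| ua_Ent hW (TT.var 0) (TT.var 0)
    (TT.one.add ((TT.natCast' (2 * j + 1)).mul (TT.var 1)))
    (TT.one.add ((TT.natCast' (2 * j + 2)).mul (TT.var 1))) (TT.var 2)

theorem ua_Cd (hW : UA (fun K _ v => W K (v 0) (v 1) (v 2))) (j : ℕ) (h₁ : TT f₁) (h₂ : TT f₂)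
    (h₃ : TT f₃) : UA (fun K _ v => Cd (W K) (f₁ K v) (f₂ K v) j (f₃ K v)) :=
  UA.subst (σ := sg [f₁, f₂, f₃] f₁) (sg_TT h₁ (by
    simp only [List.mem_cons, List.not_mem_nil, or_false, forall_eq_or_imp, forall_eq]
    exact ⟨h₁, h₂, h₃⟩)) (ua_Cd0 hW j)

theorem ua_Fnl0 (hZ : UA (fun K _ v => Z K (v 0))) (hW : UA (fun K _ v => W K (v 0) (v 1) (v 2))) :
    UA.{u} (fun K _ v => Fnl (Z K) (W K) (v 0) (v 1)) :=
  UA.congr (fun _ _ _ => Iff.rfl) <| UA.ex 2 <| UA.ex 3 <| UA.ex 4 <| UA.ex 5 <|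
    UA.ex 6 <| UA.ex 7 <| UA.ex 8 <| UA.ex 9 <|
    (ua_Root hZ hW (TT.var 1) (TT.var 2) (TT.var 3)).and <|
    (ua_Cd hW 0 (TT.var 3) (TT.var 2) (TT.var 4)).and <|
    (ua_Cd hW 1 (TT.var 3) (TT.var 2) (TT.var 5)).and <|
    (ua_Cd hW 2 (TT.var 3) (TT.var 2) (TT.var 6)).and <|
    (ua_Cd hW 3 (TT.var 3) (TT.var 2) (TT.var 7)).and <|
    (ua_Cd hW 4 (TT.var 3) (TT.var 2) (TT.var 8)).and <|
    (ua_Cd hW 5 (TT.var 3) (TT.var 2) (TT.var 9)).and <|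
    ua_Val hZ hW (TT.var 4) ((TT.var 5).sub (TT.var 4)) (TT.var 6) (TT.var 7)
      ((TT.var 8).sub (TT.var 4)) ((TT.var 9).sub (TT.var 4)) (TT.var 0)

theorem ua_Fnl (hZ : UA (fun K _ v => Z K (v 0))) (hW : UA (fun K _ v => W K (v 0) (v 1) (v 2))) (h₁ : TT f₁) (h₂ : TT f₂) :
    UA (fun K _ v => Fnl (Z K) (W K) (f₁ K v) (f₂ K v)) :=
  UA.subst (σ := sg [f₁, f₂] f₁) (sg_TT h₁ (by
    simp only [List.mem_cons, List.not_mem_nil, or_false, forall_eq_or_imp, forall_eq]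
    exact ⟨h₁, h₂⟩)) (ua_Fnl0 hZ hW)

end

end UD0
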