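import Pool.Agent.UD0.CodS

/-!
# UD0, coding G: codes of finite sets; soundness of derivations

PROOFS.
* `gen_code`: `l = S.toList.map (· + σ)`; all members are nonconstant (`hσ`, `Subring.subset_closure`).
  `n = l.length`, `D = (D₀ + 1) * n !` with `D₀` from `seq_code`.  `Gen g ↔ g ∈ S`: `ix_iff`;
  `i = m`, `1 ≤ m ≤ n`, `j = m - 1`, `1 + (m : K) * (D : K) = ((1 + (j + 1) * D : ℕ) : K)`
  (`push_cast`), `l[j] = s_j + σ` with `s_j = S.toList[j] ∈ S`; the entry at `m` is unique.
* `mem_sound`: let the derivation be coded by `A', B', D', n'`, `n' = n₁` natural.  By strong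
  induction on `m`, `1 ≤ m ≤ n₁`: if `Se (m : K) c` then `c ∈ Subring.closure S`.  `Drv` at `i = m` gives
  the unique entry, which is `c`, and the rule: `1`, `-1`, or `Gen c`, i.e. `c ∈ S`, or `c = c₁ + c₂`,
  `c₁ * c₂` with entries at `j`, `k` natural, `1 ≤ j`, `j ≤ m - 1` (`Nn (m - 1 - j)`: by `Nn.iff` it is
  a natural number `t`, `m = 1 + j + t`).
-/

open Polynomial

namespace UD0

universe u

variable {K : Type u} [Field K] [CharZero K] {P : Pres K} {Z : K → Prop} {W : K → K → K → Prop}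

theorem gen_code (h : Inp Z W) (C : Chart P) (hd : 0 < P.d) {σ : K} (S : Finset K)
    (hσ : ∀ c ∈ Subring.closure (S : Set K), ¬ Alg (c + σ)) :
    ∃ (A B : K) (D n : ℕ), ¬ Alg A ∧ ¬ Alg B ∧ ∀ g, Gen Z W σ A B (D : K) (n : K) g ↔ g ∈ S := by
  classical
  have hl : ∀ y ∈ S.toList.map (· + σ), ¬ Alg y := by
    intro y hy
    obtain ⟨c, hc, rfl⟩ := List.mem_map.mp hy
    exact hσ c (Subring.subset_closure (Finset.mem_toList.mp hc))
  obtain ⟨D₀, hD₀⟩ := seq_code h C hd (S.toList.map (· + σ)) hl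
  have hlen : (S.toList.map (· + σ)).length = S.toList.length := List.length_map _
  have hle : D₀ ≤ (D₀ + 1) * (S.toList.map (· + σ)).length.factorial :=
    (Nat.le_succ D₀).trans (Nat.le_mul_of_pos_right _ (Nat.factorial_pos _))
  obtain ⟨A, B, hA, hB, hdec⟩ := hD₀ _ hle (dvd_mul_left _ _)
  generalize (D₀ + 1) * (S.toList.map (· + σ)).length.factorial = D at hdec
  have hcast : ∀ j : ℕ, ((1 + (j + 1) * D : ℕ) : K) = 1 + ((j + 1 : ℕ) : K) * (D : K) := by
    intro j
    push_cast
    ring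
  refine ⟨A, B, D, S.toList.length, hA, hB, fun g => ?_⟩
  constructor
  · rintro ⟨i, hi, hs⟩
    obtain ⟨m, rfl, h1, h2⟩ := (ix_iff h).1 hi
    obtain ⟨j, rfl⟩ : ∃ j, m = j + 1 := ⟨m - 1, by omega⟩
    have hj : j < (S.toList.map (· + σ)).length := by omega
    have h3 := (hdec j hj).2 (g + σ) (by rw [hcast]; exact hs)
    rw [List.getElem_map] at h3
    have h4 := add_right_cancel h3
    rw [h4]
    exact Finset.mem_toList.mp (List.getElem_mem _)
  · intro hg
    obtain ⟨j, hj, rfl⟩ := List.mem_iff_getElem.mp (Finset.mem_toList.mpr hg)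
    refine ⟨((j + 1 : ℕ) : K), (ix_iff h).2 ⟨j + 1, rfl, by omega, by omega⟩, ?_⟩
    have h3 := (hdec j (by rw [hlen]; exact hj)).1
    rw [List.getElem_map, hcast] at h3
    exact h3

theorem mem_sound (h : Inp Z W) {σ A B D n : K} {S : Finset K}
    (hgen : ∀ g, Gen Z W σ A B D n g ↔ g ∈ S) {x : K} (hx : Mem Z W σ A B D n x) :
    x ∈ Subring.closure (S : Set K) := by
  obtain ⟨A', B', D', n', -, -, hdrv, i₀, hi₀, hs₀⟩ := hx
  have key : ∀ (m : ℕ) (c : K), Ix Z n' (m : K) → Se W σ A' B' D' (m : K) c →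
      c ∈ Subring.closure (S : Set K) := by
    intro m
    induction m using Nat.strong_induction_on with
    | _ m ih =>
      intro c hm hc
      obtain ⟨c₁, -, huniq, hr⟩ := hdrv _ hm
      have hcc : c = c₁ := huniq c hc
      subst hcc
      rcases hr with rfl | rfl | hg | ⟨j, k, e₁, e₂, hj, hk, hj', hk', he₁, he₂, hr⟩
      · exact one_mem _
      · exact neg_mem (one_mem _)
      · exact Subring.subset_closure ((hgen _).mp hg)
      · obtain ⟨j₁, rfl⟩ := (Nn.iff h).1 hj.1
        obtain ⟨k₁, rfl⟩ := (Nn.iff h).1 hk.1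
        obtain ⟨s, hs⟩ := (Nn.iff h).1 hj'
        obtain ⟨t, ht⟩ := (Nn.iff h).1 hk'
        have hjm : m = 1 + j₁ + s := by
          have h5 : (m : K) = ((1 + j₁ + s : ℕ) : K) := by
            push_cast
            linear_combination hs
          exact_mod_cast h5
        have hkm : m = 1 + k₁ + t := by
          have h5 : (m : K) = ((1 + k₁ + t : ℕ) : K) := by
            push_cast
            linear_combination ht
          exact_mod_cast h5
        have m1 := ih j₁ (by omega) e₁ hj he₁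
        have m2 := ih k₁ (by omega) e₂ hk he₂
        rcases hr with rfl | rfl
        · exact add_mem m1 m2
        · exact mul_mem m1 m2
  obtain ⟨m, rfl⟩ := (Nn.iff h).1 hi₀.1
  exact key m x hi₀ hs₀

end UD0
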