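import Pool.Agent.UD0.CodG

/-!
# UD0, coding M: completeness of derivations

PROOFS (adapt `Pool/Agent/UDV/MemB.lean`).
* `DerZ S l`: the list `l` is a derivation.  `derz_mem`, `derz_append`, `derz_snoc` as in `MemB`
  (`der_mem`, `der_append`, `der_snoc`), with one more case `-1`.
* `exists_derz`: the set of `x` which are members of a derivation contains `1`, `-1`, `S` and is
  closed under `+` and `*`, so it contains `0 = 1 + (-1)` and is closed under negation;
  `Subring.closure_induction`.
* `mem_complete`: let `l` be a derivation containing `x`.  All members `c` are in the closure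
  (`derz_mem`), so `c + σ` is nonconstant.  `seq_code` for `l.map (· + σ)`, `D = (D₀ + 1) * n !`,
  `n = l.length`, gives `A', B'`.  `Mem`: witnesses `A', B', (D : K), (n : K)`.  For `Ix n i`:
  `i = m`, `1 ≤ m ≤ n` (`ix_iff`), the entry is `c = l[m - 1]` (`1 + (m : K) * (D : K) =
  ((1 + ((m - 1) + 1) * D : ℕ) : K)`), unique (`c' + σ = l[m-1] + σ`); the rule from `DerZ`: `l[j']`
  with `j' < m - 1` is the entry at `j' + 1`, `m - 1 - (j' + 1)` is a natural number (`Nn.iff`).
-/

open Polynomial

namespace UD0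

universe u

variable {K : Type u} [Field K] [CharZero K] {P : Pres K} {Z : K → Prop} {W : K → K → K → Prop}

/-- `l` is a derivation from `S`. -/
def DerZ (S : Finset K) (l : List K) : Prop :=
  ∀ (i : ℕ) (hi : i < l.length), l[i] = 1 ∨ l[i] = -1 ∨ l[i] ∈ S ∨
    ∃ (j k : ℕ) (hj : j < i) (hk : k < i), l[i] = l[j] + l[k] ∨ l[i] = l[j] * l[k]

omit [CharZero K] in
theorem derz_mem {S : Finset K} {l : List K} (h : DerZ S l) {x : K} (hx : x ∈ l) :
    x ∈ Subring.closure (S : Set K) := by
  have key : ∀ (i : ℕ) (hi : i < l.length), l[i] ∈ Subring.closure (S : Set K) := by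
    intro i
    induction i using Nat.strong_induction_on with
    | _ i ih =>
      intro hi
      rcases h i hi with h1 | h1 | h1 | ⟨j, k, hj, hk, h1 | h1⟩
      · rw [h1]
        exact Subring.one_mem _
      · rw [h1]
        exact Subring.neg_mem _ (Subring.one_mem _)
      · exact Subring.subset_closure (by exact_mod_cast h1)
      · rw [h1]
        exact Subring.add_mem _ (ih j hj (by omega)) (ih k hk (by omega))
      · rw [h1]
        exact Subring.mul_mem _ (ih j hj (by omega)) (ih k hk (by omega))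
  obtain ⟨i, hi, rfl⟩ := List.mem_iff_getElem.1 hx
  exact key i hi

omit [CharZero K] in
theorem derz_append {S : Finset K} {l l' : List K} (h : DerZ S l) (h' : DerZ S l') :
    DerZ S (l ++ l') := by
  intro i hi
  rw [List.length_append] at hi
  by_cases hil : i < l.length
  · have e : (l ++ l')[i]'(by rw [List.length_append]; exact hi) = l[i] :=
      List.getElem_append_left hil
    rw [e]
    rcases h i hil with h1 | h1 | h1 | ⟨j, k, hj, hk, h1⟩
    · exact Or.inl h1
    · exact Or.inr (Or.inl h1)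
    · exact Or.inr (Or.inr (Or.inl h1))
    · refine Or.inr (Or.inr (Or.inr ⟨j, k, hj, hk, ?_⟩))
      have ej : (l ++ l')[j]'(by rw [List.length_append]; omega) = l[j] :=
        List.getElem_append_left (by omega)
      have ek : (l ++ l')[k]'(by rw [List.length_append]; omega) = l[k] :=
        List.getElem_append_left (by omega)
      rw [ej, ek]
      exact h1
  · have hil' : l.length ≤ i := by omega
    have hlt : i - l.length < l'.length := by omega
    have e : (l ++ l')[i]'(by rw [List.length_append]; exact hi) = l'[i - l.length] :=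
      List.getElem_append_right hil'
    rw [e]
    rcases h' (i - l.length) hlt with h1 | h1 | h1 | ⟨j, k, hj, hk, h1⟩
    · exact Or.inl h1
    · exact Or.inr (Or.inl h1)
    · exact Or.inr (Or.inr (Or.inl h1))
    · refine Or.inr (Or.inr (Or.inr ⟨l.length + j, l.length + k, by omega, by omega, ?_⟩))
      have ej : (l ++ l')[l.length + j]'(by rw [List.length_append]; omega) = l'[j] := by
        rw [List.getElem_append_right (by omega)]
        simp
      have ek : (l ++ l')[l.length + k]'(by rw [List.length_append]; omega) = l'[k] := by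
        rw [List.getElem_append_right (by omega)]
        simp
      rw [ej, ek]
      exact h1

omit [CharZero K] in
theorem derz_snoc {S : Finset K} {l : List K} (h : DerZ S l) {z : K}
    (hz : z = 1 ∨ z = -1 ∨ z ∈ S ∨ ∃ x ∈ l, ∃ y ∈ l, z = x + y ∨ z = x * y) :
    DerZ S (l ++ [z]) := by
  intro i hi
  rw [List.length_append, List.length_singleton] at hi
  by_cases hil : i < l.length
  · have e : (l ++ [z])[i]'(by rw [List.length_append, List.length_singleton]; exact hi) = l[i] :=
      List.getElem_append_left hil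
    rw [e]
    rcases h i hil with h1 | h1 | h1 | ⟨j, k, hj, hk, h1⟩
    · exact Or.inl h1
    · exact Or.inr (Or.inl h1)
    · exact Or.inr (Or.inr (Or.inl h1))
    · refine Or.inr (Or.inr (Or.inr ⟨j, k, hj, hk, ?_⟩))
      have ej : (l ++ [z])[j]'(by rw [List.length_append, List.length_singleton]; omega) = l[j] :=
        List.getElem_append_left (by omega)
      have ek : (l ++ [z])[k]'(by rw [List.length_append, List.length_singleton]; omega) = l[k] :=
        List.getElem_append_left (by omega)
      rw [ej, ek]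
      exact h1
  · have hie : i = l.length := by omega
    subst hie
    have e : (l ++ [z])[l.length]'(by
        rw [List.length_append, List.length_singleton]; exact hi) = z := by
      simp
    rw [e]
    rcases hz with h1 | h1 | h1 | ⟨x, hx, y, hy, h1⟩
    · exact Or.inl h1
    · exact Or.inr (Or.inl h1)
    · exact Or.inr (Or.inr (Or.inl h1))
    · obtain ⟨j, hj, rfl⟩ := List.mem_iff_getElem.1 hx
      obtain ⟨k, hk, rfl⟩ := List.mem_iff_getElem.1 hy
      refine Or.inr (Or.inr (Or.inr ⟨j, k, hj, hk, ?_⟩))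
      have ej : (l ++ [z])[j]'(by rw [List.length_append, List.length_singleton]; omega) = l[j] :=
        List.getElem_append_left hj
      have ek : (l ++ [z])[k]'(by rw [List.length_append, List.length_singleton]; omega) = l[k] :=
        List.getElem_append_left hk
      rw [ej, ek]
      exact h1

omit [CharZero K] in
theorem exists_derz {S : Finset K} {x : K} (hx : x ∈ Subring.closure (S : Set K)) :
    ∃ l : List K, DerZ S l ∧ x ∈ l := by
  have hnil : DerZ S ([] : List K) := by
    intro i hi
    simp at hi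
  have hone : ∃ l : List K, DerZ S l ∧ (1 : K) ∈ l :=
    ⟨[] ++ [1], derz_snoc hnil (Or.inl rfl), by simp⟩
  have hneg1 : ∃ l : List K, DerZ S l ∧ (-1 : K) ∈ l :=
    ⟨[] ++ [-1], derz_snoc hnil (Or.inr (Or.inl rfl)), by simp⟩
  have hadd : ∀ {x y : K}, (∃ l : List K, DerZ S l ∧ x ∈ l) →
      (∃ l : List K, DerZ S l ∧ y ∈ l) → ∃ l : List K, DerZ S l ∧ x + y ∈ l := by
    rintro x y ⟨l, hl, hxl⟩ ⟨l', hl', hyl⟩
    refine ⟨(l ++ l') ++ [x + y], derz_snoc (derz_append hl hl') ?_, by simp⟩
    exact Or.inr (Or.inr (Or.inr ⟨x, List.mem_append_left _ hxl, y, List.mem_append_right _ hyl,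
      Or.inl rfl⟩))
  have hmul : ∀ {x y : K}, (∃ l : List K, DerZ S l ∧ x ∈ l) →
      (∃ l : List K, DerZ S l ∧ y ∈ l) → ∃ l : List K, DerZ S l ∧ x * y ∈ l := by
    rintro x y ⟨l, hl, hxl⟩ ⟨l', hl', hyl⟩
    refine ⟨(l ++ l') ++ [x * y], derz_snoc (derz_append hl hl') ?_, by simp⟩
    exact Or.inr (Or.inr (Or.inr ⟨x, List.mem_append_left _ hxl, y, List.mem_append_right _ hyl,
      Or.inr rfl⟩))
  have hzero : ∃ l : List K, DerZ S l ∧ (0 : K) ∈ l := by
    have h := hadd hone hneg1
    rwa [add_neg_cancel] at h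
  induction hx using Subring.closure_induction with
  | mem x hx =>
    exact ⟨[] ++ [x], derz_snoc hnil (Or.inr (Or.inr (Or.inl (by exact_mod_cast hx)))), by simp⟩
  | zero => exact hzero
  | one => exact hone
  | add x y _ _ hx hy => exact hadd hx hy
  | neg x _ hx =>
    have h := hmul hneg1 hx
    rwa [neg_one_mul] at h
  | mul x y _ _ hx hy => exact hmul hx hy

theorem mem_complete (h : Inp Z W) (C : Chart P) (hd : 0 < P.d) {σ A B D n : K} {S : Finset K}
    (hgen : ∀ g, Gen Z W σ A B D n g ↔ g ∈ S)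
    (hσ : ∀ c ∈ Subring.closure (S : Set K), ¬ Alg (c + σ)) {x : K}
    (hx : x ∈ Subring.closure (S : Set K)) : Mem Z W σ A B D n x := by
  obtain ⟨l, hl, hxl⟩ := exists_derz hx
  obtain ⟨D₀, hD₀⟩ := seq_code h C hd (l.map (· + σ)) (by
    intro y hy
    obtain ⟨c, hc, rfl⟩ := List.mem_map.1 hy
    exact hσ c (derz_mem hl hc))
  obtain ⟨A', B', -, -, hdec⟩ := hD₀ ((D₀ + 1) * (l.map (· + σ)).length.factorial)
    (by
      have h1 : 1 ≤ (l.map (· + σ)).length.factorial := Nat.factorial_pos _
      calc D₀ ≤ D₀ + 1 := Nat.le_succ _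
        _ = (D₀ + 1) * 1 := (mul_one _).symm
        _ ≤ _ := Nat.mul_le_mul_left _ h1)
    (Dvd.intro_left _ rfl)
  generalize hDD : (D₀ + 1) * (l.map (· + σ)).length.factorial = D' at hdec
  -- the entries
  have hcast : ∀ j : ℕ, (1 : K) + ((j + 1 : ℕ) : K) * (D' : K) =
      ((1 + (j + 1) * D' : ℕ) : K) := by
    intro j
    push_cast
    ring
  have hE : ∀ (j : ℕ) (hj : j < l.length),
      Se W σ A' B' (D' : K) ((j + 1 : ℕ) : K) l[j] := by
    intro j hj
    have h4 := (hdec j (by rw [List.length_map]; exact hj)).1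
    rw [List.getElem_map] at h4
    unfold Se
    rw [hcast j]
    exact h4
  have hU : ∀ (j : ℕ) (hj : j < l.length) (c' : K),
      Se W σ A' B' (D' : K) ((j + 1 : ℕ) : K) c' → c' = l[j] := by
    intro j hj c' hc'
    have h4 := (hdec j (by rw [List.length_map]; exact hj)).2 (c' + σ)
    rw [List.getElem_map] at h4
    unfold Se at hc'
    rw [hcast j] at hc'
    exact add_right_cancel (h4 hc')
  have hIx : ∀ j : ℕ, j < l.length → Ix Z ((l.length : ℕ) : K) ((j + 1 : ℕ) : K) := by
    intro j hj
    exact (ix_iff h).2 ⟨j + 1, rfl, by omega, by omega⟩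
  obtain ⟨i, hi, rfl⟩ := List.mem_iff_getElem.1 hxl
  refine ⟨A', B', (D' : K), ((l.length : ℕ) : K), (Nn.iff h).2 ⟨_, rfl⟩, (Nn.iff h).2 ⟨_, rfl⟩,
    ?_, _, hIx i hi, hE i hi⟩
  intro s hs
  obtain ⟨m, rfl, hm1, hm2⟩ := (ix_iff h).1 hs
  obtain ⟨j, rfl⟩ : ∃ j, m = j + 1 := ⟨m - 1, by omega⟩
  have hj : j < l.length := by omega
  refine ⟨l[j], hE j hj, fun c' hc' => hU j hj c' hc', ?_⟩
  have hsub : ∀ j1 : ℕ, j1 < j → Nn Z (((j + 1 : ℕ) : K) - 1 - ((j1 + 1 : ℕ) : K)) := by
    intro j1 hj1
    refine (Nn.iff h).2 ⟨j - 1 - j1, ?_⟩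
    have e : j = (j - 1 - j1) + j1 + 1 := by omega
    generalize j - 1 - j1 = r at e ⊢
    subst e
    push_cast
    ring
  rcases hl j hj with h1 | h1 | h1 | ⟨j1, j2, hj1, hj2, h1⟩
  · exact Or.inl h1
  · exact Or.inr (Or.inl h1)
  · exact Or.inr (Or.inr (Or.inl ((hgen _).2 h1)))
  · exact Or.inr (Or.inr (Or.inr ⟨_, _, l[j1], l[j2], hIx j1 (by omega), hIx j2 (by omega),
      hsub j1 hj1, hsub j2 hj2, hE j1 (by omega), hE j2 (by omega), h1⟩))

end UD0
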