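import Pool.Agent.UD0.CodA

/-!
# UD0, coding P: places of the field `K` of a chart

PROOFS.
* `exists_nc`: `g = P.t 0`.  `D 0 g = 1` (`C.ht`), so `S.δ 0 (emb g) = 1` (`C.hD`).  If `g` were
  algebraic then so is `emb g`, and a derivation kills algebraic elements in characteristic zero:
  take `f ≠ 0` in `ℤ[X]` of least degree with `aeval x f = 0`; then
  `0 = δ (aeval x f) = aeval x (derivative f) * δ x` (`Derivation.leibniz_aeval` or induction on `f`) and
  `aeval x (derivative f) ≠ 0` because `derivative f` has smaller degree and is not zero (`natDegree f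
  ≥ 1` as `aeval x (C c) = c ≠ 0`).
* `exists_place`: for `c : ℕ` the element `g - c` is not algebraic (`Alg.sub`, `alg_nat`), so there is
  a place `Q_c` with `0 < ord (emb (g - c))` (`exists_zero`).  `Q_c ≠ Q_{c'}` for `c ≠ c'`: otherwise
  `0 < ord ((g - c') - (g - c))`, but this is a nonzero integer, algebraic, of order `0` (use
  `ord_add` and `const'`).  So `c ↦ Q_c` is injective, and some `Q_c` is not in the finite set `T`;
  `u = (g - c)⁻¹`.
* `exists_sigma`: `T` = a finite set of places outside of which all `emb s`, `s ∈ S`, have order `0`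
  (`S.toV.exists_finset`); `Q ∉ T`, `σ` with `ord Q (emb σ) < 0` from `exists_place`.  By
  `Subring.closure_induction`: `c = 0 ∨ 0 ≤ ord Q (emb c)` for `c` in the closure (`ord_add_ge`,
  `ord_neg`, `ord_mul`), so `ord Q (emb (c + σ)) = ord Q (emb σ) < 0` (`ord_add_eq`) and `c + σ` is
  not algebraic.
* `exists_gen`: `Q ∉ T` from `exists_place`; the set `{ord Q (emb u) | u ≠ 0}` is a nonzero subgroup
  of `ℤ`, so it has a positive generator `γ` (`Int.subgroup_cyclic`, see the proof of `UDV.dvd_iff` in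
  `Pool/Agent/UDV/Decode.lean`).
-/

open Polynomial

namespace UD0

universe u

variable {K : Type u} [Field K] [CharZero K] {P : Pres K}

/-- a derivation kills algebraic elements in characteristic zero -/
private theorem der_alg {L : Type u} [Field L] [CharZero L] (δ : Derivation ℤ L L) {x : L}
    (hx : Alg x) : δ x = 0 := by
  classical
  have hex : ∃ n : ℕ, ∃ f : ℤ[X], f ≠ 0 ∧ aeval x f = 0 ∧ f.natDegree = n := by
    obtain ⟨f, hf, h⟩ := hx
    exact ⟨f.natDegree, f, hf, h, rfl⟩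
  obtain ⟨f, hf, hfx, hfd⟩ := Nat.find_spec hex
  have hmin := fun m (hm : m < Nat.find hex) => Nat.find_min hex hm
  have hdeg : f.natDegree ≠ 0 := by
    intro h0
    obtain ⟨c, hc⟩ := natDegree_eq_zero.1 h0
    rw [← hc, aeval_C, eq_intCast, Int.cast_eq_zero] at hfx
    apply hf
    rw [← hc, hfx, C_0]
  have hder : derivative f ≠ 0 := by
    intro h0
    exact hdeg (natDegree_eq_zero_of_derivative_eq_zero h0)
  have hlt : (derivative f).natDegree < Nat.find hex := by
    rw [← hfd]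
    exact natDegree_derivative_lt hdeg
  have hne : aeval x (derivative f) ≠ 0 := by
    intro h0
    exact hmin _ hlt ⟨derivative f, hder, h0, rfl⟩
  have h1 : δ (aeval x f) = aeval x (derivative f) • δ x := δ.map_aeval f x
  rw [hfx, map_zero, smul_eq_mul] at h1
  exact (mul_eq_zero.1 h1.symm).resolve_left hne

private theorem cz (C : Chart P) : CharZero C.L := charZero_of_injective_ringHom C.emb.injective

theorem exists_nc (C : Chart P) (hd : 0 < P.d) : ∃ g : K, ¬ Alg g := by
  haveI := cz C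
  refine ⟨P.t ⟨0, hd⟩, fun h => ?_⟩
  have h1 : Alg (C.emb (P.t ⟨0, hd⟩)) := (alg_map C.emb).2 h
  have h2 := der_alg (C.S.δ ⟨0, hd⟩) h1
  rw [← C.hD, C.ht, if_pos rfl, map_one] at h2
  exact one_ne_zero h2

private theorem sub_nat_nc {g : K} (hg : ¬ Alg g) (c : ℕ) : ¬ Alg (g - (c : K)) := by
  intro h
  apply hg
  have h1 := h.sub (alg_int (K := K) (-(c : ℤ)))
  have h2 : g - (c : K) - ((-(c : ℤ) : ℤ) : K) = g := by
    push_cast
    ring
  rwa [h2] at h1

theorem exists_place (C : Chart P) (hd : 0 < P.d) (T : Finset C.S.I) :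
    ∃ Q, Q ∉ T ∧ ∃ u : K, C.S.ord Q (C.emb u) < 0 := by
  haveI := cz C
  obtain ⟨g, hg⟩ := exists_nc C hd
  have h1 : ∀ c : ℕ, ∃ Q, 0 < C.S.ord Q (C.emb (g - (c : K))) := fun c =>
    C.S.exists_zero (fun h => sub_nat_nc hg c ((alg_map C.emb).1 h))
  choose Q hQ using h1
  have hinj : Function.Injective Q := by
    intro c c' hcc
    by_contra hne
    have a1 := hQ c
    have a2 := hQ c'
    rw [← hcc] at a2
    have h3 : C.emb (g - (c' : K)) + -C.emb (g - (c : K)) = (((c : ℤ) - (c' : ℤ) : ℤ) : C.L) := by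
      rw [map_sub, map_sub, map_natCast, map_natCast]
      push_cast
      ring
    have h4 : ((((c : ℤ) - (c' : ℤ) : ℤ)) : C.L) ≠ 0 := by
      rw [Int.cast_ne_zero]
      intro h5
      apply hne
      omega
    have h5 := C.S.const' (alg_int (K := C.L) ((c : ℤ) - (c' : ℤ))) (Q c)
    have h6 : C.emb (g - (c' : K)) + -C.emb (g - (c : K)) = 0 ∨
        1 ≤ C.S.ord (Q c) (C.emb (g - (c' : K)) + -C.emb (g - (c : K))) := by
      refine C.S.toV.ord_add_ge (Q c) (c := 1) (Or.inr ?_) (Or.inr ?_)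
      · exact a2
      · rw [C.S.toV.ord_neg]
        exact a1
    rw [h3] at h6
    rcases h6 with h6 | h6
    · exact h4 h6
    · rw [h5] at h6
      omega
  obtain ⟨q, ⟨c, rfl⟩, hq⟩ := (Set.infinite_range_of_injective hinj).exists_notMem_finset T
  refine ⟨Q c, hq, (g - (c : K))⁻¹, ?_⟩
  have h2 : C.S.ord (Q c) (C.emb (g - (c : K)))⁻¹ = -C.S.ord (Q c) (C.emb (g - (c : K))) :=
    C.S.toV.ord_inv (Q c) _
  rw [map_inv₀, h2]
  have := hQ c
  omega

theorem exists_sigma (C : Chart P) (hd : 0 < P.d) (S : Finset K) :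
    ∃ σ : K, ∀ c ∈ Subring.closure (S : Set K), ¬ Alg (c + σ) := by
  classical
  obtain ⟨T, hT⟩ := C.S.toV.exists_finset (S.image C.emb)
  obtain ⟨Q, hQ, σ, hσ⟩ := exists_place C hd T
  refine ⟨σ, fun c hc => ?_⟩
  have hcl : C.emb c = 0 ∨ 0 ≤ C.S.ord Q (C.emb c) := by
    induction hc using Subring.closure_induction with
    | mem x hx =>
      right
      have h1 : C.S.ord Q (C.emb x) = 0 :=
        hT (C.emb x) (Finset.mem_image_of_mem _ (Finset.mem_coe.1 hx)) Q hQ
      rw [h1]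
    | zero => exact Or.inl (map_zero _)
    | one =>
      right
      have h1 : C.S.ord Q 1 = 0 := C.S.toV.ord_one Q
      rw [map_one, h1]
    | add x y _ _ hx hy =>
      rw [map_add]
      exact C.S.toV.ord_add_ge Q hx hy
    | neg x _ hx =>
      have h1 : C.S.ord Q (-C.emb x) = C.S.ord Q (C.emb x) := C.S.toV.ord_neg Q _
      rw [map_neg, h1, neg_eq_zero]
      exact hx
    | mul x y _ _ hx hy =>
      rw [map_mul]
      by_cases hx0 : C.emb x = 0
      · left
        rw [hx0, zero_mul]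
      · by_cases hy0 : C.emb y = 0
        · left
          rw [hy0, mul_zero]
        · right
          rw [C.S.ord_mul Q hx0 hy0]
          have h1 := hx.resolve_left hx0
          have h2 := hy.resolve_left hy0
          omega
  have hσ0 : C.emb σ ≠ 0 := by
    intro h
    rw [h, C.S.ord_zero] at hσ
    exact lt_irrefl _ hσ
  have h1 : C.S.ord Q (C.emb σ + C.emb c) = C.S.ord Q (C.emb σ) := by
    refine (C.S.toV.ord_add_eq Q hσ0 ?_).2
    rcases hcl with h | h
    · exact Or.inl h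
    · right
      exact lt_of_lt_of_le hσ h
  intro hA
  have h2 : Alg (C.emb (c + σ)) := (alg_map C.emb).2 hA
  have h3 := C.S.const' h2 Q
  rw [map_add, add_comm, h1] at h3
  omega

/-- For `b ≠ 0` there is a place where `b` has order `0`, and an element `w` whose order generates
the group of the orders of the elements of `K`. -/
theorem exists_gen (C : Chart P) (hd : 0 < P.d) {b : K} (hb : b ≠ 0) :
    ∃ (Q : C.S.I) (w : K), w ≠ 0 ∧ C.S.ord Q (C.emb b) = 0 ∧ 0 < C.S.ord Q (C.emb w) ∧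
      ∀ u : K, u ≠ 0 → C.S.ord Q (C.emb w) ∣ C.S.ord Q (C.emb u) := by
  classical
  have _hb := hb
  obtain ⟨T, hT⟩ := C.S.toV.exists_finset {C.emb b}
  obtain ⟨Q, hQ, u0, hu0⟩ := exists_place C hd T
  have hb0 : C.S.ord Q (C.emb b) = 0 := hT (C.emb b) (Finset.mem_singleton_self _) Q hQ
  have emb0 : ∀ {u : K}, u ≠ 0 → C.emb u ≠ 0 := fun hu h => hu ((map_eq_zero C.emb).1 h)
  let H : AddSubgroup ℤ :=
    { carrier := {a | ∃ u : K, u ≠ 0 ∧ C.S.ord Q (C.emb u) = a}
      zero_mem' := ⟨1, one_ne_zero, by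
        have h1 : C.S.ord Q 1 = 0 := C.S.toV.ord_one Q
        rw [map_one, h1]⟩
      add_mem' := by
        rintro a c ⟨u, hu, rfl⟩ ⟨v, hv, rfl⟩
        exact ⟨u * v, mul_ne_zero hu hv, by rw [map_mul, C.S.ord_mul Q (emb0 hu) (emb0 hv)]⟩
      neg_mem' := by
        rintro a ⟨u, hu, rfl⟩
        have h1 : C.S.ord Q (C.emb u)⁻¹ = -C.S.ord Q (C.emb u) := C.S.toV.ord_inv Q _
        exact ⟨u⁻¹, inv_ne_zero hu, by rw [map_inv₀, h1]⟩ }
  have hmem : ∀ a, a ∈ H ↔ ∃ u : K, u ≠ 0 ∧ C.S.ord Q (C.emb u) = a := fun a => Iff.rfl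
  obtain ⟨a, ha⟩ := Int.subgroup_cyclic H
  have hu00 : u0 ≠ 0 := by
    rintro rfl
    rw [map_zero, C.S.ord_zero] at hu0
    exact lt_irrefl _ hu0
  have hdvd : ∀ c, c ∈ H → a ∣ c := by
    intro c hc
    rw [ha, AddSubgroup.mem_closure_singleton] at hc
    obtain ⟨n, hn⟩ := hc
    rw [← hn, smul_eq_mul]
    exact Dvd.intro_left n rfl
  have haH : a ∈ H := by
    rw [ha]
    exact AddSubgroup.subset_closure (Set.mem_singleton a)
  have ha0 : a ≠ 0 := by
    intro h0
    have h1 := hdvd _ ((hmem _).2 ⟨u0, hu00, rfl⟩)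
    rw [h0, zero_dvd_iff] at h1
    omega
  rcases lt_or_gt_of_ne ha0 with hneg | hpos
  · obtain ⟨w, hw, hwa⟩ := (hmem _).1 (H.neg_mem haH)
    refine ⟨Q, w, hw, hb0, by rw [hwa]; omega, fun u hu => ?_⟩
    rw [hwa, neg_dvd]
    exact hdvd _ ((hmem _).2 ⟨u, hu, rfl⟩)
  · obtain ⟨w, hw, hwa⟩ := (hmem _).1 haH
    refine ⟨Q, w, hw, hb0, by rw [hwa]; omega, fun u hu => ?_⟩
    rw [hwa]
    exact hdvd _ ((hmem _).2 ⟨u, hu, rfl⟩)

end UD0
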