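import Mathlib

/-!
# UD0, coding R: Chinese remainders modulo powers

PROOFS.
* `coprime_moduli`: let `r` be a prime dividing both; `r ∣ (j + 1) (1 + (i + 1) D) -
  (i + 1) (1 + (j + 1) D) = j - i` (as integers), `0 < |j - i| < n`, so `r ≤ n - 1`, `r ∣ n !`,
  `r ∣ D`, `r ∣ 1`.  (`Nat.Coprime` via `Nat.coprime_of_dvd` or `Nat.Prime.not_coprime_iff_dvd`.)
* `crt`: as `crt_aux` in `Pool/Agent/UDV/CodeA.lean` (private there, copy it): choose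
  `e_j ≥ 1`, `e_j = 1 + N_j q_j`, `N_i ∣ e_j` for `i ≠ j`; `b = ∏ y_j ^ e_j = y_j * t_j ^ N_j`, so for
  `w ≠ 0`: `y_j = z ^ N_j * (b * w ^ ∏ N_i)` with `z = t_j⁻¹ * (w ^ (∏_{i ≠ j} N_i))⁻¹`.
* `dvd_of_prim`: let `g = gcd q m`, `q = g q₁`, `m = g m₁` coprime.  Suppose `m₁ ≠ 1`, let `r` be a
  prime factor, `m₁ = r m₂`; `r` is coprime to `q₁`, `s q₁ + t r = 1` in `ℤ`
  (`Nat.gcd_eq_gcd_ab`).  With `u = v ^ (m₂ s) * β ^ t` (integer exponents, `zpow`):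
  `β / u ^ r = (β ^ q₁ / v ^ m₁) ^ s`, and `(β ^ q₁ / v ^ m₁) ^ (g e) = 1`.  So
  `(β / u ^ r) ^ (g e) = 1`, contradiction.  So `m = g ∣ q`.
-/

namespace UD0

universe u

theorem coprime_moduli {n D i j : ℕ} (hD : n.factorial ∣ D) (hi : i < n) (hj : j < n)
    (hij : i ≠ j) : Nat.Coprime (1 + (i + 1) * D) (1 + (j + 1) * D) := by
  by_contra hc
  obtain ⟨r, hr, h1, h2⟩ := Nat.Prime.not_coprime_iff_dvd.1 hc
  have h3 : (r : ℤ) ∣ (j : ℤ) - i := by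
    have h1' : (r : ℤ) ∣ 1 + ((i : ℤ) + 1) * D := by exact_mod_cast h1
    have h2' : (r : ℤ) ∣ 1 + ((j : ℤ) + 1) * D := by exact_mod_cast h2
    have e : (j : ℤ) - i = (1 + ((i : ℤ) + 1) * D) * (j + 1) - (1 + ((j : ℤ) + 1) * D) * (i + 1) := by
      ring
    rw [e]
    exact dvd_sub (h1'.mul_right _) (h2'.mul_right _)
  have h4 : r ≤ n := by
    rcases Nat.lt_or_gt_of_ne hij with h | h
    · have h5 := Int.le_of_dvd (by omega) h3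
      omega
    · have h5 : (r : ℤ) ∣ (i : ℤ) - j := by
        have := (dvd_neg (α := ℤ)).2 h3
        rwa [neg_sub] at this
      have h6 := Int.le_of_dvd (by omega) h5
      omega
  have h5 : r ∣ D := ((Nat.Prime.dvd_factorial hr).2 h4).trans hD
  have h6 : r ∣ 1 := (Nat.dvd_add_left (h5.mul_left (i + 1))).1 h1
  exact hr.one_lt.ne' (Nat.dvd_one.1 h6)

variable {K : Type u} [Field K]

private theorem crt_aux {m : ℕ} (N : Fin m → ℕ) (hN1 : ∀ i, 1 ≤ N i)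
    (hN : ∀ i j, i ≠ j → Nat.Coprime (N i) (N j)) (y : Fin m → K) (hy : ∀ i, y i ≠ 0) :
    ∃ b : K, b ≠ 0 ∧ ∀ j, ∃ z, z ≠ 0 ∧ b = y j * z ^ N j := by
  classical
  have he : ∀ j, ∃ e : ℕ, (∃ q, e = N j * q + 1) ∧ ∀ i, i ≠ j → N i ∣ e := by
    intro j
    have hc : Nat.Coprime (N j) (∏ i ∈ Finset.univ.erase j, N i) :=
      Nat.Coprime.prod_right fun i hi => hN j i (Finset.ne_of_mem_erase hi).symm
    obtain ⟨e, he1, he2⟩ := Nat.chineseRemainder hc 1 0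
    have hdall : ∀ i, N i ∣ ∏ i, N i := fun i => Finset.dvd_prod_of_mem N (Finset.mem_univ i)
    have hpos : 1 ≤ ∏ i, N i := Nat.one_le_iff_ne_zero.2
      (Finset.prod_ne_zero_iff.2 fun i _ => by have := hN1 i; omega)
    refine ⟨e + ∏ i, N i, ?_, ?_⟩
    · have h1 : e + ∏ i, N i ≡ 1 [MOD N j] := by
        have h2 : ∏ i, N i ≡ 0 [MOD N j] := (Nat.modEq_zero_iff_dvd).2 (hdall j)
        exact Nat.ModEq.add he1 h2
      have h3 := (Nat.modEq_iff_dvd' (show 1 ≤ e + ∏ i, N i by omega)).1 h1.symm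
      obtain ⟨q, hq⟩ := h3
      exact ⟨q, by omega⟩
    · intro i hi
      refine dvd_add ?_ (hdall i)
      exact (Finset.dvd_prod_of_mem N (Finset.mem_erase.2 ⟨hi, Finset.mem_univ i⟩)).trans
        ((Nat.modEq_zero_iff_dvd).1 he2)
  choose e he1 he2 using he
  refine ⟨∏ i, y i ^ e i, Finset.prod_ne_zero_iff.2 fun i _ => pow_ne_zero _ (hy i), fun j => ?_⟩
  obtain ⟨q, hq⟩ := he1 j
  have h2 : ∀ i, i ≠ j → ∃ r, e i = N j * r := fun i hi => he2 i j hi.symm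
  choose! r hr using h2
  refine ⟨y j ^ q * ∏ i ∈ Finset.univ.erase j, y i ^ r i, ?_, ?_⟩
  · exact mul_ne_zero (pow_ne_zero _ (hy j))
      (Finset.prod_ne_zero_iff.2 fun i _ => pow_ne_zero _ (hy i))
  · rw [← Finset.mul_prod_erase Finset.univ (fun i => y i ^ e i) (Finset.mem_univ j), mul_pow,
      ← Finset.prod_pow, hq, pow_succ, ← pow_mul, mul_comm q, mul_comm (y j ^ (N j * q)) (y j),
      mul_assoc]
    congr 2
    refine Finset.prod_congr rfl fun i hi => ?_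
    rw [hr i (Finset.ne_of_mem_erase hi), ← pow_mul, mul_comm (r i)]

theorem crt {m : ℕ} (N : Fin m → ℕ) (hN1 : ∀ i, 1 ≤ N i)
    (hN : ∀ i j, i ≠ j → Nat.Coprime (N i) (N j)) (y : Fin m → K) (hy : ∀ i, y i ≠ 0) :
    ∃ b : K, b ≠ 0 ∧ ∀ w : K, w ≠ 0 → ∀ j, ∃ z : K, z ≠ 0 ∧ y j = z ^ N j * (b * w ^ ∏ i, N i) := by
  obtain ⟨b, hb, h⟩ := crt_aux N hN1 hN y hy
  refine ⟨b, hb, fun w hw j => ?_⟩
  obtain ⟨z, hz, hbz⟩ := h j
  obtain ⟨q, hq⟩ := Finset.dvd_prod_of_mem N (Finset.mem_univ j)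
  refine ⟨(z * w ^ q)⁻¹, inv_ne_zero (mul_ne_zero hz (pow_ne_zero _ hw)), ?_⟩
  have h1 : w ^ (N j * q) ≠ 0 := pow_ne_zero _ hw
  have h2 : z ^ N j ≠ 0 := pow_ne_zero _ hz
  rw [hq, inv_pow, mul_pow, ← pow_mul, mul_comm q, hbz]
  field_simp

/-- If `β` is not an `r`-th power up to torsion, for all primes `r`, then exponents `m` with
`β ^ q = v ^ m` up to torsion divide `q`. -/
theorem dvd_of_prim {β v : K} (hβ : β ≠ 0) (hv : v ≠ 0)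
    (hp : ∀ r : ℕ, r.Prime → ∀ u : K, u ≠ 0 → ∀ e : ℕ, 0 < e → (β / u ^ r) ^ e ≠ 1)
    {q m e : ℕ} (hq : 0 < q) (hm : 0 < m) (he : 0 < e) (h : (β ^ q / v ^ m) ^ e = 1) : m ∣ q := by
  have hg : 0 < Nat.gcd q m := Nat.gcd_pos_of_pos_left _ hq
  obtain ⟨q₁, m₁, hcop, hq1, hm1⟩ := Nat.exists_coprime q m
  by_contra hdvd
  have hm1' : m₁ ≠ 1 := by
    rintro rfl
    rw [one_mul] at hm1
    exact hdvd (hm1 ▸ Nat.gcd_dvd_left q m)
  obtain ⟨r, hr, m₂, hm2⟩ := Nat.exists_prime_and_dvd hm1'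
  have hc : Nat.Coprime q₁ r := Nat.Coprime.coprime_dvd_right ⟨m₂, hm2⟩ hcop
  have hbez : (q₁ : ℤ) * Nat.gcdA q₁ r + r * Nat.gcdB q₁ r = 1 := by
    have := Nat.gcd_eq_gcd_ab q₁ r
    rw [hc] at this
    exact_mod_cast this.symm
  set s : ℤ := Nat.gcdA q₁ r with hs
  set t : ℤ := Nat.gcdB q₁ r with ht
  have hu : v ^ ((m₂ : ℤ) * s) * β ^ t ≠ 0 := mul_ne_zero (zpow_ne_zero _ hv) (zpow_ne_zero _ hβ)
  have key : β / (v ^ ((m₂ : ℤ) * s) * β ^ t) ^ r = (β ^ q₁ / v ^ m₁) ^ s := by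
    have e1 : (v ^ ((m₂ : ℤ) * s) * β ^ t) ^ r = v ^ ((m₁ : ℤ) * s) * β ^ ((r : ℤ) * t) := by
      rw [mul_pow, ← zpow_natCast, ← zpow_natCast, ← zpow_mul, ← zpow_mul, hm2]
      congr 2
      · push_cast
        ring
      · ring
    have e2 : (β ^ q₁ / v ^ m₁) ^ s = β ^ ((q₁ : ℤ) * s) / v ^ ((m₁ : ℤ) * s) := by
      rw [div_zpow, ← zpow_natCast, ← zpow_natCast, ← zpow_mul, ← zpow_mul]
    have e3 : β = β ^ ((q₁ : ℤ) * s) * β ^ ((r : ℤ) * t) := by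
      rw [← zpow_add₀ hβ, hbez, zpow_one]
    rw [e1, e2]
    have h1 : v ^ ((m₁ : ℤ) * s) ≠ 0 := zpow_ne_zero _ hv
    have h2 : β ^ ((r : ℤ) * t) ≠ 0 := zpow_ne_zero _ hβ
    rw [div_eq_div_iff (mul_ne_zero h1 h2) h1]
    nth_rewrite 1 [e3]
    ring
  have hone : (β ^ q₁ / v ^ m₁) ^ (Nat.gcd q m * e) = 1 := by
    rw [pow_mul, div_pow, ← pow_mul, ← pow_mul, ← hq1, ← hm1]
    exact h
  refine hp r hr _ hu (Nat.gcd q m * e) (Nat.mul_pos hg he) ?_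
  rw [key, ← zpow_natCast, ← zpow_mul, mul_comm, zpow_mul, zpow_natCast, hone, one_zpow]

end UD0
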