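import Pool.Agent.UD0.CodN
import Pool.Agent.UD0.CodR
import Pool.Agent.UD0.CodP

/-!
# UD0, coding T: one parameter for six elements

PROOF of `tup_exists`.  Let `y : Fin 12 → K`, `y (2 j) = x j`, `y (2 j + 1) = 1 - x j` (for `i : Fin 12`
put `y i = if i % 2 = 0 then x ⟨i / 2, _⟩ else 1 - x ⟨i / 2, _⟩`); all `y i` are nonconstant.
Let `M ≥ 12` be at least the numbers of `ent_unique` for the `x j`, the numbers `n₀` of `decode` for
the `x j`, and `deg (emb (y i))` (`toNat`); `q = M !`, `q ≥ M` (`Nat.self_le_factorial`), `12 ! ∣ q`.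
`N i = 1 + (i + 1) q`, pairwise coprime (`coprime_moduli`, `n = 12`), `N i ≥ q`.  `crt` gives `b`;
`exists_gen` for `b` gives `Q`, `w`, `γ = ord Q w > 0`.  `β = b * w ^ ∏ N`, so
`y i = z_i ^ N i * β`, `z_i ≠ 0`, and `ord Q β = (∏ N) * γ > 0`.
(1) `β` is not an `r`-th power up to torsion: if `(β / v ^ r) ^ e = 1` then `ord P β = r * ord P v` for
all `P` (`ord_torsion`).  At `Q`: `γ ∣ ord Q v`, so `r ∣ ∏ N`, so `r ∣ N i` for some `i`
(`Prime.dvd_finsetProd_iff`).  `ord P (y i) = N i * ord P z_i + r * ord P v` is divisible by `r` for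
all `P`; `y i` is nonconstant, so `ord P (y i) ≠ 0` for some `P`, `r ≤ |ord P (y i)| ≤ deg ≤ M`, so
`r ∣ M ! = q`, `r ∣ N i - (i + 1) q = 1`: contradiction.
(2) `a = β ^ q`.  `Root a q β`: `Nn q` (`Nn.iff`), `W β q a` (`h.pw`); if `Nn q'`, `β' ≠ 0`,
`W β' q' a` then `q' = m` natural and `(β ^ q / β' ^ m) ^ e = 1` (`h.pw'`); `m = 0` or `m ∣ q` by
`dvd_of_prim`, so `m ≤ q`, `nn_sub`.
(3) `Cd β q j (x j)`: `cg_of_pow` for `i = 2 j`, `i = 2 j + 1` (`push_cast` for the moduli: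
`1 + ((2 * j + 1 : ℕ) : K) * (q : K) = ((1 + (2 * j + 1) * q : ℕ) : K)`).
(4) Let `Root a q' β'`.  `q' = m` natural, as in (2) `m ≤ q`; the maximality in `Root a q' β'` for
`(q, β)` gives `q ≤ m`.  So `q' = q`, and `(β ^ q / β' ^ q) ^ e = 1` gives `ord P β = ord P β'` for all
`P` (`ord_torsion` for the powers, `ord_pow`, `q > 0`).  If `Cd β' q j y` then, by `cg_ord`,
`ord y = ord β' = ord β = ord (x j)` modulo `N`, the same for `1 - y`, `1 - x j`, and `decode` gives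
`y = x j`.
-/

open Polynomial

namespace UD0

universe u

variable {K : Type u} [Field K] [CharZero K] {P : Pres K} {Z : K → Prop} {W : K → K → K → Prop}

private theorem emb_ne (C : Chart P) {x : K} (hx : x ≠ 0) : C.emb x ≠ 0 := (map_ne_zero C.emb).2 hx

private theorem ord_mul' (C : Chart P) (Q : C.S.I) {x y : K} (hx : x ≠ 0) (hy : y ≠ 0) :
    C.S.ord Q (C.emb (x * y)) = C.S.ord Q (C.emb x) + C.S.ord Q (C.emb y) := by
  rw [map_mul, C.S.ord_mul Q (emb_ne C hx) (emb_ne C hy)]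

private theorem ord_pow' (C : Chart P) (Q : C.S.I) (x : K) (n : ℕ) :
    C.S.ord Q (C.emb (x ^ n)) = n * C.S.ord Q (C.emb x) := by
  rw [map_pow]
  exact C.S.toV.ord_pow Q _ n

/-- A number `β` adapted to the given elements. -/
theorem exists_beta (C : Chart P) (hd : 0 < P.d) (y : Fin 12 → K) (hy : ∀ i, ¬ Alg (y i)) (M₀ : ℕ) :
    ∃ (q : ℕ) (β : K), M₀ ≤ q ∧ 0 < q ∧ β ≠ 0 ∧
      (∀ i : Fin 12, ∃ z : K, z ≠ 0 ∧ y i = z ^ (1 + (i + 1) * q : ℕ) * β) ∧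
      ∀ r : ℕ, r.Prime → ∀ v : K, v ≠ 0 → ∀ e : ℕ, 0 < e → (β / v ^ r) ^ e ≠ 1 := by
  classical
  have _ : CharZero C.L := charZero_of_injective_ringHom C.emb.injective
  obtain ⟨M, hM⟩ : ∃ M : ℕ, M = M₀ + 12 + ∑ i, (C.S.toV.deg (C.emb (y i))).toNat := ⟨_, rfl⟩
  have hM12 : 12 ≤ M := by omega
  have hMd : ∀ i, C.S.toV.deg (C.emb (y i)) ≤ (M : ℤ) := by
    intro i
    have h1 : (C.S.toV.deg (C.emb (y i))).toNat ≤ ∑ i, (C.S.toV.deg (C.emb (y i))).toNat :=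
      Finset.single_le_sum (f := fun i => (C.S.toV.deg (C.emb (y i))).toNat)
        (fun _ _ => Nat.zero_le _) (Finset.mem_univ i)
    have h2 := Int.self_le_toNat (C.S.toV.deg (C.emb (y i)))
    omega
  have hq0 : 0 < M.factorial := Nat.factorial_pos M
  have hq12 : (12).factorial ∣ M.factorial := Nat.factorial_dvd_factorial hM12
  obtain ⟨q, hq⟩ : ∃ q, q = M.factorial := ⟨_, rfl⟩
  rw [← hq] at hq0 hq12
  have hMq : M ≤ q := by
    rw [hq]
    exact Nat.self_le_factorial M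
  obtain ⟨b, hb, hbw⟩ := crt (K := K) (fun i : Fin 12 => 1 + ((i : ℕ) + 1) * q)
    (fun i => by omega)
    (fun i j hij => coprime_moduli hq12 i.2 j.2 fun h => hij (Fin.ext h)) y
    (fun i => ne_zero_of_nc (hy i))
  obtain ⟨Q, w, hw, hQb, hQw, hgen⟩ := exists_gen C hd hb
  obtain ⟨NN, hNN⟩ : ∃ NN : ℕ, NN = ∏ i : Fin 12, (1 + ((i : ℕ) + 1) * q) := ⟨_, rfl⟩
  have hNN0 : 0 < NN := by
    rw [hNN]
    exact Finset.prod_pos fun i _ => by omega
  have hβ0 : b * w ^ NN ≠ 0 := mul_ne_zero hb (pow_ne_zero _ hw)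
  have hyz := hbw w hw
  rw [← hNN] at hyz
  have hQβ : C.S.ord Q (C.emb (b * w ^ NN)) = NN * C.S.ord Q (C.emb w) := by
    rw [ord_mul' C Q hb (pow_ne_zero _ hw), ord_pow', hQb, zero_add]
  refine ⟨q, b * w ^ NN, by omega, hq0, hβ0, hyz, ?_⟩
  intro r hr v hv e he h
  have ho : ∀ R : C.S.I, C.S.ord R (C.emb (b * w ^ NN)) = r * C.S.ord R (C.emb v) := by
    intro R
    rw [ord_torsion C hβ0 (pow_ne_zero _ hv) he h R, ord_pow']
  have h1 := ho Q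
  obtain ⟨k, hk⟩ := hgen v hv
  rw [hQβ, hk] at h1
  have h2 : (NN : ℤ) = r * k := by
    have h3 : (NN : ℤ) * C.S.ord Q (C.emb w) = (r * k) * C.S.ord Q (C.emb w) := by
      rw [h1]
      ring
    exact mul_right_cancel₀ hQw.ne' h3
  have h3 : r ∣ NN := Int.natCast_dvd_natCast.1 ⟨k, h2⟩
  rw [hNN, Prime.dvd_finsetProd_iff hr.prime] at h3
  obtain ⟨i, -, hi⟩ := h3
  obtain ⟨z, hz, hyi⟩ := hyz i
  obtain ⟨R, hR⟩ := C.S.exists_ord_ne (x := C.emb (y i)) (fun h => hy i ((alg_map C.emb).1 h))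
  have h4 : (r : ℤ) ∣ C.S.ord R (C.emb (y i)) := by
    rw [hyi, ord_mul' C R (pow_ne_zero _ hz) hβ0, ord_pow', ho R]
    exact dvd_add (Dvd.dvd.mul_right (Int.natCast_dvd_natCast.2 hi) _) (dvd_mul_right _ _)
  have h5 : (r : ℤ) ≤ |C.S.ord R (C.emb (y i))| :=
    Int.le_of_dvd (abs_pos.2 hR) ((dvd_abs _ _).2 h4)
  have h6 : |C.S.ord R (C.emb (y i))| ≤ C.S.toV.deg (C.emb (y i)) := C.S.toV.abs_ord_le R _
  have h7 := hMd i
  have h8 : r ≤ M := by omega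
  have h9 : r ∣ q := by
    rw [hq]
    exact Nat.dvd_factorial hr.pos h8
  have h10 : r ∣ 1 := by
    have h11 : r ∣ ((i : ℕ) + 1) * q := Dvd.dvd.mul_left h9 _
    exact (Nat.dvd_add_left h11).1 hi
  exact hr.one_lt.ne' (Nat.dvd_one.1 h10)

theorem tup_exists (h : Inp Z W) (C : Chart P) (hd : 0 < P.d) (x : Fin 6 → K)
    (hx : ∀ j, ¬ Alg (x j)) :
    ∃ a : K, (∃ q β : K, Root Z W a q β ∧ ∀ j : Fin 6, Cd W β q j (x j)) ∧
      ∀ q' β' : K, Root Z W a q' β' → ∀ (j : Fin 6) (y : K), Cd W β' q' j y → y = x j := by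
  classical
  choose n₀ hn₀ using fun j : Fin 6 => decode C (hx j)
  obtain ⟨y, hyd⟩ : ∃ y : Fin 12 → K, y = fun i : Fin 12 =>
      if (i : ℕ) % 2 = 0 then x ⟨(i : ℕ) / 2, by omega⟩ else 1 - x ⟨(i : ℕ) / 2, by omega⟩ :=
    ⟨_, rfl⟩
  have hy0 : ∀ j : Fin 6, y ⟨2 * (j : ℕ), by omega⟩ = x j := by
    intro j
    rw [hyd]
    have e1 : (2 * (j : ℕ)) % 2 = 0 := by omega
    have e2 : (2 * (j : ℕ)) / 2 = j := by omega
    simp only [e1, if_true]
    congr 1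
    exact Fin.ext e2
  have hy1 : ∀ j : Fin 6, y ⟨2 * (j : ℕ) + 1, by omega⟩ = 1 - x j := by
    intro j
    rw [hyd]
    have e1 : ¬ (2 * (j : ℕ) + 1) % 2 = 0 := by omega
    have e2 : (2 * (j : ℕ) + 1) / 2 = j := by omega
    simp only [e1, if_false]
    congr 2
    exact Fin.ext e2
  have hyn : ∀ i, ¬ Alg (y i) := by
    intro i
    rw [hyd]
    simp only
    split_ifs
    · exact hx _
    · exact one_sub_nc (hx _)
  obtain ⟨q, β, hMq, hq0, hβ0, hyz, hprim⟩ := exists_beta C hd y hyn (∑ j, n₀ j)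
  have hnq : ∀ j, n₀ j ≤ q := fun j =>
    (Finset.single_le_sum (f := n₀) (fun _ _ => Nat.zero_le _) (Finset.mem_univ j)).trans hMq
  -- exponents
  have hexp : ∀ (m : ℕ) (β' : K), β' ≠ 0 → W β' (m : K) (β ^ q) → m ≤ q := by
    intro m β' hβ' hW
    rcases Nat.eq_zero_or_pos m with hm | hm
    · omega
    · obtain ⟨e, he, h1⟩ := h.pw' β' (β ^ q) m hβ' hW
      exact Nat.le_of_dvd hq0 (dvd_of_prim hβ0 hβ' hprim hq0 hm he h1)
  -- the moduli
  have hc1 : ∀ (t : ℕ) (j : ℕ), 1 + ((2 * j + 1 : ℕ) : K) * (t : K) =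
      ((1 + (2 * j + 1) * t : ℕ) : K) := by
    intro t j
    push_cast
    ring
  have hc2 : ∀ (t : ℕ) (j : ℕ), 1 + ((2 * j + 2 : ℕ) : K) * (t : K) =
      ((1 + (2 * j + 2) * t : ℕ) : K) := by
    intro t j
    push_cast
    ring
  refine ⟨β ^ q, ⟨(q : K), β, ⟨(Nn.iff h).2 ⟨q, rfl⟩, hβ0, h.pw β q hβ0, ?_⟩, ?_⟩, ?_⟩
  · intro q' β' hq' hβ' hW
    obtain ⟨m, rfl⟩ := (Nn.iff h).1 hq'
    exact (nn_sub h).2 (hexp m β' hβ' hW)
  · intro j
    unfold Cd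
    rw [hc1, hc2]
    refine ⟨ne_zero_of_nc (hx j), ne_one_of_nc (hx j), ?_, ?_⟩
    · obtain ⟨z, hz, hzy⟩ := hyz ⟨2 * (j : ℕ), by omega⟩
      rw [hy0] at hzy
      exact cg_of_pow h hz hzy
    · obtain ⟨z, hz, hzy⟩ := hyz ⟨2 * (j : ℕ) + 1, by omega⟩
      rw [hy1] at hzy
      exact cg_of_pow h hz hzy
  · rintro q' β' ⟨hq', hβ', hW, hmax⟩ j y' hcd
    obtain ⟨m, rfl⟩ := (Nn.iff h).1 hq'
    have h1 := hexp m β' hβ' hW
    have h2 := (nn_sub h).1 (hmax (q : K) β ((Nn.iff h).2 ⟨q, rfl⟩) hβ0 (h.pw β q hβ0))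
    have hmq : m = q := by omega
    subst hmq
    obtain ⟨e, he, h3⟩ := h.pw' β' (β ^ m) m hβ' hW
    have h4 : ∀ R : C.S.I, C.S.ord R (C.emb β') = C.S.ord R (C.emb β) := by
      intro R
      have h5 := ord_torsion C (pow_ne_zero _ hβ0) (pow_ne_zero _ hβ') he h3 R
      rw [ord_pow', ord_pow'] at h5
      have h6 : ((m : ℕ) : ℤ) ≠ 0 := by
        have := hq0.ne'
        exact_mod_cast this
      exact (mul_left_cancel₀ h6 h5).symm
    unfold Cd at hcd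
    rw [hc1, hc2] at hcd
    obtain ⟨k0, k1, k2, k3⟩ := hcd
    have hy'1 : (1 : K) - y' ≠ 0 := fun h => k1 (sub_eq_zero.1 h).symm
    refine hn₀ j (1 + (2 * (j : ℕ) + 1) * m) (1 + (2 * (j : ℕ) + 2) * m) ?_ ?_ y' (fun R => ?_)
      (fun R => ?_)
    · have := hnq j
      nlinarith
    · have := hnq j
      nlinarith
    · have e1 := cg_ord h C k0 k2 R
      obtain ⟨z, hz, hzy⟩ := hyz ⟨2 * (j : ℕ), by omega⟩
      rw [hy0] at hzy
      have e2 := cg_ord h C (ne_zero_of_nc (hx j)) (cg_of_pow h hz hzy) R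
      rw [h4] at e1
      have e3 := dvd_sub e1 e2
      rwa [sub_sub_sub_cancel_right] at e3
    · have e1 := cg_ord h C hy'1 k3 R
      obtain ⟨z, hz, hzy⟩ := hyz ⟨2 * (j : ℕ) + 1, by omega⟩
      rw [hy1] at hzy
      have e2 := cg_ord h C (ne_zero_of_nc (one_sub_nc (hx j))) (cg_of_pow h hz hzy) R
      rw [h4] at e1
      have e3 := dvd_sub e1 e2
      rwa [sub_sub_sub_cancel_right] at e3

end UD0
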