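import Pool.Agent.UD0.CodM
import Pool.Agent.UD0.CodT

/-!
# UD0, coding, main theorem

PROOF.  `σ` from `exists_sigma`; `A, B, D, n` from `gen_code`.  By `mem_sound` and `mem_complete`,
`Mem σ A B D n y ↔ y ∈ Subring.closure S`, so `Val σ π A B D n x` is the right side of `hO`.
`tup_exists` for the six elements `σ = 0 + σ`, `π + σ`, `A`, `B`, `D + σ`, `n + σ` (nonconstant, since
`0`, `π`, `D`, `n` are in the closure) gives `a`.
-/

open Polynomial

namespace UD0

universe u

variable {K : Type u} [Field K] [CharZero K] {P : Pres K} {Z : K → Prop} {W : K → K → K → Prop}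

theorem fnl_exists (h : Inp Z W) (C : Chart P) (hd : 0 < P.d) (S : Finset K) {π : K} (hπ : π ∈ S)
    (O : Set K)
    (hO : ∀ x : K, x ∈ O ↔ ∃ c ∈ Subring.closure (S : Set K),
      c * x ∈ Subring.closure (S : Set K) ∧ ∀ y ∈ Subring.closure (S : Set K), y * π ≠ c) :
    ∃ a : K, ∀ x : K, Fnl Z W x a ↔ x ∈ O := by
  obtain ⟨σ, hσ⟩ := exists_sigma C hd S
  obtain ⟨A, B, D, n, hA, hB, hgen⟩ := gen_code h C hd S hσ
  have hM : ∀ y, Mem Z W σ A B (D : K) (n : K) y ↔ y ∈ Subring.closure (S : Set K) := fun y =>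
    ⟨fun hy => mem_sound h hgen hy, fun hy => mem_complete h C hd hgen hσ hy⟩
  have hV : ∀ x, Val Z W σ π A B (D : K) (n : K) x ↔ x ∈ O := by
    intro x
    rw [hO]
    unfold Val
    simp only [hM]
    constructor
    · rintro ⟨c, hc, hcx, hn⟩
      exact ⟨c, hc, hcx, fun y hy h => hn ⟨y, hy, h⟩⟩
    · rintro ⟨c, hc, hcx, hn⟩
      exact ⟨c, hc, hcx, fun ⟨y, hy, h⟩ => hn y hy h⟩
  obtain ⟨a, ⟨q, β, hr, hcd⟩, huniq⟩ := tup_exists h C hd
    ![σ, π + σ, A, B, (D : K) + σ, (n : K) + σ] (by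
      intro j
      fin_cases j
      · have := hσ 0 (zero_mem _)
        rwa [zero_add] at this
      · exact hσ π (Subring.subset_closure (Finset.mem_coe.2 hπ))
      · exact hA
      · exact hB
      · exact hσ _ (natCast_mem _ D)
      · exact hσ _ (natCast_mem _ n))
  refine ⟨a, fun x => ?_⟩
  rw [← hV]
  constructor
  · rintro ⟨q', β', σ', π', A', B', D', n', h0, h1, h2, h3, h4, h5, h6, h7⟩
    have e1 := huniq q' β' h0 0 σ' h1
    have e2 := huniq q' β' h0 1 π' h2
    have e3 := huniq q' β' h0 2 A' h3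
    have e4 := huniq q' β' h0 3 B' h4
    have e5 := huniq q' β' h0 4 D' h5
    have e6 := huniq q' β' h0 5 n' h6
    simp only [Matrix.cons_val] at e1 e2 e3 e4 e5 e6
    rw [e1, e2, e3, e4, e5, e6] at h7
    simpa only [add_sub_cancel_right] using h7
  · intro h7
    refine ⟨q, β, σ, π + σ, A, B, (D : K) + σ, (n : K) + σ, hr, hcd 0, hcd 1, hcd 2, hcd 3,
      hcd 4, hcd 5, ?_⟩
    simpa only [add_sub_cancel_right] using h7

end UD0
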