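import Pool.Agent.UD0.CodC

/-!
# UD0, coding N: numbers, congruences modulo powers, uniqueness of entries

PROOFS.
* `Nn.iff`: `Nat.sum_four_squares` for `⇐`; for `⇒` the sum of squares of four integers is a
  nonnegative integer (`Int.toNat_of_nonneg`).
* `nn_sub`: `(m : K) - n` is a natural number iff `n ≤ m` (`Nn.iff`, casts are injective).
* `ix_iff`: from `Nn.iff`, `nn_sub`.
* `cg_of_pow`: `v = z`, `w = z ^ N`.
* `cg_ord`: `x = w y`, `W v N w`, so `(w / v ^ N) ^ e = 1`, `w ≠ 0` (as `x ≠ 0`), `y ≠ 0`;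
  `e * (ord w - N * ord v) = 0` (`ord_torsion`), `ord x = ord w + ord y`.
* `ord_torsion`: `C.S.ord_pow` etc. of `UDV.Deg` through `toV`; torsion elements are algebraic, so
  have order `0` by `const'`.
* `cg_ne`: clear (`x = w y`).
* `ent_unique`: `decode`: `ord x' - ord x = (ord x' - ord A) - (ord x - ord A)`.
-/

open Polynomial

namespace UD0

universe u

variable {K : Type u} [Field K] [CharZero K] {P : Pres K} {Z : K → Prop} {W : K → K → K → Prop}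

theorem Nn.iff (h : Inp Z W) {x : K} : Nn Z x ↔ ∃ n : ℕ, x = n := by
  constructor
  · rintro ⟨a, b, c, d, ha, hb, hc, hd, rfl⟩
    obtain ⟨a, rfl⟩ := (h.z a).1 ha
    obtain ⟨b, rfl⟩ := (h.z b).1 hb
    obtain ⟨c, rfl⟩ := (h.z c).1 hc
    obtain ⟨d, rfl⟩ := (h.z d).1 hd
    have h0 : 0 ≤ a * a + b * b + (c * c + d * d) :=
      add_nonneg (add_nonneg (mul_self_nonneg a) (mul_self_nonneg b))
        (add_nonneg (mul_self_nonneg c) (mul_self_nonneg d))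
    refine ⟨(a * a + b * b + (c * c + d * d)).toNat, ?_⟩
    have h1 : (((a * a + b * b + (c * c + d * d)).toNat : ℤ) : K) =
        ((a * a + b * b + (c * c + d * d) : ℤ) : K) := by rw [Int.toNat_of_nonneg h0]
    rw [Int.cast_natCast] at h1
    rw [h1]
    push_cast
    ring
  · rintro ⟨n, rfl⟩
    obtain ⟨a, b, c, d, e⟩ := Nat.sum_four_squares n
    refine ⟨a, b, c, d, (h.z _).2 ⟨a, by simp⟩, (h.z _).2 ⟨b, by simp⟩, (h.z _).2 ⟨c, by simp⟩,
      (h.z _).2 ⟨d, by simp⟩, ?_⟩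
    rw [← e]
    push_cast
    ring

theorem nn_sub (h : Inp Z W) {m n : ℕ} : Nn Z ((m : K) - n) ↔ n ≤ m := by
  rw [Nn.iff h]
  constructor
  · rintro ⟨l, hl⟩
    have h1 : ((m : ℕ) : K) = ((l + n : ℕ) : K) := by
      push_cast
      linear_combination hl
    have h2 := Nat.cast_injective h1
    omega
  · intro hmn
    exact ⟨m - n, by rw [Nat.cast_sub hmn]⟩

theorem ix_iff (h : Inp Z W) {n : ℕ} {i : K} : Ix Z (n : K) i ↔ ∃ m : ℕ, i = m ∧ 1 ≤ m ∧ m ≤ n := by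
  have h1 : ∀ m : ℕ, Nn Z ((m : K) - 1) ↔ 1 ≤ m := fun m => by
    have := nn_sub h (m := m) (n := 1)
    rwa [Nat.cast_one] at this
  constructor
  · rintro ⟨a, b, c⟩
    obtain ⟨m, rfl⟩ := (Nn.iff h).1 a
    exact ⟨m, rfl, (h1 m).1 b, (nn_sub h).1 c⟩
  · rintro ⟨m, rfl, a, b⟩
    exact ⟨(Nn.iff h).2 ⟨m, rfl⟩, (h1 m).2 a, (nn_sub h).2 b⟩

theorem ord_torsion (C : Chart P) {x y : K} (hx : x ≠ 0) (hy : y ≠ 0) {e : ℕ} (he : 0 < e)
    (h : (x / y) ^ e = 1) (Q : C.S.I) : C.S.ord Q (C.emb x) = C.S.ord Q (C.emb y) := by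
  have h1 : Alg (x / y) := alg_of_torsion he h
  have h2 := C.S.const' ((alg_map C.emb).2 h1) Q
  have h3 : x = x / y * y := (div_mul_cancel₀ x hy).symm
  have h4 : C.emb x = C.emb (x / y) * C.emb y := by rw [← map_mul, ← h3]
  rw [h4, C.S.ord_mul Q ((map_ne_zero C.emb).2 (div_ne_zero hx hy)) ((map_ne_zero C.emb).2 hy), h2,
    zero_add]

theorem cg_of_pow (h : Inp Z W) {N : ℕ} {x y z : K} (hz : z ≠ 0) (e : x = z ^ N * y) :
    Cg W (N : K) x y :=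
  ⟨z, z ^ N, hz, h.pw z N hz, e⟩

theorem cg_ord (h : Inp Z W) (C : Chart P) {N : ℕ} {x y : K} (hx : x ≠ 0)
    (hc : Cg W (N : K) x y) (Q : C.S.I) :
    (N : ℤ) ∣ C.S.ord Q (C.emb x) - C.S.ord Q (C.emb y) := by
  obtain ⟨v, w, hv, hW, rfl⟩ := hc
  have hw : w ≠ 0 := left_ne_zero_of_mul hx
  have hy : y ≠ 0 := right_ne_zero_of_mul hx
  obtain ⟨e, he, h1⟩ := h.pw' v w N hv hW
  have h2 := ord_torsion C hw (pow_ne_zero N hv) he h1 Q
  have h3 : C.S.ord Q (C.emb v ^ N) = N * C.S.ord Q (C.emb v) := C.S.toV.ord_pow Q (C.emb v) N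
  rw [map_mul, C.S.ord_mul Q ((map_ne_zero C.emb).2 hw) ((map_ne_zero C.emb).2 hy), h2, map_pow, h3]
  exact ⟨C.S.ord Q (C.emb v), by ring⟩

omit [CharZero K] in
theorem cg_ne {N x y : K} (hx : x ≠ 0) (hc : Cg W N x y) : y ≠ 0 := by
  obtain ⟨v, w, _, _, rfl⟩ := hc
  exact right_ne_zero_of_mul hx

/-- An entry at large moduli is unique. -/
theorem ent_unique (h : Inp Z W) (C : Chart P) {x : K} (hx : ¬ Alg x) :
    ∃ n₀ : ℕ, ∀ N N' : ℕ, n₀ ≤ N → n₀ ≤ N' → ∀ A B : K, Ent W A B (N : K) (N' : K) x →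
      ∀ x' : K, Ent W A B (N : K) (N' : K) x' → x' = x := by
  obtain ⟨n₀, hn₀⟩ := decode C hx
  refine ⟨n₀, fun N N' hN hN' A B hE x' hE' => hn₀ N N' hN hN' x' ?_ ?_⟩
  · intro Q
    have h1 := cg_ord h C hE.1 hE.2.2.1 Q
    have h2 := cg_ord h C hE'.1 hE'.2.2.1 Q
    have h3 := dvd_sub h2 h1
    rwa [sub_sub_sub_cancel_right] at h3
  · intro Q
    have h1 := cg_ord h C (sub_ne_zero.2 hE.2.1.symm) hE.2.2.2 Q
    have h2 := cg_ord h C (sub_ne_zero.2 hE'.2.1.symm) hE'.2.2.2 Q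
    have h3 := dvd_sub h2 h1
    rwa [sub_sub_sub_cancel_right] at h3

end UD0
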