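import Pool.Agent.UD0.CodN
import Pool.Agent.UD0.CodR
import Pool.Agent.UD0.CodP

/-!
# UD0, coding S: codes of finite sequences

PROOF of `seq_code`.  `n₀` = maximum of the numbers of `ent_unique` over the members of `l`
(`choose!`, `l.toFinset.sup`), `D₀ = max n₀ 1`.  Let `D` be given; the moduli
`N j = 1 + (j + 1) * D`, `j : Fin l.length`, are `≥ D ≥ n₀` and pairwise coprime (`coprime_moduli`).
`crt` for `y j = l[j]` (nonzero: `ne_zero_of_nc`) gives `b`, and for `y j = 1 - l[j]` gives `b'`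
(`one_sub_nc`).  `A = b * w ^ ∏ N`, `w = 1` if `b` is not algebraic, `w = g` (`exists_nc`) if `b` is
algebraic: then `A` is not algebraic (otherwise `g ^ ∏ N = A * b⁻¹` would be, `Alg.of_pow`, the
product is positive).  `B` in the same way from `b'`.  Entries: `cg_of_pow`; uniqueness:
`ent_unique`.
-/

open Polynomial

namespace UD0

universe u

variable {K : Type u} [Field K] [CharZero K] {P : Pres K} {Z : K → Prop} {W : K → K → K → Prop}

private theorem cs_nonalg (C : Chart P) (hd : 0 < P.d) {b : K} (hb : b ≠ 0) {M : ℕ} (hM : 0 < M) :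
    ∃ w : K, w ≠ 0 ∧ ¬ Alg (b * w ^ M) := by
  by_cases hA : Alg b
  · obtain ⟨g, hg⟩ := exists_nc C hd
    refine ⟨g, ne_zero_of_nc hg, fun h1 => hg ?_⟩
    have h2 : g ^ M = b * g ^ M * b⁻¹ := by field_simp
    have h3 : Alg (g ^ M) := by
      rw [h2]
      exact h1.mul hA.inv
    exact h3.of_pow hM
  · exact ⟨1, one_ne_zero, by rwa [one_pow, mul_one]⟩

private theorem cs_code (C : Chart P) (hd : 0 < P.d) {m : ℕ} (N : Fin m → ℕ) (hN1 : ∀ i, 1 ≤ N i)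
    (hN : ∀ i j, i ≠ j → Nat.Coprime (N i) (N j)) (y : Fin m → K) (hy : ∀ i, y i ≠ 0) :
    ∃ A : K, ¬ Alg A ∧ ∀ j, ∃ z : K, z ≠ 0 ∧ y j = z ^ N j * A := by
  obtain ⟨b, hb, h1⟩ := crt N hN1 hN y hy
  have hM : 0 < ∏ i, N i := Finset.prod_pos fun i _ => hN1 i
  obtain ⟨w, hw, h2⟩ := cs_nonalg C hd hb hM
  exact ⟨b * w ^ ∏ i, N i, h2, h1 w hw⟩

theorem seq_code (h : Inp Z W) (C : Chart P) (hd : 0 < P.d) (l : List K)
    (hl : ∀ y ∈ l, ¬ Alg y) :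
    ∃ D₀ : ℕ, ∀ D : ℕ, D₀ ≤ D → l.length.factorial ∣ D → ∃ A B : K, ¬ Alg A ∧ ¬ Alg B ∧
      ∀ (j : ℕ) (hj : j < l.length),
        Ent W A B ((1 + (j + 1) * D : ℕ) : K) ((1 + (j + 1) * D : ℕ) : K) l[j] ∧
        ∀ x' : K, Ent W A B ((1 + (j + 1) * D : ℕ) : K) ((1 + (j + 1) * D : ℕ) : K) x' →
          x' = l[j] := by
  classical
  have h0 : ∀ x : K, ∃ n₀ : ℕ, x ∈ l → ∀ N N' : ℕ, n₀ ≤ N → n₀ ≤ N' → ∀ A B : K,
      Ent W A B (N : K) (N' : K) x → ∀ x' : K, Ent W A B (N : K) (N' : K) x' → x' = x := by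
    intro x
    by_cases hx : x ∈ l
    · obtain ⟨n₀, hn₀⟩ := ent_unique h C (hl x hx)
      exact ⟨n₀, fun _ => hn₀⟩
    · exact ⟨0, fun h1 => absurd h1 hx⟩
  choose f hf using h0
  refine ⟨l.toFinset.sup f, fun D hD hfac => ?_⟩
  have hN1 : ∀ i : Fin l.length, 1 ≤ (fun j : Fin l.length => 1 + ((j : ℕ) + 1) * D) i := fun i =>
    Nat.le_add_right _ _
  have hN : ∀ i j : Fin l.length, i ≠ j → Nat.Coprime
      ((fun j : Fin l.length => 1 + ((j : ℕ) + 1) * D) i)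
      ((fun j : Fin l.length => 1 + ((j : ℕ) + 1) * D) j) := fun i j hij =>
    coprime_moduli hfac i.2 j.2 fun h1 => hij (Fin.ext h1)
  have hmem : ∀ (j : ℕ) (hj : j < l.length), l[j] ∈ l := fun j hj => List.getElem_mem hj
  obtain ⟨A, hA, hA1⟩ := cs_code C hd _ hN1 hN (fun j => l[j]) fun j => ne_zero_of_nc (hl _ (hmem _ j.2))
  obtain ⟨B, hB, hB1⟩ := cs_code C hd _ hN1 hN (fun j => 1 - l[j]) fun j =>
    ne_zero_of_nc (one_sub_nc (hl _ (hmem _ j.2)))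
  refine ⟨A, B, hA, hB, fun j hj => ?_⟩
  obtain ⟨z, hz, e⟩ := hA1 ⟨j, hj⟩
  obtain ⟨z', hz', e'⟩ := hB1 ⟨j, hj⟩
  have hE : Ent W A B ((1 + (j + 1) * D : ℕ) : K) ((1 + (j + 1) * D : ℕ) : K) l[j] :=
    ⟨ne_zero_of_nc (hl _ (hmem j hj)), ne_one_of_nc (hl _ (hmem j hj)), cg_of_pow h hz e,
      cg_of_pow h hz' e'⟩
  refine ⟨hE, fun x' hx' => ?_⟩
  have h1 : f l[j] ≤ l.toFinset.sup f := Finset.le_sup (List.mem_toFinset.2 (hmem j hj))
  have h2 : D ≤ 1 + (j + 1) * D := by nlinarith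
  exact hf _ (hmem j hj) _ _ (h1.trans (hD.trans h2)) (h1.trans (hD.trans h2)) A B hE x' hx'

end UD0
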