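import Pool.Agent.UD0.AlgF

/-!
# UD0: algebraic dependence on one element

`Dp z y`: `y` is algebraic over the field `ℚ(z)`.
PROOFS.  The elements algebraic over a subfield form a subfield (`IsAlgebraic.add`, ...).
* `indep_of_not_dp` : `z` transcendental over `ℚ` and `y` transcendental over `ℚ(z)`: then `z, y` are algebraically independent
  (over `ℚ`, so over `ℤ`): e.g. `algebraicIndependent_of_...`/`AlgebraicIndependent.insert`, `AlgebraicIndependent.option_iff`, or
  directly: a polynomial relation `P(z, y) = 0` over `ℤ`, viewed as a polynomial in `y` over `ℤ[z] ≅ ℤ[X]`.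
* `dp_poly` : clear denominators in an algebraic relation of `y` over `ℚ(z)` (the fraction field of `ℤ[z]`).
-/

set_option autoImplicit false

open Polynomial

namespace UD0

universe u

variable {K : Type u} [Field K] [CharZero K]

/-- `y` is algebraic over `ℚ(z)` -/
def Dp (z y : K) : Prop := IsAlgebraic (IntermediateField.adjoin ℚ ({z} : Set K)) y

theorem Dp.self (z : K) : Dp z z := by
  unfold Dp
  exact isAlgebraic_algebraMap
    (⟨z, IntermediateField.mem_adjoin_simple_self ℚ z⟩ : IntermediateField.adjoin ℚ ({z} : Set K))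

theorem Dp.of_alg {z y : K} (h : Alg y) : Dp z y := by
  unfold Dp
  exact IsAlgebraic.tower_top _ (alg_iff_rat.1 h)

theorem Dp.add {z x y : K} (hx : Dp z x) (hy : Dp z y) : Dp z (x + y) := by
  exact IsAlgebraic.add hx hy

theorem Dp.sub {z x y : K} (hx : Dp z x) (hy : Dp z y) : Dp z (x - y) := by
  exact IsAlgebraic.sub hx hy

theorem Dp.mul {z x y : K} (hx : Dp z x) (hy : Dp z y) : Dp z (x * y) := by
  exact IsAlgebraic.mul hx hy

theorem Dp.inv {z y : K} (hy : Dp z y) : Dp z y⁻¹ := by
  exact IsAlgebraic.inv hy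

theorem Dp.pow {z y : K} (hy : Dp z y) (n : ℕ) : Dp z (y ^ n) := by
  exact IsAlgebraic.pow hy n

theorem Dp.zpow {z y : K} (hy : Dp z y) (n : ℤ) : Dp z (y ^ n) := by
  cases n with
  | ofNat n => simpa using hy.pow n
  | negSucc n =>
    rw [zpow_negSucc]
    exact (hy.pow _).inv

theorem Dp.of_mul {z y : K} {c : K} (hc : c ≠ 0) (hca : Alg c) (hy : Dp (c * z) y) : Dp z y := by
  classical
  let F := IntermediateField.adjoin ℚ ({z} : Set K)
  let F' := IntermediateField.adjoin ℚ ({c * z} : Set K)
  let L : IntermediateField F K := algebraicClosure F K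
  have hmem : ∀ w : F', (w : K) ∈ L := by
    have h1 : F' ≤ L.restrictScalars ℚ := by
      rw [IntermediateField.adjoin_simple_le_iff]
      change c * z ∈ L
      rw [mem_algebraicClosure_iff]
      exact (Dp.of_alg (z := z) hca).mul (Dp.self z)
    intro w
    exact h1 w.2
  let j : F' →+* L := (algebraMap F' K).codRestrict L hmem
  let : Algebra F' L := j.toAlgebra
  have : IsScalarTower F' L K := IsScalarTower.of_algebraMap_eq fun _ => rfl
  have h2 : IsAlgebraic L y := IsAlgebraic.tower_top L hy
  exact IsAlgebraic.restrictScalars F h2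

private def eqv99 : Fin 2 ≃ Option Unit where
  toFun := ![some (), none]
  invFun o := o.elim 1 fun _ => 0
  left_inv i := by fin_cases i <;> rfl
  right_inv o := by
    cases o with
    | none => rfl
    | some u => rfl

omit [CharZero K] in
private theorem ai_iff99 {R : Type*} [CommRing R] [Algebra R K] {z y : K}
    (hz : Transcendental R z) :
    AlgebraicIndependent R ![z, y] ↔ Transcendental (Algebra.adjoin R ({z} : Set K)) y := by
  have h1 : AlgebraicIndependent R (fun _ : Unit => z) := algebraicIndependent_unique_type_iff.2 hz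
  have h2 := h1.option_iff_transcendental y
  rw [Set.range_const] at h2
  rw [← h2, ← algebraicIndependent_equiv eqv99]
  have h3 : ((fun o : Option Unit => o.elim y fun _ => z) ∘ eqv99) = ![z, y] := by
    funext i
    fin_cases i <;> rfl
  rw [h3]

private theorem ind_iff99 {z y : K} (hz : ¬ Alg z) :
    AlgebraicIndependent ℤ ![z, y] ↔ ¬ Dp z y := by
  have hzq : Transcendental ℚ z := fun h => hz (alg_iff_rat.2 h)
  have h1 : AlgebraicIndependent ℤ ![z, y] ↔ AlgebraicIndependent ℚ ![z, y] := by
    constructor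
    · intro h
      have : Algebra.IsAlgebraic ℤ ℚ := IsLocalization.isAlgebraic _ (nonZeroDivisors ℤ)
      exact h.extendScalars ℚ
    · intro h
      exact h.restrictScalars (RingHom.injective_int _)
  rw [h1, ai_iff99 hzq]
  unfold Dp Transcendental
  open scoped IntermediateField.algebraAdjoinAdjoin in
  rw [IsFractionRing.isAlgebraic_iff (Algebra.adjoin ℚ ({z} : Set K))
    (IntermediateField.adjoin ℚ ({z} : Set K)) K]

theorem indep_of_not_dp {z y : K} (hz : ¬ Alg z) (h : ¬ Dp z y) :
    AlgebraicIndependent ℤ ![z, y] := by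
  exact (ind_iff99 hz).2 h

theorem dp_poly {z y : K} (h : Dp z y) : ∃ H : ℤ[X][X], H ≠ 0 ∧
    (H.map (eval₂RingHom (Int.castRingHom K) z)).eval y = 0 ∧
      (¬ Alg z → H.map (eval₂RingHom (Int.castRingHom K) z) ≠ 0) := by
  by_cases hz : Alg z
  · obtain ⟨P, hP, hPz⟩ := hz
    refine ⟨C P, ?_, ?_, fun h => absurd ⟨P, hP, hPz⟩ h⟩
    · rwa [Ne, C_eq_zero]
    · rw [Polynomial.map_C, eval_C, coe_eval₂RingHom]
      rw [aeval_def] at hPz
      exact hPz
  · have h1 : ¬ AlgebraicIndependent ℤ ![z, y] := fun h2 => (ind_iff99 hz).1 h2 h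
    have hz' : Transcendental ℤ z := hz
    rw [ai_iff99 hz'] at h1
    unfold Transcendental at h1
    rw [not_not] at h1
    obtain ⟨p, hp, hpy⟩ := h1
    let ρ : ℤ[X] →+* Algebra.adjoin ℤ ({z} : Set K) :=
      ((aeval z : ℤ[X] →ₐ[ℤ] K) : ℤ[X] →+* K).codRestrict (Algebra.adjoin ℤ ({z} : Set K))
        (fun q => aeval_mem_adjoin_singleton ℤ z)
    have hρ : Function.Surjective ρ := by
      rintro ⟨a, ha⟩
      rw [Algebra.adjoin_singleton_eq_range_aeval] at ha
      obtain ⟨q, hq⟩ := ha
      exact ⟨q, Subtype.ext hq⟩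
    have hcomp : (algebraMap (Algebra.adjoin ℤ ({z} : Set K)) K).comp ρ =
        eval₂RingHom (Int.castRingHom K) z := by
      ext
      · simp
      · change aeval z X = _
        simp
    obtain ⟨H, hH⟩ := Polynomial.map_surjective ρ hρ p
    have hmap : H.map (eval₂RingHom (Int.castRingHom K) z) =
        p.map (algebraMap (Algebra.adjoin ℤ ({z} : Set K)) K) := by
      rw [← hcomp, ← Polynomial.map_map, hH]
    refine ⟨H, ?_, ?_, fun _ => ?_⟩
    · rintro rfl
      rw [Polynomial.map_zero] at hH
      exact hp hH.symm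
    · rw [hmap, eval_map, ← aeval_def]
      exact hpy
    · rw [hmap]
      intro h0
      apply hp
      apply Polynomial.map_injective (algebraMap (Algebra.adjoin ℤ ({z} : Set K)) K)
        Subtype.val_injective
      rw [h0, Polynomial.map_zero]

end UD0
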