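import Mathlib

/-!
# UD0: the derivation of power series in characteristic `p`

`d = PowerSeries.derivative F : Derivation F F⟦X⟧ F⟦X⟧`, characteristic `p`.
PROOFS.
* `d_iter_coeff` : `coeff n (d x) = coeff (n + 1) x * (n + 1)` (`PowerSeries.coeff_derivative`), induction on `k`:
  `coeff n (d^[k] x) = coeff (n + k) x * (n + 1) (n + 2) ... (n + k)` (`Nat.ascFactorial`).
* `d_p` : the product of `p` consecutive integers is divisible by `p`.
* `d_const_mul` : `d (c * x) = c * d x` if `d c = 0` (Leibniz), induction on `k`; `d_pow_p` : `d (x ^ p) = p x ^ (p-1) d x = 0`.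
* `der_id'` : `p ∤ j + 1`: `x ^ j * d x = C ((j + 1)⁻¹) * d (x ^ (j + 1))`, so the left side is
  `C ((j + 1)⁻¹) * d^[p] (x ^ (j + 1)) = 0`.
* `der_id` : put `Φ x = d^[p-1] (x ^ (p - 1) * d x) + (d x) ^ p`.
  (1) `Φ (x + y) = Φ x + Φ y`.  There is `Q ∈ ℤ[A, B]` (`MvPolynomial (Fin 2) ℤ`) with
  `(A + B) ^ p = A ^ p + B ^ p + p Q` (`add_pow`, `p ∣ choose p i` for `0 < i < p`).  Formal derivatives with
  respect to `A` and `B`, divided by `p` (the ring `ℤ[A, B]` has no torsion):
  `(A + B) ^ (p - 1) = A ^ (p - 1) + Q_A` and `= B ^ (p - 1) + Q_B`.  Evaluate at `x, y`: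
  `(x + y) ^ (p - 1) d (x + y) = x ^ (p - 1) d x + y ^ (p - 1) d y + (Q_A d x + Q_B d y)` and the last term is
  `d (Q(x, y))`; apply `d^[p-1]` and `d_p`; and `(d x + d y) ^ p = (d x) ^ p + (d y) ^ p` (`add_pow_char`).
  (2) `Φ (C a * X ^ n) = 0` : `x ^ (p - 1) * d x = C (a ^ p * n) * X ^ (n p - 1)` for `n ≥ 1`, and
  `d^[p-1] (X ^ (n p - 1)) = (n p - 1) (n p - 2) ... (n p - p + 1) X ^ ((n - 1) p) = (p - 1)! (-1)^(p-1) ... = - X ^ ((n-1) p)` (Wilson,
  `ZMod.wilsons_lemma`; the product is `(p - 1)!` modulo `p` up to the sign `(-1) ^ (p - 1) = 1` in `F`), while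
  `(d x) ^ p = C (a ^ p * n ^ p) * X ^ ((n - 1) p)` and `n ^ p = n` in `F` (`frobenius`, `ZMod.pow_card`).
  (3) For every `N` the coefficient of `Φ x` in degree `N` depends only on the coefficients of `x` in degrees
  `≤ N + p`: write `x = T + X ^ (N + p + 1) * y` with a polynomial `T`; `Φ` is additive, `Φ T = 0` by (1), (2), and
  `Φ (X ^ M * y)` is divisible by `X ^ (M - p)` for `M ≥ p`, hence `coeff N (Φ x) = 0` (take `M` large).
-/

set_option autoImplicit false

namespace UD0

variable {F : Type*} [Field F] (p : ℕ) [Fact p.Prime] [CharP F p]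

private theorem cast_asc75 {m k : ℕ} (h : (m.factorial) ∣ k) (hm : p ≤ m) : (k : F) = 0 := by
  rw [CharP.cast_eq_zero_iff F p]
  exact ((Nat.Prime.dvd_factorial (Fact.out : p.Prime)).2 hm).trans h

private theorem asc_not_dvd75 {k : ℕ} (hk : ¬ p ∣ k) : (((k + 1).ascFactorial (p - 1) : ℕ) : F) = 0 := by
  have hp : p.Prime := Fact.out
  rw [CharP.cast_eq_zero_iff F p, Nat.ascFactorial_eq_prod_range]
  have h1 : 0 < k % p := Nat.pos_of_ne_zero fun h => hk (Nat.dvd_of_mod_eq_zero h)
  have h2 : k % p < p := Nat.mod_lt _ hp.pos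
  have h3 : p - k % p - 1 ∈ Finset.range (p - 1) := by
    rw [Finset.mem_range]
    omega
  refine Dvd.dvd.trans ?_ (Finset.dvd_prod_of_mem (fun i => k + 1 + i) h3)
  have h4 := Nat.div_add_mod k p
  refine ⟨k / p + 1, ?_⟩
  rw [mul_add, mul_one]
  omega

private theorem asc_dvd75 (m : ℕ) : (((m * p + 1).ascFactorial (p - 1) : ℕ) : F) = -1 := by
  have h1 : ((((p - 1).factorial : ℕ) : F)) = -1 := by
    have h2 : ((((p - 1).factorial + 1 : ℕ)) : ZMod p) = 0 := by
      rw [Nat.cast_add, ZMod.wilsons_lemma p, Nat.cast_one]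
      ring
    rw [ZMod.natCast_eq_zero_iff] at h2
    have h3 : ((((p - 1).factorial + 1 : ℕ)) : F) = 0 := (CharP.cast_eq_zero_iff F p _).2 h2
    rw [Nat.cast_add, Nat.cast_one] at h3
    exact eq_neg_of_add_eq_zero_left h3
  rw [← h1, Nat.ascFactorial_eq_prod_range, Nat.factorial_eq_prod_range_add_one, Nat.cast_prod,
    Nat.cast_prod]
  refine Finset.prod_congr rfl fun i _ => ?_
  push_cast
  rw [CharP.cast_eq_zero F p]
  ring

private theorem coeff_pow75 (x : PowerSeries F) (n : ℕ) :
    PowerSeries.coeff n (x ^ p) = if p ∣ n then PowerSeries.coeff (n / p) x ^ p else 0 := by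
  have hp : p.Prime := Fact.out
  have hc : CharP (PowerSeries F) p :=
    charP_of_injective_ringHom (f := PowerSeries.C) PowerSeries.C_injective p
  have h1 := PowerSeries.eq_X_pow_mul_shift_add_trunc (n + 1) x
  have h2 : x ^ p = PowerSeries.X ^ ((n + 1) * p) *
      (PowerSeries.mk fun i => PowerSeries.coeff (i + (n + 1)) x) ^ p +
      ((x.trunc (n + 1) ^ p : Polynomial F) : PowerSeries F) := by
    conv_lhs => rw [h1]
    rw [add_pow_char, mul_pow, ← pow_mul, Polynomial.coe_pow]
  have hle : ¬ (n + 1) * p ≤ n := by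
    have := hp.two_le
    nlinarith
  rw [h2, map_add, PowerSeries.coeff_X_pow_mul', if_neg hle, zero_add, Polynomial.coeff_coe,
    ← Polynomial.map_frobenius_expand, Polynomial.coeff_map, Polynomial.coeff_expand hp.pos]
  split_ifs with h
  · rw [PowerSeries.coeff_trunc, if_pos]
    · rfl
    · exact Nat.lt_succ_of_le (Nat.div_le_self n p)
  · rw [map_zero]

private theorem key_free75 {R : Type*} [CommRing R] [IsDomain R] [CharZero R] (x : PowerSeries R)
    (N : ℕ) (hN : 0 < N) :
    PowerSeries.coeff (N * p - 1) (x ^ (p - 1) * PowerSeries.derivative R x) =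
      N * PowerSeries.coeff (N * p) (x ^ p) := by
  have hp : p.Prime := Fact.out
  have hp0 : (p : R) ≠ 0 := by exact_mod_cast hp.ne_zero
  have h1 := PowerSeries.derivative_pow x p
  have h2 : PowerSeries.coeff (N * p - 1) (PowerSeries.derivative R (x ^ p)) =
      PowerSeries.coeff (N * p) (x ^ p) * (N * p) := by
    rw [PowerSeries.coeff_derivative]
    have h3 : N * p - 1 + 1 = N * p := by
      have := Nat.mul_pos hN hp.pos
      omega
    have h4 : (((N * p - 1 : ℕ)) : R) + 1 = N * p := by
      have h5 : (((N * p - 1 + 1 : ℕ)) : R) = ((N * p : ℕ) : R) := by rw [h3]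
      push_cast at h5
      exact h5
    rw [h3, h4]
  rw [h1] at h2
  have h3 : PowerSeries.coeff (N * p - 1) ((p : PowerSeries R) * x ^ (p - 1) *
      PowerSeries.derivative R x) =
      (p : R) * PowerSeries.coeff (N * p - 1) (x ^ (p - 1) * PowerSeries.derivative R x) := by
    have e : ((p : ℕ) : PowerSeries R) = PowerSeries.C (p : R) := (map_natCast _ _).symm
    rw [e, mul_assoc, PowerSeries.coeff_C_mul]
  rw [h3] at h2
  refine mul_left_cancel₀ hp0 ?_
  rw [h2]
  ring

private theorem map_der75 {R S : Type*} [CommRing R] [CommRing S] (φ : R →+* S)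
    (x : PowerSeries R) : PowerSeries.map φ (PowerSeries.derivative R x) =
      PowerSeries.derivative S (PowerSeries.map φ x) := by
  ext n
  rw [PowerSeries.coeff_map, PowerSeries.coeff_derivative, PowerSeries.coeff_derivative,
    PowerSeries.coeff_map, map_mul, map_add, map_natCast, map_one]

omit [CharP F p] in
private theorem key75 (x : PowerSeries F) (N : ℕ) (hN : 0 < N) :
    PowerSeries.coeff (N * p - 1) (x ^ (p - 1) * PowerSeries.derivative F x) =
      N * PowerSeries.coeff (N * p) (x ^ p) := by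
  obtain ⟨φ, hφ⟩ : ∃ φ : MvPolynomial F ℤ →+* F, ∀ a : F, φ (MvPolynomial.X a) = a :=
    ⟨(MvPolynomial.aeval (R := ℤ) (id : F → F)).toRingHom, fun a => by simp⟩
  obtain ⟨y, hy⟩ : ∃ y : PowerSeries (MvPolynomial F ℤ), PowerSeries.map φ y = x := by
    refine ⟨PowerSeries.mk fun n => MvPolynomial.X (PowerSeries.coeff n x), ?_⟩
    ext n
    rw [PowerSeries.coeff_map, PowerSeries.coeff_mk, hφ]
  have h1 := congrArg φ (key_free75 p y N hN)
  rw [← PowerSeries.coeff_map, map_mul φ, map_natCast, ← PowerSeries.coeff_map, map_mul, map_pow,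
    map_pow, map_der75, hy] at h1
  exact h1

theorem d_p (x : PowerSeries F) : (PowerSeries.derivative F)^[p] x = 0 := by
  ext n
  rw [PowerSeries.coeff_iterate_derivative, map_zero,
    cast_asc75 p (Nat.factorial_dvd_ascFactorial (n + 1) p) le_rfl, zero_mul]

omit [Fact p.Prime] [CharP F p] in
theorem d_const_mul {c : PowerSeries F} (hc : PowerSeries.derivative F c = 0) (x : PowerSeries F)
    (k : ℕ) : (PowerSeries.derivative F)^[k] (c * x) = c * (PowerSeries.derivative F)^[k] x := by
  induction k with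
  | zero => rfl
  | succ k ih =>
    rw [Function.iterate_succ_apply', Function.iterate_succ_apply', ih, Derivation.leibniz, hc,
      smul_zero, add_zero, smul_eq_mul]

theorem d_pow_p (x : PowerSeries F) : PowerSeries.derivative F (x ^ p) = 0 := by
  have e : ((p : ℕ) : PowerSeries F) = 0 := by
    have h1 : ((p : ℕ) : PowerSeries F) = PowerSeries.C (p : F) := (map_natCast _ _).symm
    rw [h1, CharP.cast_eq_zero, map_zero]
  rw [PowerSeries.derivative_pow, e, zero_mul, zero_mul]

theorem der_id' (x : PowerSeries F) {j : ℕ} (hj : ¬ p ∣ j + 1) :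
    (PowerSeries.derivative F)^[p - 1] (x ^ j * PowerSeries.derivative F x) = 0 := by
  have hp : p.Prime := Fact.out
  have hj0 : ((j + 1 : ℕ) : F) ≠ 0 := fun h => hj ((CharP.cast_eq_zero_iff F p _).1 h)
  have h1 : PowerSeries.derivative F (x ^ (j + 1)) =
      PowerSeries.C ((j + 1 : ℕ) : F) * (x ^ j * PowerSeries.derivative F x) := by
    rw [PowerSeries.derivative_pow, Nat.add_sub_cancel, map_natCast, mul_assoc]
  have h2 := d_p p (x ^ (j + 1))
  have e : p = (p - 1) + 1 := by
    have := hp.pos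
    omega
  have h3 : (PowerSeries.derivative F)^[p - 1]
      (PowerSeries.derivative F (x ^ (j + 1))) = 0 := by
    rw [← Function.iterate_succ_apply]
    show (PowerSeries.derivative F)^[(p - 1) + 1] (x ^ (j + 1)) = 0
    rw [← e]
    exact h2
  rw [h1, d_const_mul PowerSeries.derivative_C] at h3
  rcases mul_eq_zero.1 h3 with h4 | h4
  · exfalso
    apply hj0
    have := congrArg (PowerSeries.coeff 0) h4
    simpa using this
  · exact h4

theorem der_id (x : PowerSeries F) :
    (PowerSeries.derivative F)^[p - 1] (x ^ (p - 1) * PowerSeries.derivative F x) =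
      - (PowerSeries.derivative F x) ^ p := by
  have hp : p.Prime := Fact.out
  ext k
  rw [PowerSeries.coeff_iterate_derivative, map_neg, coeff_pow75]
  by_cases hk : p ∣ k
  · obtain ⟨m, rfl⟩ := hk
    rw [if_pos (dvd_mul_right p m), Nat.mul_div_cancel_left _ hp.pos, mul_comm p m, asc_dvd75,
      PowerSeries.coeff_derivative]
    have e1 : m * p + (p - 1) = (m + 1) * p - 1 := by
      have := hp.pos
      rw [add_mul, one_mul]
      omega
    rw [e1, key75 p x (m + 1) (Nat.succ_pos m), coeff_pow75, if_pos (dvd_mul_left p (m + 1)),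
      Nat.mul_div_cancel _ hp.pos, mul_pow]
    have e2 : ((m : F) + 1) ^ p = ((m + 1 : ℕ) : F) := by
      have := map_natCast (frobenius F p) (m + 1)
      rw [frobenius_def] at this
      push_cast at this ⊢
      exact this
    rw [e2]
    ring
  · rw [if_neg hk, asc_not_dvd75 p hk, zero_mul, neg_zero]

end UD0
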