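import Pool.Agent.UD0.DvCore
import Pool.Agent.UDV.DivA

/-!
# UD0: section 7, a transcendence basis adapted to a divisorial valuation ring, characteristic zero
(architect helper10)

`R = MvPolynomial (Fin n) ℤ`, `n` = transcendence degree of `K`, `z : Fin n → O` algebraically independent,
`π` a prime of `R` which generates the prime ideal of the `f` with `f(z)` in the maximal ideal of
`O`.  If the residue field has characteristic `0`: `z = ` lifts of a transcendence basis of the
residue field, and a uniformizer, `π = X last`.  If it has characteristic `p`: lifts of a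
transcendence basis over `𝔽_p`, `π = C p`.
-/

open MvPolynomial UDV

namespace UD0

universe u

theorem algInd_of_dvd0 {K : Type u} [Field K] [CharZero K] {n : ℕ} (z : Fin n → K)
    {π : MvPolynomial (Fin n) ℤ} (hπ : Prime π) (hz : aeval z π ≠ 0)
    (h : ∀ f : MvPolynomial (Fin n) ℤ, aeval z f = 0 → π ∣ f) : AlgebraicIndependent ℤ z := by
  rw [algebraicIndependent_iff]
  intro f hf
  by_contra hne
  obtain ⟨k, g, hg, rfl⟩ := WfDvdMonoid.max_power_factor hne hπ.irreducible
  rw [map_mul, map_pow] at hf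
  exact hg (h g ((mul_eq_zero.1 hf).resolve_left (pow_ne_zero _ hz)))

/-- a finitely generated field is algebraic over the subring generated by the generators -/
theorem alg_adjoin {K : Type u} [Field K] [CharZero K] {s : Finset K}
    (hs : Subfield.closure (s : Set K) = ⊤) :
    Algebra.IsAlgebraic (Algebra.adjoin ℤ (s : Set K)) K := by
  refine ⟨fun x => ?_⟩
  have hx : x ∈ Subfield.closure (s : Set K) := by
    rw [hs]
    exact Subfield.mem_top x
  induction hx using Subfield.closure_induction with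
  | mem x hx => exact isAlgebraic_algebraMap (⟨x, Algebra.subset_adjoin hx⟩ : Algebra.adjoin ℤ (s : Set K))
  | one => exact isAlgebraic_one
  | add x y _ _ hx hy => exact hx.add hy
  | neg x _ hx => exact hx.neg
  | inv x _ hx => exact hx.inv
  | mul x y _ _ hx hy => exact hx.mul hy

theorem trdeg_lt {K : Type u} [Field K] [CharZero K] (h : FGField K) :
    Algebra.trdeg ℤ K < Cardinal.aleph0 := by
  obtain ⟨s, hs⟩ := h
  have := alg_adjoin hs
  refine lt_of_le_of_lt (Algebra.IsAlgebraic.trdeg_le_cardinalMk ℤ (s : Set K)) ?_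
  exact Cardinal.mk_lt_aleph0_iff.2 (Finset.finite_toSet s).to_subtype

theorem kdim_zero (K : Type u) [Field K] [CharZero K] : kdim K = Algebra.trdeg ℤ K + 1 := by
  unfold kdim
  rw [if_pos ‹CharZero K›]
  congr 1
  have halg : Algebra.IsAlgebraic ℤ (⊥ : Subfield K) := by
    refine ⟨fun x => ?_⟩
    have hx : ∃ a b : ℤ, b ≠ 0 ∧ (b : K) * x = a := by
      have hle : (⊥ : Subfield K) ≤ (algebraMap ℚ K).fieldRange := bot_le
      obtain ⟨q, hq⟩ := hle x.2
      refine ⟨q.num, q.den, by exact_mod_cast q.den_ne_zero, ?_⟩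
      rw [← hq]
      have h1 : (q.den : ℚ) * q = q.num := Rat.den_mul_eq_num q
      have h2 := congrArg (algebraMap ℚ K) h1
      rw [map_mul] at h2
      simpa using h2
    obtain ⟨a, b, hb, hab⟩ := hx
    refine ⟨Polynomial.C b * Polynomial.X - Polynomial.C a, ?_, ?_⟩
    · intro h0
      have h1 := congrArg (fun f => Polynomial.coeff f 1) h0
      simp only [Polynomial.coeff_sub, Polynomial.coeff_C_mul, Polynomial.coeff_X_one,
        Polynomial.coeff_C_succ, Polynomial.coeff_zero, mul_one, sub_zero] at h1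
      exact hb h1
    · apply Subtype.ext
      simp only [map_sub, map_mul, Polynomial.aeval_C, Polynomial.aeval_X]
      show ((algebraMap ℤ (⊥ : Subfield K) b : (⊥ : Subfield K)) : K) * (x : K) - _ = 0
      rw [sub_eq_zero]
      simpa using hab
  rw [← trdeg_add_eq ℤ (⊥ : Subfield K) (A := K),
    trdeg_eq_zero (R := ℤ) (A := (⊥ : Subfield K)), zero_add]

private theorem hom_aeval0 {A B : Type*} [CommRing A] [CommRing B] (φ : A →+* B) {σ : Type*}
    (g : σ → A) (f : MvPolynomial σ ℤ) : φ (aeval g f) = aeval (fun i => φ (g i)) f := by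
  rw [MvPolynomial.map_aeval, MvPolynomial.aeval_def]
  have h : φ.comp (algebraMap ℤ A) = algebraMap ℤ B := Subsingleton.elim _ _
  rw [h]
  rfl

private theorem dvd_sub_snoc0 {R : Type*} [CommRing R] {n : ℕ}
    (f : MvPolynomial (Fin (n + 1)) R) :
    X (Fin.last n) ∣ f - rename Fin.castSucc (aeval (Fin.snoc (fun i => X i) 0 :
      Fin (n + 1) → MvPolynomial (Fin n) R) f) := by
  induction f using MvPolynomial.induction_on with
  | C a => simp
  | add f g hf hg =>
    rw [map_add, map_add, add_sub_add_comm]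
    exact dvd_add hf hg
  | mul_X f i hf =>
    rw [map_mul, map_mul, aeval_X]
    induction i using Fin.lastCases with
    | last =>
      rw [Fin.snoc_last, map_zero, mul_zero, sub_zero]
      exact dvd_mul_left _ _
    | cast j =>
      rw [Fin.snoc_castSucc, rename_X, ← sub_mul]
      exact hf.mul_right _

private theorem exists_fin_algInd0 {k κ : Type*} [CommRing k] [Nontrivial k] [Field κ] [Algebra k κ]
    [FaithfulSMul k κ] {n : ℕ} (h : Algebra.trdeg k κ = n) :
    ∃ y : Fin n → κ, AlgebraicIndependent k y := by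
  obtain ⟨s, hs⟩ := exists_isTranscendenceBasis k κ
  have h1 : Cardinal.mk s = n := by rw [hs.cardinalMk_eq_trdeg, h]
  obtain ⟨e⟩ := Cardinal.mk_eq_nat_iff.1 h1
  exact ⟨fun i => (e.symm i : κ), hs.1.comp e.symm e.symm.injective⟩

theorem div_basis_aux (K : Type u) [Field K] [CharZero K] (hfg : FGField K) (O : ValuationSubring K)
    (hdvr : IsDiscreteValuationRing O) (κ : Type u) [Field κ] (r : O →+* κ)
    (hr : Function.Surjective r) (hres : ∀ x : O, O.valuation (x : K) < 1 ↔ r x = 0)
    (hdim : kdim κ + 1 = kdim K) :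
    ∃ (n : ℕ) (z : Fin n → K) (π : MvPolynomial (Fin n) ℤ), Prime π ∧ (∀ i, z i ∈ O) ∧
      O.valuation (aeval z π) < 1 ∧
      (∀ f : MvPolynomial (Fin n) ℤ, O.valuation (aeval z f) < 1 → π ∣ f) ∧
      AlgebraicIndependent ℤ z ∧ Algebra.IsAlgebraic (Algebra.adjoin ℤ (Set.range z)) K := by
  rw [kdim_zero K] at hdim
  obtain ⟨d, hd⟩ := Cardinal.lt_aleph0.1 (trdeg_lt hfg)
  rw [hd] at hdim
  have hdim' : kdim κ = d :=
    Cardinal.add_one_inj.1 hdim
  -- the conclusion from the first four claims
  have key : ∀ (z : Fin d → K) (π : MvPolynomial (Fin d) ℤ), Prime π → (∀ i, z i ∈ O) →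
      O.valuation (aeval z π) < 1 → aeval z π ≠ 0 →
      (∀ f : MvPolynomial (Fin d) ℤ, O.valuation (aeval z f) < 1 → π ∣ f) →
      ∃ (n : ℕ) (z : Fin n → K) (π : MvPolynomial (Fin n) ℤ), Prime π ∧ (∀ i, z i ∈ O) ∧
      O.valuation (aeval z π) < 1 ∧
      (∀ f : MvPolynomial (Fin n) ℤ, O.valuation (aeval z f) < 1 → π ∣ f) ∧
      AlgebraicIndependent ℤ z ∧ Algebra.IsAlgebraic (Algebra.adjoin ℤ (Set.range z)) K := by
    intro z π h1 h2 h3 h4 h5
    have h6 : AlgebraicIndependent ℤ z := algInd_of_dvd0 z h1 h4 fun f hf => h5 f (by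
      rw [hf, map_zero]
      exact zero_lt_one)
    have h7 : IsTranscendenceBasis ℤ z := by
      refine h6.isTranscendenceBasis_of_lift_trdeg_le_of_finite ?_
      rw [hd]
      simp
    exact ⟨d, z, π, h1, h2, h3, h5, h6, h7.isAlgebraic⟩
  obtain ⟨p, hp⟩ := CharP.exists κ
  rcases CharP.char_is_prime_or_zero κ p with hpp | hp0
  · -- residue characteristic `p`
    have _ : Fact p.Prime := ⟨hpp⟩
    let _ := ZMod.algebra κ p
    rw [kdim_eq p κ] at hdim'
    obtain ⟨y₀, hy₀⟩ := exists_fin_algInd0 hdim'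
    choose y hy using fun i => hr (y₀ i)
    have haev : ∀ f : MvPolynomial (Fin d) ℤ,
        aeval (fun i => (y i : K)) f = ((aeval y f : O) : K) := fun f =>
      (hom_aeval0 O.subtype y f).symm
    refine key (fun i => (y i : K)) (C (p : ℤ)) ?_ (fun i => (y i).2) ?_ ?_ ?_
    · exact (MvPolynomial.prime_C_iff _).2 (Nat.prime_iff_prime_int.1 hpp)
    · rw [haev, hres, hom_aeval0]
      simp
    · simp [hpp.ne_zero]
    · intro f hf
      rw [haev, hres, hom_aeval0] at hf
      have h1 : (fun i => r (y i)) = y₀ := funext hy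
      rw [h1] at hf
      rw [MvPolynomial.C_dvd_iff_zmod]
      apply (algebraicIndependent_iff.1 hy₀)
      rw [← hf, aeval_def, aeval_def, eval₂_map]
      congr 1
      exact Subsingleton.elim _ _
  · -- residue characteristic `0`
    subst hp0
    have _ : CharZero κ := CharP.charP_to_charZero _
    rw [kdim_zero] at hdim'
    obtain ⟨n, hn⟩ : ∃ n : ℕ, Algebra.trdeg ℤ κ = n := by
      refine Cardinal.lt_aleph0.1 (lt_of_le_of_lt (le_self_add (b := 1)) ?_)
      rw [hdim']
      exact Cardinal.natCast_lt_aleph0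
    rw [hn] at hdim'
    have hdn : d = n + 1 := by exact_mod_cast hdim'.symm
    subst hdn
    obtain ⟨y₀, hy₀⟩ := exists_fin_algInd0 hn
    choose y hy using fun i => hr (y₀ i)
    obtain ⟨ϖ, hϖ⟩ := IsDiscreteValuationRing.exists_irreducible O
    have hϖK : (ϖ : K) ≠ 0 := fun h => hϖ.ne_zero (Subtype.ext h)
    have hresϖ : r ϖ = 0 := by
      rw [← hres]
      exact (ValuationSubring.valuation_lt_one_iff O ϖ).1
        ((IsLocalRing.mem_maximalIdeal _).2 hϖ.not_isUnit)
    obtain ⟨zO, hzO⟩ : ∃ zO : Fin (n + 1) → O, zO = Fin.snoc y ϖ := ⟨_, rfl⟩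
    have hzl : zO (Fin.last n) = ϖ := by rw [hzO, Fin.snoc_last]
    have haev : ∀ f : MvPolynomial (Fin (n + 1)) ℤ,
        aeval (fun i => (zO i : K)) f = ((aeval zO f : O) : K) := fun f =>
      (hom_aeval0 O.subtype zO f).symm
    refine key (fun i => (zO i : K)) (X (Fin.last n)) MvPolynomial.X_prime (fun i => (zO i).2)
      ?_ ?_ ?_
    · rw [aeval_X, hzl, hres, hresϖ]
    · rw [aeval_X, hzl]
      exact hϖK
    · intro f hf
      rw [haev, hres, hom_aeval0] at hf
      have h2 : (fun i => r (zO i)) =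
          fun i => aeval y₀ ((Fin.snoc (fun i => X i) 0 :
            Fin (n + 1) → MvPolynomial (Fin n) ℤ) i) := by
        funext i
        induction i using Fin.lastCases with
        | last => rw [hzl, hresϖ, Fin.snoc_last, map_zero]
        | cast j => rw [hzO, Fin.snoc_castSucc, Fin.snoc_castSucc, aeval_X, hy]
      rw [h2] at hf
      have h3 := hom_aeval0 (aeval y₀ : MvPolynomial (Fin n) ℤ →ₐ[ℤ]
        κ).toRingHom
        (Fin.snoc (fun i => X i) 0 : Fin (n + 1) → MvPolynomial (Fin n) ℤ) f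
      have h5 : aeval y₀ (aeval (Fin.snoc (fun i => X i) 0 :
          Fin (n + 1) → MvPolynomial (Fin n) ℤ) f) = 0 := h3.trans hf
      have h8 := (algebraicIndependent_iff.1 hy₀) _ h5
      have h9 := dvd_sub_snoc0 f
      rw [h8, map_zero, sub_zero] at h9
      exact h9

theorem div_basis0 (K : Type u) [Field K] [CharZero K] (hfg : FGField K) (O : ValuationSubring K)
    (hO : IsDivisorial O) :
    ∃ (n : ℕ) (z : Fin n → K) (π : MvPolynomial (Fin n) ℤ), Prime π ∧ (∀ i, z i ∈ O) ∧
      O.valuation (aeval z π) < 1 ∧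
      (∀ f : MvPolynomial (Fin n) ℤ, O.valuation (aeval z f) < 1 → π ∣ f) ∧
      AlgebraicIndependent ℤ z ∧ Algebra.IsAlgebraic (Algebra.adjoin ℤ (Set.range z)) K :=
  div_basis_aux K hfg O hO.dvr (IsLocalRing.ResidueField O) (IsLocalRing.residue O)
    IsLocalRing.residue_surjective (fun x => by
      rw [IsLocalRing.residue_eq_zero_iff, ValuationSubring.valuation_lt_one_iff]) hO.dim

end UD0
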