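import Pool.Agent.UDV.FracO
import Pool.Agent.UDV.PiVal
import Pool.Agent.UDV.Divisorial

/-!
# UD0: section 7, the core (adapted from UDV/DivB): a discrete valuation ring which is the
localization of a noetherian subring at a prime, in terms of finitely many generators
(architect helper10)
-/

open MvPolynomial UDV

namespace UD0

universe u

theorem dv_core {K : Type u} [Field K]
    (O : ValuationSubring K) (B : Subring K) (hnoeth : IsNoetherianRing B)
    (hBO : ∀ b ∈ B, b ∈ O) (G : Finset K) (hG : Subring.closure (G : Set K) = B) {ϖ : K}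
    (hϖB : ϖ ∈ B) (hϖ0 : ϖ ≠ 0) (hϖ1 : O.valuation ϖ < 1)
    (hgen : ∀ x, O.valuation x < 1 → ∃ y ∈ O, x = y * ϖ)
    (hst : ∀ y ∈ O, ∃ c ∈ B, O.valuation c = 1 ∧ c * y ∈ B) :
    ∃ (S : Finset K) (π : K), π ≠ 0 ∧ π ∈ S ∧
      (∀ x ∈ Subring.closure (S : Set K), x ∈ O) ∧ π⁻¹ ∉ O ∧
      ∀ x : K, x ∈ O ↔ ∃ c ∈ Subring.closure (S : Set K), c * x ∈ Subring.closure (S : Set K) ∧
        ∀ y ∈ Subring.closure (S : Set K), y * π ≠ c := by
  classical
  have hvle : ∀ b ∈ O, O.valuation b ≤ 1 := fun b hb => (O.valuation_le_one_iff b).2 hb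
  -- the prime ideal
  let P : Ideal B :=
    { carrier := {b | O.valuation (b : K) < 1}
      add_mem' := by
        intro a b ha hb
        show O.valuation ((a : K) + b) < 1
        exact Valuation.map_add_lt _ ha hb
      zero_mem' := by
        show O.valuation ((0 : B) : K) < 1
        rw [ZeroMemClass.coe_zero, map_zero]
        exact zero_lt_one
      smul_mem' := by
        intro c b hb
        show O.valuation ((c : K) * b) < 1
        rw [map_mul, mul_comm]
        exact mul_lt_one_of_lt_of_le hb (hvle _ (hBO _ c.2)) }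
  obtain ⟨T, hT⟩ : P.FG := (isNoetherianRing_iff_ideal_fg B).1 hnoeth P
  have hq : ∀ q : B, O.valuation (q : K) < 1 → ∃ c : B, O.valuation (c : K) = 1 ∧
      ∃ a : B, (c : K) * q = a * ϖ := by
    intro q hq
    obtain ⟨y, hy, hqy⟩ := hgen q hq
    obtain ⟨c, hc, hc1, hcy⟩ := hst y hy
    exact ⟨⟨c, hc⟩, hc1, ⟨c * y, hcy⟩, by
      show c * (q : K) = c * y * ϖ
      rw [hqy, mul_assoc]⟩
  choose! c hc1 a hca using hq
  have hTP : ∀ q ∈ T, O.valuation (q : K) < 1 := by
    intro q hq
    have h1 : q ∈ P := by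
      rw [← hT]
      exact Submodule.subset_span hq
    exact h1
  obtain ⟨f, hf⟩ : ∃ f : B, f = ∏ q ∈ T, c q := ⟨_, rfl⟩
  have hf1 : O.valuation (f : K) = 1 := by
    have h1 : (f : K) = ∏ q ∈ T, (c q : K) := by
      rw [hf]
      exact map_prod B.subtype c T
    rw [h1, map_prod]
    exact Finset.prod_eq_one fun q hq => hc1 q (hTP q hq)
  have hf0 : (f : K) ≠ 0 := by
    intro h
    rw [h, map_zero] at hf1
    exact zero_ne_one hf1
  have hstar : ∀ b : B, O.valuation (b : K) < 1 → ∃ b' : B, (f : K) * b = b' * ϖ := by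
    intro b hb
    have hb' : b ∈ Submodule.span B (T : Set B) := by
      have h1 : b ∈ P := hb
      rw [← hT] at h1
      exact h1
    induction hb' using Submodule.span_induction with
    | mem q hq =>
      refine ⟨(∏ r ∈ T.erase q, c r) * a q, ?_⟩
      have h1 : f = (∏ r ∈ T.erase q, c r) * c q := by
        rw [hf, Finset.prod_erase_mul _ _ hq]
      have h2 := hca q (hTP q hq)
      rw [h1, Subring.coe_mul, Subring.coe_mul, mul_assoc, mul_assoc, h2]
    | zero => exact ⟨0, by simp⟩
    | add x y hx hy ihx ihy =>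
      have hxP : O.valuation (x : K) < 1 := by
        have h1 : x ∈ P := by rw [← hT]; exact hx
        exact h1
      have hyP : O.valuation (y : K) < 1 := by
        have h1 : y ∈ P := by rw [← hT]; exact hy
        exact h1
      obtain ⟨x', hx'⟩ := ihx hxP
      obtain ⟨y', hy'⟩ := ihy hyP
      refine ⟨x' + y', ?_⟩
      rw [Subring.coe_add, Subring.coe_add, mul_add, add_mul, hx', hy']
    | smul r x hx ihx =>
      have hxP : O.valuation (x : K) < 1 := by
        have h1 : x ∈ P := by rw [← hT]; exact hx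
        exact h1
      obtain ⟨x', hx'⟩ := ihx hxP
      refine ⟨r * x', ?_⟩
      rw [smul_eq_mul, Subring.coe_mul, Subring.coe_mul, mul_assoc, ← hx']
      ring
  -- the ring `A`
  obtain ⟨S₀, hS₀⟩ : ∃ S₀ : Finset K, S₀ = insert ϖ (insert (f : K)⁻¹ G) := ⟨_, rfl⟩
  have hϖS : ϖ ∈ S₀ := by
    rw [hS₀]
    exact Finset.mem_insert_self _ _
  have hfinvO : (f : K)⁻¹ ∈ O := by
    rw [← O.valuation_le_one_iff, map_inv₀, hf1, inv_one]
  have hBA : ∀ b ∈ B, b ∈ Subring.closure (S₀ : Set K) := by
    intro b hb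
    rw [← hG] at hb
    refine Subring.closure_mono ?_ hb
    intro g hg
    rw [hS₀, Finset.mem_coe]
    exact Finset.mem_insert_of_mem (Finset.mem_insert_of_mem hg)
  have hfA : (f : K)⁻¹ ∈ Subring.closure (S₀ : Set K) := by
    apply Subring.subset_closure
    rw [hS₀, Finset.mem_coe]
    exact Finset.mem_insert_of_mem (Finset.mem_insert_self _ _)
  have hAO : ∀ x ∈ Subring.closure (S₀ : Set K), x ∈ O := by
    intro x hx
    have h1 : Subring.closure (S₀ : Set K) ≤ O.toSubring := by
      rw [Subring.closure_le]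
      intro g hg
      rw [hS₀, Finset.mem_coe, Finset.mem_insert, Finset.mem_insert] at hg
      rcases hg with hg | hg | hg
      · rw [hg]
        exact hBO _ hϖB
      · rw [hg]
        exact hfinvO
      · refine hBO g ?_
        rw [← hG]
        exact Subring.subset_closure hg
    exact h1 hx
  have hAf : ∀ x ∈ Subring.closure (S₀ : Set K), ∃ (k : ℕ) (b : B), x * (f : K) ^ k = b := by
    intro x hx
    induction hx using Subring.closure_induction with
    | mem g hg =>
      rw [hS₀, Finset.mem_coe, Finset.mem_insert, Finset.mem_insert] at hg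
      rcases hg with hg | hg | hg
      · exact ⟨0, ⟨ϖ, hϖB⟩, by rw [hg, pow_zero, mul_one]⟩
      · exact ⟨1, 1, by rw [hg, pow_one, inv_mul_cancel₀ hf0, OneMemClass.coe_one]⟩
      · exact ⟨0, ⟨g, by rw [← hG]; exact Subring.subset_closure hg⟩, by rw [pow_zero, mul_one]⟩
    | zero => exact ⟨0, 0, by simp⟩
    | one => exact ⟨0, 1, by simp⟩
    | add x y _ _ ihx ihy =>
      obtain ⟨k, b, hb⟩ := ihx
      obtain ⟨l, b', hb'⟩ := ihy
      refine ⟨k + l, b * f ^ l + b' * f ^ k, ?_⟩
      rw [Subring.coe_add, Subring.coe_mul, Subring.coe_mul, Subring.coe_pow, Subring.coe_pow,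
        ← hb, ← hb', pow_add]
      ring
    | neg x _ ihx =>
      obtain ⟨k, b, hb⟩ := ihx
      exact ⟨k, -b, by rw [neg_mul, hb, Subring.coe_neg]⟩
    | mul x y _ _ ihx ihy =>
      obtain ⟨k, b, hb⟩ := ihx
      obtain ⟨l, b', hb'⟩ := ihy
      refine ⟨k + l, b * b', ?_⟩
      rw [Subring.coe_mul, ← hb, ← hb', pow_add]
      ring
  have hstep5 : ∀ c ∈ Subring.closure (S₀ : Set K), O.valuation c < 1 →
      ∃ y ∈ Subring.closure (S₀ : Set K), y * ϖ = c := by
    intro c hc hc1
    obtain ⟨k, b, hb⟩ := hAf c hc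
    have hb1 : O.valuation (b : K) < 1 := by
      rw [← hb, map_mul, map_pow, hf1, one_pow, mul_one]
      exact hc1
    obtain ⟨b', hb'⟩ := hstar b hb1
    refine ⟨b' * ((f : K)⁻¹) ^ (k + 1), mul_mem (hBA _ b'.2) (pow_mem hfA _), ?_⟩
    have h1 : (b' : K) * ((f : K)⁻¹) ^ (k + 1) * ϖ = (b' * ϖ) * ((f : K)⁻¹) ^ (k + 1) := by ring
    rw [h1, ← hb', ← hb, inv_pow, pow_succ]
    field_simp
  refine ⟨S₀, ϖ, hϖ0, hϖS, ?_, ?_, ?_⟩
  · exact hAO
  · intro h
    have h1 := hvle _ h
    have h2 : O.valuation (ϖ * ϖ⁻¹) < 1 := by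
      rw [map_mul]
      exact mul_lt_one_of_lt_of_le hϖ1 h1
    rw [mul_inv_cancel₀ hϖ0, map_one] at h2
    exact lt_irrefl _ h2
  · intro x
    constructor
    · intro hx
      obtain ⟨c, hcB, hc1, hcx⟩ := hst x hx
      refine ⟨c, hBA c hcB, hBA _ hcx, fun y hy hyc => ?_⟩
      have h1 : O.valuation c < 1 := by
        rw [← hyc, map_mul, mul_comm]
        exact mul_lt_one_of_lt_of_le hϖ1 (hvle _ (hAO y hy))
      rw [hc1] at h1
      exact lt_irrefl _ h1
    · rintro ⟨c, hcA, hcx, hne⟩
      have h1 : O.valuation c = 1 := by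
        refine le_antisymm (hvle _ (hAO c hcA)) ?_
        by_contra hlt
        rw [not_le] at hlt
        obtain ⟨y, hy, hyc⟩ := hstep5 c hcA hlt
        exact hne y hy hyc
      have h2 := hvle _ (hAO _ hcx)
      rw [map_mul, h1, one_mul] at h2
      exact (O.valuation_le_one_iff x).1 h2

/-- elements integral over a ring contained in `O` are in `O` -/
theorem dv_int {R : Type} [CommRing R] {K : Type u} [Field K] [Algebra R K]
    (O : ValuationSubring K) (hRO : ∀ f : R, algebraMap R K f ∈ O) {x : K}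
    (hx : IsIntegral R x) : x ∈ O := by
  obtain ⟨q, hq, hqx⟩ := hx
  let φ : R →+* O := (algebraMap R K).codRestrict O.toSubring hRO
  have h1 : IsIntegral O x := by
    refine ⟨q.map φ, hq.map φ, ?_⟩
    rw [Polynomial.eval₂_map]
    exact hqx
  obtain ⟨y, hy⟩ := (IsIntegrallyClosed.isIntegral_iff (R := O) (K := K)).1 h1
  rw [← hy]
  exact y.2

theorem dv_step {R : Type} [CommRing R] [IsDomain R] [UniqueFactorizationMonoid R]
    [IsNoetherianRing R] {F : Type} [Field F] [Algebra R F] [IsFractionRing R F] {K : Type u}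
    [Field K] [Algebra F K] [Algebra R K] [IsScalarTower R F K] [FiniteDimensional F K]
    [Algebra.IsSeparable F K] (O : ValuationSubring K) (hRO : ∀ f : R, algebraMap R K f ∈ O)
    {π : R} (hπ : Prime π) (hπ1 : O.valuation (algebraMap R K π) < 1)
    (hdiv : ∀ f : R, O.valuation (algebraMap R K f) < 1 → π ∣ f) {y : K} (hy : y ∈ O) :
    ∃ c : K, IsIntegral R c ∧ O.valuation c = 1 ∧ IsIntegral R (c * y) := by
  have hinj : Function.Injective (algebraMap R K) := by
    rw [IsScalarTower.algebraMap_eq R F K]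
    exact (algebraMap F K).injective.comp (IsFractionRing.injective R F)
  have hval : ∀ f : R, ¬ π ∣ f → O.valuation (algebraMap R K f) = 1 := by
    intro f hf
    refine le_antisymm ((O.valuation_le_one_iff _).2 (hRO f)) ?_
    by_contra hlt
    rw [not_le] at hlt
    exact hf (hdiv f hlt)
  obtain ⟨v, h1, h2⟩ := exists_piVal (F := F) hπ
  have h : ∀ x : F, v x ≤ 1 → algebraMap F K x ∈ O := by
    intro x hx
    obtain ⟨f, g, hg, rfl⟩ := piVal_le_one hπ h1 h2 hx
    rw [map_div₀, ← IsScalarTower.algebraMap_apply, ← IsScalarTower.algebraMap_apply,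
      ← O.valuation_le_one_iff, map_div₀, hval g hg, div_one]
    exact (O.valuation_le_one_iff _).2 (hRO f)
  have hO : O ≠ ⊤ := by
    intro htop
    have hne : algebraMap R K π ≠ 0 := fun h0 => hπ.ne_zero (hinj (by rw [h0, map_zero]))
    have h3 : (algebraMap R K π)⁻¹ ∈ O := by
      rw [htop]
      trivial
    have h4 := (O.valuation_le_one_iff _).2 h3
    have h5 : O.valuation (algebraMap R K π * (algebraMap R K π)⁻¹) < 1 := by
      rw [map_mul]
      exact mul_lt_one_of_lt_of_le hπ1 h4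
    rw [mul_inv_cancel₀ hne, map_one] at h5
    exact lt_irrefl _ h5
  obtain ⟨a, b, ha, hb, hb1, hab⟩ := frac_O v ⟨_, h1⟩ O hO h hy
  obtain ⟨s, hs, hsa⟩ := int_mul hπ h1 h2 ha
  obtain ⟨s', hs', hsb⟩ := int_mul hπ h1 h2 hb
  refine ⟨algebraMap R K s * (algebraMap R K s' * b), isIntegral_algebraMap.mul hsb, ?_, ?_⟩
  · rw [map_mul, map_mul, hval s hs, hval s' hs', hb1, one_mul, one_mul]
  · have h3 : algebraMap R K s * (algebraMap R K s' * b) * y =
        algebraMap R K s' * (algebraMap R K s * a) := by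
      rw [← hab]
      ring
    rw [h3]
    exact isIntegral_algebraMap.mul hsa

end UD0
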