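import Pool.Agent.UD0.DvBase

/-!
# UD0: section 7, a divisorial valuation ring in characteristic zero is the localization of a
finitely generated ring (architect helper10)
-/

open MvPolynomial UDV

namespace UD0

universe u

theorem div_fg0 (K : Type u) [Field K] [CharZero K] (hfg : FGField K)
    (O : ValuationSubring K) (hO : IsDivisorial O) :
    ∃ S : Finset K, ∃ π ∈ S, (∀ x ∈ Subring.closure (S : Set K), x ∈ O) ∧ π⁻¹ ∉ O ∧
      ∀ x : K, x ∈ O ↔ ∃ c ∈ Subring.closure (S : Set K), c * x ∈ Subring.closure (S : Set K) ∧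
        ∀ y ∈ Subring.closure (S : Set K), y * π ≠ c := by
  classical
  obtain ⟨n, z, π, hπ, hzO, hπ1, hdiv, hai, halg⟩ := div_basis0 K hfg O hO
  have hdvr := hO.dvr
  obtain ⟨ϖ, hϖ⟩ := IsDiscreteValuationRing.exists_irreducible O
  have hϖK : (ϖ : K) ≠ 0 := fun h => hϖ.ne_zero (Subtype.ext h)
  have hϖ1 : O.valuation (ϖ : K) < 1 := (ValuationSubring.valuation_lt_one_iff O ϖ).1
    ((IsLocalRing.mem_maximalIdeal _).2 hϖ.not_isUnit)
  have hgenϖ : ∀ x, O.valuation x < 1 → ∃ y ∈ O, x = y * ϖ := by
    intro a ha
    have ha1 : a ∈ O := (O.valuation_le_one_iff a).1 ha.le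
    have ha2 : (⟨a, ha1⟩ : O) ∈ IsLocalRing.maximalIdeal O :=
      (ValuationSubring.valuation_lt_one_iff O ⟨a, ha1⟩).2 ha
    rw [(IsDiscreteValuationRing.irreducible_iff_uniformizer ϖ).1 hϖ,
      Ideal.mem_span_singleton'] at ha2
    obtain ⟨b, hb⟩ := ha2
    exact ⟨b, b.2, (congrArg Subtype.val hb).symm⟩
  letI : Algebra (MvPolynomial (Fin n) ℤ) K :=
    (aeval z : MvPolynomial (Fin n) ℤ →ₐ[ℤ] K).toRingHom.toAlgebra
  have hmap : ∀ f : MvPolynomial (Fin n) ℤ,
      algebraMap (MvPolynomial (Fin n) ℤ) K f = aeval z f := fun _ => rfl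
  have hinj : Function.Injective (algebraMap (MvPolynomial (Fin n) ℤ) K) :=
    algebraicIndependent_iff_injective_aeval.1 hai
  haveI : FaithfulSMul (MvPolynomial (Fin n) ℤ) K :=
    (faithfulSMul_iff_algebraMap_injective _ K).2 hinj
  letI := FractionRing.liftAlgebra (MvPolynomial (Fin n) ℤ) K
  haveI := FractionRing.isScalarTower_liftAlgebra (MvPolynomial (Fin n) ℤ) K
  haveI hcz : CharZero (FractionRing (MvPolynomial (Fin n) ℤ)) :=
    (algebraMap (FractionRing (MvPolynomial (Fin n) ℤ)) K).charZero
  haveI halgR : Algebra.IsAlgebraic (MvPolynomial (Fin n) ℤ) K :=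
    (Algebra.isAlgebraic_ringHom_iff_of_comp_eq (hai.aevalEquiv.toRingEquiv) (RingEquiv.refl K) (by
      ext x <;> simp [hmap])).1 halg
  haveI : Algebra.IsAlgebraic (FractionRing (MvPolynomial (Fin n) ℤ)) K :=
    (IsFractionRing.comap_isAlgebraic_iff (A := MvPolynomial (Fin n) ℤ)).1 halgR
  haveI : FiniteDimensional (FractionRing (MvPolynomial (Fin n) ℤ)) K := by
    obtain ⟨s, hs⟩ := hfg
    haveI : FiniteDimensional (FractionRing (MvPolynomial (Fin n) ℤ))
        (IntermediateField.adjoin (FractionRing (MvPolynomial (Fin n) ℤ))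
          (s : Set K)) :=
      IntermediateField.finiteDimensional_adjoin fun x _ => Algebra.IsIntegral.isIntegral x
    have htop : IntermediateField.adjoin (FractionRing (MvPolynomial (Fin n) ℤ))
        (s : Set K) = ⊤ := by
      rw [eq_top_iff]
      intro x _
      have h1 : x ∈ Subfield.closure (s : Set K) := by
        rw [hs]
        trivial
      have h2 : Subfield.closure (s : Set K) ≤ (IntermediateField.adjoin
          (FractionRing (MvPolynomial (Fin n) ℤ)) (s : Set K)).toSubfield := by
        rw [Subfield.closure_le]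
        exact IntermediateField.subset_adjoin _ _
      exact h2 h1
    rw [htop] at this
    exact Module.Finite.equiv
      (IntermediateField.topEquiv (F := FractionRing (MvPolynomial (Fin n) ℤ))
        (E := K)).toLinearEquiv
  haveI hfin : Module.Finite (MvPolynomial (Fin n) ℤ)
      (integralClosure (MvPolynomial (Fin n) ℤ) K) :=
    IsIntegralClosure.finite (MvPolynomial (Fin n) ℤ)
      (FractionRing (MvPolynomial (Fin n) ℤ)) K _
  haveI hnoeth : IsNoetherianRing (integralClosure (MvPolynomial (Fin n) ℤ) K) :=
    IsNoetherianRing.of_finite (MvPolynomial (Fin n) ℤ) _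
  have hRO : ∀ f : MvPolynomial (Fin n) ℤ,
      algebraMap (MvPolynomial (Fin n) ℤ) K f ∈ O := by
    intro f
    rw [hmap]
    induction f using MvPolynomial.induction_on with
    | C a =>
      have h1 : aeval z (C a : MvPolynomial (Fin n) ℤ) = (a : K) := by
        rw [aeval_C]
        simp
      rw [h1]
      exact intCast_mem O _
    | add f g hf hg =>
      rw [map_add]
      exact add_mem hf hg
    | mul_X f i hf =>
      rw [map_mul, aeval_X]
      exact mul_mem hf (hzO i)
  have hst : ∀ y ∈ O, ∃ c : K, IsIntegral (MvPolynomial (Fin n) ℤ) c ∧ O.valuation c = 1 ∧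
      IsIntegral (MvPolynomial (Fin n) ℤ) (c * y) := by
    intro y hy
    exact dv_step (R := MvPolynomial (Fin n) ℤ)
      (F := FractionRing (MvPolynomial (Fin n) ℤ)) O hRO
      (π := π) hπ hπ1 (fun f hf => hdiv f hf) hy
  -- a uniformizer which is integral
  obtain ⟨c, hcint, hc1, hcϖ⟩ := hst ϖ ϖ.2
  have hc0 : c ≠ 0 := by
    intro h
    rw [h, map_zero] at hc1
    exact zero_ne_one hc1
  have hw1 : O.valuation (c * ϖ) < 1 := by
    rw [map_mul, hc1, one_mul]
    exact hϖ1
  have hgen : ∀ x, O.valuation x < 1 → ∃ y ∈ O, x = y * (c * ϖ) := by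
    intro x hx
    obtain ⟨y, hy, rfl⟩ := hgenϖ x hx
    refine ⟨y * c⁻¹, mul_mem hy ?_, ?_⟩
    · rw [← O.valuation_le_one_iff, map_inv₀, hc1, inv_one]
    · field_simp
  obtain ⟨G', hG'⟩ := hfin.fg_top
  have hG : Subring.closure ((Finset.univ.image z ∪ G'.image Subtype.val : Finset K) : Set K) =
      (integralClosure (MvPolynomial (Fin n) ℤ) K).toSubring := by
    apply le_antisymm
    · rw [Subring.closure_le]
      intro g hg
      rw [Finset.mem_coe, Finset.mem_union, Finset.mem_image, Finset.mem_image] at hg
      rcases hg with ⟨i, _, rfl⟩ | ⟨g, _, rfl⟩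
      · show IsIntegral (MvPolynomial (Fin n) ℤ) (z i)
        have h1 := isIntegral_algebraMap (R := MvPolynomial (Fin n) ℤ) (A := K)
          (x := X i)
        rw [hmap, aeval_X] at h1
        exact h1
      · exact g.2
    · intro b hb
      have hz : ∀ f : MvPolynomial (Fin n) ℤ, aeval z f ∈
          Subring.closure ((Finset.univ.image z ∪ G'.image Subtype.val : Finset K) : Set K) := by
        intro f
        induction f using MvPolynomial.induction_on with
        | C a =>
          have h1 : aeval z (C a : MvPolynomial (Fin n) ℤ) = (a : K) := by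
            rw [aeval_C]
            simp
          rw [h1]
          exact intCast_mem _ _
        | add f g hf hg =>
          rw [map_add]
          exact add_mem hf hg
        | mul_X f i hf =>
          rw [map_mul, aeval_X]
          refine mul_mem hf (Subring.subset_closure ?_)
          rw [Finset.mem_coe, Finset.mem_union, Finset.mem_image]
          exact Or.inl ⟨i, Finset.mem_univ _, rfl⟩
      have hspan : (⟨b, hb⟩ : integralClosure (MvPolynomial (Fin n) ℤ) K) ∈
          Submodule.span (MvPolynomial (Fin n) ℤ) (G' : Set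
            (integralClosure (MvPolynomial (Fin n) ℤ) K)) := by
        rw [hG']
        trivial
      have hall : ∀ c ∈ Submodule.span (MvPolynomial (Fin n) ℤ) (G' : Set
          (integralClosure (MvPolynomial (Fin n) ℤ) K)), (c : K) ∈
          Subring.closure ((Finset.univ.image z ∪ G'.image Subtype.val : Finset K) : Set K) := by
        intro c hc
        induction hc using Submodule.span_induction with
        | mem g hg =>
          apply Subring.subset_closure
          rw [Finset.mem_coe, Finset.mem_union, Finset.mem_image, Finset.mem_image]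
          exact Or.inr ⟨g, hg, rfl⟩
        | zero => exact zero_mem _
        | add x y _ _ hx hy => exact add_mem hx hy
        | smul r x _ hx =>
          show ((r • x : integralClosure (MvPolynomial (Fin n) ℤ) K) : K) ∈ _
          have h1 : ((r • x : integralClosure (MvPolynomial (Fin n) ℤ) K) : K) =
              aeval z r * (x : K) := by
            rw [← hmap, ← Algebra.smul_def]
            rfl
          rw [h1]
          exact mul_mem (hz r) hx
      exact hall _ hspan
  obtain ⟨S, π', h1, h2, h3, h4, h5⟩ :=
    dv_core O (integralClosure (MvPolynomial (Fin n) ℤ) K).toSubring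
    hnoeth (fun b hb => dv_int O hRO hb) _ hG (ϖ := c * ϖ) hcϖ
    (mul_ne_zero hc0 hϖK) hw1 hgen (fun y hy => hst y hy)
  exact ⟨S, π', h2, h3, h4, h5⟩

end UD0
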