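import Pool.Agent.UD0.DerId

/-!
# UD0: the differential of the curve `lam y ^ 2 = x ^ 3 + 1` modulo `p`

`d = PowerSeries.derivative F`, characteristic `p = 1` modulo `3` (so `p ≥ 7`).
PROOF of `eig_id`.  `w = y⁻¹`.  `w = w ^ p * y ^ (p - 1) = w ^ p * (y ^ 2) ^ ((p - 1) / 2)` (`p` odd), and
`C lam ^ ((p - 1) / 2) * (y ^ 2) ^ ((p - 1) / 2) = (x ^ 3 + 1) ^ ((p - 1) / 2) = ∑ i, choose ((p - 1) / 2) i * x ^ (3 i)`.
So `C (lam ^ ((p - 1) / 2)) * (d x * w) = ∑ i, w ^ p * C (choose ((p - 1) / 2) i) * (x ^ (3 i) * d x)`; `w ^ p` and the `C _`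
are constants for `d` (`d_pow_p`), so `d^[p-1]` can be applied to `x ^ (3 i) * d x` (`d_const_mul`; `d^[k]` is
additive).  For `i ≤ (p - 1) / 2` we have `1 ≤ 3 i + 1 ≤ 3 (p - 1) / 2 + 1 < 2 p`, so `p ∣ 3 i + 1` iff
`3 i + 1 = p`, i.e. `i = (p - 1) / 3`; the other terms vanish (`der_id'`), and this one is
`w ^ p * C A * (- (d x) ^ p) = - C A * (d x * w) ^ p` (`der_id`).
PROOF of `choose_ne_zero` : `choose n k` with `k ≤ n < p` is not divisible by `p`.
-/

set_option autoImplicit false

namespace UD0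

variable {F : Type*} [Field F] (p : ℕ) [Fact p.Prime] [CharP F p]

theorem choose_ne_zero : ((Nat.choose ((p - 1) / 2) ((p - 1) / 3) : ℕ) : F) ≠ 0 := by
  have hp : p.Prime := Fact.out
  intro h
  rw [CharP.cast_eq_zero_iff F p] at h
  have hp2 := hp.two_le
  have hle : (p - 1) / 3 ≤ (p - 1) / 2 := by omega
  have hlt : (p - 1) / 2 < p := by omega
  have hd : p ∣ ((p - 1) / 2).factorial := by
    rw [← Nat.choose_mul_factorial_mul_factorial hle]
    exact Dvd.dvd.mul_right (Dvd.dvd.mul_right h _) _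
  rw [hp.dvd_factorial] at hd
  omega

omit [Fact p.Prime] [CharP F p] in
theorem d_iter_sum {ι : Type*} (s : Finset ι) (f : ι → PowerSeries F) (k : ℕ) :
    (PowerSeries.derivative F)^[k] (∑ i ∈ s, f i) =
      ∑ i ∈ s, (PowerSeries.derivative F)^[k] (f i) := by
  induction k with
  | zero => simp
  | succ k ih =>
    rw [Function.iterate_succ_apply', ih, map_sum]
    refine Finset.sum_congr rfl fun i _ => ?_
    rw [Function.iterate_succ_apply']

theorem d_C_mul (a : F) (x : PowerSeries F) (k : ℕ) :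
    (PowerSeries.derivative F)^[k] (PowerSeries.C a * x) =
      PowerSeries.C a * (PowerSeries.derivative F)^[k] x := by
  apply d_const_mul
  exact PowerSeries.derivative_C

theorem eig_pow (hp3 : p % 3 = 1) {lam : F} {x y w : PowerSeries F}
    (h : PowerSeries.C lam * y ^ 2 = x ^ 3 + 1) (hw : y * w = 1) :
    PowerSeries.C (lam ^ ((p - 1) / 2)) * (PowerSeries.derivative F x * w) =
      ∑ i ∈ Finset.range ((p - 1) / 2 + 1), w ^ p *
        (PowerSeries.C ((Nat.choose ((p - 1) / 2) i : ℕ) : F) *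
          (x ^ (3 * i) * PowerSeries.derivative F x)) := by
  have hp : p.Prime := Fact.out
  have hp2 := hp.two_le
  have hodd : p % 2 = 1 := by
    rcases hp.eq_two_or_odd with h2 | h2
    · subst h2; omega
    · exact h2
  obtain ⟨m, hm⟩ : ∃ m, p = 2 * m + 1 := ⟨p / 2, by omega⟩
  have hm2 : (p - 1) / 2 = m := by omega
  rw [hm2]
  have e1 : PowerSeries.C (lam ^ m) * y ^ (2 * m) = (x ^ 3 + 1) ^ m := by
    rw [← h, mul_pow, map_pow, pow_mul]
  have e2 : w = w ^ p * y ^ (2 * m) := by
    have : w ^ p * y ^ (2 * m) = w * (y * w) ^ (2 * m) := by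
      rw [mul_pow, hm, pow_succ]; ring
    rw [this, hw, one_pow, mul_one]
  have e3 : (x ^ 3 + 1) ^ m = ∑ i ∈ Finset.range (m + 1),
      PowerSeries.C ((Nat.choose m i : ℕ) : F) * x ^ (3 * i) := by
    rw [add_pow]
    refine Finset.sum_congr rfl fun i _ => ?_
    rw [one_pow, mul_one, ← pow_mul, map_natCast, mul_comm]
  calc PowerSeries.C (lam ^ m) * (PowerSeries.derivative F x * w)
      = PowerSeries.C (lam ^ m) * (PowerSeries.derivative F x * (w ^ p * y ^ (2 * m))) := by
        rw [← e2]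
    _ = w ^ p * ((PowerSeries.C (lam ^ m) * y ^ (2 * m)) * PowerSeries.derivative F x) := by
        ring
    _ = w ^ p * ((∑ i ∈ Finset.range (m + 1),
          PowerSeries.C ((Nat.choose m i : ℕ) : F) * x ^ (3 * i)) *
            PowerSeries.derivative F x) := by
        rw [e1, e3]
    _ = _ := by
        rw [Finset.sum_mul, Finset.mul_sum]
        refine Finset.sum_congr rfl fun i _ => ?_
        ring

theorem eig_id (hp3 : p % 3 = 1) {lam : F} {x y w : PowerSeries F}
    (h : PowerSeries.C lam * y ^ 2 = x ^ 3 + 1) (hw : y * w = 1) :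
    PowerSeries.C (lam ^ ((p - 1) / 2)) *
        (PowerSeries.derivative F)^[p - 1] (PowerSeries.derivative F x * w) =
      - PowerSeries.C ((Nat.choose ((p - 1) / 2) ((p - 1) / 3) : ℕ) : F) *
        (PowerSeries.derivative F x * w) ^ p := by
  have hp : p.Prime := Fact.out
  have hp2 := hp.two_le
  have hkey := eig_pow p hp3 h hw
  rw [← d_C_mul, hkey, d_iter_sum]
  have hz : ∀ i ∈ Finset.range ((p - 1) / 2 + 1), i ≠ (p - 1) / 3 →
      (PowerSeries.derivative F)^[p - 1] (w ^ p *
        (PowerSeries.C ((Nat.choose ((p - 1) / 2) i : ℕ) : F) *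
          (x ^ (3 * i) * PowerSeries.derivative F x))) = 0 := by
    intro i hi hne
    rw [Finset.mem_range] at hi
    rw [d_const_mul (d_pow_p p w), d_C_mul, der_id' p x, mul_zero, mul_zero]
    rintro ⟨c, hc⟩
    have hc2 : c < 2 := by
      by_contra hcc
      have : p * 2 ≤ p * c := Nat.mul_le_mul_left p (by omega)
      omega
    interval_cases c
    · omega
    · omega
  have hmem : (p - 1) / 3 ∈ Finset.range ((p - 1) / 2 + 1) := by
    rw [Finset.mem_range]; omega
  rw [Finset.sum_eq_single_of_mem _ hmem hz]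
  have h3 : 3 * ((p - 1) / 3) = p - 1 := by omega
  rw [h3, d_const_mul (d_pow_p p w), d_C_mul, der_id, mul_pow]
  ring

end UD0
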