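import Pool.Agent.UD0.Base
import Pool.Agent.UD0.ArE
import Pool.Agent.UD0.AlgInd

/-!
# UD0: homomorphisms out of a presented field; the embedding into `ℚ_q`

PROOF of `lift_hom`.  `f = AdjoinRoot.lift ψ θ hθ : P.R →+* B` extends `ψ`.  `P.R` is a domain (`isDomain_R`), integral over
`ℤ[t]` (`G` monic), and `f` is injective on `ℤ[t]`: a nonzero ideal of `P.R` (here `ker f`) meets `ℤ[t]` in a nonzero ideal
(`exists_norm_mul` : a nonzero `h ∈ ker f` divides a nonzero polynomial `H ∈ ker ψ`, contradiction).  So `f` is injective.  Extend to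
the fraction field: every `x : K` satisfies `P.φ b * x = P.φ a` with `b ≠ 0` (`P.surj`); `e x = f a / f b` is well defined and a ring
homomorphism (`K` is a fraction field of `P.R`: `IsFractionRing P.R K` for the algebra structure `P.φ.toAlgebra`, then
`IsFractionRing.lift` for the injective `f`).
PROOF of `exists_emb`.  `τ : P.R →+* ZMod q` with `τ disc ≠ 0`.  Let `c i = τ (P.tR i)`; `exists_alg_indep q P.d c` gives
`x : Fin P.d → ℤ_[q]`, algebraically independent, with residues `c`.  Put `ψ = aeval`/`eval₂Hom (Int.castRingHom ℤ_[q]) x`,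
`g = G.map ψ ∈ ℤ_[q][X]`, monic.  Modulo `q` it is `G.map (τ ∘ of)`, which has the root `τ (root)`, with derivative `τ disc ≠ 0`.
Hensel (`ℤ_[q]` is Henselian: `HenselianLocalRing`, or `hensels_lemma` with a lift `θ₀` of the root: `‖g θ₀‖ < 1 = ‖g' θ₀‖ ^ 2`) gives a root
`θ : ℤ_[q]`.  `lift_hom` with `B = ℚ_[q]`.
-/

set_option autoImplicit false

open Polynomial

namespace UD0

universe u

variable {K : Type u} [Field K]

theorem lift_hom (P : Pres K) {B : Type*} [Field B]
    (ψ : MvPolynomial (Fin P.d) ℤ →+* B) (hψ : Function.Injective ψ) (θ : B)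
    (hθ : P.G.eval₂ ψ θ = 0) :
    ∃ e : K →+* B, (∀ a, e (P.φ (AdjoinRoot.of P.G a)) = ψ a) ∧
      e (P.φ (AdjoinRoot.root P.G)) = θ := by
  have dom := isDomain_R P
  let f : P.R →+* B := AdjoinRoot.lift ψ θ hθ
  have hf_of : ∀ a, f (AdjoinRoot.of P.G a) = ψ a := fun a => AdjoinRoot.lift_of hθ
  have hf_root : f (AdjoinRoot.root P.G) = θ := AdjoinRoot.lift_root hθ
  have hf : Function.Injective f := by
    rw [injective_iff_map_eq_zero]
    intro h hh
    by_contra h0
    obtain ⟨H, y, hH, hy⟩ := exists_norm_mul P h0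
    have h1 := congrArg f hy
    rw [map_mul, hh, zero_mul, hf_of] at h1
    exact hH (hψ (by rw [map_zero]; exact h1.symm))
  let _alg : Algebra P.R K := P.φ.toAlgebra
  have hfaith : FaithfulSMul P.R K := (faithfulSMul_iff_algebraMap_injective P.R K).2 P.inj
  have hfrac : IsFractionRing P.R K := by
    apply IsFractionRing.of_field
    intro z
    obtain ⟨a, b, hb, hab⟩ := P.surj z
    refine ⟨a, b, ?_⟩
    have hb' : P.φ b ≠ 0 := fun h => hb (P.inj (by rw [h, map_zero]))
    change z = P.φ a / P.φ b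
    rw [eq_div_iff hb', mul_comm]
    exact hab
  refine ⟨IsFractionRing.lift hf, fun a => ?_, ?_⟩
  · rw [← hf_of]
    exact IsFractionRing.lift_algebraMap hf _
  · rw [← hf_root]
    exact IsFractionRing.lift_algebraMap hf _

theorem exists_emb (P : Pres K) {q : ℕ} [Fact q.Prime] (h : P.Good q) :
    Nonempty (K →+* ℚ_[q]) := by
  obtain ⟨-, -, τ, hτ⟩ := h
  obtain ⟨x, hx, hxc⟩ := exists_alg_indep q P.d fun i => τ (P.tR i)
  let ψ0 : MvPolynomial (Fin P.d) ℤ →+* ℤ_[q] := MvPolynomial.eval₂Hom (Int.castRingHom _) x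
  have hψ0 : ∀ i, ψ0 (MvPolynomial.X i) = x i := fun i => MvPolynomial.eval₂_X _ _ _
  let ψ : MvPolynomial (Fin P.d) ℤ →+* ℚ_[q] := (PadicInt.Coe.ringHom (p := q)).comp ψ0
  have hψ : Function.Injective ψ := by
    have h1 : (ψ : MvPolynomial (Fin P.d) ℤ → ℚ_[q]) =
        MvPolynomial.aeval (R := ℤ) (fun i => ((x i : ℤ_[q]) : ℚ_[q])) := by
      have h2 : ψ = (MvPolynomial.aeval (R := ℤ) (fun i => ((x i : ℤ_[q]) : ℚ_[q])) :
          MvPolynomial (Fin P.d) ℤ →+* ℚ_[q]) := by
        refine MvPolynomial.ringHom_ext (fun r => ?_) fun i => ?_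
        · have h1 : (MvPolynomial.C r : MvPolynomial (Fin P.d) ℤ) =
              (r : MvPolynomial (Fin P.d) ℤ) := by simp
          rw [h1, map_intCast, map_intCast]
        · change ((ψ0 (MvPolynomial.X i) : ℤ_[q]) : ℚ_[q]) = MvPolynomial.aeval _ _
          rw [hψ0, MvPolynomial.aeval_X]
      rw [h2]
      rfl
    rw [h1]
    exact hx
  -- reduction modulo `q`
  have hcomp : (PadicInt.toZMod (p := q)).comp ψ0 = τ.comp (AdjoinRoot.of P.G) := by
    refine MvPolynomial.ringHom_ext (fun r => ?_) fun i => ?_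
    · have h1 : (MvPolynomial.C r : MvPolynomial (Fin P.d) ℤ) =
          (r : MvPolynomial (Fin P.d) ℤ) := by simp
      rw [h1, map_intCast, map_intCast]
    · rw [RingHom.comp_apply, hψ0, hxc]
      rfl
  let a : ℤ_[q] := (((τ (AdjoinRoot.root P.G)).val : ℕ) : ℤ_[q])
  have ha : PadicInt.toZMod a = τ (AdjoinRoot.root P.G) := by
    change PadicInt.toZMod (((τ (AdjoinRoot.root P.G)).val : ℕ) : ℤ_[q]) = _
    rw [map_natCast, ZMod.natCast_zmod_val]
  have hred : ∀ F : (MvPolynomial (Fin P.d) ℤ)[X],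
      PadicInt.toZMod (aeval a (F.map ψ0)) = τ (AdjoinRoot.mk P.G F) := by
    intro F
    rw [aeval_def, Algebra.algebraMap_self, eval₂_id, eval_map, hom_eval₂, hcomp, ha, ← hom_eval₂]
    congr 1
    exact AdjoinRoot.aeval_eq F
  have hlt : ∀ z : ℤ_[q], PadicInt.toZMod z = 0 ↔ ‖z‖ < 1 := by
    intro z
    rw [← RingHom.mem_ker, PadicInt.ker_toZMod, IsLocalRing.mem_maximalIdeal,
      PadicInt.mem_nonunits]
  have h1 : ‖aeval a (P.G.map ψ0)‖ < 1 := by
    rw [← hlt, hred, AdjoinRoot.mk_self, map_zero]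
  have h2 : ‖aeval a (derivative (P.G.map ψ0))‖ = 1 := by
    apply le_antisymm (PadicInt.norm_le_one _)
    by_contra h3
    rw [not_le, ← hlt, derivative_map, hred] at h3
    exact hτ h3
  obtain ⟨θ, hθ, -⟩ := hensels_lemma (F := P.G.map ψ0) (a := a) (by rw [h2, one_pow]; exact h1)
  obtain ⟨e, -, -⟩ := lift_hom P ψ hψ (θ : ℚ_[q]) (by
    have h3 : P.G.eval₂ ψ0 θ = 0 := by
      rw [aeval_def, Algebra.algebraMap_self, eval₂_id, eval_map] at hθ
      exact hθ
    have h4 := congrArg (PadicInt.Coe.ringHom (p := q)) h3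
    rw [hom_eval₂, map_zero] at h4
    exact h4)
  exact ⟨e⟩

end UD0
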