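import Mathlib

/-!
# UD0: divisibility in number fields

`k` a number field, integral elements `IsIntegral ℤ x`.
PROOF of `rat_int` : `ℤ` is integrally closed in `ℚ`.
PROOF of `int_of_div` : `x` integral and for infinitely many (unboundedly many) integers `M > 0` there are an integer `s` and an integral
`g` with `x - s = M g`; then `x` is an integer.  `𝓞 k` is a free `ℤ`-module of finite rank and `ℤ · 1` is a saturated submodule (`M g ∈ ℤ`
implies `g ∈ ℚ` integral, so `g ∈ ℤ`), so the quotient `𝓞 k ⧸ ℤ` is a finitely generated torsion free, hence free `ℤ`-module; the class of `x` is divisible by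
unboundedly many integers, so it is zero (coordinates).  (Alternative without the quotient: for two embeddings `σ, τ` of `k` into `ℂ`,
`σ x - τ x = M (σ g - τ g)`; the element `∏ (σ x - τ x)` over the pairs with `σ x ≠ τ x` ... or: the minimal polynomial/discriminant: let
`d = [ℚ(x) : ℚ]`; the integer `D = ∏_{i<j} (x_i - x_j) ^ 2` of the conjugates of `x` is divisible by `M ^ (d (d - 1))` with quotient an
algebraic integer; `D ≠ 0`, so `d = 1` for large `M`.)
PROOF of `zero_of_div` : `x` integral, divisible by all positive integers `M`: zero (norm: `N(x) = M ^ n N(g)`).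
PROOF of `exists_ord_one` : there is a nonzero prime ideal `v` of `𝓞 k` and `c ∈ k`, `c ≠ 0`, with `v`-valuation exactly one; as a homomorphism
`w : kˣ → ℤ`, `w c = 1` (`HeightOneSpectrum.valuation_exists_uniformizer`, `WithZero.log`); `𝓞 k` is not a field, so there is a nonzero prime.
PROOF of `root_of_unity` : `x ≠ 0` in `k` such that for unboundedly many `M > 0` there are `v ∈ k` and a root of unity `ζ` with `x = ζ v ^ M`; then
`x` is a root of unity.  At each prime `w(x) = M w(v)` for unboundedly many `M`, so `w(x) = 0` and `w(v) = 0` (`M > 0`); so `x`, `v` are units of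
`𝓞 k` (`HeightOneSpectrum` valuations all `≤ 1`: integral, `IsDedekindDomain.HeightOneSpectrum.mem_integers_of_valuation_le_one`).  For every
complex embedding `σ`: `|σ v| = |σ x| ^ (1 / M) ≤ max 1 |σ x|`, so all the `v` lie in a finite set
(`NumberField.Embeddings.finite_of_norm_le`).  So one `v` occurs for infinitely many `M`: `|σ v| ^ M = |σ x|` for at least two different `M > 0`, so
`|σ v| = 1` (nonzero), `|σ x| = 1` for all `σ`, and `x` is a root of unity (Kronecker: `NumberField.Embeddings.pow_eq_one_of_norm_eq_one`).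
-/

set_option autoImplicit false

open NumberField

namespace UD0

theorem rat_int {k : Type*} [Field k] [CharZero k] (x : ℚ) (h : IsIntegral ℤ (x : k)) :
    ∃ n : ℤ, x = n := by
  have h1 : IsIntegral ℤ (algebraMap ℚ k x) := by simpa using h
  have h2 : IsIntegral ℤ x := (isIntegral_algebraMap_iff (algebraMap ℚ k).injective).1 h1
  obtain ⟨n, hn⟩ := IsIntegrallyClosed.isIntegral_iff.1 h2
  exact ⟨n, by simpa using hn.symm⟩

/-- an element of a finite free `ℤ`-module divisible by unboundedly many integers is zero -/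
private theorem free_zero (Q : Type*) [AddCommGroup Q] [Module.Finite ℤ Q]
    [Module.Free ℤ Q] (q : Q) (h : ∀ N : ℕ, ∃ M : ℕ, N < M ∧ ∃ g : Q, q = (M : ℤ) • g) :
    q = 0 := by
  have b := Module.Free.chooseBasis ℤ Q
  apply b.ext_elem
  intro i
  rw [map_zero, Finsupp.zero_apply]
  by_contra hne
  obtain ⟨M, hM, g, hg⟩ := h (b.repr q i).natAbs
  have h1 : b.repr q i = (M : ℤ) * b.repr g i := by
    conv_lhs => rw [hg]
    rw [map_smul, Finsupp.smul_apply, smul_eq_mul]
  have h2 : (M : ℤ) ∣ b.repr q i := ⟨_, h1⟩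
  have h3 := Int.natAbs_dvd_natAbs.2 h2
  have h4 := Nat.le_of_dvd (Int.natAbs_pos.2 hne) h3
  simp only [Int.natAbs_natCast] at h4
  omega

variable {k : Type*} [Field k] [NumberField k]

theorem int_of_div {x : k} (hx : IsIntegral ℤ x)
    (h : ∀ N : ℕ, ∃ M : ℕ, N < M ∧ ∃ (s : ℤ) (g : k), IsIntegral ℤ g ∧ x - s = M * g) :
    ∃ n : ℤ, x = n := by
  set N1 : Submodule ℤ (𝓞 k) := Submodule.span ℤ {1} with hN1
  have htf : Module.IsTorsionFree ℤ (𝓞 k ⧸ N1) := by
    refine Module.IsTorsionFree.of_smul_eq_zero fun m q hq => ?_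
    induction q using Submodule.Quotient.induction_on with
    | H Y =>
      by_cases hm : m = 0
      · exact Or.inl hm
      · right
        rw [← Submodule.Quotient.mk_smul, Submodule.Quotient.mk_eq_zero, hN1,
          Submodule.mem_span_singleton] at hq
        obtain ⟨n, hn⟩ := hq
        have hm' : (m : k) ≠ 0 := by exact_mod_cast hm
        have h1 : (n : k) = (m : k) * (Y : k) := by
          have := congrArg (fun y : 𝓞 k => (y : k)) hn
          simpa using this
        have h2 : (Y : k) = (((n : ℚ) / (m : ℚ) : ℚ) : k) := by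
          push_cast
          rw [h1]
          field_simp
        obtain ⟨l, hl⟩ := rat_int (k := k) ((n : ℚ) / (m : ℚ)) (by
          rw [← h2]
          exact RingOfIntegers.isIntegral_coe Y)
        rw [hl] at h2
        rw [Submodule.Quotient.mk_eq_zero, hN1, Submodule.mem_span_singleton]
        refine ⟨l, ?_⟩
        apply RingOfIntegers.ext
        simpa using h2.symm
  have hfin : Module.Finite ℤ (𝓞 k ⧸ N1) := inferInstance
  have hfree : Module.Free ℤ (𝓞 k ⧸ N1) := inferInstance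
  have h1 : Submodule.Quotient.mk (p := N1) (⟨x, hx⟩ : 𝓞 k) = 0 := by
    apply free_zero
    intro N
    obtain ⟨M, hM, s, g, hg, hxg⟩ := h N
    refine ⟨M, hM, Submodule.Quotient.mk (⟨g, hg⟩ : 𝓞 k), ?_⟩
    rw [← Submodule.Quotient.mk_smul, Submodule.Quotient.eq]
    rw [hN1, Submodule.mem_span_singleton]
    refine ⟨s, ?_⟩
    apply RingOfIntegers.ext
    have h2 : x - M * g = s := by rw [← hxg]; ring
    simpa using h2.symm
  rw [Submodule.Quotient.mk_eq_zero, hN1, Submodule.mem_span_singleton] at h1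
  obtain ⟨n, hn⟩ := h1
  refine ⟨n, ?_⟩
  have := congrArg (fun y : 𝓞 k => (y : k)) hn
  simpa using this.symm

theorem zero_of_div {x : k} (hx : IsIntegral ℤ x)
    (h : ∀ N : ℕ, ∃ M : ℕ, N < M ∧ ∃ g : k, IsIntegral ℤ g ∧ x = M * g) : x = 0 := by
  let X : 𝓞 k := ⟨x, hx⟩
  have h1 : X = 0 := by
    apply free_zero
    intro N
    obtain ⟨M, hM, g, hg, hxg⟩ := h N
    refine ⟨M, hM, (⟨g, hg⟩ : 𝓞 k), ?_⟩
    apply RingOfIntegers.ext
    have h3 : (X : k) = x := rfl
    rw [h3]
    simpa using hxg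
  have h2 : (X : k) = ((0 : 𝓞 k) : k) := by rw [h1]
  exact h2

theorem exists_ord_one : ∃ (w : kˣ →* Multiplicative ℤ) (c : kˣ),
    w c = Multiplicative.ofAdd 1 := by
  obtain ⟨P, hP0, hP⟩ := (Ring.not_isField_iff_exists_prime).1 (RingOfIntegers.not_isField k)
  let v : IsDedekindDomain.HeightOneSpectrum (𝓞 k) := ⟨P, hP, hP0⟩
  obtain ⟨π, hπ⟩ := v.valuation_exists_uniformizer k
  have hπ0 : π ≠ 0 := by
    intro h0
    rw [h0, map_zero] at hπ
    exact WithZero.exp_ne_zero hπ.symm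
  refine ⟨v.valuationOfNeZero, (Units.mk0 π hπ0)⁻¹, ?_⟩
  have h1 : v.valuationOfNeZero (Units.mk0 π hπ0) = Multiplicative.ofAdd (-1 : ℤ) := by
    rw [← WithZero.coe_inj, IsDedekindDomain.HeightOneSpectrum.valuationOfNeZero_eq]
    exact hπ
  rw [map_inv, h1]
  rfl

/-- the valuations are `1` -/
private theorem val_eq_one {x : k} (hx : x ≠ 0)
    (h : ∀ N : ℕ, ∃ M : ℕ, N < M ∧ ∃ (v ζ : k) (e : ℕ), 0 < e ∧ ζ ^ e = 1 ∧ x = ζ * v ^ M)
    (P : IsDedekindDomain.HeightOneSpectrum (𝓞 k)) : P.valuation k x = 1 := by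
  set a : ℤ := Multiplicative.toAdd (P.valuationOfNeZero (Units.mk0 x hx)) with ha
  obtain ⟨M, hM, v, ζ, e, he, hζ, hxv⟩ := h a.natAbs
  have hζ0 : ζ ≠ 0 := by
    intro h0
    rw [h0, zero_mul] at hxv
    exact hx hxv
  have hv0 : v ≠ 0 := by
    intro h0
    rw [h0, zero_pow (by omega), mul_zero] at hxv
    exact hx hxv
  have h1 : Units.mk0 x hx = Units.mk0 ζ hζ0 * (Units.mk0 v hv0) ^ M := by
    apply Units.ext
    simpa using hxv
  have h2 : (P.valuationOfNeZero (Units.mk0 ζ hζ0)) ^ e = 1 := by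
    rw [← map_pow]
    have h3 : (Units.mk0 ζ hζ0) ^ e = 1 := by
      apply Units.ext
      simpa using hζ
    rw [h3, map_one]
  have h4 : P.valuationOfNeZero (Units.mk0 ζ hζ0) = 1 := by
    have h5 := congrArg Multiplicative.toAdd h2
    rw [toAdd_pow, toAdd_one, nsmul_eq_mul, mul_eq_zero] at h5
    rcases h5 with h5 | h5
    · exact absurd (by exact_mod_cast h5) he.ne'
    · exact h5
  set b : ℤ := Multiplicative.toAdd (P.valuationOfNeZero (Units.mk0 v hv0)) with hb
  have h6 : a = M * b := by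
    rw [ha, h1, map_mul, map_pow, h4, one_mul, toAdd_pow, nsmul_eq_mul, hb]
  have h7 : a = 0 := by
    by_contra hne
    have h8 : (M : ℤ) ∣ a := ⟨_, h6⟩
    have h9 := Int.natAbs_dvd_natAbs.2 h8
    have h10 := Nat.le_of_dvd (Int.natAbs_pos.2 hne) h9
    simp only [Int.natAbs_natCast] at h10
    omega
  have h11 : P.valuationOfNeZero (Units.mk0 x hx) = 1 := h7
  have h12 := P.valuationOfNeZero_eq (K := k) (Units.mk0 x hx)
  rw [h11] at h12
  exact h12.symm

theorem root_of_unity {x : k} (hx : x ≠ 0)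
    (h : ∀ N : ℕ, ∃ M : ℕ, N < M ∧ ∃ (v ζ : k) (e : ℕ), 0 < e ∧ ζ ^ e = 1 ∧ x = ζ * v ^ M) :
    ∃ e : ℕ, 0 < e ∧ x ^ e = 1 := by
  have hval := val_eq_one hx h
  have hxint : IsIntegral ℤ x := by
    obtain ⟨y, hy⟩ := IsDedekindDomain.HeightOneSpectrum.mem_integers_of_valuation_le_one
      (R := 𝓞 k) k x (fun P => (hval P).le)
    rw [← hy]
    exact RingOfIntegers.isIntegral_coe y
  set B : ℝ := 1 + ∑ σ : k →+* ℂ, ‖σ x‖ with hB
  have hB1 : ∀ σ : k →+* ℂ, 1 ≤ B ∧ ‖σ x‖ ≤ B := by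
    intro σ
    have h1 : ‖σ x‖ ≤ ∑ σ : k →+* ℂ, ‖σ x‖ :=
      Finset.single_le_sum (f := fun σ : k →+* ℂ => ‖σ x‖) (fun _ _ => norm_nonneg _)
        (Finset.mem_univ σ)
    have h2 : 0 ≤ ‖σ x‖ := norm_nonneg _
    constructor <;> linarith
  have hfin := NumberField.Embeddings.finite_of_norm_le k ℂ B
  set T : Set ℕ := {M | 0 < M ∧ ∃ (v ζ : k) (e : ℕ), 0 < e ∧ ζ ^ e = 1 ∧ x = ζ * v ^ M} with hT
  have hTinf : T.Infinite := by
    apply Set.infinite_of_forall_exists_gt
    intro N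
    obtain ⟨M, hM, hh⟩ := h N
    exact ⟨M, ⟨by omega, hh⟩, hM⟩
  have hch : ∀ M ∈ T, ∃ v : k, (IsIntegral ℤ v ∧ ∀ σ : k →+* ℂ, ‖σ v‖ ≤ B) ∧ v ≠ 0 ∧
      ∀ σ : k →+* ℂ, ‖σ x‖ = ‖σ v‖ ^ M := by
    rintro M ⟨hM, v, ζ, e, he, hζ, hxv⟩
    have hv0 : v ≠ 0 := by
      intro h0
      rw [h0, zero_pow (by omega), mul_zero] at hxv
      exact hx hxv
    have hn : ∀ σ : k →+* ℂ, ‖σ x‖ = ‖σ v‖ ^ M := by
      intro σ
      have h1 : ‖σ ζ‖ = 1 := by
        apply Complex.norm_eq_one_of_pow_eq_one (n := e) _ he.ne'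
        rw [← map_pow, hζ, map_one]
      rw [hxv, map_mul, map_pow, norm_mul, norm_pow, h1, one_mul]
    refine ⟨v, ⟨?_, ?_⟩, hv0, hn⟩
    · obtain ⟨y, hy⟩ := IsDedekindDomain.HeightOneSpectrum.mem_integers_of_valuation_le_one
        (R := 𝓞 k) k v (fun P => by
          have h1 := hval P
          rw [hxv, map_mul, map_pow] at h1
          have h2 : P.valuation k ζ = 1 := by
            have h3 : (P.valuation k ζ) ^ e = 1 := by rw [← map_pow, hζ, map_one]
            exact (pow_eq_one_iff_of_nonneg zero_le he.ne').1 h3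
          rw [h2, one_mul] at h1
          exact ((pow_eq_one_iff_of_nonneg zero_le hM.ne').1 h1).le)
      rw [← hy]
      exact RingOfIntegers.isIntegral_coe y
    · intro σ
      by_contra hlt
      push Not at hlt
      have h1 : 1 ≤ ‖σ v‖ := (hB1 σ).1.trans hlt.le
      have h2 : ‖σ v‖ ≤ ‖σ v‖ ^ M := le_self_pow₀ h1 hM.ne'
      rw [← hn σ] at h2
      linarith [(hB1 σ).2]
  choose! f hf1 hf2 hf3 using hch
  obtain ⟨M1, hM1, M2, hM2, hne, heq⟩ := hTinf.exists_ne_map_eq_of_mapsTo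
    (t := {x : k | IsIntegral ℤ x ∧ ∀ φ : k →+* ℂ, ‖φ x‖ ≤ B}) (f := f)
    (fun M hM => hf1 M hM) hfin
  obtain ⟨e, he, hxe⟩ := NumberField.Embeddings.pow_eq_one_of_norm_eq_one k ℂ hxint (by
    intro σ
    have h1 := hf3 M1 hM1 σ
    have h2 := hf3 M2 hM2 σ
    have h3 : 0 < ‖σ (f M1)‖ := norm_pos_iff.2 ((map_ne_zero σ).2 (hf2 M1 hM1))
    rw [← heq, h1] at h2
    by_contra hne1
    have h4 : ‖σ (f M1)‖ ≠ 1 := by
      intro h5
      apply hne1
      rw [h1, h5, one_pow]
    exact hne (pow_right_injective₀ h3 h4 h2))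
  exact ⟨e, he, hxe⟩

end UD0
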