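import Pool.Agent.UD0.CodDefs
import Pool.Agent.UD0.LatA

/-!
# UD0, section 5, part A: the integers from the powers of `l`

`OK` : the algebraic integers of `K`; `Lam` : the powers `l ^ s`; `Pm u m y` : `y = u ^ m` for `m = l ^ s` (`structure PowIn`).
PROOF of `w0_iff` : unfold; for `u ≠ 0`, `w ≠ 0`, `v ≠ 0` and `m = l ^ r` (`r ≥ 1` iff `m ≠ 1` since `1 < l` and `K` has characteristic zero):
`W1 = w ^ (l ^ r)`, `V1 = v ^ (l ^ r)`, `V2 = V1 ^ (l ^ r)`, `U1 = u ^ (l ^ r')`; with `M = l ^ r - 1` (natural number) the equation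
`W1 * V2 * v * u = U1 * w * V1 ^ 2` divided by `w u v ^ (2 l ^ r)` is `w ^ M * v ^ (M ^ 2) = u ^ (l ^ r' - 1)`
(`(l ^ r) ^ 2 + 1 = M ^ 2 + 2 l ^ r`).  `n = n₀` an integer (`z0_iff`, which is the hypothesis `hZ` here), `g` is integral over `ℤ` and a
rational number: `g = (m' - 1 - n₀ (m - 1)) / (m - 1) ^ 2`, so it is an integer (`UD0.rat_int`).
PROOF of `z0_int` (`x` in `Z0` is an integer).  For `r ≥ 1`, `M = l ^ r - 1`: `l ^ r' - 1 - x M = M ^ 2 g`, so `N = x + M g` is integral over `ℤ` and equal to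
the rational number `(l ^ r' - 1) / M`, hence an integer (`rat_int`), and `x - N = M * (- g)`.  The `M` are unbounded.  Apply
`UD0.int_of_div` in the number field `k = ℚ⟮x⟯` (`IntermediateField.adjoin ℚ {x}`, finite over `ℚ` as `x` is integral; `K` is a `ℚ`-algebra,
`DivisionRing.toRatAlgebra`): `g = (N - x) / M` is in `k`, integral over `ℤ` in `k` (`isIntegral_algebraMap_iff` or `IsIntegral.map`-type
lemma for the injective map `k → K`).
PROOF of `int_z0` (`n₀ : ℤ` is in `Z0`).  `OK`: integers are integral.  Let `m = l ^ r ≠ 1`, `M = m - 1 ≥ 1`.  Choose `s : ℕ` with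
`s = n₀` modulo `M` (`s = n₀ + M * |n₀|`, nonnegative as `M ≥ 1`).  `m' = m ^ s = l ^ (r s)`.  `m ^ s - 1 = M * ∑ i < s, m ^ i` and
`∑ i < s, m ^ i - s = ∑ i < s, (m ^ i - 1)` is divisible by `M` (in `ℤ`), so `m ^ s - 1 - n₀ M` is divisible by `M ^ 2` in `ℤ`; this is
`exists_cong`.
-/

set_option autoImplicit false

open Polynomial

namespace UD0

universe u

section

variable {K : Type u} [Field K] (OK Lam : K → Prop) (Pm : K → K → K → Prop)

/-- the integers -/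
def Z0 (x : K) : Prop :=
  OK x ∧ ∀ m, Lam m → m ≠ 1 → ∃ m' g, Lam m' ∧ OK g ∧ m' - 1 - x * (m - 1) = (m - 1) * (m - 1) * g

/-- `w = u ^ n` up to a root of unity -/
def W0 (u n w : K) : Prop :=
  Z0 OK Lam n ∧ u ≠ 0 ∧ w ≠ 0 ∧ ∀ m, Lam m → m ≠ 1 → ∃ m' g v W1 V1 V2 U1, Lam m' ∧ OK g ∧
    m' - 1 - n * (m - 1) = (m - 1) * (m - 1) * g ∧ v ≠ 0 ∧ Pm w m W1 ∧ Pm v m V1 ∧ Pm V1 m V2 ∧
      Pm u m' U1 ∧ W1 * V2 * v * u = U1 * w * (V1 * V1)

/-- The input of section 5. -/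
structure PowIn (l : ℕ) : Prop where
  ok : ∀ x : K, OK x ↔ IsIntegral ℤ x
  lam : ∀ m : K, Lam m ↔ ∃ s : ℕ, m = (l : K) ^ s
  pm : ∀ (u : K) (s : ℕ) (y : K), u ≠ 0 → (Pm u ((l : K) ^ s) y ↔ y = u ^ l ^ s)

end

variable {K : Type u} [Field K] [CharZero K] {OK Lam : K → Prop} {Pm : K → K → K → Prop}

private theorem cong_aux (m : ℤ) (s : ℕ) :
    ∃ g : ℤ, m ^ s - 1 - s * (m - 1) = (m - 1) ^ 2 * g := by
  induction s with
  | zero => exact ⟨0, by simp⟩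
  | succ s ih =>
    obtain ⟨g, hg⟩ := ih
    refine ⟨m * g + s, ?_⟩
    have e : m ^ (s + 1) - 1 - ((s + 1 : ℕ) : ℤ) * (m - 1) =
        m * (m ^ s - 1 - s * (m - 1)) + s * (m - 1) ^ 2 := by
      push_cast
      ring
    rw [e, hg]
    ring

private theorem pow_ne_one42 {l : ℕ} (hl : 1 < l) {r : ℕ} (hr : 0 < r) :
    ((l : K) ^ r) ≠ 1 := by
  intro h
  have h1 : ((l ^ r : ℕ) : K) = ((1 : ℕ) : K) := by
    push_cast
    exact h
  have h2 : l ^ r = 1 := Nat.cast_injective h1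
  have h3 := Nat.one_lt_pow hr.ne' hl
  omega

theorem exists_cong {l : ℕ} (hl : 1 < l) {r : ℕ} (hr : 0 < r) (n : ℤ) :
    ∃ (r' : ℕ) (g : ℤ), (l : ℤ) ^ r' - 1 - n * ((l : ℤ) ^ r - 1) = ((l : ℤ) ^ r - 1) ^ 2 * g := by
  have h1 : 1 < l ^ r := Nat.one_lt_pow hr.ne' hl
  have h1' : (1 : ℤ) < (l : ℤ) ^ r := by exact_mod_cast h1
  set m : ℤ := (l : ℤ) ^ r with hm
  have hs : 0 ≤ n + (m - 1) * |n| := by
    have h2 : |n| ≤ (m - 1) * |n| := le_mul_of_one_le_left (abs_nonneg n) (by linarith)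
    have h3 := neg_abs_le n
    linarith
  obtain ⟨s, hs'⟩ := Int.eq_ofNat_of_zero_le hs
  obtain ⟨g, hg⟩ := cong_aux m s
  refine ⟨r * s, g + |n|, ?_⟩
  have e : (l : ℤ) ^ (r * s) = m ^ s := by rw [hm, pow_mul]
  rw [e]
  have e2 : (s : ℤ) = n + (m - 1) * |n| := hs'.symm
  rw [e2] at hg
  linear_combination hg

theorem int_z0 {l : ℕ} (hl : 1 < l) (h : PowIn OK Lam Pm l) (n : ℤ) : Z0 OK Lam (n : K) := by
  refine ⟨(h.ok _).2 (isIntegral_algebraMap (R := ℤ) (A := K) (x := n)), ?_⟩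
  intro m hm hm1
  obtain ⟨s, rfl⟩ := (h.lam m).1 hm
  have hs : 0 < s := by
    rcases Nat.eq_zero_or_pos s with rfl | hs
    · simp at hm1
    · exact hs
  obtain ⟨r', g, hg⟩ := exists_cong hl hs n
  refine ⟨(l : K) ^ r', (g : K), (h.lam _).2 ⟨r', rfl⟩,
    (h.ok _).2 (isIntegral_algebraMap (R := ℤ) (A := K) (x := g)), ?_⟩
  have e := congrArg (fun z : ℤ => (z : K)) hg
  push_cast at e
  rw [e]
  ring

/-- a rational integral element is an integer -/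
private theorem div_int {A B : ℤ} (hB : B ≠ 0) {g : K} (hg : IsIntegral ℤ g)
    (e : (B : K) * g = A) : ∃ n : ℤ, g = n := by
  have hB' : (B : K) ≠ 0 := by exact_mod_cast hB
  have e1 : g = (((A : ℚ) / (B : ℚ) : ℚ) : K) := by
    push_cast
    field_simp
    linear_combination e
  obtain ⟨n, hn⟩ := rat_int (k := K) ((A : ℚ) / (B : ℚ)) (by rw [← e1]; exact hg)
  refine ⟨n, ?_⟩
  rw [e1, hn]
  simp

theorem z0_int {l : ℕ} (hl : 1 < l) (h : PowIn OK Lam Pm l) {x : K} (hx : Z0 OK Lam x) :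
    ∃ n : ℤ, x = n := by
  have hxi : IsIntegral ℤ x := (h.ok x).1 hx.1
  have hxq : IsIntegral ℚ x := hxi.tower_top
  have hfd : FiniteDimensional ℚ (IntermediateField.adjoin ℚ {x}) :=
    IntermediateField.adjoin.finiteDimensional hxq
  have hnf : NumberField (IntermediateField.adjoin ℚ {x}) := ⟨⟩
  let k := IntermediateField.adjoin ℚ {x}
  let x0 : k := ⟨x, IntermediateField.mem_adjoin_simple_self ℚ x⟩
  have hinj : Function.Injective (algebraMap k K) := (algebraMap k K).injective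
  have hx0 : IsIntegral ℤ x0 := (isIntegral_algebraMap_iff hinj).1 hxi
  obtain ⟨n, hn⟩ := int_of_div (k := k) hx0 (by
    intro N
    have hr : 0 < N + 2 := by omega
    have h1 : N + 2 < l ^ (N + 2) := Nat.lt_pow_self hl
    obtain ⟨m', g, hm', hg, e⟩ := hx.2 ((l : K) ^ (N + 2)) ((h.lam _).2 ⟨_, rfl⟩)
      (pow_ne_one42 hl hr)
    obtain ⟨r', rfl⟩ := (h.lam m').1 hm'
    have hgi : IsIntegral ℤ g := (h.ok g).1 hg
    have hM1 : 1 ≤ l ^ (N + 2) := by omega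
    have hMK : ((l ^ (N + 2) - 1 : ℕ) : K) = (l : K) ^ (N + 2) - 1 := by
      rw [Nat.cast_sub hM1]
      push_cast
      ring
    set M : ℕ := l ^ (N + 2) - 1 with hM
    have hMpos : 0 < M := by omega
    have hMi : IsIntegral ℤ (M : K) := by
      simpa using isIntegral_algebraMap (R := ℤ) (A := K) (x := (M : ℤ))
    obtain ⟨s, hs⟩ := div_int (K := K) (A := (l : ℤ) ^ r' - 1) (B := (M : ℤ)) (g := x + M * g)
      (by exact_mod_cast hMpos.ne') (hxi.add (hMi.mul hgi)) (by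
        push_cast
        rw [← hMK] at e
        linear_combination -e)
    have hMk : (M : k) ≠ 0 := by
      have : (M : k) = ((M : ℕ) : k) := rfl
      exact_mod_cast hMpos.ne'
    refine ⟨M, by omega, s, (x0 - s) / M, ?_, by field_simp⟩
    rw [← isIntegral_algebraMap_iff hinj]
    have e2 : algebraMap k K ((x0 - s) / M) = -g := by
      have hMK0 : (M : K) ≠ 0 := by exact_mod_cast hMpos.ne'
      have e3 : algebraMap k K x0 = x := rfl
      rw [map_div₀, map_sub, e3, map_intCast, map_natCast]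
      field_simp
      linear_combination hs
    rw [e2]
    exact hgi.neg)
  refine ⟨n, ?_⟩
  have e := congrArg (algebraMap k K) hn
  rw [map_intCast] at e
  exact e

private theorem eq_aux {M N : ℕ} {u v w : K} (hu : u ≠ 0) (hv : v ≠ 0) (hw : w ≠ 0) :
    w ^ (M + 1) * (v ^ (M + 1)) ^ (M + 1) * v * u =
      u ^ (N + 1) * w * (v ^ (M + 1) * v ^ (M + 1)) ↔
    w ^ M * v ^ (M ^ 2) = u ^ N := by
  have hc : w * u * v ^ (2 * (M + 1)) ≠ 0 :=
    mul_ne_zero (mul_ne_zero hw hu) (pow_ne_zero _ hv)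
  have e1 : w ^ (M + 1) * (v ^ (M + 1)) ^ (M + 1) * v * u =
      (w * u * v ^ (2 * (M + 1))) * (w ^ M * v ^ (M ^ 2)) := by
    have e3 : (v ^ (M + 1)) ^ (M + 1) * v = v ^ (2 * (M + 1)) * v ^ (M ^ 2) := by
      rw [← pow_mul, ← pow_succ, ← pow_add]
      congr 1
      ring
    calc w ^ (M + 1) * (v ^ (M + 1)) ^ (M + 1) * v * u
        = w ^ (M + 1) * ((v ^ (M + 1)) ^ (M + 1) * v) * u := by ring
      _ = (w * u * v ^ (2 * (M + 1))) * (w ^ M * v ^ (M ^ 2)) := by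
          rw [e3]
          ring
  have e2 : u ^ (N + 1) * w * (v ^ (M + 1) * v ^ (M + 1)) =
      (w * u * v ^ (2 * (M + 1))) * u ^ N := by
    ring
  rw [e1, e2]
  exact mul_right_inj' hc

theorem w0_iff {l : ℕ} (hl : 1 < l) (h : PowIn OK Lam Pm l) (u n w : K) :
    W0 OK Lam Pm u n w ↔ u ≠ 0 ∧ w ≠ 0 ∧ ∃ n₀ : ℤ, n = n₀ ∧ ∀ r : ℕ, 0 < r →
      ∃ (r' : ℕ) (g : ℤ) (v : K), v ≠ 0 ∧
        (l : ℤ) ^ r' - 1 - n₀ * ((l : ℤ) ^ r - 1) = ((l : ℤ) ^ r - 1) ^ 2 * g ∧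
        w ^ (l ^ r - 1) * v ^ ((l ^ r - 1) ^ 2) = u ^ (l ^ r' - 1) := by
  have hl0 : (l : K) ≠ 0 := by
    have : l ≠ 0 := by omega
    exact_mod_cast this
  have hsub : ∀ r : ℕ, l ^ r = (l ^ r - 1) + 1 := fun r => by
    have : 0 < l ^ r := Nat.pow_pos (by omega)
    omega
  constructor
  · rintro ⟨hZ, hu, hw, hall⟩
    obtain ⟨n₀, rfl⟩ := z0_int hl h hZ
    refine ⟨hu, hw, n₀, rfl, ?_⟩
    intro r hr
    obtain ⟨m', g, v, W1, V1, V2, U1, hm', hg, e1, hv, hW1, hV1, hV2, hU1, e2⟩ :=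
      hall ((l : K) ^ r) ((h.lam _).2 ⟨r, rfl⟩) (pow_ne_one42 hl hr)
    obtain ⟨r', rfl⟩ := (h.lam m').1 hm'
    rw [h.pm _ _ _ hw] at hW1
    rw [h.pm _ _ _ hv] at hV1
    have hV10 : V1 ≠ 0 := by rw [hV1]; exact pow_ne_zero _ hv
    rw [h.pm _ _ _ hV10] at hV2
    rw [h.pm _ _ _ hu] at hU1
    have hMz : ((l : ℤ) ^ r - 1) ^ 2 ≠ 0 := by
      have h1 : 1 < l ^ r := Nat.one_lt_pow hr.ne' hl
      have h1' : (1 : ℤ) < (l : ℤ) ^ r := by exact_mod_cast h1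
      have h2 : (l : ℤ) ^ r - 1 ≠ 0 := by linarith
      exact pow_ne_zero 2 h2
    obtain ⟨g0, hg0⟩ := div_int (K := K) (A := (l : ℤ) ^ r' - 1 - n₀ * ((l : ℤ) ^ r - 1))
      (B := ((l : ℤ) ^ r - 1) ^ 2) (g := g) hMz ((h.ok g).1 hg) (by
        push_cast
        rw [e1]
        ring)
    refine ⟨r', g0, v, hv, ?_, ?_⟩
    · have e3 : (((l : ℤ) ^ r' - 1 - n₀ * ((l : ℤ) ^ r - 1) : ℤ) : K) =
          ((((l : ℤ) ^ r - 1) ^ 2 * g0 : ℤ) : K) := by
        push_cast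
        rw [e1, hg0]
        ring
      exact_mod_cast e3
    · rw [hV2, hV1, hW1, hU1] at e2
      have e3 := (eq_aux (M := l ^ r - 1) (N := l ^ r' - 1) hu hv hw).1
      rw [← hsub r, ← hsub r'] at e3
      exact e3 e2
  · rintro ⟨hu, hw, n₀, rfl, hall⟩
    refine ⟨int_z0 hl h n₀, hu, hw, ?_⟩
    intro m hm hm1
    obtain ⟨r, rfl⟩ := (h.lam m).1 hm
    have hr : 0 < r := by
      rcases Nat.eq_zero_or_pos r with rfl | hr
      · simp at hm1
      · exact hr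
    obtain ⟨r', g, v, hv, e1, e2⟩ := hall r hr
    refine ⟨(l : K) ^ r', (g : K), v, w ^ l ^ r, v ^ l ^ r, (v ^ l ^ r) ^ l ^ r, u ^ l ^ r',
      (h.lam _).2 ⟨r', rfl⟩, (h.ok _).2 (isIntegral_algebraMap (R := ℤ) (A := K) (x := g)), ?_, hv,
      (h.pm _ _ _ hw).2 rfl, (h.pm _ _ _ hv).2 rfl, (h.pm _ _ _ (pow_ne_zero _ hv)).2 rfl,
      (h.pm _ _ _ hu).2 rfl, ?_⟩
    · have e := congrArg (fun z : ℤ => (z : K)) e1
      push_cast at e
      rw [e]
      ring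
    · have e3 := (eq_aux (M := l ^ r - 1) (N := l ^ r' - 1) hu hv hw).2 e2
      rw [← hsub r, ← hsub r'] at e3
      exact e3

end UD0
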