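import Pool.Agent.UD0.PwG
import Pool.Agent.UD0.ZzA

/-!
# UD0, section 4, part H: the powers of `l` and the power relation

`OK x ↔ IsIntegral ℤ x`.
PROOF of `lm_iff`.  (⇒) `ex_iff`: `x = m`, `0 < m` natural.  Let `r` be a prime dividing `m`, `r ≠ l`; take `d = r`: it is integral and `r * (m / r) = m`; it is not a unit
(`r g = 1` with `g` integral: `g = 1 / r` would be an integer, `UD0.rat_int`), and `a r + b l = 1` for some integers `a, b` (coprime primes): contradiction.  So `l` is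
the only prime divisor of `m`, and `m = l ^ s` (`Nat.eq_prime_pow_of_unique_prime_dvd`).
(⇐) `x = l ^ s` (cast of the natural number `l ^ s > 0`): `Ex` by `ex_iff` and `ii_pow`.  Let `d g = l ^ s` and `a d + b l = 1` (all integral).  Then
`1 = (a d + b l) ^ s = d (...) + b ^ s l ^ s = d ((...) + b ^ s g)` with integral `(...)`, so `d` is a unit (induction on `s`:
`∃ p, p` integral, `(a d + b l) ^ s = d p + b ^ s l ^ s`).
PROOF of `pw_iff` (`u ≠ 0`, `m = l ^ s`).  (⇒) `ex_iff`: `(l : K) ^ s = m'` with `m' : ℕ`, so `m' = l ^ s` (characteristic zero) and `y₁ = z ^ m'`, `y₂ = (2 z) ^ m'`.  In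
the first case `Ff u y` gives `y = u ^ m'` (`ff_pow`).  In the second case for every `c` the `b` is `c ^ m'` (`ff_pow`), so `ident` with the exponent `(m' : ℤ)`
gives `y = u ^ m'`.
(⇐) `Ex` for `z ^ l ^ s`, `(2 z) ^ l ^ s` by `ex_iff`, `ii_pow`.  If `u` is algebraic: `y = u ^ l ^ s` is algebraic, nonzero, `Ff` by `nz_pow` for `z` and `2 z`.  Otherwise for every `c` take
`b = c ^ l ^ s`, `nz_pow` three times (`z`, `2 z`, `u`).
PROOF of `powIn` : assemble; `Ck = Alg` by `funext`, `propext`; the element `z` from `exists_cov`.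
-/

set_option autoImplicit false

open Polynomial

namespace UD0

universe u

variable {K : Type u} [Field K] [CharZero K] {l : ℕ} [Fact l.Prime] {e₀ : K →+* ℚ_[l]}

private theorem pwh_nat {m : ℕ} : IsIntegral ℤ (m : K) := by
  simpa using isIntegral_algebraMap (R := ℤ) (A := K) (x := (m : ℤ))

private theorem pwh_int {m : ℤ} : IsIntegral ℤ (m : K) :=
  isIntegral_algebraMap (R := ℤ) (A := K) (x := m)

private theorem pwh_expand {a b d L : K} (ha : IsIntegral ℤ a) (hb : IsIntegral ℤ b)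
    (hd : IsIntegral ℤ d) (hL : IsIntegral ℤ L) (s : ℕ) :
    ∃ p : K, IsIntegral ℤ p ∧ (a * d + b * L) ^ s = d * p + b ^ s * L ^ s := by
  induction s with
  | zero => exact ⟨0, isIntegral_zero, by simp⟩
  | succ s ih =>
    obtain ⟨p, hp, e⟩ := ih
    refine ⟨p * (a * d + b * L) + b ^ s * L ^ s * a,
      (hp.mul ((ha.mul hd).add (hb.mul hL))).add (((hb.pow s).mul (hL.pow s)).mul ha), ?_⟩
    rw [pow_succ, e]
    ring

private theorem pwh_not_alg_two {z : K} (hz : ¬ Alg z) : ¬ Alg (2 * z) := by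
  intro h
  apply hz
  have h2 : Alg ((2 : K)⁻¹) := by
    have := (alg_nat (K := K) 2).inv
    simpa using this
  have h3 := h2.mul h
  have e : (2 : K)⁻¹ * (2 * z) = z := by
    field_simp
  rwa [e] at h3

theorem lm_iff (h2 : l ≠ 2) (M : Mov l e₀) (hnf : NumberField (kk K)) {OK : K → Prop}
    (hOK : ∀ x, OK x ↔ IsIntegral ℤ x) {z : K} (hz : ¬ Alg z) (hcov : Cov e₀ z) (x : K) :
    Lm Alg OK ((lst l : ℤ) : K) z l x ↔ ∃ s : ℕ, x = (l : K) ^ s := by
  have hl : l.Prime := Fact.out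
  constructor
  · rintro ⟨y₁, y₂, hEx, hdiv⟩
    obtain ⟨m, hm, rfl, -, -, -⟩ := (ex_iff h2 M hnf hOK hz hcov y₁ y₂ x).1 hEx
    refine ⟨m.primeFactorsList.length, ?_⟩
    have key : m = l ^ m.primeFactorsList.length := by
      refine Nat.eq_prime_pow_of_unique_prime_dvd hm.ne' ?_
      intro r hr hrm
      by_contra hne
      obtain ⟨k, rfl⟩ := hrm
      rcases hdiv (r : K) ((hOK _).2 pwh_nat) ⟨(k : K), (hOK _).2 pwh_nat, by push_cast; ring⟩ with
        ⟨g, hg, e⟩ | hno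
      · have hg' := (hOK _).1 hg
        have hr0 : (r : K) ≠ 0 := by exact_mod_cast hr.ne_zero
        have e1 : g = (((1 : ℚ) / (r : ℚ) : ℚ) : K) := by
          push_cast
          field_simp
          linear_combination e
        obtain ⟨n, hn⟩ := rat_int (k := K) ((1 : ℚ) / (r : ℚ)) (by rw [← e1]; exact hg')
        have hr0' : (r : ℚ) ≠ 0 := by exact_mod_cast hr.ne_zero
        have h3 : (1 : ℚ) = (n : ℚ) * (r : ℚ) := by
          rw [← hn]
          field_simp
        have h4 : (1 : ℤ) = n * (r : ℤ) := by exact_mod_cast h3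
        have h5 : (r : ℤ) ∣ 1 := ⟨n, by rw [h4]; ring⟩
        have h6 : r ∣ 1 := by exact_mod_cast h5
        exact hr.one_lt.ne' (Nat.dvd_one.1 h6)
      · apply hno
        have hc : Nat.Coprime r l := (Nat.coprime_primes hr hl).2 hne
        obtain ⟨a, b, hab⟩ := Nat.isCoprime_iff_coprime.2 hc
        refine ⟨(a : K), (b : K), (hOK _).2 pwh_int, (hOK _).2 pwh_int, ?_⟩
        have := congrArg (fun t : ℤ => (t : K)) hab
        push_cast at this
        exact this
    have := congrArg (fun t : ℕ => (t : K)) key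
    push_cast at this
    exact this
  · rintro ⟨s, rfl⟩
    refine ⟨z ^ l ^ s, (2 * z) ^ l ^ s, (ex_iff h2 M hnf hOK hz hcov _ _ _).2
      ⟨l ^ s, Nat.pow_pos hl.pos, by push_cast; rfl, rfl, rfl, ii_pow h2 hz hcov s⟩, ?_⟩
    rintro d hd ⟨g, hg, e⟩
    by_cases hab : ∃ a b, OK a ∧ OK b ∧ a * d + b * l = 1
    · left
      obtain ⟨a, b, ha, hb, h1⟩ := hab
      obtain ⟨p, hp, e2⟩ := pwh_expand ((hOK _).1 ha) ((hOK _).1 hb) ((hOK _).1 hd)
        (pwh_nat (K := K) (m := l)) s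
      refine ⟨p + b ^ s * g, (hOK _).2 (hp.add ((((hOK _).1 hb).pow s).mul ((hOK _).1 hg))), ?_⟩
      rw [h1, one_pow, ← e] at e2
      rw [e2]
      ring
    · exact Or.inr hab

theorem pw_iff (h2 : l ≠ 2) (M : Mov l e₀) (hnf : NumberField (kk K)) {OK : K → Prop}
    (hOK : ∀ x, OK x ↔ IsIntegral ℤ x) {z : K} (hz : ¬ Alg z) (hcov : Cov e₀ z) {u : K}
    (hu : u ≠ 0) (s : ℕ) (y : K) :
    Pw Alg OK ((lst l : ℤ) : K) z u ((l : K) ^ s) y ↔ y = u ^ l ^ s := by
  have hl : l.Prime := Fact.out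
  constructor
  · rintro ⟨y₁, y₂, hEx, hcase⟩
    obtain ⟨m, hm, hms, rfl, rfl, -⟩ := (ex_iff h2 M hnf hOK hz hcov y₁ y₂ _).1 hEx
    have hm' : l ^ s = m := by exact_mod_cast hms
    subst hm'
    rcases hcase with ⟨hua, hya, hy0, hF⟩ | ⟨hua, hall⟩
    · exact ff_pow h2 hcov _ hua hya hF
    · have hid := ident M hua ((l ^ s : ℕ) : ℤ) (y := y) (fun c hc hc0 => by
        obtain ⟨b, hb, hb0, hF, hN⟩ := hall c hc hc0
        have hbe := ff_pow h2 hcov _ hc hb hF
        rw [zpow_natCast, ← hbe]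
        exact hN)
      rw [zpow_natCast] at hid
      exact hid
  · rintro rfl
    have h2z := pwh_not_alg_two hz
    refine ⟨z ^ l ^ s, (2 * z) ^ l ^ s, (ex_iff h2 M hnf hOK hz hcov _ _ _).2
      ⟨l ^ s, Nat.pow_pos hl.pos, by push_cast; rfl, rfl, rfl, ii_pow h2 hz hcov s⟩, ?_⟩
    by_cases hua : Alg u
    · left
      exact ⟨hua, hua.pow _, pow_ne_zero _ hu, nz_pow h2 hz hua s, nz_pow h2 h2z hua s⟩
    · right
      refine ⟨hua, fun c hc hc0 => ⟨c ^ l ^ s, hc.pow _, pow_ne_zero _ hc0,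
        ⟨nz_pow h2 hz hc s, nz_pow h2 h2z hc s⟩, nz_pow h2 hua hc s⟩⟩

/-- Section 4: the power relation is definable. -/
theorem powIn (h2 : l ≠ 2) (M : Mov l e₀) (hnf : NumberField (kk K)) (hK : ∃ u : K, ¬ Alg u)
    {Ck OK : K → Prop} (hCk : ∀ x, Ck x ↔ Alg x) (hOK : ∀ x, OK x ↔ IsIntegral ℤ x) :
    ∃ z : K, PowIn OK (Lm Ck OK ((lst l : ℤ) : K) z l) (Pw Ck OK ((lst l : ℤ) : K) z) l := by
  obtain ⟨z, hz, hcov⟩ := exists_cov M hK
  have e : Ck = Alg := funext fun x => propext (hCk x)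
  subst e
  exact ⟨z, hOK, fun m => lm_iff h2 M hnf hOK hz hcov m,
    fun u s y hu => pw_iff h2 M hnf hOK hz hcov hu s y⟩

end UD0
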