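import Mathlib

/-!
# UD0: Laurent series over a field

`LaurentSeries F = HahnSeries ℤ F`; `HahnSeries.order` with `order 0 = 0`.  Useful Mathlib lemmas:
`HahnSeries.order_mul`, `HahnSeries.order_pow`, `HahnSeries.order_le_of_coeff_ne_zero`,
`HahnSeries.coeff_order_ne_zero`, `HahnSeries.min_order_le_order_add`, `HahnSeries.coeff_eq_zero_of_lt_order`.

PROOFS.
* `ls_add_order` (`x`, `y` nonzero of different order): the coefficient of `x + y` at the smaller
  order is nonzero, the smaller coefficients are zero.
* `ls_sum_zero` : in a finite sum of elements, if one nonzero term has an order strictly smaller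
  than the orders of all the other nonzero terms, the sum is not zero (coefficient at this order).
* `ls_int` : suppose `y ≠ 0` and `y.order < 0` (otherwise nothing to prove; note `order 0 = 0`).  The term
  `g n * y ^ n` has order `n * y.order`; a nonzero term `g i * y ^ i`, `i < n`, has order
  `≥ i * y.order > n * y.order`.  By `ls_sum_zero` the sum is not zero, contradiction.
* `ls_alg` : from an algebraic relation with coefficients in `F` (nonzero leading coefficient; nonzero
  constants have order `0`) `ls_int` gives `0 ≤ x.order` (for `x` algebraic over `F`).  Put `c = x.coeff 0`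
  and `y = x - C c`: the coefficients of `y` at all `n ≤ 0` vanish (if `0 ≤ x.order`).  `y` is algebraic
  over `F`; if `y ≠ 0` then `y⁻¹` is algebraic over `F` and `(y⁻¹).order = - y.order < 0`, contradicting the
  first part.  So `x = C c`.
* `ls_alg_int` : a nonzero integer polynomial maps to a nonzero polynomial over `F` (characteristic
  zero), so `x` is algebraic over `F` (`algebraMap F (LaurentSeries F) = C`).
* `ps_alg` : the map from power series to Laurent series (`HahnSeries.ofPowerSeries ℤ F`) is an injective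
  `F`-algebra map; use `ls_alg`.
-/

set_option autoImplicit false

open Polynomial

namespace UD0

variable {F : Type*} [Field F]

theorem ls_add_order {x y : LaurentSeries F} (hx : x ≠ 0) (hy : y ≠ 0) (h : x.order < y.order) :
    x + y ≠ 0 ∧ (x + y).order = x.order := by
  have h1 : (x + y).coeff x.order ≠ 0 := by
    rw [HahnSeries.coeff_add, HahnSeries.coeff_eq_zero_of_lt_order h, add_zero]
    exact fun h2 => hx (HahnSeries.coeff_order_eq_zero.1 h2)
  have h2 : x + y ≠ 0 := by
    intro h3
    rw [h3] at h1
    exact h1 rfl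
  refine ⟨h2, le_antisymm (HahnSeries.order_le_of_coeff_ne_zero h1) ?_⟩
  have h3 := HahnSeries.min_order_le_order_add h2
  rwa [min_eq_left h.le] at h3

theorem ls_sum_zero {ι : Type*} (s : Finset ι) (f : ι → LaurentSeries F) (i : ι) (hi : i ∈ s)
    (h0 : f i ≠ 0) (h : ∀ j ∈ s, j ≠ i → f j ≠ 0 → (f i).order < (f j).order) :
    ∑ j ∈ s, f j ≠ 0 := by
  intro h1
  have h2 : (∑ j ∈ s, f j).coeff (f i).order = (f i).coeff (f i).order := by
    rw [HahnSeries.coeff_sum]
    apply Finset.sum_eq_single_of_mem i hi
    intro j hj hji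
    by_cases hj0 : f j = 0
    · rw [hj0]
      rfl
    · exact HahnSeries.coeff_eq_zero_of_lt_order (h j hj hji hj0)
  rw [h1] at h2
  exact h0 (HahnSeries.coeff_order_eq_zero.1 h2.symm)

theorem ls_int (y : LaurentSeries F) (n : ℕ) (g : ℕ → LaurentSeries F)
    (hg : ∀ i, 0 ≤ (g i).order) (hn : g n ≠ 0) (hn0 : (g n).order = 0)
    (h : ∑ i ∈ Finset.range (n + 1), g i * y ^ i = 0) : 0 ≤ y.order := by
  by_contra hc
  push Not at hc
  have hy : y ≠ 0 := by
    rintro rfl
    rw [HahnSeries.order_zero] at hc
    exact lt_irrefl _ hc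
  refine ls_sum_zero (Finset.range (n + 1)) (fun i => g i * y ^ i) n (Finset.self_mem_range_succ n)
    (mul_ne_zero hn (pow_ne_zero n hy)) ?_ h
  intro j hj hjn hj0
  have hj1 : j < n := by
    have := Finset.mem_range.1 hj
    omega
  have hgj : g j ≠ 0 := left_ne_zero_of_mul hj0
  rw [HahnSeries.order_mul hn (pow_ne_zero n hy), HahnSeries.order_mul hgj (pow_ne_zero j hy),
    HahnSeries.order_pow, HahnSeries.order_pow, hn0, nsmul_eq_mul, nsmul_eq_mul]
  have h1 := hg j
  have h2 : (j : ℤ) < n := by exact_mod_cast hj1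
  have h3 : (n : ℤ) * y.order < j * y.order := mul_lt_mul_of_neg_right h2 hc
  linarith

private theorem am (c : F) : algebraMap F (LaurentSeries F) c = HahnSeries.C c := by
  rw [HahnSeries.algebraMap_apply']
  exact HahnSeries.ofPowerSeries_C c

private theorem alg_order {x : LaurentSeries F} (h : IsAlgebraic F x) : 0 ≤ x.order := by
  obtain ⟨p, hp, hx⟩ := h
  rw [Polynomial.aeval_eq_sum_range] at hx
  have e : ∀ i, algebraMap F (LaurentSeries F) (p.coeff i) = HahnSeries.C (p.coeff i) :=
    fun i => am _
  refine ls_int x p.natDegree (fun i => algebraMap F (LaurentSeries F) (p.coeff i)) ?_ ?_ ?_ ?_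
  · intro i
    rw [e, HahnSeries.order_C]
  · intro h1
    have h2 : p.coeff p.natDegree = 0 := by
      have h3 : algebraMap F (LaurentSeries F) (p.coeff p.natDegree) =
          algebraMap F (LaurentSeries F) 0 := by
        rw [map_zero]
        exact h1
      exact (algebraMap F (LaurentSeries F)).injective h3
    exact hp (Polynomial.leadingCoeff_eq_zero.1 h2)
  · rw [e, HahnSeries.order_C]
  · rw [← hx]
    apply Finset.sum_congr rfl
    intro i _
    rw [Algebra.smul_def]

theorem ls_alg {x : LaurentSeries F} (h : IsAlgebraic F x) : ∃ c : F, x = HahnSeries.C c := by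
  refine ⟨x.coeff 0, ?_⟩
  by_contra hc
  have hy : x - HahnSeries.C (x.coeff 0) ≠ 0 := fun h1 => hc (sub_eq_zero.1 h1)
  have hya : IsAlgebraic F (x - HahnSeries.C (x.coeff 0)) := by
    rw [← am]
    exact h.sub (isAlgebraic_algebraMap (x.coeff 0))
  have hx0 := alg_order h
  have hcoeff : ∀ n : ℤ, n ≤ 0 → (x - HahnSeries.C (x.coeff 0)).coeff n = 0 := by
    intro n hn
    rw [HahnSeries.coeff_sub]
    rcases hn.lt_or_eq with h1 | h1
    · rw [HahnSeries.coeff_eq_zero_of_lt_order (h1.trans_le hx0), HahnSeries.C_apply,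
        HahnSeries.coeff_single_of_ne h1.ne, sub_zero]
    · rw [h1, HahnSeries.C_apply, HahnSeries.coeff_single_same, sub_self]
  have hpos : 0 < (x - HahnSeries.C (x.coeff 0)).order := by
    by_contra h1
    push Not at h1
    exact hy (HahnSeries.coeff_order_eq_zero.1 (hcoeff _ h1))
  have h2 := alg_order hya.inv
  have h3 : (x - HahnSeries.C (x.coeff 0)).order + ((x - HahnSeries.C (x.coeff 0))⁻¹).order = 0 := by
    rw [← HahnSeries.order_mul hy (inv_ne_zero hy), mul_inv_cancel₀ hy, HahnSeries.order_one]
  linarith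

theorem ls_alg_int [CharZero F] {x : LaurentSeries F} {f : ℤ[X]} (hf : f ≠ 0)
    (h : aeval x f = 0) : ∃ c : F, x = HahnSeries.C c := by
  apply ls_alg
  refine ⟨f.map (algebraMap ℤ F), ?_, ?_⟩
  · rw [Ne, Polynomial.map_eq_zero_iff (algebraMap ℤ F).injective_int]
    exact hf
  · rw [Polynomial.aeval_def, Polynomial.eval₂_map]
    rw [Polynomial.aeval_def] at h
    have e : (algebraMap F (LaurentSeries F)).comp (algebraMap ℤ F) =
      algebraMap ℤ (LaurentSeries F) := RingHom.ext_int _ _
    rw [e]
    exact h

theorem ps_alg {x : PowerSeries F} (h : IsAlgebraic F x) : ∃ c : F, x = PowerSeries.C c := by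
  obtain ⟨p, hp, hx⟩ := h
  have h1 : IsAlgebraic F (HahnSeries.ofPowerSeries ℤ F x) := by
    refine ⟨p, hp, ?_⟩
    rw [Polynomial.aeval_eq_sum_range] at hx ⊢
    have h2 := congrArg (HahnSeries.ofPowerSeries ℤ F) hx
    rw [map_sum, map_zero] at h2
    rw [← h2]
    apply Finset.sum_congr rfl
    intro i _
    rw [Algebra.smul_def, Algebra.smul_def, map_mul, map_pow]
    congr 1
  obtain ⟨c, hc⟩ := ls_alg h1
  refine ⟨c, ?_⟩
  apply HahnSeries.ofPowerSeries_injective (Γ := ℤ)
  rw [HahnSeries.ofPowerSeries_C]
  exact hc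

end UD0
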