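import Pool.Agent.UD0.DepA
import Pool.Agent.UD0.LsA

/-!
# UD0: no poles for almost all values

`F` a field of characteristic zero, `e : K →+* LaurentSeries F` with `0 < (e z - C c).order` (`z` has the value `c`; in
particular `e z - C c ≠ 0`).
PROOF of `no_pole`.  Let `H ∈ ℤ[X][Y]`, `H ≠ 0`, `H(z, y) = 0` (`dp_poly`), `g = H.leadingCoeff ∈ ℤ[X]`, `g ≠ 0`, `n = H.natDegree`.  The exceptional
set is contained in the finite set of the roots of `g` in `F`.  Let `g(c) ≠ 0`.  For a polynomial `f ∈ ℤ[X]` the series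
`e (f(z)) = f(C c + w)` with `w = e z - C c` of positive order has no negative coefficients and constant coefficient `f(c)`
(`const_coeff_poly`).  So `e (g(z))` is nonzero of order `0`, and the relation `∑ e (H.coeff i (z)) * (e y) ^ i = 0` with `ls_int` gives
`0 ≤ (e y).order`.
PROOF of `unit_ae` : `no_pole` for `y` and for `y⁻¹` (`Dp.inv`), `(e y⁻¹).order = - (e y).order`.
PROOF of `relation_value` : if moreover `e y` has the value `b`, i.e. `0 < (e y - C b).order` or `e y = C b`, then applying `e` to `H(z, y) = 0` and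
taking the constant coefficient gives `H(c, b) = 0`.
-/

set_option autoImplicit false

open Polynomial

namespace UD0

universe u

variable {K : Type u} [Field K] [CharZero K] {F : Type*} [Field F] [CharZero F]

/-- the series has no negative coefficients and the constant coefficient `b` -/
def HasVal (x : LaurentSeries F) (b : F) : Prop := (∀ n < 0, x.coeff n = 0) ∧ x.coeff 0 = b

private theorem hasVal_ps (p : PowerSeries F) :
    HasVal (HahnSeries.ofPowerSeries ℤ F p) (PowerSeries.constantCoeff p) := by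
  refine ⟨fun n hn => ?_, ?_⟩
  · have := PowerSeries.coeff_coe p n
    rw [if_pos hn] at this
    exact this
  · have := PowerSeries.coeff_coe p 0
    rw [if_neg (lt_irrefl _)] at this
    exact this.trans (by simp)

private theorem HasVal.exists_ps {x : LaurentSeries F} {a : F} (hx : HasVal x a) :
    ∃ p : PowerSeries F, HahnSeries.ofPowerSeries ℤ F p = x ∧ PowerSeries.constantCoeff p = a := by
  refine ⟨PowerSeries.mk fun n => x.coeff (n : ℤ), ?_, ?_⟩
  · ext n
    have h := PowerSeries.coeff_coe (PowerSeries.mk fun n => x.coeff (n : ℤ)) n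
    refine h.trans ?_
    split_ifs with h1
    · exact (hx.1 n h1).symm
    · rw [PowerSeries.coeff_mk, Int.natAbs_of_nonneg (not_lt.mp h1)]
  · rw [← PowerSeries.coeff_zero_eq_constantCoeff_apply, PowerSeries.coeff_mk]
    exact hx.2

theorem HasVal.add {x y : LaurentSeries F} {a b : F} (hx : HasVal x a) (hy : HasVal y b) :
    HasVal (x + y) (a + b) := by
  obtain ⟨p, rfl, rfl⟩ := hx.exists_ps
  obtain ⟨q, rfl, rfl⟩ := hy.exists_ps
  rw [← map_add, ← map_add]
  exact hasVal_ps _

theorem HasVal.mul {x y : LaurentSeries F} {a b : F} (hx : HasVal x a) (hy : HasVal y b) :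
    HasVal (x * y) (a * b) := by
  obtain ⟨p, rfl, rfl⟩ := hx.exists_ps
  obtain ⟨q, rfl, rfl⟩ := hy.exists_ps
  rw [← map_mul, ← map_mul]
  exact hasVal_ps _

theorem HasVal.pow {x : LaurentSeries F} {a : F} (hx : HasVal x a) (n : ℕ) :
    HasVal (x ^ n) (a ^ n) := by
  obtain ⟨p, rfl, rfl⟩ := hx.exists_ps
  rw [← map_pow, ← map_pow]
  exact hasVal_ps _

theorem HasVal.inv {x : LaurentSeries F} {a : F} (hx : HasVal x a) (ha : a ≠ 0) :
    HasVal x⁻¹ a⁻¹ := by
  obtain ⟨p, rfl, rfl⟩ := hx.exists_ps
  have h1 : (HahnSeries.ofPowerSeries ℤ F p)⁻¹ = HahnSeries.ofPowerSeries ℤ F p⁻¹ := by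
    refine (eq_inv_of_mul_eq_one_right ?_).symm
    rw [← map_mul, PowerSeries.mul_inv_cancel p ha, map_one]
  rw [h1, ← PowerSeries.constantCoeff_inv]
  exact hasVal_ps _

theorem HasVal.zpow {x : LaurentSeries F} {a : F} (hx : HasVal x a) (ha : a ≠ 0) (n : ℤ) :
    HasVal (x ^ n) (a ^ n) := by
  cases n with
  | ofNat n =>
    rw [Int.ofNat_eq_natCast, zpow_natCast, zpow_natCast]
    exact hx.pow n
  | negSucc n =>
    rw [zpow_negSucc, zpow_negSucc]
    exact (hx.pow (n + 1)).inv (pow_ne_zero _ ha)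

theorem hasVal_C (a : F) : HasVal (HahnSeries.C a : LaurentSeries F) a := by
  have h := hasVal_ps (PowerSeries.C a)
  rw [HahnSeries.ofPowerSeries_C, PowerSeries.constantCoeff_C] at h
  exact h

theorem hasVal_of_pos {x : LaurentSeries F} {a : F} (h : 0 < (x - HahnSeries.C a).order) :
    HasVal x a := by
  have h1 : ∀ n : ℤ, n ≤ 0 → x.coeff n = (HahnSeries.C a : LaurentSeries F).coeff n := by
    intro n hn
    have h2 : (x - HahnSeries.C a).coeff n = 0 :=
      HahnSeries.coeff_eq_zero_of_lt_order (lt_of_le_of_lt hn h)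
    rw [HahnSeries.coeff_sub] at h2
    exact sub_eq_zero.mp h2
  have h3 := hasVal_C a
  exact ⟨fun n hn => (h1 n hn.le).trans (h3.1 n hn), (h1 0 le_rfl).trans h3.2⟩

theorem HasVal.unique {x : LaurentSeries F} {a b : F} (ha : HasVal x a) (hb : HasVal x b) :
    a = b := ha.2.symm.trans hb.2

theorem HasVal.zero_iff {x : LaurentSeries F} (hx : HasVal x 0) : x = 0 ∨ 0 < x.order := by
  by_cases h : x = 0
  · exact Or.inl h
  · right
    by_contra h1
    push Not at h1
    apply h
    rw [← HahnSeries.coeff_order_eq_zero]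
    rcases h1.lt_or_eq with h2 | h2
    · exact hx.1 _ h2
    · rw [h2]
      exact hx.2

private theorem HasVal.order_nonneg {x : LaurentSeries F} {a : F} (hx : HasVal x a) :
    0 ≤ x.order := by
  by_contra h
  push Not at h
  have h1 : x = 0 := HahnSeries.coeff_order_eq_zero.1 (hx.1 _ h)
  rw [h1, HahnSeries.order_zero] at h
  exact lt_irrefl _ h

private theorem HasVal.order_eq {x : LaurentSeries F} {a : F} (hx : HasVal x a) (ha : a ≠ 0) :
    x ≠ 0 ∧ x.order = 0 := by
  have h1 : x.coeff 0 ≠ 0 := by rwa [hx.2]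
  refine ⟨?_, le_antisymm (HahnSeries.order_le_of_coeff_ne_zero h1) hx.order_nonneg⟩
  rintro rfl
  exact h1 rfl

private theorem hasVal_int (n : ℤ) : HasVal (n : LaurentSeries F) (n : F) := by
  have h := hasVal_C (n : F)
  rwa [map_intCast] at h

private theorem HasVal.sum {ι : Type*} (s : Finset ι) (f : ι → LaurentSeries F) (g : ι → F)
    (h : ∀ i ∈ s, HasVal (f i) (g i)) : HasVal (∑ i ∈ s, f i) (∑ i ∈ s, g i) := by
  classical
  induction s using Finset.induction_on with
  | empty =>
    rw [Finset.sum_empty, Finset.sum_empty]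
    exact_mod_cast hasVal_int (F := F) 0
  | insert a s ha ih =>
    rw [Finset.sum_insert ha, Finset.sum_insert ha]
    exact (h a (Finset.mem_insert_self _ _)).add
      (ih fun i hi => h i (Finset.mem_insert_of_mem hi))

private theorem hasVal_poly {e : K →+* LaurentSeries F} {z : K} {c : F} (hc : HasVal (e z) c)
    (f : ℤ[X]) : HasVal (e (eval₂RingHom (Int.castRingHom K) z f))
      (eval₂RingHom (Int.castRingHom F) c f) := by
  rw [coe_eval₂RingHom, coe_eval₂RingHom, eval₂_eq_sum_range, eval₂_eq_sum_range, map_sum]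
  refine HasVal.sum _ _ _ fun i _ => ?_
  rw [map_mul, map_pow]
  refine HasVal.mul ?_ (hc.pow i)
  rw [eq_intCast, eq_intCast, map_intCast]
  exact hasVal_int _

private theorem eval_eq_sum {R : Type*} [CommRing R] (φ : ℤ[X] →+* R) (H : ℤ[X][X]) (y : R) :
    (H.map φ).eval y = ∑ i ∈ Finset.range (H.natDegree + 1), φ (H.coeff i) * y ^ i := by
  rw [eval_map, eval₂_eq_sum_range]

theorem no_pole {z y : K} (h : Dp z y) : {c : F | ∃ e : K →+* LaurentSeries F,
    0 < (e z - HahnSeries.C c).order ∧ (e y).order < 0}.Finite := by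
  obtain ⟨H, hH0, hH, -⟩ := dp_poly h
  have hg0 : H.leadingCoeff ≠ 0 := leadingCoeff_ne_zero.mpr hH0
  have hgF : H.leadingCoeff.map (Int.castRingHom F) ≠ 0 := by
    rw [Ne, Polynomial.map_eq_zero_iff (Int.castRingHom F).injective_int]
    exact hg0
  classical
  refine ((H.leadingCoeff.map (Int.castRingHom F)).roots.toFinset.finite_toSet).subset ?_
  rintro c ⟨e, hc, hy⟩
  rw [Finset.mem_coe, Multiset.mem_toFinset, mem_roots hgF]
  by_contra hroot
  have hval := hasVal_of_pos hc
  have hlead : eval₂RingHom (Int.castRingHom F) c H.leadingCoeff ≠ 0 := by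
    rw [coe_eval₂RingHom, ← eval_map]
    exact hroot
  have hsum := congrArg e hH
  rw [eval_eq_sum, map_sum, map_zero] at hsum
  have h0 := ls_int (e y) H.natDegree
    (fun i => e (eval₂RingHom (Int.castRingHom K) z (H.coeff i)))
    (fun i => (hasVal_poly hval _).order_nonneg)
    ((hasVal_poly hval _).order_eq hlead).1 ((hasVal_poly hval _).order_eq hlead).2
    (by
      rw [← hsum]
      exact Finset.sum_congr rfl fun i _ => by rw [map_mul, map_pow])
  exact absurd hy (not_lt.mpr h0)

theorem unit_ae {z y : K} (h : Dp z y) : {c : F | ∃ e : K →+* LaurentSeries F,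
    0 < (e z - HahnSeries.C c).order ∧ (e y).order ≠ 0}.Finite := by
  refine ((no_pole (F := F) h).union (no_pole (F := F) h.inv)).subset ?_
  rintro c ⟨e, hc, hy⟩
  rcases lt_or_gt_of_ne hy with h1 | h1
  · exact Or.inl ⟨e, hc, h1⟩
  · right
    refine ⟨e, hc, ?_⟩
    have hy0 : e y ≠ 0 := by
      intro h2
      rw [h2, HahnSeries.order_zero] at h1
      exact lt_irrefl _ h1
    have h3 : (e y).order + (e y⁻¹).order = 0 := by
      rw [map_inv₀, ← HahnSeries.order_mul hy0 (inv_ne_zero hy0), mul_inv_cancel₀ hy0,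
        HahnSeries.order_one]
    linarith

/-- an element depending on `z` with value zero at infinitely many values of `z` is zero -/
theorem eq_zero_of_values {z y : K} (h : Dp z y) (hinf : {c : F | ∃ e : K →+* LaurentSeries F,
    0 < (e z - HahnSeries.C c).order ∧ HasVal (e y) 0}.Infinite) : y = 0 := by
  by_contra hy
  refine hinf ((unit_ae (F := F) h).subset ?_)
  rintro c ⟨e, hc, hv⟩
  refine ⟨e, hc, ?_⟩
  have hey : e y ≠ 0 := (map_ne_zero e).mpr hy
  exact (hv.zero_iff.resolve_left hey).ne'

theorem relation_value {z y : K} {H : ℤ[X][X]}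
    (hH : (H.map (eval₂RingHom (Int.castRingHom K) z)).eval y = 0) {e : K →+* LaurentSeries F}
    {c b : F} (hc : HasVal (e z) c) (hb : HasVal (e y) b) :
    (H.map (eval₂RingHom (Int.castRingHom F) c)).eval b = 0 := by
  have h1 := congrArg e hH
  rw [eval_eq_sum, map_sum, map_zero] at h1
  have h2 : HasVal (∑ i ∈ Finset.range (H.natDegree + 1),
      e (eval₂RingHom (Int.castRingHom K) z (H.coeff i) * y ^ i))
      (∑ i ∈ Finset.range (H.natDegree + 1),
        eval₂RingHom (Int.castRingHom F) c (H.coeff i) * b ^ i) := by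
    refine HasVal.sum _ _ _ fun i _ => ?_
    rw [map_mul, map_pow]
    exact (hasVal_poly hc _).mul (hb.pow i)
  rw [h1] at h2
  rw [eval_eq_sum]
  exact h2.2.symm.trans rfl

end UD0
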