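import Pool.Agent.UD0.Gauss
import Pool.Agent.UD0.NoPole

/-!
# UD0, section 4 (powers), part A: definitions

`Ck` : the constants (algebraic elements), `OK` : the algebraic integers.
-/

set_option autoImplicit false

open Polynomial

namespace UD0

universe u

section defs

variable {K : Type u} [Field K]

/-- nonzero values of `a ^ 2 - ν b ^ 2` -/
def Nz (ν x : K) : Prop := x ≠ 0 ∧ NN ν x

def Vv (ν z y c b : K) : Prop := Nz ν ((y - b) * (z - c))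

def Ff (ν z y₁ y₂ c b : K) : Prop := Vv ν z y₁ c b ∧ Vv ν (2 * z) y₂ c b

/-- `y₁`, `y₂` are the same power of `z`, `2 z` -/
def Ii (Ck : K → Prop) (ν z y₁ y₂ : K) : Prop :=
  (∀ c, Ck c → c ≠ 0 → ∃ b, Ck b ∧ b ≠ 0 ∧ Ff ν z y₁ y₂ c b) ∧
  ∀ c c' b b', Ck c → c ≠ 0 → Ck c' → c' ≠ 0 → Ck b → b ≠ 0 → Ck b' → b' ≠ 0 →
    Ff ν z y₁ y₂ c b → Ff ν z y₁ y₂ c' b' → Ff ν z y₁ y₂ (c * c') (b * b')

/-- moreover the exponent is `x`, a positive integer -/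
def Ex (Ck OK : K → Prop) (ν z y₁ y₂ x : K) : Prop :=
  Ii Ck ν z y₁ y₂ ∧ OK x ∧ ∀ h, OK h → h ≠ 0 → h ≠ -1 → ∃ b g, Ck b ∧ b ≠ 0 ∧
    Ff ν z y₁ y₂ (1 + h) b ∧ OK g ∧ b - 1 - x * h = h * h * g

/-- the powers of `l` -/
def Lm (Ck OK : K → Prop) (ν z l x : K) : Prop :=
  ∃ y₁ y₂, Ex Ck OK ν z y₁ y₂ x ∧ ∀ d, OK d → (∃ g, OK g ∧ d * g = x) →
    (∃ g, OK g ∧ d * g = 1) ∨ ¬ ∃ a b, OK a ∧ OK b ∧ a * d + b * l = 1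

/-- `y = u ^ x` -/
def Pw (Ck OK : K → Prop) (ν z u x y : K) : Prop :=
  ∃ y₁ y₂, Ex Ck OK ν z y₁ y₂ x ∧
    ((Ck u ∧ Ck y ∧ y ≠ 0 ∧ Ff ν z y₁ y₂ u y) ∨
      (¬ Ck u ∧ ∀ c, Ck c → c ≠ 0 → ∃ b, Ck b ∧ b ≠ 0 ∧ Ff ν z y₁ y₂ c b ∧
        Nz ν ((y - b) * (u - c))))

/-- `e` extends `e₀` on the constants -/
def Ov {F : Type*} [Field F] (e₀ : K →+* F) (e : K →+* LaurentSeries F) : Prop :=
  ∀ x, Alg x → e x = HahnSeries.C (e₀ x)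

/-- The input from the moving lemma. -/
structure Mov (l : ℕ) [Fact l.Prime] (e₀ : K →+* ℚ_[l]) : Prop where
  one : ∀ u : K, ¬ Alg u → ∃ ε : ℝ, 0 < ε ∧ ∀ c : ℚ_[l], ‖c - e₀ u‖ < ε →
    ∃ e : K →+* LaurentSeries ℚ_[l], Ov e₀ e ∧ e u = HahnSeries.C c + HahnSeries.single 1 1
  two : ∀ u y : K, AlgebraicIndependent ℤ ![u, y] → ∃ ε : ℝ, 0 < ε ∧ ∀ c : ℚ_[l], ‖c - e₀ u‖ < ε →
    ∃ e : K →+* LaurentSeries ℚ_[l], Ov e₀ e ∧ e u = HahnSeries.C c + HahnSeries.single 1 1 ∧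
      e y = HahnSeries.C (e₀ y)

/-- `z` can be moved to every constant `c` with `|c - 1| ≥ 1` -/
def Cov {l : ℕ} [Fact l.Prime] (e₀ : K →+* ℚ_[l]) (z : K) : Prop :=
  ∀ c, Alg c → 1 ≤ ‖e₀ c - 1‖ → ∃ e : K →+* LaurentSeries ℚ_[l],
    Ov e₀ e ∧ (e z - HahnSeries.C (e₀ c)).order = 1

end defs

end UD0
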