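import Pool.Agent.UD0.Calc
import Pool.Agent.UD0.PwA

/-!
# UD0, section 4, part U: first order definability

Technique of `Pool/Agent/UD0/CodDef.lean`: for each definition a lemma `ua_X0` with the variables as arguments, proved by
`UA.congr (fun _ _ _ => Iff.rfl) <| ...` (quantifiers `UA.ex`, `UA.all` with fresh variables, e.g. `UA.ex 7`), and a lemma `ua_X` with terms as arguments, proved by
`UA.subst (σ := sg [...])`.  For `NN` use `a ^ 2 = a * a` (`UA.congr` with `pow_two`).  `2 = 1 + 1`: `TT.one.add TT.one` and `UA.congr` with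
`one_add_one_eq_two`.  The constants `Ck`, the integers `OK` have three parameters.
-/

set_option autoImplicit false

open Polynomial UDV

namespace UD0

universe u

variable {Cf Of : ∀ (K : Type u) [Field K], K → K → K → K → Prop}

theorem ua_Nz : UA.{u} (fun K _ v => Nz (v 0) (v 1)) :=
  UA.congr (fun K _ v => by
    show (v 1 ≠ 0 ∧ ∃ a b : K, v 1 = a * a - v 0 * (b * b)) ↔ Nz (v 0) (v 1)
    unfold Nz NN
    simp only [pow_two]) <|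
  (UA.eq (TT.var 1) TT.zero).not.and <| UA.ex 2 <| UA.ex 3 <|
    UA.eq (TT.var 1) (((TT.var 2).mul (TT.var 2)).sub ((TT.var 0).mul ((TT.var 3).mul (TT.var 3))))

section sub

variable {f₁ f₂ f₃ f₄ f₅ f₆ f₇ f₈ f₉ : ∀ (K : Type u) [Field K], (ℕ → K) → K}

theorem ua_C (hC : UA (fun K _ v => Cf K (v 0) (v 1) (v 2) (v 3))) (h₁ : TT f₁) (h₂ : TT f₂) (h₃ : TT f₃) (h₄ : TT f₄) :
    UA (fun K _ v => Cf K (f₁ K v) (f₂ K v) (f₃ K v) (f₄ K v)) :=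
  UA.subst (σ := sg [f₁, f₂, f₃, f₄] f₁) (sg_TT h₁ (by
    simp only [List.mem_cons, List.not_mem_nil, or_false, forall_eq_or_imp, forall_eq]
    exact ⟨h₁, h₂, h₃, h₄⟩)) (hC)

theorem ua_O (hO : UA (fun K _ v => Of K (v 0) (v 1) (v 2) (v 3))) (h₁ : TT f₁) (h₂ : TT f₂) (h₃ : TT f₃) (h₄ : TT f₄) :
    UA (fun K _ v => Of K (f₁ K v) (f₂ K v) (f₃ K v) (f₄ K v)) :=
  UA.subst (σ := sg [f₁, f₂, f₃, f₄] f₁) (sg_TT h₁ (by
    simp only [List.mem_cons, List.not_mem_nil, or_false, forall_eq_or_imp, forall_eq]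
    exact ⟨h₁, h₂, h₃, h₄⟩)) (hO)

theorem ua_Nz' (h₁ : TT f₁) (h₂ : TT f₂) : UA (fun K _ v => Nz (f₁ K v) (f₂ K v)) :=
  UA.subst (σ := sg [f₁, f₂] f₁) (sg_TT h₁ (by
    simp only [List.mem_cons, List.not_mem_nil, or_false, forall_eq_or_imp, forall_eq]
    exact ⟨h₁, h₂⟩)) ua_Nz

theorem ua_Vv0 : UA.{u} (fun K _ v => Vv (v 0) (v 1) (v 2) (v 3) (v 4)) :=
  UA.congr (fun _ _ _ => Iff.rfl) <| ua_Nz' (TT.var 0)
    (((TT.var 2).sub (TT.var 4)).mul ((TT.var 1).sub (TT.var 3)))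

theorem ua_Vv  (h₁ : TT f₁) (h₂ : TT f₂) (h₃ : TT f₃) (h₄ : TT f₄) (h₅ : TT f₅) :
    UA (fun K _ v => Vv (f₁ K v) (f₂ K v) (f₃ K v) (f₄ K v) (f₅ K v)) :=
  UA.subst (σ := sg [f₁, f₂, f₃, f₄, f₅] f₁) (sg_TT h₁ (by
    simp only [List.mem_cons, List.not_mem_nil, or_false, forall_eq_or_imp, forall_eq]
    exact ⟨h₁, h₂, h₃, h₄, h₅⟩)) (ua_Vv0)

theorem TT.two' : TT.{u} (fun K _ _ => (2 : K)) := by
  obtain ⟨t, ht⟩ := TT.one.{u}.add TT.one.{u}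
  exact ⟨t, fun K _ v => (ht K v).trans one_add_one_eq_two⟩

theorem ua_Ff0 : UA.{u} (fun K _ v => Ff (v 0) (v 1) (v 2) (v 3) (v 4) (v 5)) :=
  UA.congr (fun _ _ _ => Iff.rfl) <|
    (ua_Vv (TT.var 0) (TT.var 1) (TT.var 2) (TT.var 4) (TT.var 5)).and <|
    ua_Vv (TT.var 0) (TT.two'.mul (TT.var 1)) (TT.var 3) (TT.var 4) (TT.var 5)

theorem ua_Ff  (h₁ : TT f₁) (h₂ : TT f₂) (h₃ : TT f₃) (h₄ : TT f₄) (h₅ : TT f₅) (h₆ : TT f₆) :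
    UA (fun K _ v => Ff (f₁ K v) (f₂ K v) (f₃ K v) (f₄ K v) (f₅ K v) (f₆ K v)) :=
  UA.subst (σ := sg [f₁, f₂, f₃, f₄, f₅, f₆] f₁) (sg_TT h₁ (by
    simp only [List.mem_cons, List.not_mem_nil, or_false, forall_eq_or_imp, forall_eq]
    exact ⟨h₁, h₂, h₃, h₄, h₅, h₆⟩)) (ua_Ff0)

theorem ua_Ii0 (hC : UA (fun K _ v => Cf K (v 0) (v 1) (v 2) (v 3))) :
    UA.{u} (fun K _ v => Ii (Cf K (v 0) (v 1) (v 2)) (v 3) (v 4) (v 5) (v 6)) :=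
  UA.congr (fun _ _ _ => Iff.rfl) <|
    (UA.all 7 <| (ua_C hC (TT.var 0) (TT.var 1) (TT.var 2) (TT.var 7)).imp <| ((UA.eq (TT.var 7) TT.zero).not).imp <| UA.ex 8 <| (ua_C hC (TT.var 0) (TT.var 1) (TT.var 2) (TT.var 8)).and <|
      ((UA.eq (TT.var 8) TT.zero).not).and <| ua_Ff (TT.var 3) (TT.var 4) (TT.var 5) (TT.var 6) (TT.var 7) (TT.var 8)).and <|
    UA.all 7 <| UA.all 8 <| UA.all 9 <| UA.all 10 <| (ua_C hC (TT.var 0) (TT.var 1) (TT.var 2) (TT.var 7)).imp <| ((UA.eq (TT.var 7) TT.zero).not).imp <|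
      (ua_C hC (TT.var 0) (TT.var 1) (TT.var 2) (TT.var 8)).imp <| ((UA.eq (TT.var 8) TT.zero).not).imp <| (ua_C hC (TT.var 0) (TT.var 1) (TT.var 2) (TT.var 9)).imp <|
      ((UA.eq (TT.var 9) TT.zero).not).imp <| (ua_C hC (TT.var 0) (TT.var 1) (TT.var 2) (TT.var 10)).imp <| ((UA.eq (TT.var 10) TT.zero).not).imp <|
      (ua_Ff (TT.var 3) (TT.var 4) (TT.var 5) (TT.var 6) (TT.var 7) (TT.var 9)).imp <|
      (ua_Ff (TT.var 3) (TT.var 4) (TT.var 5) (TT.var 6) (TT.var 8) (TT.var 10)).imp <|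
      ua_Ff (TT.var 3) (TT.var 4) (TT.var 5) (TT.var 6) ((TT.var 7).mul (TT.var 8))
        ((TT.var 9).mul (TT.var 10))

theorem ua_Ii (hC : UA (fun K _ v => Cf K (v 0) (v 1) (v 2) (v 3))) (h₁ : TT f₁) (h₂ : TT f₂) (h₃ : TT f₃) (h₄ : TT f₄) (h₅ : TT f₅) (h₆ : TT f₆) (h₇ : TT f₇) :
    UA (fun K _ v => Ii (Cf K (f₁ K v) (f₂ K v) (f₃ K v)) (f₄ K v) (f₅ K v) (f₆ K v) (f₇ K v)) :=
  UA.subst (σ := sg [f₁, f₂, f₃, f₄, f₅, f₆, f₇] f₁) (sg_TT h₁ (by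
    simp only [List.mem_cons, List.not_mem_nil, or_false, forall_eq_or_imp, forall_eq]
    exact ⟨h₁, h₂, h₃, h₄, h₅, h₆, h₇⟩)) (ua_Ii0 hC)

theorem ua_Ex0 (hC : UA (fun K _ v => Cf K (v 0) (v 1) (v 2) (v 3)))
    (hO : UA (fun K _ v => Of K (v 0) (v 1) (v 2) (v 3))) :
    UA.{u} (fun K _ v => Ex (Cf K (v 0) (v 1) (v 2)) (Of K (v 0) (v 1) (v 2)) (v 3) (v 4) (v 5)
      (v 6) (v 7)) :=
  UA.congr (fun _ _ _ => Iff.rfl) <|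
    (ua_Ii hC (TT.var 0) (TT.var 1) (TT.var 2) (TT.var 3) (TT.var 4) (TT.var 5) (TT.var 6)).and <|
    (ua_O hO (TT.var 0) (TT.var 1) (TT.var 2) (TT.var 7)).and <| UA.all 8 <| (ua_O hO (TT.var 0) (TT.var 1) (TT.var 2) (TT.var 8)).imp <| ((UA.eq (TT.var 8) TT.zero).not).imp <|
    (UA.eq (TT.var 8) TT.one.neg).not.imp <| UA.ex 9 <| UA.ex 10 <| (ua_C hC (TT.var 0) (TT.var 1) (TT.var 2) (TT.var 9)).and <|
    ((UA.eq (TT.var 9) TT.zero).not).and <|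
    (ua_Ff (TT.var 3) (TT.var 4) (TT.var 5) (TT.var 6) (TT.one.add (TT.var 8)) (TT.var 9)).and <|
    (ua_O hO (TT.var 0) (TT.var 1) (TT.var 2) (TT.var 10)).and <|
    UA.eq (((TT.var 9).sub TT.one).sub ((TT.var 7).mul (TT.var 8)))
      (((TT.var 8).mul (TT.var 8)).mul (TT.var 10))

theorem ua_Ex (hC : UA (fun K _ v => Cf K (v 0) (v 1) (v 2) (v 3)))
    (hO : UA (fun K _ v => Of K (v 0) (v 1) (v 2) (v 3))) (h₁ : TT f₁) (h₂ : TT f₂) (h₃ : TT f₃) (h₄ : TT f₄) (h₅ : TT f₅) (h₆ : TT f₆) (h₇ : TT f₇) (h₈ : TT f₈) :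
    UA (fun K _ v => Ex (Cf K (f₁ K v) (f₂ K v) (f₃ K v)) (Of K (f₁ K v) (f₂ K v) (f₃ K v)) (f₄ K v)
      (f₅ K v) (f₆ K v) (f₇ K v) (f₈ K v)) :=
  UA.subst (σ := sg [f₁, f₂, f₃, f₄, f₅, f₆, f₇, f₈] f₁) (sg_TT h₁ (by
    simp only [List.mem_cons, List.not_mem_nil, or_false, forall_eq_or_imp, forall_eq]
    exact ⟨h₁, h₂, h₃, h₄, h₅, h₆, h₇, h₈⟩)) (ua_Ex0 hC hO)

end sub

theorem ua_Lm (hC : UA (fun K _ v => Cf K (v 0) (v 1) (v 2) (v 3)))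
    (hO : UA (fun K _ v => Of K (v 0) (v 1) (v 2) (v 3))) :
    UA.{u} (fun K _ v => Lm (Cf K (v 0) (v 1) (v 2)) (Of K (v 0) (v 1) (v 2)) (v 3) (v 4) (v 2)
      (v 5)) :=
  UA.congr (fun _ _ _ => Iff.rfl) <| UA.ex 6 <| UA.ex 7 <|
    (ua_Ex hC hO (TT.var 0) (TT.var 1) (TT.var 2) (TT.var 3) (TT.var 4) (TT.var 6) (TT.var 7)
      (TT.var 5)).and <|
    UA.all 8 <| (ua_O hO (TT.var 0) (TT.var 1) (TT.var 2) (TT.var 8)).imp <|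
    (UA.ex 9 <| (ua_O hO (TT.var 0) (TT.var 1) (TT.var 2) (TT.var 9)).and <| UA.eq ((TT.var 8).mul (TT.var 9)) (TT.var 5)).imp <|
    (UA.ex 9 <| (ua_O hO (TT.var 0) (TT.var 1) (TT.var 2) (TT.var 9)).and <| UA.eq ((TT.var 8).mul (TT.var 9)) TT.one).or <|
    UA.not <| UA.ex 9 <| UA.ex 10 <| (ua_O hO (TT.var 0) (TT.var 1) (TT.var 2) (TT.var 9)).and <| (ua_O hO (TT.var 0) (TT.var 1) (TT.var 2) (TT.var 10)).and <|
      UA.eq (((TT.var 9).mul (TT.var 8)).add ((TT.var 10).mul (TT.var 2))) TT.one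

theorem ua_Pw (hC : UA (fun K _ v => Cf K (v 0) (v 1) (v 2) (v 3)))
    (hO : UA (fun K _ v => Of K (v 0) (v 1) (v 2) (v 3))) :
    UA.{u} (fun K _ v => Pw (Cf K (v 0) (v 1) (v 2)) (Of K (v 0) (v 1) (v 2)) (v 3) (v 4)
      (v 5) (v 6) (v 7)) :=
  UA.congr (fun _ _ _ => Iff.rfl) <| UA.ex 8 <| UA.ex 9 <|
    (ua_Ex hC hO (TT.var 0) (TT.var 1) (TT.var 2) (TT.var 3) (TT.var 4) (TT.var 8) (TT.var 9)
      (TT.var 6)).and <|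
    ((ua_C hC (TT.var 0) (TT.var 1) (TT.var 2) (TT.var 5)).and <| (ua_C hC (TT.var 0) (TT.var 1) (TT.var 2) (TT.var 7)).and <| ((UA.eq (TT.var 7) TT.zero).not).and <|
      ua_Ff (TT.var 3) (TT.var 4) (TT.var 8) (TT.var 9) (TT.var 5) (TT.var 7)).or <|
    ((ua_C hC (TT.var 0) (TT.var 1) (TT.var 2) (TT.var 5))).not.and <| UA.all 10 <| (ua_C hC (TT.var 0) (TT.var 1) (TT.var 2) (TT.var 10)).imp <| ((UA.eq (TT.var 10) TT.zero).not).imp <| UA.ex 11 <| (ua_C hC (TT.var 0) (TT.var 1) (TT.var 2) (TT.var 11)).and <|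
      ((UA.eq (TT.var 11) TT.zero).not).and <|
      (ua_Ff (TT.var 3) (TT.var 4) (TT.var 8) (TT.var 9) (TT.var 10) (TT.var 11)).and <|
      ua_Nz' (TT.var 3) (((TT.var 7).sub (TT.var 11)).mul ((TT.var 5).sub (TT.var 10)))

end UD0
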