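import Pool.Agent.UD0.ZzB

/-!
# UD0, section 5, part C: the constant field is a number field; no infinitely divisible elements

`k = algebraicClosure ℚ K` (Mathlib: the relative algebraic closure, an `IntermediateField ℚ K`).  `Alg x` is by definition
`IsAlgebraic ℤ x`, equivalent to `IsAlgebraic ℚ x` (`IsFractionRing.isAlgebraic_iff ℤ ℚ K`).
PROOF of `const_fd` : `C.S.findim (fun _ => 0)` gives `n` such that any `n` elements of `L` with `ord ≥ 0` everywhere are linearly dependent
over `ℤ`.  The elements `emb x`, `x ∈ k`, have `ord = 0` (`const'`, `Alg (emb x)` from `Alg x`).  So any `n` elements of `k` are linearly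
dependent over `ℤ`, hence over `ℚ` (a relation over `ℤ` is a relation over `ℚ`), and `k` is finite dimensional over `ℚ` (otherwise there is
a linearly independent family of `n` elements: `Module.finite_of_...`/`exists_linearIndependent..`, rank lemmas such as
`Module.le_rank_iff_exists_linearIndependent_finset`; a `ℚ`-independent family is `ℤ`-independent).
PROOF of `root_of_div` : `z ≠ 0` in `K` such that for unboundedly many `M > 0` there are `g, ζ` with `g ≠ 0`, `ζ ^ M = 1`, `z = ζ * g ^ M`.  `M ord_P(ζ) = 0`,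
so `ord_P (emb z) = M ord_P (emb g)` for every place `P`; as `M` is unbounded `ord_P (emb z) = 0`, and then `ord_P (emb g) = 0` for all `P`.  By
`C.S.const` the elements `emb z`, `emb g` are `Alg`, and so are `z`, `g`, `ζ` (`emb` injective; a polynomial relation with integer coefficients
transfers).  So `z, g, ζ ∈ k`, a number field by `const_fd`, and `UD0.root_of_unity` applies in `k`.
-/

set_option autoImplicit false

open Polynomial

namespace UD0

universe u

variable {K : Type u} [Field K] [CharZero K] {P : Pres K}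

omit [CharZero K] in
private theorem aeval_emb (C : Chart P) (x : K) (f : ℤ[X]) :
    aeval (C.emb x) f = C.emb (aeval x f) := by
  rw [aeval_def, aeval_def, Polynomial.hom_eval₂]
  congr 1
  exact RingHom.ext_int _ _

omit [CharZero K] in
theorem alg_of_emb (C : Chart P) {x : K} (h : Alg (C.emb x)) : Alg x := by
  obtain ⟨f, hf, h0⟩ := h
  refine ⟨f, hf, C.emb.injective ?_⟩
  rw [← aeval_emb, h0, map_zero]

omit [CharZero K] in
theorem alg_emb (C : Chart P) {x : K} (h : Alg x) : Alg (C.emb x) := by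
  obtain ⟨f, hf, h0⟩ := h
  refine ⟨f, hf, ?_⟩
  rw [aeval_emb, h0, map_zero]

theorem mem_const_iff (x : K) : x ∈ algebraicClosure ℚ K ↔ Alg x := by
  rw [mem_algebraicClosure_iff]
  exact (IsFractionRing.isAlgebraic_iff ℤ ℚ K).symm

/-- the constant field is a number field -/
theorem const_fd (C : Chart P) : FiniteDimensional ℚ (algebraicClosure ℚ K) := by
  obtain ⟨n, hn⟩ := C.S.findim (fun _ => 0) (by simp)
  by_contra hfd
  have hrank : (n : Cardinal) ≤ Module.rank ℚ (algebraicClosure ℚ K) := by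
    refine le_trans (Cardinal.natCast_lt_aleph0 (n := n)).le ?_
    by_contra hlt
    exact hfd (Module.rank_lt_aleph0_iff.1 (not_le.1 hlt))
  obtain ⟨s, hs, hli⟩ := exists_finset_linearIndependent_of_le_rank hrank
  have hcard : Fintype.card s = n := by rw [Fintype.card_coe, hs]
  let e : Fin n ≃ s := (Fintype.equivFinOfCardEq hcard).symm
  have h1 : LinearIndependent ℚ (fun i : Fin n => ((e i : s) : algebraicClosure ℚ K)) :=
    hli.comp e e.injective
  have h2 : LinearIndependent ℚ (fun i : Fin n => (((e i : s) : algebraicClosure ℚ K) : K)) := by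
    have := h1.map' (algebraicClosure ℚ K).val.toLinearMap
      (LinearMap.ker_eq_bot.2 (algebraicClosure ℚ K).val.injective)
    exact this
  have h3 : LinearIndependent ℤ (fun i : Fin n => (((e i : s) : algebraicClosure ℚ K) : K)) := by
    refine h2.restrict_scalars ?_
    intro a b hab
    simp only [zsmul_eq_mul, mul_one] at hab
    exact_mod_cast hab
  have h4 : LinearIndependent ℤ (fun i : Fin n => C.emb (((e i : s) : algebraicClosure ℚ K) : K)) := by
    have := h3.map' C.emb.toIntAlgHom.toLinearMap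
      (LinearMap.ker_eq_bot.2 C.emb.injective)
    exact this
  refine hn _ (fun i Q _ => ?_) h4
  have h5 : Alg (C.emb (((e i : s) : algebraicClosure ℚ K) : K)) :=
    alg_emb C ((mem_const_iff _).1 (SetLike.coe_mem _))
  rw [C.S.const' h5 Q]
  simp

private theorem ord_one {d : ℕ} {L : Type u} [Field L] (S : PF d L) (Q : S.I) : S.ord Q 1 = 0 := by
  have h := S.ord_mul Q (one_ne_zero (α := L)) (one_ne_zero (α := L))
  rw [mul_one] at h
  linarith

private theorem ord_pow {d : ℕ} {L : Type u} [Field L] (S : PF d L) (Q : S.I) {x : L} (hx : x ≠ 0)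
    (n : ℕ) : S.ord Q (x ^ n) = n * S.ord Q x := by
  induction n with
  | zero => simp [ord_one S Q]
  | succ n ih =>
    rw [pow_succ, S.ord_mul Q (pow_ne_zero n hx) hx, ih]
    push_cast
    ring

private theorem ord_root {d : ℕ} {L : Type u} [Field L] (S : PF d L) (Q : S.I) {x : L} (hx : x ≠ 0)
    {M : ℕ} (hM : 0 < M) (h : x ^ M = 1) : S.ord Q x = 0 := by
  have h1 := ord_pow S Q hx M
  rw [h, ord_one S Q] at h1
  have hM' : (M : ℤ) ≠ 0 := by exact_mod_cast hM.ne'
  exact (mul_eq_zero.1 h1.symm).resolve_left hM'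

theorem root_of_div (C : Chart P) {z : K} (hz : z ≠ 0)
    (h : ∀ N : ℕ, ∃ M : ℕ, N < M ∧ ∃ g ζ : K, g ≠ 0 ∧ ζ ^ M = 1 ∧ z = ζ * g ^ M) :
    ∃ e : ℕ, 0 < e ∧ z ^ e = 1 := by
  have hemb : ∀ {x : K}, x ≠ 0 → C.emb x ≠ 0 := fun hx => (map_ne_zero C.emb).2 hx
  have hζ0 : ∀ {ζ : K} {M : ℕ}, 0 < M → ζ ^ M = 1 → ζ ≠ 0 := by
    intro ζ M hM h1 h0
    rw [h0, zero_pow hM.ne'] at h1
    exact zero_ne_one h1
  -- the divisor of a decomposition
  have hdec : ∀ {M : ℕ} {g ζ : K}, 0 < M → g ≠ 0 → ζ ^ M = 1 → z = ζ * g ^ M → ∀ Q : C.S.I,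
      C.S.ord Q (C.emb ζ) = 0 ∧ C.S.ord Q (C.emb z) = M * C.S.ord Q (C.emb g) := by
    intro M g ζ hM hg hζ hzz Q
    have h1 : C.S.ord Q (C.emb ζ) = 0 := by
      refine ord_root C.S Q (hemb (hζ0 hM hζ)) hM ?_
      rw [← map_pow, hζ, map_one]
    refine ⟨h1, ?_⟩
    rw [hzz, map_mul, map_pow, C.S.ord_mul Q (hemb (hζ0 hM hζ)) (pow_ne_zero M (hemb hg)), h1,
      ord_pow C.S Q (hemb hg), zero_add]
  have hz0 : ∀ Q : C.S.I, C.S.ord Q (C.emb z) = 0 := by
    intro Q
    obtain ⟨M, hM, g, ζ, hg, hζ, hzz⟩ := h (C.S.ord Q (C.emb z)).natAbs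
    have h1 := (hdec (by omega) hg hζ hzz Q).2
    by_contra hne
    have h2 : (M : ℤ) ∣ C.S.ord Q (C.emb z) := ⟨_, h1⟩
    have h3 := Int.natAbs_dvd_natAbs.2 h2
    rw [Int.natAbs_natCast] at h3
    have h4 := Nat.le_of_dvd (Int.natAbs_pos.2 hne) h3
    omega
  have hAz : Alg z := alg_of_emb C (C.S.const (hemb hz) hz0)
  have hnf : FiniteDimensional ℚ (algebraicClosure ℚ K) := const_fd C
  have hNF : NumberField (algebraicClosure ℚ K) := { to_charZero := inferInstance, to_finiteDimensional := hnf }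
  have hx : (⟨z, (mem_const_iff z).2 hAz⟩ : algebraicClosure ℚ K) ≠ 0 := by
    intro h0
    exact hz (congrArg Subtype.val h0)
  obtain ⟨e, he, hze⟩ := root_of_unity hx (by
    intro N
    obtain ⟨M, hM, g, ζ, hg, hζ, hzz⟩ := h N
    have hM0 : 0 < M := by omega
    have hAg : Alg g := by
      refine alg_of_emb C (C.S.const (hemb hg) fun Q => ?_)
      have h1 := (hdec hM0 hg hζ hzz Q).2
      rw [hz0 Q] at h1
      have hM' : (M : ℤ) ≠ 0 := by exact_mod_cast hM0.ne'
      exact (mul_eq_zero.1 h1.symm).resolve_left hM'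
    have hAζ : Alg ζ :=
      alg_of_emb C (C.S.const (hemb (hζ0 hM0 hζ)) fun Q => (hdec hM0 hg hζ hzz Q).1)
    refine ⟨M, hM, ⟨g, (mem_const_iff g).2 hAg⟩, ⟨ζ, (mem_const_iff ζ).2 hAζ⟩, M, hM0, ?_, ?_⟩
    · apply Subtype.ext
      exact hζ
    · apply Subtype.ext
      exact hzz)
  exact ⟨e, he, congrArg Subtype.val hze⟩

/-- Section 5: the relations `Z0`, `W0` are a valid input of the coding. -/
theorem inp_of_powIn (C : Chart P) {OK Lam : K → Prop} {Pm : K → K → K → Prop} {l : ℕ}
    (hl : 1 < l) (h : PowIn OK Lam Pm l) : Inp (Z0 OK Lam) (W0 OK Lam Pm) := by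
  refine ⟨fun x => ⟨fun hx => z0_int hl h hx, ?_⟩, fun u n hu => w0_pow hl h hu n,
    fun u w n hu hw => ?_⟩
  · rintro ⟨n, rfl⟩
    exact int_z0 hl h n
  · have hw0 : w ≠ 0 := ((w0_iff hl h u n w).1 hw).2.1
    refine root_of_div C (div_ne_zero hw0 (pow_ne_zero n hu)) fun N => ?_
    have h1 : N + 1 < l ^ (N + 1) := Nat.lt_pow_self hl
    exact ⟨l ^ (N + 1) - 1, by omega, w0_root hl h hw (N + 1) N.succ_pos⟩

end UD0
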