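import Pool.Agent.UD0.Calc
import Pool.Agent.UD0.CodDefs
import Pool.Agent.UD0.ZzA

/-!
# UD0, section 5, part D: elimination of the parameters

PROOF of `inp_free` : `b` a parameter with `Inp (Zf b) (Wf b)` and the step property.  `ZZ x ↔ ∃ n : ℤ, x = n`: from left to right apply the definition
to `b` (`Zf b` is the set of the integers, which contains `1` and is closed under subtraction); from right to left: a set that contains
`1` and is closed under subtraction contains all integers (`Int.induction_on`).  `PP u n (u ^ n)` for `u ≠ 0`: induction on `n` (`Nat.cast_zero`, `pow_zero`;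
`Nat.cast_succ`, `pow_succ'`).  `PP u n w` implies `Wf b u n w` (the hypotheses of the definition hold for `b`: `Inp.pw` for `n = 0`, and the step
property), so `Inp.pw'`.
The lemmas `ua_*` : technique of `Pool/Agent/UD0/CodDef.lean`: `UA.subst` with `sg [...]`, and
`UA.congr (fun _ _ _ => Iff.rfl) <| ...` for the definitions (quantifiers `UA.ex`, `UA.all` with fresh variables).
-/

set_option autoImplicit false

open Polynomial UDV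

namespace UD0

universe u

section

variable {K : Type u} [Field K]

/-- the parameter free version of a family of unary relations -/
def ZZf (Zf : K → K → K → K → K → K → Prop) (x : K) : Prop :=
  ∀ b₀ b₁ b₂ b₃ b₄ : K, Zf b₀ b₁ b₂ b₃ b₄ 1 →
    (∀ y z, Zf b₀ b₁ b₂ b₃ b₄ y → Zf b₀ b₁ b₂ b₃ b₄ z → Zf b₀ b₁ b₂ b₃ b₄ (y - z)) →
    Zf b₀ b₁ b₂ b₃ b₄ x

/-- the parameter free version of a family of ternary relations -/
def PPf (Wf : K → K → K → K → K → K → K → K → Prop) (u n w : K) : Prop :=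
  ∀ b₀ b₁ b₂ b₃ b₄ : K, (∀ u', u' ≠ 0 → Wf b₀ b₁ b₂ b₃ b₄ u' 0 1) →
    (∀ u' n' w', u' ≠ 0 → Wf b₀ b₁ b₂ b₃ b₄ u' n' w' → Wf b₀ b₁ b₂ b₃ b₄ u' (n' + 1) (u' * w')) →
    Wf b₀ b₁ b₂ b₃ b₄ u n w

theorem inp_free {Zf : K → K → K → K → K → K → Prop} {Wf : K → K → K → K → K → K → K → K → Prop}
    {b₀ b₁ b₂ b₃ b₄ : K} (h : Inp (Zf b₀ b₁ b₂ b₃ b₄) (Wf b₀ b₁ b₂ b₃ b₄))
    (hs : ∀ u n w, u ≠ 0 → Wf b₀ b₁ b₂ b₃ b₄ u n w → Wf b₀ b₁ b₂ b₃ b₄ u (n + 1) (u * w)) :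
    Inp (ZZf Zf) (PPf Wf) := by
  refine ⟨fun x => ⟨fun hx => ?_, ?_⟩, ?_, ?_⟩
  · refine (h.z x).1 (hx b₀ b₁ b₂ b₃ b₄ ((h.z 1).2 ⟨1, Int.cast_one.symm⟩) fun y z hy hz => ?_)
    obtain ⟨a, rfl⟩ := (h.z y).1 hy
    obtain ⟨b, rfl⟩ := (h.z z).1 hz
    exact (h.z _).2 ⟨a - b, (Int.cast_sub a b).symm⟩
  · rintro ⟨n, rfl⟩ c₀ c₁ c₂ c₃ c₄ h1 h2
    have h0 : Zf c₀ c₁ c₂ c₃ c₄ 0 := by
      have := h2 1 1 h1 h1
      rwa [sub_self] at this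
    have h3 : Zf c₀ c₁ c₂ c₃ c₄ (-1) := by
      have := h2 0 1 h0 h1
      rwa [zero_sub] at this
    induction n using Int.induction_on with
    | zero =>
      rw [Int.cast_zero]
      exact h0
    | succ n ih =>
      have := h2 _ _ ih h3
      rw [sub_neg_eq_add] at this
      rw [Int.cast_add, Int.cast_one]
      exact this
    | pred n ih =>
      have := h2 _ _ ih h1
      rw [Int.cast_sub, Int.cast_one]
      exact this
  · intro u n hu c₀ c₁ c₂ c₃ c₄ h1 h2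
    induction n with
    | zero =>
      rw [Nat.cast_zero, pow_zero]
      exact h1 u hu
    | succ n ih =>
      rw [Nat.cast_succ, pow_succ']
      exact h2 u n _ hu ih
  · intro u w n hu hw
    refine h.pw' u w n hu (hw b₀ b₁ b₂ b₃ b₄ (fun u' hu' => ?_) hs)
    have := h.pw u' 0 hu'
    rwa [Nat.cast_zero, pow_zero] at this

theorem zzf_one (Zf : K → K → K → K → K → K → Prop) : ZZf Zf 1 :=
  fun _ _ _ _ _ h1 _ => h1

theorem zzf_sub (Zf : K → K → K → K → K → K → Prop) {x y : K} (hx : ZZf Zf x) (hy : ZZf Zf y) :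
    ZZf Zf (x - y) :=
  fun b₀ b₁ b₂ b₃ b₄ h1 h2 => h2 x y (hx b₀ b₁ b₂ b₃ b₄ h1 h2) (hy b₀ b₁ b₂ b₃ b₄ h1 h2)

end

section

variable {Zf Of Lf : ∀ (K : Type u) [Field K], K → K → K → K → K → K → Prop}
variable {Wf Pf : ∀ (K : Type u) [Field K], K → K → K → K → K → K → K → K → Prop}

variable {f₁ f₂ f₃ f₄ f₅ f₆ f₇ f₈ : ∀ (K : Type u) [Field K], (ℕ → K) → K}

private theorem ua_s6 {Z : ∀ (K : Type u) [Field K], K → K → K → K → K → K → Prop}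
    (hZ : UA (fun K _ v => Z K (v 0) (v 1) (v 2) (v 3) (v 4) (v 5))) (h₁ : TT f₁) (h₂ : TT f₂)
    (h₃ : TT f₃) (h₄ : TT f₄) (h₅ : TT f₅) (h₆ : TT f₆) :
    UA (fun K _ v => Z K (f₁ K v) (f₂ K v) (f₃ K v) (f₄ K v) (f₅ K v) (f₆ K v)) :=
  UA.subst (σ := sg [f₁, f₂, f₃, f₄, f₅, f₆] f₁) (sg_TT h₁ (by
    simp only [List.mem_cons, List.not_mem_nil, or_false, forall_eq_or_imp, forall_eq]
    exact ⟨h₁, h₂, h₃, h₄, h₅, h₆⟩)) hZ

private theorem ua_s8 {Z : ∀ (K : Type u) [Field K], K → K → K → K → K → K → K → K → Prop}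
    (hZ : UA (fun K _ v => Z K (v 0) (v 1) (v 2) (v 3) (v 4) (v 5) (v 6) (v 7))) (h₁ : TT f₁)
    (h₂ : TT f₂) (h₃ : TT f₃) (h₄ : TT f₄) (h₅ : TT f₅) (h₆ : TT f₆) (h₇ : TT f₇) (h₈ : TT f₈) :
    UA (fun K _ v => Z K (f₁ K v) (f₂ K v) (f₃ K v) (f₄ K v) (f₅ K v) (f₆ K v) (f₇ K v) (f₈ K v)) :=
  UA.subst (σ := sg [f₁, f₂, f₃, f₄, f₅, f₆, f₇, f₈] f₁) (sg_TT h₁ (by
    simp only [List.mem_cons, List.not_mem_nil, or_false, forall_eq_or_imp, forall_eq]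
    exact ⟨h₁, h₂, h₃, h₄, h₅, h₆, h₇, h₈⟩)) hZ

theorem ua_Zz0 (hO : UA (fun K _ v => Of K (v 0) (v 1) (v 2) (v 3) (v 4) (v 5)))
    (hL : UA (fun K _ v => Lf K (v 0) (v 1) (v 2) (v 3) (v 4) (v 5))) :
    UA.{u} (fun K _ v => Z0 (Of K (v 0) (v 1) (v 2) (v 3) (v 4)) (Lf K (v 0) (v 1) (v 2) (v 3) (v 4))
      (v 5)) :=
  UA.congr (fun _ _ _ => Iff.rfl) <|
    (ua_s6 hO (TT.var 0) (TT.var 1) (TT.var 2) (TT.var 3) (TT.var 4) (TT.var 5)).and <|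
    UA.all 6 <| (ua_s6 hL (TT.var 0) (TT.var 1) (TT.var 2) (TT.var 3) (TT.var 4) (TT.var 6)).imp <|
    (UA.eq (TT.var 6) TT.one).not.imp <| UA.ex 7 <| UA.ex 8 <|
    (ua_s6 hL (TT.var 0) (TT.var 1) (TT.var 2) (TT.var 3) (TT.var 4) (TT.var 7)).and <|
    (ua_s6 hO (TT.var 0) (TT.var 1) (TT.var 2) (TT.var 3) (TT.var 4) (TT.var 8)).and <|
    UA.eq (((TT.var 7).sub TT.one).sub ((TT.var 5).mul ((TT.var 6).sub TT.one)))
      ((((TT.var 6).sub TT.one).mul ((TT.var 6).sub TT.one)).mul (TT.var 8))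

theorem ua_W0' (hO : UA (fun K _ v => Of K (v 0) (v 1) (v 2) (v 3) (v 4) (v 5)))
    (hL : UA (fun K _ v => Lf K (v 0) (v 1) (v 2) (v 3) (v 4) (v 5)))
    (hP : UA (fun K _ v => Pf K (v 0) (v 1) (v 2) (v 3) (v 4) (v 5) (v 6) (v 7))) :
    UA.{u} (fun K _ v => W0 (Of K (v 0) (v 1) (v 2) (v 3) (v 4)) (Lf K (v 0) (v 1) (v 2) (v 3) (v 4))
      (Pf K (v 0) (v 1) (v 2) (v 3) (v 4)) (v 5) (v 6) (v 7)) :=
  UA.congr (fun _ _ _ => Iff.rfl) <|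
    (ua_s6 (Z := fun K _ a b c d e x => Z0 (Of K a b c d e) (Lf K a b c d e) x)
      (ua_Zz0 hO hL) (TT.var 0) (TT.var 1) (TT.var 2) (TT.var 3) (TT.var 4) (TT.var 6)).and <|
    (UA.eq (TT.var 5) TT.zero).not.and <| (UA.eq (TT.var 7) TT.zero).not.and <|
    UA.all 8 <| (ua_s6 hL (TT.var 0) (TT.var 1) (TT.var 2) (TT.var 3) (TT.var 4) (TT.var 8)).imp <|
    (UA.eq (TT.var 8) TT.one).not.imp <| UA.ex 9 <| UA.ex 10 <| UA.ex 11 <| UA.ex 12 <|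
    UA.ex 13 <| UA.ex 14 <| UA.ex 15 <|
    (ua_s6 hL (TT.var 0) (TT.var 1) (TT.var 2) (TT.var 3) (TT.var 4) (TT.var 9)).and <|
    (ua_s6 hO (TT.var 0) (TT.var 1) (TT.var 2) (TT.var 3) (TT.var 4) (TT.var 10)).and <|
    (UA.eq (((TT.var 9).sub TT.one).sub ((TT.var 6).mul ((TT.var 8).sub TT.one)))
      ((((TT.var 8).sub TT.one).mul ((TT.var 8).sub TT.one)).mul (TT.var 10))).and <|
    (UA.eq (TT.var 11) TT.zero).not.and <|
    (ua_s8 hP (TT.var 0) (TT.var 1) (TT.var 2) (TT.var 3) (TT.var 4) (TT.var 7) (TT.var 8)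
      (TT.var 12)).and <|
    (ua_s8 hP (TT.var 0) (TT.var 1) (TT.var 2) (TT.var 3) (TT.var 4) (TT.var 11) (TT.var 8)
      (TT.var 13)).and <|
    (ua_s8 hP (TT.var 0) (TT.var 1) (TT.var 2) (TT.var 3) (TT.var 4) (TT.var 13) (TT.var 8)
      (TT.var 14)).and <|
    (ua_s8 hP (TT.var 0) (TT.var 1) (TT.var 2) (TT.var 3) (TT.var 4) (TT.var 5) (TT.var 9)
      (TT.var 15)).and <|
    UA.eq ((((TT.var 12).mul (TT.var 14)).mul (TT.var 11)).mul (TT.var 5))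
      (((TT.var 15).mul (TT.var 7)).mul ((TT.var 13).mul (TT.var 13)))

theorem ua_ZZf (hZ : UA (fun K _ v => Zf K (v 0) (v 1) (v 2) (v 3) (v 4) (v 5))) :
    UA.{u} (fun K _ v => ZZf (Zf K) (v 0)) :=
  UA.congr (fun _ _ _ => Iff.rfl) <| UA.all 1 <| UA.all 2 <| UA.all 3 <| UA.all 4 <| UA.all 5 <|
    (ua_s6 hZ (TT.var 1) (TT.var 2) (TT.var 3) (TT.var 4) (TT.var 5) TT.one).imp <|
    (UA.all 6 <| UA.all 7 <|
      (ua_s6 hZ (TT.var 1) (TT.var 2) (TT.var 3) (TT.var 4) (TT.var 5) (TT.var 6)).imp <|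
      (ua_s6 hZ (TT.var 1) (TT.var 2) (TT.var 3) (TT.var 4) (TT.var 5) (TT.var 7)).imp <|
      ua_s6 hZ (TT.var 1) (TT.var 2) (TT.var 3) (TT.var 4) (TT.var 5)
        ((TT.var 6).sub (TT.var 7))).imp <|
    ua_s6 hZ (TT.var 1) (TT.var 2) (TT.var 3) (TT.var 4) (TT.var 5) (TT.var 0)

theorem ua_PPf (hW : UA (fun K _ v => Wf K (v 0) (v 1) (v 2) (v 3) (v 4) (v 5) (v 6) (v 7))) :
    UA.{u} (fun K _ v => PPf (Wf K) (v 0) (v 1) (v 2)) :=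
  UA.congr (fun _ _ _ => Iff.rfl) <| UA.all 3 <| UA.all 4 <| UA.all 5 <| UA.all 6 <| UA.all 7 <|
    (UA.all 8 <| (UA.eq (TT.var 8) TT.zero).not.imp <|
      ua_s8 hW (TT.var 3) (TT.var 4) (TT.var 5) (TT.var 6) (TT.var 7) (TT.var 8) TT.zero
        TT.one).imp <|
    (UA.all 8 <| UA.all 9 <| UA.all 10 <| (UA.eq (TT.var 8) TT.zero).not.imp <|
      (ua_s8 hW (TT.var 3) (TT.var 4) (TT.var 5) (TT.var 6) (TT.var 7) (TT.var 8) (TT.var 9)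
        (TT.var 10)).imp <|
      ua_s8 hW (TT.var 3) (TT.var 4) (TT.var 5) (TT.var 6) (TT.var 7) (TT.var 8)
        ((TT.var 9).add TT.one) ((TT.var 8).mul (TT.var 10))).imp <|
    ua_s8 hW (TT.var 3) (TT.var 4) (TT.var 5) (TT.var 6) (TT.var 7) (TT.var 0) (TT.var 1)
      (TT.var 2)

end

end UD0
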