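import Pool.Agent.UD0.SetU
import Pool.Agent.UD0.C3b
import Pool.Agent.UD0.PwH
import Pool.Agent.UD0.PwU
import Pool.Agent.UD0.ZzC
import Pool.Agent.UD0.ZzD

/-!
# UD0: the integers and the power relation, without parameters

Glue of the sections 3, 4, 5.  Parameters: `lam`, `n`, `l`, `ν`, `z`.
-/

set_option autoImplicit false

open Polynomial UDV

namespace UD0

universe u

section defs

variable {K : Type u} [Field K]

/-- the powers of `l`, with five parameters -/
def LF (lam n l ν z x : K) : Prop := Lm (CC lam n l) (OI lam n l) ν z l x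

/-- the power relation, with five parameters -/
def PF5 (lam n l ν z u x y : K) : Prop := Pw (CC lam n l) (OI lam n l) ν z u x y

/-- the integers, with five parameters -/
def ZF (lam n l ν z x : K) : Prop := Z0 (OI lam n l) (LF lam n l ν z) x

/-- the power relation of integers, with five parameters -/
def WF (lam n l ν z u m w : K) : Prop :=
  W0 (OI lam n l) (LF lam n l ν z) (PF5 lam n l ν z) u m w

/-- the integers -/
def ZZ (x : K) : Prop := ZZf ZF x

/-- the power relation -/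
def PP (u m w : K) : Prop := PPf WF u m w

end defs

theorem ua_ZZ : UA.{u} (fun K _ v => ZZ (v 0)) := by
  have hC : UA.{u} (fun K _ v => CC (v 0) (v 1) (v 2) (v 3)) := ua_CC0
  have hO : UA.{u} (fun K _ v => OI (v 0) (v 1) (v 2) (v 3)) := ua_OI0
  have hL : UA.{u} (fun K _ v => LF (v 0) (v 1) (v 2) (v 3) (v 4) (v 5)) :=
    ua_Lm (Cf := fun K _ => CC) (Of := fun K _ => OI) hC hO
  have hO5 : UA.{u} (fun K _ v => OI (v 0) (v 1) (v 2) (v 5)) :=
    ua_OI (TT.var 0) (TT.var 1) (TT.var 2) (TT.var 5)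
  exact ua_ZZf (Zf := fun K _ => ZF)
    (ua_Zz0 (Of := fun K _ a b c _ _ x => OI a b c x) (Lf := fun K _ => LF) hO5 hL)

theorem ua_PP : UA.{u} (fun K _ v => PP (v 0) (v 1) (v 2)) := by
  have hC : UA.{u} (fun K _ v => CC (v 0) (v 1) (v 2) (v 3)) := ua_CC0
  have hO : UA.{u} (fun K _ v => OI (v 0) (v 1) (v 2) (v 3)) := ua_OI0
  have hL : UA.{u} (fun K _ v => LF (v 0) (v 1) (v 2) (v 3) (v 4) (v 5)) :=
    ua_Lm (Cf := fun K _ => CC) (Of := fun K _ => OI) hC hO
  have hP : UA.{u} (fun K _ v => PF5 (v 0) (v 1) (v 2) (v 3) (v 4) (v 5) (v 6) (v 7)) :=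
    ua_Pw (Cf := fun K _ => CC) (Of := fun K _ => OI) hC hO
  have hO5 : UA.{u} (fun K _ v => OI (v 0) (v 1) (v 2) (v 5)) :=
    ua_OI (TT.var 0) (TT.var 1) (TT.var 2) (TT.var 5)
  exact ua_PPf (Wf := fun K _ => WF)
    (ua_W0' (Of := fun K _ a b c _ _ x => OI a b c x) (Lf := fun K _ => LF)
      (Pf := fun K _ => PF5) hO5 hL hP)

theorem zz_one {K : Type u} [Field K] : ZZ (1 : K) := zzf_one _

theorem zz_sub {K : Type u} [Field K] {x y : K} (hx : ZZ x) (hy : ZZ y) : ZZ (x - y) :=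
  zzf_sub _ hx hy

/-- Sections 3, 4, 5: input for the coding. -/
theorem inp_main {K : Type u} [Field K] [CharZero K] {P : Pres K} (C : Chart P) (S : Setup K)
    (M : Mov S.l S.e₀) (hK : ∃ u : K, ¬ Alg u) : Inp (K := K) ZZ PP := by
  have h2 : S.l ≠ 2 := by have := S.l3; omega
  have hl1 : 1 < S.l := S.hl.out.one_lt
  obtain ⟨z, hz⟩ := powIn h2 M S.nf hK (cc_iff S) (oi_iff S)
  exact inp_free (b₀ := S.lamK) (b₁ := S.nK) (b₂ := S.lK) (b₃ := ((lst S.l : ℤ) : K)) (b₄ := z)
    (inp_of_powIn C hl1 hz) (fun u n w _ hw => w0_succ hl1 hz hw)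

end UD0
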