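import Mathlib

/-!
# UD0: continuity of a simple root

PROOF of `root_near` (inverse function theorem).  Consider `f : F × F → F × F`,
`f (T, X) = (T, (H.map (evalRingHom T)).eval X)`.  The second component is a polynomial function of
`(T, X)` (a finite sum of `(coefficient of H in degree i).eval T * X ^ i`), so `f` is continuously
(strictly) differentiable, and its derivative at `(T₀, θ₀)` is `(u, v) ↦ (u, a u + b v)` with
`b = (derivative (H.map (evalRingHom T₀))).eval θ₀ ≠ 0`, an invertible linear map.  By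
`HasStrictFDerivAt.map_nhds_eq_of_equiv` the map `f` sends neighbourhoods of `(T₀, θ₀)` to
neighbourhoods of `(T₀, 0)`.  Take the neighbourhood of the `(T, X)` with `‖X - θ₀‖ < ε` and
`(derivative (H.map (evalRingHom T))).eval X ≠ 0` (open by continuity).  For `c` close to `T₀` the point
`(c, 0)` is in its image: there is `X` with `(H.map (evalRingHom c)).eval X = 0`.
(A direct proof by Newton iteration is also possible.)
-/

set_option autoImplicit false

open Polynomial

namespace UD0

private lemma ev_strict_59 {F : Type*} [NontriviallyNormedField F] (H : F[X][X]) (T₀ θ₀ : F) :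
    ∃ L : F × F →L[F] F, HasStrictFDerivAt
      (fun p : F × F => (H.map (evalRingHom p.1)).eval p.2) L (T₀, θ₀) := by
  induction H using Polynomial.induction_on' with
  | add P Q hP hQ =>
    obtain ⟨L₁, h₁⟩ := hP
    obtain ⟨L₂, h₂⟩ := hQ
    refine ⟨L₁ + L₂, ?_⟩
    have h := h₁.add h₂
    refine h.congr_of_eventuallyEq (Filter.Eventually.of_forall fun p => ?_)
    simp [Polynomial.map_add, eval_add]
  | monomial n a =>
    have h₁ := (a.hasStrictDerivAt T₀).hasStrictFDerivAt.comp (T₀, θ₀)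
      (hasStrictFDerivAt_fst (𝕜 := F) (E := F) (F := F) (p := (T₀, θ₀)))
    have h₂ := (hasStrictFDerivAt_snd (𝕜 := F) (E := F) (F := F) (p := (T₀, θ₀))).pow n
    have h := h₁.mul h₂
    refine ⟨_, h.congr_of_eventuallyEq (Filter.Eventually.of_forall fun p => ?_)⟩
    simp [Polynomial.map_monomial, eval_monomial]

private lemma ev_der_59 {F : Type*} [NontriviallyNormedField F] (H : F[X][X]) (T₀ θ₀ : F)
    {L : F × F →L[F] F} (hL : HasStrictFDerivAt
      (fun p : F × F => (H.map (evalRingHom p.1)).eval p.2) L (T₀, θ₀)) :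
    L (0, 1) = (derivative (H.map (evalRingHom T₀))).eval θ₀ := by
  have h1 : HasDerivAt (fun x : F => (T₀, x)) ((0 : F), (1 : F)) θ₀ :=
    (hasDerivAt_const θ₀ T₀).prodMk (hasDerivAt_id θ₀)
  have h2 : HasDerivAt (fun x : F => (H.map (evalRingHom T₀)).eval x) (L (0, 1)) θ₀ :=
    HasFDerivAt.comp_hasDerivAt (f := fun x : F => (T₀, x)) θ₀ hL.hasFDerivAt h1
  exact h2.unique (Polynomial.hasDerivAt _ _)

/-- Continuity of a simple root of a polynomial whose coefficients are polynomials in `T`. -/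
theorem root_near {F : Type*} [NontriviallyNormedField F] [CompleteSpace F] (H : F[X][X])
    (T₀ θ₀ : F) (h0 : (H.map (evalRingHom T₀)).eval θ₀ = 0)
    (h1 : (derivative (H.map (evalRingHom T₀))).eval θ₀ ≠ 0) {ε : ℝ} (hε : 0 < ε) :
    ∃ δ : ℝ, 0 < δ ∧ ∀ c : F, ‖c - T₀‖ < δ → ∃ θ : F, ‖θ - θ₀‖ < ε ∧
      (H.map (evalRingHom c)).eval θ = 0 ∧ (derivative (H.map (evalRingHom c))).eval θ ≠ 0 := by
  classical
  obtain ⟨L, hL⟩ := ev_strict_59 H T₀ θ₀
  obtain ⟨L', hL'⟩ := ev_strict_59 (derivative H) T₀ θ₀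
  set b : F := (derivative (H.map (evalRingHom T₀))).eval θ₀ with hb
  have hLb : L (0, 1) = b := ev_der_59 H T₀ θ₀ hL
  have hLv : ∀ v : F, L (0, v) = v * b := by
    intro v
    have : ((0 : F), v) = v • ((0 : F), (1 : F)) := by simp
    rw [this, map_smul, hLb, smul_eq_mul]
  have hLuv : ∀ u v : F, L (u, v) = L (u, 0) + v * b := by
    intro u v
    rw [← hLv v, ← map_add]
    simp
  let e₁ : F × F →L[F] F × F := (ContinuousLinearMap.fst F F F).prod L
  let e₂ : F × F →L[F] F × F := (ContinuousLinearMap.fst F F F).prod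
    (b⁻¹ • (ContinuousLinearMap.snd F F F -
      L.comp ((ContinuousLinearMap.inl F F F).comp (ContinuousLinearMap.fst F F F))))
  have i₁ : Function.LeftInverse e₂ e₁ := by
    rintro ⟨u, v⟩
    refine Prod.ext rfl ?_
    show b⁻¹ * (L (u, v) - L (u, 0)) = v
    rw [hLuv]
    field_simp
    ring
  have i₂ : Function.RightInverse e₂ e₁ := by
    rintro ⟨u, w⟩
    refine Prod.ext rfl ?_
    show L (u, b⁻¹ * (w - L (u, 0))) = w
    rw [hLuv]
    field_simp
    ring
  let e : (F × F) ≃L[F] (F × F) := ContinuousLinearEquiv.equivOfInverse e₁ e₂ i₁ i₂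
  have hf : HasStrictFDerivAt (fun p : F × F => (p.1, (H.map (evalRingHom p.1)).eval p.2))
      (e : F × F →L[F] F × F) (T₀, θ₀) :=
    (hasStrictFDerivAt_fst (𝕜 := F) (E := F) (F := F) (p := (T₀, θ₀))).prodMk hL
  have hmap := hf.map_nhds_eq_of_equiv
  have hS : {p : F × F | ‖p.2 - θ₀‖ < ε ∧
      (derivative (H.map (evalRingHom p.1))).eval p.2 ≠ 0} ∈ nhds (T₀, θ₀) := by
    have c1 : ContinuousAt (fun p : F × F => ‖p.2 - θ₀‖) (T₀, θ₀) := by fun_prop
    have c2 : ContinuousAt (fun p : F × F => (derivative (H.map (evalRingHom p.1))).eval p.2)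
        (T₀, θ₀) := by
      have := hL'.continuousAt
      simpa only [derivative_map] using this
    have m1 : ∀ᶠ p in nhds (T₀, θ₀), ‖p.2 - θ₀‖ < ε := by
      apply c1.eventually_lt continuousAt_const
      simpa using hε
    have m2 : ∀ᶠ p in nhds (T₀, θ₀), (derivative (H.map (evalRingHom p.1))).eval p.2 ≠ 0 :=
      c2.eventually_ne h1
    exact m1.and m2
  have him : (fun p : F × F => (p.1, (H.map (evalRingHom p.1)).eval p.2)) ''
      {p : F × F | ‖p.2 - θ₀‖ < ε ∧ (derivative (H.map (evalRingHom p.1))).eval p.2 ≠ 0} ∈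
        nhds (T₀, (0 : F)) := by
    have := Filter.image_mem_map (m := fun p : F × F =>
      (p.1, (H.map (evalRingHom p.1)).eval p.2)) hS
    rw [hmap] at this
    simpa only [h0] using this
  have hc : Continuous (fun c : F => (c, (0 : F))) := by fun_prop
  have hpre := hc.continuousAt.preimage_mem_nhds (x := T₀) him
  obtain ⟨δ, hδ, hball⟩ := Metric.mem_nhds_iff.1 hpre
  refine ⟨δ, hδ, fun c hcδ => ?_⟩
  have hcb : c ∈ Metric.ball T₀ δ := by
    rw [Metric.mem_ball, dist_eq_norm]
    exact hcδ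
  obtain ⟨⟨c', θ⟩, ⟨hθ1, hθ2⟩, hq⟩ := hball hcb
  simp only [Prod.mk.injEq] at hq
  obtain ⟨rfl, hq2⟩ := hq
  exact ⟨θ, hθ1, hq2, hθ2⟩

end UD0
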