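import Mathlib

/-!
# UD0: infinitely many primes `q = 1 mod 3` with a root of a given polynomial

PROOF of `schur` (Schur): `g` nonconstant.  Suppose only primes `≤ N` divide nonzero values `g(n)`.  If
`g(0) = 0`: `g(q) = 0 mod q` for all primes `q`; done.  Otherwise put `a = g(0) ≠ 0` and consider
`g(a * (N !) * n) = a * (1 + (N !) * (...))`: `g(a m) / a = 1 + m * h(m)`-type integer which is `1` modulo
every prime `≤ N` when `m = N ! * n`; it is not `± 1` for all `n` as `g` is nonconstant (a polynomial takes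
the values `± a` only finitely often), so it has a prime divisor `q > N` and `q ∣ g(a m)`.
PROOF of `good_primes`.  `g` monic nonconstant over `ℤ`.  Take an algebraic closure `Ω` of `ℚ`, a root `α`
of `g` and a primitive cube root of unity `ω` in `Ω`, and the number field `E = ℚ(α, ω)`.  It has a
primitive element; multiplied by an integer it is an algebraic integer `γ` with minimal polynomial
`m ∈ ℤ[X]` (monic), and `α = A(γ)`, `ω = B(γ)` with `A, B ∈ ℚ[X]`; let `M > 0` be a common denominator.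
By `schur` there is a prime `q > max N M 3` with a root `c ∈ ZMod q` of `m`.  Then (the denominators are
invertible modulo `q`, `m` divides `g(A(X))` and `B(X) ^ 2 + B(X) + 1` in `ℤ[1/M][X]`, as `m` is monic) the
element `x = A(c)` is a root of `g` in `ZMod q` and `y = B(c)` satisfies `y ^ 2 + y + 1 = 0`, so `y` has
order `3` in `(ZMod q)ˣ` (`y ≠ 1` as `q ≠ 3`) and `3 ∣ q - 1`, i.e. `q % 3 = 1`.
(Variant: ring homomorphism `ℤ[1/M][X] ⧸ (m) → ZMod q`; the subring `ℤ[1/M][γ]` of `E` is isomorphic to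
the quotient, and contains `α`, `ω`.)
-/

set_option autoImplicit false

open Polynomial

namespace UD0

theorem schur (g : ℤ[X]) (hg : 0 < g.natDegree) (N : ℕ) :
    ∃ q : ℕ, N < q ∧ q.Prime ∧ ∃ x : ZMod q, aeval x g = 0 := by
  by_cases h0 : g.coeff 0 = 0
  · obtain ⟨q, hq, hqp⟩ := Nat.exists_infinite_primes (N + 1)
    refine ⟨q, hq, hqp, 0, ?_⟩
    rw [aeval_def, eval₂_at_zero, h0, map_zero]
  set a := g.coeff 0 with ha
  set M : ℤ := (N.factorial : ℤ) with hM
  have hM0 : M ≠ 0 := by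
    rw [hM]
    exact_mod_cast N.factorial_ne_zero
  -- a value different from `± a`
  have hinj : Function.Injective (fun n : ℕ => a * M * (n : ℤ)) := by
    intro x y hxy
    have := mul_left_cancel₀ (mul_ne_zero h0 hM0) hxy
    exact_mod_cast this
  have hne : (g - C a) * (g + C a) ≠ 0 := by
    apply mul_ne_zero
    · intro h
      rw [sub_eq_zero.1 h, natDegree_C] at hg
      exact lt_irrefl _ hg
    · intro h
      rw [eq_neg_of_add_eq_zero_left h, natDegree_neg, natDegree_C] at hg
      exact lt_irrefl _ hg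
  obtain ⟨z, ⟨n, hn⟩, hz⟩ := (Set.infinite_range_of_injective hinj).exists_notMem_finset
    ((g - C a) * (g + C a)).roots.toFinset
  rw [Multiset.mem_toFinset, mem_roots hne, IsRoot.def, eval_mul, mul_eq_zero, not_or] at hz
  rw [eval_sub, eval_add, eval_C] at hz
  have hval : g.eval z = a * (1 + M * n * g.divX.eval z) := by
    conv_lhs => rw [← divX_mul_X_add g]
    rw [eval_add, eval_mul, eval_X, eval_C, ← ha, ← hn]
    ring
  have h1 : (1 + M * n * g.divX.eval z).natAbs ≠ 1 := by
    intro h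
    rcases Int.natAbs_eq (1 + M * n * g.divX.eval z) with h2 | h2
    · rw [h] at h2
      rw [h2] at hval
      apply hz.1
      rw [hval]
      push_cast
      ring
    · rw [h] at h2
      rw [h2] at hval
      apply hz.2
      rw [hval]
      push_cast
      ring
  obtain ⟨q, hqp, hq⟩ := Nat.exists_prime_and_dvd h1
  have hq' : (q : ℤ) ∣ 1 + M * n * g.divX.eval z := Int.natCast_dvd.2 hq
  refine ⟨q, ?_, hqp, (z : ZMod q), ?_⟩
  · by_contra hle
    have h2 : (q : ℤ) ∣ M := by
      rw [hM]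
      exact_mod_cast (hqp.dvd_factorial).2 (not_lt.1 hle)
    have h3 : (q : ℤ) ∣ 1 := by
      have := dvd_sub hq' ((h2.mul_right (n : ℤ)).mul_right (g.divX.eval z))
      simpa using this
    have h4 : q ∣ 1 := by exact_mod_cast h3
    exact hqp.one_lt.ne' (Nat.dvd_one.1 h4)
  · have h2 : aeval (z : ZMod q) g = ((g.eval z : ℤ) : ZMod q) := by
      rw [← eq_intCast (algebraMap ℤ (ZMod q)) z, aeval_algebraMap_apply, aeval_def, eval₂_eq_eval_map]
      simp
    rw [h2, hval, Int.cast_mul, (ZMod.intCast_zmod_eq_zero_iff_dvd _ q).2 hq', mul_zero]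

/-- roots in a number field give roots modulo infinitely many primes -/
theorem transfer {E : Type} [Field E] [CharZero E] [FiniteDimensional ℚ E] (s : Finset E) (N : ℕ) :
    ∃ q : ℕ, N < q ∧ q.Prime ∧ ∀ α ∈ s, ∀ g : ℤ[X], aeval α g = 0 →
      ∃ x : ZMod q, aeval x g = 0 := by
  classical
  obtain ⟨γ0, hγ0⟩ := Field.exists_primitive_element ℚ E
  have halg : IsAlgebraic ℤ γ0 :=
    (IsFractionRing.isAlgebraic_iff ℤ ℚ E).2 (Algebra.IsAlgebraic.isAlgebraic γ0)
  obtain ⟨k, hk, hint⟩ := halg.exists_integral_multiple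
  set γ := k • γ0 with hγ
  have hkE : (k : E) ≠ 0 := by exact_mod_cast hk
  -- every element is a polynomial in `γ` up to a denominator
  have hrep : ∀ α : E, ∃ (b : ℤ) (A : ℤ[X]), b ≠ 0 ∧ aeval γ A = (b : E) * α := by
    intro α
    have h1 : α ∈ (IntermediateField.adjoin ℚ {γ}) := by
      have h2 : γ0 ∈ IntermediateField.adjoin ℚ {γ} := by
        have h3 : γ ∈ IntermediateField.adjoin ℚ {γ} := IntermediateField.mem_adjoin_simple_self ℚ γ
        have h4 : γ0 = γ / (k : E) := by
          rw [hγ, zsmul_eq_mul]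
          field_simp
        rw [h4]
        exact div_mem h3 (intCast_mem _ k)
      have h5 : IntermediateField.adjoin ℚ {γ0} ≤ IntermediateField.adjoin ℚ {γ} :=
        IntermediateField.adjoin_simple_le_iff.2 h2
      rw [hγ0] at h5
      exact h5 IntermediateField.mem_top
    have h2 : α ∈ Algebra.adjoin ℚ {γ} := by
      rw [← IntermediateField.adjoin_simple_toSubalgebra_of_isAlgebraic
        (Algebra.IsAlgebraic.isAlgebraic γ)]
      exact h1
    rw [Algebra.adjoin_singleton_eq_range_aeval] at h2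
    obtain ⟨P, hP⟩ := h2
    obtain ⟨b, hb, hbP⟩ := IsLocalization.integerNormalization_spec (nonZeroDivisors ℤ) P
    refine ⟨b, IsLocalization.integerNormalization (nonZeroDivisors ℤ) P,
      nonZeroDivisors.ne_zero hb, ?_⟩
    have h3 := congrArg (aeval γ) hbP
    rw [aeval_map_algebraMap] at h3
    rw [h3, map_zsmul, zsmul_eq_mul]
    congr 1
  choose b A hb hA using hrep
  have hdeg : 0 < (minpoly ℤ γ).natDegree := minpoly.natDegree_pos hint
  obtain ⟨q, hq, hqp, c, hc⟩ := schur (minpoly ℤ γ) hdeg (N + ∑ α ∈ s, (b α).natAbs)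
  have : Fact q.Prime := ⟨hqp⟩
  refine ⟨q, by omega, hqp, ?_⟩
  intro α hα g hg
  have hbq : ((b α : ℤ) : ZMod q) ≠ 0 := by
    rw [Ne, ZMod.intCast_zmod_eq_zero_iff_dvd]
    intro hd
    have h1 : q ∣ (b α).natAbs := Int.natCast_dvd.1 hd
    have h2 := Nat.le_of_dvd (Int.natAbs_pos.2 (hb α)) h1
    have h3 : (b α).natAbs ≤ ∑ α ∈ s, (b α).natAbs :=
      Finset.single_le_sum (f := fun α => (b α).natAbs) (fun _ _ => Nat.zero_le _) hα
    omega
  have h1 : aeval γ ((g.scaleRoots (b α)).comp (A α)) = 0 := by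
    rw [aeval_comp, hA]
    have := scaleRoots_aeval_eq_zero (r := b α) hg
    simpa using this
  obtain ⟨Q, hQ⟩ := minpoly.isIntegrallyClosed_dvd hint h1
  have h2 : aeval c ((g.scaleRoots (b α)).comp (A α)) = 0 := by
    rw [hQ, map_mul, hc, zero_mul]
  rw [aeval_comp] at h2
  refine ⟨aeval c (A α) / ((b α : ℤ) : ZMod q), ?_⟩
  have h3 := scaleRoots_eval₂_mul (p := g) (algebraMap ℤ (ZMod q))
    (aeval c (A α) / ((b α : ℤ) : ZMod q)) (b α)
  rw [eq_intCast, mul_div_cancel₀ _ hbq, ← aeval_def, ← aeval_def, h2] at h3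
  exact (mul_eq_zero.1 h3.symm).resolve_left (pow_ne_zero _ hbq)

theorem good_primes (g : ℤ[X]) (hg : g.Monic) (hd : 0 < g.natDegree) (N : ℕ) :
    ∃ q : ℕ, N < q ∧ q.Prime ∧ q % 3 = 1 ∧ ∃ x : ZMod q, aeval x g = 0 := by
  classical
  obtain ⟨α, hα⟩ := IsAlgClosed.exists_aeval_eq_zero ℂ g (by
    rw [degree_eq_natDegree hg.ne_zero]
    exact_mod_cast hd.ne')
  obtain ⟨ω, hω⟩ := IsAlgClosed.exists_aeval_eq_zero ℂ (X ^ 2 + X + 1 : ℤ[X]) (by
    have : (X ^ 2 + X + 1 : ℤ[X]).degree = 2 := by compute_degree!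
    rw [this]
    decide)
  have hαi : IsIntegral ℚ α := by
    have : IsAlgebraic ℤ α := ⟨g, hg.ne_zero, hα⟩
    exact ((IsFractionRing.isAlgebraic_iff ℤ ℚ ℂ).1 this).isIntegral
  have hωi : IsIntegral ℚ ω := by
    have : IsAlgebraic ℤ ω := ⟨X ^ 2 + X + 1, by
      have : (X ^ 2 + X + 1 : ℤ[X]).Monic := by monicity!
      exact this.ne_zero, hω⟩
    exact ((IsFractionRing.isAlgebraic_iff ℤ ℚ ℂ).1 this).isIntegral
  let E := IntermediateField.adjoin ℚ ({α, ω} : Set ℂ)
  have hfin : FiniteDimensional ℚ E := by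
    apply IntermediateField.finiteDimensional_adjoin
    intro x hx
    rcases hx with rfl | hx
    · exact hαi
    · rw [Set.mem_singleton_iff] at hx
      rw [hx]
      exact hωi
  let α' : E := ⟨α, IntermediateField.subset_adjoin ℚ _ (Set.mem_insert _ _)⟩
  let ω' : E := ⟨ω, IntermediateField.subset_adjoin ℚ _ (Set.mem_insert_of_mem _ rfl)⟩
  have hinj : Function.Injective (algebraMap E ℂ) := (algebraMap E ℂ).injective
  have hα' : aeval α' g = 0 := by
    apply hinj
    rw [← aeval_algebraMap_apply, map_zero]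
    exact hα
  have hω' : aeval ω' (X ^ 2 + X + 1 : ℤ[X]) = 0 := by
    apply hinj
    rw [← aeval_algebraMap_apply, map_zero]
    exact hω
  obtain ⟨q, hq, hqp, h⟩ := transfer (E := E) {α', ω'} (N + 3)
  obtain ⟨x, hx⟩ := h α' (by simp) g hα'
  obtain ⟨y, hy⟩ := h ω' (by simp) _ hω'
  have : Fact q.Prime := ⟨hqp⟩
  refine ⟨q, by omega, hqp, ?_, x, hx⟩
  simp only [map_add, map_pow, aeval_X, map_one] at hy
  have h3 : (3 : ZMod q) ≠ 0 := by
    intro h3
    have h4 : ((3 : ℕ) : ZMod q) = 0 := by exact_mod_cast h3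
    rw [ZMod.natCast_eq_zero_iff] at h4
    have := Nat.le_of_dvd (by norm_num) h4
    omega
  have hy1 : y ≠ 1 := by
    intro hy1
    rw [hy1] at hy
    apply h3
    rw [← hy]
    norm_num
  have hy3 : y ^ 3 = 1 := by
    have : y ^ 3 - 1 = (y - 1) * (y ^ 2 + y + 1) := by ring
    rw [hy, mul_zero, sub_eq_zero] at this
    exact this
  have hord : orderOf y = 3 := orderOf_eq_prime hy3 hy1
  have hy0 : y ≠ 0 := by
    rintro rfl
    norm_num at hy3
  have h5 := ZMod.orderOf_dvd_card_sub_one hy0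
  rw [hord] at h5
  have := hqp.one_lt
  omega

end UD0
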