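import Pool.Agent.UD0.S8D
import Pool.Agent.UDN.Final
import Pool.Agent.UDV.Divisorial

/-!
# UD0: section 8, number fields and positive characteristic

PROOFS.
* `int_mem` : a set which contains `1` and is closed under subtraction contains all integers (`Int.induction_on`; `0 = 1 - 1`).
* `half_charP` : characteristic `p`, `2 ≠ 0`: `p` is odd and `x = (((p + 1) / 2 : ℤ) : K)` satisfies `2 x = 1` (`(p : K) = 0`).
* `not_dl_charP`, `not_ch0_charP` : `int_mem` and `half_charP` (`2 * x = 1` has the unique solution `x`).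
* `nf_of_alg` : `K = ℚ(s)` with `s` finite (`FGField`: `Subfield.closure s = ⊤`; then `IntermediateField.adjoin ℚ s = ⊤`), all elements of `s` algebraic, so
  `K` is finite dimensional over `ℚ` (`IntermediateField.finiteDimensional_adjoin`; `Alg x ↔ IsAlgebraic ℚ x`, `alg_iff_rat`).
* `not_dl_nf` : `Z` contains all integers (`int_mem`); for `u` in a number field there is a nonzero integer `n` with `n u` integral
  (`exists_integral_multiple`, or `IsAlgebraic`), so `OD (n u)` (`UDN.od_iff`), contradiction.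
* `ch0_nf` : `UDN.od_iff`; integral elements form a subring; `1/2` is not integral (`ℤ` is integrally closed: `IsInteger`, e.g. `UDN`/Mathlib
  `IsIntegrallyClosed.isIntegral_iff`; `2 * x = 1`, `x = (1/2 : ℚ)`).
* `val_nf` : `O ≠ ⊤` as `O` is a discrete valuation ring, not a field (`IsDiscreteValuationRing.not_isField`, transported: `⊤ ≃ K`); `UDN.val_def`.
-/

set_option autoImplicit false

namespace UD0

universe u

variable {K : Type u} [Field K]

theorem int_mem {Z : K → Prop} (h1 : Z 1) (hs : ∀ x y, Z x → Z y → Z (x - y)) (n : ℤ) :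
    Z (n : K) := by
  have h0 : Z 0 := by
    have := hs 1 1 h1 h1
    rwa [sub_self] at this
  have hn : Z (-1) := by
    have := hs 0 1 h0 h1
    rwa [zero_sub] at this
  induction n using Int.induction_on with
  | zero => rw [Int.cast_zero]; exact h0
  | succ i ih =>
    have := hs _ _ ih hn
    have e : ((i : ℤ) : K) - -1 = (((i : ℤ) + 1 : ℤ) : K) := by push_cast; ring
    rwa [e] at this
  | pred i ih =>
    have := hs _ _ ih h1
    have e : ((-(i : ℤ) : ℤ) : K) - 1 = ((-(i : ℤ) - 1 : ℤ) : K) := by push_cast; ring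
    rwa [e] at this

theorem half_charP (p : ℕ) [CharP K p] (hp : p.Prime) (h2 : (2 : K) ≠ 0) :
    ∃ n : ℤ, 2 * (n : K) = 1 := by
  have hp0 : (p : K) = 0 := CharP.cast_eq_zero K p
  rcases hp.eq_two_or_odd' with h | h
  · exfalso
    apply h2
    rw [h] at hp0
    exact_mod_cast hp0
  · obtain ⟨m, hm⟩ := h
    refine ⟨(m : ℤ) + 1, ?_⟩
    have e : ((2 * m + 1 : ℕ) : K) = 0 := by rw [← hm]; exact hp0
    push_cast at e ⊢
    linear_combination e

theorem not_dl_charP {p : ℕ} [CharP K p] (hp : p.Prime) {Z : K → Prop} (h1 : Z 1)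
    (hs : ∀ x y, Z x → Z y → Z (x - y)) : ¬ Dl K Z := by
  rintro ⟨h2, h3, -⟩
  obtain ⟨n, hn⟩ := half_charP (K := K) p hp h2
  exact h3 _ hn (int_mem h1 hs n)

theorem not_ch0_charP {p : ℕ} [CharP K p] (hp : p.Prime) : ¬ Ch0 K := by
  rintro ⟨h2, h1, hs, h3⟩
  obtain ⟨n, hn⟩ := half_charP (K := K) p hp h2
  exact h3 _ hn (int_mem (Z := fun x => UDN.OD x) h1 hs n)

theorem nf_of_alg [CharZero K] (hfg : UDV.FGField K) (h : ∀ x : K, Alg x) : NumberField K := by
  obtain ⟨s, hs⟩ := hfg
  have h1 : IntermediateField.adjoin ℚ (s : Set K) = ⊤ := by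
    rw [eq_top_iff]
    intro x _
    have h2 : Subfield.closure (s : Set K) ≤ (IntermediateField.adjoin ℚ (s : Set K)).toSubfield :=
      Subfield.closure_le.2 (IntermediateField.subset_adjoin ℚ (s : Set K))
    have h3 : x ∈ Subfield.closure (s : Set K) := by
      rw [hs]
      exact Subfield.mem_top x
    exact h2 h3
  have h4 : FiniteDimensional ℚ (IntermediateField.adjoin ℚ (s : Set K)) :=
    IntermediateField.finiteDimensional_adjoin fun x _ => (alg_iff_rat.1 (h x)).isIntegral
  rw [h1] at h4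
  have h5 : FiniteDimensional ℚ K :=
    LinearEquiv.finiteDimensional (IntermediateField.topEquiv (F := ℚ) (E := K)).toLinearEquiv
  exact { to_charZero := inferInstance, to_finiteDimensional := h5 }

theorem not_dl_nf [NumberField K] {Z : K → Prop} (h1 : Z 1)
    (hs : ∀ x y, Z x → Z y → Z (x - y)) : ¬ Dl K Z := by
  rintro ⟨-, -, u, hu⟩
  have h2 : IsAlgebraic ℤ u := by
    rw [IsFractionRing.isAlgebraic_iff ℤ ℚ K]
    exact Algebra.IsAlgebraic.isAlgebraic u
  obtain ⟨n, hn, hi⟩ := h2.exists_integral_multiple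
  refine hu (n : K) (int_mem h1 hs n) (by exact_mod_cast hn) ?_
  rw [UDN.od_iff, ← zsmul_eq_mul]
  exact hi

theorem ch0_nf [NumberField K] : Ch0 K := by
  refine ⟨two_ne_zero, (UDN.od_iff _).2 isIntegral_one, fun x y hx hy => ?_, fun x hx h => ?_⟩
  · rw [UDN.od_iff] at *
    exact hx.sub hy
  · rw [UDN.od_iff] at h
    have e : x = algebraMap ℚ K (1 / 2) := by
      have h2 : (2 : K) ≠ 0 := two_ne_zero
      rw [map_div₀, map_one, map_ofNat]
      field_simp
      linear_combination hx
    rw [e, isIntegral_algebraMap_iff (algebraMap ℚ K).injective,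
      IsIntegrallyClosed.isIntegral_iff] at h
    obtain ⟨y, hy⟩ := h
    have h3 : ((2 * y : ℤ) : ℚ) = ((1 : ℤ) : ℚ) := by
      push_cast
      have h4 : (y : ℚ) = 1 / 2 := by simpa using hy
      rw [h4]
      norm_num
    have h5 : (2 * y : ℤ) = 1 := by exact_mod_cast h3
    omega

theorem val_nf [NumberField K] (O : ValuationSubring K) (hO : UDV.IsDivisorial O) :
    ∃ a : K, ∀ x : K, Ph0 x a ↔ x ∈ O := by
  have hne : O ≠ ⊤ := by
    intro h
    have h1 := hO.dvr
    refine IsDiscreteValuationRing.not_isField O ?_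
    have h2 : ∀ x : K, x ∈ O := fun x => by rw [h]; exact ValuationSubring.mem_top x
    refine ⟨⟨0, 1, zero_ne_one⟩, mul_comm, fun {a} ha => ?_⟩
    refine ⟨⟨(a : K)⁻¹, h2 _⟩, ?_⟩
    apply Subtype.ext
    exact mul_inv_cancel₀ (fun h => ha (Subtype.ext h))
  obtain ⟨a, ha⟩ := UDN.val_def O hne
  exact ⟨a, fun x => (ha x).symm⟩

end UD0
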