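import Mathlib

/-!
# UD0: anisotropic diagonal forms over Laurent series

PROOF of `form_order`.  Let `a : Fin n → F` define an anisotropic form `∑ a_i x_i ^ 2` over `F`, and let
`z = ∑ C (a_i) * y_i ^ 2 ≠ 0` over `LaurentSeries F`.  Some `y_i` is not zero; let `m` be the minimum of the orders of the
nonzero `y_i`.  The coefficient of `z` in degree `2 m` is `∑ a_i (y_i.coeff m) ^ 2` (`HahnSeries.coeff_mul_order_add_order`, or write
`y_i = single m 1 * u_i` with power series `u_i`), the value of the form at the vector `(y_i.coeff m) ≠ 0`, so it is not zero; the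
lower coefficients vanish.  So `z.order = 2 m`.
PROOF of `form_zero` : the same computation shows that `z ≠ 0` if some `y_i ≠ 0`.
-/

set_option autoImplicit false

namespace UD0

variable {F : Type*} [Field F]

private theorem sq_coeff42 (u : LaurentSeries F) (m : ℤ) (h : u = 0 ∨ m ≤ u.order) :
    (u ^ 2).coeff (2 * m) = u.coeff m ^ 2 ∧ ∀ k < 2 * m, (u ^ 2).coeff k = 0 := by
  by_cases hu : u = 0
  · subst hu
    simp
  · have h1 : m ≤ u.order := h.resolve_left hu
    have h2 : (u * u).order = u.order + u.order := HahnSeries.order_mul hu hu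
    refine ⟨?_, fun k hk => ?_⟩
    · rw [sq, sq]
      rcases h1.eq_or_lt with h3 | h3
      · have h4 := HahnSeries.coeff_mul_order_add_order u u
        have h5 : 2 * m = u.order + u.order := by omega
        rw [h5, h4, h3, HahnSeries.leadingCoeff_eq]
      · rw [HahnSeries.coeff_eq_zero_of_lt_order (by omega : 2 * m < (u * u).order),
          HahnSeries.coeff_eq_zero_of_lt_order h3, mul_zero]
    · rw [sq]
      exact HahnSeries.coeff_eq_zero_of_lt_order (by omega)

private theorem sum_coeff42 {n : ℕ} (a : Fin n → F) (y : Fin n → LaurentSeries F) (k : ℤ) :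
    (∑ i, HahnSeries.C (a i) * y i ^ 2 : LaurentSeries F).coeff k =
      ∑ i, a i * (y i ^ 2).coeff k := by
  rw [HahnSeries.coeff_sum]
  refine Finset.sum_congr rfl (fun i _ => ?_)
  rw [HahnSeries.C_mul_eq_smul, HahnSeries.coeff_smul, smul_eq_mul]

private theorem core42 {n : ℕ} (a : Fin n → F)
    (ha : ∀ x : Fin n → F, ∑ i, a i * x i ^ 2 = 0 → ∀ i, x i = 0)
    (y : Fin n → LaurentSeries F) (hy : ∃ i, y i ≠ 0) :
    ∃ m : ℤ, (∀ i, y i = 0 ∨ m ≤ (y i).order) ∧
      (∑ i, HahnSeries.C (a i) * y i ^ 2 : LaurentSeries F).coeff (2 * m) ≠ 0 ∧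
      ∀ k < 2 * m, (∑ i, HahnSeries.C (a i) * y i ^ 2 : LaurentSeries F).coeff k = 0 := by
  classical
  obtain ⟨i0, hi0⟩ := hy
  obtain ⟨j, hj, hmin⟩ := Finset.exists_min_image (Finset.univ.filter (fun i => y i ≠ 0))
    (fun i => (y i).order) ⟨i0, Finset.mem_filter.mpr ⟨Finset.mem_univ _, hi0⟩⟩
  have hj0 : y j ≠ 0 := (Finset.mem_filter.mp hj).2
  have h1 : ∀ i, y i = 0 ∨ (y j).order ≤ (y i).order := by
    intro i
    by_cases h : y i = 0
    · exact Or.inl h
    · exact Or.inr (hmin i (Finset.mem_filter.mpr ⟨Finset.mem_univ _, h⟩))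
  refine ⟨(y j).order, h1, ?_, ?_⟩
  · intro h2
    rw [sum_coeff42] at h2
    have h3 : ∑ i, a i * ((y i).coeff (y j).order) ^ 2 = 0 := by
      rw [← h2]
      refine Finset.sum_congr rfl (fun i _ => ?_)
      rw [(sq_coeff42 (y i) _ (h1 i)).1]
    exact hj0 (HahnSeries.coeff_order_eq_zero.mp (ha _ h3 j))
  · intro k hk
    rw [sum_coeff42]
    refine Finset.sum_eq_zero (fun i _ => ?_)
    rw [(sq_coeff42 (y i) _ (h1 i)).2 k hk, mul_zero]

theorem form_order {n : ℕ} (a : Fin n → F)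
    (ha : ∀ x : Fin n → F, ∑ i, a i * x i ^ 2 = 0 → ∀ i, x i = 0)
    (y : Fin n → LaurentSeries F) (hz : ∑ i, HahnSeries.C (a i) * y i ^ 2 ≠ 0) :
    ∃ m : ℤ, (∑ i, HahnSeries.C (a i) * y i ^ 2 : LaurentSeries F).order = 2 * m ∧
      ∀ i, y i = 0 ∨ m ≤ (y i).order := by
  have hy : ∃ i, y i ≠ 0 := by
    by_contra h
    push Not at h
    refine hz (Finset.sum_eq_zero (fun i _ => ?_))
    rw [h i]
    simp
  obtain ⟨m, h1, h2, h3⟩ := core42 a ha y hy
  refine ⟨m, le_antisymm (HahnSeries.order_le_of_coeff_ne_zero h2) ?_, h1⟩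
  by_contra h4
  push Not at h4
  exact hz (HahnSeries.coeff_order_eq_zero.mp (h3 _ h4))

theorem form_zero {n : ℕ} (a : Fin n → F)
    (ha : ∀ x : Fin n → F, ∑ i, a i * x i ^ 2 = 0 → ∀ i, x i = 0)
    (y : Fin n → LaurentSeries F) (hz : ∑ i, HahnSeries.C (a i) * y i ^ 2 = 0) (i : Fin n) :
    y i = 0 := by
  by_contra h
  obtain ⟨m, -, h2, -⟩ := core42 a ha y ⟨i, h⟩
  rw [hz] at h2
  exact h2 rfl

end UD0
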