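import Pool.Agent.UD0.SetD
import Pool.Agent.UD0.ParF
import Pool.Agent.UD0.AniQ

/-!
# UD0: parity of orders in `ℚ_l((t))`

`e : K →+* LaurentSeries ℚ_[l]` any ring homomorphism of a field `K` of characteristic zero.  `e` maps
integers to integers: `e (n : K) = (n : LaurentSeries) = HahnSeries.C (n : ℚ_[l])` (`map_intCast`).
PROOFS.
* `nn_even` : `x = a ^ 2 - ν b ^ 2`; `e x = C 1 * (e a) ^ 2 + C (- lst l) * (e b) ^ 2 ≠ 0`, an anisotropic diagonal form over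
  `ℚ_l` (`ani_two`) with coefficients `![1, - lst l]`: `form_order` gives `(e x).order = 2 m`.
* `nq_even` : the same with `![1, - n, - l, n l]` and `ani_four`.
* `nq_one` : if `a ^ 2 - n b ^ 2 - l c ^ 2 + n l d ^ 2 = 1` then by `form_order` `0 = (1).order = 2 m`, so `m = 0` and `e a = 0` or
  `0 ≤ (e a).order`; with `order 0 = 0` in all cases `0 ≤ (e a).order`.
* `od_order` : apply `UDN.OD x` with `a = n`, `b = l` (`n` is a sum of four squares of integers, `n ≠ 0` as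
  `jacobiSym 0 l = 0 ≠ -1`, `l ≠ 0` in `K`): `x = s + r` with `s = 2 x₁`, `r = 2 x₂`, and `0 ≤ (e x_i).order` by `nq_one`; the order of a sum
  is at least the minimum (for `e x = 0` the order is `0`); in terms of coefficients: all coefficients of `e x` in negative degrees
  vanish.
-/

set_option autoImplicit false

namespace UD0

universe u

variable {K : Type u} [Field K] [CharZero K] {l : ℕ} [Fact l.Prime]

private theorem pe_int (e : K →+* LaurentSeries ℚ_[l]) (n : ℤ) :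
    e (n : K) = HahnSeries.C (n : ℚ_[l]) := by
  rw [map_intCast, map_intCast]

private theorem pe_nat (e : K →+* LaurentSeries ℚ_[l]) (n : ℕ) :
    e (n : K) = HahnSeries.C (n : ℚ_[l]) := by
  rw [map_natCast, map_natCast]

theorem nn_even (e : K →+* LaurentSeries ℚ_[l]) {x : K} (hx : x ≠ 0)
    (h : NN ((lst l : ℤ) : K) x) : Even (e x).order := by
  obtain ⟨a, b, rfl⟩ := h
  have h0 : e (a ^ 2 - ((lst l : ℤ) : K) * b ^ 2) ≠ 0 := (map_ne_zero e).2 hx
  have h1 : e (a ^ 2 - ((lst l : ℤ) : K) * b ^ 2) =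
      ∑ i, HahnSeries.C ((![1, -((lst l : ℤ) : ℚ_[l])] : Fin 2 → ℚ_[l]) i) *
        (![e a, e b] : Fin 2 → LaurentSeries ℚ_[l]) i ^ 2 := by
    rw [Fin.sum_univ_two]
    simp only [Matrix.cons_val_zero, Matrix.cons_val_one, map_one, one_mul, map_neg]
    rw [map_sub, map_mul, map_pow, map_pow, pe_int]
    ring
  rw [h1] at h0 ⊢
  obtain ⟨m, hm, -⟩ := form_order _ (by
    intro x hx i
    rw [Fin.sum_univ_two] at hx
    simp only [Matrix.cons_val_zero, Matrix.cons_val_one, one_mul] at hx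
    obtain ⟨h2, h3⟩ := ani_two l (x 0) (x 1) (by linear_combination hx)
    fin_cases i
    · exact h2
    · exact h3) _ h0
  rw [hm]
  exact even_two_mul m

private theorem pe_four (e : K →+* LaurentSeries ℚ_[l]) (n : ℤ) (a b c d : K) :
    e (a ^ 2 - (n : K) * b ^ 2 - (l : K) * c ^ 2 + (n : K) * (l : K) * d ^ 2) =
      ∑ i, HahnSeries.C ((![1, -(n : ℚ_[l]), -(l : ℚ_[l]), (n : ℚ_[l]) * (l : ℚ_[l])] :
        Fin 4 → ℚ_[l]) i) * (![e a, e b, e c, e d] : Fin 4 → LaurentSeries ℚ_[l]) i ^ 2 := by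
  rw [Fin.sum_univ_four]
  simp only [Matrix.cons_val_zero, Matrix.cons_val_one, Matrix.cons_val, map_one, one_mul,
    map_neg, map_mul]
  rw [map_add, map_sub, map_sub, map_mul, map_mul, map_mul, map_mul, map_pow, map_pow, map_pow,
    map_pow, pe_int, pe_nat]
  ring

private theorem pe_ani (h2 : l ≠ 2) {n : ℤ} (hn : jacobiSym n l = -1) (x : Fin 4 → ℚ_[l])
    (hx : ∑ i, (![1, -(n : ℚ_[l]), -(l : ℚ_[l]), (n : ℚ_[l]) * (l : ℚ_[l])] :
        Fin 4 → ℚ_[l]) i * x i ^ 2 = 0) (i : Fin 4) : x i = 0 := by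
  rw [Fin.sum_univ_four] at hx
  simp only [Matrix.cons_val_zero, Matrix.cons_val_one, Matrix.cons_val, one_mul] at hx
  obtain ⟨h3, h4, h5, h6⟩ := ani_four l h2 hn (x 0) (x 1) (x 2) (x 3) (by linear_combination hx)
  fin_cases i
  · exact h3
  · exact h4
  · exact h5
  · exact h6

theorem nq_even (h2 : l ≠ 2) {n : ℤ} (hn : jacobiSym n l = -1) (e : K →+* LaurentSeries ℚ_[l])
    {x : K} (hx : x ≠ 0) (h : NQ (n : K) (l : K) x) : Even (e x).order := by
  obtain ⟨a, b, c, d, rfl⟩ := h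
  have h0 := (map_ne_zero e).2 hx
  rw [pe_four] at h0 ⊢
  obtain ⟨m, hm, -⟩ := form_order _ (pe_ani h2 hn) _ h0
  rw [hm]
  exact even_two_mul m

theorem nq_one (h2 : l ≠ 2) {n : ℤ} (hn : jacobiSym n l = -1) (e : K →+* LaurentSeries ℚ_[l])
    {a b c d : K} (h : a ^ 2 - (n : K) * b ^ 2 - (l : K) * c ^ 2 + (n : K) * (l : K) * d ^ 2 = 1) :
    0 ≤ (e a).order := by
  have h1 := congrArg e h
  rw [pe_four, map_one] at h1
  obtain ⟨m, hm, hy⟩ := form_order _ (pe_ani h2 hn) _ (by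
    rw [h1]
    exact one_ne_zero)
  rw [h1, HahnSeries.order_one] at hm
  have hm0 : m = 0 := by omega
  have h3 := hy 0
  simp only [Matrix.cons_val_zero] at h3
  rcases h3 with h3 | h3
  · rw [h3, HahnSeries.order_zero]
  · rw [hm0] at h3
    exact h3

theorem od_order (h2 : l ≠ 2) {n : ℤ} (hn : jacobiSym n l = -1)
    (hn4 : ∃ c₁ c₂ c₃ c₄ : ℤ, n = c₁ ^ 2 + c₂ ^ 2 + c₃ ^ 2 + c₄ ^ 2)
    (e : K →+* LaurentSeries ℚ_[l]) {x : K}
    (h : ∀ a b c₁ c₂ c₃ c₄ : K, a = c₁ ^ 2 + c₂ ^ 2 + c₃ ^ 2 + c₄ ^ 2 → a ≠ 0 → b ≠ 0 →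
      ∃ s r : K, (∃ x y z u : K, s = 2 * x ∧ x ^ 2 - a * y ^ 2 - b * z ^ 2 + a * b * u ^ 2 = 1) ∧
        (∃ x y z u : K, r = 2 * x ∧ x ^ 2 - a * y ^ 2 - b * z ^ 2 + a * b * u ^ 2 = 1) ∧
        x = s + r) : 0 ≤ (e x).order := by
  obtain ⟨c₁, c₂, c₃, c₄, hc⟩ := hn4
  have hn0 : n ≠ 0 := by
    rintro h0
    rw [h0, jacobiSym.zero_left (Fact.out : l.Prime).one_lt] at hn
    exact absurd hn (by norm_num)
  have hl0 : (l : K) ≠ 0 := by exact_mod_cast (Fact.out : l.Prime).ne_zero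
  obtain ⟨s, r, ⟨x₁, y₁, z₁, u₁, rfl, h3⟩, ⟨x₂, y₂, z₂, u₂, rfl, h4⟩, h5⟩ :=
    h (n : K) (l : K) (c₁ : K) (c₂ : K) (c₃ : K) (c₄ : K) (by rw [hc]; push_cast; rfl)
      (by exact_mod_cast hn0) hl0
  have h6 := nq_one h2 hn e h3
  have h7 := nq_one h2 hn e h4
  by_cases hx : e x = 0
  · rw [hx, HahnSeries.order_zero]
  by_contra hneg
  push Not at hneg
  have h8 : (e x).coeff (e x).order ≠ 0 := HahnSeries.coeff_order_eq_zero.not.2 hx
  apply h8
  have h9 : e x = (e x₁ + e x₁) + (e x₂ + e x₂) := by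
    rw [h5, map_add, map_mul, map_mul, map_ofNat]
    ring
  have h10 : ∀ k : ℤ, (e x).coeff k = ((e x₁).coeff k + (e x₁).coeff k) +
      ((e x₂).coeff k + (e x₂).coeff k) := by
    intro k
    conv_lhs => rw [h9]
    simp only [HahnSeries.coeff_add]
  rw [h10, HahnSeries.coeff_eq_zero_of_lt_order (lt_of_lt_of_le hneg h6),
    HahnSeries.coeff_eq_zero_of_lt_order (lt_of_lt_of_le hneg h7)]
  simp

end UD0
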