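import Pool.Agent.UD0.S8D
import Pool.Agent.UD0.ParE

/-!
# UD0: section 8, characteristic zero with a transcendental element

PROOF.  `2 ≠ 0`, and `1/2` is not an integer (`2 * x = 1`, `x = n` gives `2 n = 1` in `ℤ` by `Int.cast_injective`).  Let `u₀` be transcendental
(`¬ Alg u₀`), `δ` from `S.mov₁ u₀`, `r` a rational number with `‖(r : ℚ_[S.l]) - S.e₀ u₀‖ < δ` (rationals are dense in `ℚ_l`: `Padic.denseRange_ratCast`/
`padicNormE`), `e` the embedding with `e u₀ = C r + X`.  Put `u = (u₀ - r)⁻¹` (`u₀ ≠ r`, as `r` is algebraic).  For an integer `n ≠ 0`: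
`e (n u) = C n * X⁻¹` (`e r = C (e₀ r) = C r`), of order `-1`.  If `OD (n u)` then `0 ≤ (e (n u)).order` (`od_order`, unfold `UDN.OD`, `UDN.SQ`; `S.hn`, `S.hn4`,
`S.l ≠ 2`): contradiction.
-/

set_option autoImplicit false

namespace UD0

universe u

variable {K : Type u} [Field K] [CharZero K]

theorem dl_of_setup (S : Setup K) {Z : K → Prop} (hZ : ∀ x, Z x ↔ ∃ n : ℤ, x = n) {u₀ : K}
    (hu : ¬ Alg u₀) : Dl K Z := by
  refine ⟨two_ne_zero, ?_, ?_⟩
  · intro x hx hz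
    obtain ⟨n, rfl⟩ := (hZ x).1 hz
    have h1 : 2 * n = 1 := by exact_mod_cast hx
    omega
  · obtain ⟨δ, hδ, hmov⟩ := S.mov₁ u₀ hu
    obtain ⟨r, hr⟩ : ∃ r : ℚ, ‖(r : ℚ_[S.l]) - S.e₀ u₀‖ < δ := by
      obtain ⟨r, hr⟩ := Padic.rat_dense S.l (S.e₀ u₀) hδ
      exact ⟨r, by rw [norm_sub_rev]; exact hr⟩
    obtain ⟨e, he, heu⟩ := hmov _ hr
    have hne : u₀ - (r : K) ≠ 0 := by
      intro h1
      exact hu (by rw [sub_eq_zero.mp h1]; exact alg_rat r)
    refine ⟨(u₀ - (r : K))⁻¹, fun x hx hx0 hOD => ?_⟩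
    obtain ⟨m, rfl⟩ := (hZ x).1 hx
    have hl2 : S.l ≠ 2 := by have := S.l3; omega
    have h0 : 0 ≤ (e ((m : K) * (u₀ - (r : K))⁻¹)).order := od_order hl2 S.hn S.hn4 e hOD
    have her : e (r : K) = HahnSeries.C (r : ℚ_[S.l]) := by
      rw [he _ (alg_rat r), map_ratCast]
    have h1 : e (u₀ - (r : K)) = HahnSeries.single 1 1 := by
      rw [map_sub, heu, her, add_sub_cancel_left]
    have h1o : (e (u₀ - (r : K))).order = 1 := by
      rw [h1]; exact HahnSeries.order_single one_ne_zero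
    have h1n : e (u₀ - (r : K)) ≠ 0 := (map_ne_zero e).mpr hne
    have h2 : (e (u₀ - (r : K))).order + (e (u₀ - (r : K)))⁻¹.order = 0 := by
      rw [← HahnSeries.order_mul h1n (inv_ne_zero h1n), mul_inv_cancel₀ h1n, HahnSeries.order_one]
    have hm : e (m : K) = HahnSeries.C (m : ℚ_[S.l]) := by
      rw [map_intCast, map_intCast]
    have hmn : e (m : K) ≠ 0 := (map_ne_zero e).mpr hx0
    have hmo : (e (m : K)).order = 0 := by rw [hm, HahnSeries.order_C]
    rw [map_mul, map_inv₀, HahnSeries.order_mul hmn (inv_ne_zero h1n), hmo, zero_add] at h0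
    rw [h1o] at h2
    linarith

end UD0
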