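import Pool.Agent.UD0.AlgF
import Pool.Agent.UD0.Gauss

/-!
# UD0: the predicates of section 3 and the set-up

All predicates are first order expressions over an arbitrary field `K` with parameters
`lam n l : K`.  `Setup K` collects everything about a finitely generated field `K` of
characteristic zero, not algebraic over `ℚ`, which is used in section 3.
-/

set_option autoImplicit false

open Polynomial

namespace UD0

universe u

section defs

variable {K : Type u} [Field K]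

/-- `t = x / y` for a point of `lam y ^ 2 = x ^ 3 + 1` -/
def TX (lam t : K) : Prop := ∃ x y : K, y ≠ 0 ∧ lam * y ^ 2 = x ^ 3 + 1 ∧ t * y = x

/-- quotients of two such values -/
def XX (lam c : K) : Prop := ∃ t₁ t₂ : K, TX lam t₁ ∧ TX lam t₂ ∧ t₂ ≠ 0 ∧ c * t₂ = t₁

/-- values of the norm form of the quaternion algebra `(n, l)` -/
def NQ (n l x : K) : Prop := ∃ a b c d : K, x = a ^ 2 - n * b ^ 2 - l * c ^ 2 + n * l * d ^ 2

/-- the field of constants -/
def CC (lam n l b : K) : Prop := ∀ c : K, XX lam c → c ≠ b → NQ n l (b - c)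

/-- traces of quaternions of norm one, with coordinates satisfying `C` -/
def SQr (C : K → Prop) (a b t : K) : Prop :=
  ∃ x y z u : K, C x ∧ C y ∧ C z ∧ C u ∧ t = 2 * x ∧
    x ^ 2 - a * y ^ 2 - b * z ^ 2 + a * b * u ^ 2 = 1

/-- the formula of `UDN.OD` relativized to `C` -/
def ODr (C : K → Prop) (x : K) : Prop :=
  C x ∧ ∀ a b c₁ c₂ c₃ c₄ : K, C b → C c₁ → C c₂ → C c₃ → C c₄ →
    a = c₁ ^ 2 + c₂ ^ 2 + c₃ ^ 2 + c₄ ^ 2 → a ≠ 0 → b ≠ 0 →
    ∃ s r : K, SQr C a b s ∧ SQr C a b r ∧ x = s + r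

/-- the integral constants -/
def OI (lam n l x : K) : Prop := ODr (CC lam n l) x

end defs

/-- Everything used in section 3 about a finitely generated field `K` of characteristic zero
which is not algebraic over `ℚ`. -/
structure Setup (K : Type u) [Field K] [CharZero K] where
  l : ℕ
  [hl : Fact l.Prime]
  l3 : 3 < l
  /-- the embedding into `ℚ_l` -/
  e₀ : K →+* ℚ_[l]
  a : ℕ
  ha : ¬ l ∣ a
  /-- Theorem C -/
  cst : ∀ x y : K, y ≠ 0 → ((a ^ 3 + l ^ 6 : ℕ) : K) * y ^ 2 = x ^ 3 + 1 → Alg x ∧ Alg y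
  n : ℤ
  hn : jacobiSym n l = -1
  hn4 : ∃ c₁ c₂ c₃ c₄ : ℤ, n = c₁ ^ 2 + c₂ ^ 2 + c₃ ^ 2 + c₄ ^ 2
  /-- Lemma E for one element -/
  mov₁ : ∀ u : K, ¬ Alg u → ∃ δ : ℝ, 0 < δ ∧ ∀ c : ℚ_[l], ‖c - e₀ u‖ < δ →
    ∃ e : K →+* LaurentSeries ℚ_[l], (∀ x, Alg x → e x = HahnSeries.C (e₀ x)) ∧
      e u = HahnSeries.C c + HahnSeries.single 1 1
  /-- the field of constants is a number field -/
  nf : NumberField (kk K)
attribute [instance] Setup.hl

namespace Setup

variable {K : Type u} [Field K] [CharZero K] (S : Setup K)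

/-- the parameters in `K` -/
def lamK : K := ((S.a ^ 3 + S.l ^ 6 : ℕ) : K)
def nK : K := (S.n : K)
def lK : K := (S.l : K)

end Setup

end UD0
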