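import Pool.Agent.UD0.Calc
import Pool.Agent.UD0.SetD

/-!
# UD0: first order definability of the predicates of section 3
-/

set_option autoImplicit false

open Polynomial UDV

namespace UD0

universe u

variable {f₁ f₂ f₃ f₄ f₅ : ∀ (K : Type u) [Field K], (ℕ → K) → K}

theorem ua_TX0 : UA.{u} (fun K _ v => TX (v 0) (v 1)) := by
  refine UA.congr (R := fun K _ v => ∃ x y : K, ¬ y = 0 ∧ v 0 * (y * y) = x * (x * x) + 1 ∧
    v 1 * y = x) (fun K _ v => ?_) (UA.ex 2 <| UA.ex 3 <| (UA.eq (TT.var 3) TT.zero).not.and <|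
    (UA.eq ((TT.var 0).mul ((TT.var 3).mul (TT.var 3)))
      (((TT.var 2).mul ((TT.var 2).mul (TT.var 2))).add TT.one)).and <|
    UA.eq ((TT.var 1).mul (TT.var 3)) (TT.var 2))
  unfold TX
  refine exists_congr fun x => exists_congr fun y => and_congr Iff.rfl (and_congr ?_ Iff.rfl)
  rw [pow_two, pow_succ, pow_two, mul_assoc x x x]

theorem ua_TX (h₁ : TT f₁) (h₂ : TT f₂) : UA (fun K _ v => TX (f₁ K v) (f₂ K v)) :=
  UA.subst (σ := sg [f₁, f₂] f₁) (sg_TT h₁ (by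
    simp only [List.mem_cons, List.not_mem_nil, or_false, forall_eq_or_imp, forall_eq]
    exact ⟨h₁, h₂⟩)) ua_TX0

theorem ua_XX0 : UA.{u} (fun K _ v => XX (v 0) (v 1)) :=
  UA.congr (fun _ _ _ => Iff.rfl) <| UA.ex 2 <| UA.ex 3 <| (ua_TX (TT.var 0) (TT.var 2)).and <|
    (ua_TX (TT.var 0) (TT.var 3)).and <| (UA.eq (TT.var 3) TT.zero).not.and <|
    UA.eq ((TT.var 1).mul (TT.var 3)) (TT.var 2)

theorem ua_XX (h₁ : TT f₁) (h₂ : TT f₂) : UA (fun K _ v => XX (f₁ K v) (f₂ K v)) :=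
  UA.subst (σ := sg [f₁, f₂] f₁) (sg_TT h₁ (by
    simp only [List.mem_cons, List.not_mem_nil, or_false, forall_eq_or_imp, forall_eq]
    exact ⟨h₁, h₂⟩)) ua_XX0

theorem ua_NQ0 : UA.{u} (fun K _ v => NQ (v 0) (v 1) (v 2)) := by
  refine UA.congr (R := fun K _ v => ∃ a b c d : K, v 2 =
    a * a - v 0 * (b * b) - v 1 * (c * c) + v 0 * v 1 * (d * d)) (fun K _ v => ?_)
    (UA.ex 3 <| UA.ex 4 <| UA.ex 5 <| UA.ex 6 <| UA.eq (TT.var 2)
      (((((TT.var 3).mul (TT.var 3)).sub ((TT.var 0).mul ((TT.var 4).mul (TT.var 4)))).sub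
        ((TT.var 1).mul ((TT.var 5).mul (TT.var 5)))).add
        (((TT.var 0).mul (TT.var 1)).mul ((TT.var 6).mul (TT.var 6)))))
  unfold NQ
  refine exists_congr fun a => exists_congr fun b => exists_congr fun c => exists_congr fun d => ?_
  rw [pow_two, pow_two, pow_two, pow_two]

theorem ua_NQ (h₁ : TT f₁) (h₂ : TT f₂) (h₃ : TT f₃) :
    UA (fun K _ v => NQ (f₁ K v) (f₂ K v) (f₃ K v)) :=
  UA.subst (σ := sg [f₁, f₂, f₃] f₁) (sg_TT h₁ (by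
    simp only [List.mem_cons, List.not_mem_nil, or_false, forall_eq_or_imp, forall_eq]
    exact ⟨h₁, h₂, h₃⟩)) ua_NQ0

theorem ua_CC0 : UA.{u} (fun K _ v => CC (v 0) (v 1) (v 2) (v 3)) :=
  UA.congr (fun _ _ _ => Iff.rfl) <| UA.all 4 <| (ua_XX (TT.var 0) (TT.var 4)).imp <|
    (UA.eq (TT.var 4) (TT.var 3)).not.imp <|
    ua_NQ (TT.var 1) (TT.var 2) ((TT.var 3).sub (TT.var 4))

theorem ua_CC (h₁ : TT f₁) (h₂ : TT f₂) (h₃ : TT f₃) (h₄ : TT f₄) :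
    UA (fun K _ v => CC (f₁ K v) (f₂ K v) (f₃ K v) (f₄ K v)) :=
  UA.subst (σ := sg [f₁, f₂, f₃, f₄] f₁) (sg_TT h₁ (by
    simp only [List.mem_cons, List.not_mem_nil, or_false, forall_eq_or_imp, forall_eq]
    exact ⟨h₁, h₂, h₃, h₄⟩)) ua_CC0

/-- `SQr` relative to `CC`, parameters `0, 1, 2`; `a = v 3`, `b = v 4`, `t = v 5` -/
theorem ua_SQr0 : UA.{u} (fun K _ v => SQr (CC (v 0) (v 1) (v 2)) (v 3) (v 4) (v 5)) := by
  refine UA.congr (R := fun K _ v => ∃ x y z w : K, CC (v 0) (v 1) (v 2) x ∧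
    CC (v 0) (v 1) (v 2) y ∧ CC (v 0) (v 1) (v 2) z ∧ CC (v 0) (v 1) (v 2) w ∧
    v 5 = (1 + 1) * x ∧ x * x - v 3 * (y * y) - v 4 * (z * z) + v 3 * v 4 * (w * w) = 1)
    (fun K _ v => ?_)
    (UA.ex 6 <| UA.ex 7 <| UA.ex 8 <| UA.ex 9 <|
      (ua_CC (TT.var 0) (TT.var 1) (TT.var 2) (TT.var 6)).and <|
      (ua_CC (TT.var 0) (TT.var 1) (TT.var 2) (TT.var 7)).and <|
      (ua_CC (TT.var 0) (TT.var 1) (TT.var 2) (TT.var 8)).and <|
      (ua_CC (TT.var 0) (TT.var 1) (TT.var 2) (TT.var 9)).and <|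
      (UA.eq (TT.var 5) ((TT.one.add TT.one).mul (TT.var 6))).and <|
      UA.eq (((((TT.var 6).mul (TT.var 6)).sub ((TT.var 3).mul ((TT.var 7).mul (TT.var 7)))).sub
        ((TT.var 4).mul ((TT.var 8).mul (TT.var 8)))).add
        (((TT.var 3).mul (TT.var 4)).mul ((TT.var 9).mul (TT.var 9)))) TT.one)
  unfold SQr
  refine exists_congr fun x => exists_congr fun y => exists_congr fun z => exists_congr fun w =>
    and_congr Iff.rfl (and_congr Iff.rfl (and_congr Iff.rfl (and_congr Iff.rfl (and_congr ?_ ?_))))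
  · rw [one_add_one_eq_two]
  · rw [pow_two, pow_two, pow_two, pow_two]

theorem ua_SQr (h₁ : TT f₁) (h₂ : TT f₂) (h₃ : TT f₃) :
    UA (fun K _ v => SQr (CC (v 0) (v 1) (v 2)) (f₁ K v) (f₂ K v) (f₃ K v)) :=
  UA.subst (σ := sg [fun _ _ v => v 0, fun _ _ v => v 1, fun _ _ v => v 2, f₁, f₂, f₃] f₁)
    (sg_TT h₁ (by
    simp only [List.mem_cons, List.not_mem_nil, or_false, forall_eq_or_imp, forall_eq]
    exact ⟨TT.var 0, TT.var 1, TT.var 2, h₁, h₂, h₃⟩)) ua_SQr0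

theorem ua_OI0 : UA.{u} (fun K _ v => OI (v 0) (v 1) (v 2) (v 3)) := by
  refine UA.congr (R := fun K _ v => CC (v 0) (v 1) (v 2) (v 3) ∧ ∀ a b c₁ c₂ c₃ c₄ : K,
    CC (v 0) (v 1) (v 2) b → CC (v 0) (v 1) (v 2) c₁ → CC (v 0) (v 1) (v 2) c₂ →
    CC (v 0) (v 1) (v 2) c₃ → CC (v 0) (v 1) (v 2) c₄ →
    a = c₁ * c₁ + c₂ * c₂ + c₃ * c₃ + c₄ * c₄ → ¬ a = 0 → ¬ b = 0 →
    ∃ s r : K, SQr (CC (v 0) (v 1) (v 2)) a b s ∧ SQr (CC (v 0) (v 1) (v 2)) a b r ∧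
      v 3 = s + r) (fun K _ v => ?_)
    ((ua_CC (TT.var 0) (TT.var 1) (TT.var 2) (TT.var 3)).and <|
      UA.all 4 <| UA.all 5 <| UA.all 6 <| UA.all 7 <| UA.all 8 <| UA.all 9 <|
      (ua_CC (TT.var 0) (TT.var 1) (TT.var 2) (TT.var 5)).imp <|
      (ua_CC (TT.var 0) (TT.var 1) (TT.var 2) (TT.var 6)).imp <|
      (ua_CC (TT.var 0) (TT.var 1) (TT.var 2) (TT.var 7)).imp <|
      (ua_CC (TT.var 0) (TT.var 1) (TT.var 2) (TT.var 8)).imp <|
      (ua_CC (TT.var 0) (TT.var 1) (TT.var 2) (TT.var 9)).imp <|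
      (UA.eq (TT.var 4) (((((TT.var 6).mul (TT.var 6)).add ((TT.var 7).mul (TT.var 7))).add
        ((TT.var 8).mul (TT.var 8))).add ((TT.var 9).mul (TT.var 9)))).imp <|
      (UA.eq (TT.var 4) TT.zero).not.imp <| (UA.eq (TT.var 5) TT.zero).not.imp <|
      UA.ex 10 <| UA.ex 11 <| (ua_SQr (TT.var 4) (TT.var 5) (TT.var 10)).and <|
      (ua_SQr (TT.var 4) (TT.var 5) (TT.var 11)).and <|
      UA.eq (TT.var 3) ((TT.var 10).add (TT.var 11)))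
  unfold OI ODr
  refine and_congr Iff.rfl (forall_congr' fun a => forall_congr' fun b => forall_congr' fun c₁ =>
    forall_congr' fun c₂ => forall_congr' fun c₃ => forall_congr' fun c₄ => ?_)
  rw [pow_two, pow_two, pow_two, pow_two]

theorem ua_OI (h₁ : TT f₁) (h₂ : TT f₂) (h₃ : TT f₃) (h₄ : TT f₄) :
    UA (fun K _ v => OI (f₁ K v) (f₂ K v) (f₃ K v) (f₄ K v)) :=
  UA.subst (σ := sg [f₁, f₂, f₃, f₄] f₁) (sg_TT h₁ (by
    simp only [List.mem_cons, List.not_mem_nil, or_false, forall_eq_or_imp, forall_eq]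
    exact ⟨h₁, h₂, h₃, h₄⟩)) ua_OI0

end UD0
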