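import Pool.Agent.UD0.S8D
import Pool.Agent.UD0.SetU

/-!
# UD0: definability of the relations of section 8

PROOFS: technique of `Pool/Agent/UD0/CodDef.lean` and `Pool/Agent/UDV/DefC.lean`: `UA.congr (fun _ _ _ => Iff.rfl) <| ...` with `UA.ex`, `UA.all`,
`UA.and`, `UA.or`, `UA.imp`, `UA.not`, `UA.eq`, fresh variables, then `UA.subst` with `sg [...]` for terms.  `2` is the term `1 + 1` (`TT.one.add TT.one`,
`one_add_one_eq_two`).  `ua_phi` : relabel a formula in two variables (`Fin 2 → ℕ`, `i ↦ i`): `Formula.relabel`, `Formula.realize_relabel`.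
-/

set_option autoImplicit false

open FirstOrder Polynomial UDV

namespace UD0

universe u

section

variable {f₁ f₂ f₃ f₄ f₅ f₆ : ∀ (K : Type u) [Field K], (ℕ → K) → K}

private theorem tt_two : TT.{u} (fun _ _ _ => 2) := by
  obtain ⟨t, ht⟩ := TT.one.{u}.add TT.one
  exact ⟨t, fun K _ v => (ht K v).trans one_add_one_eq_two⟩

private theorem ua_SQ0 : UA.{u} (fun _ _ v => UDN.SQ (v 0) (v 1) (v 2)) :=
  UA.congr (fun _ _ _ => Iff.rfl) <| UA.ex 3 <| UA.ex 4 <| UA.ex 5 <| UA.ex 6 <|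
    (UA.eq (TT.var 2) (tt_two.mul (TT.var 3))).and <|
    UA.eq (((((TT.var 3).pow 2).sub ((TT.var 0).mul ((TT.var 4).pow 2))).sub
      ((TT.var 1).mul ((TT.var 5).pow 2))).add
        (((TT.var 0).mul (TT.var 1)).mul ((TT.var 6).pow 2))) TT.one

private theorem ua_SQ (h₁ : TT f₁) (h₂ : TT f₂) (h₃ : TT f₃) :
    UA (fun K _ v => UDN.SQ (f₁ K v) (f₂ K v) (f₃ K v)) :=
  UA.subst (σ := sg [f₁, f₂, f₃] f₁) (sg_TT h₁ (by
    simp only [List.mem_cons, List.not_mem_nil, or_false, forall_eq_or_imp, forall_eq]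
    exact ⟨h₁, h₂, h₃⟩)) ua_SQ0

private theorem ua_OD0 : UA.{u} (fun _ _ v => UDN.OD (v 0)) :=
  UA.congr (fun _ _ _ => Iff.rfl) <|
    UA.all 1 <| UA.all 2 <| UA.all 3 <| UA.all 4 <| UA.all 5 <| UA.all 6 <|
    (UA.eq (TT.var 1) (((((TT.var 3).pow 2).add ((TT.var 4).pow 2)).add
      ((TT.var 5).pow 2)).add ((TT.var 6).pow 2))).imp <|
    (UA.eq (TT.var 1) TT.zero).not.imp <| (UA.eq (TT.var 2) TT.zero).not.imp <|
    UA.ex 7 <| UA.ex 8 <|
    (ua_SQ (TT.var 1) (TT.var 2) (TT.var 7)).and <|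
    (ua_SQ (TT.var 1) (TT.var 2) (TT.var 8)).and <|
    UA.eq (TT.var 0) ((TT.var 7).add (TT.var 8))

private theorem ua_ODt (h₁ : TT f₁) : UA (fun K _ v => UDN.OD (f₁ K v)) :=
  UA.subst (σ := sg [f₁] f₁) (sg_TT h₁ (by
    simp only [List.mem_cons, List.not_mem_nil, or_false, forall_eq]
    exact h₁)) ua_OD0

private theorem ua_Zt {Zf : ∀ (K : Type u) [Field K], K → Prop} (hZ : UA.{u} (fun K _ v => Zf K (v 0)))
    (h₁ : TT f₁) : UA (fun K _ v => Zf K (f₁ K v)) :=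
  UA.subst (σ := sg [f₁] f₁) (sg_TT h₁ (by
    simp only [List.mem_cons, List.not_mem_nil, or_false, forall_eq]
    exact h₁)) hZ

end

theorem ua_OD : UA.{u} (fun _ _ v => UDN.OD (v 0)) := ua_OD0

theorem ua_Ph0 : UA.{u} (fun _ _ v => Ph0 (v 0) (v 1)) :=
  UA.congr (fun _ _ _ => Iff.rfl) <| UA.ex 2 <|
    (ua_ODt (TT.var 2)).and <| (ua_ODt ((TT.var 2).mul (TT.var 0))).and <|
    UA.ex 3 <| UA.ex 4 <| (ua_ODt (TT.var 3)).and <| (ua_ODt (TT.var 4)).and <|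
    UA.eq (((TT.var 2).mul (TT.var 3)).add ((TT.var 1).mul (TT.var 4))) TT.one

theorem ua_Ch0 : UA.{u} (fun K _ _ => Ch0 K) :=
  UA.congr (fun _ _ _ => Iff.rfl) <| (UA.eq tt_two TT.zero).not.and <|
    (ua_ODt TT.one).and <|
    (UA.all 0 <| UA.all 1 <| (ua_ODt (TT.var 0)).imp <| (ua_ODt (TT.var 1)).imp <|
      ua_ODt ((TT.var 0).sub (TT.var 1))).and <|
    UA.all 0 <| (UA.eq (tt_two.mul (TT.var 0)) TT.one).imp <| (ua_ODt (TT.var 0)).not

theorem ua_Dl {Zf : ∀ (K : Type u) [Field K], K → Prop} (hZ : UA.{u} (fun K _ v => Zf K (v 0))) :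
    UA.{u} (fun K _ _ => Dl K (Zf K)) :=
  UA.congr (fun _ _ _ => Iff.rfl) <| (UA.eq tt_two TT.zero).not.and <|
    (UA.all 0 <| (UA.eq (tt_two.mul (TT.var 0)) TT.one).imp <| (ua_Zt hZ (TT.var 0)).not).and <|
    UA.ex 0 <| UA.all 1 <| (ua_Zt hZ (TT.var 1)).imp <| (UA.eq (TT.var 1) TT.zero).not.imp <|
    (ua_ODt ((TT.var 1).mul (TT.var 0))).not

theorem ua_phi (φ : Language.ring.Formula (Fin 2)) :
    UA.{u} (fun K _ v => Rlz φ ![v 0, v 1]) := by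
  refine ⟨Language.Formula.relabel (fun i : Fin 2 => (i : ℕ)) φ, fun K _ v => ?_⟩
  have e : v ∘ (fun i : Fin 2 => (i : ℕ)) = ![v 0, v 1] := by
    funext i
    fin_cases i <;> rfl
  beta_reduce
  rw [← e]
  unfold Rlz
  letI := FirstOrder.Ring.compatibleRingOfRing K
  exact Language.Formula.realize_relabel

end UD0
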