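import Pool.Agent.UD0.SetEx
import Pool.Agent.UD0.Glue
import Pool.Agent.UD0.CodMain
import Pool.Agent.UD0.CodDef
import Pool.Agent.UD0.DvMain
import Pool.Agent.UD0.S8a
import Pool.Agent.UD0.S8b
import Pool.Agent.UD0.UaC
import Pool.Agent.UDV.Main

/-!
# UD0: one formula for all finitely generated fields (given presentations and charts)
-/

set_option autoImplicit false

open FirstOrder Polynomial UDV

namespace UD0

universe u

/-- The input: presentations and charts. -/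
structure PresChart : Prop where
  pres : ∀ (K : Type u) [Field K] [CharZero K], FGField K → ∀ (m : ℕ) (s : Fin m → K),
    AlgebraicIndependent ℤ s → ∃ (P : Pres K) (h : m ≤ P.d), ∀ i, P.t (Fin.castLE h i) = s i
  chart : ∀ (K : Type u) [Field K] [CharZero K] (P : Pres K), 0 < P.d → Nonempty (Chart P)

theorem pos_case (H : PresChart.{u}) {K : Type u} [Field K] [CharZero K] (hfg : FGField K)
    (O : ValuationSubring K) (hO : IsDivisorial O) {u : K} (hu : ¬ Alg u) :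
    Dl K ZZ ∧ ∃ a : K, ∀ x : K, Fnl ZZ PP x a ↔ x ∈ O := by
  have hind : AlgebraicIndependent ℤ ![u] := by
    rw [algebraicIndependent_unique_type_iff]
    exact hu
  obtain ⟨P, hP, -⟩ := H.pres K hfg 1 ![u] hind
  have hd : 0 < P.d := hP
  obtain ⟨C⟩ := H.chart K P hd
  obtain ⟨S, M⟩ := exists_setup C (H.pres K hfg)
  have hI : Inp (K := K) ZZ PP := inp_main C S M ⟨u, hu⟩
  refine ⟨dl_of_setup S hI.z hu, ?_⟩
  obtain ⟨T, π, hπ, -, -, hx⟩ := div_fg0 K hfg O hO
  exact fnl_exists hI C hd T hπ (O : Set K) hx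

/-- One formula for all finitely generated fields. -/
theorem main0 (H : PresChart.{u}) : ∃ φ : Language.ring.Formula (Fin 2),
    ∀ (K : Type u) [Field K], FGField K → ∀ O : ValuationSubring K, IsDivisorial O →
      ∃ a : K, ∀ x : K, x ∈ O ↔ Rlz φ ![x, a] := by
  obtain ⟨φp, hφp⟩ := UDV.main.{u}
  have hF : UA.{u} (fun K _ v => Fnl (K := K) ZZ PP (v 0) (v 1)) :=
    ua_Fnl0 (Z := fun K _ => ZZ) (W := fun K _ => PP) ua_ZZ ua_PP
  have hD : UA.{u} (fun K _ _ => Dl K ZZ) := ua_Dl (Zf := fun K _ => ZZ) ua_ZZ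
  obtain ⟨φ, hφ⟩ := UA.fin2
    ((hD.and hF).or (hD.not.and ((ua_Ch0.and ua_Ph0).or (ua_Ch0.not.and (ua_phi φp)))))
    (fun K _ v w h0 h1 h => by rwa [← h0, ← h1])
  refine ⟨φ, fun K _ hfg O hO => ?_⟩
  have key : ∀ x a : K, (Rlz φ ![x, a] ↔ (Dl K ZZ ∧ Fnl ZZ PP x a) ∨
      (¬ Dl K ZZ ∧ ((Ch0 K ∧ Ph0 x a) ∨ (¬ Ch0 K ∧ Rlz φp ![x, a])))) := fun x a =>
    hφ K (fun i => Nat.casesOn i x (fun _ => a))
  obtain ⟨p, hp⟩ := CharP.exists K
  rcases CharP.char_is_prime_or_zero K p with hpp | rfl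
  · -- positive characteristic
    have h1 : ¬ Dl K ZZ := not_dl_charP hpp zz_one (fun _ _ => zz_sub)
    have h2 : ¬ Ch0 K := not_ch0_charP hpp
    obtain ⟨a, ha⟩ := hφp K ⟨p, hpp, hp⟩ hfg O hO
    refine ⟨a, fun x => ?_⟩
    rw [key, ha x]
    tauto
  · have : CharZero K := CharP.charP_to_charZero K
    by_cases hK : ∀ x : K, Alg x
    · -- number fields
      have : NumberField K := nf_of_alg hfg hK
      have h1 : ¬ Dl K ZZ := not_dl_nf zz_one (fun _ _ => zz_sub)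
      have h2 : Ch0 K := ch0_nf
      obtain ⟨a, ha⟩ := val_nf O hO
      refine ⟨a, fun x => ?_⟩
      rw [key, ← ha x]
      tauto
    · obtain ⟨u, hu⟩ := not_forall.1 hK
      obtain ⟨h1, a, ha⟩ := pos_case H hfg O hO hu
      refine ⟨a, fun x => ?_⟩
      rw [key, ← ha x]
      tauto

end UD0
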