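import Mathlib

/-!
# UD0: Hensel lemma for power series

PROOF of `psh`.  The ring `S⟦X⟧` is complete for the ideal `(X)`: Mathlib has the instance
`IsAdicComplete (Ideal.span {X}) S⟦X⟧` (`Mathlib.RingTheory.AdicCompletion.Completeness`), hence
`IsAdicComplete.henselianRing : HenselianRing S⟦X⟧ (Ideal.span {X})`.  Apply
`HenselianRing.is_henselian` to `g` and `a₀ = C y₀`: `constantCoeff (g.eval (C y₀)) =
(g.map constantCoeff).eval y₀ = 0`, so `g.eval (C y₀) ∈ (X)` (`PowerSeries.X_dvd_iff`), and the class of
`(derivative g).eval (C y₀)` modulo `(X)` is a unit because the constant coefficient induces an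
isomorphism `S⟦X⟧ ⧸ (X) ≃ S` (or: a power series with unit constant coefficient is a unit,
`PowerSeries.isUnit_iff_constantCoeff`, so the class is a unit).  The root `y` has `y - C y₀ ∈ (X)`,
so its constant coefficient is `y₀`.
-/

set_option autoImplicit false

open Polynomial

namespace UD0

/-- evaluation and the constant coefficient -/
theorem psh_cc {S : Type*} [CommRing S] (g : (PowerSeries S)[X]) (y₀ : S) :
    PowerSeries.constantCoeff (R := S) (g.eval (PowerSeries.C (R := S) y₀)) =
      (g.map (PowerSeries.constantCoeff (R := S))).eval y₀ := by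
  rw [← Polynomial.eval₂_hom, Polynomial.eval_map, PowerSeries.constantCoeff_C]

/-- Hensel lemma for power series: a simple root modulo `X` of a monic polynomial lifts. -/
theorem psh {S : Type*} [CommRing S] (g : (PowerSeries S)[X]) (hg : g.Monic) (y₀ : S)
    (h0 : (g.map (PowerSeries.constantCoeff (R := S))).eval y₀ = 0)
    (h1 : IsUnit ((derivative (g.map (PowerSeries.constantCoeff (R := S)))).eval y₀)) :
    ∃ y : PowerSeries S, g.eval y = 0 ∧ PowerSeries.constantCoeff (R := S) y = y₀ := by
  obtain ⟨y, hy, hy'⟩ := HenselianRing.is_henselian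
    (I := (Ideal.span {(PowerSeries.X : PowerSeries S)})) g hg (PowerSeries.C (R := S) y₀)
    (by
      rw [Ideal.mem_span_singleton, PowerSeries.X_dvd_iff, psh_cc]
      exact h0)
    (by
      have h2 : IsUnit ((derivative g).eval (PowerSeries.C (R := S) y₀)) := by
        rw [PowerSeries.isUnit_iff_constantCoeff, psh_cc, ← Polynomial.derivative_map]
        exact h1
      exact h2.map _)
  refine ⟨y, hy, ?_⟩
  rw [Ideal.mem_span_singleton, PowerSeries.X_dvd_iff, map_sub, PowerSeries.constantCoeff_C,
    sub_eq_zero] at hy'
  exact hy'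

end UD0
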