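import Pool.Agent.UD0.ExtHom
import Pool.Agent.UD0.AlgF
import Pool.Agent.UD0.PSH
import Pool.Agent.UD0.LsA

/-!
# UD0: Lemma E, part 1: an embedding into Laurent series from a simple root

`F` a field of characteristic zero, `e₀ : K →+* F`, `i₀` one coordinate; `psi P e₀ i₀ c : ℤ[t] →+* F` maps `t_{i₀}` to `c` and
`t_j` to `e₀ (P.t j)` for `j ≠ i₀`.
PROOF of `psi_self` : both sides agree on the variables.
PROOF of `emb_of_root`.  Let `ψ : ℤ[t] → F⟦X⟧`, `t_{i₀} ↦ C c + X`, `t_j ↦ C (e₀ (P.t j))`.  Its constant coefficient is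
`psi P e₀ i₀ c`, so `psh` for the monic `P.G.map ψ` gives a root `y ∈ F⟦X⟧` with constant coefficient `θ` (the derivative at `θ` is a
nonzero element of a field, a unit).
`ψ` is injective: it factors as `ℤ[t] → F[T] → F⟦X⟧` with `T ↦ C c + X` in the second map, which is injective (a polynomial
`f(T)` goes to the image of the polynomial `f(X + c) ∈ F[X] ⊆ F⟦X⟧`, `Polynomial.taylor` or `comp (X + C c)` is injective), and the first map is
injective because its composition with the evaluation `F[T] → F` at `T = e₀ (P.t i₀)` is `e₀ ∘ P.φ ∘ of` (`psi_self`), which is injective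
(`P.inj`, `AdjoinRoot.of` is injective: `P.G` is monic of positive degree, being irreducible; or directly: `ℤ[t] → P.R` is injective).
`lift_hom` with `B = LaurentSeries F` and the compositions with `HahnSeries.ofPowerSeries ℤ F` (injective; `C a ↦ HahnSeries.C a`,
`X ↦ HahnSeries.single 1 1`) gives `e`.  For `A ∈ ℤ[t][X]`: `e (P.φ (mk A))` is the image of the power series `A.eval₂ ψ y`, whose
constant coefficient is `A.eval₂ (psi P e₀ i₀ c) θ`; the coefficients of the image of a power series in negative degrees vanish.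
-/

set_option autoImplicit false

open Polynomial

namespace UD0

universe u

variable {K : Type u} [Field K] [CharZero K] {F : Type*} [Field F]

/-- evaluation of the coordinates: `t_{i₀} ↦ c`, the others fixed -/
noncomputable def psi (P : Pres K) (e₀ : K →+* F) (i₀ : Fin P.d) (c : F) :
    MvPolynomial (Fin P.d) ℤ →+* F :=
  MvPolynomial.eval₂Hom (Int.castRingHom F) (fun j => if j = i₀ then c else e₀ (P.t j))

theorem psi_self (P : Pres K) (e₀ : K →+* F) (i₀ : Fin P.d) (a : MvPolynomial (Fin P.d) ℤ) :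
    psi P e₀ i₀ (e₀ (P.t i₀)) a = e₀ (P.φ (AdjoinRoot.of P.G a)) := by
  have h : psi P e₀ i₀ (e₀ (P.t i₀)) = e₀.comp (P.φ.comp (AdjoinRoot.of P.G)) := by
    refine MvPolynomial.ringHom_ext (fun r => ?_) (fun j => ?_)
    · simp [psi]
    · have hj : e₀.comp (P.φ.comp (AdjoinRoot.of P.G)) (MvPolynomial.X j) = e₀ (P.t j) := rfl
      rw [hj]
      unfold psi
      rw [MvPolynomial.coe_eval₂Hom, MvPolynomial.eval₂_X]
      by_cases hji : j = i₀
      · rw [if_pos hji, hji]
      · rw [if_neg hji]
  exact congrArg (fun f : MvPolynomial (Fin P.d) ℤ →+* F => f a) h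

/-- the power series version of `psi` -/
private noncomputable def psiX (P : Pres K) (e₀ : K →+* F) (i₀ : Fin P.d) (c : F) :
    MvPolynomial (Fin P.d) ℤ →+* PowerSeries F :=
  MvPolynomial.eval₂Hom (Int.castRingHom (PowerSeries F))
    (fun j => if j = i₀ then PowerSeries.C (R := F) c + PowerSeries.X else PowerSeries.C (R := F) (e₀ (P.t j)))

private theorem psiX_cc (P : Pres K) (e₀ : K →+* F) (i₀ : Fin P.d) (c : F) :
    (PowerSeries.constantCoeff (R := F)).comp (psiX P e₀ i₀ c) = psi P e₀ i₀ c := by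
  refine MvPolynomial.ringHom_ext (fun r => ?_) (fun j => ?_)
  · simp [psi, psiX]
  · rw [RingHom.comp_apply]
    unfold psi psiX
    rw [MvPolynomial.coe_eval₂Hom, MvPolynomial.eval₂_X, MvPolynomial.coe_eval₂Hom,
      MvPolynomial.eval₂_X]
    by_cases hji : j = i₀
    · rw [if_pos hji, if_pos hji, map_add, PowerSeries.constantCoeff_C, PowerSeries.constantCoeff_X,
        add_zero]
    · rw [if_neg hji, if_neg hji, PowerSeries.constantCoeff_C]

private noncomputable def psiP (P : Pres K) (e₀ : K →+* F) (i₀ : Fin P.d) :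
    MvPolynomial (Fin P.d) ℤ →+* F[X] :=
  MvPolynomial.eval₂Hom (Int.castRingHom F[X]) (fun j => if j = i₀ then X else C (e₀ (P.t j)))

private theorem psiP_inj (P : Pres K) (e₀ : K →+* F) (i₀ : Fin P.d) :
    Function.Injective (psiP P e₀ i₀) := by
  have h : (Polynomial.evalRingHom (e₀ (P.t i₀))).comp (psiP P e₀ i₀) =
      psi P e₀ i₀ (e₀ (P.t i₀)) := by
    refine MvPolynomial.ringHom_ext (fun r => ?_) (fun j => ?_)
    · simp [psi, psiP]
    · rw [RingHom.comp_apply]
      unfold psi psiP
      rw [MvPolynomial.coe_eval₂Hom, MvPolynomial.eval₂_X, MvPolynomial.coe_eval₂Hom,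
        MvPolynomial.eval₂_X, Polynomial.coe_evalRingHom]
      by_cases hji : j = i₀
      · rw [if_pos hji, if_pos hji, eval_X]
      · rw [if_neg hji, if_neg hji, eval_C]
  have hi : Function.Injective (psi P e₀ i₀ (e₀ (P.t i₀))) := by
    intro a b hab
    rw [psi_self, psi_self] at hab
    have h1 := P.inj (e₀.injective hab)
    have h2 : P.G.degree ≠ 0 := by
      intro h3
      have h4 := Polynomial.eq_C_of_degree_eq_zero h3
      have h5 : P.G = 1 := by
        have h6 := P.monic
        rw [h4] at h6 ⊢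
        rw [Polynomial.Monic, Polynomial.leadingCoeff_C] at h6
        rw [h6, Polynomial.C_1]
      exact P.irr.not_isUnit (by rw [h5]; exact isUnit_one)
    exact AdjoinRoot.of.injective_of_degree_ne_zero h2 h1
  intro a b hab
  apply hi
  rw [← h, RingHom.comp_apply, RingHom.comp_apply, hab]

private theorem psiX_inj (P : Pres K) (e₀ : K →+* F) (i₀ : Fin P.d) (c : F) :
    Function.Injective (psiX P e₀ i₀ c) := by
  have h : psiX P e₀ i₀ c = ((Polynomial.coeToPowerSeries.ringHom (R := F)).comp
      (Polynomial.compRingHom (X + C c))).comp (psiP P e₀ i₀) := by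
    refine MvPolynomial.ringHom_ext (fun r => ?_) (fun j => ?_)
    · simp [psiX, psiP]
    · rw [RingHom.comp_apply, RingHom.comp_apply]
      unfold psiX psiP
      rw [MvPolynomial.coe_eval₂Hom, MvPolynomial.eval₂_X, MvPolynomial.coe_eval₂Hom,
        MvPolynomial.eval₂_X]
      by_cases hji : j = i₀
      · rw [if_pos hji, if_pos hji, Polynomial.coe_compRingHom_apply, X_comp,
          Polynomial.coeToPowerSeries.ringHom_apply, Polynomial.coe_add, Polynomial.coe_X,
          Polynomial.coe_C, add_comm]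
      · rw [if_neg hji, if_neg hji, Polynomial.coe_compRingHom_apply, C_comp,
          Polynomial.coeToPowerSeries.ringHom_apply, Polynomial.coe_C]
  rw [h, RingHom.coe_comp, RingHom.coe_comp]
  refine (Function.Injective.comp ?_ ?_).comp (psiP_inj P e₀ i₀)
  · intro a b hab
    rw [Polynomial.coeToPowerSeries.ringHom_apply, Polynomial.coeToPowerSeries.ringHom_apply] at hab
    exact Polynomial.coe_injective _ hab
  · intro a b hab
    rw [Polynomial.coe_compRingHom_apply, Polynomial.coe_compRingHom_apply] at hab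
    exact Polynomial.taylor_injective c hab

theorem emb_of_root [CharZero F] (P : Pres K) (e₀ : K →+* F) (i₀ : Fin P.d) (c θ : F)
    (h0 : P.G.eval₂ (psi P e₀ i₀ c) θ = 0)
    (h1 : (derivative P.G).eval₂ (psi P e₀ i₀ c) θ ≠ 0) :
    ∃ e : K →+* LaurentSeries F, e (P.t i₀) = HahnSeries.C c + HahnSeries.single 1 1 ∧
      (∀ j, j ≠ i₀ → e (P.t j) = HahnSeries.C (e₀ (P.t j))) ∧
      ∀ A : (MvPolynomial (Fin P.d) ℤ)[X],
        (∀ n < 0, (e (P.φ (AdjoinRoot.mk P.G A))).coeff n = 0) ∧
        (e (P.φ (AdjoinRoot.mk P.G A))).coeff 0 = A.eval₂ (psi P e₀ i₀ c) θ := by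
  obtain ⟨y, hy, hyc⟩ := psh (P.G.map (psiX P e₀ i₀ c)) (P.monic.map _) θ
    (by rw [Polynomial.map_map, psiX_cc, Polynomial.eval_map]; exact h0)
    (by
      rw [Polynomial.map_map, psiX_cc, Polynomial.derivative_map, Polynomial.eval_map]
      exact isUnit_iff_ne_zero.2 h1)
  obtain ⟨e, he1, he2⟩ := lift_hom P ((HahnSeries.ofPowerSeries ℤ F).comp (psiX P e₀ i₀ c))
    (HahnSeries.ofPowerSeries_injective.comp (psiX_inj P e₀ i₀ c)) (HahnSeries.ofPowerSeries ℤ F y)
    (by rw [← Polynomial.hom_eval₂, ← Polynomial.eval_map, hy, map_zero])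
  have hX : ∀ j, e (P.t j) = HahnSeries.ofPowerSeries ℤ F (psiX P e₀ i₀ c (MvPolynomial.X j)) :=
    fun j => he1 (MvPolynomial.X j)
  refine ⟨e, ?_, ?_, fun A => ?_⟩
  · rw [hX]
    unfold psiX
    rw [MvPolynomial.coe_eval₂Hom, MvPolynomial.eval₂_X, if_pos rfl, map_add,
      HahnSeries.ofPowerSeries_C, HahnSeries.ofPowerSeries_X]
  · intro j hj
    rw [hX]
    unfold psiX
    rw [MvPolynomial.coe_eval₂Hom, MvPolynomial.eval₂_X, if_neg hj, HahnSeries.ofPowerSeries_C]
  · have hA : e (P.φ (AdjoinRoot.mk P.G A)) =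
        HahnSeries.ofPowerSeries ℤ F (A.eval₂ (psiX P e₀ i₀ c) y) := by
      have h : (e.comp P.φ).comp (AdjoinRoot.mk P.G) =
          (HahnSeries.ofPowerSeries ℤ F).comp (Polynomial.eval₂RingHom (psiX P e₀ i₀ c) y) := by
        refine Polynomial.ringHom_ext (fun a => ?_) ?_
        · rw [RingHom.comp_apply, RingHom.comp_apply, RingHom.comp_apply,
            Polynomial.coe_eval₂RingHom, Polynomial.eval₂_C, AdjoinRoot.mk_C]
          exact he1 a
        · rw [RingHom.comp_apply, RingHom.comp_apply, RingHom.comp_apply,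
            Polynomial.coe_eval₂RingHom, Polynomial.eval₂_X, AdjoinRoot.mk_X]
          exact he2
      exact congrArg (fun f : (MvPolynomial (Fin P.d) ℤ)[X] →+* LaurentSeries F => f A) h
    rw [hA]
    refine ⟨fun n hn => ?_, ?_⟩
    · have := PowerSeries.coeff_coe (A.eval₂ (psiX P e₀ i₀ c) y) n
      rw [if_pos hn] at this
      exact this
    · have := PowerSeries.coeff_coe (A.eval₂ (psiX P e₀ i₀ c) y) 0
      rw [if_neg (lt_irrefl _), Int.natAbs_zero, PowerSeries.coeff_zero_eq_constantCoeff_apply] at this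
      have h2 := Polynomial.hom_eval₂ A (psiX P e₀ i₀ c) (PowerSeries.constantCoeff (R := F)) y
      rw [psiX_cc, hyc] at h2
      exact this.trans h2

end UD0
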