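import Pool.Agent.UD0.MovA
import Pool.Agent.UD0.HenQ

/-!
# UD0: Lemma E, part 2: the moving lemma in coordinates

`e₀ : K →+* ℚ_[l]`, `i₀` one coordinate, `T₀ = e₀ (P.t i₀)`, `θ₀ = e₀ (P.φ (root))`.  Notation: `A_c = A.eval₂ (psi P e₀ i₀ c)` as a
function of `θ`, for `A ∈ ℤ[t][X]`.
PROOF of `bi` : `H` = image of `A` under the ring homomorphism `ℤ[t] → ℚ_l[T]`, `t_{i₀} ↦ T`, `t_j ↦ C (e₀ (P.t j))`; then
`H.map (evalRingHom c)` is `A` mapped by `psi P e₀ i₀ c`.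
PROOF of `cont_eval` : by `bi`, `(c, θ) ↦ A_c(θ)` is a polynomial function of two variables, so it is continuous.
PROOF of `mov_coord`.
(1) By `psi_self`: `G_{T₀}(θ₀) = e₀ (P.φ (mk G)) = 0` and `G'_{T₀}(θ₀) = e₀ (P.φ disc) ≠ 0` (`disc_ne_zero`, injectivity).
(2) The constants: `FiniteDimensional ℚ (algebraicClosure ℚ K)`, so there is a primitive element `ω ∈ K`
    (`Field.exists_primitive_element`): every `x` with `Alg x` is a rational polynomial in `ω`.  Write `P.φ b * ω = P.φ a`, `b ≠ 0`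
    (`P.surj`), `a = mk A`, `b = mk B`.  `B_{T₀}(θ₀) = e₀ (P.φ b) ≠ 0` and `A_{T₀}(θ₀) / B_{T₀}(θ₀) = e₀ ω`.  Let `f` be the minimal polynomial
    of `ω` over `ℚ`; it has finitely many roots in `ℚ_l`; let `ρ > 0` be smaller than the distance of `e₀ ω` to the other roots.  By continuity
    (`cont_eval`) there is `ε > 0` such that `‖c - T₀‖ < ε`, `‖θ - θ₀‖ < ε` imply `B_c(θ) ≠ 0` and `‖A_c(θ) / B_c(θ) - e₀ ω‖ < ρ`.
(3) `root_near` for `H` (from `bi` for `A = P.G`) and `ε` gives `δ`; take `min δ ε`.  Let `‖c - T₀‖ < min δ ε` and `θ` the simple root of `G_c`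
    with `‖θ - θ₀‖ < ε`.  `emb_of_root` gives `e`.
(4) For algebraic `x`: `e ω` is algebraic, so `e ω = C v` (`ls_alg_int`); comparing constant coefficients of
    `e (P.φ b) * e ω = e (P.φ a)`: `B_c(θ) v = A_c(θ)`; `v` is a root of `f` with `‖v - e₀ ω‖ < ρ`, so `v = e₀ ω`.  Two ring homomorphisms
    `ℚ(ω) → LaurentSeries ℚ_l` (`e` and `C ∘ e₀`) agree at `ω`, so they agree on every rational polynomial in `ω`.
-/

set_option autoImplicit false

open Polynomial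

namespace UD0

universe u

variable {K : Type u} [Field K] [CharZero K]

theorem bi {F : Type*} [Field F] (P : Pres K) (e₀ : K →+* F) (i₀ : Fin P.d)
    (A : (MvPolynomial (Fin P.d) ℤ)[X]) :
    ∃ H : F[X][X], ∀ c : F, H.map (evalRingHom c) = A.map (psi P e₀ i₀ c) := by
  let h : MvPolynomial (Fin P.d) ℤ →+* F[X] :=
    MvPolynomial.eval₂Hom (Int.castRingHom F[X])
      (fun j => if j = i₀ then Polynomial.X else Polynomial.C (e₀ (P.t j)))
  refine ⟨A.map h, fun c => ?_⟩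
  rw [Polynomial.map_map]
  congr 1
  apply MvPolynomial.ringHom_ext
  · intro n
    simp [h, psi]
  · intro j
    simp only [RingHom.comp_apply, h, psi, MvPolynomial.coe_eval₂Hom, MvPolynomial.eval₂_X,
      coe_evalRingHom]
    split_ifs with hj
    · simp
    · simp

theorem cont_eval (P : Pres K) {l : ℕ} [Fact l.Prime] (e₀ : K →+* ℚ_[l]) (i₀ : Fin P.d)
    (A : (MvPolynomial (Fin P.d) ℤ)[X]) :
    Continuous fun x : ℚ_[l] × ℚ_[l] => A.eval₂ (psi P e₀ i₀ x.1) x.2 := by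
  obtain ⟨H, hH⟩ := bi P e₀ i₀ A
  have h1 : (fun x : ℚ_[l] × ℚ_[l] => A.eval₂ (psi P e₀ i₀ x.1) x.2) =
      fun x : ℚ_[l] × ℚ_[l] => ∑ i ∈ Finset.range (H.natDegree + 1),
        (H.coeff i).eval x.1 * x.2 ^ i := by
    funext x
    rw [Polynomial.eval₂_eq_eval_map, ← hH x.1, Polynomial.eval_map, Polynomial.eval₂_eq_sum_range]
    rfl
  rw [h1]
  refine continuous_finsetSum _ (fun i _ => ?_)
  exact ((H.coeff i).continuous.comp continuous_fst).mul (continuous_snd.pow i)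

private theorem mov_self {F : Type*} [Field F] (P : Pres K) (e₀ : K →+* F) (i₀ : Fin P.d)
    (A : (MvPolynomial (Fin P.d) ℤ)[X]) :
    A.eval₂ (psi P e₀ i₀ (e₀ (P.t i₀))) (e₀ (P.φ (AdjoinRoot.root P.G))) =
      e₀ (P.φ (AdjoinRoot.mk P.G A)) := by
  have h1 : psi P e₀ i₀ (e₀ (P.t i₀)) = (e₀.comp P.φ).comp (AdjoinRoot.of P.G) := by
    apply RingHom.ext
    intro a
    rw [psi_self]
    rfl
  rw [h1]
  have h2 : AdjoinRoot.mk P.G A = A.eval₂ (AdjoinRoot.of P.G) (AdjoinRoot.root P.G) := by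
    rw [← AdjoinRoot.aeval_eq, Polynomial.aeval_def]
    rfl
  rw [h2]
  have h3 := Polynomial.hom_eval₂ A (AdjoinRoot.of P.G) (e₀.comp P.φ) (AdjoinRoot.root P.G)
  exact h3.symm

private theorem mov_prim (hfd : FiniteDimensional ℚ (algebraicClosure ℚ K)) :
    ∃ ω : K, Alg ω ∧ ∀ x : K, Alg x → ∃ p : ℚ[X], x = p.eval₂ (algebraMap ℚ K) ω := by
  obtain ⟨α, hα⟩ := Field.exists_primitive_element ℚ (algebraicClosure ℚ K)
  have hmem : ∀ x : K, x ∈ algebraicClosure ℚ K ↔ IsAlgebraic ℚ x := fun x =>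
    mem_algebraicClosure_iff
  refine ⟨α.1, ?_, ?_⟩
  · rw [alg_iff_rat]
    exact (hmem _).1 α.2
  · intro x hx
    rw [alg_iff_rat] at hx
    have h1 : (⟨x, (hmem x).2 hx⟩ : algebraicClosure ℚ K) ∈ IntermediateField.adjoin ℚ {α} := by
      rw [hα]
      exact IntermediateField.mem_top
    have hint : IsIntegral ℚ α := Algebra.IsIntegral.isIntegral α
    have h2 : (⟨x, (hmem x).2 hx⟩ : algebraicClosure ℚ K) ∈
        (IntermediateField.adjoin ℚ {α}).toSubalgebra := h1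
    rw [IntermediateField.adjoin_simple_toSubalgebra_of_isAlgebraic hint.isAlgebraic,
      Algebra.adjoin_singleton_eq_range_aeval] at h2
    obtain ⟨p, hp⟩ := h2
    refine ⟨p, ?_⟩
    have h3 := congrArg (fun y : algebraicClosure ℚ K => (y : K)) hp
    simp only at h3
    rw [← h3]
    have h4 := Polynomial.hom_eval₂ p (algebraMap ℚ (algebraicClosure ℚ K))
      (algebraMap (algebraicClosure ℚ K) K) α
    have h5 : (algebraMap (algebraicClosure ℚ K) K).comp (algebraMap ℚ (algebraicClosure ℚ K)) =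
        algebraMap ℚ K := Subsingleton.elim _ _
    rw [h5] at h4
    exact h4

theorem mov_coord (P : Pres K) (hfd : FiniteDimensional ℚ (algebraicClosure ℚ K)) {l : ℕ}
    [Fact l.Prime] (e₀ : K →+* ℚ_[l]) (i₀ : Fin P.d) :
    ∃ δ : ℝ, 0 < δ ∧ ∀ c : ℚ_[l], ‖c - e₀ (P.t i₀)‖ < δ → ∃ e : K →+* LaurentSeries ℚ_[l],
      (∀ x, Alg x → e x = HahnSeries.C (e₀ x)) ∧
      e (P.t i₀) = HahnSeries.C c + HahnSeries.single 1 1 ∧
      ∀ j, j ≠ i₀ → e (P.t j) = HahnSeries.C (e₀ (P.t j)) := by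
  classical
  obtain ⟨ω, hω, hprim⟩ := mov_prim (K := K) hfd
  obtain ⟨a, b, hb, hab⟩ := P.surj ω
  obtain ⟨A, rfl⟩ := AdjoinRoot.mk_surjective a
  obtain ⟨B, rfl⟩ := AdjoinRoot.mk_surjective b
  set T₀ : ℚ_[l] := e₀ (P.t i₀) with hT₀
  set θ₀ : ℚ_[l] := e₀ (P.φ (AdjoinRoot.root P.G)) with hθ₀
  have hself := mov_self P e₀ i₀
  rw [← hT₀, ← hθ₀] at hself
  have hG0 : P.G.eval₂ (psi P e₀ i₀ T₀) θ₀ = 0 := by
    rw [hself, AdjoinRoot.mk_self, map_zero, map_zero]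
  have hG1 : (derivative P.G).eval₂ (psi P e₀ i₀ T₀) θ₀ ≠ 0 := by
    rw [hself]
    intro h
    have h1 : P.φ (AdjoinRoot.mk P.G (derivative P.G)) = 0 :=
      e₀.injective (by rw [h, map_zero])
    have h2 : P.disc = 0 := P.inj (by rw [map_zero]; exact h1)
    exact disc_ne_zero P h2
  -- the constants
  set ι : ℚ →+* ℚ_[l] := e₀.comp (algebraMap ℚ K) with hι
  have hωQ : IsAlgebraic ℚ ω := alg_iff_rat.1 hω
  obtain ⟨f, hf0, hfω⟩ := hωQ
  have hfmap : f.map ι ≠ 0 := by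
    rw [Ne, Polynomial.map_eq_zero_iff ι.injective]
    exact hf0
  set S : Set ℚ_[l] := {v | v ∈ ((f.map ι).roots.toFinset : Set ℚ_[l]) ∧ v ≠ e₀ ω} with hS
  have hSc : IsClosed S := by
    have : S.Finite := (Finset.finite_toSet (f.map ι).roots.toFinset).subset (fun v hv => hv.1)
    exact this.isClosed
  have hB0 : B.eval₂ (psi P e₀ i₀ T₀) θ₀ ≠ 0 := by
    rw [hself]
    intro h
    have h1 : P.φ (AdjoinRoot.mk P.G B) = 0 := e₀.injective (by rw [h, map_zero])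
    exact hb (P.inj (by rw [map_zero]; exact h1))
  have hq0 : A.eval₂ (psi P e₀ i₀ T₀) θ₀ / B.eval₂ (psi P e₀ i₀ T₀) θ₀ = e₀ ω := by
    rw [div_eq_iff hB0, hself, hself, ← hab, map_mul]
    ring
  have hcA := cont_eval P e₀ i₀ A
  have hcB := cont_eval P e₀ i₀ B
  have hU : {x : ℚ_[l] × ℚ_[l] | B.eval₂ (psi P e₀ i₀ x.1) x.2 ≠ 0 ∧
      A.eval₂ (psi P e₀ i₀ x.1) x.2 / B.eval₂ (psi P e₀ i₀ x.1) x.2 ∉ S} ∈
        nhds (T₀, θ₀) := by
    have h1 : ∀ᶠ x in nhds (T₀, θ₀), B.eval₂ (psi P e₀ i₀ x.1) x.2 ≠ 0 :=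
      hcB.continuousAt.eventually_ne hB0
    have h2 : ContinuousAt (fun x : ℚ_[l] × ℚ_[l] => A.eval₂ (psi P e₀ i₀ x.1) x.2 /
        B.eval₂ (psi P e₀ i₀ x.1) x.2) (T₀, θ₀) := hcA.continuousAt.div hcB.continuousAt hB0
    have h3 : ∀ᶠ x in nhds (T₀, θ₀), A.eval₂ (psi P e₀ i₀ x.1) x.2 /
        B.eval₂ (psi P e₀ i₀ x.1) x.2 ∈ Sᶜ := by
      apply h2.eventually_mem
      apply hSc.isOpen_compl.mem_nhds
      simp only [hq0]
      intro h
      exact h.2 rfl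
    exact h1.and h3
  obtain ⟨ε, hε, hball⟩ := Metric.mem_nhds_iff.1 hU
  obtain ⟨H, hH⟩ := bi P e₀ i₀ P.G
  have hH0 : (H.map (evalRingHom T₀)).eval θ₀ = 0 := by
    rw [hH, Polynomial.eval_map]
    exact hG0
  have hH1 : (derivative (H.map (evalRingHom T₀))).eval θ₀ ≠ 0 := by
    rw [hH, Polynomial.derivative_map, Polynomial.eval_map]
    exact hG1
  obtain ⟨δ, hδ, hroot⟩ := root_near H T₀ θ₀ hH0 hH1 hε
  refine ⟨min δ ε, lt_min hδ hε, fun c hc => ?_⟩
  obtain ⟨θ, hθ, hθ0, hθ1⟩ := hroot c (lt_of_lt_of_le hc (min_le_left _ _))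
  rw [hH, Polynomial.eval_map] at hθ0
  rw [hH, Polynomial.derivative_map, Polynomial.eval_map] at hθ1
  obtain ⟨e, he1, he2, he3⟩ := emb_of_root P e₀ i₀ c θ hθ0 hθ1
  have hcθ : (c, θ) ∈ Metric.ball (T₀, θ₀) ε := by
    rw [Metric.mem_ball, Prod.dist_eq, max_lt_iff, dist_eq_norm, dist_eq_norm]
    exact ⟨lt_of_lt_of_le hc (min_le_right _ _), hθ⟩
  obtain ⟨hBc, hAB⟩ := hball hcθ
  simp only at hBc hAB
  refine ⟨e, ?_, he1, he2⟩
  -- the value at ω
  have hω' : e ω = HahnSeries.C (e₀ ω) := by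
    obtain ⟨g, hg0, hgω⟩ := hω
    have h1 : aeval (e ω) g = 0 := by
      have h2 := Polynomial.hom_eval₂ g (algebraMap ℤ K) e ω
      rw [aeval_def] at hgω ⊢
      rw [hgω, map_zero] at h2
      rw [h2]
      congr 1
      exact RingHom.ext_int _ _
    obtain ⟨v, hv⟩ := ls_alg_int hg0 h1
    have h2 : B.eval₂ (psi P e₀ i₀ c) θ * v = A.eval₂ (psi P e₀ i₀ c) θ := by
      have h3 := congrArg (fun y : LaurentSeries ℚ_[l] => y.coeff 0) (congrArg e hab)
      simp only [map_mul] at h3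
      rw [hv, (he3 A).2, mul_comm, HahnSeries.C_mul_eq_smul, HahnSeries.coeff_smul, (he3 B).2,
        smul_eq_mul, mul_comm] at h3
      exact h3
    have h3 : A.eval₂ (psi P e₀ i₀ c) θ / B.eval₂ (psi P e₀ i₀ c) θ = v := by
      rw [div_eq_iff hBc, ← h2]
      ring
    rw [h3] at hAB
    have h4 : (f.map ι).IsRoot v := by
      have h5 := Polynomial.hom_eval₂ f ι (HahnSeries.C : ℚ_[l] →+* LaurentSeries ℚ_[l]) v
      have h6 := Polynomial.hom_eval₂ f (algebraMap ℚ K) e ω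
      have h7 : (HahnSeries.C : ℚ_[l] →+* LaurentSeries ℚ_[l]).comp ι = e.comp (algebraMap ℚ K) :=
        Subsingleton.elim _ _
      rw [h7, ← hv, ← h6] at h5
      rw [aeval_def] at hfω
      rw [hfω, map_zero] at h5
      have h8 : f.eval₂ ι v = 0 := by
        apply (HahnSeries.C : ℚ_[l] →+* LaurentSeries ℚ_[l]).injective
        rw [map_zero]
        exact h5
      rw [Polynomial.IsRoot, Polynomial.eval_map]
      exact h8
    have h5 : v = e₀ ω := by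
      by_contra hne
      apply hAB
      refine ⟨?_, hne⟩
      rw [Finset.mem_coe, Multiset.mem_toFinset, Polynomial.mem_roots hfmap]
      exact h4
    rw [hv, h5]
  intro x hx
  obtain ⟨p, hp⟩ := hprim x hx
  have h1 := Polynomial.hom_eval₂ p (algebraMap ℚ K) e ω
  have h2 := Polynomial.hom_eval₂ p (algebraMap ℚ K)
    ((HahnSeries.C : ℚ_[l] →+* LaurentSeries ℚ_[l]).comp e₀) ω
  have h3 : ((HahnSeries.C : ℚ_[l] →+* LaurentSeries ℚ_[l]).comp e₀).comp (algebraMap ℚ K) =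
      e.comp (algebraMap ℚ K) := Subsingleton.elim _ _
  rw [h3, ← hp] at h2
  rw [← hp, hω'] at h1
  rw [h1]
  exact h2.symm

end UD0
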