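import Pool.Agent.UD0.MovB

/-!
# UD0: Lemma E, part 3: the moving lemma for one or two elements

`hpres`: every algebraically independent family is the beginning of the coordinates of a presentation.
PROOF.  `u` is not algebraic: the family `![u] : Fin 1 → K` is algebraically independent over `ℤ`
(`algebraicIndependent_unique_type_iff`/`algebraicIndependent_singleton..`: `Alg u` is `IsAlgebraic ℤ u`).  `hpres` gives `P` with
`P.t (Fin.castLE h 0) = u`; `mov_coord` for `i₀ = Fin.castLE h 0`.  Two elements: the same with `![u, y]`, `i₀ = Fin.castLE h 0`,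
`j = Fin.castLE h 1 ≠ i₀`.
-/

set_option autoImplicit false

open Polynomial

namespace UD0

universe u

variable {K : Type u} [Field K] [CharZero K]

theorem mov_one (hpres : ∀ (m : ℕ) (s : Fin m → K), AlgebraicIndependent ℤ s →
      ∃ (P : Pres K) (h : m ≤ P.d), ∀ i, P.t (Fin.castLE h i) = s i)
    (hfd : FiniteDimensional ℚ (algebraicClosure ℚ K)) {l : ℕ} [Fact l.Prime] (e₀ : K →+* ℚ_[l])
    (u : K) (hu : ¬ Alg u) :
    ∃ δ : ℝ, 0 < δ ∧ ∀ c : ℚ_[l], ‖c - e₀ u‖ < δ → ∃ e : K →+* LaurentSeries ℚ_[l],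
      (∀ x, Alg x → e x = HahnSeries.C (e₀ x)) ∧
      e u = HahnSeries.C c + HahnSeries.single 1 1 := by
  have h1 : AlgebraicIndependent ℤ ![u] := by
    rw [algebraicIndependent_unique_type_iff]
    exact fun h => hu h
  obtain ⟨P, h, hP⟩ := hpres 1 ![u] h1
  have h2 : P.t (Fin.castLE h 0) = u := hP 0
  obtain ⟨δ, hδ, H⟩ := mov_coord P hfd e₀ (Fin.castLE h 0)
  rw [h2] at H
  refine ⟨δ, hδ, fun c hc => ?_⟩
  obtain ⟨e, he1, he2, _⟩ := H c hc
  exact ⟨e, he1, he2⟩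

theorem mov_two (hpres : ∀ (m : ℕ) (s : Fin m → K), AlgebraicIndependent ℤ s →
      ∃ (P : Pres K) (h : m ≤ P.d), ∀ i, P.t (Fin.castLE h i) = s i)
    (hfd : FiniteDimensional ℚ (algebraicClosure ℚ K)) {l : ℕ} [Fact l.Prime] (e₀ : K →+* ℚ_[l])
    (u y : K) (huy : AlgebraicIndependent ℤ ![u, y]) :
    ∃ δ : ℝ, 0 < δ ∧ ∀ c : ℚ_[l], ‖c - e₀ u‖ < δ → ∃ e : K →+* LaurentSeries ℚ_[l],
      (∀ x, Alg x → e x = HahnSeries.C (e₀ x)) ∧
      e u = HahnSeries.C c + HahnSeries.single 1 1 ∧ e y = HahnSeries.C (e₀ y) := by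
  obtain ⟨P, h, hP⟩ := hpres 2 ![u, y] huy
  have h2 : P.t (Fin.castLE h 0) = u := hP 0
  have h3 : P.t (Fin.castLE h 1) = y := hP 1
  obtain ⟨δ, hδ, H⟩ := mov_coord P hfd e₀ (Fin.castLE h 0)
  rw [h2] at H
  refine ⟨δ, hδ, fun c hc => ?_⟩
  obtain ⟨e, he1, he2, he3⟩ := H c hc
  refine ⟨e, he1, he2, ?_⟩
  rw [← h3]
  refine he3 _ fun h4 => ?_
  have h5 := congrArg Fin.val h4
  simp at h5

end UD0
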