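import Pool.Agent.UD0.EigId

/-!
# UD0: no linear relation between differentials of twists modulo `p`

PROOF of `no_rel`.  `d = PowerSeries.derivative F`, `f_i = d (x i) * w i`, `A = choose ((p - 1) / 2) ((p - 1) / 3) ≠ 0`,
`χ_i = (lam i) ^ ((p - 1) / 2) = ± 1`.  By `eig_id` (multiply by `χ_i = χ_i⁻¹`): `d^[p-1] f_i = - C (A χ_i) * f_i ^ p`.
Apply `d^[p-1]` (which is `F`-linear, `d_const_mul`) to `f_0 = ∑ r, C (a r) * f_(r+1)`:
`A χ_0 f_0 ^ p = ∑ r, A χ_(r+1) a r f_(r+1) ^ p`, i.e. `f_0 ^ p = ∑ r, C (χ_0 χ_(r+1) a r) * f_(r+1) ^ p`.  The Frobenius is additive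
(`sum_pow_char` or induction with `add_pow_char`): `f_0 ^ p = ∑ r, C (a r ^ p) * f_(r+1) ^ p`.  So
`∑ r, C (a r ^ p - χ_0 χ_(r+1) a r) * f_(r+1) ^ p = 0`.  `F` is finite, so perfect: `a r ^ p - χ_0 χ_(r+1) a r = (b r) ^ p`
(`frobenius` is bijective on a finite field) and `(∑ r, C (b r) * f_(r+1)) ^ p = 0`, so `∑ r, C (b r) * f_(r+1) = 0`.  Apply
`d^[l]`: `∑ r, C (b r) * d^[l] f_(r+1) = 0` for all `l`; as the determinant is not zero (`PowerSeries F` is a
domain; `Matrix.exists_mulVec_eq_zero_iff` needs a domain), all `C (b r) = 0`.  For `r = 0`: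
`a 0 ^ p = χ_0 χ_1 a 0 = - a 0` (as `χ_0 χ_1 = (lam 0 * lam 1) ^ ((p - 1) / 2) = -1`), so `(a 0) ^ (p - 1) = -1`.
But `(a 0) ^ (p ^ f - 1) = 1` (`Nat.card F = p ^ f`), and `(p ^ f - 1) / (p - 1) = 1 + p + ... + p ^ (f - 1)` is odd
(`f` odd, `p` odd), so `1 = (-1) ^ odd = -1` in `F`, contradiction to `p ≠ 2`.
-/

set_option autoImplicit false

namespace UD0

private theorem iter_sum {F : Type*} [Field F] {ι : Type*} (s : Finset ι) (k : ℕ) (a : ι → F) :
    ∀ g : ι → PowerSeries F, (PowerSeries.derivative F)^[k] (∑ r ∈ s, PowerSeries.C (a r) * g r) =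
      ∑ r ∈ s, PowerSeries.C (a r) * (PowerSeries.derivative F)^[k] (g r) := by
  induction k with
  | zero => intro g; rfl
  | succ k ih =>
    intro g
    have h1 : ∀ r, PowerSeries.derivative F (PowerSeries.C (a r) * g r) =
        PowerSeries.C (a r) * PowerSeries.derivative F (g r) := by
      intro r
      rw [← PowerSeries.smul_eq_C_mul, ← PowerSeries.smul_eq_C_mul, Derivation.map_smul]
    simp only [Function.iterate_succ_apply]
    rw [map_sum, Finset.sum_congr rfl fun r _ => h1 r, ih]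

private theorem charP_ps (F : Type*) [Field F] (p : ℕ) [CharP F p] : CharP (PowerSeries F) p :=
  charP_of_injective_ringHom (PowerSeries.C_injective (R := F)) p

theorem no_rel {F : Type*} [Field F] [Finite F] (p : ℕ) [Fact p.Prime] [CharP F p]
    (hp3 : p % 3 = 1) {f : ℕ} (hcard : Nat.card F = p ^ f) (hf : Odd f) {m : ℕ}
    (lam : Fin (m + 2) → F) (hlam : ∀ i, lam i ^ ((p - 1) / 2) = 1 ∨ lam i ^ ((p - 1) / 2) = -1)
    (h01 : (lam 0 * lam 1) ^ ((p - 1) / 2) = -1) (x y w : Fin (m + 2) → PowerSeries F)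
    (hE : ∀ i, PowerSeries.C (lam i) * y i ^ 2 = x i ^ 3 + 1) (hw : ∀ i, y i * w i = 1)
    (a : Fin (m + 1) → F) (ha : a 0 ≠ 0)
    (hrel : PowerSeries.derivative F (x 0) * w 0 =
      ∑ r, PowerSeries.C (a r) * (PowerSeries.derivative F (x r.succ) * w r.succ))
    (hdet : (Matrix.of fun l r : Fin (m + 1) => (PowerSeries.derivative F)^[(l : ℕ)]
      (PowerSeries.derivative F (x r.succ) * w r.succ)).det ≠ 0) : False := by
  have hpp : p.Prime := Fact.out
  have hp2 : p ≠ 2 := by
    rintro rfl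
    norm_num at hp3
  have hodd : Odd p := hpp.odd_of_ne_two hp2
  have := charP_ps F p
  set χ : Fin (m + 2) → F := fun i => lam i ^ ((p - 1) / 2) with hχ
  have hχ2 : ∀ i, χ i * χ i = 1 := by
    intro i
    rcases hlam i with h | h
    · simp only [hχ, h, mul_one]
    · simp only [hχ, h, mul_neg, mul_one, neg_neg]
  set A : F := ((Nat.choose ((p - 1) / 2) ((p - 1) / 3) : ℕ) : F) with hA
  have hA0 : A ≠ 0 := choose_ne_zero p
  set g : Fin (m + 2) → PowerSeries F := fun i => PowerSeries.derivative F (x i) * w i with hg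
  have heig : ∀ i, (PowerSeries.derivative F)^[p - 1] (g i) =
      - PowerSeries.C (A * χ i) * g i ^ p := by
    intro i
    have h := eig_id p hp3 (hE i) (hw i)
    have h2 : PowerSeries.C (χ i) * (PowerSeries.derivative F)^[p - 1] (g i) =
        - PowerSeries.C A * g i ^ p := h
    calc (PowerSeries.derivative F)^[p - 1] (g i)
        = PowerSeries.C (χ i * χ i) * (PowerSeries.derivative F)^[p - 1] (g i) := by
          rw [hχ2, map_one, one_mul]
      _ = PowerSeries.C (χ i) * (PowerSeries.C (χ i) *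
          (PowerSeries.derivative F)^[p - 1] (g i)) := by
          rw [map_mul, mul_assoc]
      _ = PowerSeries.C (χ i) * (- PowerSeries.C A * g i ^ p) := by rw [h2]
      _ = - PowerSeries.C (A * χ i) * g i ^ p := by
          rw [map_mul]
          ring
  have hrel' : g 0 = ∑ r : Fin (m + 1), PowerSeries.C (a r) * g r.succ := hrel
  have h1 : - PowerSeries.C (A * χ 0) * g 0 ^ p =
      ∑ r : Fin (m + 1), PowerSeries.C (a r) * (- PowerSeries.C (A * χ r.succ) * g r.succ ^ p) := by
    rw [← heig 0]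
    nth_rewrite 1 [hrel']
    rw [iter_sum]
    exact Finset.sum_congr rfl fun r _ => by rw [heig]
  have h2 : g 0 ^ p = ∑ r : Fin (m + 1), PowerSeries.C (χ 0 * χ r.succ * a r) * g r.succ ^ p := by
    have e1 : PowerSeries.C (A⁻¹ * χ 0) * (PowerSeries.C (A * χ 0) * g 0 ^ p) = g 0 ^ p := by
      rw [← mul_assoc, ← map_mul, show A⁻¹ * χ 0 * (A * χ 0) = (A⁻¹ * A) * (χ 0 * χ 0) by ring,
        inv_mul_cancel₀ hA0, hχ2, mul_one, map_one, one_mul]
    have e2 : PowerSeries.C (A * χ 0) * g 0 ^ p =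
        ∑ r : Fin (m + 1), PowerSeries.C (a r) * (PowerSeries.C (A * χ r.succ) * g r.succ ^ p) := by
      have := congrArg Neg.neg h1
      rw [← Finset.sum_neg_distrib] at this
      calc PowerSeries.C (A * χ 0) * g 0 ^ p = -(- PowerSeries.C (A * χ 0) * g 0 ^ p) := by ring
        _ = _ := this
        _ = _ := Finset.sum_congr rfl fun r _ => by ring
    rw [← e1, e2, Finset.mul_sum]
    refine Finset.sum_congr rfl fun r _ => ?_
    rw [← mul_assoc, ← mul_assoc, ← map_mul, ← map_mul]
    congr 2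
    calc A⁻¹ * χ 0 * a r * (A * χ r.succ) = (A⁻¹ * A) * (χ 0 * χ r.succ * a r) := by ring
      _ = _ := by rw [inv_mul_cancel₀ hA0, one_mul]
  have h3 : g 0 ^ p = ∑ r : Fin (m + 1), PowerSeries.C (a r ^ p) * g r.succ ^ p := by
    rw [hrel', sum_pow_char p]
    exact Finset.sum_congr rfl fun r _ => by rw [mul_pow, map_pow]
  have hfrob : ∀ c : F, ∃ b : F, b ^ p = c := by
    intro c
    have hs : Function.Surjective (frobenius F p) :=
      Finite.injective_iff_surjective.mp (frobenius_inj F p)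
    obtain ⟨b, hb⟩ := hs c
    exact ⟨b, by rwa [frobenius_def] at hb⟩
  choose b hb using fun r : Fin (m + 1) => hfrob (a r ^ p - χ 0 * χ r.succ * a r)
  have h4 : ∑ r : Fin (m + 1), PowerSeries.C (b r) * g r.succ = 0 := by
    have : (∑ r : Fin (m + 1), PowerSeries.C (b r) * g r.succ) ^ p = 0 := by
      rw [sum_pow_char p]
      have : ∀ r : Fin (m + 1), (PowerSeries.C (b r) * g r.succ) ^ p =
          PowerSeries.C (a r ^ p) * g r.succ ^ p -
            PowerSeries.C (χ 0 * χ r.succ * a r) * g r.succ ^ p := by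
        intro r
        rw [mul_pow, ← map_pow, hb r, map_sub, sub_mul]
      rw [Finset.sum_congr rfl fun r _ => this r, Finset.sum_sub_distrib, ← h2, ← h3, sub_self]
    exact (pow_eq_zero_iff hpp.ne_zero).mp this
  have h5 : (fun r : Fin (m + 1) => PowerSeries.C (b r)) = 0 := by
    refine Matrix.eq_zero_of_mulVec_eq_zero hdet ?_
    ext1 l
    have : (PowerSeries.derivative F)^[(l : ℕ)]
        (∑ r : Fin (m + 1), PowerSeries.C (b r) * g r.succ) = 0 := by
      rw [h4]
      exact Function.iterate_fixed (map_zero _) _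
    rw [iter_sum] at this
    simp only [Matrix.mulVec, dotProduct, Matrix.of_apply, Pi.zero_apply]
    rw [← this]
    exact Finset.sum_congr rfl fun r _ => mul_comm _ _
  have h6 : b 0 = 0 := by
    have := congrFun h5 0
    simp only [Pi.zero_apply] at this
    exact PowerSeries.C_injective (by rw [this, map_zero])
  have h7 : a 0 ^ p = - a 0 := by
    have h := hb 0
    rw [h6, zero_pow hpp.ne_zero] at h
    have h8 : χ 0 * χ (Fin.succ 0) = -1 := by
      rw [← h01, mul_pow]
      rfl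
    rw [h8] at h
    linear_combination -h
  have h8 : ∀ k : ℕ, a 0 ^ p ^ k = (-1) ^ k * a 0 := by
    intro k
    induction k with
    | zero => simp
    | succ k ih =>
      rw [pow_succ, pow_mul, ih, mul_pow, h7, ← pow_mul, mul_comm k p, pow_mul, hodd.neg_one_pow,
        pow_succ]
      ring
  have h9 : a 0 ^ p ^ f = a 0 := by
    have := Fintype.ofFinite F
    rw [← hcard, Nat.card_eq_fintype_card]
    exact FiniteField.pow_card (a 0)
  rw [h8, hf.neg_one_pow] at h9
  have h10 : (2 : F) * a 0 = 0 := by linear_combination -h9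
  rcases mul_eq_zero.mp h10 with h | h
  · have h11 : ((2 : ℕ) : F) = 0 := by exact_mod_cast h
    rw [CharP.cast_eq_zero_iff F p] at h11
    exact hp2 ((Nat.prime_dvd_prime_iff_eq hpp Nat.prime_two).mp h11)
  · exact ha h

end UD0
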