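import Pool.Agent.UD0.PfD
import Pool.Agent.UDV.PiVal
import Pool.Agent.UDV.DegVal

/-!
# UD0 section PF0, PfA: the places of the field of rational functions exist

PROOF.  As in the first part of the proof of `UDV.exists_bpf_gen` (`Pool/Agent/UDV/BPFa.lean`), with
`ZMod p` replaced by `ℚ`: local instance
`StrongNormalizationMonoid (MvPolynomial (Fin d) ℚ) := UniqueFactorizationMonoid.strongNormalizationMonoid`,
`ι = {π // Irreducible π ∧ normalize π = π}`, `π i = i.1`; `vp` from `UDV.exists_piVal` (choice), `vd`
from `UDV.exists_degVal`.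
`inj`: `π i ∣ π j` for irreducible elements means associated (`Irreducible.associated_of_dvd`), so
`normalize` of both are equal (`normalize_eq_normalize_iff_associated`).
`surj`: for a prime `q` take `normalize q`, which is irreducible (`(associated_normalize q).irreducible`),
`normalize_idem`, and divides `q` (`normalize_dvd_iff`).
-/

open Polynomial WithZero

namespace UD0

theorem exists_ratPl (d : ℕ) (F : Type) [Field F] [Algebra (MvPolynomial (Fin d) ℚ) F]
    [IsFractionRing (MvPolynomial (Fin d) ℚ) F] : Nonempty (RatPl d F) := by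
  classical
  let _ : StrongNormalizationMonoid (MvPolynomial (Fin d) ℚ) :=
    UniqueFactorizationMonoid.strongNormalizationMonoid
  obtain ⟨vd, hvd⟩ := UDV.exists_degVal (k := ℚ) (σ := Fin d) (F := F)
  have hprime : ∀ π : {π : MvPolynomial (Fin d) ℚ // Irreducible π ∧ normalize π = π},
      Prime π.1 := fun π => UniqueFactorizationMonoid.irreducible_iff_prime.1 π.2.1
  have hpi : ∀ π : {π : MvPolynomial (Fin d) ℚ // Irreducible π ∧ normalize π = π},
      ∃ v : Valuation F ℤᵐ⁰,
        v (algebraMap _ _ π.1) = exp (-1 : ℤ) ∧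
        ∀ f : MvPolynomial (Fin d) ℚ, ¬ π.1 ∣ f → v (algebraMap _ _ f) = 1 :=
    fun π => UDV.exists_piVal (hprime π)
  choose vp hvp1 hvp2 using hpi
  refine ⟨{
    ι := {π : MvPolynomial (Fin d) ℚ // Irreducible π ∧ normalize π = π}
    π := fun i => i.1
    prime := hprime
    inj := ?_
    surj := ?_
    vp := vp
    vp1 := hvp1
    vp2 := hvp2
    vd := vd
    hvd := hvd }⟩
  · intro i j h
    have hass : Associated i.1 j.1 := i.2.1.associated_of_dvd j.2.1 h
    have h1 := normalize_eq_normalize_iff_associated.2 hass
    rw [i.2.2, j.2.2] at h1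
    exact Subtype.ext h1
  · intro q hq
    exact ⟨⟨normalize q, (associated_normalize q).irreducible hq.irreducible, normalize_idem q⟩,
      normalize_dvd_iff.2 dvd_rfl⟩

end UD0
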