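import Pool.Agent.UD0.PfD
import Pool.Agent.UDV.BPFa

/-!
# UD0 section PF0, PfB: finiteness and product formula for the field of rational functions

PROOF.  As in `UDV.exists_bpf_gen` (`Pool/Agent/UDV/BPFa.lean`, the parts `hunit`, `hdegpos`, `hassdeg`, `key`,
`keyx`; `UDV.bpf_mul` and `UDV.bpf_inv` are general and can be used as they are).
`w_pos`: an irreducible polynomial is not a constant, so its total degree is positive
(`MvPolynomial.totalDegree_eq_zero_iff_eq_C`).
`prod`: for polynomials by `UniqueFactorizationMonoid.induction_on_prime`: units are constants, all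
values are `1`.  A prime `q`: let `i` be the index with `π i ∣ q` (`P.surj`); `q = π i * u` with a
unit `u` (both irreducible), so `vp i q = exp (-1)`; for `i' ≠ i`, `π i' ∣ q` would give
`π i' ∣ π i` (`q` is associated to `π i`), so `i' = i` by `P.inj`; hence `vp i' q = 1`;
`vd q = exp (totalDegree q)` and `totalDegree q = totalDegree (π i)`.  For quotients use
`UDV.bpf_inv`.
-/

open Polynomial WithZero

namespace UD0

namespace RatPl

variable {d : ℕ} {F : Type} [Field F] [Algebra (MvPolynomial (Fin d) ℚ) F] (P : RatPl d F)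

omit [Algebra (MvPolynomial (Fin d) ℚ) F] [Field F] in
private theorem unit_deg (f : MvPolynomial (Fin d) ℚ) (hf : IsUnit f) : f.totalDegree = 0 := by
  obtain ⟨g, hg⟩ := hf.exists_right_inv
  have hf0 : f ≠ 0 := hf.ne_zero
  have hg0 : g ≠ 0 := by
    rintro rfl
    simp at hg
  have := MvPolynomial.totalDegree_mul_of_isDomain hf0 hg0
  rw [hg, MvPolynomial.totalDegree_one] at this
  omega

private theorem irr_deg (f : MvPolynomial (Fin d) ℚ) (hf : Irreducible f) : 0 < f.totalDegree := by
  rcases Nat.eq_zero_or_pos f.totalDegree with h | h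
  · exfalso
    rw [MvPolynomial.totalDegree_eq_zero_iff_eq_C] at h
    have h0 : f.coeff 0 ≠ 0 := by
      intro h0
      rw [h0, MvPolynomial.C_0] at h
      exact hf.ne_zero h
    apply hf.not_isUnit
    rw [h]
    exact (isUnit_iff_ne_zero.2 h0).map MvPolynomial.C
  · exact h

theorem w_pos (j : Option P.ι) : 0 < P.w j := by
  rcases j with _ | i
  · exact Nat.one_pos
  · exact irr_deg _ (P.prime i).irreducible

private theorem alg_ne [IsFractionRing (MvPolynomial (Fin d) ℚ) F] (f : MvPolynomial (Fin d) ℚ)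
    (hf : f ≠ 0) : algebraMap _ F f ≠ 0 := by
  intro h
  exact hf ((IsFractionRing.injective (MvPolynomial (Fin d) ℚ) F) (by rw [h, map_zero]))

private theorem prod_unit (u : MvPolynomial (Fin d) ℚ) (hu : IsUnit u) :
    {j | P.val j (algebraMap _ F u) ≠ 1}.Finite ∧
      ∑ᶠ j, (P.w j : ℤ) * log (P.val j (algebraMap _ F u)) = 0 := by
  have h1 : ∀ j, P.val j (algebraMap _ F u) = 1 := by
    rintro (_ | i)
    · change P.vd _ = 1
      rw [P.hvd u hu.ne_zero, unit_deg u hu]
      simp
    · change P.vp i _ = 1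
      apply P.vp2
      intro h
      exact (P.prime i).not_isUnit (isUnit_of_dvd_unit h hu)
  refine ⟨?_, ?_⟩
  · have : {j | P.val j (algebraMap _ F u) ≠ 1} = ∅ := by
      ext j
      simp [h1 j]
    rw [this]
    exact Set.finite_empty
  · have : (fun j => (P.w j : ℤ) * log (P.val j (algebraMap _ F u))) = fun _ => 0 := by
      funext j
      rw [h1 j, log_one, mul_zero]
    rw [this, finsum_zero]

private theorem prod_prime (q : MvPolynomial (Fin d) ℚ) (hq : Prime q) :
    {j | P.val j (algebraMap _ F q) ≠ 1}.Finite ∧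
      ∑ᶠ j, (P.w j : ℤ) * log (P.val j (algebraMap _ F q)) = 0 := by
  classical
  obtain ⟨i₀, hi₀⟩ := P.surj q hq
  have hass : Associated (P.π i₀) q := (P.prime i₀).irreducible.associated_of_dvd hq.irreducible hi₀
  obtain ⟨u, hu⟩ := hass
  have h0 : P.val (some i₀) (algebraMap _ F q) = exp (-1 : ℤ) := by
    change P.vp i₀ _ = _
    rw [← hu, map_mul, map_mul, P.vp1 i₀, P.vp2 i₀ u, mul_one]
    intro h
    exact (P.prime i₀).not_isUnit (isUnit_of_dvd_unit h u.isUnit)
  have h1 : P.val none (algebraMap _ F q) = exp (q.totalDegree : ℤ) := P.hvd q hq.ne_zero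
  have h2 : ∀ i, i ≠ i₀ → P.val (some i) (algebraMap _ F q) = 1 := by
    intro i hi
    change P.vp i _ = 1
    apply P.vp2
    intro h
    apply hi
    apply P.inj
    rw [← hu] at h
    rcases (P.prime i).dvd_or_dvd h with h | h
    · exact h
    · exact absurd (isUnit_of_dvd_unit h u.isUnit) (P.prime i).not_isUnit
  have hsub : ∀ j, j ∉ ({some i₀, none} : Finset (Option P.ι)) →
      P.val j (algebraMap _ F q) = 1 := by
    rintro (_ | i) hj
    · simp at hj
    · apply h2
      rintro rfl
      simp at hj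
  refine ⟨(Finset.finite_toSet ({some i₀, none} : Finset (Option P.ι))).subset ?_, ?_⟩
  · intro j hj
    by_contra h
    exact hj (hsub j (by simpa using h))
  · rw [finsum_eq_sum_of_support_subset (s := {some i₀, none})]
    · rw [Finset.sum_pair (by simp), h0, h1, log_exp, log_exp]
      have h3 : (P.w (some i₀) : ℤ) = q.totalDegree := by
        change (((P.π i₀).totalDegree : ℕ) : ℤ) = _
        rw [← hu, MvPolynomial.totalDegree_mul_of_isDomain (P.prime i₀).ne_zero u.ne_zero,
          unit_deg _ u.isUnit, add_zero]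
      have h4 : (P.w none : ℤ) = 1 := rfl
      rw [h3, h4]
      ring
    · intro j hj
      by_contra h
      apply hj
      change (P.w j : ℤ) * log (P.val j (algebraMap _ F q)) = 0
      rw [hsub j (by simpa using h), log_one, mul_zero]

private theorem prod_pol [IsFractionRing (MvPolynomial (Fin d) ℚ) F]
    (f : MvPolynomial (Fin d) ℚ) (hf : f ≠ 0) :
    {j | P.val j (algebraMap _ F f) ≠ 1}.Finite ∧
      ∑ᶠ j, (P.w j : ℤ) * log (P.val j (algebraMap _ F f)) = 0 := by
  induction f using UniqueFactorizationMonoid.induction_on_prime with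
  | h₁ => exact absurd rfl hf
  | h₂ u hu => exact P.prod_unit u hu
  | h₃ a q ha hq ih =>
    rw [map_mul]
    exact UDV.bpf_mul P.w P.val (alg_ne q hq.ne_zero) (alg_ne a ha) (P.prod_prime q hq) (ih ha)

theorem prod [IsFractionRing (MvPolynomial (Fin d) ℚ) F] {x : F} (hx : x ≠ 0) :
    {j | P.val j x ≠ 1}.Finite ∧ ∑ᶠ j, (P.w j : ℤ) * log (P.val j x) = 0 := by
  obtain ⟨a, b, hb, rfl⟩ := IsFractionRing.div_surjective (A := MvPolynomial (Fin d) ℚ) x
  have hb0 : b ≠ 0 := nonZeroDivisors.ne_zero hb
  have ha0 : a ≠ 0 := by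
    rintro rfl
    exact hx (by rw [map_zero, zero_div])
  rw [div_eq_mul_inv]
  exact UDV.bpf_mul P.w P.val (alg_ne a ha0) (inv_ne_zero (alg_ne b hb0)) (P.prod_pol a ha0)
    (UDV.bpf_inv P.w P.val (P.prod_pol b hb0))

end RatPl

end UD0
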