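import Pool.Agent.UD0.PfD
import Pool.Agent.UDV.PiVal

/-!
# UD0 section PF0, PfC: integrality in the field of rational functions

PROOF.  See the parts `unif` and `const` of `UDV.exists_bpf_gen` (`Pool/Agent/UDV/BPFa.lean`).
`unif`: for `some i` the element `π i`, for `none` the inverse of `X ⟨0, hd⟩` (`totalDegree_X`).
`poly`: `x = f / g` with `f`, `g` relatively prime (`IsFractionRing.exists_reduced_fraction`).  If `g`
is not a unit take an irreducible factor `q` of `g` and `i` with `π i ∣ q` (`P.surj`;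
`UniqueFactorizationMonoid.irreducible_iff_prime`): `π i ∣ g`, so `π i` does not divide `f`
(`π i` is not a unit), `vp i f = 1` and `vp i g < 1` (`g = π i * g'`, `vp i (π i) = exp (-1)`, and
`vp i g' ≤ 1` by `UDV.piVal_int`), so `vp i x > 1`, a contradiction.  So `g` is a unit and
`x = algebraMap (f * g⁻¹)`.
`const`: by `poly`, `x = algebraMap f`; if `f ≠ 0` then `vd x = exp (totalDegree f) ≤ 1`, so
`totalDegree f = 0` and `f = C c` (`MvPolynomial.totalDegree_eq_zero_iff_eq_C`);
`algebraMap (C c) = (c : F)` because all ring homomorphisms from `ℚ` to `F` are equal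
(`map_ratCast` for the ring homomorphism `(algebraMap _ F).comp C`).
`rat`: `(q : F) = algebraMap (C q)`; for `none` the total degree of `C q` is `0`; for `some i`
use `UDV.piVal_int`.
-/

open Polynomial WithZero

namespace UD0

namespace RatPl

variable {d : ℕ} {F : Type} [Field F] [Algebra (MvPolynomial (Fin d) ℚ) F] (P : RatPl d F)

theorem unif [IsFractionRing (MvPolynomial (Fin d) ℚ) F] (hd : 0 < d) (j : Option P.ι) :
    ∃ ϖ, P.val j ϖ = exp (-1 : ℤ) := by
  rcases j with _ | i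
  · refine ⟨(algebraMap (MvPolynomial (Fin d) ℚ) F (MvPolynomial.X ⟨0, hd⟩))⁻¹, ?_⟩
    rw [val_none, map_inv₀, P.hvd _ (MvPolynomial.X_ne_zero _), MvPolynomial.totalDegree_X,
      ← exp_neg]
    simp
  · exact ⟨_, P.vp1 i⟩

private theorem inj0 [IsFractionRing (MvPolynomial (Fin d) ℚ) F] {f : MvPolynomial (Fin d) ℚ}
    (hf : f ≠ 0) : algebraMap (MvPolynomial (Fin d) ℚ) F f ≠ 0 := by
  intro h
  exact hf ((IsFractionRing.injective (MvPolynomial (Fin d) ℚ) F) (by rw [h, map_zero]))

theorem poly [IsFractionRing (MvPolynomial (Fin d) ℚ) F] {x : F} (hx : ∀ i, P.vp i x ≤ 1) :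
    ∃ f, x = algebraMap (MvPolynomial (Fin d) ℚ) F f := by
  obtain ⟨f, g, hfg, rfl⟩ := IsFractionRing.exists_reduced_fraction
    (A := MvPolynomial (Fin d) ℚ) x
  have hg0 : (g : MvPolynomial (Fin d) ℚ) ≠ 0 := nonZeroDivisors.ne_zero g.2
  rw [IsFractionRing.mk'_eq_div] at hx ⊢
  have hgu : IsUnit (g : MvPolynomial (Fin d) ℚ) := by
    by_contra hgu
    obtain ⟨q, hq, hqg⟩ := WfDvdMonoid.exists_irreducible_factor hgu hg0
    obtain ⟨i, hi⟩ := P.surj q (UniqueFactorizationMonoid.irreducible_iff_prime.1 hq)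
    have hπg : P.π i ∣ (g : MvPolynomial (Fin d) ℚ) := hi.trans hqg
    have hπf : ¬ P.π i ∣ f := fun h => (P.prime i).not_isUnit (hfg h hπg)
    have h1 := hx i
    rw [map_div₀, P.vp2 i f hπf] at h1
    obtain ⟨g', hg'⟩ := hπg
    have h2 : P.vp i (algebraMap _ _ (g : MvPolynomial (Fin d) ℚ)) < 1 := by
      rw [hg', map_mul, map_mul, P.vp1 i]
      calc exp (-1 : ℤ) * P.vp i (algebraMap _ _ g') ≤ exp (-1 : ℤ) * 1 := by
            gcongr
            exact UDV.piVal_int (P.prime i) (P.vp1 i) (P.vp2 i) g'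
        _ = exp (-1 : ℤ) := mul_one _
        _ < 1 := by
            rw [← exp_zero]
            exact exp_lt_exp.2 (by norm_num)
    have h3 : P.vp i (algebraMap _ _ (g : MvPolynomial (Fin d) ℚ)) ≠ 0 :=
      (Valuation.ne_zero_iff _).2 (inj0 hg0)
    have h4 : 1 ≤ P.vp i (algebraMap _ _ (g : MvPolynomial (Fin d) ℚ)) := by
      rw [div_le_iff₀ (zero_lt_iff.2 h3), one_mul] at h1
      exact h1
    exact absurd h2 (not_lt.2 h4)
  obtain ⟨g', hg'⟩ := hgu.exists_right_inv
  refine ⟨f * g', ?_⟩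
  rw [div_eq_iff (inj0 hg0), ← map_mul, mul_assoc, mul_comm g', hg', mul_one]

private theorem algC [CharZero F] (q : ℚ) :
    algebraMap (MvPolynomial (Fin d) ℚ) F (MvPolynomial.C q) = (q : F) := by
  have h := map_ratCast ((algebraMap (MvPolynomial (Fin d) ℚ) F).comp MvPolynomial.C) q
  rw [RingHom.comp_apply, Rat.cast_id] at h
  exact h

theorem const [CharZero F] [IsFractionRing (MvPolynomial (Fin d) ℚ) F] {x : F}
    (hx : ∀ j, P.val j x ≤ 1) : ∃ q : ℚ, x = q := by
  obtain ⟨f, rfl⟩ := P.poly fun i => hx (some i)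
  by_cases hf : f = 0
  · exact ⟨0, by rw [hf, map_zero, Rat.cast_zero]⟩
  · have h1 := hx none
    rw [val_none, P.hvd f hf, ← exp_zero, exp_le_exp] at h1
    have h2 : f.totalDegree = 0 := by omega
    rw [MvPolynomial.totalDegree_eq_zero_iff_eq_C] at h2
    exact ⟨f.coeff 0, by rw [h2, MvPolynomial.coeff_zero_C, algC]⟩

theorem rat [CharZero F] [IsFractionRing (MvPolynomial (Fin d) ℚ) F] (j : Option P.ι) (q : ℚ) :
    P.val j (q : F) ≤ 1 := by
  rw [← algC (d := d) q]
  rcases j with _ | i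
  · by_cases hq : q = 0
    · rw [hq, map_zero, map_zero, map_zero]
      exact zero_le
    · have h1 : (MvPolynomial.C q : MvPolynomial (Fin d) ℚ) ≠ 0 := by
        intro h
        exact hq (MvPolynomial.C_eq_zero.1 h)
      rw [val_none, P.hvd _ h1, MvPolynomial.totalDegree_C]
      simp
  · exact UDV.piVal_int (P.prime i) (P.vp1 i) (P.vp2 i) _

end RatPl

end UD0
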