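import Pool.Agent.UD0.AlgF
import Pool.Agent.UDV.BaseB

/-!
# UD0 section PF0: definitions for the construction of product formula fields, characteristic zero
(architect helper60).  Complete file, nothing to prove.

`BPF0 d F`: a base field with a product formula, `d` derivations without correction terms, whose
constants are the rational numbers.
`RatPl d F`: the places of the field `F` of rational functions in `d` variables over the rational
numbers (the primes of the polynomial ring and the total degree).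
-/

open Polynomial WithZero

namespace UD0

universe u

/-- A base field with a product formula and derivations without correction terms. -/
structure BPF0 (d : ℕ) (F : Type) [Field F] [CharZero F] where
  J : Type
  w : J → ℕ
  w_pos : ∀ j, 0 < w j
  val : J → Valuation F ℤᵐ⁰
  unif : ∀ j, ∃ ϖ, val j ϖ = exp (-1 : ℤ)
  fin : ∀ {x : F}, x ≠ 0 → {j | val j x ≠ 1}.Finite
  prod : ∀ {x : F}, x ≠ 0 → ∑ᶠ j, (w j : ℤ) * log (val j x) = 0
  rat : ∀ j (q : ℚ), val j (q : F) ≤ 1
  const : ∀ {x : F}, (∀ j, val j x ≤ 1) → ∃ q : ℚ, x = q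
  D : Fin d → Derivation ℤ F F
  D_int : ∀ j i x, val j x ≤ 1 → val j (D i x) ≤ 1
  D_const : ∀ x, (∀ i, D i x = 0) → ∃ q : ℚ, x = q
  findim : ∀ m : J → ℕ, {j | m j ≠ 0}.Finite → ∃ V : Submodule ℚ F, FiniteDimensional ℚ V ∧
    ∀ x, (∀ j, val j x ≤ exp (m j : ℤ)) → x ∈ V

/-- The structure of the positive characteristic project, with `p = 1` (so its last clauses are
empty); used to quote `UDV.gal_fin_le`, `UDV.gal_fin`, `UDV.gal_prod`. -/
def BPF0.toB {d : ℕ} {F : Type} [Field F] [CharZero F] (B : BPF0 d F) : UDV.BPF 1 F where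
  J := B.J
  w := B.w
  w_pos := B.w_pos
  val := B.val
  unif := B.unif
  fin := B.fin
  prod := B.prod
  const := fun {x} _ => pow_one x
  d := d
  D := B.D
  D_int := B.D_int
  D_sep := fun x _ => ⟨x, pow_one x⟩

/-- The places of the field `F` of rational functions. -/
structure RatPl (d : ℕ) (F : Type) [Field F] [Algebra (MvPolynomial (Fin d) ℚ) F] where
  ι : Type
  π : ι → MvPolynomial (Fin d) ℚ
  prime : ∀ i, Prime (π i)
  inj : ∀ i j, π i ∣ π j → i = j
  surj : ∀ q, Prime q → ∃ i, π i ∣ q
  vp : ι → Valuation F ℤᵐ⁰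
  vp1 : ∀ i, vp i (algebraMap (MvPolynomial (Fin d) ℚ) F (π i)) = exp (-1 : ℤ)
  vp2 : ∀ i f, ¬ π i ∣ f → vp i (algebraMap (MvPolynomial (Fin d) ℚ) F f) = 1
  vd : Valuation F ℤᵐ⁰
  hvd : ∀ f, f ≠ 0 → vd (algebraMap (MvPolynomial (Fin d) ℚ) F f) = exp (f.totalDegree : ℤ)

namespace RatPl

variable {d : ℕ} {F : Type} [Field F] [Algebra (MvPolynomial (Fin d) ℚ) F] (P : RatPl d F)

/-- all valuations -/
def val : Option P.ι → Valuation F ℤᵐ⁰ := fun j => j.elim P.vd P.vp

/-- the weights -/
noncomputable def w : Option P.ι → ℕ := fun j => j.elim 1 fun i => (P.π i).totalDegree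

@[simp] theorem val_none : P.val none = P.vd := rfl
@[simp] theorem val_some (i : P.ι) : P.val (some i) = P.vp i := rfl
@[simp] theorem w_none : P.w none = 1 := rfl
@[simp] theorem w_some (i : P.ι) : P.w (some i) = (P.π i).totalDegree := rfl

end RatPl

/-- a root of a monic polynomial with rational coefficients is algebraic -/
theorem alg_of_coeff {F : Type} {L : Type u} [Field F] [CharZero F] [Field L] [Algebra F L]
    {x : L} {q : F[X]} (hq : q.Monic) (hc : ∀ n, ∃ r : ℚ, q.coeff n = r) (h0 : aeval x q = 0) :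
    Alg x := by
  have : CharZero L := charZero_of_injective_algebraMap (algebraMap F L).injective
  have hl : q ∈ Polynomial.lifts (algebraMap ℚ F) := by
    rw [Polynomial.lifts_iff_coeff_lifts]
    intro n
    obtain ⟨r, hr⟩ := hc n
    exact ⟨r, by rw [hr]; rfl⟩
  obtain ⟨q', hq', -, hm⟩ := Polynomial.lifts_and_degree_eq_and_monic hl hq
  rw [alg_iff_rat]
  refine ⟨q', hm.ne_zero, ?_⟩
  rw [← hq', aeval_map_algebraMap] at h0
  exact h0

end UD0
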