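import Pool.Agent.UD0.PfD
import Pool.Agent.UDV.PiVal
import Pool.Agent.UDV.DegVal

/-!
# UD0 section PF0, PfE: the derivations of the field of rational functions

PROOF of `der_int`.  For `none`: `UDV.degVal_der`.  For `some j`: as in the part `D_int` of
`UDV.exists_bpf_gen` (`Pool/Agent/UDV/BPFa.lean`): `x = f / g`, `π ∤ g` (`UDV.piVal_le_one`),
`D x * g ^ 2 = g * D f - f * D g` is the image of a polynomial, so `vp (D x) ≤ 1` (`UDV.piVal_int`).

PROOF of `deg_pderiv_lt`: every exponent in the support of `pderiv i f` is `m - e_i` for an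
exponent `m` of `f` with `m i > 0` (`MvPolynomial.coeff_pderiv`: its coefficient at `m'` is
`coeff (m' + e_i) f * (m' i + 1)`), compare `UDV.totalDegree_pderiv_le`.

PROOF of `der_const_base`.  `x = f / g` with `f`, `g` relatively prime
(`IsFractionRing.exists_reduced_fraction`), `g ≠ 0`.  `D i x = 0` gives `g * D f = f * D g`, so
`g * pderiv i f = f * pderiv i g` (injectivity of `algebraMap`).  As `f`, `g` are relatively prime,
`g ∣ pderiv i g` (`IsRelPrime.dvd_of_dvd_mul_left` or similar) and `f ∣ pderiv i f`.  If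
`pderiv i g ≠ 0` then `totalDegree g ≤ totalDegree (pderiv i g)`
(`MvPolynomial.totalDegree_mul_of_isDomain`), contradicting `deg_pderiv_lt`; so `pderiv i g = 0`
for all `i`, and in the same way `pderiv i f = 0`.  A polynomial `h` with all `pderiv i h = 0`
is a constant: if `m ≠ 0` is in its support, `m i > 0`, then the coefficient of `pderiv i h` at
`m - e_i` is `m i * coeff m h ≠ 0` (`ℚ` has characteristic `0`); so the support is contained in `{0}`.
So `f = C a`, `g = C b`, `b ≠ 0` and `x = a / b` (images of rational numbers: all ring homomorphisms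
`ℚ →+* F` are equal, `map_ratCast`).
-/

open Polynomial WithZero

namespace UD0

variable {d : ℕ} {F : Type} [Field F] [Algebra (MvPolynomial (Fin d) ℚ) F]

private theorem der_div_59 (D : Derivation ℤ F F) {A G : F} (hG : G ≠ 0) :
    D (A / G) = (D A * G - A * D G) / (G * G) := by
  have e1 : D A = D (A / G) * G + (A / G) * D G := by
    conv_lhs => rw [show A = (A / G) * G by field_simp]
    rw [Derivation.leibniz]
    simp only [smul_eq_mul]
    ring
  rw [e1]
  field_simp
  ring

theorem RatPl.der_int [IsFractionRing (MvPolynomial (Fin d) ℚ) F] (P : RatPl d F)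
    (D : Derivation ℤ F F) (i : Fin d)
    (hD : ∀ f, D (algebraMap (MvPolynomial (Fin d) ℚ) F f) =
      algebraMap (MvPolynomial (Fin d) ℚ) F (MvPolynomial.pderiv i f)) (j : Option P.ι) {x : F}
    (hx : P.val j x ≤ 1) : P.val j (D x) ≤ 1 := by
  have hinj : ∀ g : MvPolynomial (Fin d) ℚ, g ≠ 0 →
      algebraMap (MvPolynomial (Fin d) ℚ) F g ≠ 0 := by
    intro g hg h
    exact hg (IsFractionRing.injective (MvPolynomial (Fin d) ℚ) F (by rw [h, map_zero]))
  rcases j with _ | π
  · exact UDV.degVal_der P.hvd i D hD hx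
  · change P.vp π _ ≤ 1
    change P.vp π _ ≤ 1 at hx
    obtain ⟨f, g, hg, rfl⟩ := UDV.piVal_le_one (P.prime π) (P.vp1 π) (P.vp2 π) hx
    have hg0 : g ≠ 0 := by
      rintro rfl
      exact hg (dvd_zero _)
    rw [der_div_59 D (hinj g hg0), hD, hD, ← map_mul, ← map_mul, ← map_sub, ← map_mul, map_div₀,
      P.vp2 π (g * g), div_one]
    · exact UDV.piVal_int (P.prime π) (P.vp1 π) (P.vp2 π) _
    · intro h
      rcases (P.prime π).dvd_or_dvd h with h | h <;> exact hg h

theorem deg_pderiv_lt (i : Fin d) (f : MvPolynomial (Fin d) ℚ)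
    (h : MvPolynomial.pderiv i f ≠ 0) :
    (MvPolynomial.pderiv i f).totalDegree < f.totalDegree := by
  classical
  have key : ∀ m ∈ (MvPolynomial.pderiv i f).support,
      (m.sum fun _ e => e) < f.totalDegree := by
    intro m hm
    rw [MvPolynomial.mem_support_iff, MvPolynomial.coeff_pderiv] at hm
    have h1 : m + Finsupp.single i 1 ∈ f.support := by
      rw [MvPolynomial.mem_support_iff]
      exact left_ne_zero_of_mul hm
    refine lt_of_lt_of_le ?_ (MvPolynomial.le_totalDegree h1)
    rw [Finsupp.sum_add_index' (fun _ => rfl) (fun _ _ _ => rfl)]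
    rw [Finsupp.sum_single_index rfl]
    exact Nat.lt_succ_self _
  obtain ⟨m, hm⟩ : (MvPolynomial.pderiv i f).support.Nonempty :=
    MvPolynomial.support_nonempty.2 h
  have hpos : 0 < f.totalDegree := lt_of_le_of_lt (Nat.zero_le _) (key m hm)
  unfold MvPolynomial.totalDegree at hpos key ⊢
  rw [Finset.sup_lt_iff (by simpa using hpos)]
  exact key

private theorem const_of_pderiv_59 (h : MvPolynomial (Fin d) ℚ)
    (hh : ∀ i, MvPolynomial.pderiv i h = 0) : ∃ a : ℚ, h = MvPolynomial.C a := by
  classical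
  refine ⟨MvPolynomial.coeff 0 h, ?_⟩
  ext m
  rw [MvPolynomial.coeff_C]
  split_ifs with hm
  · rw [← hm]
  · by_contra hne
    have hm' : m ≠ 0 := fun h0 => hm h0.symm
    obtain ⟨i, hi⟩ : ∃ i, m i ≠ 0 := by
      by_contra hcon
      push Not at hcon
      exact hm' (Finsupp.ext hcon)
    have h1 := congrArg (MvPolynomial.coeff (m - Finsupp.single i 1)) (hh i)
    rw [MvPolynomial.coeff_pderiv, MvPolynomial.coeff_zero] at h1
    have h2 : m - Finsupp.single i 1 + Finsupp.single i 1 = m := by
      ext j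
      simp only [Finsupp.coe_add, Finsupp.coe_tsub, Pi.add_apply, Pi.sub_apply]
      by_cases hj : j = i
      · subst hj
        simp only [Finsupp.single_eq_same]
        omega
      · rw [Finsupp.single_eq_of_ne hj]
        omega
    rw [h2] at h1
    rcases mul_eq_zero.1 h1 with h3 | h3
    · exact hne h3
    · exact (Nat.cast_add_one_ne_zero (R := ℚ) _) h3

private theorem pderiv_zero_59 {f g : MvPolynomial (Fin d) ℚ} (hg0 : g ≠ 0)
    (hfg : IsRelPrime g f) {i : Fin d}
    (h : g * MvPolynomial.pderiv i f = f * MvPolynomial.pderiv i g) :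
    MvPolynomial.pderiv i g = 0 := by
  by_contra hne
  have h1 : g ∣ f * MvPolynomial.pderiv i g := ⟨_, h.symm⟩
  have h2 : g ∣ MvPolynomial.pderiv i g := hfg.dvd_of_dvd_mul_left h1
  obtain ⟨q, hq⟩ := h2
  have hq0 : q ≠ 0 := by
    rintro rfl
    exact hne (by rw [hq, mul_zero])
  have h3 := deg_pderiv_lt i g hne
  rw [hq, MvPolynomial.totalDegree_mul_of_isDomain hg0 hq0] at h3
  omega

theorem der_const_base [CharZero F] [IsFractionRing (MvPolynomial (Fin d) ℚ) F]
    (D : Fin d → Derivation ℤ F F)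
    (hD : ∀ i f, D i (algebraMap (MvPolynomial (Fin d) ℚ) F f) =
      algebraMap (MvPolynomial (Fin d) ℚ) F (MvPolynomial.pderiv i f)) (x : F)
    (hx : ∀ i, D i x = 0) : ∃ q : ℚ, x = q := by
  have hinj := IsFractionRing.injective (MvPolynomial (Fin d) ℚ) F
  obtain ⟨f, g, hfg, rfl⟩ := IsFractionRing.exists_reduced_fraction
    (A := MvPolynomial (Fin d) ℚ) x
  have hg0 : (g : MvPolynomial (Fin d) ℚ) ≠ 0 := nonZeroDivisors.ne_zero g.2
  rw [IsFractionRing.mk'_eq_div] at hx ⊢
  have hG : algebraMap (MvPolynomial (Fin d) ℚ) F (g : MvPolynomial (Fin d) ℚ) ≠ 0 := by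
    intro h
    exact hg0 (hinj (by rw [h, map_zero]))
  have hmul : ∀ i, (g : MvPolynomial (Fin d) ℚ) * MvPolynomial.pderiv i f =
      f * MvPolynomial.pderiv i (g : MvPolynomial (Fin d) ℚ) := by
    intro i
    have h1 := hx i
    rw [der_div_59 (D i) hG, hD, hD, ← map_mul, ← map_mul, ← map_sub, div_eq_zero_iff] at h1
    rcases h1 with h1 | h1
    · have h2 : MvPolynomial.pderiv i f * (g : MvPolynomial (Fin d) ℚ) -
          f * MvPolynomial.pderiv i (g : MvPolynomial (Fin d) ℚ) = 0 :=
        hinj (by rw [h1, map_zero])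
      rw [mul_comm]
      exact sub_eq_zero.1 h2
    · exact absurd h1 (mul_ne_zero hG hG)
  obtain ⟨b, hb⟩ := const_of_pderiv_59 (g : MvPolynomial (Fin d) ℚ) fun i =>
    pderiv_zero_59 hg0 hfg.symm (hmul i)
  obtain ⟨a, ha⟩ : ∃ a : ℚ, f = MvPolynomial.C a := by
    by_cases hf0 : f = 0
    · exact ⟨0, by rw [hf0, map_zero]⟩
    · exact const_of_pderiv_59 f fun i => pderiv_zero_59 hf0 hfg (hmul i).symm
  refine ⟨a / b, ?_⟩
  have hC : ∀ r : ℚ, algebraMap (MvPolynomial (Fin d) ℚ) F (MvPolynomial.C r) = (r : F) := by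
    intro r
    exact eq_ratCast ((algebraMap (MvPolynomial (Fin d) ℚ) F).comp MvPolynomial.C) r
  rw [ha, hb, hC, hC]
  push_cast
  rfl

end UD0
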