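import Pool.Agent.UD0.PfC

/-!
# UD0 section PF0, PfF: rational functions with bounded poles form a finite dimensional space

PROOF.  Let `T` be the finite set of the `i : P.ι` with `m (some i) ≠ 0` and
`h = ∏ i ∈ T, π i ^ m (some i)`, a nonzero polynomial; `hF = algebraMap h ≠ 0`.
For `x` with `val j x ≤ exp (m j)` for all `j`: for `i ∈ T`,
`vp i h = exp (- m (some i))` (the other factors are not divisible by `π i`, by `P.inj` and
`P.prime`, so they have value `1` by `P.vp2`, `P.vp1` for the factor `π i`), so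
`vp i (x * hF) ≤ 1`; for `i ∉ T` `vp i x ≤ exp 0 = 1` and `vp i hF ≤ 1` (`UDV.piVal_int`).
So `x * hF = algebraMap f` for a polynomial `f` (`P.poly`), and if `f ≠ 0`,
`exp (totalDegree f) = vd (x * hF) ≤ exp (m none + totalDegree h)`, so
`totalDegree f ≤ N := m none + totalDegree h`, i.e. `f ∈ MvPolynomial.restrictTotalDegree (Fin d) ℚ N`
(`MvPolynomial.mem_restrictTotalDegree`), a finitely generated `ℚ`-module (instance in
`Mathlib.RingTheory.MvPolynomial.Basic`).
`V` = the image of this submodule under the additive map `f ↦ algebraMap f / hF`, which is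
`ℚ`-linear (`AddMonoidHom.toRatLinearMap`, or directly; all `ℚ`-module structures on a group are
equal); the image of a finite dimensional space is finite dimensional.
-/

open Polynomial WithZero

namespace UD0

theorem RatPl.findim {d : ℕ} {F : Type} [Field F] [CharZero F]
    [Algebra (MvPolynomial (Fin d) ℚ) F] [IsFractionRing (MvPolynomial (Fin d) ℚ) F]
    (P : RatPl d F) (m : Option P.ι → ℕ) (hm : {j | m j ≠ 0}.Finite) :
    ∃ V : Submodule ℚ F, FiniteDimensional ℚ V ∧
      ∀ x, (∀ j, P.val j x ≤ exp (m j : ℤ)) → x ∈ V := by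
  classical
  have hT : {i : P.ι | m (some i) ≠ 0}.Finite := hm.preimage (Option.some_injective _).injOn
  let h : MvPolynomial (Fin d) ℚ := ∏ i ∈ hT.toFinset, P.π i ^ m (some i)
  have hh : h ≠ 0 := Finset.prod_ne_zero_iff.2 fun i _ => pow_ne_zero _ (P.prime i).ne_zero
  have hinj : Function.Injective (algebraMap (MvPolynomial (Fin d) ℚ) F) :=
    IsFractionRing.injective (MvPolynomial (Fin d) ℚ) F
  have hF : algebraMap (MvPolynomial (Fin d) ℚ) F h ≠ 0 := fun e => hh (hinj (by rw [e, map_zero]))
  have hv : ∀ i, P.vp i (algebraMap (MvPolynomial (Fin d) ℚ) F h) = exp (-(m (some i) : ℤ)) := by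
    intro i
    have e1 : P.vp i (algebraMap (MvPolynomial (Fin d) ℚ) F h) =
        ∏ j ∈ hT.toFinset,
          (P.vp i (algebraMap (MvPolynomial (Fin d) ℚ) F (P.π j))) ^ m (some j) := by
      simp only [h, map_prod, map_pow]
    rw [e1, Finset.prod_eq_single i]
    · rw [P.vp1, ← exp_nsmul]
      congr 1
      simp
    · intro j _ hji
      rw [P.vp2 i (P.π j) (fun hd => hji (P.inj i j hd).symm), one_pow]
    · intro hi
      have h0 : m (some i) = 0 := by
        by_contra hne
        exact hi (hT.mem_toFinset.2 hne)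
      rw [h0, pow_zero]
  let φ : MvPolynomial (Fin d) ℚ →ₗ[ℚ] F := AddMonoidHom.toRatLinearMap
    ((AddMonoidHom.mulRight (algebraMap (MvPolynomial (Fin d) ℚ) F h)⁻¹).comp
      (algebraMap (MvPolynomial (Fin d) ℚ) F).toAddMonoidHom)
  have hφ : ∀ f, φ f = algebraMap (MvPolynomial (Fin d) ℚ) F f *
      (algebraMap (MvPolynomial (Fin d) ℚ) F h)⁻¹ := fun f => rfl
  refine ⟨(MvPolynomial.restrictTotalDegree (Fin d) ℚ (m none + h.totalDegree)).map φ,
    inferInstance, ?_⟩
  intro x hx
  obtain ⟨f, hf⟩ := P.poly (x := x * algebraMap (MvPolynomial (Fin d) ℚ) F h) (by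
    intro i
    rw [map_mul, hv i]
    have h1 := hx (some i)
    rw [RatPl.val_some] at h1
    calc P.vp i x * exp (-(m (some i) : ℤ)) ≤ exp (m (some i) : ℤ) * exp (-(m (some i) : ℤ)) :=
          mul_le_mul_left h1 _
      _ = 1 := by rw [← exp_add, add_neg_cancel, exp_zero])
  refine ⟨f, ?_, ?_⟩
  · rw [SetLike.mem_coe, MvPolynomial.mem_restrictTotalDegree]
    by_cases hf0 : f = 0
    · rw [hf0, MvPolynomial.totalDegree_zero]
      exact Nat.zero_le _
    · have h1 := P.hvd f hf0
      rw [← hf, map_mul, P.hvd h hh] at h1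
      have h2 := hx none
      rw [RatPl.val_none] at h2
      have h3 : exp (f.totalDegree : ℤ) ≤ exp ((m none : ℤ) + (h.totalDegree : ℤ)) := by
        rw [← h1, exp_add]
        exact mul_le_mul_left h2 _
      rw [exp_le_exp] at h3
      omega
  · rw [hφ, ← hf, mul_assoc, mul_inv_cancel₀ hF, mul_one]

end UD0
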