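import Pool.Agent.UD0.PfD
import Pool.Agent.UDV.GalA

/-!
# UD0 section PF0, PfG: constants of a Galois extension

Setting: `B : BPF0 d F`, `L / F` finite Galois, `w j` a valuation of `L` over `B.val j`.

PROOF of `gal_const0` (see `UDV.gal_const` in `Pool/Agent/UDV/GalA.lean` and `UDV.gal_coeff`): all
coefficients `c` of `minpoly F x` satisfy `w j (algebraMap c) ≤ 1` (the minimal polynomial is the
product of `X - y` over conjugates `y = σ x` of `x`), so `B.val j c ^ e j ≤ 1`, `B.val j c ≤ 1` for
all `j`, and `c` is rational by `B.const`.  So `x` is algebraic over the rational numbers by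
`alg_of_coeff` applied to `minpoly F x`.

PROOF of `gal_const1`: it is enough to show `w j y ≤ 1` for every algebraic `y` (apply it to
`σ x` and to `(σ x)⁻¹`, which are algebraic: `Alg.map`, `Alg.inv` in `AlgF.lean`).  Let `f` be a
nonzero integral polynomial with root `y` and `a` its leading coefficient.  The polynomial
`C (a⁻¹ : F) * f.map (Int.castRingHom F)` is monic, its coefficients are rational numbers, so they
have `B.val j ≤ 1` (`B.rat`), and `y` is a root: `IntV (B.val j) y`, so `w j y ≤ 1` by `ExtOK.int`.
-/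

open Polynomial WithZero

namespace UD0

universe u

variable {d : ℕ} {F : Type} [Field F] [CharZero F] (B : BPF0 d F) {L : Type u} [Field L]
  [Algebra F L] [FiniteDimensional F L] [IsGalois F L] {w : B.J → Valuation L ℤᵐ⁰} {e : B.J → ℕ}

theorem gal_const0 (hw : ∀ j, UDV.ExtOK (B.val j) (w j) (e j)) {x : L}
    (hx : ∀ j (σ : L ≃ₐ[F] L), w j (σ x) = 1) : Alg x := by
  classical
  have hint : IsIntegral F x := Algebra.IsIntegral.isIntegral x
  have hc : ∀ n, ∃ r : ℚ, (minpoly F x).coeff n = r := by
    intro n
    refine B.const fun j => ?_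
    have hsp : ((minpoly F x).map (algebraMap F L)).Splits := Normal.splits inferInstance x
    have hmon : ((minpoly F x).map (algebraMap F L)).Monic := (minpoly.monic hint).map _
    have hprod : (minpoly F x).map (algebraMap F L) =
        (((minpoly F x).map (algebraMap F L)).roots.map fun y => X - C y).prod := by
      have := hsp.eq_prod_roots
      rw [hmon.leadingCoeff, C_1, one_mul] at this
      exact this
    have hle : w j (algebraMap F L ((minpoly F x).coeff n)) ≤ 1 := by
      rw [← coeff_map, hprod]
      refine UDV.gal_coeff (w j) _ (fun y hy => ?_) n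
      have hy0 : aeval y (minpoly F x) = 0 := by
        rw [mem_roots hmon.ne_zero, IsRoot.def, eval_map_algebraMap] at hy
        exact hy
      obtain ⟨σ, hσ⟩ := minpoly.exists_algEquiv_of_root hint.isAlgebraic hy0
      have hy' : y = σ.symm x := by rw [← hσ, AlgEquiv.symm_apply_apply]
      rw [hy']
      exact le_of_eq (hx j σ.symm)
    rw [(hw j).map] at hle
    exact (pow_le_one_iff (hw j).pos.ne').1 hle
  exact alg_of_coeff (minpoly.monic hint) hc (minpoly.aeval F x)

private theorem gal_le (hw : ∀ j, UDV.ExtOK (B.val j) (w j) (e j)) {y : L} (hy : Alg y)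
    (j : B.J) : w j y ≤ 1 := by
  have hL : CharZero L := charZero_of_injective_algebraMap (algebraMap F L).injective
  obtain ⟨f, hf, hf0⟩ := hy
  have hlc : (f.leadingCoeff : F) ≠ 0 := by
    exact_mod_cast leadingCoeff_ne_zero.2 hf
  have hlc2 : (f.map (Int.castRingHom F)).leadingCoeff = (f.leadingCoeff : F) := by
    rw [leadingCoeff_map_of_injective (Int.cast_injective (α := F))]
    rfl
  refine (hw j).int y ⟨C ((f.leadingCoeff : F)⁻¹) * f.map (Int.castRingHom F), ?_, fun n => ?_, ?_⟩
  · rw [Monic, leadingCoeff_mul, leadingCoeff_C, hlc2, inv_mul_cancel₀ hlc]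
  · rw [coeff_C_mul, coeff_map]
    have h1 : (f.leadingCoeff : F)⁻¹ * (Int.castRingHom F) (f.coeff n) =
        (((f.leadingCoeff : ℚ)⁻¹ * (f.coeff n : ℚ) : ℚ) : F) := by
      push_cast
      rfl
    rw [h1]
    exact B.rat j _
  · rw [map_mul]
    have h2 : aeval y (f.map (Int.castRingHom F)) = 0 := by
      rw [aeval_def, eval₂_map, ← hf0, aeval_def]
      congr 1
      exact RingHom.ext_int _ _
    rw [h2, mul_zero]

theorem gal_const1 (hw : ∀ j, UDV.ExtOK (B.val j) (w j) (e j)) {x : L} (hx0 : x ≠ 0)
    (hx : Alg x) (j : B.J) (σ : L ≃ₐ[F] L) : w j (σ x) = 1 := by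
  have hL : CharZero L := charZero_of_injective_algebraMap (algebraMap F L).injective
  have h1 : Alg (σ x) := hx.map (σ : L →+* L)
  have h2 := gal_le B hw h1 j
  have h3 := gal_le B hw h1.inv j
  have h0 : w j (σ x) ≠ 0 := (w j).ne_zero_iff.2 (by simpa using hx0)
  refine le_antisymm h2 ?_
  rw [map_inv₀, inv_le_one₀ (zero_lt_iff.2 h0)] at h3
  exact h3

end UD0
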