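import Pool.Agent.UD0.PfD

/-!
# UD0 section PF0, PfH: elements killed by all derivations are algebraic

PROOF.  Let `q = minpoly F x`, monic of degree `n > 0` (`F` has characteristic `0`, `L / F` algebraic).
For a polynomial `g : F[X]` let `g^D = ∑ k, monomial k (D i (g.coeff k))`.  Then
`δ i (aeval x g) = aeval x g^D + aeval x (derivative g) * δ i x` (linear in `g`; for a monomial by
the Leibniz rule and `hδ`).  For `g = q` and `δ i x = 0`: `0 = aeval x q^D`.  As `q` is monic,
`D i 1 = 0`, so `q^D` has degree `< n`; by minimality `q^D = 0`, i.e. `D i (q.coeff k) = 0` for all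
`k` and all `i` (see the part `hD` of the proof of `UDV.sep_ext` in `Pool/Agent/UDV/SepExt.lean`).  So
all coefficients of `q` are rational by `hF` and `x` is algebraic by `alg_of_coeff`.
-/

open Polynomial

namespace UD0

universe u

theorem der_const0 {F : Type} {L : Type u} [Field F] [CharZero F] [Field L] [Algebra F L]
    [Algebra.IsAlgebraic F L] {ι : Type*} (D : ι → Derivation ℤ F F)
    (δ : ι → Derivation ℤ L L) (hδ : ∀ i x, δ i (algebraMap F L x) = algebraMap F L (D i x))
    (hF : ∀ x : F, (∀ i, D i x = 0) → ∃ q : ℚ, x = q) (x : L) (hx : ∀ i, δ i x = 0) : Alg x := by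
  have hint : IsIntegral F x := Algebra.IsIntegral.isIntegral x
  have hm : (minpoly F x).Monic := minpoly.monic hint
  set q := minpoly F x with hq
  set n := q.natDegree with hn
  have hdy : ∀ i k, δ i (x ^ k) = 0 := by
    intro i k
    rw [Derivation.leibniz_pow, hx i, smul_zero, smul_zero]
  have hD : ∀ i k, D i (q.coeff k) = 0 := by
    intro i
    have h1 : D i (q.coeff n) = 0 := by
      rw [hn, coeff_natDegree, hm.leadingCoeff]
      exact Derivation.map_one_eq_zero _
    set g' : F[X] := ∑ k ∈ Finset.range (n + 1), monomial k (D i (q.coeff k)) with hg'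
    have hcoeff : ∀ j, g'.coeff j = if j < n + 1 then D i (q.coeff j) else 0 := by
      intro j
      rw [hg', finsetSum_coeff]
      simp only [coeff_monomial]
      rw [Finset.sum_ite_eq' (Finset.range (n + 1)) j (fun k => D i (q.coeff k))]
      simp only [Finset.mem_range]
    have hroot : aeval x g' = 0 := by
      have h2 : δ i (aeval x q) = ∑ k ∈ Finset.range (n + 1),
          algebraMap F L (D i (q.coeff k)) * x ^ k := by
        conv_lhs => rw [aeval_eq_sum_range' (Nat.lt_succ_self q.natDegree)]
        rw [map_sum]
        refine Finset.sum_congr rfl fun k _ => ?_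
        rw [Algebra.smul_def, Derivation.leibniz, hdy i k, smul_zero, zero_add, hδ, smul_eq_mul,
          mul_comm]
      rw [hq, minpoly.aeval, map_zero, ← hq] at h2
      rw [hg', map_sum, h2]
      refine Finset.sum_congr rfl fun k _ => ?_
      rw [aeval_monomial]
    have hz : g' = 0 := by
      by_contra hne
      have h2 := minpoly.degree_le_of_ne_zero F x hne hroot
      have h3 : g'.degree < n := by
        rw [degree_lt_iff_coeff_zero]
        intro j hj
        have hj' : n ≤ j := by exact_mod_cast hj
        rw [hcoeff]
        rcases Nat.eq_or_lt_of_le hj' with h4 | h4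
        · rw [← h4, h1, ite_self]
        · rw [if_neg (by omega)]
      rw [← hq, degree_eq_natDegree hm.ne_zero, ← hn] at h2
      exact absurd (lt_of_le_of_lt h2 h3) (lt_irrefl _)
    intro k
    by_cases hk : k < n + 1
    · have h2 := hcoeff k
      rw [hz, coeff_zero, if_pos hk] at h2
      exact h2.symm
    · rw [coeff_eq_zero_of_natDegree_lt (by omega), map_zero]
  exact alg_of_coeff hm (fun k => hF (q.coeff k) (fun i => hD i k)) (minpoly.aeval F x)

end UD0
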