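import Pool.Agent.UD0.PfD
import Pool.Agent.UDV.GalA

/-!
# UD0 section PF0, PfI: bounded pole spaces of a Galois extension are finite dimensional

PROOF.  Let `b : Basis (Fin N) F L` (`Module.finBasis F L`).  All `b k ≠ 0`.  Define `M : B.J → ℕ` by
`M j = ∑ k, ∑ σ, (m (j, σ) + (log (w j (σ (b k)))).toNat)` (any bound works; `Fintype` structure on
`L ≃ₐ[F] L` is available for finite dimensional extensions).  `{j | M j ≠ 0}` is finite: it is
contained in the union of the finite set of the `j` with some `m (j, σ) ≠ 0` (image of a finite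
set under `Prod.fst`) and of the sets `{j | ∃ σ, w j (σ (b k)) ≠ 1}` (`UDV.gal_fin B.toB hw`).
Let `W ⊆ F` be the finite dimensional `ℚ`-space `B.findim M`.
If `y` satisfies `w j (σ y) ≤ exp (m (j, σ))` for all `j`, `σ`, then
`w j (σ (y * b k)) ≤ exp (M j)` for all `j σ k` (`w` of a nonzero element `z` is at most
`exp (log (w z)).toNat`), so `w j (algebraMap (trace (y * b k))) ≤ exp (M j)`
(`trace_eq_sum_automorphisms`, the valuation of a sum is at most the maximum), hence
`B.val j (trace (y * b k)) ^ e j ≤ exp (M j)` (`ExtOK.map`) and so `B.val j (trace (y * b k)) ≤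
exp (M j)` (`e j > 0`: if a value `v` is `≤ 1` clear, else `v ≤ v ^ e`).  So
`trace (y * b k) ∈ W` for all `k`.
The additive map `T : L → (Fin N → F)`, `T y k = trace (y * b k)`, is injective: the trace form is
nondegenerate (`traceForm_nondegenerate F L`; `F` has characteristic `0` so `L / F` is separable):
if `trace (y * b k) = 0` for all `k` then `trace (y * z) = 0` for all `z` and `y = 0`.
Suppose `f : Fin n → L` has bounded poles and is linearly independent over `ℤ`, then also over `ℚ`
(`LinearIndependent.iff_fractionRing ℤ ℚ`), and so is `T ∘ f` (`T` is `ℚ`-linear,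
`AddMonoidHom.toRatLinearMap`, injective: `LinearIndependent.map'`), a family in the finite
dimensional space `Fin N → W` (or in the submodule `Submodule.pi Set.univ fun _ => W`), so
`n ≤ finrank` of it.  Take `n := N * finrank ℚ W + 1`.
-/

open Polynomial WithZero

namespace UD0

universe u

theorem gal_findim {d : ℕ} {F : Type} [Field F] [CharZero F] (B : BPF0 d F) {L : Type u}
    [Field L] [Algebra F L] [FiniteDimensional F L] [IsGalois F L]
    {w : B.J → Valuation L ℤᵐ⁰} {e : B.J → ℕ}
    (hw : ∀ j, UDV.ExtOK (B.val j) (w j) (e j)) (m : B.J × (L ≃ₐ[F] L) → ℕ)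
    (hm : {P | m P ≠ 0}.Finite) : ∃ n : ℕ, ∀ f : Fin n → L,
      (∀ i j (σ : L ≃ₐ[F] L), w j (σ (f i)) ≤ exp (m (j, σ) : ℤ)) →
        ¬ LinearIndependent ℤ f := by
  classical
  let b := Module.finBasis F L
  have hb0 : ∀ k, b k ≠ 0 := fun k => b.ne_zero k
  let M : B.J → ℕ := fun j => ∑ k, ∑ σ : L ≃ₐ[F] L, (m (j, σ) + (log (w j (σ (b k)))).toNat)
  have hMfin : {j | M j ≠ 0}.Finite := by
    refine ((hm.image Prod.fst).union (Set.finite_iUnion fun k =>
      UDV.gal_fin B.toB hw (hb0 k))).subset fun j hj => ?_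
    by_contra hc
    refine hj ?_
    rw [Set.mem_union, not_or] at hc
    obtain ⟨h1, h2⟩ := hc
    refine Finset.sum_eq_zero fun k _ => Finset.sum_eq_zero fun σ _ => ?_
    have h3 : m (j, σ) = 0 := by
      by_contra h
      exact h1 ⟨(j, σ), h, rfl⟩
    have h4 : w j (σ (b k)) = 1 := by
      by_contra h
      exact h2 (Set.mem_iUnion.2 ⟨k, σ, h⟩)
    rw [h3, h4, log_one]
    rfl
  obtain ⟨W, hWfin, hW⟩ := B.findim M hMfin
  -- the traces of a bounded element are in `W`
  have key : ∀ y : L, (∀ j (σ : L ≃ₐ[F] L), w j (σ y) ≤ exp (m (j, σ) : ℤ)) →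
      ∀ k, Algebra.trace F L (y * b k) ∈ W := by
    intro y hy k
    refine hW _ fun j => ?_
    have h1 : ∀ σ : L ≃ₐ[F] L, w j (σ (y * b k)) ≤ exp (M j : ℤ) := by
      intro σ
      have h0 : w j (σ (b k)) ≠ 0 := (w j).ne_zero_iff.2 (by simpa using hb0 k)
      have h2 : w j (σ (b k)) ≤ exp ((log (w j (σ (b k)))).toNat : ℤ) := by
        conv_lhs => rw [← exp_log h0]
        rw [exp_le_exp]
        exact Int.self_le_toNat _
      rw [map_mul, map_mul]
      refine (mul_le_mul' (hy j σ) h2).trans ?_
      rw [← exp_add, exp_le_exp]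
      have h3 : m (j, σ) + (log (w j (σ (b k)))).toNat ≤ M j := by
        refine (Finset.single_le_sum (f := fun σ : L ≃ₐ[F] L =>
          m (j, σ) + (log (w j (σ (b k)))).toNat) (fun _ _ => Nat.zero_le _)
          (Finset.mem_univ σ)).trans ?_
        exact Finset.single_le_sum (f := fun k => ∑ σ : L ≃ₐ[F] L,
          (m (j, σ) + (log (w j (σ (b k)))).toNat)) (fun _ _ => Nat.zero_le _)
          (Finset.mem_univ k)
      exact_mod_cast h3
    have h2 : w j (algebraMap F L (Algebra.trace F L (y * b k))) ≤ exp (M j : ℤ) := by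
      rw [trace_eq_sum_automorphisms]
      exact (w j).map_sum_le fun σ _ => h1 σ
    rw [(hw j).map] at h2
    have h1e : (1 : ℤᵐ⁰) ≤ exp (M j : ℤ) := by
      rw [← exp_zero, exp_le_exp]
      exact Int.natCast_nonneg _
    rcases le_or_gt (B.val j (Algebra.trace F L (y * b k))) 1 with h3 | h3
    · exact h3.trans h1e
    · exact (le_self_pow₀ h3.le (hw j).pos.ne').trans h2
  -- injectivity of the trace map
  have inj : ∀ y : L, (∀ k, Algebra.trace F L (y * b k) = 0) → y = 0 := by
    intro y hy
    by_contra hy0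
    have h1 : Algebra.traceForm F L y = 0 := b.ext fun k => by
      rw [Algebra.traceForm_apply]
      exact hy k
    have h2 := (traceForm_nondegenerate F L)
    exact hy0 (h2.1 y fun z => by rw [h1]; rfl)
  refine ⟨Module.finrank ℚ (Fin (Module.finrank F L) → W) + 1, fun f hf hli => ?_⟩
  let g : Fin (Module.finrank ℚ (Fin (Module.finrank F L) → W) + 1) →
      (Fin (Module.finrank F L) → W) :=
    fun i k => ⟨Algebra.trace F L (f i * b k), key (f i) (fun j σ => hf i j σ) k⟩
  have hg : LinearIndependent ℤ g := by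
    rw [Fintype.linearIndependent_iff]
    intro a ha
    rw [Fintype.linearIndependent_iff] at hli
    refine hli a (inj _ fun k => ?_)
    have h1 := congrArg Subtype.val (congrFun ha k)
    simp only [Finset.sum_apply, Pi.smul_apply, Submodule.coe_sum, Submodule.coe_smul_of_tower,
      Pi.zero_apply, ZeroMemClass.coe_zero] at h1
    rw [Finset.sum_mul, map_sum, ← h1]
    refine Finset.sum_congr rfl fun i _ => ?_
    rw [smul_mul_assoc, map_zsmul]
  have hgQ : LinearIndependent ℚ g := (LinearIndependent.iff_fractionRing ℤ ℚ).1 hg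
  have h1 := hgQ.fintype_card_le_finrank
  rw [Fintype.card_fin] at h1
  omega

end UD0
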