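import Pool.Agent.UD0.PfD

/-!
# UD0 section PF0, PfK: a presented field is a finite extension of a field of rational functions

PROOF.
`of_inj`: `AdjoinRoot.of P.G` is injective because `P.G` is monic and irreducible, so its degree is
positive: if `of f = 0` then `P.G ∣ C f`, so `C f = 0` by degrees
(`AdjoinRoot.of.injective_of_degree_ne_zero` if it exists; `Polynomial.Monic.natDegree_pos`...).
`algInd`: the ring homomorphism `P.φ.comp (AdjoinRoot.of P.G)` is injective and equals
`MvPolynomial.aeval P.t` (both send `X i` to `P.t i`, `MvPolynomial.ringHom_ext` and uniqueness of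
homomorphisms from `ℤ`), which is the definition of `AlgebraicIndependent ℤ P.t`.
`charZero`: `ℤ → MvPolynomial (Fin d) ℤ → P.R → K` is injective.
`algIndQ`: `AlgebraicIndependent.extendScalars ℚ` (`ℚ` is algebraic over `ℤ`).
`fin_ext`: let `R = MvPolynomial (Fin P.d) ℚ`, `F` its field of fractions, `h : aeval P.t` is injective
on `R` (`algIndQ`).  Let `K` be an `F`-algebra through `IsFractionRing.lift` (the given
`Algebra F K` is compatible by `hF`).  `θ = P.φ (AdjoinRoot.root P.G)` is integral over `F`: it is a root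
of the monic polynomial `P.G` mapped to `F[X]` along `MvPolynomial.map (Int.castRingHom ℚ)` and
`algebraMap R F` (apply `P.φ` to `AdjoinRoot.eval₂_root`).  `F⟮θ⟯ = ⊤`: by `P.surj` every `x : K` is
`P.φ a / P.φ b`, and every `P.φ a` lies in `F⟮θ⟯` (`AdjoinRoot.induction_on` or `AdjoinRoot.mk_surjective`:
`P.φ (mk g) = ∑ (image of g.coeff k in F) * θ ^ k`).  So `K / F` is finite dimensional
(`IntermediateField.adjoin.finiteDimensional`, `IntermediateField.topEquiv`).
-/

open Polynomial

namespace UD0

universe u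

namespace Pres

variable {K : Type u} [Field K] (P : Pres K)

private theorem deg_ne : P.G.degree ≠ 0 := by
  intro h
  have h1 : P.G.natDegree = 0 := natDegree_eq_of_degree_eq_some h
  have h2 := (Polynomial.Monic.natDegree_eq_zero P.monic).1 h1
  exact P.irr.not_isUnit (by rw [h2]; exact isUnit_one)

theorem of_inj : Function.Injective (AdjoinRoot.of P.G) :=
  AdjoinRoot.of.injective_of_degree_ne_zero P.deg_ne

theorem phi_of (f : MvPolynomial (Fin P.d) ℤ) :
    P.φ (AdjoinRoot.of P.G f) = MvPolynomial.aeval P.t f := by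
  have h : P.φ.comp (AdjoinRoot.of P.G) =
      ((MvPolynomial.aeval P.t : MvPolynomial (Fin P.d) ℤ →ₐ[ℤ] K) : _ →+* K) := by
    refine MvPolynomial.ringHom_ext (fun r => ?_) fun i => ?_
    · have e : ((P.φ.comp (AdjoinRoot.of P.G)).comp MvPolynomial.C) =
          (((MvPolynomial.aeval P.t : MvPolynomial (Fin P.d) ℤ →ₐ[ℤ] K) :
            MvPolynomial (Fin P.d) ℤ →+* K)).comp MvPolynomial.C := RingHom.ext_int _ _
      exact RingHom.congr_fun e r
    · change P.φ (P.tR i) = MvPolynomial.aeval P.t (MvPolynomial.X i)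
      rw [MvPolynomial.aeval_X]
      rfl
  exact RingHom.congr_fun h f

theorem algInd : AlgebraicIndependent ℤ P.t := by
  rw [algebraicIndependent_iff_injective_aeval]
  intro f g h
  rw [← P.phi_of, ← P.phi_of] at h
  exact P.of_inj (P.inj h)

include P in
theorem charZero : CharZero K := by
  have h : Function.Injective ((P.φ.comp (AdjoinRoot.of P.G)).comp
      (MvPolynomial.C : ℤ →+* MvPolynomial (Fin P.d) ℤ)) :=
    (P.inj.comp P.of_inj).comp (MvPolynomial.C_injective _ _)
  exact charZero_of_injective_ringHom h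

theorem algIndQ [CharZero K] : AlgebraicIndependent ℚ P.t := by
  have : Algebra.IsAlgebraic ℤ ℚ := IsLocalization.isAlgebraic ℚ (nonZeroDivisors ℤ)
  exact P.algInd.extendScalars ℚ

private theorem aeval_map_int [CharZero K] (f : MvPolynomial (Fin P.d) ℤ) :
    MvPolynomial.aeval P.t (MvPolynomial.map (Int.castRingHom ℚ) f) = P.φ (AdjoinRoot.of P.G f) := by
  rw [P.phi_of, MvPolynomial.aeval_def, MvPolynomial.aeval_def, MvPolynomial.eval₂_map]
  congr 1
  exact RingHom.ext_int _ _

theorem fin_ext [CharZero K] (F : Type) [Field F] [Algebra (MvPolynomial (Fin P.d) ℚ) F]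
    [IsFractionRing (MvPolynomial (Fin P.d) ℚ) F] [Algebra F K]
    (hF : ∀ f : MvPolynomial (Fin P.d) ℚ,
      algebraMap F K (algebraMap (MvPolynomial (Fin P.d) ℚ) F f) = MvPolynomial.aeval P.t f) :
    FiniteDimensional F K := by
  set ψ : MvPolynomial (Fin P.d) ℤ →+* F :=
    (algebraMap (MvPolynomial (Fin P.d) ℚ) F).comp (MvPolynomial.map (Int.castRingHom ℚ)) with hψ
  have hψφ : (algebraMap F K).comp ψ = P.φ.comp (AdjoinRoot.of P.G) := by
    refine RingHom.ext fun f => ?_
    change algebraMap F K (algebraMap (MvPolynomial (Fin P.d) ℚ) F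
      (MvPolynomial.map (Int.castRingHom ℚ) f)) = P.φ (AdjoinRoot.of P.G f)
    rw [hF, P.aeval_map_int]
  set θ : K := P.φ (AdjoinRoot.root P.G) with hθ
  have hmk : ∀ p : (MvPolynomial (Fin P.d) ℤ)[X], P.φ (AdjoinRoot.mk P.G p) =
      eval₂ (P.φ.comp (AdjoinRoot.of P.G)) θ p := by
    intro p
    have h1 : P.φ.comp (AdjoinRoot.mk P.G) = eval₂RingHom (P.φ.comp (AdjoinRoot.of P.G)) θ := by
      refine Polynomial.ringHom_ext (fun a => ?_) ?_
      · rw [coe_eval₂RingHom, eval₂_C]
        rfl
      · rw [coe_eval₂RingHom, eval₂_X]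
        rfl
    exact RingHom.congr_fun h1 p
  have hint : IsIntegral F θ := by
    refine ⟨P.G.map ψ, P.monic.map ψ, ?_⟩
    rw [eval₂_map, hψφ, ← hmk, AdjoinRoot.mk_self, map_zero]
  have hfd : FiniteDimensional F (IntermediateField.adjoin F {θ}) :=
    IntermediateField.adjoin.finiteDimensional hint
  have hmem : ∀ a : P.R, P.φ a ∈ IntermediateField.adjoin F {θ} := by
    intro a
    obtain ⟨p, rfl⟩ := AdjoinRoot.mk_surjective a
    rw [hmk, eval₂_eq_sum_range]
    refine sum_mem fun i _ => mul_mem ?_ (pow_mem (IntermediateField.mem_adjoin_simple_self F θ) i)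
    rw [← hψφ]
    exact IntermediateField.algebraMap_mem _ _
  have htop : (⊤ : IntermediateField F K) ≤ IntermediateField.adjoin F {θ} := by
    intro x _
    obtain ⟨a, b, hb, h1⟩ := P.surj x
    have hb' : P.φ b ≠ 0 := fun h => hb (P.inj (by rw [h, map_zero]))
    have h2 : x = P.φ a / P.φ b := by
      rw [← h1, mul_div_cancel_left₀ _ hb']
    rw [h2]
    exact div_mem (hmem a) (hmem b)
  have h3 : FiniteDimensional F (⊤ : IntermediateField F K) := by
    have : IntermediateField.adjoin F {θ} = ⊤ := le_antisymm le_top htop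
    rw [← this]
    exact hfd
  exact (IntermediateField.topEquiv (F := F) (E := K)).toLinearEquiv.finiteDimensional

end Pres

end UD0
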