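import Pool.Agent.UD0.PfD
import Pool.Agent.UD0.DvBase

/-!
# UD0 section PF0, PfL: presentations of finitely generated fields of characteristic zero

PROOF of `exists_basis_ext`.  The range of `s` is algebraically independent
(`AlgebraicIndependent.range` or similar), so it is contained in a transcendence basis `T`
(`exists_isTranscendenceBasis_superset` or `AlgebraicIndependent`-version in Mathlib); `T` is finite because
its cardinality is the transcendence degree (`IsTranscendenceBasis.cardinalMk_eq_trdeg`), which is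
finite (`trdeg_lt` in `DvBase.lean`).  Let `A = T \ range s`, finite with `k` elements and enumerate it
by `a : Fin k → K` (`Finite.equivFin`); `x = Fin.append s a : Fin (m + k) → K` is injective with range `T`
(`s` is injective: `AlgebraicIndependent.injective`), hence it is algebraically independent, and `K` is
algebraic over `Algebra.adjoin ℤ (range x)`, equivalently `IsTranscendenceBasis ℤ x`.

PROOF of `pres_of_basis`.  Let `R = MvPolynomial (Fin n) ℤ` and make `K` an `R`-algebra through the
injective homomorphism `aeval x`.  `F = FractionRing R` maps to `K` (`IsFractionRing.lift`, or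
`FractionRing.liftAlgebra`), `K / F` is algebraic and finitely generated as a field, so it is finite
(`Algebra.EssFiniteType`, `Algebra.finite_of_essFiniteType_of_isAlgebraic`, see
`Pool/Agent/UDV/ChartEx.lean`; or: `K` is generated over `F` by the finitely many algebraic elements
of the generating set, `IntermediateField.finiteDimensional_adjoin`), and it is separable
(characteristic `0`), so it has a primitive element `θ₀`
(`Field.exists_primitive_element`).  `θ₀` is algebraic over `R`, so some `θ = c • θ₀`, `c ∈ R`,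
`c ≠ 0` is integral over `R` (`IsAlgebraic.exists_integral_multiple`), and still generates `K` over
`F` (see the proof of `UDV.ext_der`).  `R` is a unique factorization domain, so it is integrally
closed; let `G = minpoly R θ`: monic, irreducible (`minpoly.irreducible`), and
`minpoly.equivAdjoin : AdjoinRoot G ≃ₐ[R] Algebra.adjoin R {θ}` gives the injective `φ` with
`φ (of f) = aeval x f`.  `surj`: every element of `K` is `aeval θ g` with `g : F[X]` (`F⟮θ⟯ = ⊤`,
algebraic); clear the denominators of the coefficients of `g`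
(`IsLocalization.integerNormalization` or `IsLocalization.exist_integer_multiples_of_finset`): there is
`b : R`, `b ≠ 0` such that `b * aeval θ g ∈ Algebra.adjoin R {θ}`.
`P.t i = φ (of (X i)) = x i`.
-/

open Polynomial

namespace UD0

universe u

theorem exists_basis_ext {K : Type u} [Field K] [CharZero K] (h : UDV.FGField K) {m : ℕ}
    (s : Fin m → K) (hs : AlgebraicIndependent ℤ s) :
    ∃ (k : ℕ) (x : Fin (m + k) → K), IsTranscendenceBasis ℤ x ∧
      ∀ i : Fin m, x (Fin.castAdd k i) = s i := by
  obtain ⟨T, hsT, hT⟩ := exists_isTranscendenceBasis_superset hs.coe_range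
  have hfin : Cardinal.mk T < Cardinal.aleph0 := by
    rw [hT.cardinalMk_eq_trdeg]
    exact trdeg_lt h
  have hTf : Finite T := Cardinal.mk_lt_aleph0_iff.1 hfin
  have hAf : Finite (T \ Set.range s : Set K) :=
    Finite.Set.subset T Set.sdiff_subset
  obtain ⟨k, ⟨e⟩⟩ := Finite.exists_equiv_fin (T \ Set.range s : Set K)
  have hinj : Function.Injective (Fin.append s (fun i => ((e.symm i : (T \ Set.range s : Set K)) : K))) := by
    rw [Fin.append_injective_iff]
    refine ⟨hs.injective, Subtype.val_injective.comp e.symm.injective, ?_⟩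
    intro i j hij
    exact (e.symm j).2.2 ⟨i, hij⟩
  have hran : Set.range (Fin.append s (fun i => ((e.symm i : (T \ Set.range s : Set K)) : K))) = T := by
    ext y
    constructor
    · rintro ⟨i, rfl⟩
      induction i using Fin.addCases with
      | left i =>
        rw [Fin.append_left]
        exact hsT ⟨i, rfl⟩
      | right i =>
        rw [Fin.append_right]
        exact (e.symm i).2.1
    · intro hy
      by_cases hys : y ∈ Set.range s
      · obtain ⟨i, rfl⟩ := hys
        exact ⟨Fin.castAdd k i, by rw [Fin.append_left]⟩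
      · refine ⟨Fin.natAdd m (e ⟨y, hy, hys⟩), ?_⟩
        rw [Fin.append_right, Equiv.symm_apply_apply]
  refine ⟨k, Fin.append s (fun i => ((e.symm i : (T \ Set.range s : Set K)) : K)), ?_, fun i => Fin.append_left _ _ i⟩
  rw [← hran] at hT
  exact (isTranscendenceBasis_subtype_range hinj).1 hT

theorem pres_of_basis {K : Type u} [Field K] [CharZero K] (h : UDV.FGField K) {n : ℕ}
    (x : Fin n → K) (hx : IsTranscendenceBasis ℤ x) :
    ∃ (P : Pres K) (e : P.d = n), ∀ i : Fin P.d, P.t i = x (Fin.cast e i) := by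
  let _iR : Algebra (MvPolynomial (Fin n) ℤ) K := (MvPolynomial.aeval x).toRingHom.toAlgebra
  have hmap : ∀ f : MvPolynomial (Fin n) ℤ, algebraMap (MvPolynomial (Fin n) ℤ) K f =
    MvPolynomial.aeval x f := fun f => rfl
  have hfaith : FaithfulSMul (MvPolynomial (Fin n) ℤ) K := by
    rw [faithfulSMul_iff_algebraMap_injective]
    exact hx.1
  let _iF : Algebra (FractionRing (MvPolynomial (Fin n) ℤ)) K := FractionRing.liftAlgebra _ K
  have htow : IsScalarTower (MvPolynomial (Fin n) ℤ) (FractionRing (MvPolynomial (Fin n) ℤ)) K :=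
    inferInstance
  have halgR : Algebra.IsAlgebraic (MvPolynomial (Fin n) ℤ) K := by
    have h1 := hx.isAlgebraic
    exact Algebra.IsAlgebraic.of_ringHom_of_comp_eq hx.1.aevalEquiv.toRingEquiv (RingHom.id K)
      hx.1.aevalEquiv.surjective Function.injective_id (RingHom.ext fun f => hx.1.algebraMap_aevalEquiv f)
  have halgF : Algebra.IsAlgebraic (FractionRing (MvPolynomial (Fin n) ℤ)) K :=
    ⟨fun y => (halgR.isAlgebraic y).extendScalars (IsFractionRing.injective _ _)⟩
  have hessF : Algebra.EssFiniteType (FractionRing (MvPolynomial (Fin n) ℤ)) K := by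
    obtain ⟨s, hs⟩ := h
    rw [← IntermediateField.fg_top_iff]
    refine ⟨s, ?_⟩
    rw [eq_top_iff]
    intro x _
    have h1 : Subfield.closure (s : Set K) ≤
        (IntermediateField.adjoin (FractionRing (MvPolynomial (Fin n) ℤ)) (s : Set K)).toSubfield :=
      Subfield.closure_le.2 (IntermediateField.subset_adjoin _ _)
    rw [hs] at h1
    exact h1 (Subfield.mem_top x)
  have hfd : FiniteDimensional (FractionRing (MvPolynomial (Fin n) ℤ)) K :=
    Algebra.finite_of_essFiniteType_of_isAlgebraic
  have hch : CharZero (FractionRing (MvPolynomial (Fin n) ℤ)) := inferInstance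
  obtain ⟨θ₀, hθ₀⟩ := Field.exists_primitive_element (FractionRing (MvPolynomial (Fin n) ℤ)) K
  obtain ⟨c, hc, hcθ⟩ := (halgR.isAlgebraic θ₀).exists_integral_multiple
  obtain ⟨θ, hθ⟩ : ∃ θ : K, θ = c • θ₀ := ⟨_, rfl⟩
  rw [← hθ] at hcθ
  obtain ⟨c', hc'⟩ : ∃ c' : (FractionRing (MvPolynomial (Fin n) ℤ)), c' = algebraMap _ _ c := ⟨_, rfl⟩
  have hc0 : c' ≠ 0 := by
    rw [hc']
    intro h0
    exact hc ((IsFractionRing.injective _ _) (by rw [h0, map_zero]))
  have hθ2 : θ = algebraMap (FractionRing (MvPolynomial (Fin n) ℤ)) K c' * θ₀ := by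
    rw [hθ, hc', Algebra.smul_def, ← IsScalarTower.algebraMap_apply]
  have hθtop : IntermediateField.adjoin (FractionRing (MvPolynomial (Fin n) ℤ)) {θ} = ⊤ := by
    rw [eq_top_iff, ← hθ₀, IntermediateField.adjoin_simple_le_iff]
    have h1 : θ₀ = algebraMap (FractionRing (MvPolynomial (Fin n) ℤ)) K c'⁻¹ * θ := by
      rw [hθ2, ← mul_assoc, ← map_mul, inv_mul_cancel₀ hc0, map_one, one_mul]
    rw [h1]
    exact mul_mem (IntermediateField.algebraMap_mem _ _)
      (IntermediateField.mem_adjoin_simple_self _ θ)
  have hadj : Algebra.adjoin (FractionRing (MvPolynomial (Fin n) ℤ)) {θ} = ⊤ := by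
    have h1 := IntermediateField.adjoin_simple_toSubalgebra_of_isAlgebraic
      (F := (FractionRing (MvPolynomial (Fin n) ℤ))) (α := θ) (halgF.isAlgebraic θ)
    rw [hθtop, IntermediateField.top_toSubalgebra] at h1
    exact h1.symm
  let φ : AdjoinRoot (minpoly (MvPolynomial (Fin n) ℤ) θ) →+* K :=
    ((Algebra.adjoin (MvPolynomial (Fin n) ℤ) {θ}).val.toRingHom).comp
      (minpoly.equivAdjoin hcθ).toRingEquiv.toRingHom
  have hφmk : ∀ g : (MvPolynomial (Fin n) ℤ)[X], φ (AdjoinRoot.mk _ g) = aeval θ g := by
    intro g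
    show ((minpoly.equivAdjoin hcθ (AdjoinRoot.mk _ g) : Algebra.adjoin (MvPolynomial (Fin n) ℤ) {θ}) : K) = _
    rw [minpoly.coe_equivAdjoin]
    have h1 : (AdjoinRoot.Minpoly.toAdjoin (MvPolynomial (Fin n) ℤ) θ) (AdjoinRoot.mk _ g) =
        aeval (⟨θ, Algebra.subset_adjoin rfl⟩ : Algebra.adjoin (MvPolynomial (Fin n) ℤ) {θ}) g := by
      rw [AdjoinRoot.Minpoly.toAdjoin, AdjoinRoot.liftAlgHom_mk]
      rfl
    rw [h1]
    exact (Subalgebra.aeval_coe (Algebra.adjoin (MvPolynomial (Fin n) ℤ) {θ})
      ⟨θ, Algebra.subset_adjoin rfl⟩ g).symm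
  have hφof : ∀ f : MvPolynomial (Fin n) ℤ, φ (AdjoinRoot.of _ f) = MvPolynomial.aeval x f := by
    intro f
    have h1 := hφmk (C f)
    rw [aeval_C, hmap] at h1
    exact h1
  refine ⟨⟨n, minpoly (MvPolynomial (Fin n) ℤ) θ, minpoly.monic hcθ, minpoly.irreducible hcθ, φ, ?_, ?_⟩, rfl, ?_⟩
  · exact Subtype.val_injective.comp (minpoly.equivAdjoin hcθ).injective
  · intro y
    have hy : y ∈ Algebra.adjoin (FractionRing (MvPolynomial (Fin n) ℤ)) {θ} := by
      rw [hadj]
      exact Algebra.mem_top
    rw [Algebra.adjoin_singleton_eq_range_aeval, AlgHom.mem_range] at hy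
    obtain ⟨g, hg⟩ := hy
    obtain ⟨b, hb0, hb⟩ := IsLocalization.integerNormalization_spec (nonZeroDivisors (MvPolynomial (Fin n) ℤ)) g
    refine ⟨AdjoinRoot.mk _ (IsLocalization.integerNormalization (nonZeroDivisors (MvPolynomial (Fin n) ℤ)) g),
      AdjoinRoot.of _ b, ?_, ?_⟩
    · intro h0
      have h1 := hφof b
      rw [h0, map_zero] at h1
      have h2 := hx.1 (a₁ := b) (a₂ := 0) (by rw [← h1, map_zero])
      exact nonZeroDivisors.ne_zero hb0 h2
    · rw [hφof, hφmk, ← hg]
      have h3 := congrArg (aeval θ) hb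
      rw [aeval_map_algebraMap] at h3
      rw [h3, ← algebraMap_smul (FractionRing (MvPolynomial (Fin n) ℤ)) b g, map_smul, algebraMap_smul,
        Algebra.smul_def, hmap]
  · intro i
    exact (hφof (MvPolynomial.X i)).trans (MvPolynomial.aeval_X _ _)

end UD0
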