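import Pool.Agent.UD0.PfA
import Pool.Agent.UD0.PfB
import Pool.Agent.UD0.PfE
import Pool.Agent.UD0.PfF
import Pool.Agent.UDV.DerA

/-!
# UD0 section PF0, PfM: the base product formula field (assembly, helper60)
-/

open Polynomial WithZero

namespace UD0

theorem exists_bpf0 (d : ℕ) (hd : 0 < d) (F : Type) [Field F] [CharZero F]
    [Algebra (MvPolynomial (Fin d) ℚ) F] [IsFractionRing (MvPolynomial (Fin d) ℚ) F] :
    ∃ B : BPF0 d F, ∀ i f, B.D i (algebraMap (MvPolynomial (Fin d) ℚ) F f) =
      algebraMap (MvPolynomial (Fin d) ℚ) F (MvPolynomial.pderiv i f) := by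
  obtain ⟨P⟩ := exists_ratPl d F
  have hder : ∀ i : Fin d, ∃ D : Derivation ℤ F F, ∀ f : MvPolynomial (Fin d) ℚ,
      D (algebraMap _ _ f) = algebraMap _ _ (MvPolynomial.pderiv i f) := by
    intro i
    obtain ⟨D, hD⟩ := UDV.der_frac (F := F)
      ((MvPolynomial.pderiv (R := ℚ) i).restrictScalars ℤ)
    exact ⟨D, hD⟩
  choose D hD using hder
  exact ⟨{
    J := Option P.ι
    w := P.w
    w_pos := P.w_pos
    val := P.val
    unif := P.unif hd
    fin := fun {x} hx => (P.prod hx).1
    prod := fun {x} hx => (P.prod hx).2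
    rat := P.rat
    const := fun {x} hx => P.const hx
    D := D
    D_int := fun j i x hx => P.der_int (D i) i (hD i) j hx
    D_const := der_const_base D hD
    findim := P.findim }, hD⟩

end UD0
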