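import Pool.Agent.UD0.PfK
import Pool.Agent.UD0.PfM
import Pool.Agent.UD0.PfJ

/-!
# UD0 section PF0, PfN: charts exist (assembly, helper60)
-/

open Polynomial WithZero

namespace UD0

universe u

private theorem chart_aux {K : Type u} [Field K] [CharZero K] (P : Pres K) (hd : 0 < P.d)
    (F : Type) [Field F] [Algebra (MvPolynomial (Fin P.d) ℚ) F]
    [IsFractionRing (MvPolynomial (Fin P.d) ℚ) F] [Algebra F K]
    (hF : ∀ f : MvPolynomial (Fin P.d) ℚ,
      algebraMap F K (algebraMap (MvPolynomial (Fin P.d) ℚ) F f) = MvPolynomial.aeval P.t f) :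
    Nonempty (Chart P) := by
  have hc : CharZero F := charZero_of_injective_algebraMap
    (IsFractionRing.injective (MvPolynomial (Fin P.d) ℚ) F)
  have hfd : FiniteDimensional F K := P.fin_ext F hF
  obtain ⟨B, hB⟩ := exists_bpf0 P.d hd F
  have h3 : IsGalois F (AlgebraicClosure K) := by
    have : Algebra.IsAlgebraic F (AlgebraicClosure K) := Algebra.IsAlgebraic.trans F K _
    have : IsAlgClosure F (AlgebraicClosure K) := ⟨inferInstance, inferInstance⟩
    have : Normal F (AlgebraicClosure K) := IsAlgClosure.normal F _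
    exact ⟨⟩
  obtain ⟨L, hL1, hL2, hL3, hL4, hL5, hL6⟩ : ∃ (L : Type u) (_ : Field L) (_ : Algebra F L)
      (_ : Algebra K L) (_ : IsScalarTower F K L) (_ : FiniteDimensional F L), IsGalois F L :=
    ⟨IntermediateField.normalClosure F K (AlgebraicClosure K), inferInstance, inferInstance,
      inferInstance, inferInstance, inferInstance, inferInstance⟩
  choose DK hDK using fun i => UDV.der_exists (L := K) (B.D i)
  have hK : Algebra.IsSeparable K L := by
    have : Algebra.IsAlgebraic K L := Algebra.IsAlgebraic.tower_top (K := F) K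
    infer_instance
  choose δ hδ using fun i => UDV.der_exists (L := L) (DK i)
  obtain ⟨S, hS⟩ := pf_of_bpf0 B L δ (fun i x => by
    rw [IsScalarTower.algebraMap_apply F K L, hδ, hDK, ← IsScalarTower.algebraMap_apply])
  refine ⟨{
    L := L
    emb := algebraMap K L
    S := S
    D := DK
    hD := fun i x => by rw [hS, hδ]
    ht := ?_ }⟩
  intro i j
  have h1 : P.t j = algebraMap F K (algebraMap (MvPolynomial (Fin P.d) ℚ) F
      (MvPolynomial.X j)) := by
    rw [hF, MvPolynomial.aeval_X]
  rw [h1, hDK, hB, hF]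
  by_cases hij : i = j
  · rw [hij, MvPolynomial.pderiv_X_self, map_one, if_pos rfl]
  · rw [MvPolynomial.pderiv_X_of_ne (fun h => hij h.symm), map_zero, if_neg hij]

theorem exists_chart {K : Type u} [Field K] [CharZero K] (P : Pres K) (hd : 0 < P.d) :
    Nonempty (Chart P) := by
  have hinj : Function.Injective (MvPolynomial.aeval P.t :
      MvPolynomial (Fin P.d) ℚ →ₐ[ℚ] K) := P.algIndQ
  obtain ⟨ψ, hψ⟩ : ∃ ψ : FractionRing (MvPolynomial (Fin P.d) ℚ) →+* K,
      ∀ f : MvPolynomial (Fin P.d) ℚ, ψ (algebraMap _ _ f) = MvPolynomial.aeval P.t f :=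
    ⟨IsFractionRing.lift (g := (MvPolynomial.aeval P.t :
      MvPolynomial (Fin P.d) ℚ →ₐ[ℚ] K).toRingHom) hinj,
      fun f => IsFractionRing.lift_algebraMap hinj f⟩
  let _ : Algebra (FractionRing (MvPolynomial (Fin P.d) ℚ)) K := ψ.toAlgebra
  exact chart_aux P hd (FractionRing (MvPolynomial (Fin P.d) ℚ)) hψ

end UD0
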