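import Pool.Agent.UD0.PfL

/-!
# UD0 section PF0, PfO: presentations exist (assembly, helper60)
-/

namespace UD0

universe u

theorem exists_pres_ext {K : Type u} [Field K] [CharZero K] (h : UDV.FGField K) {m : ℕ}
    (s : Fin m → K) (hs : AlgebraicIndependent ℤ s) :
    ∃ (P : Pres K) (h : m ≤ P.d), ∀ i, P.t (Fin.castLE h i) = s i := by
  obtain ⟨k, x, hx, hxs⟩ := exists_basis_ext h s hs
  obtain ⟨P, e, hP⟩ := pres_of_basis h x hx
  refine ⟨P, by omega, fun i => ?_⟩
  rw [hP, ← hxs i]
  rfl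

theorem exists_pres {K : Type u} [Field K] [CharZero K] (h : UDV.FGField K) :
    Nonempty (Pres K) := by
  obtain ⟨P, -⟩ := exists_pres_ext h (Fin.elim0 : Fin 0 → K) (by
    rw [algebraicIndependent_empty_type_iff]
    exact (algebraMap ℤ K).injective_int)
  exact ⟨P⟩

end UD0
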