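import Pool.Agent.UD0.Glue
import Pool.Agent.UD0.CodDef
import Pool.Agent.UDN.Final

/-!
# UD0, section 8, part A: the sentences which distinguish the three kinds of fields
-/

set_option autoImplicit false

open FirstOrder Polynomial UDV

namespace UD0

universe u

section defs

/-- true in fields of characteristic zero with a nonalgebraic element, false in number fields and in
positive characteristic -/
def Dl (K : Type u) [Field K] : Prop :=
  ¬ (1 : K) + 1 = 0 ∧ (¬ ∃ y : K, y + y = 1 ∧ ZZ y) ∧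
    ∃ u : K, ∀ n : K, ZZ n → ¬ n = 0 → ¬ UDN.OD (n * u)

/-- true in number fields, false in positive characteristic -/
def Ch (K : Type u) [Field K] : Prop :=
  ¬ (1 : K) + 1 = 0 ∧ (¬ ∃ y : K, y + y = 1 ∧ UDN.OD y) ∧ UDN.OD (1 : K) ∧
    ∀ x y : K, UDN.OD x → UDN.OD y → UDN.OD (x - y)

/-- valuation rings of number fields -/
def Vd {K : Type u} [Field K] (x a : K) : Prop :=
  ∃ s, UDN.OD s ∧ UDN.OD (s * x) ∧ ∃ p q, UDN.OD p ∧ UDN.OD q ∧ s * p + a * q = 1

end defs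

variable {f₁ f₂ f₃ : ∀ (K : Type u) [Field K], (ℕ → K) → K}

theorem ua_SQn0 : UA.{u} (fun K _ v => UDN.SQ (v 0) (v 1) (v 2)) := by
  refine UA.congr (R := fun K _ v => ∃ x y z w : K,
    v 2 = (1 + 1) * x ∧ x * x - v 0 * (y * y) - v 1 * (z * z) + v 0 * v 1 * (w * w) = 1)
    (fun K _ v => ?_)
    (UA.ex 6 <| UA.ex 7 <| UA.ex 8 <| UA.ex 9 <|
      (UA.eq (TT.var 2) ((TT.one.add TT.one).mul (TT.var 6))).and <|
      UA.eq (((((TT.var 6).mul (TT.var 6)).sub ((TT.var 0).mul ((TT.var 7).mul (TT.var 7)))).sub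
        ((TT.var 1).mul ((TT.var 8).mul (TT.var 8)))).add
        (((TT.var 0).mul (TT.var 1)).mul ((TT.var 9).mul (TT.var 9)))) TT.one)
  unfold UDN.SQ
  refine exists_congr fun x => exists_congr fun y => exists_congr fun z => exists_congr fun w =>
    and_congr ?_ ?_
  · rw [one_add_one_eq_two]
  · rw [pow_two, pow_two, pow_two, pow_two]

theorem ua_SQn (h₁ : TT f₁) (h₂ : TT f₂) (h₃ : TT f₃) :
    UA (fun K _ v => UDN.SQ (f₁ K v) (f₂ K v) (f₃ K v)) :=
  UA.subst (σ := sg [f₁, f₂, f₃] f₁) (sg_TT h₁ (by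
    simp only [List.mem_cons, List.not_mem_nil, or_false, forall_eq_or_imp, forall_eq]
    exact ⟨h₁, h₂, h₃⟩)) ua_SQn0

theorem ua_OD0 : UA.{u} (fun K _ v => UDN.OD (v 0)) := by
  refine UA.congr (R := fun K _ v => ∀ a b c₁ c₂ c₃ c₄ : K,
    a = c₁ * c₁ + c₂ * c₂ + c₃ * c₃ + c₄ * c₄ → ¬ a = 0 → ¬ b = 0 →
    ∃ s r : K, UDN.SQ a b s ∧ UDN.SQ a b r ∧ v 0 = s + r) (fun K _ v => ?_)
    (UA.all 4 <| UA.all 5 <| UA.all 6 <| UA.all 7 <| UA.all 8 <| UA.all 9 <|
      (UA.eq (TT.var 4) (((((TT.var 6).mul (TT.var 6)).add ((TT.var 7).mul (TT.var 7))).add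
        ((TT.var 8).mul (TT.var 8))).add ((TT.var 9).mul (TT.var 9)))).imp <|
      (UA.eq (TT.var 4) TT.zero).not.imp <| (UA.eq (TT.var 5) TT.zero).not.imp <|
      UA.ex 10 <| UA.ex 11 <| (ua_SQn (TT.var 4) (TT.var 5) (TT.var 10)).and <|
      (ua_SQn (TT.var 4) (TT.var 5) (TT.var 11)).and <|
      UA.eq (TT.var 0) ((TT.var 10).add (TT.var 11)))
  unfold UDN.OD
  refine forall_congr' fun a => forall_congr' fun b => forall_congr' fun c₁ =>
    forall_congr' fun c₂ => forall_congr' fun c₃ => forall_congr' fun c₄ => ?_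
  rw [pow_two, pow_two, pow_two, pow_two]

theorem ua_OD (h₁ : TT f₁) : UA (fun K _ v => UDN.OD (f₁ K v)) :=
  UA.subst (σ := sg [f₁] f₁) (sg_TT h₁ (by
    simp only [List.mem_cons, List.not_mem_nil, or_false, forall_eq]
    exact h₁)) ua_OD0

theorem ua_ZZ' (h₁ : TT f₁) : UA (fun K _ v => ZZ (f₁ K v)) :=
  UA.subst (σ := sg [f₁] f₁) (sg_TT h₁ (by
    simp only [List.mem_cons, List.not_mem_nil, or_false, forall_eq]
    exact h₁)) ua_ZZ

theorem ua_Dl : UA.{u} (fun K _ _ => Dl K) :=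
  UA.congr (fun _ _ _ => Iff.rfl) <| (UA.eq (TT.one.add TT.one) TT.zero).not.and <|
    (UA.ex 2 <| (UA.eq ((TT.var 2).add (TT.var 2)) TT.one).and <| ua_ZZ' (TT.var 2)).not.and <|
    UA.ex 2 <| UA.all 3 <| (ua_ZZ' (TT.var 3)).imp <| (UA.eq (TT.var 3) TT.zero).not.imp <|
      (ua_OD ((TT.var 3).mul (TT.var 2))).not

theorem ua_Ch : UA.{u} (fun K _ _ => Ch K) :=
  UA.congr (fun _ _ _ => Iff.rfl) <| (UA.eq (TT.one.add TT.one) TT.zero).not.and <|
    (UA.ex 2 <| (UA.eq ((TT.var 2).add (TT.var 2)) TT.one).and <| ua_OD (TT.var 2)).not.and <|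
    (ua_OD TT.one).and <| UA.all 2 <| UA.all 3 <| (ua_OD (TT.var 2)).imp <|
      (ua_OD (TT.var 3)).imp <| ua_OD ((TT.var 2).sub (TT.var 3))

theorem ua_Vd : UA.{u} (fun K _ v => Vd (v 0) (v 1)) :=
  UA.congr (fun _ _ _ => Iff.rfl) <| UA.ex 2 <| (ua_OD (TT.var 2)).and <|
    (ua_OD ((TT.var 2).mul (TT.var 0))).and <| UA.ex 3 <| UA.ex 4 <| (ua_OD (TT.var 3)).and <|
    (ua_OD (TT.var 4)).and <|
    UA.eq (((TT.var 2).mul (TT.var 3)).add ((TT.var 1).mul (TT.var 4))) TT.one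

theorem ua_fin2 (φ : Language.ring.Formula (Fin 2)) :
    UA.{u} (fun K _ v => Rlz φ ![v 0, v 1]) := by
  refine ⟨Language.Formula.relabel (fun j : Fin 2 => (j : ℕ)) φ, fun K _ v => ?_⟩
  unfold Rlz
  let := FirstOrder.Ring.compatibleRingOfRing K
  rw [Language.Formula.realize_relabel]
  have : (v ∘ fun j : Fin 2 => (j : ℕ)) = ![v 0, v 1] := by
    funext j
    fin_cases j <;> rfl
  rw [this]

/-- closed under subtraction and containing `1` : contains the integers -/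
theorem int_mem {K : Type u} [Field K] {Z : K → Prop} (h1 : Z 1)
    (hs : ∀ x y, Z x → Z y → Z (x - y)) (n : ℤ) : Z (n : K) := by
  have h0 : Z 0 := by
    have := hs 1 1 h1 h1
    rwa [sub_self] at this
  have hneg : ∀ x, Z x → Z (-x) := fun x hx => by
    have := hs 0 x h0 hx
    rwa [zero_sub] at this
  have hadd : ∀ x y, Z x → Z y → Z (x + y) := fun x y hx hy => by
    have := hs x (-y) hx (hneg y hy)
    rwa [sub_neg_eq_add] at this
  have hnat : ∀ n : ℕ, Z (n : K) := by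
    intro n
    induction n with
    | zero => rwa [Nat.cast_zero]
    | succ n ih =>
      rw [Nat.cast_succ]
      exact hadd _ _ ih h1
  cases n with
  | ofNat n =>
    have := hnat n
    simpa using this
  | negSucc n =>
    have := hneg _ (hnat (n + 1))
    rw [Int.cast_negSucc]
    exact this

theorem half_mem {K : Type u} [Field K] {p : ℕ} (hp : p.Prime) [CharP K p] {Z : K → Prop}
    (h1 : Z 1) (hs : ∀ x y, Z x → Z y → Z (x - y)) (h2 : ¬ (1 : K) + 1 = 0) :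
    ∃ y : K, y + y = 1 ∧ Z y := by
  have hp2 : p ≠ 2 := by
    rintro rfl
    apply h2
    rw [one_add_one_eq_two]
    exact_mod_cast CharP.cast_eq_zero K 2
  have hodd : Odd p := hp.odd_of_ne_two hp2
  obtain ⟨k, hk⟩ := hodd
  refine ⟨((k + 1 : ℕ) : ℤ), ?_, int_mem h1 hs _⟩
  have h3 : ((2 * k + 1 : ℕ) : K) = 0 := by
    rw [← hk]
    exact CharP.cast_eq_zero K p
  push_cast at h3 ⊢
  linear_combination h3

theorem not_dl_char {K : Type u} [Field K] {p : ℕ} (hp : p.Prime) [CharP K p] : ¬ Dl K := by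
  rintro ⟨h1, h2, -⟩
  exact h2 (half_mem hp (Z := ZZ) zz_one (fun x y hx hy => zz_sub hx hy) h1)

theorem not_ch_char {K : Type u} [Field K] {p : ℕ} (hp : p.Prime) [CharP K p] : ¬ Ch K := by
  rintro ⟨h1, h2, h3, h4⟩
  exact h2 (half_mem hp (Z := UDN.OD) h3 h4 h1)

theorem ch_nf {K : Type u} [Field K] [NumberField K] : Ch K := by
  refine ⟨?_, ?_, ?_, ?_⟩
  · rw [one_add_one_eq_two]
    exact two_ne_zero
  · rintro ⟨y, hy, hO⟩
    rw [UDN.od_iff] at hO
    have h1 : y = ((1 / 2 : ℚ) : K) := by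
      push_cast
      linear_combination hy / 2
    rw [h1] at hO
    obtain ⟨n, hn⟩ := rat_int _ hO
    have h2 : (2 * n : ℚ) = 1 := by linear_combination -2 * hn
    have h3 : 2 * n = 1 := by exact_mod_cast h2
    omega
  · rw [UDN.od_iff]
    exact isIntegral_one
  · intro x y hx hy
    rw [UDN.od_iff] at *
    exact hx.sub hy

theorem not_dl_nf {K : Type u} [Field K] [NumberField K] : ¬ Dl K := by
  rintro ⟨-, -, u, hu⟩
  obtain ⟨y, hy0, hy⟩ := IsAlgebraic.exists_integral_multiple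
    ((IsFractionRing.isAlgebraic_iff ℤ ℚ K).2 (Algebra.IsAlgebraic.isAlgebraic (R := ℚ) u))
  refine hu (y : K) (int_mem (Z := ZZ) zz_one (fun x y hx hy => zz_sub hx hy) y) ?_ ?_
  · intro h
    exact hy0 (by exact_mod_cast h)
  · rw [UDN.od_iff]
    rwa [zsmul_eq_mul] at hy

end UD0
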