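import Pool.Agent.UD0.PhA
import Pool.Agent.UD0.CodMain
import Pool.Agent.UD0.DvMain
import Pool.Agent.UDV.Main

/-!
# UD0, section 8, part B: one formula for all finitely generated fields
-/

set_option autoImplicit false

open FirstOrder Polynomial UDV

namespace UD0

universe u

/-- `Dl` holds in fields of characteristic zero with a nonalgebraic element -/
theorem dl_of_setup {K : Type u} [Field K] [CharZero K] (S : Setup K) (hK : ∃ u : K, ¬ Alg u)
    (hI : Inp (K := K) ZZ PP) : Dl K := by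
  obtain ⟨b, hb⟩ := hK
  have h2 : S.l ≠ 2 := by have := S.l3; omega
  refine ⟨by rw [one_add_one_eq_two]; exact two_ne_zero, ?_, ?_⟩
  · rintro ⟨y, hy, hZ⟩
    obtain ⟨n, rfl⟩ := (hI.z y).1 hZ
    have h3 : n + n = 1 := by exact_mod_cast hy
    omega
  · obtain ⟨δ, hδ, hmov⟩ := S.mov₁ b hb
    obtain ⟨r, hr⟩ := Metric.dense_iff.1 (Padic.denseRange_ratCast S.l) (S.e₀ b) δ hδ
    obtain ⟨hr1, r, rfl⟩ := hr
    obtain ⟨e, he1, he2⟩ := hmov (r : ℚ_[S.l]) (by rwa [← dist_eq_norm, ← Metric.mem_ball])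
    have her : e (r : K) = HahnSeries.C (r : ℚ_[S.l]) := by
      rw [he1 _ (alg_rat r), map_ratCast]
    have hebr : e (b - r) = HahnSeries.single 1 1 := by
      rw [map_sub, he2, her]
      ring
    have hne : b - r ≠ 0 := by
      intro h
      rw [h, map_zero] at hebr
      exact HahnSeries.single_ne_zero (one_ne_zero' ℚ_[S.l]) hebr.symm
    refine ⟨(b - r)⁻¹, fun n hn hn0 hO => ?_⟩
    obtain ⟨m, rfl⟩ := (hI.z n).1 hn
    have hm : m ≠ 0 := fun h => hn0 (by rw [h, Int.cast_zero])
    have h4 := od_order h2 S.hn S.hn4 e hO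
    rw [map_mul, map_inv₀, hebr, map_intCast] at h4
    have h5 : ((m : ℤ) : LaurentSeries ℚ_[S.l]) = HahnSeries.C (m : ℚ_[S.l]) := by
      rw [map_intCast]
    have h6 : (m : ℚ_[S.l]) ≠ 0 := by exact_mod_cast hm
    have h7 : (HahnSeries.single (1 : ℤ) (1 : ℚ_[S.l]))⁻¹ = HahnSeries.single (-1 : ℤ) 1 := by
      refine inv_eq_of_mul_eq_one_right ?_
      rw [HahnSeries.single_mul_single, add_neg_cancel, mul_one]
      rfl
    rw [h5, h7] at h4
    have h8 : (HahnSeries.C (m : ℚ_[S.l]) * HahnSeries.single (-1 : ℤ) 1 :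
        LaurentSeries ℚ_[S.l]) = HahnSeries.single (-1 : ℤ) (m : ℚ_[S.l]) := by
      rw [HahnSeries.C_apply, HahnSeries.single_mul_single, zero_add, mul_one]
    rw [h8, HahnSeries.order_single h6] at h4
    omega

/-- a finitely generated field of algebraic elements is a number field -/
theorem nf_of_alg {K : Type u} [Field K] [CharZero K] (hfg : FGField K) (h : ∀ u : K, Alg u) :
    NumberField K := by
  obtain ⟨s, hs⟩ := hfg
  suffices hfd : FiniteDimensional ℚ K from { to_charZero := inferInstance, to_finiteDimensional := hfd }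
  have h1 : FiniteDimensional ℚ (IntermediateField.adjoin ℚ (s : Set K)) :=
    IntermediateField.finiteDimensional_adjoin fun x _ =>
      ((IsFractionRing.isAlgebraic_iff ℤ ℚ K).1 (h x)).isIntegral
  have h2 : IntermediateField.adjoin ℚ (s : Set K) = ⊤ := by
    rw [eq_top_iff]
    intro x _
    have h3 : Subfield.closure (s : Set K) ≤
        (IntermediateField.adjoin ℚ (s : Set K)).toSubfield :=
      Subfield.closure_le.2 (IntermediateField.subset_adjoin ℚ _)
    rw [hs] at h3
    exact h3 (Subfield.mem_top x)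
  rw [h2] at h1
  exact (IntermediateField.topEquiv (F := ℚ) (E := K)).toLinearEquiv.finiteDimensional

/-- Everything about finitely generated fields of characteristic zero which are not algebraic. -/
def AllIn (K : Type u) [Field K] [CharZero K] : Prop :=
  ∃ (P : Pres K) (_ : Chart P) (S : Setup K), 0 < P.d ∧ Mov S.l S.e₀

/-- One formula defines all the divisorial valuation rings of all finitely generated fields. -/
theorem main0 (hall : ∀ (K : Type u) [Field K] [CharZero K], FGField K → (∃ u : K, ¬ Alg u) →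
    AllIn K) :
    ∃ φ : Language.ring.Formula (Fin 2), ∀ (K : Type u) [Field K], FGField K →
      ∀ O : ValuationSubring K, IsDivisorial O → ∃ a : K, ∀ x : K, x ∈ O ↔ Rlz φ ![x, a] := by
  obtain ⟨φp, hφp⟩ := UDV.main.{u}
  have hZ : UA.{u} (fun K _ v => ZZ (v 0)) := ua_ZZ
  have hW : UA.{u} (fun K _ v => PP (v 0) (v 1) (v 2)) := ua_PP
  have hU : UA.{u} (fun K _ v => (Dl K ∧ Fnl (K := K) ZZ PP (v 0) (v 1)) ∨
      (¬ Dl K ∧ Ch K ∧ Vd (v 0) (v 1)) ∨ (¬ Dl K ∧ ¬ Ch K ∧ Rlz φp ![v 0, v 1])) :=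
    (ua_Dl.and (ua_Fnl0 (Z := fun K _ => ZZ) (W := fun K _ => PP) hZ hW)).or <|
      (ua_Dl.not.and (ua_Ch.and ua_Vd)).or (ua_Dl.not.and (ua_Ch.not.and (ua_fin2 φp)))
  obtain ⟨φ, hφ⟩ := hU.fin2 (fun K _ v w h0 h1 h => by
    rw [← h0, ← h1]
    exact h)
  refine ⟨φ, fun K _ hfg O hO => ?_⟩
  have key : ∀ a : K, (∀ x : K, x ∈ O ↔ ((Dl K ∧ Fnl (K := K) ZZ PP x a) ∨
      (¬ Dl K ∧ Ch K ∧ Vd x a) ∨ (¬ Dl K ∧ ¬ Ch K ∧ Rlz φp ![x, a]))) →
      ∃ a : K, ∀ x : K, x ∈ O ↔ Rlz φ ![x, a] := by
    intro a ha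
    refine ⟨a, fun x => (ha x).trans ?_⟩
    exact (hφ K (fun i => if i = 0 then x else a)).symm
  obtain ⟨p, hchar⟩ := CharP.exists K
  rcases CharP.char_is_prime_or_zero K p with hp | rfl
  · obtain ⟨a, ha⟩ := hφp K ⟨p, hp, hchar⟩ hfg O hO
    refine key a fun x => (ha x).trans ?_
    constructor
    · intro h
      exact Or.inr (Or.inr ⟨not_dl_char hp, not_ch_char hp, h⟩)
    · rintro (h | h | h)
      · exact absurd h.1 (not_dl_char hp)
      · exact absurd h.2.1 (not_ch_char hp)
      · exact h.2.2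
  · have hcz : CharZero K := CharP.charP_to_charZero K
    by_cases hK : ∃ u : K, ¬ Alg u
    · obtain ⟨P, C, S, hd, M⟩ := hall K hfg hK
      have hI := inp_main C S M hK
      have hD := dl_of_setup S hK hI
      obtain ⟨T, π, hπ, _, _, hOT⟩ := div_fg0 K hfg O hO
      obtain ⟨a, ha⟩ := fnl_exists hI C hd T hπ (O : Set K) hOT
      refine key a fun x => ?_
      rw [← SetLike.mem_coe, ← ha x]
      constructor
      · intro h
        exact Or.inl ⟨hD, h⟩
      · rintro (h | h | h)
        · exact h.2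
        · exact absurd hD h.1
        · exact absurd hD h.1
    · push Not at hK
      have hnf := nf_of_alg hfg hK
      have htop : O ≠ ⊤ := by
        rintro rfl
        have h1 := hO.dvr
        exact IsDiscreteValuationRing.not_isField (⊤ : ValuationSubring K)
          (MulEquiv.isField (Field.toIsField K)
            (Subring.topEquiv (R := K) : (⊤ : Subring K) ≃+* K).toMulEquiv)
      obtain ⟨a, ha⟩ := UDN.val_def O htop
      refine key a fun x => (ha x).trans ?_
      constructor
      · intro h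
        exact Or.inr (Or.inl ⟨not_dl_nf, ch_nf, h⟩)
      · rintro (h | h | h)
        · exact absurd h.1 not_dl_nf
        · exact h.2.2
        · exact absurd ch_nf h.2.1

end UD0
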