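import Pool.Agent.UD0.Base

/-!
# UD0, Theorem C, part A: the poles of `δ x / y` on the curve `lam y ^ 2 = x ^ 3 + 1`

PROOF of `alg_intT` : `X - C n`.  So `S.ord P (n : L) = 0` for every integer `n` (`const'`), in particular for `2`, `3`, `lam`, `-1`.
`S.δ i (n : L) = 0` (`Derivation.map_intCast` or `map_natCast`; `Derivation ℤ`).
PROOF of `bound`.  `v = S.ord P`, `δ = S.δ i`, `b = S.b P`.  `x ≠ 0` as `δ x ≠ 0`.  From the equation `x ^ 3 + 1 = lam * y ^ 2 ≠ 0`.
Facts on `v`: `v 1 = 0` (`ord_mul` with `1 * 1`), `v (x ^ n) = n * v x`, `v (x / y) = v x - v y`.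
Case 1, `v x < 0`: `v (x ^ 3 + 1) = 3 v x` (`≤`: if it were `> 3 v x` then, as `x ^ 3 = (x ^ 3 + 1) + (-1)`,
`v (x ^ 3) ≥ min (v (x ^ 3 + 1)) 0 > 3 v x`, contradiction; `≥` is `ord_add`).  So `2 v y = 3 v x` (`v lam = 0`), hence
`v x = - 2 m`, `v y = - 3 m` with `m ≥ 1`.  `δ_ord`: `v (δ x) ≥ - 2 m - 1 - b`, so `v (δ x / y) ≥ m - 1 - b ≥ - b`.
Case 2, `0 ≤ v x`: then `0 ≤ v (x ^ 3 + 1) = 2 v y`, so `0 ≤ v y`.
 2a, `v y = 0`: `v (δ x) ≥ - b` by `δ_int`, so `v (δ x / y) ≥ - b`.
 2b, `0 < v y`: then `0 < v (x ^ 3 + 1)`, so `v x = 0` (if `0 < v x` then `1 = (x ^ 3 + 1) + (- x ^ 3)` would have positive order).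
  Apply `δ` to the equation: `2 lam y δ y = 3 x ^ 2 δ x`, so `δ y ≠ 0` and `δ x / y = 2 lam δ y / (3 x ^ 2)`, whence
  `v (δ x / y) = v (δ y) ≥ - b` by `δ_int` for `y`.
PROOF of `dep`.  Write `S = C.S`, `emb = C.emb` (injective, a ring homomorphism of fields; `L` has characteristic zero).  `S.findim S.b
S.b_fin` gives `n`.  Given the points put `f j = C.D i (x j) / y j`.  `y j ≠ 0`: if `y j = 0` then `x j ^ 3 = - 1`, and applying `D`:
`3 (x j) ^ 2 D (x j) = 0`, so `D (x j) = 0` (`x j ≠ 0`), contradiction.  `emb (f j) = S.δ i (emb (x j)) / emb (y j)` (`C.hD`), and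
`bound` applies to `emb (x j)`, `emb (y j)`.  So `emb ∘ f` is not linearly independent over `ℤ`
(`Fintype.not_linearIndependent_iff`), and `emb` is injective and additive.
-/

set_option autoImplicit false

open Polynomial

namespace UD0

universe u

theorem alg_intT {L : Type u} [Field L] (n : ℤ) : Alg (n : L) := by
  refine ⟨X - C n, X_sub_C_ne_zero n, ?_⟩
  simp

section ord

variable {d : ℕ} {L : Type u} [Field L] (S : PF d L) (P : S.I)

theorem tcA_ord_one : S.ord P 1 = 0 := by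
  have h := S.ord_mul P (one_ne_zero (α := L)) (one_ne_zero (α := L))
  rw [mul_one] at h
  linarith

theorem tcA_ord_int (n : ℤ) : S.ord P (n : L) = 0 := S.const' (alg_intT n) P

theorem tcA_ord_pow {x : L} (hx : x ≠ 0) (n : ℕ) : S.ord P (x ^ n) = n * S.ord P x := by
  induction n with
  | zero => simp [tcA_ord_one]
  | succ n ih =>
    rw [pow_succ, S.ord_mul P (pow_ne_zero n hx) hx, ih]
    push_cast
    ring

theorem tcA_ord_div {x y : L} (hx : x ≠ 0) (hy : y ≠ 0) :
    S.ord P (x / y) = S.ord P x - S.ord P y := by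
  have h := S.ord_mul P (div_ne_zero hx hy) hy
  rw [div_mul_cancel₀ x hy] at h
  linarith

theorem tcA_ord_neg {x : L} (hx : x ≠ 0) : S.ord P (-x) = S.ord P x := by
  have h := S.ord_mul P (neg_ne_zero.mpr (one_ne_zero (α := L))) hx
  have h1 := tcA_ord_int S P (-1)
  push_cast at h1
  rw [h1] at h
  rw [neg_one_mul] at h
  linarith

end ord

theorem bound {d : ℕ} {L : Type u} [Field L] [CharZero L] (S : PF d L) (i : Fin d) {lam : ℤ}
    (hlam : lam ≠ 0) {x y : L} (hy : y ≠ 0) (hE : (lam : L) * y ^ 2 = x ^ 3 + 1)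
    (hx : S.δ i x ≠ 0) (P : S.I) : -(S.b P : ℤ) ≤ S.ord P (S.δ i x / y) := by
  have hx0 : x ≠ 0 := by
    rintro rfl
    exact hx (map_zero _)
  have hlam' : (lam : L) ≠ 0 := Int.cast_ne_zero.mpr hlam
  have hne : x ^ 3 + 1 ≠ 0 := by
    rw [← hE]
    exact mul_ne_zero hlam' (pow_ne_zero 2 hy)
  have hv3 : S.ord P (x ^ 3 + 1) = 2 * S.ord P y := by
    rw [← hE, S.ord_mul P hlam' (pow_ne_zero 2 hy), tcA_ord_int, tcA_ord_pow S P hy]
    push_cast
    ring
  have hx3 : S.ord P (x ^ 3) = 3 * S.ord P x := by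
    rw [tcA_ord_pow S P hx0]
    push_cast
    ring
  have h1 := tcA_ord_one S P
  have hadd := S.ord_add P (pow_ne_zero 3 hx0) one_ne_zero hne
  have hm1 : S.ord P (-1 : L) = 0 := by
    rw [tcA_ord_neg S P one_ne_zero, h1]
  have hsub := S.ord_add P hne (neg_ne_zero.mpr (one_ne_zero (α := L)))
    (by rw [add_neg_cancel_right]; exact pow_ne_zero 3 hx0)
  rw [add_neg_cancel_right] at hsub
  have hx3n : S.ord P (-(x ^ 3)) = 3 * S.ord P x := by
    rw [tcA_ord_neg S P (pow_ne_zero 3 hx0), hx3]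
  have hsub1 := S.ord_add P hne (neg_ne_zero.mpr (pow_ne_zero 3 hx0))
    (by
      have : x ^ 3 + 1 + -x ^ 3 = 1 := by ring
      rw [this]; exact one_ne_zero)
  have he1 : x ^ 3 + 1 + -x ^ 3 = 1 := by ring
  rw [he1, h1, hx3n] at hsub1
  rw [hx3, h1] at hadd
  rw [hm1, hx3] at hsub
  rw [tcA_ord_div S P hx hy]
  rcases lt_or_ge (S.ord P x) 0 with hneg | hnn
  · -- a pole of `x`
    have hd := S.δ_ord P i hx0 hx
    rcases min_le_iff.mp hsub with h | h
    · rcases min_le_iff.mp hadd with h' | h'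
      · omega
      · omega
    · omega
  · have h2 : 0 ≤ S.ord P y := by
      rcases min_le_iff.mp hadd with h' | h'
      · omega
      · omega
    rcases eq_or_lt_of_le h2 with h0 | hpos
    · have hd := S.δ_int P i hx0 hnn hx
      omega
    · have hx00 : S.ord P x = 0 := by
        rcases min_le_iff.mp hsub1 with h' | h'
        · omega
        · omega
      -- differentiate the equation
      have hD := congrArg (S.δ i) hE
      have hDl : S.δ i ((lam : L) * y ^ 2) = (lam : L) * (2 * y * S.δ i y) := by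
        rw [Derivation.leibniz, Derivation.leibniz_pow]
        have h0 : S.δ i (lam : L) = 0 := Derivation.map_intCast _ _
        rw [h0, smul_zero, add_zero]
        simp only [smul_eq_mul, nsmul_eq_mul, Nat.cast_ofNat, pow_one, Nat.add_one_sub_one]
        ring
      have hDr : S.δ i (x ^ 3 + 1) = 3 * x ^ 2 * S.δ i x := by
        rw [map_add, Derivation.leibniz_pow, Derivation.map_one_eq_zero]
        simp [smul_eq_mul]
        ring
      rw [hDl, hDr] at hD
      have h3 : (3 : L) ≠ 0 := by norm_num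
      have h2' : (2 : L) ≠ 0 := by norm_num
      have hdy : S.δ i y ≠ 0 := by
        intro h
        rw [h] at hD
        have : 3 * x ^ 2 * S.δ i x ≠ 0 := mul_ne_zero (mul_ne_zero h3 (pow_ne_zero 2 hx0)) hx
        apply this
        rw [← hD]
        ring
      have hv := congrArg (S.ord P) hD
      have hv2 : S.ord P (2 : L) = 0 := by
        have := tcA_ord_int S P 2
        push_cast at this
        exact this
      have hv3' : S.ord P (3 : L) = 0 := by
        have := tcA_ord_int S P 3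
        push_cast at this
        exact this
      rw [S.ord_mul P hlam' (mul_ne_zero (mul_ne_zero h2' hy) hdy),
        S.ord_mul P (mul_ne_zero h2' hy) hdy, S.ord_mul P h2' hy, tcA_ord_int, hv2,
        S.ord_mul P (mul_ne_zero h3 (pow_ne_zero 2 hx0)) hx, S.ord_mul P h3 (pow_ne_zero 2 hx0),
        hv3', tcA_ord_pow S P hx0, hx00] at hv
      have hd := S.δ_int P i hy h2 hdy
      push_cast at hv
      linarith

/-- a point of a twist with `D x ≠ 0` has `y ≠ 0` -/
theorem y_ne_zero {K : Type u} [Field K] [CharZero K] (D : Derivation ℤ K K) {lam x y : K}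
    (hE : lam * y ^ 2 = x ^ 3 + 1) (hx : D x ≠ 0) : y ≠ 0 := by
  rintro rfl
  have h0 : x ^ 3 + 1 = 0 := by
    rw [← hE]
    ring
  have hD := congrArg D h0
  rw [map_add, Derivation.leibniz_pow, Derivation.map_one_eq_zero, map_zero, add_zero] at hD
  have hx0 : x ≠ 0 := by
    rintro rfl
    exact hx (map_zero _)
  have h3 : (3 : K) ≠ 0 := by norm_num
  have : 3 * (x ^ 2 * D x) = 0 := by
    rw [← hD]
    simp [smul_eq_mul]
  exact mul_ne_zero h3 (mul_ne_zero (pow_ne_zero 2 hx0) hx) this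

theorem dep {K : Type u} [Field K] [CharZero K] {P : Pres K} (C : Chart P) (i : Fin P.d) :
    ∃ n : ℕ, ∀ (lam : Fin n → ℤ) (x y : Fin n → K), (∀ j, lam j ≠ 0) →
      (∀ j, (lam j : K) * y j ^ 2 = x j ^ 3 + 1) → (∀ j, C.D i (x j) ≠ 0) →
      ∃ c : Fin n → ℤ, c ≠ 0 ∧ ∑ j, (c j : K) * (C.D i (x j) / y j) = 0 := by
  have : CharZero C.L := charZero_of_injective_ringHom C.emb.injective
  obtain ⟨n, hn⟩ := C.S.findim C.S.b C.S.b_fin
  refine ⟨n, fun lam x y hl hE hx => ?_⟩
  have hy : ∀ j, y j ≠ 0 := fun j => y_ne_zero (C.D i) (hE j) (hx j)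
  have hf : ∀ j, C.emb (C.D i (x j) / y j) = C.S.δ i (C.emb (x j)) / C.emb (y j) := by
    intro j
    rw [map_div₀, C.hD]
  have hli : ¬ LinearIndependent ℤ (fun j => C.emb (C.D i (x j) / y j)) := by
    refine hn _ (fun j Q _ => ?_)
    rw [hf]
    refine bound C.S i (hl j) ?_ ?_ ?_ Q
    · exact (map_ne_zero C.emb).mpr (hy j)
    · have := congrArg C.emb (hE j)
      simpa using this
    · rw [← C.hD]
      exact (map_ne_zero C.emb).mpr (hx j)
  rw [Fintype.not_linearIndependent_iff] at hli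
  obtain ⟨g, hg, k, hk⟩ := hli
  refine ⟨g, fun h => hk (by rw [h]; rfl), ?_⟩
  apply C.emb.injective
  rw [map_zero, ← hg, map_sum]
  refine Finset.sum_congr rfl (fun j _ => ?_)
  rw [map_mul, map_intCast, zsmul_eq_mul]

end UD0
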