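import Pool.Agent.UD0.TcE
import Pool.Agent.UD0.LsA

/-!
# UD0, Theorem C, part F: constants go to the ground field

PROOF of `const_image`.  Let `ι = P.φ.comp (AdjoinRoot.of P.G)`, `H.eval₂ ι z = 0`: `∑ n, φ (of (H.coeff n)) * z ^ n = 0` in `K`, hence also in
`P.loc h` (each `φ (of c)` is in `P.loc h`).  Apply `Ψ`: `∑ n, C (τ (of (H.coeff n))) * (Ψ z) ^ n = 0` (hypothesis `hΨ`).  So `Ψ z` is a root of
the polynomial `H.map (τ.comp (AdjoinRoot.of P.G)) : F[X]`, whose coefficient in degree `H.natDegree` is `τ (of H.leadingCoeff) ≠ 0` as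
`of H.leadingCoeff ∣ h` and `τ h ≠ 0`.  So `Ψ z` is algebraic over `F`, and `UD0.ps_alg` applies.
-/

set_option autoImplicit false

open Polynomial

namespace UD0

universe u

variable {K : Type u} [Field K]

theorem const_image (P : Pres K) (i : Fin P.d) {h : P.R} {F : Type*} [Field F] (τ : P.R →+* F)
    (hτ : τ h ≠ 0) (Ψ : P.loc h →+* PowerSeries F)
    (hΨ : ∀ c : MvPolynomial (Fin P.d) ℤ, MvPolynomial.pderiv i c = 0 → ∀ z : P.loc h,
      (z : K) = P.φ (AdjoinRoot.of P.G c) → Ψ z = PowerSeries.C (τ (AdjoinRoot.of P.G c)))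
    (z : P.loc h) {H : (MvPolynomial (Fin P.d) ℤ)[X]} (hH : H ≠ 0)
    (hHc : ∀ n, MvPolynomial.pderiv i (H.coeff n) = 0)
    (hHz : H.eval₂ (P.φ.comp (AdjoinRoot.of P.G)) (z : K) = 0)
    (hlc : AdjoinRoot.of P.G H.leadingCoeff ∣ h) : ∃ α : F, Ψ z = PowerSeries.C α := by
  set c : ℕ → P.loc h := fun n => ⟨P.φ (AdjoinRoot.of P.G (H.coeff n)), P.phi_mem h _⟩ with hc
  have h1 : ∑ n ∈ Finset.range (H.natDegree + 1), c n * z ^ n = 0 := by
    apply Subtype.ext
    rw [eval₂_eq_sum_range] at hHz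
    have h2 : ((∑ n ∈ Finset.range (H.natDegree + 1), c n * z ^ n : P.loc h) : K) =
        (P.loc h).subtype (∑ n ∈ Finset.range (H.natDegree + 1), c n * z ^ n) := rfl
    rw [h2, map_sum, ZeroMemClass.coe_zero, ← hHz]
    refine Finset.sum_congr rfl fun n _ => ?_
    rw [map_mul, map_pow]
    rfl
  have h3 : ∑ n ∈ Finset.range (H.natDegree + 1),
      PowerSeries.C (τ (AdjoinRoot.of P.G (H.coeff n))) * Ψ z ^ n = 0 := by
    have h4 := congrArg Ψ h1
    rw [map_sum, map_zero] at h4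
    rw [← h4]
    refine Finset.sum_congr rfl fun n _ => ?_
    rw [map_mul, map_pow, hΨ (H.coeff n) (hHc n) (c n) rfl]
  refine ps_alg ⟨H.map (τ.comp (AdjoinRoot.of P.G)), ?_, ?_⟩
  · intro h5
    have h6 : (H.map (τ.comp (AdjoinRoot.of P.G))).coeff H.natDegree = 0 := by
      rw [h5, coeff_zero]
    rw [coeff_map, coeff_natDegree, RingHom.comp_apply] at h6
    obtain ⟨k, hk⟩ := hlc
    apply hτ
    rw [hk, map_mul, h6, zero_mul]
  · rw [aeval_eq_sum_range' (lt_of_le_of_lt natDegree_map_le (Nat.lt_succ_self _)), ← h3]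
    refine Finset.sum_congr rfl fun n _ => ?_
    rw [coeff_map, Algebra.smul_def]
    rfl

end UD0
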