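import Pool.Agent.UD0.ArF
import Pool.Agent.UD0.TcF
import Pool.Agent.UD0.NoRel

/-!
# UD0, Theorem C, part G: no minimal relation

PROOF of `chi_pm` : `n : ℕ`, `F` of characteristic `p`, `(n : F) ≠ 0`.  In `ZMod p`: `(n : ZMod p) ≠ 0` and
`n ^ (p / 2) = 1` or `-1` (`ZMod.pow_div_two_eq_neg_one_or_one`), `p / 2 = (p - 1) / 2` for odd `p`; map to `F` (`ZMod.castHom`, or
`algebraMap` for the `ZMod p`-algebra structure `ZMod.algebra F p`).
PROOF of `chi_jac` : `jacobiSym D₀ p = legendreSym p D₀ = -1`, `legendreSym.eq_pow`: `(D₀ : ZMod p) ^ (p / 2) = -1`; map to `F`.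
PROOF of `no_min`.  Elements of `P.R`: let
* `h₁` with `x j, y j, (y j)⁻¹, a r, (a r)⁻¹, W⁻¹` all in `P.loc h₁` (`P.exists_loc` for a finite set), where `W` is the determinant of `hdet`;
* `H_r` the relation of `const_alg` for `a r`, `c_r = AdjoinRoot.of P.G (H_r.leadingCoeff) ≠ 0` (`of` is injective: `P.G` is monic and not
 constant; or: `of c = 0` means `P.G ∣ C c`, impossible for degree reasons);
* `h = P.disc * h₁ * ∏ r, c_r * ∏ j, (lam j : P.R)`, not zero: `P.disc ≠ 0` is `UD0.disc_ne_zero` (`UD0/ArE.lean`), `P.R` is a domain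
 (`UD0.isDomain_R`), of characteristic zero (it embeds in `K`).
`closed_point` with `D₀ = lam 0 * lam 1` (`q ∣ lam 0` exactly once, `q ∤ lam 1`) gives `F, p, f, τ` with `τ h ≠ 0`.  `taylor` gives `D'`, `Ψ`.
All the elements above lie in `P.loc h` (`P.loc_mono`), and so do their images under `D` (`D'`).  Let `X j, Y j, V j = (Y j)⁻¹, A r : P.loc h` be
the elements as members of the subring, and `x' j = Ψ (X j)`, `y' j = Ψ (Y j)`, `w' j = Ψ (V j)`, so
`C (lam j : F) * y' j ^ 2 = x' j ^ 3 + 1`, `y' j * w' j = 1` (apply `Ψ` to identities in `P.loc h`; `Ψ` of the integer `lam j` is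
`C (lam j : F)`: `map_natCast`).  By `const_image` `Ψ (A r) = C (α r)`; `α 0 ≠ 0` because `A 0` is a unit in `P.loc h`.
`f j = D (x j) / y j = (D' (X j) * V j : P.loc h)` and `Ψ (f j) = d (x' j) * w' j`, `d = PowerSeries.derivative F`.
Relation: `hrel` in `P.loc h`, apply `Ψ`.  Determinant: the matrix `D'^[l] (f r.succ)` over `P.loc h` has determinant `W` (as an element of `K`;
`RingHom.map_det` for the inclusion `(P.loc h).subtype`, `(D'^[l] z : K) = D^[l] z`), which is a unit of `P.loc h` since `W⁻¹ ∈ P.loc h`;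
`Ψ` of it is a unit, and equals the determinant of `d^[l] (Ψ (f r.succ))` (`RingHom.map_det`, `Ψ (D'^[l] z) = d^[l] (Ψ z)`), so it is not
zero.  `lam j ≠ 0` in `F` (`lam j ∣ h`), so `chi_pm` applies (`p` odd as `p % 3 = 1` gives `p ≠ 2`); `chi_jac` gives
`(lam 0 * lam 1) ^ ((p - 1) / 2) = -1` in `F`.  `UD0.no_rel` is a contradiction.
-/

set_option autoImplicit false

open Polynomial

namespace UD0

universe u

variable {K : Type u} [Field K]

private theorem half {p : ℕ} (hp : p.Prime) (hp2 : p ≠ 2) : p / 2 = (p - 1) / 2 := by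
  have := (hp.odd_of_ne_two hp2)
  obtain ⟨k, hk⟩ := this
  omega

theorem chi_pm {F : Type*} [Field F] (p : ℕ) [Fact p.Prime] [CharP F p] (hp2 : p ≠ 2) {n : ℕ}
    (hn : (n : F) ≠ 0) : (n : F) ^ ((p - 1) / 2) = 1 ∨ (n : F) ^ ((p - 1) / 2) = -1 := by
  have h0 : (n : ZMod p) ≠ 0 := by
    intro h
    apply hn
    have h1 := congrArg (ZMod.castHom (dvd_refl p) F) h
    rwa [map_natCast, map_zero] at h1
  have h1 := ZMod.pow_div_two_eq_neg_one_or_one p h0
  rw [half Fact.out hp2] at h1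
  rcases h1 with h1 | h1
  · left
    have h2 := congrArg (ZMod.castHom (dvd_refl p) F) h1
    rwa [map_pow, map_natCast, map_one] at h2
  · right
    have h2 := congrArg (ZMod.castHom (dvd_refl p) F) h1
    rwa [map_pow, map_natCast, map_neg, map_one] at h2

theorem chi_jac {F : Type*} [Field F] (p : ℕ) [Fact p.Prime] [CharP F p] (hp2 : p ≠ 2) {D₀ : ℤ}
    (hD : jacobiSym D₀ p = -1) : (D₀ : F) ^ ((p - 1) / 2) = -1 := by
  rw [← jacobiSym.legendreSym.to_jacobiSym] at hD
  have h1 := legendreSym.eq_pow p D₀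
  rw [hD, half Fact.out hp2] at h1
  have h2 := congrArg (ZMod.castHom (dvd_refl p) F) h1
  rw [map_pow, map_intCast, map_intCast] at h2
  rw [← h2]
  simp

private theorem of_inj [CharZero K] (P : Pres K) : Function.Injective (AdjoinRoot.of P.G) := by
  refine AdjoinRoot.of.injective_of_degree_ne_zero fun h => ?_
  have h1 : P.G.natDegree = 0 := natDegree_eq_of_degree_eq_some h
  have h2 : P.G = 1 := by
    have h4 : P.G.leadingCoeff = 1 := P.monic
    rw [leadingCoeff, h1] at h4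
    rw [eq_C_of_natDegree_eq_zero h1, h4, C_1]
  have h3 := P.irr
  rw [h2] at h3
  exact not_irreducible_one h3

theorem no_min [CharZero K] (P : Pres K) (i : Fin P.d) (D : Derivation ℤ K K)
    (hD : ∀ j, D (P.t j) = if i = j then 1 else 0) {m : ℕ} (lam : Fin (m + 2) → ℕ)
    (hlam : ∀ j, 0 < lam j) {q : ℕ} (hq : P.Good q) (hq0 : q ∣ lam 0) (hq2 : ¬ q ^ 2 ∣ lam 0)
    (hq1 : ¬ q ∣ lam 1) (x y : Fin (m + 2) → K) (hE : ∀ j, (lam j : K) * y j ^ 2 = x j ^ 3 + 1)
    (hy : ∀ j, y j ≠ 0) (a : Fin (m + 1) → K) (ha : ∀ r, a r ≠ 0) (haD : ∀ r, D (a r) = 0)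
    (hrel : D (x 0) / y 0 = ∑ r, a r * (D (x r.succ) / y r.succ))
    (hdet : (Matrix.of fun l r : Fin (m + 1) => D^[(l : ℕ)] (D (x r.succ) / y r.succ)).det ≠ 0) :
    False := by
  classical
  have _dom : IsDomain P.R := isDomain_R P
  choose H hH0 hHc hHe using fun r => const_alg P i D hD (haD r)
  obtain ⟨W, hW⟩ : ∃ W : K, W = (Matrix.of fun l r : Fin (m + 1) =>
    D^[(l : ℕ)] (D (x r.succ) / y r.succ)).det := ⟨_, rfl⟩
  rw [← hW] at hdet
  obtain ⟨h₁, hh₁, hloc⟩ := P.exists_loc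
    (Finset.univ.image x ∪ Finset.univ.image y ∪ Finset.univ.image (fun j => (y j)⁻¹) ∪
      Finset.univ.image a ∪ Finset.univ.image (fun r => (a r)⁻¹) ∪ {W⁻¹})
  obtain ⟨h, hh⟩ : ∃ h : P.R, h = P.disc * h₁ * (∏ r, AdjoinRoot.of P.G (H r).leadingCoeff) *
    ∏ j, (lam j : P.R) := ⟨_, rfl⟩
  have hcast : ∀ j, (lam j : P.R) ≠ 0 := by
    intro j h0
    have h1 := congrArg P.φ h0
    rw [map_natCast, map_zero] at h1
    exact (hlam j).ne' (by exact_mod_cast h1)
  have hne : h ≠ 0 := by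
    rw [hh]
    refine mul_ne_zero (mul_ne_zero (mul_ne_zero (disc_ne_zero P) hh₁) ?_) ?_
    · refine Finset.prod_ne_zero_iff.2 fun r _ => ?_
      rw [Ne, map_eq_zero_iff _ (of_inj P)]
      exact leadingCoeff_ne_zero.2 (hH0 r)
    · exact Finset.prod_ne_zero_iff.2 fun j _ => hcast j
  have hd1 : P.disc ∣ h := by
    rw [hh, mul_assoc, mul_assoc]
    exact dvd_mul_right _ _
  have hd2 : h₁ ∣ h := by
    rw [hh]
    exact dvd_mul_of_dvd_left (dvd_mul_of_dvd_left (dvd_mul_left _ _) _) _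
  have hd3 : ∀ r, AdjoinRoot.of P.G (H r).leadingCoeff ∣ h := by
    intro r
    rw [hh]
    exact dvd_mul_of_dvd_left (dvd_mul_of_dvd_right
      (Finset.dvd_prod_of_mem (fun r => AdjoinRoot.of P.G (H r).leadingCoeff)
        (Finset.mem_univ r)) _) _
  have hd4 : ∀ j, (lam j : P.R) ∣ h := by
    intro j
    rw [hh]
    exact dvd_mul_of_dvd_right
      (Finset.dvd_prod_of_mem (fun j => (lam j : P.R)) (Finset.mem_univ j)) _
  -- the closed point
  have hqp : q.Prime := hq.1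
  obtain ⟨F, _, _, p, f, τ, hp, hp3, hf, hF, _, hJ, hτ⟩ :=
    closed_point P hq (D₀ := ((lam 0 * lam 1 : ℕ) : ℤ))
      (by exact_mod_cast Nat.mul_pos (hlam 0) (hlam 1))
      (by exact_mod_cast Dvd.dvd.mul_right hq0 (lam 1))
      (by
        intro h2
        have h3 : q ^ 2 ∣ lam 0 * lam 1 := by exact_mod_cast h2
        have h4 : Nat.Coprime (q ^ 2) (lam 1) :=
          Nat.Coprime.pow_left 2 ((Nat.Prime.coprime_iff_not_dvd hqp).2 hq1)
        exact hq2 (h4.dvd_of_dvd_mul_right h3)) hne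
  have _fp : Fact p.Prime := ⟨hp⟩
  have hp2 : p ≠ 2 := by
    rintro rfl
    norm_num at hp3
  obtain ⟨D', Ψ, hD1, hD2, -, hΨ⟩ := taylor P i D hD hne hd1 τ hτ
  have hmem : ∀ z ∈ Finset.univ.image x ∪ Finset.univ.image y ∪
      Finset.univ.image (fun j => (y j)⁻¹) ∪ Finset.univ.image a ∪
      Finset.univ.image (fun r => (a r)⁻¹) ∪ {W⁻¹}, z ∈ P.loc h :=
    fun z hz => P.loc_mono hd2 (hloc z hz)
  have hmx : ∀ j, x j ∈ P.loc h := fun j => hmem _ (by
    simp only [Finset.mem_union, Finset.mem_image, Finset.mem_univ, true_and]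
    exact Or.inl (Or.inl (Or.inl (Or.inl (Or.inl ⟨j, rfl⟩)))))
  have hmy : ∀ j, y j ∈ P.loc h := fun j => hmem _ (by
    simp only [Finset.mem_union, Finset.mem_image, Finset.mem_univ, true_and]
    exact Or.inl (Or.inl (Or.inl (Or.inl (Or.inr ⟨j, rfl⟩)))))
  have hmv : ∀ j, (y j)⁻¹ ∈ P.loc h := fun j => hmem _ (by
    simp only [Finset.mem_union, Finset.mem_image, Finset.mem_univ, true_and]
    exact Or.inl (Or.inl (Or.inl (Or.inr ⟨j, rfl⟩))))
  have hma : ∀ r, a r ∈ P.loc h := fun r => hmem _ (by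
    simp only [Finset.mem_union, Finset.mem_image, Finset.mem_univ, true_and]
    exact Or.inl (Or.inl (Or.inr ⟨r, rfl⟩)))
  have hmb : ∀ r, (a r)⁻¹ ∈ P.loc h := fun r => hmem _ (by
    simp only [Finset.mem_union, Finset.mem_image, Finset.mem_univ, true_and]
    exact Or.inl (Or.inr ⟨r, rfl⟩))
  have hmW : W⁻¹ ∈ P.loc h := hmem _ (by
    simp only [Finset.mem_union, Finset.mem_singleton]
    exact Or.inr trivial)
  have hlamF : ∀ j, (lam j : F) ≠ 0 := by
    intro j h0
    obtain ⟨c, hc⟩ := hd4 j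
    apply hτ
    rw [hc, map_mul, map_natCast, h0, zero_mul]
  choose α hα using fun r => const_image P i τ hτ Ψ hΨ ⟨a r, hma r⟩ (hH0 r) (hHc r) (hHe r) (hd3 r)
  have hsub : Function.Injective (P.loc h).subtype := Subtype.val_injective
  refine no_rel p hp3 hF hf (fun j => (lam j : F)) (fun j => chi_pm p hp2 (hlamF j)) ?_
    (fun j => Ψ ⟨x j, hmx j⟩) (fun j => Ψ ⟨y j, hmy j⟩) (fun j => Ψ ⟨(y j)⁻¹, hmv j⟩) ?_ ?_ α ?_ ?_ ?_
  · have h1 := chi_jac (F := F) p hp2 hJ
    rw [Int.cast_natCast, Nat.cast_mul] at h1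
    exact h1
  · intro j
    have h1 : (lam j : P.loc h) * (⟨y j, hmy j⟩ : P.loc h) ^ 2 =
        (⟨x j, hmx j⟩ : P.loc h) ^ 3 + 1 := by
      apply hsub
      rw [map_mul, map_add, map_pow, map_pow, map_one, map_natCast]
      exact hE j
    have h2 := congrArg Ψ h1
    rw [map_mul, map_add, map_pow, map_pow, map_one, map_natCast] at h2
    rw [map_natCast]
    exact h2
  · intro j
    have h1 : (⟨y j, hmy j⟩ : P.loc h) * ⟨(y j)⁻¹, hmv j⟩ = 1 := by
      apply hsub
      rw [map_mul, map_one]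
      exact mul_inv_cancel₀ (hy j)
    have h2 := congrArg Ψ h1
    rw [map_mul, map_one] at h2
    exact h2
  · intro h0
    have h1 : (⟨a 0, hma 0⟩ : P.loc h) * ⟨(a 0)⁻¹, hmb 0⟩ = 1 := by
      apply hsub
      rw [map_mul, map_one]
      exact mul_inv_cancel₀ (ha 0)
    have h2 := congrArg Ψ h1
    rw [map_mul, map_one, hα 0, h0, map_zero, zero_mul] at h2
    exact zero_ne_one h2
  · have h1 : D' ⟨x 0, hmx 0⟩ * (⟨(y 0)⁻¹, hmv 0⟩ : P.loc h) =
        ∑ r : Fin (m + 1), (⟨a r, hma r⟩ : P.loc h) *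
          (D' ⟨x r.succ, hmx r.succ⟩ * ⟨(y r.succ)⁻¹, hmv r.succ⟩) := by
      apply hsub
      rw [map_mul, map_sum]
      simp only [map_mul]
      simp only [Subring.subtype_apply, hD1]
      simpa only [div_eq_mul_inv] using hrel
    have h2 := congrArg Ψ h1
    rw [map_mul, map_sum] at h2
    simp only [map_mul, hD2, hα] at h2
    exact h2
  · have hit : ∀ (l : ℕ) (z : P.loc h), ((D'^[l] z : P.loc h) : K) = D^[l] (z : K) := by
      intro l
      induction l with
      | zero => intro z; rfl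
      | succ l ih =>
        intro z
        rw [Function.iterate_succ_apply, Function.iterate_succ_apply, ih, hD1]
    have hit2 : ∀ (l : ℕ) (z : P.loc h), Ψ (D'^[l] z) = (PowerSeries.derivative F)^[l] (Ψ z) := by
      intro l
      induction l with
      | zero => intro z; rfl
      | succ l ih =>
        intro z
        rw [Function.iterate_succ_apply, Function.iterate_succ_apply, ih, hD2]
    obtain ⟨M, hM⟩ : ∃ M : Matrix (Fin (m + 1)) (Fin (m + 1)) (P.loc h),
      M = Matrix.of fun l r : Fin (m + 1) =>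
        D'^[(l : ℕ)] (D' ⟨x r.succ, hmx r.succ⟩ * ⟨(y r.succ)⁻¹, hmv r.succ⟩) := ⟨_, rfl⟩
    have h1 : (P.loc h).subtype M.det = W := by
      rw [RingHom.map_det, hW]
      congr 1
      ext l r
      rw [RingHom.mapMatrix_apply, Matrix.map_apply, hM, Matrix.of_apply, Matrix.of_apply,
        Subring.subtype_apply, hit]
      congr 1
      rw [Subring.coe_mul, hD1, div_eq_mul_inv]
    have h2 : M.det * ⟨W⁻¹, hmW⟩ = 1 := by
      apply hsub
      rw [map_mul, map_one, h1]
      exact mul_inv_cancel₀ hdet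
    have h3 : Ψ M.det ≠ 0 := by
      intro h0
      have h4 := congrArg Ψ h2
      rw [map_mul, map_one, h0, zero_mul] at h4
      exact zero_ne_one h4
    rw [RingHom.map_det] at h3
    have h5 : Ψ.mapMatrix M = Matrix.of fun l r : Fin (m + 1) =>
        (PowerSeries.derivative F)^[(l : ℕ)] (PowerSeries.derivative F (Ψ ⟨x r.succ, hmx r.succ⟩) *
          Ψ ⟨(y r.succ)⁻¹, hmv r.succ⟩) := by
      ext1 l r
      rw [RingHom.mapMatrix_apply, Matrix.map_apply, hM, Matrix.of_apply, Matrix.of_apply, hit2,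
        map_mul, hD2]
    rw [h5] at h3
    exact h3

end UD0
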