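import Mathlib

/-!
# UD0: the Wronskian

`K` a field with a derivation `D`; the constants are the `c` with `D c = 0`.
PROOF of `wron` (induction on `m`; for `m = 0` the determinant is `1`).  Let `f : Fin (m + 1) → K` be
independent over the constants.  The family `f ∘ castSucc` is independent, so by induction its
Wronskian is not zero.  Suppose the big determinant is zero: there is a nonzero vector `c` with
`∑ j, c j * D^[l] (f j) = 0` for all `l ≤ m` (`Matrix.exists_mulVec_eq_zero_iff`).  If `c (last m) = 0` the
vector `c ∘ castSucc` is in the kernel of the small Wronskian matrix, so it is zero, contradiction.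
So we may divide: `c (last m) = 1`.  Apply `D` to the relations for `l < m` and subtract the relation
for `l + 1`: `∑ j, D (c j) * D^[l] (f j) = 0` for `l < m`, and `D (c (last m)) = D 1 = 0`, so
`D (c j) = 0` for `j < m` by the small Wronskian.  Hence all `c j` are constants and the relation for
`l = 0` contradicts independence (`c (last m) = 1`).
PROOF of `min_dep`.  Among the finite sets `s` of indices for which there is a relation
`∑ i ∈ s, c i * f i = 0` with constants `c i` not all zero on `s`, choose one of minimal cardinality.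
Minimality: all `c i` (`i ∈ s`) are nonzero (drop the zero ones), and every family indexed by a proper
subset of `s` is independent over the constants.  `s` has at least two elements as `f i ≠ 0`.  Choose
`i₀ ∈ s`; enumerate `s \ {i₀}` by `Fin (m + 1)`; together `j : Fin (m + 2) → ι` is injective with `j 0 = i₀`, and
`f (j 0) = ∑ r, a r * f (j r.succ)` with `a r = - c (j r.succ) / c i₀`, a nonzero constant (the constants form a
subfield).  The Wronskian of `f ∘ j ∘ succ` is nonzero by `wron`.
-/

set_option autoImplicit false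

namespace UD0

variable {K : Type*} [Field K]

/-- The Wronskian matrix has trivial kernel if its determinant is not zero. -/
theorem wron_ker (D : Derivation ℤ K K) {m : ℕ} (g : Fin m → K)
    (hg : (Matrix.of fun l j : Fin m => (D^[(l : ℕ)] (g j))).det ≠ 0) (c : Fin m → K)
    (hc : ∀ l : Fin m, ∑ j, c j * D^[(l : ℕ)] (g j) = 0) (i : Fin m) : c i = 0 := by
  by_contra hne
  apply hg
  rw [← Matrix.exists_mulVec_eq_zero_iff]
  refine ⟨c, fun h0 => hne (by rw [h0]; rfl), ?_⟩
  funext l
  rw [Matrix.mulVec, dotProduct]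
  simp only [Matrix.of_apply, Pi.zero_apply]
  rw [← hc l]
  exact Finset.sum_congr rfl fun j _ => mul_comm _ _

theorem wron (D : Derivation ℤ K K) {m : ℕ} (f : Fin m → K)
    (h : ∀ c : Fin m → K, (∀ i, D (c i) = 0) → ∑ i, c i * f i = 0 → ∀ i, c i = 0) :
    (Matrix.of fun l j : Fin m => (D^[(l : ℕ)] (f j))).det ≠ 0 := by
  induction m with
  | zero => simp
  | succ m ih =>
    have ih' := ih (fun i => f i.castSucc) (by
      intro c hc hs i
      have h1 := h (Fin.snoc c 0) (by
        intro i
        refine Fin.lastCases ?_ (fun j => ?_) i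
        · simp
        · simpa using hc j) (by
        rw [Fin.sum_univ_castSucc]
        simpa using hs) i.castSucc
      simpa using h1)
    intro hdet
    rw [← Matrix.exists_mulVec_eq_zero_iff] at hdet
    obtain ⟨v, hv0, hv⟩ := hdet
    have hv' : ∀ l : ℕ, l < m + 1 → ∑ j, v j * D^[l] (f j) = 0 := by
      intro l hl
      have h1 := congrFun hv ⟨l, hl⟩
      rw [Matrix.mulVec, dotProduct] at h1
      simp only [Matrix.of_apply, Pi.zero_apply] at h1
      rw [← h1]
      exact Finset.sum_congr rfl fun j _ => mul_comm _ _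
    by_cases hl : v (Fin.last m) = 0
    · apply hv0
      have h2 := wron_ker D (fun i => f i.castSucc) ih' (fun i => v i.castSucc) (by
        intro l
        have h1 := hv' l (by omega)
        rw [Fin.sum_univ_castSucc, hl, zero_mul, add_zero] at h1
        exact h1)
      funext i
      refine Fin.lastCases ?_ (fun j => ?_) i
      · exact hl
      · exact h2 j
    · have hc' : ∀ l : ℕ, l < m + 1 → ∑ j, (v j / v (Fin.last m)) * D^[l] (f j) = 0 := by
        intro l hl'
        have h1 := hv' l hl'
        have h2 : ∑ j, (v j / v (Fin.last m)) * D^[l] (f j) =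
            (v (Fin.last m))⁻¹ * ∑ j, v j * D^[l] (f j) := by
          rw [Finset.mul_sum]
          exact Finset.sum_congr rfl fun j _ => by ring
        rw [h2, h1, mul_zero]
      have hlast : v (Fin.last m) / v (Fin.last m) = 1 := div_self hl
      have hD : ∀ j : Fin m, D (v j.castSucc / v (Fin.last m)) = 0 := by
        apply wron_ker D (fun i => f i.castSucc) ih'
        intro l
        have h1 := hc' l (by omega)
        have h2 := hc' (l + 1) (by omega)
        have h3 := congrArg D h1
        rw [map_sum, map_zero] at h3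
        simp only [Derivation.leibniz, smul_eq_mul] at h3
        rw [Finset.sum_add_distrib] at h3
        have h4 : ∑ j, (v j / v (Fin.last m)) * D (D^[(l : ℕ)] (f j)) = 0 := by
          rw [← h2]
          exact Finset.sum_congr rfl fun j _ => by rw [Function.iterate_succ_apply']
        rw [h4, zero_add, Fin.sum_univ_castSucc, hlast] at h3
        simp only [Derivation.map_one_eq_zero, mul_zero, add_zero] at h3
        rw [← h3]
        exact Finset.sum_congr rfl fun j _ => mul_comm _ _
      have h5 := h (fun j => v j / v (Fin.last m)) (by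
        intro i
        refine Fin.lastCases ?_ (fun j => ?_) i
        · rw [hlast]; exact D.map_one_eq_zero
        · exact hD j) (by simpa using hc' 0 (by omega)) (Fin.last m)
      rw [hlast] at h5
      exact one_ne_zero h5

theorem min_dep (D : Derivation ℤ K K) {ι : Type*} [Fintype ι] (f : ι → K) (hf : ∀ i, f i ≠ 0)
    (hdep : ∃ c : ι → K, (∀ i, D (c i) = 0) ∧ ∑ i, c i * f i = 0 ∧ ∃ i, c i ≠ 0) :
    ∃ (m : ℕ) (j : Fin (m + 2) → ι) (a : Fin (m + 1) → K), Function.Injective j ∧
      (∀ r, a r ≠ 0) ∧ (∀ r, D (a r) = 0) ∧ f (j 0) = ∑ r, a r * f (j r.succ) ∧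
      (Matrix.of fun l r : Fin (m + 1) => (D^[(l : ℕ)] (f (j r.succ)))).det ≠ 0 := by
  classical
  have hex : ∃ k : ℕ, ∃ c : ι → K, (∀ i, D (c i) = 0) ∧ ∑ i, c i * f i = 0 ∧ (∃ i, c i ≠ 0) ∧
      (Finset.univ.filter fun i => c i ≠ 0).card = k := by
    obtain ⟨c, h1, h2, h3⟩ := hdep
    exact ⟨_, c, h1, h2, h3, rfl⟩
  obtain ⟨c, hc, hs, ⟨i₀, hi₀⟩, hk⟩ := Nat.find_spec hex
  have hmin : ∀ c' : ι → K, (∀ i, D (c' i) = 0) → ∑ i, c' i * f i = 0 → (∃ i, c' i ≠ 0) →
      (Finset.univ.filter fun i => c i ≠ 0).card ≤
        (Finset.univ.filter fun i => c' i ≠ 0).card := by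
    intro c' h1 h2 h3
    rw [hk]
    exact Nat.find_min' hex ⟨c', h1, h2, h3, rfl⟩
  set s := Finset.univ.filter fun i => c i ≠ 0 with hsdef
  have hms : ∀ i, i ∈ s ↔ c i ≠ 0 := by simp [hsdef]
  have hi₀s : i₀ ∈ s := (hms i₀).2 hi₀
  set t := s.erase i₀ with htdef
  have hsum : c i₀ * f i₀ + ∑ i ∈ t, c i * f i = 0 := by
    rw [← hs, htdef, Finset.add_sum_erase s (fun i => c i * f i) hi₀s]
    refine Finset.sum_subset (Finset.subset_univ _) fun i _ hi => ?_
    rw [hms, not_not] at hi
    rw [hi, zero_mul]
  have htne : t.card ≠ 0 := by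
    intro h0
    rw [Finset.card_eq_zero] at h0
    rw [h0, Finset.sum_empty, add_zero] at hsum
    exact (mul_ne_zero hi₀ (hf i₀)) hsum
  obtain ⟨m, hm⟩ := Nat.exists_eq_succ_of_ne_zero htne
  have e : Fin (m + 1) ≃ t := (Finset.equivFinOfCardEq hm).symm
  have het : ∀ r, ((e r : t) : ι) ∈ t := fun r => (e r).2
  have hcne : ∀ r, c (e r) ≠ 0 := fun r => (hms _).1 (Finset.mem_of_mem_erase (het r))
  have hsumt : ∀ g : ι → K, ∑ i ∈ t, g i = ∑ r : Fin (m + 1), g (e r) := by
    intro g
    rw [← Finset.sum_coe_sort t g]
    exact (Equiv.sum_comp e (fun i : t => g i)).symm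
  refine ⟨m, Fin.cons i₀ (fun r => ((e r : t) : ι)), fun r => -(c (e r) / c i₀), ?_, ?_, ?_, ?_, ?_⟩
  · rw [Fin.cons_injective_iff]
    refine ⟨?_, fun a b hab => e.injective (Subtype.ext hab)⟩
    rintro ⟨r, hr⟩
    exact (Finset.ne_of_mem_erase (het r)) hr
  · intro r
    exact neg_ne_zero.2 (div_ne_zero (hcne r) hi₀)
  · intro r
    rw [map_neg, div_eq_mul_inv, D.leibniz, D.leibniz_inv, hc, hc]
    simp
  · simp only [Fin.cons_zero, Fin.cons_succ]
    rw [hsumt] at hsum
    have h1 : ∑ r, -(c (e r) / c i₀) * f (e r) = -(c i₀)⁻¹ * ∑ r, c (e r) * f (e r) := by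
      rw [Finset.mul_sum]
      exact Finset.sum_congr rfl fun r _ => by ring
    rw [h1, eq_neg_of_add_eq_zero_right hsum]
    field_simp
  · simp only [Fin.cons_succ]
    apply wron
    intro c' hc' hs' r
    by_contra hne
    let c'' : ι → K := fun i => if h : i ∈ t then c' (e.symm ⟨i, h⟩) else 0
    have hc'' : ∀ r, c'' (e r) = c' r := by
      intro r
      simp only [c'', dif_pos (het r)]
      congr 1
      exact e.symm_apply_apply r
    have hout : ∀ i, i ∉ t → c'' i = 0 := fun i hi => by simp only [c'', dif_neg hi]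
    have h1 := hmin c'' (by
      intro i
      by_cases hi : i ∈ t
      · simp only [c'', dif_pos hi]; exact hc' _
      · rw [hout i hi, map_zero]) (by
      rw [← Finset.sum_subset (Finset.subset_univ t) (fun i _ hi => by rw [hout i hi, zero_mul]),
        hsumt]
      simpa only [hc''] using hs') ⟨e r, by rw [hc'']; exact hne⟩
    have h2 : (Finset.univ.filter fun i => c'' i ≠ 0) ⊆ t := by
      intro i hi
      rw [Finset.mem_filter] at hi
      by_contra hit
      exact hi.2 (hout i hit)
    have h3 := Finset.card_le_card h2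
    have h4 : t.card < s.card := Finset.card_erase_lt_of_mem hi₀s
    omega

end UD0
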