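import Pool.Agent.UD0.ArH
import Pool.Agent.UD0.TcA
import Pool.Agent.UD0.TcG
import Pool.Agent.UD0.Wron

/-!
# UD0, Theorem C: a twist with only constant points

-/

set_option autoImplicit false

open Polynomial

namespace UD0

universe u

variable {K : Type u} [Field K]

/-- for one derivation only finitely many candidates have a nonconstant point -/
theorem few [CharZero K] {P : Pres K} (C : Chart P) (i : Fin P.d) {l : ℕ} (hl : l.Prime)
    {a q : ℕ → ℕ} (hq : ∀ j, P.Good (q j)) (h1 : ∀ j, q j ∣ a j ^ 3 + l ^ 6)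
    (h2 : ∀ j, ¬ q j ^ 2 ∣ a j ^ 3 + l ^ 6) (h3 : ∀ i j, i ≠ j → ¬ q j ∣ a i ^ 3 + l ^ 6) :
    {j : ℕ | ∃ x y : K, ((a j : K) ^ 3 + (l : K) ^ 6) * y ^ 2 = x ^ 3 + 1 ∧
      C.D i x ≠ 0}.Finite := by
  classical
  by_contra hinf
  obtain ⟨n, hn⟩ := dep C i
  obtain ⟨t, ht, htc⟩ := Set.Infinite.exists_subset_card_eq hinf n
  let e : Fin n ≃ t := (Fintype.equivFinOfCardEq (by simpa using htc)).symm
  have hmem : ∀ k : Fin n, ∃ x y : K, ((a (e k) : K) ^ 3 + (l : K) ^ 6) * y ^ 2 = x ^ 3 + 1 ∧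
      C.D i x ≠ 0 := fun k => ht (e k).2
  choose x y hxy hD using hmem
  have hpos : ∀ k : Fin n, 0 < a (e k) ^ 3 + l ^ 6 := fun k =>
    Nat.add_pos_right _ (pow_pos hl.pos 6)
  have hE : ∀ k : Fin n, (((a (e k) ^ 3 + l ^ 6 : ℕ) : ℤ) : K) * y k ^ 2 = x k ^ 3 + 1 := by
    intro k
    rw [← hxy k]
    push_cast
    ring
  have hy : ∀ k, y k ≠ 0 := fun k => y_ne_zero (C.D i) (hE k) (hD k)
  obtain ⟨c, hc0, hc⟩ := hn (fun k => ((a (e k) ^ 3 + l ^ 6 : ℕ) : ℤ)) x y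
    (fun k => by exact_mod_cast (hpos k).ne') hE hD
  obtain ⟨m, j, b, hj, hb0, hbD, hrel, hdet⟩ := min_dep (C.D i) (fun k => C.D i (x k) / y k)
    (fun k => div_ne_zero (hD k) (hy k)) ⟨fun k => (c k : K), fun k => by simp, hc, by
      obtain ⟨k, hk⟩ := Function.ne_iff.1 hc0
      exact ⟨k, by simpa using hk⟩⟩
  refine no_min P i (C.D i) (C.ht i) (fun r => a (e (j r)) ^ 3 + l ^ 6) (fun r => hpos _)
    (hq (e (j 0))) (h1 _) (h2 _) (h3 _ _ ?_) (fun r => x (j r)) (fun r => y (j r)) (fun r => ?_)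
    (fun r => hy _) b hb0 hbD hrel hdet
  · intro hne
    have h4 : e (j 1) = e (j 0) := Subtype.ext hne
    have h5 := hj (e.injective h4)
    simp at h5
  · have h6 := hE (j r)
    rw [Int.cast_natCast] at h6
    exact h6

theorem theoremC [CharZero K] {P : Pres K} (C : Chart P) {l : ℕ} (hl : l.Prime) :
    ∃ a : ℕ, ¬ l ∣ a ∧ ∀ x y : K, ((a : K) ^ 3 + (l : K) ^ 6) * y ^ 2 = x ^ 3 + 1 →
      Alg x ∧ Alg y := by
  classical
  obtain ⟨a, q, ha, hq, h1, h2, h3⟩ := candidates P hl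
  have hfin : (⋃ i : Fin P.d, {j : ℕ | ∃ x y : K,
      ((a j : K) ^ 3 + (l : K) ^ 6) * y ^ 2 = x ^ 3 + 1 ∧ C.D i x ≠ 0}).Finite :=
    Set.finite_iUnion fun i => few C i hl hq h1 h2 h3
  obtain ⟨j, hj⟩ := Set.Infinite.exists_notMem_finite Set.infinite_univ hfin
  have hj' : ∀ i x y, ((a j : K) ^ 3 + (l : K) ^ 6) * y ^ 2 = x ^ 3 + 1 → C.D i x = 0 := by
    intro i x y hxy
    by_contra hne
    exact hj.2 (Set.mem_iUnion.2 ⟨i, x, y, hxy, hne⟩)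
  refine ⟨a j, ha j, fun x y hxy => ?_⟩
  have hx : Alg x := by
    have h4 : ∀ i, C.S.δ i (C.emb x) = 0 := by
      intro i
      rw [← C.hD, hj' i x y hxy, map_zero]
    obtain ⟨f, hf, hfx⟩ := C.S.δ_const _ h4
    refine ⟨f, hf, C.emb.injective ?_⟩
    rw [map_zero, ← hfx, aeval_def, aeval_def, hom_eval₂]
    congr 1
    exact RingHom.ext_int _ _
  refine ⟨hx, ?_⟩
  have hx' : IsAlgebraic ℤ x := hx
  have hlam : ((a j : K) ^ 3 + (l : K) ^ 6) ≠ 0 := by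
    have : 0 < a j ^ 3 + l ^ 6 := Nat.add_pos_right _ (pow_pos hl.pos 6)
    exact_mod_cast this.ne'
  have h5 : y ^ 2 = (x ^ 3 + 1) * ((a j : K) ^ 3 + (l : K) ^ 6)⁻¹ := by
    rw [← hxy]
    field_simp
  have h6 : IsAlgebraic ℤ (((a j : K) ^ 3 + (l : K) ^ 6)⁻¹) := by
    have : IsAlgebraic ℤ (algebraMap ℤ K ((a j : ℤ) ^ 3 + (l : ℤ) ^ 6)) := isAlgebraic_algebraMap _
    have h7 := this.inv
    simpa using h7
  have h8 : IsAlgebraic ℤ (y ^ 2) := by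
    rw [h5]
    exact ((hx'.pow 3).add (by simpa using (isAlgebraic_algebraMap (A := K) (1 : ℤ)))).mul h6
  exact h8.of_pow (by norm_num)

end UD0
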