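import Pool.Agent.UD0.PhB
import Pool.Agent.UD0.PfN
import Pool.Agent.UD0.PfO
import Pool.Agent.UD0.ExtHom
import Pool.Agent.UD0.MovC
import Pool.Agent.UD0.TcH
import Pool.Agent.UD0.ArG

/-!
# UD0: everything about finitely generated fields of characteristic zero, and the main theorem
-/

set_option autoImplicit false

open FirstOrder Polynomial UDV

namespace UD0

universe u

theorem nf_kk {K : Type u} [Field K] [CharZero K]
    (h : FiniteDimensional ℚ (algebraicClosure ℚ K)) : NumberField (kk K) := by
  have hmem : ∀ x : K, x ∈ algebraicClosure ℚ K ↔ x ∈ kk K := fun x => mem_const_iff x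
  let f : algebraicClosure ℚ K →ₗ[ℚ] kk K :=
    { toFun := fun x => ⟨x, (hmem x).1 x.2⟩
      map_add' := fun x y => rfl
      map_smul' := fun q x => by
        apply Subtype.ext
        simp only [RingHom.id_apply]
        rw [Rat.smul_def, Rat.smul_def]
        push_cast
        rfl }
  have hf : Function.Surjective f := fun y => ⟨⟨y, (hmem y).2 y.2⟩, rfl⟩
  have hfd : FiniteDimensional ℚ (kk K) := Module.Finite.of_surjective f hf
  exact { to_charZero := inferInstance, to_finiteDimensional := hfd }

theorem exists_all (K : Type u) [Field K] [CharZero K] (hfg : FGField K)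
    (hK : ∃ u : K, ¬ Alg u) : AllIn K := by
  obtain ⟨u, hu⟩ := hK
  have h1 : AlgebraicIndependent ℤ ![u] := by
    rw [algebraicIndependent_unique_type_iff]
    exact fun h => hu h
  obtain ⟨P, hd, -⟩ := exists_pres_ext hfg ![u] h1
  have hd0 : 0 < P.d := by omega
  obtain ⟨C⟩ := exists_chart P hd0
  obtain ⟨l, hl, hlT⟩ := infinite_good P {0, 1, 2, 3}
  have hlp : l.Prime := hl.1
  have : Fact l.Prime := ⟨hlp⟩
  have l3 : 3 < l := by
    simp only [Finset.mem_insert, Finset.mem_singleton, not_or] at hlT
    omega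
  obtain ⟨e₀⟩ := exists_emb P hl
  obtain ⟨a, ha, hC⟩ := theoremC C hlp
  obtain ⟨n, c₁, c₂, c₃, c₄, -, hn, hn4⟩ := exists_nonres l (by omega)
  have hfd := const_fd C
  have hpres : ∀ (m : ℕ) (s : Fin m → K), AlgebraicIndependent ℤ s →
      ∃ (P : Pres K) (h : m ≤ P.d), ∀ i, P.t (Fin.castLE h i) = s i :=
    fun m s hs => exists_pres_ext hfg s hs
  let S : Setup K :=
    { l := l
      l3 := l3
      e₀ := e₀
      a := a
      ha := ha
      cst := fun x y _ hxy => hC x y (by rw [← hxy]; push_cast; ring)
      n := n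
      hn := hn
      hn4 := ⟨c₁, c₂, c₃, c₄, hn4⟩
      mov₁ := fun u hu => mov_one hpres hfd e₀ u hu
      nf := nf_kk hfd }
  exact ⟨P, C, S, hd0, fun u hu => mov_one hpres hfd e₀ u hu,
    fun u y huy => mov_two hpres hfd e₀ u y huy⟩

/-- One formula defines all the divisorial valuation rings of all finitely generated fields. -/
theorem main_all : ∃ φ : Language.ring.Formula (Fin 2), ∀ (K : Type u) [Field K], FGField K →
    ∀ O : ValuationSubring K, IsDivisorial O → ∃ a : K, ∀ x : K, x ∈ O ↔ Rlz φ ![x, a] :=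
  main0 exists_all

end UD0
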