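import Pool.Agent.UD0.PwA
import Pool.Agent.UD0.ParE

/-!
# UD0, section 4, part B: parity and density

`ν = (lst l : K)`.  `Even` order of nonzero norms: `UD0.nn_even` (`ParE`).
PROOF of `val_of_nz` : `(y - b) * (u - c)` is a nonzero norm, so the order of `e ((y - b) (u - c)) = (e y - e b) (e u - e c)` is even
(`HahnSeries.order_mul`, both factors nonzero), the order of `e u - e c = e u - C (e₀ c)` is `1` (`hc`; `c`, `b` are algebraic, `Ov`), so the order of
`x = e y - C (e₀ b)` is odd.  `0 ≤ (e y).order` implies that the coefficients of `x` in negative degrees vanish, so `0 ≤ x.order`, hence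
`1 ≤ x.order` and `hasVal_of_pos` applies.
PROOF of `not_nz` : here `e y - e b = C (e₀ y - e₀ b)` is a nonzero constant (`y ≠ b` as the product is not zero), of order `0`, and the total order is
`1`, odd.
PROOF of `exists_rat` : `ℚ` is dense in `ℚ_[l]` (`Padic.rat_dense`, `Padic.denseRange_ratCast`); a nonempty open ball minus a finite set is a nonempty open set
(`ℚ_[l]` is a `T1` space without isolated points: `NeBot (𝓝[≠] x)`, e.g. `Dense.diff_finite`, `Dense.inter_open_nonempty`...).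
PROOF of `infinite_rat` : from `exists_rat` (a set that meets the complement of every finite set is infinite).
-/

set_option autoImplicit false

open Polynomial

namespace UD0

universe u

variable {K : Type u} [Field K] [CharZero K] {l : ℕ} [Fact l.Prime] {e₀ : K →+* ℚ_[l]}

theorem Nz.mul {ν x y : K} (hx : Nz ν x) (hy : Nz ν y) : Nz ν (x * y) := by
  obtain ⟨hx0, a, b, rfl⟩ := hx
  obtain ⟨hy0, c, d, rfl⟩ := hy
  exact ⟨mul_ne_zero hx0 hy0, a * c + ν * b * d, a * d + b * c, by ring⟩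

private theorem pwb_order {e : K →+* LaurentSeries ℚ_[l]} (he : Ov e₀ e) {u y b c : K} (hc : Alg c)
    (hu : (e u - HahnSeries.C (e₀ c)).order = 1)
    (h : Nz ((lst l : ℤ) : K) ((y - b) * (u - c))) :
    ∃ m : ℤ, (e y - e b).order + 1 = m + m := by
  have h1 := nn_even e h.1 h.2
  have h2 : e ((y - b) * (u - c)) = (e y - e b) * (e u - HahnSeries.C (e₀ c)) := by
    rw [map_mul, map_sub, map_sub, he c hc]
  have h3 : e ((y - b) * (u - c)) ≠ 0 := (map_ne_zero e).2 h.1
  rw [h2] at h1 h3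
  rw [HahnSeries.order_mul (left_ne_zero_of_mul h3) (right_ne_zero_of_mul h3), hu] at h1
  exact h1

theorem val_of_nz {e : K →+* LaurentSeries ℚ_[l]} (he : Ov e₀ e) {u y b c : K} (hc : Alg c)
    (hb : Alg b) (hu : (e u - HahnSeries.C (e₀ c)).order = 1) (hy : 0 ≤ (e y).order)
    (h : Nz ((lst l : ℤ) : K) ((y - b) * (u - c))) : HasVal (e y) (e₀ b) := by
  obtain ⟨m, hm⟩ := pwb_order he hc hu h
  have hne : e y - e b ≠ 0 := by
    rw [← map_sub]
    exact (map_ne_zero e).2 (left_ne_zero_of_mul h.1)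
  rw [he b hb] at hm hne
  refine hasVal_of_pos ?_
  by_contra hcon
  have h1 : (e y - HahnSeries.C (e₀ b)).order < 0 := by omega
  have h2 := HahnSeries.coeff_order_eq_zero.not.2 hne
  apply h2
  have h3 : (e y).coeff (e y - HahnSeries.C (e₀ b)).order = 0 :=
    HahnSeries.coeff_eq_zero_of_lt_order (by omega)
  have h4 : (HahnSeries.C (e₀ b) : LaurentSeries ℚ_[l]).coeff
      (e y - HahnSeries.C (e₀ b)).order = 0 := by
    rw [HahnSeries.C_apply]
    exact HahnSeries.coeff_single_of_ne h1.ne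
  rw [HahnSeries.coeff_sub, h3, h4, sub_zero]

theorem not_nz {e : K →+* LaurentSeries ℚ_[l]} (he : Ov e₀ e) {u y b c : K} (hc : Alg c)
    (hb : Alg b) (hu : (e u - HahnSeries.C (e₀ c)).order = 1) (hy : e y = HahnSeries.C (e₀ y)) :
    ¬ Nz ((lst l : ℤ) : K) ((y - b) * (u - c)) := by
  intro h
  obtain ⟨m, hm⟩ := pwb_order he hc hu h
  rw [hy, he b hb, ← map_sub, HahnSeries.order_C] at hm
  omega

theorem exists_rat (a : ℚ_[l]) {ε : ℝ} (hε : 0 < ε) {S : Set ℚ_[l]} (hS : S.Finite) :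
    ∃ c : ℚ, c ≠ 0 ∧ ‖(c : ℚ_[l]) - a‖ < ε ∧ (c : ℚ_[l]) ∉ S := by
  have h1 : Dense (Set.range ((↑) : ℚ → ℚ_[l])) := Padic.denseRange_ratCast l
  have h2 := h1.diff_finite (hS.union (Set.finite_singleton (0 : ℚ_[l])))
  obtain ⟨x, ⟨⟨c, rfl⟩, hx⟩, hd⟩ := h2.exists_dist_lt a hε
  rw [Set.mem_union, not_or, Set.mem_singleton_iff] at hx
  refine ⟨c, ?_, ?_, hx.1⟩
  · rintro rfl
    exact hx.2 (by simp)
  · rw [← dist_eq_norm, dist_comm]
    exact hd

theorem infinite_rat (a : ℚ_[l]) {ε : ℝ} (hε : 0 < ε) {S : Set ℚ_[l]} (hS : S.Finite) :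
    {x : ℚ_[l] | x ∉ S ∧ ∃ c : ℚ, c ≠ 0 ∧ x = (c : ℚ_[l]) ∧ ‖x - a‖ < ε}.Infinite := by
  intro hfin
  obtain ⟨c, hc0, hc, hcS⟩ := exists_rat a hε (hS.union hfin)
  rw [Set.mem_union, not_or] at hcS
  exact hcS.2 ⟨hcS.1, c, hc0, rfl, hc⟩

end UD0
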