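import Pool.Agent.UD0.PwB

/-!
# UD0, section 4, part C: the two uses of the moving lemma, and the covering element

PROOF of `dep_of_nz`.  If `Dp u y` fails then `AlgebraicIndependent ℤ ![u, y]` (`indep_of_not_dp`).  `M.two` gives `ε`; choose a rational
`c ≠ 0` with `‖c - e₀ u‖ < ε` (`exists_rat` with `S = ∅`) and the embedding `e` for it: `e u - C (e₀ c) = X`, of order `1` (`e₀ (c : K) = (c : ℚ_[l])`,
`map_ratCast`; `HahnSeries.order_single`); the hypothesis gives `b`; contradiction to `not_nz`.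
PROOF of `ident`.  `Dp u y` by `dep_of_nz` (with `b = c ^ m`).  Put `q = y / u ^ m - 1`; `Dp u q` (`Dp.mul`, `Dp.inv`, `Dp.zpow`, `Dp.self`, `Dp.sub`,
`Dp.of_alg`).  `M.one` gives `ε`; the set of exceptions `B = {c | ∃ e, 0 < (e u - C c).order ∧ (e y).order < 0}` is finite (`no_pole`).  For a rational
`c ≠ 0`, `c ∉ B`, `‖c - e₀ u‖ < ε`: the embedding `e` of `M.one` has `e u - C c = X` of order `1`, so `0 ≤ (e y).order`, and `val_of_nz` gives
`HasVal (e y) (e₀ (c ^ m)) = (c : ℚ_[l]) ^ m`; `HasVal (e u) c` (`hasVal_of_pos`), so `HasVal (e q) 0` (`HasVal.mul`, `HasVal.inv`, `HasVal.zpow`, `c ≠ 0`).  These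
`c` form an infinite set (`infinite_rat`), so `q = 0` (`eq_zero_of_values`), i.e. `y = u ^ m` (`u ≠ 0` as it is not algebraic).
PROOF of `exists_cov`.  `u` not algebraic, `ε` from `M.one u`.  Choose `v₀ : ℚ` with `‖v₀ - e₀ u‖ < ε` (`exists_rat`) and `N : ℕ` with `l ^ (-N) < ε`; put
`w = (u - v₀) / l ^ N`, `z = w / (w - 1)` (`w ≠ 1` as `w` is not algebraic).  `z` is not algebraic (`w = z / (z - 1)`).  Let `c` be algebraic with
`1 ≤ ‖e₀ c - 1‖`, so `c ≠ 1`; put `c₀ = e₀ c`, `c'' = c₀ / (c₀ - 1) = 1 + 1 / (c₀ - 1)`, `‖c''‖ ≤ 1`, and `c' = v₀ + l ^ N c''`; `‖c' - e₀ u‖ ≤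
max (‖v₀ - e₀ u‖) (l ^ (-N)) < ε` (ultrametric).  The embedding `e` with `e u = C c' + X` : `e w = C c'' + C (l ^ (-N)) X`, and
`e z - C c₀ = - (C (c₀ - 1)) * (e w - C c'') / (e w - 1)` where `e w - C c'' = single 1 (l ^ (-N))` has order `1` and `e w - 1` has the nonzero value
`c'' - 1 = 1 / (c₀ - 1)`, so order `0`.  Hence the order is `1`.
PROOF of `cov_two` : apply `Cov` to `c / 2`: `‖e₀ c / 2 - 1‖ = ‖e₀ c - 2‖` (`‖2‖ = 1` as `l ≠ 2`), and `e (2 z) - C (e₀ c) = 2 (e z - C (e₀ c / 2))`.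
PROOF of `cov_or` : if `‖x - 1‖ < 1` then `‖x - 2‖ = ‖(x - 1) - 1‖ = 1` (ultrametric, `‖1‖ = 1`).
-/

set_option autoImplicit false

open Polynomial

namespace UD0

universe u

variable {K : Type u} [Field K] [CharZero K] {l : ℕ} [Fact l.Prime] {e₀ : K →+* ℚ_[l]}

omit [CharZero K] in
private theorem pc_cast99 (e₀ : K →+* ℚ_[l]) (c : ℚ) : e₀ (c : K) = (c : ℚ_[l]) := map_ratCast e₀ c

private theorem pc_order99 {F : Type*} [Field F] {x : LaurentSeries F} {a : F}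
    (h : x = HahnSeries.C a + HahnSeries.single 1 1) : (x - HahnSeries.C a).order = 1 := by
  rw [h, add_sub_cancel_left]
  exact HahnSeries.order_single one_ne_zero

private theorem pc_ord099 {F : Type*} [Field F] {x : LaurentSeries F} {a : F} (hx : HasVal x a)
    (ha : a ≠ 0) : x.order = 0 := by
  have h1 : x.coeff 0 ≠ 0 := by rw [hx.2]; exact ha
  refine le_antisymm (HahnSeries.order_le_of_coeff_ne_zero h1) ?_
  by_contra h2
  have h3 : x = 0 := HahnSeries.coeff_order_eq_zero.1 (hx.1 _ (not_le.mp h2))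
  rw [h3, HahnSeries.coeff_zero] at h1
  exact h1 rfl

theorem dep_of_nz (M : Mov l e₀) {u y : K} (hu : ¬ Alg u)
    (h : ∀ c, Alg c → c ≠ 0 → ∃ b, Alg b ∧ Nz ((lst l : ℤ) : K) ((y - b) * (u - c))) : Dp u y := by
  by_contra hd
  obtain ⟨ε, hε, hM⟩ := M.two u y (indep_of_not_dp hu hd)
  obtain ⟨c, hc0, hc, -⟩ := exists_rat (e₀ u) hε Set.finite_empty
  obtain ⟨e, he, heu, hey⟩ := hM (c : ℚ_[l]) hc
  obtain ⟨b, hb, hnz⟩ := h (c : K) (alg_rat c) (Rat.cast_ne_zero.mpr hc0)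
  refine not_nz he (alg_rat c) hb ?_ hey hnz
  rw [pc_cast99]
  exact pc_order99 heu

theorem ident (M : Mov l e₀) {u y : K} (hu : ¬ Alg u) (m : ℤ)
    (h : ∀ c, Alg c → c ≠ 0 → Nz ((lst l : ℤ) : K) ((y - c ^ m) * (u - c))) : y = u ^ m := by
  have hu0 : u ≠ 0 := fun h0 => hu (h0 ▸ alg_zero)
  have hdy : Dp u y := dep_of_nz M hu fun c hc hc0 => ⟨c ^ m, hc.zpow m, h c hc hc0⟩
  have hdu : Dp u (u ^ m)⁻¹ := ((Dp.self u).zpow m).inv
  have hdq : Dp u (y * (u ^ m)⁻¹ - 1) := (hdy.mul hdu).sub (Dp.of_alg alg_one)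
  obtain ⟨ε, hε, hM⟩ := M.one u hu
  have hfin := no_pole (F := ℚ_[l]) hdy
  have hinf := infinite_rat (e₀ u) hε hfin
  have hq : y * (u ^ m)⁻¹ - 1 = 0 := by
    refine eq_zero_of_values (F := ℚ_[l]) hdq (hinf.mono ?_)
    rintro x ⟨hx, c, hc0, rfl, hc⟩
    obtain ⟨e, he, heu⟩ := hM (c : ℚ_[l]) hc
    have ho : (e u - HahnSeries.C (c : ℚ_[l])).order = 1 := pc_order99 heu
    have hpos : 0 < (e u - HahnSeries.C (c : ℚ_[l])).order := by rw [ho]; exact one_pos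
    refine ⟨e, hpos, ?_⟩
    have hy : 0 ≤ (e y).order := by
      by_contra h1
      exact hx ⟨e, hpos, not_le.mp h1⟩
    have hcK : (c : K) ≠ 0 := Rat.cast_ne_zero.mpr hc0
    have hcl : (c : ℚ_[l]) ≠ 0 := Rat.cast_ne_zero.mpr hc0
    have ho' : (e u - HahnSeries.C (e₀ (c : K))).order = 1 := by rw [pc_cast99]; exact ho
    have hv := val_of_nz he (alg_rat c) ((alg_rat c).zpow m) ho' hy (h c (alg_rat c) hcK)
    have hvu : HasVal (e u) (c : ℚ_[l]) := hasVal_of_pos hpos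
    have hv1 : HasVal (e (y * (u ^ m)⁻¹)) (1 : ℚ_[l]) := by
      have h2 := hv.mul ((hvu.zpow hcl m).inv (zpow_ne_zero m hcl))
      rw [map_mul, map_inv₀, map_zpow₀]
      rw [map_zpow₀, pc_cast99, mul_inv_cancel₀ (zpow_ne_zero m hcl)] at h2
      exact h2
    have h3 := hv1.add (hasVal_C (-1 : ℚ_[l]))
    rw [map_sub, map_one]
    have h4 : e (y * (u ^ m)⁻¹) + HahnSeries.C (-1 : ℚ_[l]) = e (y * (u ^ m)⁻¹) - 1 := by
      rw [map_neg, map_one, sub_eq_add_neg]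
    rw [h4, add_neg_cancel] at h3
    exact h3
  have h5 : y * (u ^ m)⁻¹ = 1 := sub_eq_zero.mp hq
  have hum : u ^ m ≠ 0 := zpow_ne_zero m hu0
  field_simp at h5
  exact h5

private theorem pc_alg_of99 {x y : K} {c : ℚ} (h : y = (c : K) * x) (hc : c ≠ 0) (hy : Alg y) :
    Alg x := by
  have hcK : (c : K) ≠ 0 := Rat.cast_ne_zero.mpr hc
  have : x = y / (c : K) := by rw [h]; field_simp
  rw [this]
  exact hy.div (alg_rat c)

theorem exists_cov (M : Mov l e₀) (hK : ∃ u : K, ¬ Alg u) : ∃ z : K, ¬ Alg z ∧ Cov e₀ z := by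
  obtain ⟨u, hu⟩ := hK
  obtain ⟨ε, hε, hM⟩ := M.one u hu
  obtain ⟨v₀, -, hv₀, -⟩ := exists_rat (e₀ u) hε Set.finite_empty
  have hl : 1 < l := (Fact.out : l.Prime).one_lt
  have hl0 : (l : ℚ) ≠ 0 := by
    have : l ≠ 0 := by omega
    exact_mod_cast this
  obtain ⟨N, hN⟩ : ∃ N : ℕ, ‖((l : ℚ_[l])) ^ N‖ < ε := by
    have h1 : ‖(l : ℚ_[l])‖ < 1 := Padic.norm_p_lt_one
    obtain ⟨N, hN⟩ := exists_pow_lt_of_lt_one hε h1
    exact ⟨N, by rw [norm_pow]; exact hN⟩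
  set L : ℚ := (l : ℚ) ^ N with hLdef
  have hL : L ≠ 0 := pow_ne_zero _ hl0
  have hLK : (L : K) ≠ 0 := Rat.cast_ne_zero.mpr hL
  have hLl : (L : ℚ_[l]) ≠ 0 := Rat.cast_ne_zero.mpr hL
  have hLn : ‖(L : ℚ_[l])‖ < ε := by
    rw [hLdef]; push_cast; exact hN
  set w : K := (u - (v₀ : K)) / (L : K) with hwdef
  have huw : u = (v₀ : K) + (L : K) * w := by rw [hwdef]; field_simp; ring
  have hw : ¬ Alg w := fun h1 => hu (by
    rw [huw]; exact (alg_rat v₀).add ((alg_rat L).mul h1))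
  have hw1 : w - 1 ≠ 0 := by
    intro h1
    exact hw (by rw [sub_eq_zero.mp h1]; exact alg_one)
  have hwz : w = (w / (w - 1)) / (w / (w - 1) - 1) := by
    have h2 : w / (w - 1) - 1 = 1 / (w - 1) := by field_simp; ring
    rw [h2]; field_simp
  refine ⟨w / (w - 1), fun h1 => hw ?_, ?_⟩
  · rw [hwz]
    exact h1.div (by
      have := h1.add (alg_one (K := K)).neg
      rwa [← sub_eq_add_neg] at this)
  · intro c hc hcn
    set c₀ : ℚ_[l] := e₀ c with hc₀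
    have hc1 : c₀ - 1 ≠ 0 := by
      intro h1
      rw [h1, norm_zero] at hcn
      linarith
    set c2 : ℚ_[l] := 1 + (c₀ - 1)⁻¹ with hc2
    have hc2n : ‖c2‖ ≤ 1 := by
      rw [hc2]
      refine (Padic.nonarchimedean _ _).trans ?_
      rw [norm_one, norm_inv]
      exact max_le le_rfl (inv_le_one_of_one_le₀ hcn)
    have hc' : ‖((v₀ : ℚ_[l]) + (L : ℚ_[l]) * c2) - e₀ u‖ < ε := by
      have h1 : ((v₀ : ℚ_[l]) + (L : ℚ_[l]) * c2) - e₀ u =
          ((v₀ : ℚ_[l]) - e₀ u) + (L : ℚ_[l]) * c2 := by ring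
      rw [h1]
      refine (Padic.nonarchimedean _ _).trans_lt (max_lt hv₀ ?_)
      rw [norm_mul]
      calc ‖(L : ℚ_[l])‖ * ‖c2‖ ≤ ‖(L : ℚ_[l])‖ * 1 :=
            mul_le_mul_of_nonneg_left hc2n (norm_nonneg _)
        _ = ‖(L : ℚ_[l])‖ := mul_one _
        _ < ε := hLn
    obtain ⟨e, he, heu⟩ := hM _ hc'
    refine ⟨e, he, ?_⟩
    have hev : e (v₀ : K) = HahnSeries.C (v₀ : ℚ_[l]) := by
      rw [he _ (alg_rat v₀), pc_cast99]
    have heL : e (L : K) = HahnSeries.C (L : ℚ_[l]) := by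
      rw [he _ (alg_rat L), pc_cast99]
    have hCL : (HahnSeries.C (L : ℚ_[l]) : LaurentSeries ℚ_[l]) ≠ 0 := by
      rw [Ne, map_eq_zero]; exact hLl
    have hew : e w = HahnSeries.C c2 + HahnSeries.single 1 (L : ℚ_[l])⁻¹ := by
      have h1 : (HahnSeries.C (L : ℚ_[l]) : LaurentSeries ℚ_[l]) * e w =
          HahnSeries.C (L : ℚ_[l]) * (HahnSeries.C c2 + HahnSeries.single 1 (L : ℚ_[l])⁻¹) := by
        have h2 : e u = HahnSeries.C (v₀ : ℚ_[l]) + HahnSeries.C (L : ℚ_[l]) * e w := by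
          rw [huw, map_add, map_mul, hev, heL]
        have h3 : (HahnSeries.C (L : ℚ_[l]) : LaurentSeries ℚ_[l]) *
            HahnSeries.single 1 (L : ℚ_[l])⁻¹ = HahnSeries.single 1 1 := by
          rw [HahnSeries.C_apply, HahnSeries.single_mul_single, zero_add, mul_inv_cancel₀ hLl]
        have h4 : HahnSeries.C (L : ℚ_[l]) * e w = e u - HahnSeries.C (v₀ : ℚ_[l]) := by
          rw [h2]; ring
        have h5 : (HahnSeries.C ((v₀ : ℚ_[l]) + (L : ℚ_[l]) * c2) : LaurentSeries ℚ_[l]) =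
            HahnSeries.C (v₀ : ℚ_[l]) + HahnSeries.C (L : ℚ_[l]) * HahnSeries.C c2 := by
          rw [map_add, map_mul]
        rw [h4, heu, h5, mul_add, h3]
        ring
      exact mul_left_cancel₀ hCL h1
    have hsd : (HahnSeries.single 1 (L : ℚ_[l])⁻¹ : LaurentSeries ℚ_[l]) ≠ 0 := by
      rw [Ne, HahnSeries.single_eq_zero_iff]; exact inv_ne_zero hLl
    have hC1 : (HahnSeries.C (c₀ - 1) : LaurentSeries ℚ_[l]) ≠ 0 := by
      rw [Ne, map_eq_zero]; exact hc1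
    have hw1e : e w - 1 ≠ 0 := by
      have := (map_ne_zero e).mpr hw1
      rwa [map_sub, map_one] at this
    have hval : HasVal (e w - 1) ((c₀ - 1)⁻¹) := by
      have h1 : HasVal (e w) c2 := by
        refine hasVal_of_pos ?_
        rw [hew, add_sub_cancel_left, HahnSeries.order_single (inv_ne_zero hLl)]
        exact one_pos
      have h2 := h1.add (hasVal_C (-1 : ℚ_[l]))
      have h3 : e w + HahnSeries.C (-1 : ℚ_[l]) = e w - 1 := by
        rw [map_neg, map_one, sub_eq_add_neg]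
      rw [h3] at h2
      have h4 : c2 + -1 = (c₀ - 1)⁻¹ := by rw [hc2]; ring
      rwa [h4] at h2
    have hord : (e w - 1).order = 0 := pc_ord099 hval (inv_ne_zero hc1)
    have hez : e (w / (w - 1)) - HahnSeries.C c₀ =
        -(HahnSeries.C (c₀ - 1) * HahnSeries.single 1 (L : ℚ_[l])⁻¹) * (e w - 1)⁻¹ := by
      have h1 : (HahnSeries.C c2 : LaurentSeries ℚ_[l]) * HahnSeries.C (c₀ - 1) =
          HahnSeries.C c₀ := by
        rw [← map_mul, hc2]
        congr 1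
        field_simp
        ring
      have h2 : (HahnSeries.C (c₀ - 1) : LaurentSeries ℚ_[l]) = HahnSeries.C c₀ - 1 := by
        rw [map_sub, map_one]
      rw [map_div₀, map_sub, map_one, eq_mul_inv_iff_mul_eq₀ hw1e, sub_mul, div_mul_cancel₀ _ hw1e]
      rw [hew]
      rw [hew] at hw1e
      linear_combination (-1 : LaurentSeries ℚ_[l]) * h1 + (HahnSeries.C c2 +
        HahnSeries.single 1 (L : ℚ_[l])⁻¹ : LaurentSeries ℚ_[l]) * h2
    rw [hez, HahnSeries.order_mul (neg_ne_zero.mpr (mul_ne_zero hC1 hsd)) (inv_ne_zero hw1e),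
      HahnSeries.order_neg, HahnSeries.order_mul hC1 hsd, HahnSeries.order_C,
      HahnSeries.order_single (inv_ne_zero hLl)]
    have h6 : (e w - 1).order + ((e w - 1)⁻¹).order = 0 := by
      rw [← HahnSeries.order_mul hw1e (inv_ne_zero hw1e), mul_inv_cancel₀ hw1e,
        HahnSeries.order_one]
    linarith

theorem cov_two (h2 : l ≠ 2) {z : K} (hz : Cov e₀ z) {c : K} (hc : Alg c)
    (h : 1 ≤ ‖e₀ c - 2‖) : ∃ e : K →+* LaurentSeries ℚ_[l],
      Ov e₀ e ∧ (e (2 * z) - HahnSeries.C (e₀ c)).order = 1 := by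
  have hn2 : ‖(2 : ℚ_[l])‖ = 1 := by
    have h3 : ¬ ‖((2 : ℤ) : ℚ_[l])‖ < 1 := by
      rw [Padic.norm_intCast_lt_one_iff]
      intro h4
      have h5 : l ∣ 2 := by exact_mod_cast h4
      have h6 := (Nat.prime_dvd_prime_iff_eq (Fact.out : l.Prime) Nat.prime_two).mp h5
      exact h2 h6
    have h7 : ‖((2 : ℤ) : ℚ_[l])‖ ≤ 1 := Padic.norm_int_le_one 2
    have h8 := le_antisymm h7 (not_lt.mp h3)
    simpa using h8
  have h20 : (2 : K) ≠ 0 := two_ne_zero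
  have hc2 : Alg (c / 2) := hc.div (by exact_mod_cast alg_nat (K := K) 2)
  have h1 : e₀ (c / 2) - 1 = (e₀ c - 2) / 2 := by
    rw [map_div₀, map_ofNat]; ring
  obtain ⟨e, he, ho⟩ := hz (c / 2) hc2 (by rw [h1, norm_div, hn2, div_one]; exact h)
  refine ⟨e, he, ?_⟩
  have h2C : (2 : LaurentSeries ℚ_[l]) = HahnSeries.C (2 : ℚ_[l]) := by
    rw [map_ofNat]
  have h20l : (2 : ℚ_[l]) ≠ 0 := two_ne_zero
  have h3 : e (2 * z) - HahnSeries.C (e₀ c) =
      HahnSeries.C (2 : ℚ_[l]) * (e z - HahnSeries.C (e₀ (c / 2))) := by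
    have h6 : e₀ (c / 2) = e₀ c / 2 := by rw [map_div₀, map_ofNat]
    have h7 : (2 : ℚ_[l]) * (e₀ c / 2) = e₀ c := by field_simp
    rw [map_mul, map_ofNat, mul_sub, ← map_mul, h6, h7, h2C]
  have h4 : e z - HahnSeries.C (e₀ (c / 2)) ≠ 0 := by
    intro h5
    rw [h5, HahnSeries.order_zero] at ho
    exact zero_ne_one ho
  have h5 : (HahnSeries.C (2 : ℚ_[l]) : LaurentSeries ℚ_[l]) ≠ 0 := by
    rw [Ne, map_eq_zero]; exact h20l
  rw [h3, HahnSeries.order_mul h5 h4, HahnSeries.order_C, ho, zero_add]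

omit [CharZero K] in
theorem cov_or (x : ℚ_[l]) : 1 ≤ ‖x - 1‖ ∨ 1 ≤ ‖x - 2‖ := by
  by_contra hh
  push Not at hh
  have h1 : (1 : ℚ_[l]) = (x - 1) + -(x - 2) := by ring
  have h2 : ‖(1 : ℚ_[l])‖ ≤ max ‖x - 1‖ ‖-(x - 2)‖ := by
    conv_lhs => rw [h1]
    exact Padic.nonarchimedean _ _
  rw [norm_one, norm_neg] at h2
  exact absurd (h2.trans_lt (max_lt hh.1 hh.2)) (lt_irrefl _)

end UD0
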