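import Pool.Agent.UD0.PwC

/-!
# UD0, section 4, part D: the function defined by a pair in `Ii`

`ν = (lst l : K)`, `Ck = Alg`.
PROOF of `far` : `‖e₀ (c l⁻ʲ)‖ = ‖e₀ c‖ l ^ j` (`e₀ (l : K) = l`, `‖l‖ = l⁻¹`), which tends to infinity.  For large `j` it is `> 1`, so
`‖x - 1‖ = ‖x‖ ≥ 1` for `x = e₀ (c l⁻ʲ)` (ultrametric), and larger than the norms of all the elements of the finite set `S`, so `x ∉ S`.
PROOF of `val_fun` : `S = {c | ∃ e, 0 < (e z - C c).order ∧ (e y₁).order < 0}`, finite by `no_pole`.  For `c` take the embedding of `Cov`; its order is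
`1 > 0`, so `0 ≤ (e y₁).order`, and `val_of_nz` (with `u = z`).
PROOF of `exists_fun`.  Choose `F c` by the first half of `Ii` for algebraic `c ≠ 0` (and `F c = 1` otherwise).  Uniqueness: if `Ff c b` and `Ff c b'` (`b`, `b'`
algebraic, nonzero) then `b = b'`: `Dp z y₁` by `dep_of_nz`, let `S` be the set of `val_fun` and `j` so large (`far` for `c`) that `c c₁`, `c₁ = l⁻ʲ`, is
outside `S` with `1 ≤ ‖e₀ (c c₁) - 1‖`; let `b₁ = F c₁`; by the second half of `Ii`: `Ff (c c₁) (b b₁)` and `Ff (c c₁) (b' b₁)`, so `e y₁` has the values `e₀ (b b₁)`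
and `e₀ (b' b₁)`, hence `b b₁ = b' b₁` (`HasVal.unique`, `e₀` injective) and `b = b'`.  `F (c c') = F c F c'` by the second half of `Ii` and uniqueness.
-/

set_option autoImplicit false

open Polynomial

namespace UD0

universe u

variable {K : Type u} [Field K] [CharZero K] {l : ℕ} [Fact l.Prime] {e₀ : K →+* ℚ_[l]}


theorem far {c : K} (hc : c ≠ 0) {S : Set ℚ_[l]} (hS : S.Finite) :
    ∃ j₀ : ℕ, ∀ j ≥ j₀, 1 ≤ ‖e₀ (c * (l : K)⁻¹ ^ j) - 1‖ ∧ e₀ (c * (l : K)⁻¹ ^ j) ∉ S := by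
  obtain ⟨B, hB⟩ := (hS.image (fun x : ℚ_[l] => ‖x‖)).bddAbove
  have hl : (1 : ℝ) < (l : ℝ) := by exact_mod_cast (Fact.out : l.Prime).one_lt
  have hcn : 0 < ‖e₀ c‖ := norm_pos_iff.2 fun h => hc ((map_eq_zero e₀).1 h)
  have hnorm : ∀ j : ℕ, ‖e₀ (c * (l : K)⁻¹ ^ j)‖ = ‖e₀ c‖ * (l : ℝ) ^ j := by
    intro j
    rw [map_mul, map_pow, map_inv₀, map_natCast, norm_mul, norm_pow, norm_inv, Padic.norm_p,
      inv_inv]
  have ht : Filter.Tendsto (fun j : ℕ => ‖e₀ c‖ * (l : ℝ) ^ j) Filter.atTop Filter.atTop :=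
    (tendsto_pow_atTop_atTop_of_one_lt hl).const_mul_atTop hcn
  obtain ⟨j₀, hj₀⟩ := Filter.eventually_atTop.1 (ht.eventually_gt_atTop (max 1 B))
  refine ⟨j₀, fun j hj => ?_⟩
  have h1 := hj₀ j hj
  rw [← hnorm j] at h1
  constructor
  · by_contra hlt
    push Not at hlt
    have h2 : ‖e₀ (c * (l : K)⁻¹ ^ j)‖ ≤ 1 := by
      have h3 := Padic.nonarchimedean (e₀ (c * (l : K)⁻¹ ^ j) - 1) 1
      rw [sub_add_cancel, norm_one] at h3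
      exact h3.trans (max_le hlt.le le_rfl)
    exact absurd ((le_max_left _ _).trans_lt h1) (not_lt.2 h2)
  · intro hmem
    have h2 := hB ⟨_, hmem, rfl⟩
    exact absurd ((le_max_right _ _).trans_lt h1) (not_lt.2 h2)

theorem val_fun {z y₁ : K} (hcov : Cov e₀ z) (hdp : Dp z y₁) :
    ∃ S : Set ℚ_[l], S.Finite ∧ ∀ c, Alg c → e₀ c ∉ S → 1 ≤ ‖e₀ c - 1‖ →
      ∃ e : K →+* LaurentSeries ℚ_[l], Ov e₀ e ∧ (e z - HahnSeries.C (e₀ c)).order = 1 ∧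
        ∀ b, Alg b → Vv ((lst l : ℤ) : K) z y₁ c b → HasVal (e y₁) (e₀ b) := by
  refine ⟨_, no_pole (F := ℚ_[l]) hdp, ?_⟩
  intro c hc hcS h1
  obtain ⟨e, he, ho⟩ := hcov c hc h1
  refine ⟨e, he, ho, fun b hb hV => val_of_nz he hc hb ho ?_ hV⟩
  by_contra hneg
  push Not at hneg
  refine hcS ⟨e, ?_, hneg⟩
  rw [ho]
  exact one_pos

theorem exists_fun (M : Mov l e₀) {z y₁ y₂ : K} (hz : ¬ Alg z) (hcov : Cov e₀ z)
    (h : Ii Alg ((lst l : ℤ) : K) z y₁ y₂) : ∃ F : K → K,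
      (∀ c, Alg c → c ≠ 0 → Alg (F c) ∧ F c ≠ 0 ∧ Ff ((lst l : ℤ) : K) z y₁ y₂ c (F c) ∧
        ∀ b, Alg b → b ≠ 0 → Ff ((lst l : ℤ) : K) z y₁ y₂ c b → b = F c) ∧
      ∀ c c', Alg c → c ≠ 0 → Alg c' → c' ≠ 0 → F (c * c') = F c * F c' := by
  have hdp : Dp z y₁ := dep_of_nz M hz fun c hc hc0 => by
    obtain ⟨b, hb, -, hF⟩ := h.1 c hc hc0
    exact ⟨b, hb, hF.1⟩
  obtain ⟨S, hS, hval⟩ := val_fun hcov hdp
  have hl0 : (l : K) ≠ 0 := Nat.cast_ne_zero.2 (Fact.out : l.Prime).ne_zero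
  have huniq : ∀ c, Alg c → c ≠ 0 → ∀ b, Alg b → b ≠ 0 → ∀ b', Alg b' → b' ≠ 0 →
      Ff ((lst l : ℤ) : K) z y₁ y₂ c b → Ff ((lst l : ℤ) : K) z y₁ y₂ c b' → b = b' := by
    intro c hc hc0 b hb hb0 b' hb' hb0' hF hF'
    obtain ⟨j, hj⟩ := far (e₀ := e₀) hc0 hS
    obtain ⟨hj1, hj2⟩ := hj j le_rfl
    have hc1 : Alg ((l : K)⁻¹ ^ j) := (alg_nat l).inv.pow j
    have hc10 : (l : K)⁻¹ ^ j ≠ 0 := pow_ne_zero _ (inv_ne_zero hl0)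
    obtain ⟨b₁, hb1, hb10, hF1⟩ := h.1 _ hc1 hc10
    have hG := h.2 c _ b b₁ hc hc0 hc1 hc10 hb hb0 hb1 hb10 hF hF1
    have hG' := h.2 c _ b' b₁ hc hc0 hc1 hc10 hb' hb0' hb1 hb10 hF' hF1
    obtain ⟨e, -, -, hV⟩ := hval _ (hc.mul hc1) hj2 hj1
    have h1 := (hV _ (hb.mul hb1) hG.1).unique (hV _ (hb'.mul hb1) hG'.1)
    exact mul_right_cancel₀ hb10 (e₀.injective h1)
  classical
  choose F hF1 hF2 hF3 using h.1
  obtain ⟨F', hF'⟩ : ∃ F' : K → K, ∀ c (hc : Alg c) (hc0 : c ≠ 0), F' c = F c hc hc0 :=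
    ⟨fun c => if hh : Alg c ∧ c ≠ 0 then F c hh.1 hh.2 else 1, fun c hc hc0 => dif_pos ⟨hc, hc0⟩⟩
  refine ⟨F', ?_, ?_⟩
  · intro c hc hc0
    rw [hF' c hc hc0]
    exact ⟨hF1 c hc hc0, hF2 c hc hc0, hF3 c hc hc0, fun b hb hb0 hFb =>
      huniq c hc hc0 b hb hb0 _ (hF1 c hc hc0) (hF2 c hc hc0) hFb (hF3 c hc hc0)⟩
  · intro c c' hc hc0 hc' hc0'
    rw [hF' c hc hc0, hF' c' hc' hc0', hF' _ (hc.mul hc') (mul_ne_zero hc0 hc0')]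
    refine huniq _ (hc.mul hc') (mul_ne_zero hc0 hc0') _ (hF1 _ _ _) (hF2 _ _ _) _
      ((hF1 _ _ _).mul (hF1 _ _ _)) (mul_ne_zero (hF2 _ _ _) (hF2 _ _ _)) (hF3 _ _ _) ?_
    exact h.2 c c' _ _ hc hc0 hc' hc0' (hF1 _ _ _) (hF2 _ _ _) (hF1 _ _ _) (hF2 _ _ _)
      (hF3 _ _ _) (hF3 _ _ _)

end UD0
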