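import Mathlib

/-!
# UD0: a multiplicative relation from infinitely many points `(l ^ j, h ^ j)` of a curve

PROOF of `vand`.  `H ∈ ℤ[X][Y]` nonzero, `F` a field of characteristic zero, `l`, `h` nonzero elements of `F`, `l` not a root of unity;
`H(l ^ j, h ^ j) = 0` for all natural `j ≥ j₀`.  Write `H = ∑ g_(a,b) X ^ a Y ^ b` (finite, `g_(a,b) ∈ ℤ`).  The finitely many numbers
`l ^ a h ^ b` for `(a, b)` in the support satisfy `∑ g_(a,b) (l ^ a h ^ b) ^ j = 0` for all `j ≥ j₀`.  If they were pairwise distinct, then by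
Vandermonde (`Matrix.det_vandermonde_ne_zero_iff`, `j = j₀, ..., j₀ + r - 1`, the numbers are nonzero) all `g_(a,b) = 0`, contradiction.  So
`l ^ a h ^ b = l ^ a' h ^ b'` for some `(a, b) ≠ (a', b')`.  If `b = b'` then `l ^ a = l ^ a'` with `a ≠ a'`, so `l` is a root of unity;
excluded.  So `h ^ (b - b') = l ^ (a' - a)`, and after exchanging we have `n = |b - b'| > 0` and `h ^ n = l ^ m` with `m ∈ ℤ`.
-/

set_option autoImplicit false

open Polynomial

namespace UD0

private theorem vand_lin {F : Type*} [Field F] {ι : Type*} (s : Finset ι) (z c : ι → F)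
    (hz : Set.InjOn z s) (h : ∀ j : ℕ, ∑ p ∈ s, c p * z p ^ j = 0) : ∀ p ∈ s, c p = 0 := by
  have h1 := Matrix.eq_zero_of_forall_pow_sum_mul_pow_eq_zero
    (f := fun i : Fin s.card => z (s.equivFin.symm i))
    (v := fun i : Fin s.card => c (s.equivFin.symm i))
    (by
      intro i j hij
      have h2 := hz (s.equivFin.symm i).2 (s.equivFin.symm j).2 hij
      exact s.equivFin.symm.injective (Subtype.ext h2))
    (by
      intro i
      have h2 := Equiv.sum_comp s.equivFin.symm (fun p : s => c p * z p ^ (i : ℕ))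
      rw [Finset.sum_coe_sort s (fun p => c p * z p ^ (i : ℕ)), h i] at h2
      exact h2)
  intro p hp
  have h2 := congrFun h1 (s.equivFin ⟨p, hp⟩)
  simpa using h2

private theorem vand_rel {F : Type*} [Field F] {l h : F} (hl0 : l ≠ 0) (hh : h ≠ 0)
    {a b a' b' : ℕ} (hb : b < b') (e : l ^ a * h ^ b = l ^ a' * h ^ b') :
    ∃ (n : ℕ) (m : ℤ), 0 < n ∧ h ^ n = l ^ m := by
  refine ⟨b' - b, (a : ℤ) - a', by omega, ?_⟩
  have h1 : h ^ b' = h ^ b * h ^ (b' - b) := by
    rw [← pow_add]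
    congr 1
    omega
  rw [h1] at e
  have h2 : l ^ a = l ^ a' * h ^ (b' - b) := by
    have h3 : h ^ b ≠ 0 := pow_ne_zero _ hh
    apply mul_right_cancel₀ h3
    rw [e]
    ring
  rw [zpow_sub₀ hl0, zpow_natCast, zpow_natCast, h2]
  have h4 : l ^ a' ≠ 0 := pow_ne_zero _ hl0
  field_simp

private theorem vand_tor {F : Type*} [Field F] {l : F} (hl0 : l ≠ 0)
    (hl : ∀ n : ℕ, 0 < n → l ^ n ≠ 1) {a a' : ℕ} (e : l ^ a = l ^ a') : a = a' := by
  rcases lt_trichotomy a a' with h | h | h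
  · exfalso
    refine hl (a' - a) (by omega) ?_
    have h1 : l ^ a' = l ^ a * l ^ (a' - a) := by
      rw [← pow_add]
      congr 1
      omega
    rw [h1] at e
    have h3 : l ^ a ≠ 0 := pow_ne_zero _ hl0
    exact mul_left_cancel₀ h3 (by rw [← e, mul_one])
  · exact h
  · exfalso
    refine hl (a - a') (by omega) ?_
    have h1 : l ^ a = l ^ a' * l ^ (a - a') := by
      rw [← pow_add]
      congr 1
      omega
    rw [h1] at e
    have h3 : l ^ a' ≠ 0 := pow_ne_zero _ hl0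
    exact mul_left_cancel₀ h3 (by rw [e, mul_one])

theorem vand {F : Type*} [Field F] [CharZero F] (H : ℤ[X][X]) (hH : H ≠ 0) (l h : F)
    (hl : ∀ n : ℕ, 0 < n → l ^ n ≠ 1) (hl0 : l ≠ 0) (hh : h ≠ 0) (j₀ : ℕ)
    (hj : ∀ j ≥ j₀, (H.map (eval₂RingHom (Int.castRingHom F) (l ^ j))).eval (h ^ j) = 0) :
    ∃ (n : ℕ) (m : ℤ), 0 < n ∧ h ^ n = l ^ m := by
  classical
  let s : Finset (Σ _ : ℕ, ℕ) := H.support.sigma fun b => (H.coeff b).support
  let z : (Σ _ : ℕ, ℕ) → F := fun p => l ^ p.2 * h ^ p.1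
  let g : (Σ _ : ℕ, ℕ) → F := fun p => (((H.coeff p.1).coeff p.2 : ℤ) : F)
  have hz0 : ∀ p, z p ≠ 0 := fun p => mul_ne_zero (pow_ne_zero _ hl0) (pow_ne_zero _ hh)
  have hsum : ∀ j ≥ j₀, ∑ p ∈ s, g p * z p ^ j = 0 := by
    intro j hj0
    rw [← hj j hj0, Polynomial.eval_map, Polynomial.eval₂_eq_sum, Polynomial.sum]
    rw [Finset.sum_sigma]
    refine Finset.sum_congr rfl fun b _ => ?_
    rw [Polynomial.coe_eval₂RingHom, Polynomial.eval₂_eq_sum, Polynomial.sum, Finset.sum_mul]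
    refine Finset.sum_congr rfl fun a _ => ?_
    simp only [g, z, eq_intCast]
    rw [mul_pow, ← pow_mul, ← pow_mul, ← pow_mul, ← pow_mul, mul_comm a j, mul_comm b j]
    ring
  have hsum2 : ∀ j : ℕ, ∑ p ∈ s, (g p * z p ^ j₀) * z p ^ j = 0 := by
    intro j
    rw [← hsum (j₀ + j) (Nat.le_add_right _ _)]
    refine Finset.sum_congr rfl fun p _ => ?_
    rw [pow_add]
    ring
  by_cases hinj : Set.InjOn z s
  · exfalso
    have h1 := vand_lin s z (fun p => g p * z p ^ j₀) hinj hsum2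
    obtain ⟨b, hb⟩ := Polynomial.support_nonempty.2 hH
    have hb0 : H.coeff b ≠ 0 := Polynomial.mem_support_iff.1 hb
    obtain ⟨a, ha⟩ := Polynomial.support_nonempty.2 hb0
    have h2 := h1 ⟨b, a⟩ (Finset.mem_sigma.2 ⟨hb, ha⟩)
    rcases mul_eq_zero.1 h2 with h3 | h3
    · have h4 : ((H.coeff b).coeff a : ℤ) = 0 := by
        change (((H.coeff b).coeff a : ℤ) : F) = 0 at h3
        exact_mod_cast h3
      exact Polynomial.mem_support_iff.1 ha h4
    · exact pow_ne_zero _ (hz0 _) h3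
  · unfold Set.InjOn at hinj
    push Not at hinj
    obtain ⟨⟨b, a⟩, -, ⟨b', a'⟩, -, h1, h2⟩ := hinj
    change l ^ a * h ^ b = l ^ a' * h ^ b' at h1
    rcases lt_trichotomy b b' with hlt | rfl | hlt
    · exact vand_rel hl0 hh hlt h1
    · exfalso
      have h3 : l ^ a = l ^ a' := mul_right_cancel₀ (pow_ne_zero b hh) h1
      have h4 := vand_tor hl0 hl h3
      subst h4
      exact h2 rfl
    · exact vand_rel hl0 hh hlt h1.symm

end UD0
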