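import Pool.Agent.UD0.PwD
import Pool.Agent.UD0.Vand
import Pool.Agent.UD0.LatA

/-!
# UD0, section 4, part E: Lemma P

Data: `F` as in `exists_fun`.  `ν = (lst l : K)`, `L = (l : K)⁻¹`.
PROOF of `exists_ordK` : `LatA.exists_ord_one` for the number field `kk K` gives `w : (kk K)ˣ →* Multiplicative ℤ` and `c` with `w c = ofAdd 1`; extend by
zero (`Units.mk0` for the nonzero elements of `kk K`).
PROOF of `lemP_pow`.  `Dp z y₁` (`dep_of_nz`, from `Ff`); `S` from `val_fun`, `j₀` from `far` for `c = 1`.  Let `h = F L`; `F (L ^ j) = h ^ j` by induction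
(`j ≥ 1`; also `F 1 = 1` by `F (1 * 1) = F 1 * F 1`).  For `j ≥ j₀` the embedding `e` of `val_fun` for `c = L ^ j` has `HasVal (e z) (e₀ L ^ j)` (`hasVal_of_pos`) and
`HasVal (e y₁) (e₀ h ^ j)`.  `dp_poly` gives `H`; `relation_value` gives `H(e₀ L ^ j, e₀ h ^ j) = 0` for `j ≥ j₀`; `vand` in the field `ℚ_[l]` (`e₀ L = l⁻¹` is not a root of
unity: `‖l⁻¹‖ = l > 1`) gives `(e₀ h) ^ n = (e₀ L) ^ m`, `n > 0`, so `h ^ n = L ^ m`.  Let `q = y₁ ^ n / z ^ m - 1`, `Dp z q`; at `c = e₀ L ^ j` (`j ≥ j₀`) it has the value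
`h ^ (j n) / L ^ (j m) - 1 = 0`; these `c` are infinitely many, so `q = 0` (`eq_zero_of_values`), i.e. `y₁ ^ n = z ^ m`.
PROOF of `lemP_all` : for algebraic `c ≠ 0` take `j` large (`far` for `c` and for `1`, `S` from `val_fun`): at `c L ^ j` the element `y₁` has the value
`e₀ (F (c L ^ j))`, `z` the value `e₀ (c L ^ j)`, so (uniqueness of values, `e₀` injective, `e ζ = C (e₀ ζ)`) `F (c L ^ j) ^ n = ζ (c L ^ j) ^ m`, and in the same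
way `F (L ^ j) ^ n = ζ (L ^ j) ^ m`.  `F (c L ^ j) = F c F (L ^ j)`; divide (`ζ ≠ 0` as `F (L ^ j) ≠ 0`): `F c ^ n = c ^ m`.  With `c = L ^ j` this and the second
equation give `ζ = 1`.
-/

set_option autoImplicit false

open Polynomial

namespace UD0

universe u

variable {K : Type u} [Field K] [CharZero K] {l : ℕ} [Fact l.Prime] {e₀ : K →+* ℚ_[l]}

theorem exists_ordK (hnf : NumberField (kk K)) : ∃ (w : K → ℤ) (c : K), Alg c ∧ c ≠ 0 ∧ w c = 1 ∧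
    ∀ x y, Alg x → x ≠ 0 → Alg y → y ≠ 0 → w (x * y) = w x + w y := by
  classical
  obtain ⟨w0, c0, hc0⟩ := exists_ord_one (k := kk K)
  have hsub : ∀ (x : K) (h : Alg x ∧ x ≠ 0), (⟨x, h.1⟩ : kk K) ≠ 0 := by
    intro x h h1
    exact h.2 (congrArg Subtype.val h1)
  refine ⟨fun x => if h : Alg x ∧ x ≠ 0 then
    Multiplicative.toAdd (w0 (Units.mk0 ⟨x, h.1⟩ (hsub x h))) else 0, ((c0 : kk K) : K),
    (c0 : kk K).2, ?_, ?_, ?_⟩
  · intro h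
    exact c0.ne_zero (Subtype.ext h)
  · have h : Alg ((c0 : kk K) : K) ∧ ((c0 : kk K) : K) ≠ 0 :=
      ⟨(c0 : kk K).2, fun h => c0.ne_zero (Subtype.ext h)⟩
    simp only [dif_pos h]
    have h1 : Units.mk0 (⟨((c0 : kk K) : K), h.1⟩ : kk K) (hsub _ h) = c0 := Units.ext rfl
    rw [h1, hc0]
    rfl
  · intro x y hx hx0 hy hy0
    have h1 : Alg x ∧ x ≠ 0 := ⟨hx, hx0⟩
    have h2 : Alg y ∧ y ≠ 0 := ⟨hy, hy0⟩
    have h3 : Alg (x * y) ∧ x * y ≠ 0 := ⟨hx.mul hy, mul_ne_zero hx0 hy0⟩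
    simp only [dif_pos h1, dif_pos h2, dif_pos h3]
    have h4 : Units.mk0 (⟨x * y, h3.1⟩ : kk K) (hsub _ h3) =
        Units.mk0 (⟨x, h1.1⟩ : kk K) (hsub _ h1) * Units.mk0 (⟨y, h2.1⟩ : kk K) (hsub _ h2) :=
      Units.ext rfl
    rw [h4, map_mul]
    rfl

section aux

theorem lK_ne : ((l : K)⁻¹) ≠ 0 := by
  have hl : (l : K) ≠ 0 := by exact_mod_cast (Fact.out : l.Prime).ne_zero
  exact inv_ne_zero hl

omit [Fact l.Prime] in
theorem lK_alg : Alg ((l : K)⁻¹) := (alg_nat l).inv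

omit [CharZero K] in
theorem e0_inv : e₀ ((l : K)⁻¹) = (l : ℚ_[l])⁻¹ := by rw [map_inv₀, map_natCast]

theorem norm_inv_l : ‖((l : ℚ_[l])⁻¹)‖ = (l : ℝ) := by
  rw [norm_inv, Padic.norm_p, inv_inv]

theorem one_lt_l : (1 : ℝ) < l := by exact_mod_cast (Fact.out : l.Prime).one_lt

theorem mul_one_F {F : K → K} (h0 : F 1 ≠ 0)
    (hmul : ∀ c c', Alg c → c ≠ 0 → Alg c' → c' ≠ 0 → F (c * c') = F c * F c') : F 1 = 1 := by
  have h := hmul 1 1 alg_one one_ne_zero alg_one one_ne_zero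
  rw [mul_one] at h
  have h1 : F 1 * (F 1 - 1) = 0 := by rw [mul_sub, mul_one, ← h, sub_self]
  have h2 := (mul_eq_zero.1 h1).resolve_left h0
  exact sub_eq_zero.1 h2

/-- values at `c * L ^ j` for large `j` -/
theorem emb_vals (M : Mov l e₀) {z y₁ y₂ : K} (hz : ¬ Alg z) (hcov : Cov e₀ z) {F : K → K}
    (hF : ∀ c, Alg c → c ≠ 0 → Alg (F c) ∧ F c ≠ 0 ∧ Ff ((lst l : ℤ) : K) z y₁ y₂ c (F c) ∧
        ∀ b, Alg b → b ≠ 0 → Ff ((lst l : ℤ) : K) z y₁ y₂ c b → b = F c) :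
    Dp z y₁ ∧ ∀ c, Alg c → c ≠ 0 → ∃ j₀ : ℕ, ∀ j ≥ j₀, ∃ e : K →+* LaurentSeries ℚ_[l],
      Ov e₀ e ∧ 0 < (e z - HahnSeries.C (e₀ (c * (l : K)⁻¹ ^ j))).order ∧
        HasVal (e z) (e₀ (c * (l : K)⁻¹ ^ j)) ∧ HasVal (e y₁) (e₀ (F (c * (l : K)⁻¹ ^ j))) := by
  have hdp : Dp z y₁ := dep_of_nz M hz fun c hc hc0 => ⟨F c, (hF c hc hc0).1, (hF c hc hc0).2.2.1.1⟩
  refine ⟨hdp, ?_⟩
  obtain ⟨S, hS, hS1⟩ := val_fun hcov hdp
  intro c hc hc0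
  obtain ⟨j₀, hj₀⟩ := far (e₀ := e₀) hc0 hS
  refine ⟨j₀, fun j hj => ?_⟩
  have h1 := hj₀ j hj
  have ha : Alg (c * (l : K)⁻¹ ^ j) := hc.mul (lK_alg.pow j)
  have ha0 : c * (l : K)⁻¹ ^ j ≠ 0 := mul_ne_zero hc0 (pow_ne_zero _ lK_ne)
  obtain ⟨e, he, hord, hval⟩ := hS1 _ ha h1.2 h1.1
  have hpos : 0 < (e z - HahnSeries.C (e₀ (c * (l : K)⁻¹ ^ j))).order := by
    rw [hord]
    exact one_pos
  exact ⟨e, he, hpos, hasVal_of_pos hpos,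
    hval _ (hF _ ha ha0).1 (hF _ ha ha0).2.2.1.1⟩

end aux

theorem lemP_pow (M : Mov l e₀) {z y₁ y₂ : K} (hz : ¬ Alg z) (hcov : Cov e₀ z) {F : K → K}
    (hF : ∀ c, Alg c → c ≠ 0 → Alg (F c) ∧ F c ≠ 0 ∧ Ff ((lst l : ℤ) : K) z y₁ y₂ c (F c) ∧
        ∀ b, Alg b → b ≠ 0 → Ff ((lst l : ℤ) : K) z y₁ y₂ c b → b = F c)
    (hmul : ∀ c c', Alg c → c ≠ 0 → Alg c' → c' ≠ 0 → F (c * c') = F c * F c') :
    ∃ (n : ℕ) (m : ℤ), 0 < n ∧ y₁ ^ n = z ^ m := by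
  obtain ⟨hdp, hval⟩ := emb_vals M hz hcov hF
  obtain ⟨j₀, hj₀⟩ := hval 1 alg_one one_ne_zero
  have hz0 : z ≠ 0 := fun h => hz (by rw [h]; exact alg_zero)
  set L : K := (l : K)⁻¹ with hL
  have hL0 : L ≠ 0 := lK_ne
  have hLa : Alg L := lK_alg
  set h := F L with hh
  have hh0 : h ≠ 0 := (hF L hLa hL0).2.1
  have hF1 : F 1 = 1 := mul_one_F (hF 1 alg_one one_ne_zero).2.1 hmul
  have hpow : ∀ j : ℕ, F (L ^ j) = h ^ j := by
    intro j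
    induction j with
    | zero => rw [pow_zero, pow_zero, hF1]
    | succ j ih =>
      rw [pow_succ, hmul _ _ (hLa.pow j) (pow_ne_zero _ hL0) hLa hL0, ih, pow_succ]
  have hj1 : ∀ j ≥ j₀, ∃ e : K →+* LaurentSeries ℚ_[l], Ov e₀ e ∧
      0 < (e z - HahnSeries.C (e₀ L ^ j)).order ∧ HasVal (e z) (e₀ L ^ j) ∧
        HasVal (e y₁) (e₀ h ^ j) := by
    intro j hj
    obtain ⟨e, he, h1, h2, h3⟩ := hj₀ j hj
    rw [one_mul, map_pow] at h1 h2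
    rw [one_mul, hpow, map_pow] at h3
    exact ⟨e, he, h1, h2, h3⟩
  obtain ⟨H, hH0, hH, -⟩ := dp_poly hdp
  have heL : e₀ L = (l : ℚ_[l])⁻¹ := e0_inv
  have heL0 : e₀ L ≠ 0 := (map_ne_zero e₀).2 hL0
  have hnL : ‖e₀ L‖ = (l : ℝ) := by rw [heL, norm_inv_l]
  have hl1 : (1 : ℝ) < l := one_lt_l
  obtain ⟨n, m, hn, hnm⟩ := vand H hH0 (e₀ L) (e₀ h)
    (by
      intro n hn h1
      have h2 := congrArg norm h1
      rw [norm_pow, hnL, norm_one] at h2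
      exact (one_lt_pow₀ hl1 hn.ne').ne' h2)
    heL0 ((map_ne_zero e₀).2 hh0) j₀
    (by
      intro j hj
      obtain ⟨e, -, -, h2, h3⟩ := hj1 j hj
      exact relation_value hH h2 h3)
  refine ⟨n, m, hn, ?_⟩
  have hdq : Dp z (y₁ ^ n / z ^ m - 1) := by
    rw [div_eq_mul_inv]
    exact ((hdp.pow n).mul ((Dp.self z).zpow m).inv).sub (Dp.of_alg alg_one)
  have hinf : {c : ℚ_[l] | ∃ e : K →+* LaurentSeries ℚ_[l],
      0 < (e z - HahnSeries.C c).order ∧ HasVal (e (y₁ ^ n / z ^ m - 1)) 0}.Infinite := by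
    apply Set.infinite_of_injective_forall_mem (f := fun j : ℕ => e₀ L ^ (j₀ + j))
    · intro i j hij
      have h2 := congrArg norm hij
      simp only [norm_pow, hnL] at h2
      have h3 := (pow_right_strictMono₀ hl1).injective h2
      omega
    · intro i
      obtain ⟨e, -, h1, h2, h3⟩ := hj1 (j₀ + i) (Nat.le_add_right _ _)
      refine ⟨e, h1, ?_⟩
      set j := j₀ + i
      have hLj : e₀ L ^ j ≠ 0 := pow_ne_zero _ heL0
      have h4 : HasVal (e (y₁ ^ n / z ^ m)) ((e₀ h ^ j) ^ n * ((e₀ L ^ j) ^ m)⁻¹) := by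
        rw [div_eq_mul_inv, map_mul, map_pow, map_inv₀, map_zpow₀]
        exact (h3.pow n).mul ((h2.zpow hLj m).inv (zpow_ne_zero _ hLj))
      have h5 : (e₀ h ^ j) ^ n * ((e₀ L ^ j) ^ m)⁻¹ = 1 := by
        have h6 : (e₀ h ^ j) ^ n = (e₀ L ^ j) ^ m := by
          rw [← pow_mul, mul_comm j n, pow_mul, hnm, ← zpow_natCast, ← zpow_mul,
            ← zpow_natCast (e₀ L) j, ← zpow_mul, mul_comm]
        rw [h6, mul_inv_cancel₀ (zpow_ne_zero _ hLj)]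
      rw [h5] at h4
      have h7 := h4.add (hasVal_C (-1 : ℚ_[l]))
      have h8 : e (y₁ ^ n / z ^ m - 1) = e (y₁ ^ n / z ^ m) + HahnSeries.C (-1 : ℚ_[l]) := by
        rw [map_sub, map_one, map_neg, map_one, sub_eq_add_neg]
      rw [h8]
      rwa [add_neg_cancel] at h7
  have h0 := eq_zero_of_values hdq hinf
  rw [sub_eq_zero, div_eq_one_iff_eq (zpow_ne_zero _ hz0)] at h0
  exact h0

theorem lemP_all (M : Mov l e₀) {z y₁ y₂ : K} (hz : ¬ Alg z) (hcov : Cov e₀ z) {F : K → K}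
    (hF : ∀ c, Alg c → c ≠ 0 → Alg (F c) ∧ F c ≠ 0 ∧ Ff ((lst l : ℤ) : K) z y₁ y₂ c (F c) ∧
        ∀ b, Alg b → b ≠ 0 → Ff ((lst l : ℤ) : K) z y₁ y₂ c b → b = F c)
    (hmul : ∀ c c', Alg c → c ≠ 0 → Alg c' → c' ≠ 0 → F (c * c') = F c * F c') {n : ℕ} {m : ℤ}
    {ζ : K} (hζ : Alg ζ) (h : y₁ ^ n = ζ * z ^ m) :
    (∀ c, Alg c → c ≠ 0 → F c ^ n = c ^ m) ∧ ζ = 1 := by
  obtain ⟨-, hval⟩ := emb_vals M hz hcov hF
  set L : K := (l : K)⁻¹ with hL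
  have hL0 : L ≠ 0 := lK_ne
  have hLa : Alg L := lK_alg
  have key : ∀ c, Alg c → c ≠ 0 → ∃ j₀ : ℕ, ∀ j ≥ j₀, F (c * L ^ j) ^ n = ζ * (c * L ^ j) ^ m := by
    intro c hc hc0
    obtain ⟨j₀, hj₀⟩ := hval c hc hc0
    refine ⟨j₀, fun j hj => ?_⟩
    obtain ⟨e, he, -, h2, h3⟩ := hj₀ j hj
    have hcL : e₀ (c * L ^ j) ≠ 0 :=
      (map_ne_zero e₀).2 (mul_ne_zero hc0 (pow_ne_zero _ hL0))
    have h4 := h3.pow n
    have h5 := (hasVal_C (e₀ ζ)).mul (h2.zpow hcL m)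
    have h6 : e y₁ ^ n = HahnSeries.C (e₀ ζ) * e z ^ m := by
      rw [← map_pow, h, map_mul, map_zpow₀, he ζ hζ]
    rw [h6] at h4
    have h7 := h4.unique h5
    apply e₀.injective
    rw [map_pow, map_mul e₀ ζ, map_zpow₀]
    exact h7
  obtain ⟨j₁, hj₁⟩ := key 1 alg_one one_ne_zero
  have hj1 : ∀ j ≥ j₁, F (L ^ j) ^ n = ζ * (L ^ j) ^ m := by
    intro j hj
    have := hj₁ j hj
    rwa [one_mul] at this
  have hne : ∀ j ≥ j₁, ζ * (L ^ j) ^ m ≠ 0 := by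
    intro j hj
    rw [← hj1 j hj]
    exact pow_ne_zero _ (hF _ (hLa.pow j) (pow_ne_zero _ hL0)).2.1
  have hA : ∀ c, Alg c → c ≠ 0 → F c ^ n = c ^ m := by
    intro c hc hc0
    obtain ⟨j₀, hj₀⟩ := key c hc hc0
    have h1 := hj₀ (max j₀ j₁) (le_max_left _ _)
    have h2 := hj1 (max j₀ j₁) (le_max_right _ _)
    have h3 := hne (max j₀ j₁) (le_max_right _ _)
    set j := max j₀ j₁
    rw [hmul c (L ^ j) hc hc0 (hLa.pow j) (pow_ne_zero _ hL0), mul_pow, h2, mul_zpow] at h1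
    apply mul_right_cancel₀ h3
    rw [h1]
    ring
  refine ⟨hA, ?_⟩
  have h1 := hj1 j₁ le_rfl
  rw [hA _ (hLa.pow j₁) (pow_ne_zero _ hL0)] at h1
  have h2 : (L ^ j₁) ^ m ≠ 0 := zpow_ne_zero _ (pow_ne_zero _ hL0)
  have h3 : ζ * (L ^ j₁) ^ m = 1 * (L ^ j₁) ^ m := by rw [← h1, one_mul]
  exact mul_right_cancel₀ h2 h3

end UD0
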