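import Pool.Agent.UD0.PwE

/-!
# UD0, section 4, part F: Lemma P and its converse

PROOF of `lemP` (`ν = (lst l : K)`, `F` from `exists_fun`).  `lemP_pow`: `y₁ ^ n = z ^ m`.  `lemP_all` (`ζ = 1`): `F c ^ n = c ^ m` for all `c`.  With `w, c₀` from
`exists_ordK`: `n * w (F c₀) = m * w c₀ = m` (`w` of powers, by induction; also for negative exponents, `w (x * x⁻¹) = w 1 = 0`), so `m = n * m'`.  Let
`ζ = y₁ / z ^ m'`; `ζ ^ n = 1` so `ζ` is algebraic (`alg_of_torsion` in `CodA`, or `Alg.of_pow`), and `y₁ ^ 1 = ζ * z ^ m'`; `lemP_all` with `n = 1`, `m'`: `F c = c ^ m'` and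
`ζ = 1`, so `y₁ = z ^ m'`.  `ident` for `u = 2 z` (not algebraic), `y = y₂`, exponent `m'`: `Ff z y₁ y₂ c (F c)` contains `Nz ((y₂ - c ^ m') (2 z - c))`.  So
`y₂ = (2 z) ^ m'`.  `m' ≠ 0`: otherwise `y₁ = 1`, `F 1 = 1` and `Ff .. 1 1` contains `(1 - 1) * (z - 1) ≠ 0`.
PROOF of `nz_pow` : `NN` by `UD0.nn_pow` (`Gauss`); not zero since `u ≠ c` and `u ^ l ^ s ≠ c ^ l ^ s` (`u` is not algebraic, `Alg.of_pow`).
PROOF of `ff_pow` : `c, b` algebraic, `Ff z (z ^ m) ((2 z) ^ m) c b` (`m : ℕ`) implies `b = c ^ m`: `cov_or (e₀ c)`; in the first case the embedding of `Cov` for `c`: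
`HasVal (e z) (e₀ c)`, `HasVal (e (z ^ m)) (e₀ c ^ m)`, so `0 ≤ (e (z ^ m)).order`, and `val_of_nz` gives `HasVal (e (z ^ m)) (e₀ b)`, so `e₀ b = e₀ c ^ m`.  Second case: the
same with `2 z` and `cov_two`.
PROOF of `ii_pow` : existence `b = c ^ l ^ s` by `nz_pow` for `z` and `2 z`; multiplicativity by `ff_pow` and `nz_pow`.
-/

set_option autoImplicit false

open Polynomial

namespace UD0

universe u

variable {K : Type u} [Field K] [CharZero K] {l : ℕ} [Fact l.Prime] {e₀ : K →+* ℚ_[l]}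

private theorem hv_order {x : LaurentSeries ℚ_[l]} {a : ℚ_[l]} (hx : HasVal x a) :
    0 ≤ x.order := by
  by_contra h
  push Not at h
  have h1 : x = 0 := HahnSeries.coeff_order_eq_zero.1 (hx.1 _ h)
  rw [h1, HahnSeries.order_zero] at h
  exact lt_irrefl _ h

omit [CharZero K] in
private theorem w_pow {w : K → ℤ}
    (hw : ∀ x y, Alg x → x ≠ 0 → Alg y → y ≠ 0 → w (x * y) = w x + w y) (h1 : w 1 = 0)
    {x : K} (hx : Alg x) (hx0 : x ≠ 0) (hp : ∀ n : ℕ, Alg (x ^ n)) (n : ℕ) :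
    w (x ^ n) = n * w x := by
  induction n with
  | zero => simp [h1]
  | succ n ih =>
    rw [pow_succ, hw _ _ (hp n) (pow_ne_zero n hx0) hx hx0, ih]
    push_cast
    ring

private theorem w_zpow {w : K → ℤ}
    (hw : ∀ x y, Alg x → x ≠ 0 → Alg y → y ≠ 0 → w (x * y) = w x + w y)
    {x : K} (hx : Alg x) (hx0 : x ≠ 0) (n : ℤ) : w (x ^ n) = n * w x := by
  have h1 : w 1 = 0 := by
    have := hw 1 1 alg_one one_ne_zero alg_one one_ne_zero
    rw [one_mul] at this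
    linarith
  cases n with
  | ofNat n =>
    rw [Int.ofNat_eq_natCast, zpow_natCast]
    exact w_pow hw h1 hx hx0 (fun n => hx.pow n) n
  | negSucc n =>
    rw [zpow_negSucc]
    have h2 := w_pow hw h1 hx hx0 (fun n => hx.pow n) (n + 1)
    have h3 := hw (x ^ (n + 1)) (x ^ (n + 1))⁻¹ (hx.pow _) (pow_ne_zero _ hx0) (hx.pow _).inv
      (inv_ne_zero (pow_ne_zero _ hx0))
    rw [mul_inv_cancel₀ (pow_ne_zero _ hx0), h1, h2] at h3
    rw [Int.negSucc_eq]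
    push_cast at h3
    linarith

private theorem two_nc {z : K} (hz : ¬ Alg z) : ¬ Alg (2 * z) := by
  intro h
  apply hz
  have h2 : Alg (2 : K) := by exact_mod_cast alg_nat (K := K) 2
  have h3 := h.div h2
  rwa [mul_div_cancel_left₀ z (two_ne_zero)] at h3

/-- Lemma P -/
theorem lemP (M : Mov l e₀) (hnf : NumberField (kk K)) {z y₁ y₂ : K} (hz : ¬ Alg z)
    (hcov : Cov e₀ z) (h : Ii Alg ((lst l : ℤ) : K) z y₁ y₂) :
    ∃ m : ℤ, m ≠ 0 ∧ y₁ = z ^ m ∧ y₂ = (2 * z) ^ m ∧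
      ∀ c b, Alg c → c ≠ 0 → Alg b → b ≠ 0 → (Ff ((lst l : ℤ) : K) z y₁ y₂ c b ↔ b = c ^ m) := by
  obtain ⟨F, hF, hmul⟩ := exists_fun M hz hcov h
  obtain ⟨n, m, hn, hnm⟩ := lemP_pow M hz hcov hF hmul
  obtain ⟨h1, -⟩ := lemP_all M hz hcov hF hmul (ζ := 1) alg_one (by rw [one_mul]; exact hnm)
  obtain ⟨w, c₀, hc₀, hc₀0, hw1, hw⟩ := exists_ordK hnf
  have hz0 : z ≠ 0 := ne_zero_of_nc hz
  obtain ⟨m', hm'⟩ : ∃ m' : ℤ, m = n * m' := by
    refine ⟨w (F c₀), ?_⟩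
    have h2 := congrArg w (h1 c₀ hc₀ hc₀0)
    rw [← zpow_natCast, w_zpow hw (hF c₀ hc₀ hc₀0).1 (hF c₀ hc₀ hc₀0).2.1,
      w_zpow hw hc₀ hc₀0, hw1, mul_one] at h2
    exact h2.symm
  have hzm : z ^ m' ≠ 0 := zpow_ne_zero _ hz0
  have hζ : (y₁ / z ^ m') ^ n = 1 := by
    rw [div_pow, hnm, hm', ← zpow_natCast (z ^ m') n, ← zpow_mul, mul_comm (n : ℤ) m',
      div_self (zpow_ne_zero _ hz0)]
  have hy1 : y₁ ^ 1 = (y₁ / z ^ m') * z ^ m' := by
    rw [pow_one, div_mul_cancel₀ _ hzm]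
  obtain ⟨h3, h4⟩ := lemP_all M hz hcov hF hmul (alg_of_torsion hn hζ) hy1
  have h5 : ∀ c, Alg c → c ≠ 0 → F c = c ^ m' := fun c hc hc0 => by
    have := h3 c hc hc0
    rwa [pow_one] at this
  have h6 : y₁ = z ^ m' := by
    rw [pow_one, h4, one_mul] at hy1
    exact hy1
  have h7 : y₂ = (2 * z) ^ m' := by
    refine ident M (two_nc hz) m' fun c hc hc0 => ?_
    have h8 := (hF c hc hc0).2.2.1.2
    rw [h5 c hc hc0] at h8
    exact h8
  refine ⟨m', ?_, h6, h7, ?_⟩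
  · intro h0
    have h8 := (hF 1 alg_one one_ne_zero).2.2.1.1
    rw [h5 1 alg_one one_ne_zero, h6, h0, zpow_zero, zpow_zero] at h8
    exact h8.1 (by rw [sub_self, zero_mul])
  · intro c b hc hc0 hb hb0
    constructor
    · intro h8
      rw [(hF c hc hc0).2.2.2 b hb hb0 h8, h5 c hc hc0]
    · rintro rfl
      rw [← h5 c hc hc0]
      exact (hF c hc hc0).2.2.1

theorem nz_pow (h2 : l ≠ 2) {u c : K} (hu : ¬ Alg u) (hc : Alg c) (s : ℕ) :
    Nz ((lst l : ℤ) : K) ((u ^ l ^ s - c ^ l ^ s) * (u - c)) := by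
  have hl : l.Prime := Fact.out
  refine ⟨mul_ne_zero ?_ ?_, nn_pow hl h2 s u c⟩
  · intro h
    have h1 : Alg (u ^ l ^ s) := by
      rw [sub_eq_zero.1 h]
      exact hc.pow _
    exact hu (Alg.of_pow (pow_pos hl.pos s) h1)
  · intro h
    apply hu
    rw [sub_eq_zero.1 h]
    exact hc

theorem ff_pow (h2 : l ≠ 2) {z : K} (hcov : Cov e₀ z) (m : ℕ) {c b : K} (hc : Alg c) (hb : Alg b)
    (h : Ff ((lst l : ℤ) : K) z (z ^ m) ((2 * z) ^ m) c b) : b = c ^ m := by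
  have key : ∀ (u : K) (e : K →+* LaurentSeries ℚ_[l]), Ov e₀ e →
      (e u - HahnSeries.C (e₀ c)).order = 1 →
      Nz ((lst l : ℤ) : K) ((u ^ m - b) * (u - c)) → b = c ^ m := by
    intro u e he hu hn
    have h1 : HasVal (e u) (e₀ c) := hasVal_of_pos (by rw [hu]; norm_num)
    have h3 : HasVal (e (u ^ m)) (e₀ c ^ m) := by
      rw [map_pow]
      exact h1.pow m
    have h4 := val_of_nz he hc hb hu (hv_order h3) hn
    have h5 := h4.unique h3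
    rw [← map_pow] at h5
    exact e₀.injective h5
  rcases cov_or (e₀ c) with h1 | h1
  · obtain ⟨e, he, hu⟩ := hcov c hc h1
    exact key z e he hu h.1
  · obtain ⟨e, he, hu⟩ := cov_two h2 hcov hc h1
    exact key (2 * z) e he hu h.2

theorem ii_pow (h2 : l ≠ 2) {z : K} (hz : ¬ Alg z) (hcov : Cov e₀ z) (s : ℕ) :
    Ii Alg ((lst l : ℤ) : K) z (z ^ l ^ s) ((2 * z) ^ l ^ s) := by
  have key : ∀ c, Alg c → Ff ((lst l : ℤ) : K) z (z ^ l ^ s) ((2 * z) ^ l ^ s) c (c ^ l ^ s) :=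
    fun c hc => ⟨nz_pow h2 hz hc s, nz_pow h2 (two_nc hz) hc s⟩
  refine ⟨fun c hc hc0 => ⟨c ^ l ^ s, hc.pow _, pow_ne_zero _ hc0, key c hc⟩, ?_⟩
  intro c c' b b' hc _ hc' _ hb _ hb' _ h1 h3
  rw [ff_pow h2 hcov _ hc hb h1, ff_pow h2 hcov _ hc' hb' h3, ← mul_pow]
  exact key _ (hc.mul hc')

end UD0
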