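import Pool.Agent.UD0.PwF

/-!
# UD0, section 4, part G: the exponents

`OK x ↔ IsIntegral ℤ x`.
PROOF of `ex_iff`.  (⇒) `lemP` gives `m : ℤ`, `m ≠ 0`, and `Ff c b ↔ b = c ^ m`.  For a natural number `N ≥ 1` take `h = N` in the definition of `Ex`: `b = (1 + N) ^ m` and
`b - 1 - x N = N ^ 2 g` with `g` integral.  `N = 1`: `2 ^ m = 1 + x + g` is integral and rational, so an integer (`UD0.rat_int`), hence `0 ≤ m`, so `0 < m`; write `m`
as a natural number.  `(1 + N) ^ m = 1 + m N + N ^ 2 c` with an integer `c` (`Commute.add_pow`/`add_pow`, or induction on `m`), so `(m - x) N = N ^ 2 (g - c)` and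
`m - x = N (g - c)` for all `N ≥ 1`: `UD0.zero_of_div` in the number field `kk K` (`x` is integral, so algebraic) gives `x = m`.
(⇐) `x = m` is integral.  For `h` integral, `h ≠ 0, -1`: `1 + h` is algebraic and nonzero; the first half of `Ii` gives an algebraic `b ≠ 0` with `Ff (1 + h) b`, and
`ff_pow` gives `b = (1 + h) ^ m = 1 + m h + h ^ 2 g` with `g` integral (`exists_binom`: `g` is a polynomial in `h` with natural coefficients, induction on `m`).
-/

set_option autoImplicit false

open Polynomial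

namespace UD0

universe u

theorem exists_binom {R : Type*} [CommRing R] {h : R} (hh : IsIntegral ℤ h) (m : ℕ) :
    ∃ g : R, IsIntegral ℤ g ∧ (1 + h) ^ m - 1 - m * h = h * h * g := by
  induction m with
  | zero => exact ⟨0, isIntegral_zero, by simp⟩
  | succ m ih =>
    obtain ⟨g, hg, h1⟩ := ih
    have hm : IsIntegral ℤ (m : R) := by
      have := isIntegral_algebraMap (R := ℤ) (A := R) (x := (m : ℤ))
      simpa using this
    refine ⟨m + (1 + h) * g, hm.add ((isIntegral_one.add hh).mul hg), ?_⟩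
    have h2 : (1 + h) ^ m = 1 + m * h + h * h * g := by linear_combination h1
    rw [pow_succ, h2]
    push_cast
    ring

variable {K : Type u} [Field K] [CharZero K] {l : ℕ} [Fact l.Prime] {e₀ : K →+* ℚ_[l]}

theorem ex_iff (h2 : l ≠ 2) (M : Mov l e₀) (hnf : NumberField (kk K)) {OK : K → Prop}
    (hOK : ∀ x, OK x ↔ IsIntegral ℤ x) {z : K} (hz : ¬ Alg z) (hcov : Cov e₀ z) (y₁ y₂ x : K) :
    Ex Alg OK ((lst l : ℤ) : K) z y₁ y₂ x ↔
      ∃ m : ℕ, 0 < m ∧ x = m ∧ y₁ = z ^ m ∧ y₂ = (2 * z) ^ m ∧
        Ii Alg ((lst l : ℤ) : K) z y₁ y₂ := by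
  have hnat : ∀ N : ℕ, IsIntegral ℤ (N : K) := fun N => by
    have := isIntegral_algebraMap (R := ℤ) (A := K) (x := (N : ℤ))
    simpa using this
  constructor
  · rintro ⟨hI, hx, hall⟩
    obtain ⟨m, hm0, hy1, hy2, hF⟩ := lemP M hnf hz hcov hI
    have key : ∀ N : ℕ, 1 ≤ N → ∃ g : K, IsIntegral ℤ g ∧
        (1 + (N : K)) ^ m - 1 - x * N = N * N * g := by
      intro N hN
      have hN0 : (N : K) ≠ 0 := Nat.cast_ne_zero.2 (by omega)
      have hN2 : (1 + (N : K)) ≠ 0 := by
        have : ((1 + N : ℕ) : K) ≠ 0 := Nat.cast_ne_zero.2 (by omega)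
        push_cast at this
        exact this
      have hN1 : (N : K) ≠ -1 := by
        intro h
        apply hN2
        rw [h]
        ring
      obtain ⟨b, g, hb, hb0, hf, hg, he⟩ := hall N ((hOK _).2 (hnat N)) hN0 hN1
      have hb' := (hF (1 + N) b (Alg.of_int (isIntegral_one.add (hnat N))) hN2 hb hb0).1 hf
      exact ⟨g, (hOK _).1 hg, by rw [← hb']; exact he⟩
    have hm : 0 < m := by
      obtain ⟨g, hg, he⟩ := key 1 le_rfl
      have h3 : (2 : K) ^ m = 1 + x + g := by
        have h4 : (1 + ((1 : ℕ) : K)) = 2 := by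
          push_cast
          ring
        rw [h4] at he
        push_cast at he
        linear_combination he
      have h5 : IsIntegral ℤ ((((2 : ℚ) ^ m : ℚ)) : K) := by
        have h6 : ((((2 : ℚ) ^ m : ℚ)) : K) = (2 : K) ^ m := by
          push_cast
          rfl
        rw [h6, h3]
        exact (isIntegral_one.add ((hOK _).1 hx)).add hg
      obtain ⟨n, hn⟩ := rat_int _ h5
      by_contra hneg
      have h7 : m < 0 := lt_of_le_of_ne (not_lt.1 hneg) hm0
      have h8 : (2 : ℚ) ^ m < 1 := zpow_lt_one_of_neg₀ (by norm_num) h7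
      have h9 : (0 : ℚ) < (2 : ℚ) ^ m := zpow_pos (by norm_num) m
      rw [hn] at h8 h9
      have h10 : n < 1 := by exact_mod_cast h8
      have h11 : 0 < n := by exact_mod_cast h9
      omega
    obtain ⟨k, rfl⟩ := Int.eq_ofNat_of_zero_le hm.le
    have hk : 0 < k := by exact_mod_cast hm
    refine ⟨k, hk, ?_, ?_, ?_, hI⟩
    · have hxm : IsIntegral ℤ (x - k) := ((hOK _).1 hx).sub (hnat k)
      have hdiv : ∀ N : ℕ, 1 ≤ N → ∃ g : K, IsIntegral ℤ g ∧ x - k = N * g := by
        intro N hN
        obtain ⟨g, hg, he⟩ := key N hN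
        obtain ⟨c, hc, hce⟩ := exists_binom (hnat N) k
        refine ⟨c - g, hc.sub hg, ?_⟩
        have hN0 : (N : K) ≠ 0 := Nat.cast_ne_zero.2 (by omega)
        apply mul_right_cancel₀ hN0
        have he' : (1 + (N : K)) ^ k - 1 - x * N = N * N * g := by
          rw [← he]
          simp
        linear_combination hce - he'
      have hiff : ∀ u : kk K, IsIntegral ℤ u ↔ IsIntegral ℤ (u : K) := fun u =>
        (isIntegral_algHom_iff ((kk K).subtype.toIntAlgHom) Subtype.coe_injective).symm
      have hX : (⟨x - k, mem_kk.2 (Alg.of_int hxm)⟩ : kk K) = 0 := by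
        have := hnf
        apply zero_of_div
        · exact (hiff _).2 hxm
        · intro N
          obtain ⟨g, hg, he⟩ := hdiv (N + 1) (by omega)
          refine ⟨N + 1, by omega, ⟨g, mem_kk.2 (Alg.of_int hg)⟩, (hiff _).2 hg, ?_⟩
          apply Subtype.coe_injective
          push_cast
          push_cast at he
          exact he
      have h12 := congrArg (fun u : kk K => (u : K)) hX
      exact sub_eq_zero.1 h12
    · rw [hy1]
      simp
    · rw [hy2]
      simp
  · rintro ⟨m, hm, rfl, rfl, rfl, hI⟩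
    refine ⟨hI, (hOK _).2 (hnat m), ?_⟩
    intro h hh h0 h1
    have hint := (hOK _).1 hh
    have halg : Alg (1 + h) := Alg.of_int (isIntegral_one.add hint)
    have hne : 1 + h ≠ 0 := by
      intro h3
      exact h1 (by linear_combination h3)
    obtain ⟨b, hb, hb0, hf⟩ := hI.1 (1 + h) halg hne
    have hb' := ff_pow h2 hcov m halg hb hf
    obtain ⟨g, hg, he⟩ := exists_binom hint m
    exact ⟨b, g, hb, hb0, hf, (hOK _).2 hg, by rw [hb']; exact he⟩

end UD0
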