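import Pool.Agent.UD0.SetD
import Pool.Agent.UDN.OD

/-!
# UD0: section 8, the sentences which distinguish the cases

`Dl Z`: the sentence which holds in fields of characteristic zero with a transcendental element (for the relation `Z` which defines the integers
there), `Ch0`: holds in number fields and fails in positive characteristic; `Ph0 x a`: the formula for number fields.
-/

set_option autoImplicit false

namespace UD0

universe u

variable (K : Type u) [Field K]

def Dl (Z : K → Prop) : Prop :=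
  (2 : K) ≠ 0 ∧ (∀ x : K, 2 * x = 1 → ¬ Z x) ∧ ∃ u : K, ∀ n : K, Z n → n ≠ 0 → ¬ UDN.OD (n * u)

def Ch0 : Prop :=
  (2 : K) ≠ 0 ∧ UDN.OD (1 : K) ∧ (∀ x y : K, UDN.OD x → UDN.OD y → UDN.OD (x - y)) ∧
    ∀ x : K, 2 * x = 1 → ¬ UDN.OD x

variable {K}

def Ph0 (x a : K) : Prop :=
  ∃ s : K, UDN.OD s ∧ UDN.OD (s * x) ∧ ∃ p q : K, UDN.OD p ∧ UDN.OD q ∧ s * p + a * q = 1

end UD0
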