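import Pool.Agent.UD0.MovC
import Pool.Agent.UD0.TcH
import Pool.Agent.UD0.ZzC
import Pool.Agent.UD0.PwA
import Pool.Agent.UD0.SetD
import Pool.Agent.UD0.AniQ

/-!
# UD0: existence of a set-up
-/

set_option autoImplicit false

open Polynomial

namespace UD0

universe u

variable {K : Type u} [Field K] [CharZero K]

theorem nf_kk (h : FiniteDimensional ℚ (algebraicClosure ℚ K)) : NumberField (kk K) := by
  have e : (algebraicClosure ℚ K).toSubfield = kk K := by
    ext x
    rw [IntermediateField.mem_toSubfield, mem_const_iff]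
    rfl
  have h2 : FiniteDimensional ℚ (algebraicClosure ℚ K).toSubfield := h
  rw [e] at h2
  exact { to_charZero := inferInstance, to_finiteDimensional := h2 }

theorem exists_setup {P : Pres K} (C : Chart P)
    (hpres : ∀ (m : ℕ) (s : Fin m → K), AlgebraicIndependent ℤ s →
      ∃ (P : Pres K) (h : m ≤ P.d), ∀ i, P.t (Fin.castLE h i) = s i) :
    ∃ S : Setup K, Mov S.l S.e₀ := by
  obtain ⟨l, hl, -⟩ := infinite_good P ∅
  have hlp : l.Prime := hl.1
  have : Fact l.Prime := ⟨hlp⟩
  have hl3 : 3 < l := by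
    have h1 := hl.2.1
    have h2 := hlp.two_le
    have h3 : l ≠ 2 := by rintro rfl; omega
    have h4 : l ≠ 3 := by rintro rfl; omega
    omega
  obtain ⟨e₀⟩ := exists_emb P hl
  obtain ⟨a, ha, hC⟩ := theoremC C hlp
  obtain ⟨n, c₁, c₂, c₃, c₄, -, hn, hn4⟩ := exists_nonres l (by omega)
  have hfd := const_fd C
  refine ⟨{ l := l, l3 := hl3, e₀ := e₀, a := a, ha := ha,
            cst := fun x y _ h => hC x y (by push_cast at h; exact h), n := n, hn := hn,
            hn4 := ⟨c₁, c₂, c₃, c₄, hn4⟩, mov₁ := mov_one hpres hfd e₀, nf := nf_kk hfd },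
    mov_one hpres hfd e₀, mov_two hpres hfd e₀⟩

end UD0
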