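import Pool.Agent.UD0.Base

/-!
# UD0, Theorem C, part B: the constants of one derivation are algebraic over `ℤ[t_j : j ≠ i]`

`A = MvPolynomial (Fin d) ℤ`, `∂ = MvPolynomial.pderiv i`.
PROOF of `pderiv_zero_eval` : `∂ c = 0` implies that the variable `i` does not occur in `c` (characteristic zero: for a monomial `e` with
`e i ≠ 0` the coefficient of `∂ c` at `e - single i 1` is `(e i) * coeff e c`; the monomials `e - single i 1` are distinct; see
`MvPolynomial.coeff_pderiv`? or `MvPolynomial.pderiv_monomial`, `MvPolynomial.mem_vars`).  Then `f c = eval₂ ... = g c`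
(`MvPolynomial.eval₂_congr` / `MvPolynomial.hom_congr_vars`; both `f` and `g` are the identity on `ℤ`).
PROOF of `degOf_pderiv` : `∂ c` is a sum of monomials `e - single i 1` with `e ∈ c.support`, `e i ≠ 0`, so its degree in the variable `i`
is smaller than that of `c`, if `∂ c ≠ 0`.
PROOF of `const_alg`.  Let `ι = P.φ.comp (AdjoinRoot.of P.G) : A →+* K`, injective (`P.φ` is injective by `P.inj` and
`AdjoinRoot.of P.G` is injective as `P.G` is monic and not constant [irreducible and monic: `natDegree ≠ 0`]; see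
`AdjoinRoot.of.injective_of_degree_ne_zero`).  `K` is algebraic over `A`: `P.R` is integral over `A`
(`P.monic.finite_adjoinRoot`) and every element of `K` is a quotient of elements of `φ(P.R)` (`P.surj`).  So there is
`H : A[X]`, `H ≠ 0`, with `H.eval₂ ι a = 0`.
`D (ι c) = ι (∂ c)` for `c ∈ A`: both sides are `ℤ`-derivations from `A` to `K` (an `A`-module through `ι`) with the same values
on the variables [`D (t_j) = if i = j then 1 else 0 = ι (∂ X_j)`]; `MvPolynomial.induction_on`, or
`MvPolynomial.derivation_eq_of_forall_mem_vars`.)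
For `H : A[X]` let `∂H` be the polynomial with the coefficients `∂ (H.coeff n)` (for instance
`∑ n ∈ H.support, C (∂ (H.coeff n)) * X ^ n`, or `Polynomial.map`-like `Derivation.mapCoeff`).  Then
`0 = D (H.eval₂ ι a) = (∂H).eval₂ ι a + (derivative H).eval₂ ι a * D a = (∂H).eval₂ ι a`, since `D a = 0`.
Choose among the nonzero `H` with `H.eval₂ ι a = 0` one with minimal `natDegree` `n`, and among those of this degree one with
minimal `degreeOf i` of the leading coefficient `c`.  If `∂ c ≠ 0` then `∂H` is a nonzero relation of the same degree `n` whose leading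
coefficient `∂ c` has smaller degree in the variable `i` (`degOf_pderiv`): contradiction.  So `∂ c = 0`, hence `∂H` has degree
`< n` and is a relation, so `∂H = 0` by minimality of `n`, i.e. `∂ (H.coeff k) = 0` for all `k`.
-/

set_option autoImplicit false

open Polynomial

namespace UD0

universe u

theorem pderiv_zero_eval {d : ℕ} {A : Type*} [CommRing A] (i : Fin d) {c : MvPolynomial (Fin d) ℤ}
    (hc : MvPolynomial.pderiv i c = 0) (f g : MvPolynomial (Fin d) ℤ →+* A)
    (h : ∀ j, j ≠ i → f (MvPolynomial.X j) = g (MvPolynomial.X j)) : f c = g c := by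
  refine MvPolynomial.hom_congr_vars (Subsingleton.elim _ _) ?_ rfl
  intro j hj _
  apply h
  rintro rfl
  rw [MvPolynomial.mem_vars_iff_mem_support] at hj
  obtain ⟨e, he, hje⟩ := hj
  have h1 := MvPolynomial.coeff_pderiv (i := j) c (e - Finsupp.single j 1)
  have h2 : e - Finsupp.single j 1 + Finsupp.single j 1 = e := by
    refine tsub_add_cancel_of_le (Finsupp.single_le_iff.2 ?_)
    have := Finsupp.mem_support_iff.1 hje
    omega
  rw [hc, MvPolynomial.coeff_zero, h2] at h1
  have h3 : MvPolynomial.coeff e c ≠ 0 := MvPolynomial.mem_support_iff.1 he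
  have h4 : (((e - Finsupp.single j 1 : Fin d →₀ ℕ) j : ℕ) : ℤ) + 1 ≠ 0 := by positivity
  exact mul_ne_zero h3 h4 h1.symm

theorem degOf_pderiv {d : ℕ} (i : Fin d) {c : MvPolynomial (Fin d) ℤ}
    (hc : MvPolynomial.pderiv i c ≠ 0) :
    (MvPolynomial.pderiv i c).degreeOf i < c.degreeOf i := by
  have key : ∀ m ∈ (MvPolynomial.pderiv i c).support, m i + 1 ≤ c.degreeOf i := by
    intro m hm
    rw [MvPolynomial.mem_support_iff, MvPolynomial.coeff_pderiv] at hm
    have h1 : MvPolynomial.coeff (m + Finsupp.single i 1) c ≠ 0 := left_ne_zero_of_mul hm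
    have h2 := MvPolynomial.monomial_le_degreeOf i (MvPolynomial.mem_support_iff.2 h1)
    rwa [Finsupp.add_apply, Finsupp.single_eq_same] at h2
  have hpos : 0 < c.degreeOf i := by
    obtain ⟨m, hm⟩ := MvPolynomial.support_nonempty.2 hc
    have := key m hm
    omega
  rw [MvPolynomial.degreeOf_lt_iff hpos]
  intro m hm
  exact key m hm

/-- the derivation on the coefficients -/
private noncomputable def dH {d : ℕ} (i : Fin d) (H : (MvPolynomial (Fin d) ℤ)[X]) :
    (MvPolynomial (Fin d) ℤ)[X] :=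
  ∑ n ∈ H.support, monomial n (MvPolynomial.pderiv i (H.coeff n))

private theorem coeff_dH {d : ℕ} (i : Fin d) (H : (MvPolynomial (Fin d) ℤ)[X]) (n : ℕ) :
    (dH i H).coeff n = MvPolynomial.pderiv i (H.coeff n) := by
  unfold dH
  rw [finsetSum_coeff]
  simp only [coeff_monomial]
  rw [Finset.sum_ite_eq']
  split_ifs with h
  · rfl
  · rw [notMem_support_iff.1 h, map_zero]

private theorem dH_natDegree {d : ℕ} (i : Fin d) (H : (MvPolynomial (Fin d) ℤ)[X]) :
    (dH i H).natDegree ≤ H.natDegree := by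
  rw [natDegree_le_iff_coeff_eq_zero]
  intro n hn
  rw [coeff_dH, coeff_eq_zero_of_natDegree_lt hn, map_zero]

private theorem D_emb {K : Type u} [Field K] (P : Pres K) (i : Fin P.d)
    (D : Derivation ℤ K K) (hD : ∀ j, D (P.t j) = if i = j then 1 else 0)
    (c : MvPolynomial (Fin P.d) ℤ) :
    D ((P.φ.comp (AdjoinRoot.of P.G)) c) =
      (P.φ.comp (AdjoinRoot.of P.G)) (MvPolynomial.pderiv i c) := by
  induction c using MvPolynomial.induction_on with
  | C n =>
    have h1 : (P.φ.comp (AdjoinRoot.of P.G)) (MvPolynomial.C n) = (n : K) := by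
      rw [show (MvPolynomial.C n : MvPolynomial (Fin P.d) ℤ) = (n : MvPolynomial (Fin P.d) ℤ) from
        (map_intCast (MvPolynomial.C (σ := Fin P.d) (R := ℤ)) n), map_intCast]
    rw [h1, MvPolynomial.pderiv_C, map_zero]
    exact D.map_intCast n
  | add p q hp hq => rw [map_add, map_add, map_add, map_add, hp, hq]
  | mul_X p j hp =>
    have h1 : (P.φ.comp (AdjoinRoot.of P.G)) (MvPolynomial.X j) = P.t j := rfl
    have h2 : (P.φ.comp (AdjoinRoot.of P.G)) (MvPolynomial.pderiv i (MvPolynomial.X j)) =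
        if i = j then 1 else 0 := by
      rw [MvPolynomial.pderiv_X]
      by_cases hij : i = j
      · subst hij
        rw [Pi.single_eq_same, if_pos rfl, map_one]
      · rw [if_neg hij, Pi.single_eq_of_ne (Ne.symm hij), map_zero]
    rw [map_mul, Derivation.leibniz, Derivation.leibniz, map_add, hp, smul_eq_mul, smul_eq_mul,
      smul_eq_mul, smul_eq_mul, map_mul, map_mul, h2, h1, hD]

private theorem dH_rel {K : Type u} [Field K] (P : Pres K) (i : Fin P.d)
    (D : Derivation ℤ K K) (hD : ∀ j, D (P.t j) = if i = j then 1 else 0) {a : K} (ha : D a = 0)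
    {H : (MvPolynomial (Fin P.d) ℤ)[X]} (h : H.eval₂ (P.φ.comp (AdjoinRoot.of P.G)) a = 0) :
    (dH i H).eval₂ (P.φ.comp (AdjoinRoot.of P.G)) a = 0 := by
  have h1 : D (H.eval₂ (P.φ.comp (AdjoinRoot.of P.G)) a) =
      (dH i H).eval₂ (P.φ.comp (AdjoinRoot.of P.G)) a := by
    unfold dH
    rw [eval₂_finsetSum, eval₂_eq_sum, Polynomial.sum, map_sum]
    refine Finset.sum_congr rfl fun n _ => ?_
    rw [eval₂_monomial, Derivation.leibniz, Derivation.leibniz_pow, ha, smul_zero, smul_zero,
      smul_zero, zero_add, D_emb P i D hD, smul_eq_mul, mul_comm]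
  rw [← h1, h, map_zero]

private theorem descent {K : Type u} [Field K] (P : Pres K) (i : Fin P.d)
    (D : Derivation ℤ K K) (hD : ∀ j, D (P.t j) = if i = j then 1 else 0) {a : K} (ha : D a = 0)
    (n : ℕ) : ∀ (m : ℕ) (H : (MvPolynomial (Fin P.d) ℤ)[X]), H ≠ 0 →
      H.eval₂ (P.φ.comp (AdjoinRoot.of P.G)) a = 0 → H.natDegree = n →
      H.leadingCoeff.degreeOf i = m →
      ∃ H : (MvPolynomial (Fin P.d) ℤ)[X], H ≠ 0 ∧
        (∀ n, MvPolynomial.pderiv i (H.coeff n) = 0) ∧
        H.eval₂ (P.φ.comp (AdjoinRoot.of P.G)) a = 0 := by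
  induction n using Nat.strong_induction_on with
  | _ n ihn =>
    intro m
    induction m using Nat.strong_induction_on with
    | _ m ihm =>
      intro H hH h0 hn hm
      by_cases hd : dH i H = 0
      · refine ⟨H, hH, fun k => ?_, h0⟩
        rw [← coeff_dH, hd, coeff_zero]
      · have h1 := dH_rel P i D hD ha h0
        have h2 := dH_natDegree i H
        rcases lt_or_eq_of_le h2 with h3 | h3
        · exact ihn _ (hn ▸ h3) _ (dH i H) hd h1 rfl rfl
        · have h4 : (dH i H).leadingCoeff = MvPolynomial.pderiv i H.leadingCoeff := by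
            rw [leadingCoeff, h3, coeff_dH, leadingCoeff]
          have h5 : MvPolynomial.pderiv i H.leadingCoeff ≠ 0 := by
            rw [← h4]
            exact leadingCoeff_ne_zero.2 hd
          refine ihm _ ?_ (dH i H) hd h1 (h3.trans hn) rfl
          rw [h4, ← hm]
          exact degOf_pderiv i h5

private theorem emb_inj {K : Type u} [Field K] (P : Pres K) :
    Function.Injective (P.φ.comp (AdjoinRoot.of P.G)) := by
  rw [RingHom.coe_comp]
  refine P.inj.comp (AdjoinRoot.of.injective_of_degree_ne_zero ?_)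
  intro h
  have h1 : P.G.natDegree = 0 := natDegree_eq_of_degree_eq_some h
  have h2 : P.G = 1 := P.monic.natDegree_eq_zero.1 h1
  have h3 := P.irr.not_isUnit
  rw [h2] at h3
  exact h3 isUnit_one

private theorem exists_rel {K : Type u} [Field K] (P : Pres K) (a : K) :
    ∃ H : (MvPolynomial (Fin P.d) ℤ)[X], H ≠ 0 ∧
      H.eval₂ (P.φ.comp (AdjoinRoot.of P.G)) a = 0 := by
  letI : Algebra (MvPolynomial (Fin P.d) ℤ) K := (P.φ.comp (AdjoinRoot.of P.G)).toAlgebra
  have hfin : Module.Finite (MvPolynomial (Fin P.d) ℤ) (AdjoinRoot P.G) :=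
    P.monic.finite_adjoinRoot
  have hint : ∀ r : AdjoinRoot P.G, IsAlgebraic (MvPolynomial (Fin P.d) ℤ) (P.φ r) := by
    intro r
    obtain ⟨p, hp, hp0⟩ := Algebra.IsIntegral.isIntegral (R := MvPolynomial (Fin P.d) ℤ) r
    refine ⟨p, hp.ne_zero, ?_⟩
    have h1 : aeval (P.φ r) p = P.φ (p.eval₂ (algebraMap _ (AdjoinRoot P.G)) r) := by
      rw [hom_eval₂]
      rfl
    rw [h1, hp0, map_zero]
  obtain ⟨x, y, hy, hxy⟩ := P.surj a
  have hy0 : P.φ y ≠ 0 := by
    intro h
    apply hy
    apply P.inj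
    rw [h, map_zero]
  have ha : a = P.φ x * (P.φ y)⁻¹ := by
    rw [← hxy, mul_comm (P.φ y) a, mul_assoc, mul_inv_cancel₀ hy0, mul_one]
  have halg : IsAlgebraic (MvPolynomial (Fin P.d) ℤ) a := by
    rw [ha]
    exact (hint x).mul (hint y).inv
  obtain ⟨H, hH, h0⟩ := halg
  exact ⟨H, hH, h0⟩

theorem const_alg {K : Type u} [Field K] [CharZero K] (P : Pres K) (i : Fin P.d)
    (D : Derivation ℤ K K) (hD : ∀ j, D (P.t j) = if i = j then 1 else 0) {a : K} (ha : D a = 0) :
    ∃ H : (MvPolynomial (Fin P.d) ℤ)[X], H ≠ 0 ∧ (∀ n, MvPolynomial.pderiv i (H.coeff n) = 0) ∧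
      H.eval₂ (P.φ.comp (AdjoinRoot.of P.G)) a = 0 := by
  obtain ⟨H, hH, h0⟩ := exists_rel P a
  exact descent P i D hD ha _ _ H hH h0 rfl rfl

end UD0
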