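import Pool.Agent.UD0.Base

/-!
# UD0, Theorem C, part C: the localised ring `φ(R)[1 / h]` and the derivation

`P.loc h` is the subring of `K` of the `z` with `z * φ(h) ^ n = φ(a)` for some `a : P.R`, `n : ℕ`.
PROOF of `loc_mono` : `h' = h * c`: `z * φ(h') ^ n = φ(a) φ(c) ^ n`.
PROOF of `exists_loc` (finite set `s`): induction on `s`; for one `z`: `P.surj z` gives `b ≠ 0` with `φ b * z = φ a`, so `z ∈ P.loc b`;
for several take the product of the `h` (`P.R` is a domain: `P.inj.isDomain`, also `UD0.isDomain_R` in `UD0/ArE.lean`) and use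
`loc_mono`.
PROOF of `inv_mem` : `φ(h)⁻¹ * φ(h) ^ 1 = 1 = φ 1` (`φ h ≠ 0` by `P.inj`).
PROOF of `D_mem`.  First `D (φ (of c)) = φ (of (∂ c))` for `c ∈ MvPolynomial (Fin d) ℤ`, `∂ = pderiv i`: induction on `c`
(`MvPolynomial.induction_on`), using `hD` for the variables (note `P.t j = P.φ (P.tR j)`, `P.tR j = of (X j)`).  Second, for
`θ = φ (AdjoinRoot.root P.G)`: `0 = D (φ (mk G G)) = φ (mk G (∂G)) + φ (P.disc) * D θ` where `∂G` has the coefficients `∂ (G.coeff n)`
(expand `φ (mk G g) = ∑ n, φ (of (g.coeff n)) * θ ^ n`, Leibniz rule), so `φ(P.disc) * D θ ∈ φ(P.R)` and as `P.disc ∣ h` also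
`φ(h) * D θ ∈ φ(P.R)`, i.e. `D θ ∈ P.loc h`.  Every element of `P.R` is `mk G g = ∑ of (g.coeff n) * root ^ n`
(`AdjoinRoot.induction_on`), so `D (φ a) ∈ P.loc h` for all `a` (Leibniz, subring).  Third, if `z * φ(h) ^ n = φ(a)` then
`D z * φ(h) ^ n = D (φ a) - z * D (φ (h ^ n)) ∈ P.loc h`, and `φ(h)⁻¹ ∈ P.loc h` (`h ≠ 0`, `inv_mem`).
-/

set_option autoImplicit false

open Polynomial

namespace UD0

universe u

variable {K : Type u} [Field K]

/-- the localised ring of a presentation -/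
def Pres.loc (P : Pres K) (h : P.R) : Subring K where
  carrier := {z | ∃ (a : P.R) (n : ℕ), z * P.φ h ^ n = P.φ a}
  mul_mem' := by
    rintro z w ⟨a, n, hz⟩ ⟨b, m, hw⟩
    refine ⟨a * b, n + m, ?_⟩
    rw [map_mul, ← hz, ← hw, pow_add]
    ring
  one_mem' := ⟨1, 0, by simp⟩
  add_mem' := by
    rintro z w ⟨a, n, hz⟩ ⟨b, m, hw⟩
    refine ⟨a * h ^ m + b * h ^ n, n + m, ?_⟩
    rw [map_add, map_mul, map_mul, map_pow, map_pow, ← hz, ← hw, pow_add]
    ring
  zero_mem' := ⟨0, 0, by simp⟩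
  neg_mem' := by
    rintro z ⟨a, n, hz⟩
    refine ⟨-a, n, ?_⟩
    rw [map_neg, ← hz]
    ring

theorem Pres.phi_mem (P : Pres K) (h a : P.R) : P.φ a ∈ P.loc h := ⟨a, 0, by simp⟩

private theorem phi_ne77 (P : Pres K) {h : P.R} (hh : h ≠ 0) : P.φ h ≠ 0 := fun h0 =>
  hh (P.inj (by rw [h0, map_zero]))

theorem Pres.loc_mono (P : Pres K) {h h' : P.R} (hd : h ∣ h') : P.loc h ≤ P.loc h' := by
  obtain ⟨c, rfl⟩ := hd
  rintro z ⟨a, n, hz⟩
  refine ⟨a * c ^ n, n, ?_⟩
  rw [map_mul, map_mul, map_pow, ← hz, mul_pow]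
  ring

theorem Pres.exists_loc (P : Pres K) (s : Finset K) : ∃ h : P.R, h ≠ 0 ∧ ∀ z ∈ s, z ∈ P.loc h := by
  classical
  induction s using Finset.induction_on with
  | empty =>
    refine ⟨1, fun h0 => ?_, fun z hz => absurd hz (Finset.notMem_empty z)⟩
    have := congrArg P.φ h0
    rw [map_one, map_zero] at this
    exact one_ne_zero this
  | insert z s _ ih =>
    obtain ⟨h, hh, hs⟩ := ih
    obtain ⟨a, b, hb, hab⟩ := P.surj z
    refine ⟨b * h, fun h0 => ?_, fun w hw => ?_⟩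
    · have := congrArg P.φ h0
      rw [map_mul, map_zero] at this
      rcases mul_eq_zero.1 this with h1 | h1
      · exact phi_ne77 P hb h1
      · exact phi_ne77 P hh h1
    · rcases Finset.mem_insert.1 hw with rfl | hw
      · exact P.loc_mono (dvd_mul_right b h) ⟨a, 1, by rw [pow_one, mul_comm]; exact hab⟩
      · exact P.loc_mono (dvd_mul_left h b) (hs w hw)

theorem Pres.inv_mem (P : Pres K) {h : P.R} (hh : h ≠ 0) : (P.φ h)⁻¹ ∈ P.loc h := by
  refine ⟨1, 1, ?_⟩
  rw [pow_one, map_one, inv_mul_cancel₀ (phi_ne77 P hh)]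

theorem Pres.D_of (P : Pres K) (i : Fin P.d) (D : Derivation ℤ K K)
    (hD : ∀ j, D (P.t j) = if i = j then 1 else 0) (c : MvPolynomial (Fin P.d) ℤ) :
    D (P.φ (AdjoinRoot.of P.G c)) = P.φ (AdjoinRoot.of P.G (MvPolynomial.pderiv i c)) := by
  induction c using MvPolynomial.induction_on with
  | C a =>
    have e : P.φ (AdjoinRoot.of P.G (MvPolynomial.C a)) = algebraMap ℤ K a := by
      have h1 : (MvPolynomial.C a : MvPolynomial (Fin P.d) ℤ) = (a : MvPolynomial (Fin P.d) ℤ) :=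
        eq_intCast MvPolynomial.C a
      rw [h1, map_intCast, map_intCast, algebraMap_int_eq, eq_intCast]
    rw [e, Derivation.map_algebraMap, MvPolynomial.pderiv_C, map_zero, map_zero]
  | add p q hp hq =>
    rw [map_add, map_add, map_add D, hp, hq, map_add (MvPolynomial.pderiv i), map_add, map_add]
  | mul_X p j hp =>
    have e : P.φ (AdjoinRoot.of P.G (MvPolynomial.X j)) = P.t j := rfl
    rw [map_mul, map_mul, Derivation.leibniz, hp, e, hD, MvPolynomial.pderiv_mul,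
      MvPolynomial.pderiv_X, Pi.single_apply, map_add, map_mul, map_mul, map_add, map_mul, map_mul,
      e, smul_eq_mul, smul_eq_mul]
    by_cases hij : i = j
    · rw [if_pos hij, if_pos hij.symm, map_one, map_one]
      ring
    · rw [if_neg hij, if_neg (fun h => hij h.symm), map_zero, map_zero]
      ring

private theorem mk_der77 (P : Pres K) (i : Fin P.d) (D : Derivation ℤ K K)
    (hD : ∀ j, D (P.t j) = if i = j then 1 else 0) (g : (MvPolynomial (Fin P.d) ℤ)[X]) :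
    ∃ b : P.R, D (P.φ (AdjoinRoot.mk P.G g)) =
      P.φ b + P.φ (AdjoinRoot.mk P.G (derivative g)) * D (P.φ (AdjoinRoot.root P.G)) := by
  induction g using Polynomial.induction_on' with
  | add g g' hg hg' =>
    obtain ⟨b, hb⟩ := hg
    obtain ⟨b', hb'⟩ := hg'
    refine ⟨b + b', ?_⟩
    rw [map_add (AdjoinRoot.mk P.G), map_add P.φ, map_add D, hb, hb', derivative_add,
      map_add (AdjoinRoot.mk P.G), map_add P.φ, map_add P.φ]
    ring
  | monomial n c =>
    have e : ∀ (m : ℕ) (x : MvPolynomial (Fin P.d) ℤ), AdjoinRoot.mk P.G (monomial m x) =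
        AdjoinRoot.of P.G x * AdjoinRoot.root P.G ^ m := by
      intro m x
      rw [← C_mul_X_pow_eq_monomial, map_mul, map_pow, AdjoinRoot.mk_C, AdjoinRoot.mk_X]
    refine ⟨AdjoinRoot.root P.G ^ n * AdjoinRoot.of P.G (MvPolynomial.pderiv i c), ?_⟩
    rw [derivative_monomial, e, e]
    simp only [map_mul, map_pow, Derivation.leibniz, Derivation.leibniz_pow, smul_eq_mul,
      P.D_of i D hD, map_natCast, nsmul_eq_mul]
    ring

theorem Pres.D_mem (P : Pres K) (i : Fin P.d) (D : Derivation ℤ K K)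
    (hD : ∀ j, D (P.t j) = if i = j then 1 else 0) {h : P.R} (hh : h ≠ 0) (hd : P.disc ∣ h)
    {z : K} (hz : z ∈ P.loc h) : D z ∈ P.loc h := by
  have hθ : D (P.φ (AdjoinRoot.root P.G)) ∈ P.loc h := by
    obtain ⟨b, hb⟩ := mk_der77 P i D hD P.G
    obtain ⟨c, hc⟩ := hd
    rw [AdjoinRoot.mk_self, map_zero, map_zero] at hb
    refine ⟨c * (-b), 1, ?_⟩
    rw [pow_one, hc, map_mul, map_mul, map_neg]
    have e : P.φ P.disc * D (P.φ (AdjoinRoot.root P.G)) = - P.φ b := by
      have h1 : P.φ b + P.φ P.disc * D (P.φ (AdjoinRoot.root P.G)) = 0 := hb.symm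
      exact eq_neg_of_add_eq_zero_right h1
    linear_combination (P.φ c) * e
  have hφ : ∀ a : P.R, D (P.φ a) ∈ P.loc h := by
    intro a
    obtain ⟨g, rfl⟩ := AdjoinRoot.mk_surjective a
    obtain ⟨b, hb⟩ := mk_der77 P i D hD g
    rw [hb]
    exact add_mem (P.phi_mem h b) (mul_mem (P.phi_mem h _) hθ)
  obtain ⟨a, n, hz'⟩ := id hz
  have h1 := congrArg D hz'
  rw [Derivation.leibniz, smul_eq_mul, smul_eq_mul] at h1
  have hne := phi_ne77 P hh
  have h2 : D z = (D (P.φ a) - z * D (P.φ (h ^ n))) * ((P.φ h)⁻¹) ^ n := by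
    rw [map_pow, ← h1, inv_pow]
    field_simp
    ring
  rw [h2]
  exact mul_mem (sub_mem (hφ a) (mul_mem hz (hφ _))) (pow_mem (P.inv_mem hh) n)

end UD0
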