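import Pool.Agent.UD0.TcC
import Pool.Agent.UD0.PSH

/-!
# UD0, Theorem C, part D: the Taylor homomorphism along the coordinate `t_i`

`F` a field, `τ : P.R →+* F`.
PROOF of `taylor_lift`.  Let `κ : MvPolynomial (Fin d) ℤ →+* F⟦X⟧`, `X_j ↦ C (τ (tR j)) + (if i = j then X else 0)`
(`MvPolynomial.eval₂Hom (Int.castRingHom _) _`).  Its composition with `constantCoeff` is `τ ∘ of` (check on variables:
`MvPolynomial.ringHom_ext`).  `g = P.G.map κ` is monic, `g.map constantCoeff = P.G.map (τ ∘ of)` has the root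
`y₀ = τ (AdjoinRoot.root P.G)` with derivative value `τ P.disc ≠ 0`.  `UD0.psh` gives `y : F⟦X⟧` with `g.eval y = 0` and constant
coefficient `y₀`.  `Ψ₀ = AdjoinRoot.lift κ y _`.  The two ring homomorphisms `constantCoeff ∘ Ψ₀` and `τ` agree on `of c` and on the root
(`AdjoinRoot.ringHom_ext`).
PROOF of `taylor`.  `D' z = ⟨D z, P.D_mem ..⟩`.  `Ψ`: for `z ∈ P.loc h` with `z φ(h) ^ n = φ(a)` put
`Ψ z = Ψ₀ a * (Ψ₀ h)⁻¹ ^ n` (`Ψ₀ h` has constant coefficient `τ h ≠ 0`, so it is a unit of `F⟦X⟧`).  Well defined: if also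
`z φ(h) ^ m = φ(b)` then `φ(a h ^ m) = φ(b h ^ n)`, so `a h ^ m = b h ^ n` by `P.inj`.  (Or: `P.loc h` is a localization of `P.R` away from
`h`: `IsLocalization.Away`; `IsLocalization.Away.lift`.)  It is a ring homomorphism with `Ψ (φ a) = Ψ₀ a`.
`Ψ (D' z) = d (Ψ z)` with `d = PowerSeries.derivative F`: let `E z = Ψ (D' z) - d (Ψ z)`; it is additive and
`E (z w) = Ψ z * E w + Ψ w * E z`, `E 1 = 0`.  `E (t_j) = 0` : `D (t_j)` is `1` or `0` and `Ψ (t_j) = C _ + (X or 0)`.  So `E (φ (of c)) = 0` for all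
`c : MvPolynomial (Fin d) ℤ` (`MvPolynomial.induction_on`).  For `θ = φ (root)`: `0 = E (φ (mk G G)) = E (∑ φ (of (G.coeff n)) θ ^ n)
= Ψ (φ P.disc) * E θ`, and `Ψ (φ P.disc) = Ψ₀ P.disc` is a unit (`P.disc ∣ h`), so `E θ = 0`, hence `E (φ a) = 0` for all `a : P.R`
(`AdjoinRoot.induction_on`, polynomial in `θ` with coefficients `of c`).  If `z φ(h) ^ n = φ(a)` then
`0 = E (φ a) = E (z * φ(h) ^ n) = Ψ (φ(h) ^ n) * E z + Ψ z * E (φ (h ^ n)) = Ψ₀ h ^ n * E z`, so `E z = 0`.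
Last property: `Ψ z = Ψ₀ (of c) = κ c`, and `κ c = C (τ (of c))` for `c` with `pderiv i c = 0`: the ring homomorphisms `κ` and
`C ∘ τ ∘ of` agree on the variables `X_j`, `j ≠ i`; apply `UD0.pderiv_zero_eval` (in `UD0/TcB.lean`; import it).
-/

set_option autoImplicit false

open Polynomial

namespace UD0

universe u

variable {K : Type u} [Field K]

private theorem mk_eval2 (P : Pres K) (g : (MvPolynomial (Fin P.d) ℤ)[X]) :
    AdjoinRoot.mk P.G g = g.eval₂ (AdjoinRoot.of P.G) (AdjoinRoot.root P.G) := by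
  rw [← AdjoinRoot.aeval_eq, aeval_def, AdjoinRoot.algebraMap_eq]

theorem taylor_lift (P : Pres K) (i : Fin P.d) {F : Type*} [Field F] (τ : P.R →+* F)
    (hτ : τ P.disc ≠ 0) : ∃ Ψ₀ : P.R →+* PowerSeries F,
      (∀ a, PowerSeries.constantCoeff (Ψ₀ a) = τ a) ∧
      ∀ j, Ψ₀ (P.tR j) = PowerSeries.C (τ (P.tR j)) + if i = j then PowerSeries.X else 0 := by
  obtain ⟨κ, hκ⟩ : ∃ κ : MvPolynomial (Fin P.d) ℤ →+* PowerSeries F, κ =
      MvPolynomial.eval₂Hom (Int.castRingHom (PowerSeries F))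
        (fun j => PowerSeries.C (τ (P.tR j)) + if i = j then PowerSeries.X else 0) := ⟨_, rfl⟩
  have hκX : ∀ j, κ (MvPolynomial.X j) =
      PowerSeries.C (τ (P.tR j)) + if i = j then PowerSeries.X else 0 := by
    intro j
    rw [hκ, MvPolynomial.eval₂Hom_X']
  have hcomp : (PowerSeries.constantCoeff (R := F)).comp κ = τ.comp (AdjoinRoot.of P.G) := by
    refine MvPolynomial.ringHom_ext (fun n => ?_) (fun j => ?_)
    · have h1 : (MvPolynomial.C n : MvPolynomial (Fin P.d) ℤ) = ((n : ℤ) : MvPolynomial (Fin P.d) ℤ) :=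
        (eq_intCast (MvPolynomial.C : ℤ →+* MvPolynomial (Fin P.d) ℤ) n)
      rw [h1, map_intCast, map_intCast]
    · rw [RingHom.comp_apply, hκX, RingHom.comp_apply, map_add, PowerSeries.constantCoeff_C]
      have h2 : PowerSeries.constantCoeff (R := F)
          (if i = j then (PowerSeries.X : PowerSeries F) else 0) = 0 := by
        split_ifs
        · exact PowerSeries.constantCoeff_X
        · exact map_zero _
      rw [h2, add_zero]
      rfl
  obtain ⟨y₀, hy₀⟩ : ∃ y₀, y₀ = τ (AdjoinRoot.root P.G) := ⟨_, rfl⟩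
  have hev : ∀ g : (MvPolynomial (Fin P.d) ℤ)[X],
      ((g.map κ).map (PowerSeries.constantCoeff (R := F))).eval y₀ = τ (AdjoinRoot.mk P.G g) := by
    intro g
    rw [Polynomial.map_map, hcomp, mk_eval2, Polynomial.hom_eval₂, eval_map, hy₀]
  obtain ⟨y, hy, hcy⟩ := psh (P.G.map κ) (P.monic.map κ) y₀
    (by rw [hev, AdjoinRoot.mk_self, map_zero])
    (by
      rw [Polynomial.derivative_map, Polynomial.derivative_map, hev]
      exact isUnit_iff_ne_zero.2 hτ)
  have hy' : P.G.eval₂ κ y = 0 := by rw [← eval_map]; exact hy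
  refine ⟨AdjoinRoot.lift κ y hy', fun a => ?_, fun j => ?_⟩
  · induction a using AdjoinRoot.induction_on with
    | ih g =>
      rw [AdjoinRoot.lift_mk, Polynomial.hom_eval₂, hcomp, hcy, mk_eval2, Polynomial.hom_eval₂, hy₀]
  · rw [← hκX j]
    exact AdjoinRoot.lift_of hy'

end UD0
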