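import Pool.Agent.UD0.TcB
import Pool.Agent.UD0.TcD

/-!
# UD0, Theorem C, part E: the Taylor homomorphism of the localised ring

See the proof of `taylor` in the header of `UD0/TcD.lean`.
-/

set_option autoImplicit false

open Polynomial

namespace UD0

universe u

variable {K : Type u} [Field K]

/-- the extension of a homomorphism to the localised ring -/
private theorem exists_ext (P : Pres K) {h : P.R} {F : Type*} [Field F]
    (Ψ₀ : P.R →+* PowerSeries F) (hh : PowerSeries.constantCoeff (Ψ₀ h) ≠ 0) :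
    ∃ Ψ : P.loc h →+* PowerSeries F, ∀ (z : P.loc h) (a : P.R) (n : ℕ),
      (z : K) * P.φ h ^ n = P.φ a → Ψ z * Ψ₀ h ^ n = Ψ₀ a := by
  have hu : Ψ₀ h ≠ 0 := by
    intro h0
    rw [h0, map_zero] at hh
    exact hh rfl
  have hinv : Ψ₀ h * (Ψ₀ h)⁻¹ = 1 := PowerSeries.mul_inv_cancel _ hh
  have hch : ∀ z : P.loc h, ∃ (a : P.R) (n : ℕ), (z : K) * P.φ h ^ n = P.φ a := fun z => z.2
  choose num ex hnum using hch
  obtain ⟨f, hf⟩ : ∃ f : P.loc h → PowerSeries F,
      ∀ z, f z = Ψ₀ (num z) * ((Ψ₀ h)⁻¹) ^ (ex z) := ⟨_, fun _ => rfl⟩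
  have key : ∀ (z : P.loc h) (a : P.R) (n : ℕ), (z : K) * P.φ h ^ n = P.φ a →
      f z * Ψ₀ h ^ n = Ψ₀ a := by
    intro z a n hz
    have h1 : a * h ^ (ex z) = num z * h ^ n := by
      apply P.inj
      rw [map_mul, map_mul, map_pow, map_pow, ← hz, ← hnum z]
      ring
    have h2 : Ψ₀ a * Ψ₀ h ^ (ex z) = Ψ₀ (num z) * Ψ₀ h ^ n := by
      rw [← map_pow, ← map_mul, h1, map_mul, map_pow]
    have h3 : Ψ₀ h ^ (ex z) * ((Ψ₀ h)⁻¹) ^ (ex z) = 1 := by
      rw [← mul_pow, hinv, one_pow]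
    rw [hf]
    calc Ψ₀ (num z) * ((Ψ₀ h)⁻¹) ^ (ex z) * Ψ₀ h ^ n = Ψ₀ (num z) * Ψ₀ h ^ n * ((Ψ₀ h)⁻¹) ^ (ex z) := by ring
      _ = Ψ₀ a * Ψ₀ h ^ (ex z) * ((Ψ₀ h)⁻¹) ^ (ex z) := by rw [h2]
      _ = Ψ₀ a * (Ψ₀ h ^ (ex z) * ((Ψ₀ h)⁻¹) ^ (ex z)) := by ring
      _ = Ψ₀ a := by rw [h3, mul_one]
  have uniq : ∀ {X Y : PowerSeries F} (n : ℕ), X * Ψ₀ h ^ n = Y * Ψ₀ h ^ n → X = Y :=
    fun n hXY => mul_right_cancel₀ (pow_ne_zero n hu) hXY
  refine ⟨{ toFun := f, map_one' := ?_, map_mul' := ?_, map_zero' := ?_, map_add' := ?_ }, key⟩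
  · have h1 := key 1 1 0 (by simp)
    rw [pow_zero, mul_one, map_one] at h1
    exact h1
  · intro z w
    refine uniq (ex z + ex w) ?_
    rw [key (z * w) (num z * num w) (ex z + ex w) (by
      rw [map_mul, ← hnum z, ← hnum w, pow_add]
      push_cast
      ring), map_mul, ← key z _ _ (hnum z), ← key w _ _ (hnum w), pow_add]
    ring
  · have h1 := key 0 0 0 (by simp)
    rw [pow_zero, mul_one, map_zero] at h1
    exact h1
  · intro z w
    refine uniq (ex z + ex w) ?_
    rw [key (z + w) (num z * h ^ ex w + num w * h ^ ex z) (ex z + ex w) (by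
      rw [map_add, map_mul, map_mul, map_pow, map_pow, ← hnum z, ← hnum w, pow_add]
      push_cast
      ring), map_add, map_mul, map_mul, map_pow, map_pow, ← key z _ _ (hnum z),
      ← key w _ _ (hnum w), pow_add]
    ring

theorem taylor (P : Pres K) (i : Fin P.d) (D : Derivation ℤ K K)
    (hD : ∀ j, D (P.t j) = if i = j then 1 else 0) {h : P.R} (hh : h ≠ 0) (hd : P.disc ∣ h)
    {F : Type*} [Field F] (τ : P.R →+* F) (hτ : τ h ≠ 0) :
    ∃ (D' : P.loc h → P.loc h) (Ψ : P.loc h →+* PowerSeries F), (∀ z, (D' z : K) = D z) ∧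
      (∀ z, Ψ (D' z) = PowerSeries.derivative F (Ψ z)) ∧
      (∀ a : P.R, ∀ z : P.loc h, (z : K) = P.φ a → PowerSeries.constantCoeff (Ψ z) = τ a) ∧
      ∀ c : MvPolynomial (Fin P.d) ℤ, MvPolynomial.pderiv i c = 0 → ∀ z : P.loc h,
        (z : K) = P.φ (AdjoinRoot.of P.G c) → Ψ z = PowerSeries.C (τ (AdjoinRoot.of P.G c)) := by
  have hdisc : τ P.disc ≠ 0 := by
    intro h0
    obtain ⟨c, hc⟩ := hd
    rw [hc, map_mul, h0, zero_mul] at hτ
    exact hτ rfl
  obtain ⟨Ψ₀, hc0, hX⟩ := taylor_lift P i τ hdisc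
  have hne : ∀ a : P.R, τ a ≠ 0 → Ψ₀ a ≠ 0 := by
    intro a ha h0
    have h1 := hc0 a
    rw [h0, map_zero] at h1
    exact ha h1.symm
  obtain ⟨Ψ, key⟩ := exists_ext P (h := h) Ψ₀ (by rw [hc0]; exact hτ)
  have key0 : ∀ (z : P.loc h) (a : P.R), (z : K) = P.φ a → Ψ z = Ψ₀ a := by
    intro z a hz
    have h1 := key z a 0 (by rw [pow_zero, mul_one, hz])
    rwa [pow_zero, mul_one] at h1
  obtain ⟨D', hD'⟩ : ∃ D' : P.loc h → P.loc h, ∀ z, (D' z : K) = D z :=
    ⟨fun z => ⟨D z, P.D_mem i D hD hh hd z.2⟩, fun _ => rfl⟩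
  -- the derivation of the power series on the polynomials
  have hκ : ∀ c : MvPolynomial (Fin P.d) ℤ, PowerSeries.derivative F (Ψ₀ (AdjoinRoot.of P.G c)) =
      Ψ₀ (AdjoinRoot.of P.G (MvPolynomial.pderiv i c)) := by
    intro c
    induction c using MvPolynomial.induction_on with
    | C a =>
      have e : Ψ₀ (AdjoinRoot.of P.G (MvPolynomial.C a)) = ((a : ℤ) : PowerSeries F) := by
        have e2 : (MvPolynomial.C a : MvPolynomial (Fin P.d) ℤ) = ((a : ℤ) : MvPolynomial (Fin P.d) ℤ) :=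
          (eq_intCast (MvPolynomial.C : ℤ →+* MvPolynomial (Fin P.d) ℤ) a)
        rw [e2, map_intCast, map_intCast]
      rw [e, MvPolynomial.pderiv_C, map_zero, map_zero]
      exact Derivation.map_intCast _ a
    | add p q hp hq =>
      rw [map_add, map_add, map_add, hp, hq, map_add, map_add, map_add]
    | mul_X p j hp =>
      have hj : PowerSeries.derivative F (Ψ₀ (AdjoinRoot.of P.G (MvPolynomial.X j))) =
          Ψ₀ (AdjoinRoot.of P.G (MvPolynomial.pderiv i (MvPolynomial.X j))) := by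
        have h1 : Ψ₀ (AdjoinRoot.of P.G (MvPolynomial.X j)) =
          PowerSeries.C (τ (P.tR j)) + if i = j then PowerSeries.X else 0 := hX j
        rw [h1, map_add]
        have h2 : PowerSeries.derivative F (PowerSeries.C (τ (P.tR j))) = 0 :=
          PowerSeries.derivative_C
        rw [h2, zero_add]
        by_cases hij : i = j
        · subst hij
          rw [if_pos rfl, MvPolynomial.pderiv_X_self, map_one, map_one]
          exact PowerSeries.derivative_X
        · rw [if_neg hij, MvPolynomial.pderiv_X_of_ne (fun h => hij h.symm), map_zero, map_zero, map_zero]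
      rw [map_mul, map_mul, Derivation.leibniz, Derivation.leibniz, hp, hj, smul_eq_mul, smul_eq_mul,
        smul_eq_mul, smul_eq_mul, map_add, map_mul, map_mul, map_add, map_mul, map_mul]
  -- the error
  obtain ⟨E, hE⟩ : ∃ E : P.loc h → PowerSeries F, ∀ z, E z = Ψ (D' z) - PowerSeries.derivative F (Ψ z) :=
    ⟨_, fun _ => rfl⟩
  have Eadd : ∀ z w, E (z + w) = E z + E w := by
    intro z w
    have h1 : D' (z + w) = D' z + D' w := by
      apply Subtype.ext
      push_cast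
      rw [hD', hD', hD']
      push_cast
      rw [map_add]
    rw [hE, hE, hE, h1, map_add, map_add, map_add]
    ring
  have Emul : ∀ z w, E (z * w) = Ψ z * E w + Ψ w * E z := by
    intro z w
    have h1 : D' (z * w) = z * D' w + w * D' z := by
      apply Subtype.ext
      push_cast
      rw [hD', hD', hD']
      push_cast
      rw [Derivation.leibniz, smul_eq_mul, smul_eq_mul]
    rw [hE, hE, hE, h1, map_add, map_mul, map_mul, map_mul, Derivation.leibniz, smul_eq_mul, smul_eq_mul]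
    ring
  have Eof : ∀ (c : MvPolynomial (Fin P.d) ℤ) (z : P.loc h), (z : K) = P.φ (AdjoinRoot.of P.G c) →
      E z = 0 := by
    intro c z hz
    have h1 : (D' z : K) = P.φ (AdjoinRoot.of P.G (MvPolynomial.pderiv i c)) := by
      rw [hD', hz, P.D_of i D hD]
    rw [hE, key0 _ _ h1, key0 _ _ hz, hκ, sub_self]
  -- the element given by a polynomial
  obtain ⟨ζ, hζ⟩ : ∃ ζ : P.R → P.loc h, ∀ a, (ζ a : K) = P.φ a :=
    ⟨fun a => ⟨P.φ a, P.phi_mem h a⟩, fun _ => rfl⟩
  have ζadd : ∀ a b, ζ (a + b) = ζ a + ζ b := by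
    intro a b
    apply Subtype.ext
    push_cast
    rw [hζ, hζ, hζ, map_add]
  have ζmul : ∀ a b, ζ (a * b) = ζ a * ζ b := by
    intro a b
    apply Subtype.ext
    push_cast
    rw [hζ, hζ, hζ, map_mul]
  have Eg : ∀ g : (MvPolynomial (Fin P.d) ℤ)[X], E (ζ (AdjoinRoot.mk P.G g)) =
      Ψ₀ (AdjoinRoot.mk P.G (derivative g)) * E (ζ (AdjoinRoot.root P.G)) := by
    intro g
    induction g using Polynomial.induction_on with
    | C a =>
      rw [derivative_C, map_zero, map_zero, zero_mul]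
      exact Eof a _ (hζ _)
    | add p q hp hq =>
      rw [map_add, ζadd, Eadd, hp, hq, derivative_add, map_add, map_add, add_mul]
    | monomial n a hn =>
      have e : (C a * X ^ (n + 1) : (MvPolynomial (Fin P.d) ℤ)[X]) = C a * X ^ n * X := by
        rw [pow_succ, mul_assoc]
      have e3 : derivative (C a * X ^ n * X : (MvPolynomial (Fin P.d) ℤ)[X]) =
          derivative (C a * X ^ n) * X + C a * X ^ n := by
        rw [derivative_mul (f := C a * X ^ n), derivative_X, mul_one]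
      have e4 : Ψ₀ (AdjoinRoot.mk P.G (derivative (C a * X ^ n * X))) =
          Ψ₀ (AdjoinRoot.mk P.G (derivative (C a * X ^ n))) * Ψ₀ (AdjoinRoot.root P.G) +
            Ψ₀ (AdjoinRoot.mk P.G (C a * X ^ n)) := by
        rw [e3, map_add, map_add, map_mul, map_mul, AdjoinRoot.mk_X]
      have e5 : AdjoinRoot.mk P.G (C a * X ^ n * X) =
          AdjoinRoot.mk P.G (C a * X ^ n) * AdjoinRoot.root P.G := by
        rw [map_mul (AdjoinRoot.mk P.G) (C a * X ^ n) X, AdjoinRoot.mk_X]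
      rw [e, e4, e5, ζmul, Emul, hn, key0 _ _ (hζ _), key0 _ _ (hζ _)]
      ring
  have Eθ : E (ζ (AdjoinRoot.root P.G)) = 0 := by
    have h1 := Eg P.G
    have h2 : ζ (AdjoinRoot.mk P.G P.G) = 0 := by
      apply Subtype.ext
      rw [hζ, AdjoinRoot.mk_self, map_zero]
      rfl
    have h3 : E 0 = 0 := by
      have := Eadd 0 0
      rw [add_zero] at this
      exact left_eq_add.1 this
    rw [h2, h3] at h1
    have h4 : Ψ₀ (AdjoinRoot.mk P.G (derivative P.G)) ≠ 0 := hne P.disc hdisc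
    exact (mul_eq_zero.1 h1.symm).resolve_left h4
  have EA : ∀ a : P.R, E (ζ a) = 0 := by
    intro a
    obtain ⟨g, rfl⟩ := AdjoinRoot.mk_surjective a
    rw [Eg, Eθ, mul_zero]
  have Ez : ∀ z, E z = 0 := by
    intro z
    obtain ⟨a, n, hz⟩ := z.2
    have h1 : z * ζ (h ^ n) = ζ a := by
      apply Subtype.ext
      push_cast
      rw [hζ, hζ, map_pow, hz]
    have h2 := Emul z (ζ (h ^ n))
    rw [h1, EA, EA, mul_zero, zero_add, key0 _ _ (hζ _)] at h2
    have h3 : Ψ₀ (h ^ n) ≠ 0 := by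
      rw [map_pow]
      exact pow_ne_zero n (hne h hτ)
    exact (mul_eq_zero.1 h2.symm).resolve_left h3
  refine ⟨D', Ψ, hD', fun z => ?_, fun a z hz => ?_, fun c hc z hz => ?_⟩
  · have h1 := Ez z
    rw [hE] at h1
    exact sub_eq_zero.1 h1
  · rw [key0 z a hz]
    exact hc0 a
  · rw [key0 z _ hz]
    refine pderiv_zero_eval i hc (Ψ₀.comp (AdjoinRoot.of P.G))
      ((PowerSeries.C : F →+* PowerSeries F).comp (τ.comp (AdjoinRoot.of P.G))) fun j hj => ?_
    have h1 := hX j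
    rw [if_neg (fun h => hj h.symm), add_zero] at h1
    exact h1

end UD0
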