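import Pool.Agent.UD0.ZzA

/-!
# UD0, section 5, part B: properties of `W0`

PROOF of `w0_pow` (`w0_iff`): `w = u ^ n`, given `r ≥ 1`, `exists_cong` gives `r'`, `g`; put `M = l ^ r - 1`, `v = u ^ g` (`zpow`): as
`l ^ r' - 1 = n M + M ^ 2 g` (integers), `u ^ (l ^ r' - 1) = (u ^ n) ^ M * (u ^ g) ^ (M ^ 2)` (`zpow_natCast`, `zpow_mul`, `zpow_add₀`).
PROOF of `w0_succ` : given `r ≥ 1` and `r', g, v` for `(u, n, w)`; put `m = l ^ r`, `M = m - 1`, `m' = l ^ r'`, `e = n₀ + M g` (so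
`m' - 1 = M e`).  For `(u, n + 1, u w)` take `r'' = r + r'` (`m'' = m m'`), `g'' = g + e`, `v'' = v * u ^ e` (`zpow`):
`m m' - 1 = (m' - 1) + M (m' - 1) + M = n₀ M + M ^ 2 g + M ^ 2 e + M = (n₀ + 1) M + M ^ 2 (g + e)`, and
`u ^ (m'' - 1) = u ^ (m' - 1) * u ^ (M ^ 2 e) * u ^ M = w ^ M v ^ (M ^ 2) (u ^ e) ^ (M ^ 2) u ^ M = (u w) ^ M (v u ^ e) ^ (M ^ 2)`.
PROOF of `w0_root` : given `r ≥ 1`, `M = l ^ r - 1`, `w ^ M v ^ (M ^ 2) = u ^ (n M + M ^ 2 g)`; put `h = u ^ g / v` and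
`ζ = (w / u ^ n) / h ^ M`; then `ζ ^ M = 1` and `w / u ^ n = ζ * h ^ M`.
-/

set_option autoImplicit false

open Polynomial

namespace UD0

universe u

variable {K : Type u} [Field K] [CharZero K] {OK Lam : K → Prop} {Pm : K → K → K → Prop}

private theorem cast_pow_sub {l : ℕ} (hl : 1 < l) (r : ℕ) :
    ((l ^ r - 1 : ℕ) : ℤ) = (l : ℤ) ^ r - 1 := by
  rw [Nat.cast_sub (Nat.one_le_pow _ _ (by omega))]
  push_cast
  ring

theorem w0_pow {l : ℕ} (hl : 1 < l) (h : PowIn OK Lam Pm l) {u : K} (hu : u ≠ 0) (n : ℕ) :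
    W0 OK Lam Pm u n (u ^ n) := by
  rw [w0_iff hl h]
  refine ⟨hu, pow_ne_zero n hu, (n : ℤ), (Int.cast_natCast n).symm, fun r hr => ?_⟩
  obtain ⟨r', g, hg⟩ := exists_cong hl hr (n : ℤ)
  refine ⟨r', g, u ^ g, zpow_ne_zero g hu, hg, ?_⟩
  rw [← cast_pow_sub hl r, ← cast_pow_sub hl r'] at hg
  set M : ℕ := l ^ r - 1
  set M' : ℕ := l ^ r' - 1
  rw [← zpow_natCast u n, ← zpow_natCast (u ^ (n : ℤ)) M, ← zpow_natCast (u ^ g) (M ^ 2),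
    ← zpow_natCast u M', ← zpow_mul, ← zpow_mul, ← zpow_add₀ hu]
  congr 1
  push_cast
  linarith

theorem w0_succ {l : ℕ} (hl : 1 < l) (h : PowIn OK Lam Pm l) {u n w : K}
    (hw : W0 OK Lam Pm u n w) : W0 OK Lam Pm u (n + 1) (u * w) := by
  rw [w0_iff hl h] at hw ⊢
  obtain ⟨hu, hw0, n₀, hn, H⟩ := hw
  refine ⟨hu, mul_ne_zero hu hw0, n₀ + 1, by rw [hn]; push_cast; rfl, fun r hr => ?_⟩
  obtain ⟨r', g, v, hv, hg, he⟩ := H r hr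
  have hMM : ((l ^ (r + r') - 1 : ℕ) : ℤ) = ((l ^ r - 1 : ℕ) : ℤ) * ((l ^ r' - 1 : ℕ) : ℤ) +
      ((l ^ r - 1 : ℕ) : ℤ) + ((l ^ r' - 1 : ℕ) : ℤ) := by
    rw [cast_pow_sub hl, cast_pow_sub hl, cast_pow_sub hl, pow_add]
    ring
  rw [← cast_pow_sub hl r, ← cast_pow_sub hl r'] at hg
  have hgoal : (l : ℤ) ^ (r + r') - 1 - (n₀ + 1) * ((l : ℤ) ^ r - 1) =
      ((l ^ (r + r') - 1 : ℕ) : ℤ) - (n₀ + 1) * ((l ^ r - 1 : ℕ) : ℤ) := by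
    rw [cast_pow_sub hl, cast_pow_sub hl]
  refine ⟨r + r', g + (n₀ + ((l ^ r - 1 : ℕ) : ℤ) * g),
    v * u ^ (n₀ + ((l ^ r - 1 : ℕ) : ℤ) * g), mul_ne_zero hv (zpow_ne_zero _ hu), ?_, ?_⟩
  · rw [hgoal, hMM, ← cast_pow_sub hl r]
    linear_combination (((l ^ r - 1 : ℕ) : ℤ) + 1) * hg
  · set M : ℕ := l ^ r - 1
    set M' : ℕ := l ^ r' - 1
    set M'' : ℕ := l ^ (r + r') - 1
    have hM'' : M'' = M * M' + M + M' := by exact_mod_cast hMM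
    have e1 : (u ^ (n₀ + (M : ℤ) * g)) ^ (M ^ 2) = u ^ (M * M') := by
      rw [← zpow_natCast _ (M ^ 2), ← zpow_natCast u (M * M'), ← zpow_mul]
      congr 1
      push_cast
      linear_combination -(M : ℤ) * hg
    rw [hM'', mul_pow, mul_pow, e1, pow_add, pow_add, ← he]
    ring

/-- `w / u ^ n` is infinitely divisible up to roots of unity -/
theorem w0_root {l : ℕ} (hl : 1 < l) (h : PowIn OK Lam Pm l) {u w : K} {n : ℕ}
    (hw : W0 OK Lam Pm u n w) (r : ℕ) (hr : 0 < r) :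
    ∃ g ζ : K, g ≠ 0 ∧ ζ ^ (l ^ r - 1) = 1 ∧ w / u ^ n = ζ * g ^ (l ^ r - 1) := by
  rw [w0_iff hl h] at hw
  obtain ⟨hu, hw0, n₀, hn, H⟩ := hw
  have hn0 : n₀ = n := by
    have : ((n₀ : ℤ) : K) = ((n : ℤ) : K) := by rw [← hn, Int.cast_natCast]
    exact Int.cast_injective this
  obtain ⟨r', g, v, hv, hg, he⟩ := H r hr
  rw [← cast_pow_sub hl r, ← cast_pow_sub hl r', hn0] at hg
  set M : ℕ := l ^ r - 1
  set M' : ℕ := l ^ r' - 1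
  have hh : u ^ g / v ≠ 0 := div_ne_zero (zpow_ne_zero g hu) hv
  have e1 : u ^ (n * M) * (u ^ g) ^ (M ^ 2) = u ^ M' := by
    rw [← zpow_natCast u (n * M), ← zpow_natCast (u ^ g) (M ^ 2), ← zpow_natCast u M', ← zpow_mul,
      ← zpow_add₀ hu]
    congr 1
    push_cast
    linarith
  refine ⟨u ^ g / v, (w / u ^ n) / (u ^ g / v) ^ M, hh, ?_, ?_⟩
  · rw [div_pow, div_pow, ← pow_mul, ← pow_mul, ← pow_two, div_pow, div_div_eq_mul_div,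
      div_mul_eq_mul_div, he, div_div, ← e1]
    exact div_self (mul_ne_zero (pow_ne_zero _ hu) (pow_ne_zero _ (zpow_ne_zero _ hu)))
  · rw [div_mul_cancel₀ _ (pow_ne_zero _ hh)]

end UD0
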